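import Pool.Agent.Lib.MP_27775c_an_DO.BdA

/-!
# MP_27775c_an, project DO, module BdB: the limit average as a mean of horocyclic averages
-/

set_option autoImplicit false

open MeasureTheory Set Filter Topology
open scoped ENNReal

namespace Pool.Agent.MP27775c.DO

variable {Y : Type*} [TopologicalSpace Y] [PolishSpace Y] [MeasurableSpace Y] [BorelSpace Y]
  (A : RAct Y)

/-- Integration against `sigI`. -/
private theorem int_sigI {h : ℝ × ℝ → ℝ} (hm : Measurable h) {C : ℝ} (hC : ∀ p, |h p| ≤ C) :
    ∫ p, sigI p * h p = ∫ η in Ioi (1 : ℝ), 1 / η ^ 2 *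
      ∫ x in (-Real.sqrt (η - 1))..(Real.sqrt (η - 1)), h (x, η) := by
  have hs0 : ∀ p, 0 ≤ sigI p := fun p => by
    unfold sigI
    split_ifs
    · positivity
    · exact le_rfl
  have hint : Integrable fun p => sigI p * h p := by
    refine (dom_int.mul_const C).mono' (sigI_meas.mul hm).aestronglyMeasurable
      (Filter.Eventually.of_forall fun p => ?_)
    rw [Real.norm_eq_abs, abs_mul, abs_of_nonneg (hs0 p)]
    exact mul_le_mul (sigI_le p) (hC p) (abs_nonneg _) ((hs0 p).trans (sigI_le p))
  rw [Measure.volume_eq_prod] at hint ⊢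
  rw [integral_prod_symm _ hint, ← integral_indicator measurableSet_Ioi]
  congr 1
  funext η
  by_cases hη : 1 < η
  · rw [Set.indicator_of_mem (show η ∈ Ioi (1 : ℝ) from hη)]
    have h1 : ∀ x : ℝ, sigI (x, η) * h (x, η) =
        (Ioo (-Real.sqrt (η - 1)) (Real.sqrt (η - 1))).indicator
          (fun x => 1 / η ^ 2 * h (x, η)) x := by
      intro x
      unfold sigI
      by_cases hx : x ^ 2 < η - 1
      · have hx' : x ∈ Ioo (-Real.sqrt (η - 1)) (Real.sqrt (η - 1)) := Real.sq_lt.1 hx
        rw [Set.indicator_of_mem hx', if_pos ⟨hη, hx⟩]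
      · have hx' : x ∉ Ioo (-Real.sqrt (η - 1)) (Real.sqrt (η - 1)) := fun h =>
          hx (Real.sq_lt.2 h)
        rw [Set.indicator_of_notMem hx', if_neg fun h => hx h.2, zero_mul]
    simp only [h1]
    rw [integral_indicator measurableSet_Ioo, ← integral_Ioc_eq_integral_Ioo,
      integral_const_mul, intervalIntegral.integral_of_le]
    have := Real.sqrt_nonneg (η - 1)
    linarith
  · rw [Set.indicator_of_notMem (show η ∉ Ioi (1 : ℝ) from hη)]
    have h1 : ∀ x : ℝ, sigI (x, η) * h (x, η) = 0 := by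
      intro x
      unfold sigI
      rw [if_neg fun h => hη h.1, zero_mul]
    simp only [h1, integral_zero]

/-- The limit average as a mean of horocyclic averages.

Proof. Fubini; for fixed `η > 1` with `t = log η - R`, `nn x * aa t = aa t * nn (exp (-t) * x)`
and
`exp (-t) = exp R / η`; substitute `s = exp (-t) * x` in the integral over `|x| < √(η - 1)`. -/
theorem binf_eq (R : ℝ) {F : Y → ℝ} (hF : Measurable F) (hb : ∃ C, ∀ y, |F y| ≤ C) (y : Y) :
    binf A R F y = (∫ η in Ioi (1 : ℝ), 2 * Real.sqrt (η - 1) / η ^ 2 *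
      nav A (Real.sqrt (η - 1) * Real.exp R / η) F (A.act y (aa (Real.log η - R)))) /
        ∫ p, sigI p := by
  obtain ⟨C, hC⟩ := hb
  unfold binf
  congr 1
  have hm : Measurable fun p : ℝ × ℝ => F (A.act y (nn p.1 * aa (Real.log p.2 - R))) := by
    have h1 : Continuous fun q : ℝ × ℝ => A.act y (nn q.1 * aa q.2) :=
      A.cont.comp (continuous_const.prodMk ((continuous_nn.comp continuous_fst).mul
        (continuous_aa.comp continuous_snd)))
    have h2 : Measurable fun p : ℝ × ℝ => (p.1, Real.log p.2 - R) :=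
      measurable_fst.prodMk ((Real.measurable_log.comp measurable_snd).sub_const R)
    exact hF.comp (h1.measurable.comp h2)
  rw [int_sigI hm fun p => hC _]
  refine setIntegral_congr_fun measurableSet_Ioi fun η hη => ?_
  have hη1 : (1 : ℝ) < η := hη
  have hη0 : (0 : ℝ) < η := by linarith
  have hsq : 0 < Real.sqrt (η - 1) := Real.sqrt_pos.2 (by linarith)
  set e : ℝ := Real.exp R / η with he
  have he0 : 0 < e := by positivity
  have hexp : Real.exp (-(Real.log η - R)) = e := by
    rw [neg_sub, Real.exp_sub, Real.exp_log hη0]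
  have h1 : ∀ x : ℝ, F (A.act y (nn x * aa (Real.log η - R))) =
      F (A.act (A.act y (aa (Real.log η - R))) (nn (e * x))) := by
    intro x
    rw [nn_aa, hexp, A.act_mul]
  show 1 / η ^ 2 * ∫ x in (-Real.sqrt (η - 1))..(Real.sqrt (η - 1)),
    F (A.act y (nn x * aa (Real.log η - R))) = 2 * Real.sqrt (η - 1) / η ^ 2 *
      nav A (Real.sqrt (η - 1) * Real.exp R / η) F (A.act y (aa (Real.log η - R)))
  simp only [h1]
  rw [intervalIntegral.integral_comp_mul_left
    (fun s => F (A.act (A.act y (aa (Real.log η - R))) (nn s))) he0.ne']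
  have h2 : Real.sqrt (η - 1) * Real.exp R / η = e * Real.sqrt (η - 1) := by
    rw [he]
    ring
  unfold nav
  rw [h2, mul_neg, smul_eq_mul]
  field_simp

theorem sigI_eq : ∫ p, sigI p = ∫ η in Ioi (1 : ℝ), 2 * Real.sqrt (η - 1) / η ^ 2 := by
  have h := int_sigI (h := fun _ => 1) measurable_const (C := 1) fun _ => by simp
  simp only [mul_one] at h
  rw [h]
  refine setIntegral_congr_fun measurableSet_Ioi fun η _ => ?_
  show 1 / η ^ 2 * ∫ _ in (-Real.sqrt (η - 1))..(Real.sqrt (η - 1)), (1 : ℝ) =
    2 * Real.sqrt (η - 1) / η ^ 2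
  rw [intervalIntegral.integral_const, smul_eq_mul, mul_one]
  ring

end Pool.Agent.MP27775c.DO
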