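import Pool.Agent.Lib.MP_27775c_an_DO.BiA

/-!
# MP_27775c_an, project DO, module BiB: the pointwise ergodic theorem for the unipotent flow
-/

set_option autoImplicit false

open MeasureTheory Set Filter Topology

namespace Pool.Agent.MP27775c.DO

variable {Y : Type*} [TopologicalSpace Y] [PolishSpace Y] [MeasurableSpace Y] [BorelSpace Y]
  (A : RAct Y)

private theorem bib_ii {g : ℝ → ℝ} (hg : Measurable g) {C : ℝ} (hC : ∀ s, |g s| ≤ C)
    (a b : ℝ) : IntervalIntegrable g volume a b :=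
  (intervalIntegrable_const (c := C)).mono_fun' hg.aestronglyMeasurable
    (Eventually.of_forall fun s => hC s)

private theorem bib_curve_meas (y : Y) {F : Y → ℝ} (hF : Measurable F) :
    Measurable fun s : ℝ => F (A.act y (nn s)) := by
  have h : Continuous fun s : ℝ => A.act y (nn s) :=
    A.cont.comp (continuous_const.prodMk continuous_nn)
  exact hF.comp h.measurable

private theorem bib_iter (y : Y) (k : ℕ) :
    (fun z => A.act z (nn 1))^[k] y = A.act y (nn k) := by
  induction k with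
  | zero => simp [nn_zero, A.act_one]
  | succ k ih =>
    rw [Function.iterate_succ_apply', ih, ← A.act_mul, ← nn_add]
    push_cast
    rfl

private theorem bib_sum {F : Y → ℝ} (hF : Measurable F) {C : ℝ} (hC : ∀ y, |F y| ≤ C) (y : Y)
    (n : ℕ) : ∑ k ∈ Finset.range n, (∫ s in (0 : ℝ)..1,
        F (A.act ((fun z => A.act z (nn 1))^[k] y) (nn s))) =
      ∫ s in (0 : ℝ)..n, F (A.act y (nn s)) := by
  have h1 : ∀ k : ℕ, ∫ s in (0 : ℝ)..1, F (A.act ((fun z => A.act z (nn 1))^[k] y) (nn s)) =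
      ∫ s in (k : ℝ)..((k + 1 : ℕ) : ℝ), F (A.act y (nn s)) := by
    intro k
    rw [bib_iter]
    have h2 : ∀ s : ℝ, A.act (A.act y (nn k)) (nn s) = A.act y (nn (s + k)) := fun s => by
      rw [← A.act_mul, ← nn_add, add_comm]
    simp only [h2]
    rw [intervalIntegral.integral_comp_add_right (fun s => F (A.act y (nn s)))]
    push_cast
    rw [zero_add, add_comm (1 : ℝ)]
  rw [Finset.sum_congr rfl fun k _ => h1 k,
    intervalIntegral.sum_integral_adjacent_intervals (a := fun k : ℕ => (k : ℝ)) fun k _ =>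
      bib_ii (bib_curve_meas A y hF) (fun s => hC _) _ _, Nat.cast_zero]

private theorem bib_avg_abs {F : Y → ℝ} {C : ℝ} (hC : ∀ y, |F y| ≤ C) (y : Y) (n : ℕ) :
    |1 / (n : ℝ) * ∫ s in (0 : ℝ)..n, F (A.act y (nn s))| ≤ C := by
  have hC0 : 0 ≤ C := (abs_nonneg _).trans (hC y)
  rcases Nat.eq_zero_or_pos n with h | h
  · subst h
    simpa using hC0
  · have hn : (0 : ℝ) < n := by exact_mod_cast h
    have h1 := intervalIntegral.norm_integral_le_of_norm_le_const (a := (0 : ℝ)) (b := n) (C := C)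
      (f := fun s => F (A.act y (nn s))) (fun s _ => hC _)
    rw [Real.norm_eq_abs, sub_zero, abs_of_pos hn] at h1
    rw [abs_mul, abs_of_pos (one_div_pos.2 hn), one_div, inv_mul_le_iff₀ hn]
    linarith

private theorem bib_integral {m : Measure Y} [IsProbabilityMeasure m]
    (hm : ∀ s, tr A m (nn s) = m) {F : Y → ℝ} (hF : Measurable F) {C : ℝ}
    (hC : ∀ y, |F y| ≤ C) :
    ∫ y, (∫ s in (0 : ℝ)..1, F (A.act y (nn s))) ∂m = ∫ y, F y ∂m := by
  have hjm : Measurable fun p : Y × ℝ => F (A.act p.1 (nn p.2)) :=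
    hF.comp (meas_joint A continuous_nn)
  have h1 : ∀ y, (∫ s in (0 : ℝ)..1, F (A.act y (nn s))) =
      ∫ s in Ioc (0 : ℝ) 1, F (A.act y (nn s)) := fun y =>
    intervalIntegral.integral_of_le zero_le_one
  simp only [h1]
  rw [integral_integral_swap]
  · have h2 : ∀ s : ℝ, ∫ y, F (A.act y (nn s)) ∂m = ∫ y, F y ∂m := by
      intro s
      rw [← integral_tr A m (nn s) F, hm s]
    simp only [h2]
    simp
  · exact Integrable.of_bound hjm.aestronglyMeasurable C
      (Eventually.of_forall fun p => by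
        rw [Real.norm_eq_abs]
        exact hC _)

/-- If `m` is ergodic for the unipotent flow then the limes superior is constant, equal to the
integral: both inequalities.

Proof. `nsup A F` is invariant, so it is almost everywhere constant `= c` (sets `{nsup > x}`,
`IsNErg`;
`ae_const_of...`). Let `f y = ∫ s in 0..1, F (y · nn s)`, `τ y = y · nn 1`; then
`∫ s in 0..n, F (y · nn s) = ∑ k < n, f (τ^[k] y)` and `∫ f = ∫ F`. For `x < c` almost every `y`
has `n` with
average `> x`, so `x ≤ ∫ F` (`erg_le`): `c ≤ ∫ F`. -/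
theorem nsup_le {m : Measure Y} [IsProbabilityMeasure m] (hm : ∀ s, tr A m (nn s) = m)
    (he : IsNErg A m) {F : Y → ℝ} (hF : Measurable F) (hb : ∃ C, ∀ y, |F y| ≤ C) :
    ∀ᵐ y ∂m, nsup A F y ≤ ∫ y, F y ∂m := by
  obtain ⟨C, hC⟩ := hb
  have hτ : MeasurePreserving (fun z => A.act z (nn 1)) m m := mp_of_tr A (hm 1)
  have hjm : Measurable fun p : Y × ℝ => F (A.act p.1 (nn p.2)) :=
    hF.comp (meas_joint A continuous_nn)
  have hfm : Measurable fun z => ∫ s in (0 : ℝ)..1, F (A.act z (nn s)) := by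
    have h := (hjm.stronglyMeasurable.integral_prod_right'
      (ν := volume.restrict (Ioc (0 : ℝ) 1))).measurable
    have e : (fun z => ∫ s in (0 : ℝ)..1, F (A.act z (nn s))) =
        fun z => ∫ s in Ioc (0 : ℝ) 1, F (A.act z (nn s)) := by
      funext z
      exact intervalIntegral.integral_of_le zero_le_one
    rw [e]
    exact h
  have hfb : ∀ y, |∫ s in (0 : ℝ)..1, F (A.act y (nn s))| ≤ C := by
    intro y
    have h := intervalIntegral.norm_integral_le_of_norm_le_const (a := (0 : ℝ)) (b := 1) (C := C)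
      (f := fun s => F (A.act y (nn s))) (fun s _ => hC _)
    simpa using h
  have hkey : ∀ x : ℝ, ∫ y, F y ∂m < x → m {y | x < nsup A F y} = 0 := by
    intro x hx
    have hE : MeasurableSet {y | x < nsup A F y} :=
      measurableSet_lt measurable_const (nsup_meas A hF ⟨C, hC⟩)
    have hinv : ∀ s, AInv A m {y | x < nsup A F y} (nn s) := by
      intro s
      have h1 : (fun y => A.act y (nn s)) ⁻¹' {y | x < nsup A F y} = {y | x < nsup A F y} := by
        ext y
        change x < nsup A F (A.act y (nn s)) ↔ x < nsup A F y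
        rw [nsup_inv A hF ⟨C, hC⟩]
      unfold AInv
      rw [h1, symmDiff_self]
      exact measure_empty
    rcases he _ hE hinv with h | h
    · exact h
    · exfalso
      have h2 : ∀ᵐ y ∂m, ∃ n : ℕ, 0 < n ∧ x * n < ∑ k ∈ Finset.range n,
          (fun z => ∫ s in (0 : ℝ)..1, F (A.act z (nn s)))
            ((fun z => A.act z (nn 1))^[k] y) := by
        have h3 : ∀ᵐ y ∂m, x < nsup A F y := h
        filter_upwards [h3] with y hy
        have hcb : IsBoundedUnder (· ≥ ·) atTop
            (fun n : ℕ => 1 / (n : ℝ) * ∫ s in (0 : ℝ)..n, F (A.act y (nn s))) :=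
          ⟨-C, eventually_map.2 (Eventually.of_forall fun n =>
            (abs_le.1 (bib_avg_abs A hC y n)).1)⟩
        have h4 : ∃ᶠ n : ℕ in atTop, x < 1 / (n : ℝ) * ∫ s in (0 : ℝ)..n, F (A.act y (nn s)) :=
          frequently_lt_of_lt_limsup hcb.isCoboundedUnder_le hy
        obtain ⟨n, hn, hn'⟩ := (h4.and_eventually (eventually_gt_atTop 0)).exists
        refine ⟨n, hn', ?_⟩
        rw [bib_sum A hF hC]
        have h5 : (0 : ℝ) < n := by exact_mod_cast hn'
        rw [one_div, ← div_eq_inv_mul, lt_div_iff₀ h5] at hn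
        exact hn
      have h6 := erg_le hτ hfm ⟨C, hfb⟩ h2
      rw [bib_integral A hm hF hC] at h6
      exact absurd h6 (not_le.2 hx)
  have h6 : ∀ j : ℕ, ∀ᵐ y ∂m, nsup A F y ≤ ∫ y, F y ∂m + 1 / ((j : ℝ) + 1) := by
    intro j
    have hj : (0 : ℝ) < 1 / ((j : ℝ) + 1) := by positivity
    have h7 := hkey (∫ y, F y ∂m + 1 / ((j : ℝ) + 1)) (by linarith)
    rw [ae_iff]
    simp only [not_le]
    exact h7
  filter_upwards [ae_all_iff.2 h6] with y hy
  refine le_of_forall_pos_le_add fun ε hε => ?_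
  obtain ⟨j, hj⟩ := exists_nat_one_div_lt hε
  exact (hy j).trans (by linarith)

private theorem bib_avg {m : Measure Y} [IsProbabilityMeasure m] (hm : ∀ s, tr A m (nn s) = m)
    (he : IsNErg A m) {F : Y → ℝ} (hF : Measurable F) {C : ℝ} (hC : ∀ y, |F y| ≤ C) :
    ∀ᵐ y ∂m, Tendsto (fun n : ℕ => 1 / (n : ℝ) * ∫ s in (0 : ℝ)..n, F (A.act y (nn s))) atTop
      (𝓝 (∫ y, F y ∂m)) := by
  have h1 := nsup_le A hm he hF ⟨C, hC⟩
  have h2 := nsup_le A hm he (F := fun y => -F y) hF.neg ⟨C, fun y => by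
    rw [abs_neg]
    exact hC y⟩
  filter_upwards [h1, h2] with y hy1 hy2
  rw [integral_neg] at hy2
  have e : nsup A (fun y => -F y) y =
      limsup (fun n : ℕ => -(1 / (n : ℝ) * ∫ s in (0 : ℝ)..n, F (A.act y (nn s)))) atTop := by
    unfold nsup
    congr 1
    funext n
    rw [intervalIntegral.integral_neg, mul_neg]
  rw [e] at hy2
  have hb1 : IsBoundedUnder (· ≤ ·) atTop
      (fun n : ℕ => 1 / (n : ℝ) * ∫ s in (0 : ℝ)..n, F (A.act y (nn s))) :=
    ⟨C, eventually_map.2 (Eventually.of_forall fun n => (abs_le.1 (bib_avg_abs A hC y n)).2)⟩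
  have hb2 : IsBoundedUnder (· ≤ ·) atTop
      (fun n : ℕ => -(1 / (n : ℝ) * ∫ s in (0 : ℝ)..n, F (A.act y (nn s)))) :=
    ⟨C, eventually_map.2 (Eventually.of_forall fun n => by
      have := (abs_le.1 (bib_avg_abs A hC y n)).1
      linarith)⟩
  refine tendsto_order.2 ⟨fun a ha => ?_, fun a ha => ?_⟩
  · have h3 := eventually_lt_of_limsup_lt (hy2.trans_lt (neg_lt_neg ha)) hb2
    filter_upwards [h3] with n hn
    exact neg_lt_neg_iff.1 hn
  · exact eventually_lt_of_limsup_lt (lt_of_le_of_lt hy1 ha) hb1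

/-- Conjugation by `diag (1, -1)`. -/
private noncomputable def bibT (g : G) : G :=
  ⟨!![g.1 0 0, -g.1 0 1; -g.1 1 0, g.1 1 1], by
    have h := g.2
    rw [Matrix.det_fin_two] at h ⊢
    simpa using h⟩

private theorem bibT_mul (g h : G) : bibT (g * h) = bibT g * bibT h := by
  apply Subtype.ext
  ext i j
  fin_cases i <;> fin_cases j <;>
    simp [bibT, Matrix.mul_apply, Fin.sum_univ_two] <;> ring

private theorem bibT_one : bibT 1 = 1 := by
  apply Subtype.ext
  ext i j
  fin_cases i <;> fin_cases j <;> simp [bibT]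

private theorem bibT_neg (g : G) : bibT (-g) = -bibT g := by
  apply Subtype.ext
  ext i j
  fin_cases i <;> fin_cases j <;> simp [bibT]

private theorem bibT_nn (s : ℝ) : bibT (nn s) = nn (-s) := by
  apply Subtype.ext
  ext i j
  fin_cases i <;> fin_cases j <;> simp [bibT, nn]

private theorem bibT_cont : Continuous bibT := by
  refine Continuous.subtype_mk (continuous_matrix fun i j => ?_) _
  have h : ∀ i j, Continuous fun g : G => g.1 i j := fun i j =>
    continuous_subtype_val.matrix_elem i j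
  fin_cases i <;> fin_cases j
  · exact h 0 0
  · exact (h 0 1).neg
  · exact (h 1 0).neg
  · exact h 1 1

/-- The action twisted by `bibT`. -/
private noncomputable def bibA : RAct Y where
  act y g := A.act y (bibT g)
  act_one y := by rw [bibT_one, A.act_one]
  act_mul y g h := by rw [bibT_mul, A.act_mul]
  act_neg y g := by rw [bibT_neg, A.act_neg]
  cont := A.cont.comp (continuous_fst.prodMk (bibT_cont.comp continuous_snd))

private theorem bib_floor {g : ℝ → ℝ} (hg : Measurable g) {C I : ℝ} (hC : ∀ s, |g s| ≤ C)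
    (h : Tendsto (fun n : ℕ => 1 / (n : ℝ) * ∫ s in (0 : ℝ)..n, g s) atTop (𝓝 I)) :
    Tendsto (fun L : ℝ => 1 / L * ∫ s in (0 : ℝ)..L, g s) atTop (𝓝 I) := by
  have h1 : Tendsto (fun L : ℝ => 1 / ((⌊L⌋₊ : ℕ) : ℝ) * ∫ s in (0 : ℝ)..(⌊L⌋₊ : ℕ), g s) atTop
      (𝓝 I) := h.comp tendsto_nat_floor_atTop
  have h2 : Tendsto (fun L : ℝ => ((⌊L⌋₊ : ℕ) : ℝ) / L) atTop (𝓝 1) :=
    tendsto_nat_floor_div_atTop
  have h3 := h2.mul h1
  have h4 : Tendsto (fun L : ℝ => C / L) atTop (𝓝 0) := tendsto_const_nhds.div_atTop tendsto_id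
  have h5 : Tendsto (fun L : ℝ => 1 / L * (∫ s in (0 : ℝ)..L, g s) -
      ((⌊L⌋₊ : ℕ) : ℝ) / L * (1 / ((⌊L⌋₊ : ℕ) : ℝ) * ∫ s in (0 : ℝ)..(⌊L⌋₊ : ℕ), g s)) atTop
      (𝓝 0) := by
    refine squeeze_zero_norm' ?_ h4
    filter_upwards [eventually_ge_atTop (1 : ℝ)] with L hL
    have hL0 : 0 < L := by linarith
    have hn : (0 : ℝ) < (⌊L⌋₊ : ℕ) := by
      have : 1 ≤ ⌊L⌋₊ := (Nat.one_le_floor_iff L).2 hL
      exact_mod_cast this
    have hnL : ((⌊L⌋₊ : ℕ) : ℝ) ≤ L := Nat.floor_le hL0.le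
    have hLn : L < ((⌊L⌋₊ : ℕ) : ℝ) + 1 := Nat.lt_floor_add_one L
    have e1 : ((⌊L⌋₊ : ℕ) : ℝ) / L * (1 / ((⌊L⌋₊ : ℕ) : ℝ) *
        ∫ s in (0 : ℝ)..(⌊L⌋₊ : ℕ), g s) = 1 / L * ∫ s in (0 : ℝ)..(⌊L⌋₊ : ℕ), g s := by
      field_simp
    rw [e1, ← mul_sub, intervalIntegral.integral_interval_sub_left (bib_ii hg hC _ _)
      (bib_ii hg hC _ _)]
    have h6 := intervalIntegral.norm_integral_le_of_norm_le_const (a := ((⌊L⌋₊ : ℕ) : ℝ)) (b := L)
      (C := C) (f := g) (fun s _ => hC s)
    have hC0 : 0 ≤ C := (abs_nonneg _).trans (hC 0)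
    rw [norm_mul, Real.norm_eq_abs (1 / L), abs_of_pos (one_div_pos.2 hL0), one_div,
      inv_mul_le_iff₀ hL0]
    refine h6.trans ?_
    rw [abs_of_nonneg (sub_nonneg.2 hnL)]
    have e2 : L * (C / L) = C := by field_simp
    rw [e2]
    nlinarith
  have h7 := h5.add h3
  rw [zero_add, one_mul] at h7
  refine h7.congr fun L => ?_
  ring

/-- Pointwise ergodic theorem for the symmetric averages.

Proof. `nsup_le` for `F` and `-F` gives convergence of the averages over `(0, n)` to `∫ F`, then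
over
`(0, L)` for real `L` (the difference is at most `2 C / L`). For the times `(-L, 0)` use
`F` and the flow `nn (-s)` (repeat the argument, or use the invariance of `m` under `nn (-1)`: the
auxiliary lemmas can be stated for the flow `nn (ε s)`, `ε = ± 1`). -/
theorem birk {m : Measure Y} [IsProbabilityMeasure m] (hm : ∀ s, tr A m (nn s) = m)
    (he : IsNErg A m) {F : Y → ℝ} (hF : Measurable F) (hb : ∃ C, ∀ y, |F y| ≤ C) :
    ∀ᵐ y ∂m, Tendsto (fun L => nav A L F y) atTop (𝓝 (∫ y, F y ∂m)) := by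
  obtain ⟨C, hC⟩ := hb
  have hm' : ∀ s, tr (bibA A) m (nn s) = m := by
    intro s
    change m.map (fun y => A.act y (bibT (nn s))) = m
    rw [bibT_nn]
    exact hm (-s)
  have he' : IsNErg (bibA A) m := by
    intro E hE h
    refine he E hE fun s => ?_
    have h1 := h (-s)
    have h2 : (fun y => (bibA A).act y (nn (-s))) = fun y => A.act y (nn s) := by
      funext y
      change A.act y (bibT (nn (-s))) = _
      rw [bibT_nn, neg_neg]
    unfold AInv at h1 ⊢
    rwa [h2] at h1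
  filter_upwards [bib_avg A hm he hF hC, bib_avg (bibA A) hm' he' hF hC] with y h1 h2
  have h3 := bib_floor (bib_curve_meas A y hF) (fun s => hC _) h1
  have h4 := bib_floor (bib_curve_meas (bibA A) y hF) (fun s => hC _) h2
  have h5 := (h3.add h4).const_mul (1 / 2)
  have e0 : (1 / 2 : ℝ) * (∫ y, F y ∂m + ∫ y, F y ∂m) = ∫ y, F y ∂m := by ring
  rw [e0] at h5
  refine h5.congr fun L => ?_
  have e1 : ∀ s : ℝ, (bibA A).act y (nn s) = A.act y (nn (-s)) := by
    intro s
    change A.act y (bibT (nn s)) = _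
    rw [bibT_nn]
  simp only [e1]
  have e2 : ∫ s in (0 : ℝ)..L, F (A.act y (nn (-s))) = ∫ s in (-L)..0, F (A.act y (nn s)) := by
    have h := intervalIntegral.integral_comp_neg (a := 0) (b := L)
      (fun s => F (A.act y (nn s)))
    rw [neg_zero] at h
    exact h
  rw [e2]
  unfold nav
  rw [← intervalIntegral.integral_add_adjacent_intervals
    (bib_ii (bib_curve_meas A y hF) (fun s => hC _) (-L) 0)
    (bib_ii (bib_curve_meas A y hF) (fun s => hC _) 0 L)]
  simp only [one_div, mul_inv]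
  ring

end Pool.Agent.MP27775c.DO
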