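import Pool.Agent.Lib.MP_27775c_an_DO.BiA

/-!
# MP_27775c_an, project DO, module BiC: strictly invariant functions
-/

set_option autoImplicit false

open MeasureTheory Set Filter Topology

namespace Pool.Agent.MP27775c.DO

variable {Y : Type*} [TopologicalSpace Y] [PolishSpace Y] [MeasurableSpace Y] [BorelSpace Y]
  (A : RAct Y)

/-- The set of pairs where the orbit point is in `E` if and only if the starting point is. -/
private theorem meas_iff {E : Set Y} (hE : MeasurableSet E) :
    MeasurableSet {x : Y × ℝ | A.act x.1 (nn x.2) ∈ E ↔ x.1 ∈ E} := by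
  have h1 : MeasurableSet {x : Y × ℝ | A.act x.1 (nn x.2) ∈ E} :=
    (meas_joint A continuous_nn) hE
  have h2 : MeasurableSet {x : Y × ℝ | x.1 ∈ E} := measurable_fst hE
  have h3 : {x : Y × ℝ | A.act x.1 (nn x.2) ∈ E ↔ x.1 ∈ E} =
      ({x : Y × ℝ | A.act x.1 (nn x.2) ∈ E} ∩ {x : Y × ℝ | x.1 ∈ E}) ∪
      ({x : Y × ℝ | A.act x.1 (nn x.2) ∈ E}ᶜ ∩ {x : Y × ℝ | x.1 ∈ E}ᶜ) := by
    ext x
    simp only [Set.mem_ofPred_eq, Set.mem_union, Set.mem_inter_iff, Set.mem_compl_iff]
    tauto
  rw [h3]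
  exact (h1.inter h2).union (h1.compl.inter h2.compl)

omit [PolishSpace Y] [MeasurableSpace Y] [BorelSpace Y] in
private theorem nsup_eq {E : Set Y} {y : Y}
    (h : ∀ᵐ s : ℝ, (A.act y (nn s) ∈ E ↔ y ∈ E)) :
    nsup A (E.indicator fun _ => (1 : ℝ)) y = E.indicator (fun _ => (1 : ℝ)) y := by
  unfold nsup
  have key : (fun n : ℕ => 1 / (n : ℝ) * ∫ s in (0 : ℝ)..n,
      E.indicator (fun _ => (1 : ℝ)) (A.act y (nn s))) =ᶠ[atTop]
      fun _ => E.indicator (fun _ => (1 : ℝ)) y := by
    filter_upwards [eventually_gt_atTop 0] with n hn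
    have hn' : (n : ℝ) ≠ 0 := by exact_mod_cast hn.ne'
    have h1 : ∫ s in (0 : ℝ)..n, E.indicator (fun _ => (1 : ℝ)) (A.act y (nn s)) =
        ∫ s in (0 : ℝ)..n, E.indicator (fun _ => (1 : ℝ)) y := by
      apply intervalIntegral.integral_congr_ae
      filter_upwards [h] with s hs _
      by_cases hy : y ∈ E
      · rw [Set.indicator_of_mem hy, Set.indicator_of_mem (hs.2 hy)]
      · rw [Set.indicator_of_notMem hy, Set.indicator_of_notMem (fun h' => hy (hs.1 h'))]
    rw [h1, intervalIntegral.integral_const, smul_eq_mul, sub_zero]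
    field_simp
  rw [limsup_congr key, limsup_const]

/-- A measure which is not ergodic for the unipotent flow has a strictly invariant non constant
bounded function.

Proof. Let `E` be invariant mod `m`, `0 < m E < 1`, `U = nsup A (indicator E 1)`, composed with
the
projection to `[0, 1]` (it has values in `[0, 1]` anyway). By Fubini for almost all `y` we have
`y · nn s ∈ E ↔ y ∈ E` for almost all `s`, so `U = indicator E 1` almost everywhere. -/
theorem exists_U {m : Measure Y} [IsProbabilityMeasure m] (hm : ∀ s, tr A m (nn s) = m)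
    (he : ¬ IsNErg A m) : ∃ U : Y → ℝ, Measurable U ∧ (∀ y, 0 ≤ U y ∧ U y ≤ 1) ∧
      (∀ y s, U (A.act y (nn s)) = U y) ∧ ¬ ∃ c, ∀ᵐ y ∂m, U y = c := by
  unfold IsNErg at he
  push Not at he
  obtain ⟨E, hE, hinv, hE0, hE1⟩ := he
  have hF : Measurable (E.indicator fun _ => (1 : ℝ)) := measurable_const.indicator hE
  have hb : ∀ y, |E.indicator (fun _ => (1 : ℝ)) y| ≤ 1 := by
    intro y
    by_cases hy : y ∈ E
    · rw [Set.indicator_of_mem hy, abs_one]
    · rw [Set.indicator_of_notMem hy, abs_zero]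
      exact zero_le_one
  have hae : ∀ᵐ y ∂m, ∀ᵐ s : ℝ, (A.act y (nn s) ∈ E ↔ y ∈ E) := by
    rw [Measure.ae_ae_comm (meas_iff A hE)]
    refine Eventually.of_forall fun s => ?_
    have h1 := hinv s
    unfold AInv at h1
    rw [ae_iff]
    refine measure_mono_null (fun y hy => ?_) h1
    simp only [Set.mem_ofPred_eq] at hy
    simp only [Set.mem_symmDiff, Set.mem_preimage]
    tauto
  refine ⟨fun y => max 0 (nsup A (E.indicator fun _ => (1 : ℝ)) y),
    measurable_const.max (nsup_meas A hF ⟨1, hb⟩), ?_, ?_, ?_⟩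
  · intro y
    refine ⟨le_max_left _ _, max_le zero_le_one ?_⟩
    exact (le_abs_self _).trans (nsup_bdd A hb y)
  · intro y s
    simp only [nsup_inv A hF ⟨1, hb⟩ y s]
  · rintro ⟨c, hc⟩
    have hc' : ∀ᵐ y ∂m, E.indicator (fun _ => (1 : ℝ)) y = c := by
      filter_upwards [hae, hc] with y hy1 hy2
      rw [nsup_eq A hy1] at hy2
      rw [← hy2, max_eq_right]
      exact Set.indicator_nonneg (fun _ _ => zero_le_one) y
    have hex : ∀ S : Set Y, m S ≠ 0 → ∃ y ∈ S, E.indicator (fun _ => (1 : ℝ)) y = c := by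
      intro S hS
      by_contra hcon
      push Not at hcon
      refine hS (measure_mono_null (fun y hy => ?_) (ae_iff.1 hc'))
      exact hcon y hy
    obtain ⟨y, hy, h1⟩ := hex E hE0
    obtain ⟨z, hz, h0⟩ := hex Eᶜ hE1
    rw [Set.indicator_of_mem hy] at h1
    rw [Set.indicator_of_notMem hz] at h0
    rw [← h1] at h0
    exact zero_ne_one h0

end Pool.Agent.MP27775c.DO
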