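import Pool.Agent.Lib.MP_27775c_an_DO.Ball
import Pool.Agent.Lib.MP_27775c_an_DO.Birk

/-!
# MP_27775c_an, project DO, module BdC: the largest deviation
-/

set_option autoImplicit false

open MeasureTheory Set Filter Topology
open scoped ENNReal

namespace Pool.Agent.MP27775c.DO

variable {Y : Type*} [TopologicalSpace Y] [PolishSpace Y] [MeasurableSpace Y] [BorelSpace Y]
  (A : RAct Y)

/-- The largest deviation of the averages over lengths at least `l` (rational lengths are enough,
but the supremum over all real `L ≥ l` is the same by continuity). -/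
noncomputable def gsup (F : Y → ℝ) (c l : ℝ) (y : Y) : ℝ≥0∞ :=
  ⨆ L : {q : ℚ // l ≤ (q : ℝ) ∧ 0 < (q : ℝ)}, ENNReal.ofReal |nav A (L.1 : ℝ) F y - c|

theorem gsup_meas {F : Y → ℝ} (hF : Measurable F) (c l : ℝ) : Measurable (gsup A F c l) := by
  refine Measurable.iSup fun L => ?_
  exact ENNReal.measurable_ofReal.comp ((nav_meas A _ hF).sub measurable_const).norm

private theorem bdc_cont {F : Y → ℝ} (hF : Measurable F) (hb : ∃ C, ∀ y, |F y| ≤ C) (y : Y)
    {L : ℝ} (hL : 0 < L) : ContinuousAt (fun L => nav A L F y) L := by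
  obtain ⟨C, hC⟩ := hb
  have hm : Measurable fun s : ℝ => F (A.act y (nn s)) :=
    hF.comp (A.cont.comp (continuous_const.prodMk continuous_nn)).measurable
  have hi : ∀ a b : ℝ, IntervalIntegrable (fun s : ℝ => F (A.act y (nn s))) volume a b := by
    intro a b
    rw [intervalIntegrable_iff]
    refine Measure.integrableOn_of_bounded (M := C) ?_ hm.aestronglyMeasurable ?_
    · simp [uIoc]
    · exact Eventually.of_forall fun s => by
        rw [Real.norm_eq_abs]
        exact hC _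
  have h1 : Continuous fun L : ℝ => ∫ s in (0 : ℝ)..L, F (A.act y (nn s)) :=
    intervalIntegral.continuous_primitive hi 0
  have h2 : Continuous fun L : ℝ => ∫ s in (-L)..L, F (A.act y (nn s)) := by
    have h3 : (fun L : ℝ => ∫ s in (-L)..L, F (A.act y (nn s))) = fun L : ℝ =>
        (∫ s in (0 : ℝ)..L, F (A.act y (nn s))) - ∫ s in (0 : ℝ)..(-L), F (A.act y (nn s)) := by
      funext L
      rw [intervalIntegral.integral_interval_sub_left (hi _ _) (hi _ _)]
    rw [h3]
    exact h1.sub (h1.comp continuous_neg)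
  unfold nav
  refine ContinuousAt.mul ?_ h2.continuousAt
  exact continuousAt_const.div (continuousAt_const.mul continuousAt_id) (by simpa using hL.ne')

/-- Proof: continuity of `L ↦ nav A L F y` for `L > 0` (for bounded measurable `F`). -/
theorem le_gsup {F : Y → ℝ} (hF : Measurable F) (hb : ∃ C, ∀ y, |F y| ≤ C) (c : ℝ) {l L : ℝ}
    (hl : l ≤ L) (hL : 0 < L) (y : Y) :
    ENNReal.ofReal |nav A L F y - c| ≤ gsup A F c l y := by
  obtain ⟨u, -, hu1, hu2⟩ := Real.exists_seq_rat_strictAnti_tendsto L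
  have h1 : Tendsto (fun n => ENNReal.ofReal |nav A (u n : ℝ) F y - c|) atTop
      (𝓝 (ENNReal.ofReal |nav A L F y - c|)) := by
    refine (ENNReal.continuous_ofReal.tendsto _).comp ?_
    refine (continuous_abs.tendsto _).comp ?_
    refine Tendsto.sub ?_ tendsto_const_nhds
    exact (bdc_cont A hF hb y hL).tendsto.comp hu2
  refine le_of_tendsto h1 (Eventually.of_forall fun n => ?_)
  exact le_iSup (fun q : {q : ℚ // l ≤ (q : ℝ) ∧ 0 < (q : ℝ)} =>
    ENNReal.ofReal |nav A (q.1 : ℝ) F y - c|) ⟨u n, hl.trans (hu1 n).le, hL.trans (hu1 n)⟩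

/-- Proof: `birk`. -/
theorem gsup_tendsto {m : Measure Y} [IsProbabilityMeasure m] (hm : ∀ s, tr A m (nn s) = m)
    (he : IsNErg A m) {F : Y → ℝ} (hF : Measurable F) (hb : ∃ C, ∀ y, |F y| ≤ C) :
    ∀ᵐ y ∂m, Tendsto (fun n : ℕ => gsup A F (∫ y, F y ∂m) n y) atTop (𝓝 0) := by
  filter_upwards [birk A hm he hF hb] with y hy
  rw [ENNReal.tendsto_atTop_zero]
  intro ε hε
  obtain ⟨r, hr0, hr⟩ := ENNReal.lt_iff_exists_nnreal_btwn.1 hε
  have hr0' : (0 : ℝ) < r := by exact_mod_cast hr0
  obtain ⟨L0, hL0⟩ := Filter.eventually_atTop.1 (Metric.tendsto_nhds.1 hy r hr0')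
  obtain ⟨N, hN⟩ := exists_nat_ge L0
  refine ⟨N, fun n hn => ?_⟩
  refine iSup_le fun q => ?_
  have h1 : L0 ≤ (q.1 : ℝ) := by
    have h2 : (N : ℝ) ≤ n := by exact_mod_cast hn
    exact hN.trans (h2.trans q.2.1)
  have h3 := hL0 _ h1
  rw [Real.dist_eq] at h3
  refine le_trans (ENNReal.ofReal_le_ofReal h3.le) ?_
  rw [ENNReal.ofReal_coe_nnreal]
  exact hr.le

end Pool.Agent.MP27775c.DO
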