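import Pool.Agent.Lib.MP_27775c_an_DO.MxA

/-!
# MP_27775c_an, project DO, module MxB: maximal ergodic theorem
-/

set_option autoImplicit false

open MeasureTheory Set Filter Topology
open scoped ENNReal

namespace Pool.Agent.MP27775c.DO

variable {Y : Type*} [MeasurableSpace Y]

/-- The maximal ergodic inequality for a measure preserving map. -/
theorem hopf_det {m : Measure Y} [IsProbabilityMeasure m] {τ : Y → Y}
    (hτ : MeasurePreserving τ m m) {f : Y → ℝ≥0∞} (hf : Measurable f) {c : ℝ≥0∞} (hc : 0 < c)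
    (hc' : c ≠ ⊤) :
    m {y | ∃ n : ℕ, 0 < n ∧ c * n < ∑ k ∈ Finset.range n, f (τ^[k] y)} ≤
      (∫⁻ y, f y ∂m) / c := by
  have hm : m.bind (ProbabilityTheory.Kernel.deterministic τ hτ.measurable) = m :=
    (Measure.deterministic_comp_eq_map hτ.measurable).trans hτ.map_eq
  have h := hopf (ProbabilityTheory.Kernel.deterministic τ hτ.measurable) m hm hf hc hc'
  simp only [Qit_det hτ.measurable _ hf] at h
  exact h

/-- The maximal ergodic theorem: if the averages of the bounded function `f` have limes superior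
larger than `c` almost everywhere, then `c ≤ ∫ f`.

Proof. By Garsia's argument (see `hopf`) for `f - c`: `∫_{M n > 0} (f - c) ≥ 0` for every `n`, and
the
sets `{M n > 0}` increase to a set of full measure. -/
theorem erg_le {m : Measure Y} [IsProbabilityMeasure m] {τ : Y → Y}
    (hτ : MeasurePreserving τ m m) {f : Y → ℝ} (hf : Measurable f) (hb : ∃ C, ∀ y, |f y| ≤ C)
    {c : ℝ} (h : ∀ᵐ y ∂m, ∃ n : ℕ, 0 < n ∧ c * n < ∑ k ∈ Finset.range n, f (τ^[k] y)) :
    c ≤ ∫ y, f y ∂m := by
  obtain ⟨C, hC⟩ := hb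
  have hint : Integrable f m :=
    Integrable.of_bound hf.aestronglyMeasurable C (ae_of_all _ fun y => by
      rw [Real.norm_eq_abs]
      exact hC y)
  set K : ℝ := |C| + |c| + 1 with hK
  have hfK : ∀ y, 0 ≤ f y + K := by
    intro y
    have h1 := (abs_le.1 (hC y)).1
    have h2 := le_abs_self C
    have h3 := abs_nonneg c
    linarith
  have hcK : 0 < c + K := by
    have h1 := neg_abs_le c
    have h2 := abs_nonneg C
    linarith
  have hm : Measurable fun y => ENNReal.ofReal (f y + K) :=
    ENNReal.measurable_ofReal.comp (hf.add_const K)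
  have h1 := hopf_det hτ hm (c := ENNReal.ofReal (c + K)) (ENNReal.ofReal_pos.2 hcK)
    ENNReal.ofReal_ne_top
  have h2 : m {y | ∃ n : ℕ, 0 < n ∧ ENNReal.ofReal (c + K) * n <
      ∑ k ∈ Finset.range n, ENNReal.ofReal (f (τ^[k] y) + K)} = 1 := by
    refine (measure_congr (eventuallyEq_univ.2 ?_)).trans measure_univ
    filter_upwards [h] with y hy
    obtain ⟨n, hn, hy⟩ := hy
    refine ⟨n, hn, ?_⟩
    have hn' : (0 : ℝ) ≤ n := Nat.cast_nonneg n
    rw [← ENNReal.ofReal_natCast, ← ENNReal.ofReal_mul hcK.le,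
      ← ENNReal.ofReal_sum_of_nonneg fun k _ => hfK _, Finset.sum_add_distrib, Finset.sum_const,
      Finset.card_range, nsmul_eq_mul, ENNReal.ofReal_lt_ofReal_iff_of_nonneg
        (mul_nonneg hcK.le hn')]
    linarith
  rw [h2] at h1
  have h3 : ENNReal.ofReal (c + K) ≤ ∫⁻ y, ENNReal.ofReal (f y + K) ∂m := by
    rw [ENNReal.le_div_iff_mul_le (Or.inl (ENNReal.ofReal_pos.2 hcK).ne')
      (Or.inl ENNReal.ofReal_ne_top), one_mul] at h1
    exact h1
  have hint' : Integrable (fun y => f y + K) m := hint.add (integrable_const K)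
  rw [← ofReal_integral_eq_lintegral_ofReal hint' (ae_of_all _ hfK),
    ENNReal.ofReal_le_ofReal_iff (integral_nonneg hfK), integral_add hint (integrable_const K),
    integral_const, probReal_univ, one_smul] at h3
  linarith

end Pool.Agent.MP27775c.DO
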