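import Pool.Agent.Lib.MP_27775c_an_DO.Kap
import Pool.Agent.Lib.MP_27775c_an_DO.Mx

/-!
# MP_27775c_an, project DO, module BdD: maximal inequality for the diagonal flow
-/

set_option autoImplicit false

open MeasureTheory Set Filter Topology
open scoped ENNReal

namespace Pool.Agent.MP27775c.DO

variable {Y : Type*} [TopologicalSpace Y] [PolishSpace Y] [MeasurableSpace Y] [BorelSpace Y]
  (A : RAct Y)

omit [PolishSpace Y] [MeasurableSpace Y] [BorelSpace Y] in
private theorem bdD_iter (k : ℕ) (y : Y) :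
    (fun y => A.act y (aa (-1)))^[k] y = A.act y (aa (-(k : ℝ))) := by
  induction k with
  | zero => simp [aa_zero, A.act_one]
  | succ k ih =>
    rw [Function.iterate_succ_apply', ih]
    change A.act (A.act y (aa (-(k : ℝ)))) (aa (-1)) = _
    rw [← A.act_mul, ← aa_add]
    congr 2
    push_cast
    ring

private theorem bdD_shift (g : ℝ → ℝ≥0∞) (k : ℝ) :
    ∫⁻ r in Ioc (0 : ℝ) 1, g (r + k) = ∫⁻ r in Ioc k (k + 1), g r := by
  rw [← lintegral_indicator measurableSet_Ioc, ← lintegral_indicator measurableSet_Ioc,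
    ← lintegral_add_right_eq_self ((Ioc k (k + 1)).indicator g) k]
  refine lintegral_congr fun r => ?_
  by_cases h : r ∈ Ioc (0 : ℝ) 1
  · rw [indicator_of_mem h, indicator_of_mem]
    exact ⟨by linarith [h.1], by linarith [h.2]⟩
  · rw [indicator_of_notMem h, indicator_of_notMem]
    exact fun h' => h ⟨by linarith [h'.1], by linarith [h'.2]⟩

private theorem bdD_sum (g : ℝ → ℝ≥0∞) (n : ℕ) :
    ∑ k ∈ Finset.range n, ∫⁻ r in Ioc (k : ℝ) (k + 1), g r = ∫⁻ r in Ioc (0 : ℝ) n, g r := by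
  induction n with
  | zero => simp
  | succ n ih =>
    rw [Finset.sum_range_succ, ih, Nat.cast_succ,
      ← Ioc_union_Ioc_eq_Ioc (Nat.cast_nonneg n) (by linarith : (n : ℝ) ≤ n + 1),
      lintegral_union measurableSet_Ioc (Ioc_disjoint_Ioc_of_le le_rfl)]

/-- Maximal inequality for time averages over the flow `aa (-r)`.

Proof. `hopf_det` for `τ y = y · aa (-1)` and `f y = ∫⁻ r in Ioc 0 1, u (y · aa (-r))`. -/
theorem max_aa {m : Measure Y} [IsProbabilityMeasure m] (ha : ∀ t, tr A m (aa t) = m)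
    {u : Y → ℝ≥0∞} (hu : Measurable u) {c : ℝ≥0∞} (hc : 0 < c) (hc' : c ≠ ⊤) :
    m {y | ∃ n : ℕ, 0 < n ∧ c * n < ∫⁻ r in Ioc (0 : ℝ) n, u (A.act y (aa (-r)))} ≤
      (∫⁻ y, u y ∂m) / c := by
  have h1 : Measurable fun q : Y × ℝ => u (A.act q.1 (aa (-q.2))) :=
    hu.comp (meas_joint A (c := fun r : ℝ => aa (-r)) (continuous_aa.comp continuous_neg))
  have h2 : Measurable fun y => ∫⁻ r in Ioc (0 : ℝ) 1, u (A.act y (aa (-r))) :=
    h1.lintegral_prod_right'
  have h3 := hopf_det (mp_of_tr A (ha (-1))) h2 hc hc'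
  have h4 : ∀ (n : ℕ) (y : Y), ∑ k ∈ Finset.range n,
      (∫⁻ r in Ioc (0 : ℝ) 1, u (A.act ((fun y => A.act y (aa (-1)))^[k] y) (aa (-r)))) =
      ∫⁻ r in Ioc (0 : ℝ) n, u (A.act y (aa (-r))) := by
    intro n y
    rw [← bdD_sum]
    refine Finset.sum_congr rfl fun k _ => ?_
    rw [← bdD_shift]
    refine lintegral_congr fun r => ?_
    rw [bdD_iter, ← A.act_mul, ← aa_add]
    congr 3
    ring
  have h5 : ∫⁻ y, (∫⁻ r in Ioc (0 : ℝ) 1, u (A.act y (aa (-r)))) ∂m = ∫⁻ y, u y ∂m := by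
    rw [lintegral_lintegral_swap h1.aemeasurable]
    have h6 : ∀ r : ℝ, ∫⁻ y, u (A.act y (aa (-r))) ∂m = ∫⁻ y, u y ∂m := fun r => by
      rw [← lintegral_tr, ha]
    simp only [h6]
    simp
  rw [h5] at h3
  simp only [h4] at h3
  exact h3

end Pool.Agent.MP27775c.DO
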