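import Pool.Agent.Lib.MP_27775c_an_DO.BdB
import Pool.Agent.Lib.MP_27775c_an_DO.BdC
import Pool.Agent.Lib.MP_27775c_an_DO.BdD

/-!
# MP_27775c_an, project DO, module BdE: strong Cesaro convergence for bounded functions
-/

set_option autoImplicit false

open MeasureTheory Set Filter Topology
open scoped ENNReal

namespace Pool.Agent.MP27775c.DO

/-- A criterion for Cesaro convergence to zero. -/
private theorem cn_crit {f : ℝ → ℝ≥0∞} {K : ℝ≥0∞} (hK : K ≠ ⊤) (hf : ∀ R, f R ≤ K)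
    (h : ∀ x : ℝ≥0∞, 0 < x → x ≠ ⊤ → ∃ R₁ : ℝ, ∀ᶠ S : ℝ in atTop,
      ∫⁻ R in Ioc R₁ S, f R ≤ x * ENNReal.ofReal S) :
    Tendsto (fun S : ℝ => (∫⁻ R in Ioc (0 : ℝ) S, f R) / ENNReal.ofReal S) atTop (𝓝 0) := by
  rw [ENNReal.tendsto_nhds_zero]
  intro ε hε
  by_cases hεt : ε = ⊤
  · exact Eventually.of_forall fun S => by rw [hεt]; exact le_top
  have hε2 : 0 < ε / 2 := ENNReal.half_pos hε.ne'
  have hε2t : ε / 2 ≠ ⊤ := (ENNReal.div_lt_top hεt (by norm_num)).ne
  obtain ⟨R₁, hR⟩ := h (ε / 2) hε2 hε2t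
  have ht : Tendsto (fun S : ℝ => K * ENNReal.ofReal R₁ / ENNReal.ofReal S) atTop (𝓝 0) := by
    have h1 : Tendsto (fun S : ℝ => ENNReal.ofReal S) atTop (𝓝 ⊤) :=
      ENNReal.tendsto_ofReal_atTop
    have h2 := ENNReal.Tendsto.const_div (a := K * ENNReal.ofReal R₁) h1
      (Or.inr (ENNReal.mul_ne_top hK ENNReal.ofReal_ne_top))
    simpa using h2
  rw [ENNReal.tendsto_nhds_zero] at ht
  filter_upwards [hR, ht (ε / 2) hε2, eventually_gt_atTop (0 : ℝ)] with S h1 h2 h3
  have hS0 : ENNReal.ofReal S ≠ 0 := by simpa using h3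
  have hsub : Ioc (0 : ℝ) S ⊆ Ioc 0 R₁ ∪ Ioc R₁ S := by
    intro r hr
    rcases le_or_gt r R₁ with h4 | h4
    · exact Or.inl ⟨hr.1, h4⟩
    · exact Or.inr ⟨h4, hr.2⟩
  have h5 : ∫⁻ R in Ioc (0 : ℝ) S, f R ≤ K * ENNReal.ofReal R₁ + ε / 2 * ENNReal.ofReal S := by
    calc ∫⁻ R in Ioc (0 : ℝ) S, f R ≤ ∫⁻ R in Ioc (0 : ℝ) R₁ ∪ Ioc R₁ S, f R :=
          lintegral_mono_set hsub
      _ ≤ (∫⁻ R in Ioc (0 : ℝ) R₁, f R) + ∫⁻ R in Ioc R₁ S, f R := lintegral_union_le _ _ _
      _ ≤ K * ENNReal.ofReal R₁ + ε / 2 * ENNReal.ofReal S := by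
          refine add_le_add ?_ h1
          calc ∫⁻ R in Ioc (0 : ℝ) R₁, f R ≤ ∫⁻ _ in Ioc (0 : ℝ) R₁, K :=
                lintegral_mono fun R => hf R
            _ = K * ENNReal.ofReal R₁ := by
                rw [lintegral_const, Measure.restrict_apply_univ, Real.volume_Ioc, sub_zero]
  calc (∫⁻ R in Ioc (0 : ℝ) S, f R) / ENNReal.ofReal S
      ≤ (K * ENNReal.ofReal R₁ + ε / 2 * ENNReal.ofReal S) / ENNReal.ofReal S := by gcongr
    _ = K * ENNReal.ofReal R₁ / ENNReal.ofReal S +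
        ε / 2 * ENNReal.ofReal S / ENNReal.ofReal S := ENNReal.add_div
    _ ≤ ε / 2 + ε / 2 := by
        refine add_le_add h2 ?_
        rw [ENNReal.mul_div_cancel_right hS0 ENNReal.ofReal_ne_top]
    _ = ε := ENNReal.add_halves ε

variable {Y : Type*} [TopologicalSpace Y] [PolishSpace Y] [MeasurableSpace Y] [BorelSpace Y]
  (A : RAct Y)

private theorem nav_bd {F : Y → ℝ} {C : ℝ} (hC : 0 ≤ C) (hb : ∀ y, |F y| ≤ C) (L : ℝ) (y : Y) :
    |nav A L F y| ≤ C := by
  unfold nav
  rcases eq_or_ne L 0 with h | h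
  · subst h
    simpa using hC
  have h1 : ‖∫ s in (-L)..L, F (A.act y (nn s))‖ ≤ C * |L - -L| :=
    intervalIntegral.norm_integral_le_of_norm_le_const fun s _ => hb _
  rw [Real.norm_eq_abs] at h1
  rw [abs_mul, abs_div, abs_one]
  have h2 : |L - -L| = |2 * L| := by congr 1; ring
  rw [h2] at h1
  have h3 : 0 < |2 * L| := abs_pos.2 (mul_ne_zero two_ne_zero h)
  calc 1 / |2 * L| * |∫ s in (-L)..L, F (A.act y (nn s))|
      ≤ 1 / |2 * L| * (C * |2 * L|) := by gcongr
    _ = C := by field_simp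

/-- The averages over the horocycles in a form which is jointly measurable. -/
private noncomputable def NN (F : Y → ℝ) (y : Y) (R η : ℝ) : ℝ :=
  1 / 2 * ∫ u in (-1 : ℝ)..1, F (A.act y (aa (Real.log η - R) *
    nn (Real.sqrt (η - 1) * Real.exp R / η * u)))

private theorem NN_eq (F : Y → ℝ) (y : Y) (R : ℝ) {η : ℝ} (hη : 1 < η) :
    nav A (Real.sqrt (η - 1) * Real.exp R / η) F (A.act y (aa (Real.log η - R))) =
      NN A F y R η := by
  unfold nav NN
  set L := Real.sqrt (η - 1) * Real.exp R / η with hL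
  have hLp : 0 < L := by
    have h1 : 0 < Real.sqrt (η - 1) := Real.sqrt_pos.2 (by linarith)
    have h2 := Real.exp_pos R
    have h3 : 0 < η := by linarith
    positivity
  have h := intervalIntegral.integral_comp_mul_left
    (fun s => F (A.act y (aa (Real.log η - R) * nn s))) hLp.ne' (a := -1) (b := 1)
  simp only [mul_neg, mul_one, smul_eq_mul] at h
  rw [h]
  simp only [A.act_mul]
  field_simp

private theorem NN_bd {F : Y → ℝ} {C : ℝ} (hb : ∀ y, |F y| ≤ C) (y : Y)
    (R η : ℝ) : |NN A F y R η| ≤ C := by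
  unfold NN
  have h1 : ‖∫ u in (-1 : ℝ)..1, F (A.act y (aa (Real.log η - R) *
      nn (Real.sqrt (η - 1) * Real.exp R / η * u)))‖ ≤ C * |(1 : ℝ) - -1| :=
    intervalIntegral.norm_integral_le_of_norm_le_const fun s _ => hb _
  rw [Real.norm_eq_abs] at h1
  have h2 : |(1 : ℝ) - -1| = 2 := by norm_num
  rw [h2] at h1
  rw [abs_mul, abs_of_pos (by norm_num : (0 : ℝ) < 1 / 2)]
  linarith

private theorem NN_meas {F : Y → ℝ} (hF : Measurable F) (y : Y) :
    Measurable fun q : ℝ × ℝ => NN A F y q.1 q.2 := by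
  have hc : Continuous fun p : ℝ × ℝ => A.act y (aa p.1 * nn p.2) :=
    A.cont.comp (continuous_const.prodMk
      ((continuous_aa.comp continuous_fst).mul (continuous_nn.comp continuous_snd)))
  have h1 : Measurable fun q : (ℝ × ℝ) × ℝ => F (A.act y (aa (Real.log q.1.2 - q.1.1) *
      nn (Real.sqrt (q.1.2 - 1) * Real.exp q.1.1 / q.1.2 * q.2))) := by
    have h2 : Measurable fun q : (ℝ × ℝ) × ℝ => ((Real.log q.1.2 - q.1.1,
        Real.sqrt (q.1.2 - 1) * Real.exp q.1.1 / q.1.2 * q.2) : ℝ × ℝ) := by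
      fun_prop
    have h3 := hc.measurable.comp h2
    have h4 := hF.comp h3
    exact h4
  have h3 := (h1.stronglyMeasurable).integral_prod_right'
    (ν := volume.restrict (Ioc (-1 : ℝ) 1))
  unfold NN
  refine Measurable.const_mul ?_ _
  convert h3.measurable using 2 with q
  rw [intervalIntegral.integral_of_le (by norm_num)]

private theorem gsup_bd {F : Y → ℝ} {C c : ℝ} (hC : 0 ≤ C) (hb : ∀ y, |F y| ≤ C) (hc : |c| ≤ C)
    (l : ℝ) (y : Y) : gsup A F c l y ≤ ENNReal.ofReal (2 * C) := by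
  unfold gsup
  refine iSup_le fun L => ENNReal.ofReal_le_ofReal ?_
  calc |nav A (L.1 : ℝ) F y - c| ≤ |nav A (L.1 : ℝ) F y| + |c| := abs_sub _ _
    _ ≤ C + C := add_le_add (nav_bd A hC hb _ _) hc
    _ = 2 * C := by ring

private theorem ae_max {m : Measure Y} [IsProbabilityMeasure m] (h : IsPInv A m)
    (he : IsNErg A m) {F : Y → ℝ} (hF : Measurable F) {C : ℝ} (hC : 0 ≤ C)
    (hb : ∀ y, |F y| ≤ C) (hc : |∫ y, F y ∂m| ≤ C) :
    ∀ᵐ y ∂m, ∀ k : ℕ, ∃ l : ℕ, ∀ n : ℕ, 0 < n →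
      ∫⁻ r in Ioc (0 : ℝ) n, gsup A F (∫ y, F y ∂m) (l : ℝ) (A.act y (aa (-r))) ≤
        ((k : ℝ≥0∞) + 1)⁻¹ * n := by
  rw [ae_all_iff]
  intro k
  set c := ∫ y, F y ∂m with hcdef
  set x : ℝ≥0∞ := ((k : ℝ≥0∞) + 1)⁻¹ with hx
  have hx0 : 0 < x := by
    rw [hx, ENNReal.inv_pos]
    exact ENNReal.add_ne_top.2 ⟨ENNReal.natCast_ne_top k, ENNReal.one_ne_top⟩
  have hxt : x ≠ ⊤ := by
    rw [hx, ENNReal.inv_ne_top]
    positivity
  have h1 : Tendsto (fun l : ℕ => ∫⁻ y, gsup A F c (l : ℝ) y ∂m) atTop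
      (𝓝 (∫⁻ _, (0 : ℝ≥0∞) ∂m)) := by
    refine tendsto_lintegral_of_dominated_convergence (fun _ => ENNReal.ofReal (2 * C))
      (fun n => gsup_meas A hF c n) (fun n => Eventually.of_forall fun y =>
        gsup_bd A hC hb hc _ y) ?_ (gsup_tendsto A h.1 he hF ⟨C, hb⟩)
    rw [lintegral_const]
    exact ENNReal.mul_ne_top ENNReal.ofReal_ne_top (measure_ne_top _ _)
  rw [lintegral_zero] at h1
  have h2 : Tendsto (fun l : ℕ => (∫⁻ y, gsup A F c (l : ℝ) y ∂m) / x) atTop (𝓝 0) := by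
    have h3 := ENNReal.Tendsto.div_const h1 (b := x) (Or.inr hx0.ne')
    simpa using h3
  have h3 : m (⋂ l : ℕ, {y | ∃ n : ℕ, 0 < n ∧ x * n <
      ∫⁻ r in Ioc (0 : ℝ) n, gsup A F c (l : ℝ) (A.act y (aa (-r)))}) = 0 := by
    refine le_antisymm (ge_of_tendsto' h2 fun l => ?_) zero_le
    exact (measure_mono (iInter_subset _ l)).trans
      (max_aa A h.2 (gsup_meas A hF c l) hx0 hxt)
  filter_upwards [measure_eq_zero_iff_ae_notMem.1 h3] with y hy
  simp only [mem_iInter, mem_ofPred_eq, not_forall, not_exists, not_and, not_lt] at hy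
  exact hy

private theorem phi_cn {F : Y → ℝ} (hF : Measurable F) {C c : ℝ}
    (hb : ∀ y, |F y| ≤ C) (hc : |c| ≤ C) (y : Y)
    (hy : ∀ k : ℕ, ∃ l : ℕ, ∀ n : ℕ, 0 < n →
      ∫⁻ r in Ioc (0 : ℝ) n, gsup A F c (l : ℝ) (A.act y (aa (-r))) ≤
        ((k : ℝ≥0∞) + 1)⁻¹ * n) {η : ℝ} (hη : 1 < η) :
    Tendsto (fun S : ℝ => (∫⁻ R in Ioc (0 : ℝ) S, ENNReal.ofReal |NN A F y R η - c|) /
      ENNReal.ofReal S) atTop (𝓝 0) := by
  refine cn_crit (K := ENNReal.ofReal (2 * C)) ENNReal.ofReal_ne_top (fun R => ?_) ?_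
  · refine ENNReal.ofReal_le_ofReal ?_
    calc |NN A F y R η - c| ≤ |NN A F y R η| + |c| := abs_sub _ _
      _ ≤ C + C := add_le_add (NN_bd A hb _ _ _) hc
      _ = 2 * C := by ring
  · intro x hx hxt
    obtain ⟨k, hk⟩ := ENNReal.exists_inv_nat_lt (ENNReal.half_pos hx.ne').ne'
    obtain ⟨l, hl⟩ := hy k
    have hη0 : 0 < η := by linarith
    have hs : 0 < Real.sqrt (η - 1) := Real.sqrt_pos.2 (by linarith)
    have hlog : 0 < Real.log η := Real.log_pos hη
    refine ⟨max (Real.log η) (l * η / Real.sqrt (η - 1)), ?_⟩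
    filter_upwards [eventually_ge_atTop (1 : ℝ)] with S hS
    have hN : 0 < ⌈S⌉₊ := Nat.ceil_pos.2 (by linarith)
    have hNle : (⌈S⌉₊ : ℝ) ≤ 2 * S := by
      have := (Nat.ceil_lt_add_one (by linarith : (0 : ℝ) ≤ S)).le
      linarith
    set G : ℝ → ℝ≥0∞ := fun r => gsup A F c (l : ℝ) (A.act y (aa (-r))) with hG
    set b := Real.log η with hbdef
    calc ∫⁻ R in Ioc (max b (l * η / Real.sqrt (η - 1))) S,
          ENNReal.ofReal |NN A F y R η - c|
        ≤ ∫⁻ R in Ioc (max b (l * η / Real.sqrt (η - 1))) S, G (R - b) := by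
          refine setLIntegral_mono' measurableSet_Ioc fun R hR => ?_
          have h1 : b < R := lt_of_le_of_lt (le_max_left _ _) hR.1
          have h2 : l * η / Real.sqrt (η - 1) < R := lt_of_le_of_lt (le_max_right _ _) hR.1
          have h3 : R < Real.exp R := by
            have := Real.add_one_le_exp R
            linarith
          have h4 : (l : ℝ) ≤ Real.sqrt (η - 1) * Real.exp R / η := by
            rw [le_div_iff₀ hη0]
            rw [div_lt_iff₀ hs] at h2
            nlinarith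
          have h5 : 0 < Real.sqrt (η - 1) * Real.exp R / η := by
            have := Real.exp_pos R
            positivity
          rw [hG]
          simp only [neg_sub]
          rw [← NN_eq A F y R hη]
          exact le_gsup A hF ⟨C, hb⟩ c h4 h5 _
      _ = ∫⁻ R, (Ioc (max b (l * η / Real.sqrt (η - 1))) S).indicator
            (fun R => G (R - b)) R := (lintegral_indicator measurableSet_Ioc _).symm
      _ ≤ ∫⁻ R, (Ioc (0 : ℝ) (⌈S⌉₊ : ℝ)).indicator G (R - b) := by
          refine lintegral_mono fun R => ?_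
          by_cases hR : R ∈ Ioc (max b (l * η / Real.sqrt (η - 1))) S
          · have h1 : b < R := lt_of_le_of_lt (le_max_left _ _) hR.1
            have h2 : R - b ∈ Ioc (0 : ℝ) (⌈S⌉₊ : ℝ) :=
              ⟨by linarith, by have := Nat.le_ceil S; have := hR.2; linarith⟩
            rw [indicator_of_mem hR, indicator_of_mem h2]
          · rw [indicator_of_notMem hR]
            exact zero_le
      _ = ∫⁻ r, (Ioc (0 : ℝ) (⌈S⌉₊ : ℝ)).indicator G r :=
          lintegral_sub_right_eq_self _ b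
      _ = ∫⁻ r in Ioc (0 : ℝ) (⌈S⌉₊ : ℝ), G r := lintegral_indicator measurableSet_Ioc _
      _ ≤ ((k : ℝ≥0∞) + 1)⁻¹ * (⌈S⌉₊ : ℝ≥0∞) := hl _ hN
      _ ≤ (x / 2) * (2 * ENNReal.ofReal S) := by
          refine mul_le_mul' ?_ ?_
          · refine le_trans ?_ hk.le
            exact ENNReal.inv_le_inv.2 le_self_add
          · rw [← ENNReal.ofReal_natCast, ← ENNReal.ofReal_ofNat,
              ← ENNReal.ofReal_mul (by norm_num)]
            exact ENNReal.ofReal_le_ofReal hNle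
      _ = x * ENNReal.ofReal S := by
          rw [← mul_assoc, ENNReal.div_mul_cancel two_ne_zero ENNReal.ofNat_ne_top]

private theorem g_cn {F : Y → ℝ} (hF : Measurable F) {C c : ℝ}
    (hb : ∀ y, |F y| ≤ C) (hc : |c| ≤ C) (y : Y)
    (hy : ∀ k : ℕ, ∃ l : ℕ, ∀ n : ℕ, 0 < n →
      ∫⁻ r in Ioc (0 : ℝ) n, gsup A F c (l : ℝ) (A.act y (aa (-r))) ≤
        ((k : ℝ≥0∞) + 1)⁻¹ * n)
    (hw : ∫⁻ η in Ioi (1 : ℝ), ENNReal.ofReal (2 * Real.sqrt (η - 1) / η ^ 2) ≠ ⊤) :
    Tendsto (fun S : ℝ => (∫⁻ R in Ioc (0 : ℝ) S, ∫⁻ η in Ioi (1 : ℝ),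
      ENNReal.ofReal (2 * Real.sqrt (η - 1) / η ^ 2) * ENNReal.ofReal |NN A F y R η - c|) /
      ENNReal.ofReal S) atTop (𝓝 0) := by
  have hm : Measurable fun q : ℝ × ℝ => ENNReal.ofReal |NN A F y q.1 q.2 - c| := by
    have := NN_meas A hF y
    have h1 : Measurable fun q : ℝ × ℝ => NN A F y q.1 q.2 - c := this.sub_const c
    exact ENNReal.measurable_ofReal.comp h1.abs
  have hwm : Measurable fun η : ℝ => ENNReal.ofReal (2 * Real.sqrt (η - 1) / η ^ 2) := by
    fun_prop
  have hbd : ∀ R η, ENNReal.ofReal |NN A F y R η - c| ≤ ENNReal.ofReal (2 * C) := by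
    intro R η
    refine ENNReal.ofReal_le_ofReal ?_
    calc |NN A F y R η - c| ≤ |NN A F y R η| + |c| := abs_sub _ _
      _ ≤ C + C := add_le_add (NN_bd A hb _ _ _) hc
      _ = 2 * C := by ring
  have h1 : ∀ S : ℝ, 0 < S → (∫⁻ R in Ioc (0 : ℝ) S, ∫⁻ η in Ioi (1 : ℝ),
      ENNReal.ofReal (2 * Real.sqrt (η - 1) / η ^ 2) * ENNReal.ofReal |NN A F y R η - c|) /
      ENNReal.ofReal S = ∫⁻ η in Ioi (1 : ℝ), ENNReal.ofReal (2 * Real.sqrt (η - 1) / η ^ 2) *
        ((∫⁻ R in Ioc (0 : ℝ) S, ENNReal.ofReal |NN A F y R η - c|) / ENNReal.ofReal S) := by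
    intro S hS
    rw [lintegral_lintegral_swap]
    · rw [ENNReal.div_eq_inv_mul, ← lintegral_const_mul']
      · refine lintegral_congr fun η => ?_
        have hmη := hm.comp (measurable_prodMk_right (y := η))
        simp only [Function.comp_def] at hmη
        rw [lintegral_const_mul _ hmη, ENNReal.div_eq_inv_mul]
        ring
      · rw [ENNReal.inv_ne_top]
        simpa using hS
    · exact ((hwm.comp measurable_snd).mul hm).aemeasurable
  have h2 : Tendsto (fun S : ℝ => ∫⁻ η in Ioi (1 : ℝ),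
      ENNReal.ofReal (2 * Real.sqrt (η - 1) / η ^ 2) *
        ((∫⁻ R in Ioc (0 : ℝ) S, ENNReal.ofReal |NN A F y R η - c|) / ENNReal.ofReal S))
      atTop (𝓝 (∫⁻ η in Ioi (1 : ℝ), (0 : ℝ≥0∞))) := by
    refine tendsto_lintegral_filter_of_dominated_convergence
      (fun η => ENNReal.ofReal (2 * Real.sqrt (η - 1) / η ^ 2) * ENNReal.ofReal (2 * C))
      (Eventually.of_forall fun S => ?_) ?_ ?_ ?_
    · refine hwm.mul ?_
      have := hm.lintegral_prod_left' (μ := volume.restrict (Ioc (0 : ℝ) S))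
      exact this.div_const _
    · filter_upwards [eventually_gt_atTop (0 : ℝ)] with S hS
      refine Eventually.of_forall fun η => mul_le_mul' le_rfl ?_
      rw [ENNReal.div_le_iff (by simpa using hS) ENNReal.ofReal_ne_top]
      calc ∫⁻ R in Ioc (0 : ℝ) S, ENNReal.ofReal |NN A F y R η - c|
          ≤ ∫⁻ _ in Ioc (0 : ℝ) S, ENNReal.ofReal (2 * C) := lintegral_mono fun R => hbd R η
        _ = ENNReal.ofReal (2 * C) * ENNReal.ofReal S := by
            rw [lintegral_const, Measure.restrict_apply_univ, Real.volume_Ioc, sub_zero]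
    · rw [lintegral_mul_const _ hwm]
      exact ENNReal.mul_ne_top hw ENNReal.ofReal_ne_top
    · refine (ae_restrict_iff' measurableSet_Ioi).2 (Eventually.of_forall fun η hη => ?_)
      have h3 := ENNReal.Tendsto.const_mul (phi_cn A hF hb hc y hy hη)
        (a := ENNReal.ofReal (2 * Real.sqrt (η - 1) / η ^ 2)) (Or.inr ENNReal.ofReal_ne_top)
      simpa using h3
  rw [lintegral_zero] at h2
  refine h2.congr' ?_
  filter_upwards [eventually_gt_atTop (0 : ℝ)] with S hS
  exact (h1 S hS).symm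

private theorem bav_bd {F : Y → ℝ} {C : ℝ} (hC : 0 ≤ C) (hb : ∀ y, |F y| ≤ C) (R : ℝ) (y : Y) :
    |bav A R F y| ≤ C := by
  unfold bav
  by_cases h : volume (Metric.ball UpperHalfPlane.I R) = ⊤
  · rw [h]
    simpa using hC
  · have h1 := norm_setIntegral_le_of_norm_le_const (μ := volume)
      (s := Metric.ball UpperHalfPlane.I R) (f := fun z => F (A.act y (pp z))) (C := C)
      (lt_top_iff_ne_top.2 h) (fun z _ => hb _)
    rw [Real.norm_eq_abs, Measure.real] at h1
    rw [abs_div, abs_of_nonneg ENNReal.toReal_nonneg]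
    exact div_le_of_le_mul₀ ENNReal.toReal_nonneg hC h1

private theorem w_int : IntegrableOn (fun η : ℝ => 2 * Real.sqrt (η - 1) / η ^ 2) (Ioi 1) := by
  by_contra h
  have h1 := sigI_pos
  rw [sigI_eq, integral_undef h] at h1
  exact lt_irrefl _ h1

private theorem binf_le {F : Y → ℝ} (hF : Measurable F) {C c : ℝ}
    (hb : ∀ y, |F y| ≤ C) (y : Y) (R : ℝ) :
    ENNReal.ofReal |binf A R F y - c| ≤ (∫⁻ η in Ioi (1 : ℝ),
      ENNReal.ofReal (2 * Real.sqrt (η - 1) / η ^ 2) * ENNReal.ofReal |NN A F y R η - c|) /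
      ENNReal.ofReal (∫ p, sigI p) := by
  have hW := sigI_pos
  have h1 : binf A R F y - c = (∫ η in Ioi (1 : ℝ), 2 * Real.sqrt (η - 1) / η ^ 2 *
      (NN A F y R η - c)) / ∫ p, sigI p := by
    rw [binf_eq A R hF ⟨C, hb⟩ y]
    have h2 : ∫ η in Ioi (1 : ℝ), 2 * Real.sqrt (η - 1) / η ^ 2 *
      nav A (Real.sqrt (η - 1) * Real.exp R / η) F (A.act y (aa (Real.log η - R))) =
        ∫ η in Ioi (1 : ℝ), 2 * Real.sqrt (η - 1) / η ^ 2 * NN A F y R η := by
      refine setIntegral_congr_fun measurableSet_Ioi fun η hη => ?_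
      rw [NN_eq A F y R hη]
    have hNm := (NN_meas A hF y).comp (measurable_prodMk_left (x := R))
    simp only [Function.comp_def] at hNm
    have h3 : IntegrableOn (fun η => 2 * Real.sqrt (η - 1) / η ^ 2 * NN A F y R η)
        (Ioi (1 : ℝ)) :=
      Integrable.mul_bdd w_int hNm.aestronglyMeasurable
        (Eventually.of_forall fun η => NN_bd A hb y R η)
    have h4 : IntegrableOn (fun η : ℝ => 2 * Real.sqrt (η - 1) / η ^ 2 * c) (Ioi (1 : ℝ)) :=
      w_int.mul_const c
    have h5 : ∫ η in Ioi (1 : ℝ), 2 * Real.sqrt (η - 1) / η ^ 2 * (NN A F y R η - c) =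
        (∫ η in Ioi (1 : ℝ), 2 * Real.sqrt (η - 1) / η ^ 2 * NN A F y R η) -
          (∫ p, sigI p) * c := by
      rw [sigI_eq, ← integral_mul_const, ← integral_sub h3 h4]
      refine integral_congr_ae (Eventually.of_forall fun η => ?_)
      simp only
      ring
    rw [h2, h5]
    field_simp
  rw [h1, abs_div, abs_of_pos hW, ENNReal.ofReal_div_of_pos hW]
  gcongr
  rw [← Real.enorm_eq_ofReal_abs]
  refine (enorm_integral_le_lintegral_enorm _).trans (le_of_eq ?_)
  refine lintegral_congr fun η => ?_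
  rw [enorm_mul, Real.enorm_eq_ofReal_abs, Real.enorm_eq_ofReal_abs,
    abs_of_nonneg (by positivity : (0 : ℝ) ≤ 2 * Real.sqrt (η - 1) / η ^ 2)]

/-- The disc averages of a bounded function converge in the strong Cesaro sense.

Proof. By `bav_binf` it is enough to consider `binf`. By `binf_eq`, `sigI_eq`, `|binf R F y - c|`
is at most
the mean over `η` (probability density `w η = 2 √(η - 1) / η ^ 2 / ∫ sigI`) of
`g = |nav L F (y · aa (log η - R)) - c| ≤ 2 C`, `L = √(η - 1) exp R / η`. Fix `l = n ∈ ℕ`; for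
every `η > 1`, `L ≥ l`
for `R ≥ R₀ (η)`, so `1 / S ∫ R in 0..S, g ≤ 2 C R₀ / S + 1 / S ∫ R in 0..S, gsup l (y · aa (log η
- R))`, and
the limes superior for `S → ∞` of the last term does not depend on `η` (shift of the time); it is
at most `H l (y)`, the limes superior of the averages of `gsup l ≤ 2 C` along `y · aa (-r)`. By
the reverse
Fatou lemma (everything is bounded by `2 C`) the limes superior of
`1 / S ∫ R in 0..S, |binf R F y - c|` is at most `H l (y)`. By `max_aa` `m {H l > x} ≤ (∫ gsup l)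
/ x → 0` as
`l → ∞` (`gsup_tendsto`, bounded), and `H l` decreases in `l`, so `inf H l = 0` almost everywhere.
-/
theorem bdd {m : Measure Y} [IsProbabilityMeasure m] (h : IsPInv A m) (he : IsNErg A m)
    {F : Y → ℝ} (hF : Measurable F) (hb : ∃ C, ∀ y, |F y| ≤ C) :
    ∀ᵐ y ∂m, Tendsto (fun S : ℝ => 1 / S * ∫ R in (0 : ℝ)..S,
      |bav A R F y - ∫ y, F y ∂m|) atTop (𝓝 0) := by
  obtain ⟨C, hb⟩ := hb
  have hC : 0 ≤ C := by
    have : Nonempty Y := by
      by_contra hne
      rw [not_nonempty_iff] at hne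
      have h1 : m univ = 1 := measure_univ
      rw [Measure.eq_zero_of_isEmpty m] at h1
      simp at h1
    exact (abs_nonneg _).trans (hb (Classical.arbitrary Y))
  have hc : |∫ y, F y ∂m| ≤ C := by
    have h1 := norm_integral_le_of_norm_le_const (μ := m) (f := F) (C := C)
      (Eventually.of_forall hb)
    simpa [Real.norm_eq_abs] using h1
  obtain ⟨e, he0, hbe⟩ := bav_binf A
  have hW := sigI_pos
  have hwfin : ∫⁻ η in Ioi (1 : ℝ), ENNReal.ofReal (2 * Real.sqrt (η - 1) / η ^ 2) ≠ ⊤ :=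
    (Integrable.lintegral_lt_top w_int).ne
  filter_upwards [ae_max A h he hF hC hb hc] with y hy
  set c := ∫ y, F y ∂m with hcdef
  have hg0 := g_cn A hF hb hc y hy hwfin
  set g : ℝ → ℝ≥0∞ := fun R => (∫⁻ η in Ioi (1 : ℝ),
      ENNReal.ofReal (2 * Real.sqrt (η - 1) / η ^ 2) * ENNReal.ofReal |NN A F y R η - c|) /
      ENNReal.ofReal (∫ p, sigI p) with hg
  have hWt : (ENNReal.ofReal (∫ p, sigI p))⁻¹ ≠ ⊤ := by
    rw [ENNReal.inv_ne_top]
    simpa using hW
  have hgcn : Tendsto (fun S : ℝ => (∫⁻ R in Ioc (0 : ℝ) S, g R) / ENNReal.ofReal S)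
      atTop (𝓝 0) := by
    have h1 := ENNReal.Tendsto.mul_const hg0
      (b := (ENNReal.ofReal (∫ p, sigI p))⁻¹) (Or.inr hWt)
    rw [zero_mul] at h1
    refine h1.congr fun S => ?_
    simp only [hg, div_eq_mul_inv]
    rw [lintegral_mul_const' _ _ hWt]
    ring
  have hkey : Tendsto (fun S : ℝ => (∫⁻ R in Ioc (0 : ℝ) S,
      ENNReal.ofReal |bav A R F y - c|) / ENNReal.ofReal S) atTop (𝓝 0) := by
    refine cn_crit (K := ENNReal.ofReal (2 * C)) ENNReal.ofReal_ne_top (fun R => ?_) ?_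
    · refine ENNReal.ofReal_le_ofReal ?_
      calc |bav A R F y - c| ≤ |bav A R F y| + |c| := abs_sub _ _
        _ ≤ C + C := add_le_add (bav_bd A hC hb _ _) hc
        _ = 2 * C := by ring
    · intro x hx hxt
      have hx2 : 0 < x / 2 := ENNReal.half_pos hx.ne'
      have h1 : Tendsto (fun R => ENNReal.ofReal (C * e R)) atTop (𝓝 0) := by
        have h2 := ENNReal.tendsto_ofReal (he0.const_mul C)
        simpa using h2
      rw [ENNReal.tendsto_nhds_zero] at h1
      obtain ⟨R₁, hR₁⟩ := eventually_atTop.1 (h1 (x / 2) hx2)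
      refine ⟨max R₁ 0, ?_⟩
      rw [ENNReal.tendsto_nhds_zero] at hgcn
      filter_upwards [hgcn (x / 2) hx2, eventually_gt_atTop (0 : ℝ)] with S h2 hS
      have hS0 : ENNReal.ofReal S ≠ 0 := by simpa using hS
      rw [ENNReal.div_le_iff hS0 ENNReal.ofReal_ne_top] at h2
      calc ∫⁻ R in Ioc (max R₁ 0) S, ENNReal.ofReal |bav A R F y - c|
          ≤ ∫⁻ R in Ioc (max R₁ 0) S, (x / 2 + g R) := by
            refine setLIntegral_mono' measurableSet_Ioc fun R hR => ?_
            have h3 : R₁ ≤ R := (le_max_left _ _).trans hR.1.le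
            have h4 : 0 < R := lt_of_le_of_lt (le_max_right _ _) hR.1
            calc ENNReal.ofReal |bav A R F y - c|
                ≤ ENNReal.ofReal (|bav A R F y - binf A R F y| + |binf A R F y - c|) :=
                  ENNReal.ofReal_le_ofReal (abs_sub_le _ _ _)
              _ = ENNReal.ofReal |bav A R F y - binf A R F y| +
                  ENNReal.ofReal |binf A R F y - c| :=
                  ENNReal.ofReal_add (abs_nonneg _) (abs_nonneg _)
              _ ≤ x / 2 + g R := by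
                  refine add_le_add ?_ (binf_le A hF hb y R)
                  exact (ENNReal.ofReal_le_ofReal (hbe F hF C hb R h4 y)).trans (hR₁ R h3)
        _ = (∫⁻ _ in Ioc (max R₁ 0) S, (x / 2)) + ∫⁻ R in Ioc (max R₁ 0) S, g R :=
            lintegral_add_left measurable_const _
        _ ≤ x / 2 * ENNReal.ofReal S + x / 2 * ENNReal.ofReal S := by
            refine add_le_add ?_ ?_
            · rw [lintegral_const, Measure.restrict_apply_univ, Real.volume_Ioc]
              gcongr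
              have := le_max_right R₁ 0
              linarith
            · refine le_trans ?_ h2
              exact lintegral_mono_set (Ioc_subset_Ioc_left (le_max_right _ _))
        _ = x * ENNReal.ofReal S := by
            rw [← add_mul, ENNReal.add_halves]
  have hfin := (ENNReal.tendsto_toReal ENNReal.zero_ne_top).comp hkey
  rw [ENNReal.toReal_zero] at hfin
  refine hfin.congr' ?_
  filter_upwards [eventually_gt_atTop (0 : ℝ)] with S hS
  have hbm := (bav_meas A hF).comp (measurable_prodMk_right (y := y))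
  simp only [Function.comp_def] at hbm ⊢
  rw [ENNReal.toReal_div, ENNReal.toReal_ofReal hS.le, intervalIntegral.integral_of_le hS.le,
    integral_eq_lintegral_of_nonneg_ae (Eventually.of_forall fun R => abs_nonneg _)
      (hbm.sub_const c).abs.aestronglyMeasurable]
  ring

end Pool.Agent.MP27775c.DO
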