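import Pool.Agent.Lib.MP_27775c_an_DO.BdB

/-!
# MP_27775c_an, project DO, module BdF: convergence in the mean for bounded functions
-/

set_option autoImplicit false

open MeasureTheory Set Filter Topology
open scoped ENNReal

namespace Pool.Agent.MP27775c.DO

variable {Y : Type*} [TopologicalSpace Y] [PolishSpace Y] [MeasurableSpace Y] [BorelSpace Y]
  (A : RAct Y)

private theorem BdF_navJ {F : Y → ℝ} (hF : Measurable F) :
    Measurable fun q : ℝ × Y => nav A q.1 F q.2 := by
  have h0 : Measurable fun p : Y × ℝ => F (A.act p.1 (nn p.2)) :=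
    hF.comp (meas_joint A continuous_nn)
  have h1 : Measurable fun r : (ℝ × Y) × ℝ => F (A.act r.1.2 (nn r.2)) :=
    h0.comp (measurable_fst.snd.prodMk measurable_snd)
  have key : ∀ (a b : ℝ × Y → ℝ), Measurable a → Measurable b →
      Measurable fun q : ℝ × Y => ∫ s in Ioc (a q) (b q), F (A.act q.2 (nn s)) := by
    intro a b ha hb
    have h2 : MeasurableSet {r : (ℝ × Y) × ℝ | a r.1 < r.2 ∧ r.2 ≤ b r.1} :=
      (measurableSet_lt (ha.comp measurable_fst) measurable_snd).inter
        (measurableSet_le measurable_snd (hb.comp measurable_fst))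
    have h3 : Measurable ({r : (ℝ × Y) × ℝ | a r.1 < r.2 ∧ r.2 ≤ b r.1}.indicator
        fun r => F (A.act r.1.2 (nn r.2))) := h1.indicator h2
    have h4 := (h3.stronglyMeasurable.integral_prod_right' (ν := (volume : Measure ℝ))).measurable
    convert h4 using 1
    funext q
    rw [← integral_indicator measurableSet_Ioc]
    rfl
  have h5 := key (fun q => -q.1) (fun q => q.1) measurable_fst.neg measurable_fst
  have h6 := key (fun q => q.1) (fun q => -q.1) measurable_fst measurable_fst.neg
  exact ((measurable_const.div (measurable_const.mul measurable_fst)).mul (h5.sub h6))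

private theorem BdF_nav_le {F : Y → ℝ} {C : ℝ} (hC0 : 0 ≤ C) (hC : ∀ y, |F y| ≤ C) (L : ℝ)
    (y : Y) : |nav A L F y| ≤ C := by
  have h1 : ‖∫ s in (-L)..L, F (A.act y (nn s))‖ ≤ C * |L - -L| :=
    intervalIntegral.norm_integral_le_of_norm_le_const (fun s _ => hC _)
  have h2 : |L - -L| = |2 * L| := by congr 1; ring
  rw [h2, Real.norm_eq_abs] at h1
  unfold nav
  rw [abs_mul, abs_div, abs_one]
  rcases eq_or_ne L 0 with h3 | h3
  · rw [h3]
    simp [hC0]
  · have h4 : 0 < |2 * L| := abs_pos.2 (mul_ne_zero two_ne_zero h3)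
    calc 1 / |2 * L| * |∫ s in (-L)..L, F (A.act y (nn s))| ≤ 1 / |2 * L| * (C * |2 * L|) := by
          gcongr
      _ = C := by field_simp

private theorem BdF_G {m : Measure Y} [IsProbabilityMeasure m] (h : IsPInv A m)
    (he : IsNErg A m) {F : Y → ℝ} (hF : Measurable F) {C : ℝ} (hC0 : 0 ≤ C)
    (hC : ∀ y, |F y| ≤ C) :
    Tendsto (fun L : ℝ => ∫ y, |nav A L F y - ∫ y, F y ∂m| ∂m) atTop (𝓝 0) := by
  have hI : |∫ y, F y ∂m| ≤ C := by
    have := norm_integral_le_of_norm_le_const (μ := m) (f := F) (C := C)
      (Filter.Eventually.of_forall hC)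
    simpa using this
  have h1 : Tendsto (fun L : ℝ => ∫ y, |nav A L F y - ∫ y, F y ∂m| ∂m) atTop
      (𝓝 (∫ _, (0 : ℝ) ∂m)) := by
    refine tendsto_integral_filter_of_dominated_convergence (fun _ => 2 * C) ?_ ?_
      (integrable_const _) ?_
    · refine Filter.Eventually.of_forall (fun L => ?_)
      exact ((nav_meas A L hF).sub_const _).abs.aestronglyMeasurable
    · refine Filter.Eventually.of_forall (fun L => Filter.Eventually.of_forall (fun y => ?_))
      rw [Real.norm_eq_abs, abs_abs]
      have h2 := BdF_nav_le A hC0 hC L y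
      have h3 := abs_sub (nav A L F y) (∫ y, F y ∂m)
      linarith
    · filter_upwards [birk A h.1 he hF ⟨C, hC⟩] with y hy
      have h4 := (hy.sub_const (∫ y, F y ∂m)).abs
      rwa [sub_self, abs_zero] at h4
  rwa [integral_zero] at h1

/-- Convergence in `L ^ 1` of the disc averages of a bounded function.

Proof. By `bav_binf`, `binf_eq` the integral of `|binf R F - c|` is at most the mean over `η` of
`∫ |nav L F - c| ∂m` (invariance of `m` under `aa`), `L = √(η - 1) exp R / η → ∞`, which tends to
zero by
`birk` and dominated convergence (twice). -/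
theorem bdd_L1 {m : Measure Y} [IsProbabilityMeasure m] (h : IsPInv A m) (he : IsNErg A m)
    {F : Y → ℝ} (hF : Measurable F) (hb : ∃ C, ∀ y, |F y| ≤ C) :
    Tendsto (fun R : ℝ => ∫ y, |bav A R F y - ∫ y, F y ∂m| ∂m) atTop (𝓝 0) := by
  obtain ⟨C', hC'⟩ := hb
  obtain ⟨C, hC0, hC⟩ : ∃ C : ℝ, 0 ≤ C ∧ ∀ y, |F y| ≤ C :=
    ⟨max C' 0, le_max_right _ _, fun y => (hC' y).trans (le_max_left _ _)⟩
  set c : ℝ := ∫ y, F y ∂m with hc
  have hI : |c| ≤ C := by
    have := norm_integral_le_of_norm_le_const (μ := m) (f := F) (C := C)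
      (Filter.Eventually.of_forall hC)
    simpa using this
  set w : ℝ → ℝ := fun η => 2 * Real.sqrt (η - 1) / η ^ 2 with hw
  set S : ℝ := ∫ p, sigI p with hS
  have hS0 : 0 < S := sigI_pos
  have hSw : S = ∫ η in Ioi (1 : ℝ), w η := sigI_eq
  have hw0 : ∀ η, 0 ≤ w η := by
    intro η
    simp only [hw]
    positivity
  have hwi : Integrable w (volume.restrict (Ioi (1 : ℝ))) := by
    by_contra hcon
    rw [hSw, integral_undef hcon] at hS0
    exact lt_irrefl _ hS0
  set D : ℝ → ℝ → Y → ℝ := fun R η y =>
    nav A (Real.sqrt (η - 1) * Real.exp R / η) F (A.act y (aa (Real.log η - R))) - c with hD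
  have hDm : ∀ R, Measurable fun q : Y × ℝ => D R q.2 q.1 := by
    intro R
    have h1 : Measurable fun p : Y × ℝ => A.act p.1 (aa p.2) := meas_joint A continuous_aa
    have h2 : Measurable fun q : Y × ℝ => A.act q.1 (aa (Real.log q.2 - R)) :=
      h1.comp (measurable_fst.prodMk ((Real.measurable_log.comp measurable_snd).sub_const R))
    have h3 : Measurable fun q : Y × ℝ => Real.sqrt (q.2 - 1) * Real.exp R / q.2 :=
      (((measurable_snd.sub_const 1).sqrt).mul_const _).div measurable_snd
    exact ((BdF_navJ A hF).comp (h3.prodMk h2)).sub_const c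
  have hDb : ∀ R η y, |D R η y| ≤ 2 * C := by
    intro R η y
    have h1 := BdF_nav_le A hC0 hC (Real.sqrt (η - 1) * Real.exp R / η)
      (A.act y (aa (Real.log η - R)))
    have h2 := abs_sub (nav A (Real.sqrt (η - 1) * Real.exp R / η) F
      (A.act y (aa (Real.log η - R)))) c
    simp only [hD]
    linarith
  set G : ℝ → ℝ := fun L => ∫ y, |nav A L F y - c| ∂m with hG
  have hGt : Tendsto G atTop (𝓝 0) := BdF_G A h he hF hC0 hC
  have hGD : ∀ R η, ∫ y, |D R η y| ∂m = G (Real.sqrt (η - 1) * Real.exp R / η) := by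
    intro R η
    have h1 := integral_tr A m (aa (Real.log η - R))
      (fun y => |nav A (Real.sqrt (η - 1) * Real.exp R / η) F y - c|)
    rw [h.2 (Real.log η - R)] at h1
    exact h1.symm
  -- integrability
  have hwDi : ∀ R y, Integrable (fun η => w η * D R η y) (volume.restrict (Ioi (1 : ℝ))) := by
    intro R y
    refine hwi.mul_bdd (c := 2 * C) ?_ (Filter.Eventually.of_forall (fun η => hDb R η y))
    exact ((hDm R).comp (measurable_const.prodMk measurable_id)).aestronglyMeasurable
  have hjoint : ∀ R, Integrable (Function.uncurry fun (y : Y) (η : ℝ) => w η * |D R η y|)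
      (m.prod (volume.restrict (Ioi (1 : ℝ)))) := by
    intro R
    have h1 : Integrable (fun q : Y × ℝ => w q.2) (m.prod (volume.restrict (Ioi (1 : ℝ)))) :=
      hwi.comp_snd m
    refine h1.mul_bdd (c := 2 * C) ((hDm R).abs).aestronglyMeasurable
      (Filter.Eventually.of_forall (fun q => ?_))
    rw [Real.norm_eq_abs, abs_abs]
    exact hDb R q.2 q.1
  have hbinf : ∀ R y, binf A R F y - c = (∫ η in Ioi (1 : ℝ), w η * D R η y) / S := by
    intro R y
    rw [binf_eq A R hF ⟨C, hC⟩ y, ← hS]
    have h1 : ∀ η, w η * nav A (Real.sqrt (η - 1) * Real.exp R / η) F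
        (A.act y (aa (Real.log η - R))) = w η * D R η y + c * w η := by
      intro η
      simp only [hD]
      ring
    have h2 : ∫ η in Ioi (1 : ℝ), w η * nav A (Real.sqrt (η - 1) * Real.exp R / η) F
        (A.act y (aa (Real.log η - R))) = (∫ η in Ioi (1 : ℝ), w η * D R η y) + c * S := by
      simp_rw [h1]
      rw [integral_add (hwDi R y) (hwi.const_mul c), integral_const_mul, ← hSw]
    have h3 : (fun η => 2 * Real.sqrt (η - 1) / η ^ 2 *
      nav A (Real.sqrt (η - 1) * Real.exp R / η) F (A.act y (aa (Real.log η - R)))) = fun η =>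
        w η * nav A (Real.sqrt (η - 1) * Real.exp R / η) F
        (A.act y (aa (Real.log η - R))) := rfl
    rw [h3, h2]
    field_simp
    ring
  have hbabs : ∀ R y, |binf A R F y - c| ≤ (∫ η in Ioi (1 : ℝ), w η * |D R η y|) / S := by
    intro R y
    rw [hbinf, abs_div, abs_of_pos hS0]
    gcongr
    have h1 := norm_integral_le_integral_norm (μ := volume.restrict (Ioi (1 : ℝ)))
      (fun η => w η * D R η y)
    rw [Real.norm_eq_abs] at h1
    refine h1.trans (le_of_eq ?_)
    refine integral_congr_ae (Filter.Eventually.of_forall (fun η => ?_))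
    simp only [Real.norm_eq_abs, abs_mul, abs_of_nonneg (hw0 η)]
  -- the main term
  have hmain : Tendsto (fun R : ℝ => (∫ η in Ioi (1 : ℝ),
      w η * G (Real.sqrt (η - 1) * Real.exp R / η)) / S) atTop (𝓝 0) := by
    have h1 : Tendsto (fun R : ℝ => ∫ η in Ioi (1 : ℝ),
        w η * G (Real.sqrt (η - 1) * Real.exp R / η)) atTop
        (𝓝 (∫ _ in Ioi (1 : ℝ), (0 : ℝ))) := by
      refine tendsto_integral_filter_of_dominated_convergence (fun η => w η * (2 * C)) ?_ ?_
        (hwi.mul_const _) ?_
      · refine Filter.Eventually.of_forall (fun R => ?_)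
        have h2 := (hjoint R).integral_prod_right.aestronglyMeasurable
        refine h2.congr (Filter.Eventually.of_forall (fun η => ?_))
        simp only [Function.uncurry]
        rw [integral_const_mul, hGD]
      · refine Filter.Eventually.of_forall (fun R => Filter.Eventually.of_forall (fun η => ?_))
        rw [← hGD, Real.norm_eq_abs, abs_mul, abs_of_nonneg (hw0 η)]
        refine mul_le_mul_of_nonneg_left ?_ (hw0 η)
        have h2 := norm_integral_le_of_norm_le_const (μ := m) (f := fun y => |D R η y|)
          (C := 2 * C) (Filter.Eventually.of_forall (fun y => by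
            rw [Real.norm_eq_abs, abs_abs]
            exact hDb R η y))
        simpa using h2
      · refine (ae_restrict_mem measurableSet_Ioi).mono (fun η hη => ?_)
        have hη1 : 1 < η := hη
        have h2 : 0 < Real.sqrt (η - 1) / η :=
          div_pos (Real.sqrt_pos.2 (by linarith)) (by linarith)
        have h3 : Tendsto (fun R : ℝ => Real.sqrt (η - 1) * Real.exp R / η) atTop atTop := by
          have h4 := Real.tendsto_exp_atTop.const_mul_atTop h2
          refine h4.congr (fun R => ?_)
          ring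
        have h5 := (hGt.comp h3).const_mul (w η)
        rwa [mul_zero] at h5
    rw [integral_zero] at h1
    have h6 := h1.div_const S
    rwa [zero_div] at h6
  obtain ⟨e, he0, he1⟩ := bav_binf A
  have hup : Tendsto (fun R : ℝ => C * e R + (∫ η in Ioi (1 : ℝ),
      w η * G (Real.sqrt (η - 1) * Real.exp R / η)) / S) atTop (𝓝 0) := by
    have h1 := (he0.const_mul C).add hmain
    rwa [mul_zero, add_zero] at h1
  refine squeeze_zero' (Filter.Eventually.of_forall (fun R =>
    integral_nonneg (fun y => abs_nonneg _))) ?_ hup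
  filter_upwards [Filter.eventually_gt_atTop (0 : ℝ)] with R hR
  have hdom : Integrable (fun y => C * e R + (∫ η in Ioi (1 : ℝ), w η * |D R η y|) / S) m :=
    (integrable_const _).add (((hjoint R).integral_prod_left).div_const S)
  have hle : ∀ y, |bav A R F y - c| ≤ C * e R + (∫ η in Ioi (1 : ℝ), w η * |D R η y|) / S := by
    intro y
    have h1 := he1 F hF C hC R hR y
    have h2 := hbabs R y
    have h3 := abs_sub_le (bav A R F y) (binf A R F y) c
    linarith
  calc ∫ y, |bav A R F y - c| ∂m
      ≤ ∫ y, (C * e R + (∫ η in Ioi (1 : ℝ), w η * |D R η y|) / S) ∂m :=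
        integral_mono_of_nonneg (Filter.Eventually.of_forall (fun y => abs_nonneg _)) hdom
          (Filter.Eventually.of_forall hle)
    _ = C * e R + (∫ y, (∫ η in Ioi (1 : ℝ), w η * |D R η y|) ∂m) / S := by
        have h1 : Integrable (fun y => (∫ η in Ioi (1 : ℝ), w η * |D R η y|) / S) m :=
          ((hjoint R).integral_prod_left).div_const S
        rw [integral_add (integrable_const _) h1, integral_div, integral_const]
        simp
    _ = C * e R + (∫ η in Ioi (1 : ℝ), w η * G (Real.sqrt (η - 1) * Real.exp R / η)) / S := by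
        rw [integral_integral_swap (hjoint R)]
        simp only [integral_const_mul, hGD]

end Pool.Agent.MP27775c.DO
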