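import Pool.Agent.Lib.MP_27775c_an_DO.BdA
import Pool.Agent.Lib.MP_27775c_an_DO.BdB
import Pool.Agent.Lib.MP_27775c_an_DO.BdC
import Pool.Agent.Lib.MP_27775c_an_DO.BdD
import Pool.Agent.Lib.MP_27775c_an_DO.BdE
import Pool.Agent.Lib.MP_27775c_an_DO.BdF

/-!
# MP_27775c_an, project DO: Bdd, all parts
-/
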