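import Pool.Agent.Lib.MP_27775c_an_DO.WA

/-!
# MP_27775c_an, project DO, module WB: iterates of the kernel
-/

set_option autoImplicit false

open MeasureTheory Set Filter Topology
open scoped ENNReal

namespace Pool.Agent.MP27775c.DO

variable {Y : Type*} [TopologicalSpace Y] [PolishSpace Y] [MeasurableSpace Y] [BorelSpace Y]
  (A : RAct Y)

private theorem wB_exp : Real.exp (-1) ≤ 3 / 8 := by
  rw [Real.exp_neg]
  have h := Real.exp_one_gt_d9
  rw [inv_le_comm₀ (Real.exp_pos 1) (by norm_num)]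
  linarith

private theorem wB_meas (y : Y) (c : G) {f : Y → ℝ≥0∞} (hf : Measurable f) :
    Measurable fun τ : ℝ => f (A.act y (nn τ * c)) :=
  hf.comp (A.cont.comp (continuous_const.prodMk (continuous_nn.mul continuous_const))).measurable

private theorem wB_step (k : ℕ) {ν : Measure ℝ}
    (h : ∀ (f : Y → ℝ≥0∞), Measurable f → ∀ y,
      Qit (kerQ A) k f y = ∫⁻ σ, f (A.act y (nn σ * aa (-(k : ℝ)))) ∂ν)
    {f : Y → ℝ≥0∞} (hf : Measurable f) (y : Y) : Qit (kerQ A) (k + 1) f y =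
      ∫⁻ s in Icc (0 : ℝ) 1, ∫⁻ σ,
        f (A.act y (nn (s + Real.exp (-1) * σ) * aa (-((k + 1 : ℕ) : ℝ)))) ∂ν := by
  have h1 : Qit (kerQ A) (k + 1) f y = ∫⁻ z, Qit (kerQ A) k f z ∂(kerQ A y) := rfl
  rw [h1, lint_kerQ A (Qit_meas (kerQ A) k hf)]
  refine lintegral_congr fun s => ?_
  rw [h f hf]
  refine lintegral_congr fun σ => ?_
  rw [← A.act_mul]
  refine congrArg (fun g => f (A.act y g)) ?_
  have h2 : (-((k + 1 : ℕ) : ℝ)) = -1 + -(k : ℝ) := by
    push_cast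
    ring
  rw [h2, aa_add, nn_add, mul_assoc, mul_assoc, ← mul_assoc (aa (-1)) (nn σ), aa_nn, mul_assoc]

/-- The iterates as integrals over the horocycle.

Proof. Induction on `k`: `ν 0` is the Dirac measure at `0`, and `ν (k + 1)` is the law of `s + exp
(-1) σ`, `s`
uniform in `[0, 1]`, `σ` of law `ν k`:
`(nn s * aa (-1)) * (nn σ * aa (-k)) = nn (s + exp (-1) σ) * aa (-(k + 1))`. The support is in
`[0, 8/5]` as
`1 + exp (-1) * (8/5) ≤ 8/5`. -/
theorem Qit_eq (k : ℕ) : ∃ ν : Measure ℝ, IsProbabilityMeasure ν ∧ ν (Icc (0 : ℝ) (8 / 5))ᶜ = 0 ∧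
    ∀ (f : Y → ℝ≥0∞), Measurable f → ∀ y,
      Qit (kerQ A) k f y = ∫⁻ σ, f (A.act y (nn σ * aa (-(k : ℝ)))) ∂ν := by
  induction k with
  | zero =>
    refine ⟨Measure.dirac 0, inferInstance, ?_, fun f hf y => ?_⟩
    · rw [Measure.dirac_apply' _ measurableSet_Icc.compl, Set.indicator_of_notMem]
      rw [Set.mem_compl_iff, not_not]
      exact ⟨le_rfl, by norm_num⟩
    · rw [lintegral_dirac, nn_zero, one_mul, Nat.cast_zero, neg_zero, aa_zero, A.act_one]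
      rfl
  | succ k ih =>
    obtain ⟨ν, hν, hν0, hf0⟩ := ih
    have hp : IsProbabilityMeasure (volume.restrict (Icc (0 : ℝ) 1)) := by
      constructor
      rw [Measure.restrict_apply_univ, Real.volume_Icc]
      norm_num
    have hm : Measurable fun p : ℝ × ℝ => p.1 + Real.exp (-1) * p.2 :=
      measurable_fst.add (measurable_snd.const_mul _)
    refine ⟨((volume.restrict (Icc (0 : ℝ) 1)).prod ν).map fun p => p.1 + Real.exp (-1) * p.2,
      Measure.isProbabilityMeasure_map hm.aemeasurable, ?_, fun f hf y => ?_⟩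
    · rw [Measure.map_apply hm measurableSet_Icc.compl]
      have h1 : ∀ᵐ p ∂((volume.restrict (Icc (0 : ℝ) 1)).prod ν), p.1 ∈ Icc (0 : ℝ) 1 :=
        Measure.quasiMeasurePreserving_fst.ae (ae_restrict_mem measurableSet_Icc)
      have h2 : ∀ᵐ p ∂((volume.restrict (Icc (0 : ℝ) 1)).prod ν), p.2 ∈ Icc (0 : ℝ) (8 / 5) :=
        Measure.quasiMeasurePreserving_snd.ae hν0
      have h3 : ∀ᵐ p ∂((volume.restrict (Icc (0 : ℝ) 1)).prod ν),
          p.1 + Real.exp (-1) * p.2 ∈ Icc (0 : ℝ) (8 / 5) := by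
        filter_upwards [h1, h2] with p hp1 hp2
        have h4 := wB_exp
        have h5 := Real.exp_pos (-1)
        obtain ⟨a1, a2⟩ := hp1
        obtain ⟨b1, b2⟩ := hp2
        exact ⟨by positivity, by nlinarith⟩
      exact h3
    · have hg := wB_meas A y (aa (-((k + 1 : ℕ) : ℝ))) hf
      have hgm : Measurable fun p : ℝ × ℝ =>
        f (A.act y (nn (p.1 + Real.exp (-1) * p.2) * aa (-((k + 1 : ℕ) : ℝ)))) := hg.comp hm
      rw [lintegral_map hg hm, lintegral_prod _ hgm.aemeasurable]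
      exact wB_step A k hf0 hf y

/-- Lower bound for the iterates.

Proof. `Qit (k + 1) f y = ∫⁻ σ, ∫⁻ s in Icc 0 1, f (y · (nn (s + exp (-1) σ) * aa (-(k + 1)))) ∂ν
k`
(as in `Qit_eq`; apply `Qit_eq` for `k` to the inner function and Tonelli), and for
`0 ≤ exp (-1) σ ≤ 3/5` the interval `[c, 1 + c]`, `c = exp (-1) σ`, contains `[3/5, 1]`. -/
theorem Qit_ge (k : ℕ) (hk : 0 < k) {f : Y → ℝ≥0∞} (hf : Measurable f) (y : Y) :
    ∫⁻ s in Icc (3 / 5 : ℝ) 1, f (A.act y (nn s * aa (-(k : ℝ)))) ≤ Qit (kerQ A) k f y := by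
  obtain ⟨m, rfl⟩ : ∃ m, k = m + 1 := ⟨k - 1, by omega⟩
  obtain ⟨ν, hν, hν0, hf0⟩ := Qit_eq A m
  have hm : Measurable fun p : ℝ × ℝ => p.1 + Real.exp (-1) * p.2 :=
    measurable_fst.add (measurable_snd.const_mul _)
  have hg := wB_meas A y (aa (-((m + 1 : ℕ) : ℝ))) hf
  have hgm : Measurable fun p : ℝ × ℝ =>
    f (A.act y (nn (p.1 + Real.exp (-1) * p.2) * aa (-((m + 1 : ℕ) : ℝ)))) := hg.comp hm
  have hsw := lintegral_lintegral_swap (μ := volume.restrict (Icc (0 : ℝ) 1)) (ν := ν)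
    (f := fun s σ => f (A.act y (nn (s + Real.exp (-1) * σ) * aa (-((m + 1 : ℕ) : ℝ)))))
    hgm.aemeasurable
  rw [wB_step A m hf0 hf y, hsw]
  have h1 : ∫⁻ s in Icc (3 / 5 : ℝ) 1, f (A.act y (nn s * aa (-((m + 1 : ℕ) : ℝ)))) =
      ∫⁻ _ : ℝ, (∫⁻ s in Icc (3 / 5 : ℝ) 1, f (A.act y (nn s * aa (-((m + 1 : ℕ) : ℝ))))) ∂ν := by
    rw [lintegral_const, measure_univ, mul_one]
  rw [h1]
  refine lintegral_mono_ae ?_
  have h2 : ∀ᵐ σ ∂ν, σ ∈ Icc (0 : ℝ) (8 / 5) := hν0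
  refine h2.mono fun σ hσ => ?_
  have h4 := wB_exp
  have h5 := Real.exp_pos (-1)
  obtain ⟨b1, b2⟩ := hσ
  obtain ⟨c, hc⟩ : ∃ c, c = Real.exp (-1) * σ := ⟨_, rfl⟩
  have hc0 : 0 ≤ c := by
    rw [hc]
    positivity
  have hc1 : c ≤ 3 / 5 := by
    rw [hc]
    nlinarith
  rw [← hc, ← lintegral_indicator measurableSet_Icc, ← lintegral_indicator measurableSet_Icc]
  have h6 := lintegral_add_right_eq_self (μ := (volume : Measure ℝ)) (fun τ =>
    (Icc (0 : ℝ) 1).indicator (fun _ => f (A.act y (nn τ * aa (-((m + 1 : ℕ) : ℝ))))) (τ - c)) c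
  have h7 : ∫⁻ s, (Icc (0 : ℝ) 1).indicator
      (fun s => f (A.act y (nn (s + c) * aa (-((m + 1 : ℕ) : ℝ))))) s =
      ∫⁻ τ, (Icc (0 : ℝ) 1).indicator
        (fun _ => f (A.act y (nn τ * aa (-((m + 1 : ℕ) : ℝ))))) (τ - c) := by
    rw [← h6]
    refine lintegral_congr fun s => ?_
    rw [add_sub_cancel_right]
    rfl
  rw [h7]
  refine lintegral_mono fun τ => ?_
  by_cases hτ : τ ∈ Icc (3 / 5 : ℝ) 1
  · have h8 : τ - c ∈ Icc (0 : ℝ) 1 := ⟨by linarith [hτ.1], by linarith [hτ.2]⟩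
    rw [Set.indicator_of_mem hτ, Set.indicator_of_mem h8]
  · rw [Set.indicator_of_notMem hτ]
    exact zero_le

end Pool.Agent.MP27775c.DO
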