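import Pool.Agent.Lib.MP_27775c_an_DO.WB

/-!
# MP_27775c_an, project DO, module WC: the maximal function
-/

set_option autoImplicit false

open MeasureTheory Set Filter Topology
open scoped ENNReal

namespace Pool.Agent.MP27775c.DO

variable {Y : Type*} [TopologicalSpace Y] [PolishSpace Y] [MeasurableSpace Y] [BorelSpace Y]
  (A : RAct Y)

/-- The maximal function. -/
noncomputable def VV (u : Y → ℝ≥0∞) (y : Y) : ℝ≥0∞ :=
  ⨆ n : ℕ, (∫⁻ r in Ioc (0 : ℝ) ((n : ℝ) + 1), ∫⁻ ξ in Icc (-1 : ℝ) 1,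
    u (A.act y (nn ξ * aa (-r)))) / ((n : ℝ≥0∞) + 1)

private theorem wc_joint : Measurable fun p : Y × (ℝ × ℝ) =>
    A.act p.1 (nn p.2.2 * aa (-p.2.1)) :=
  meas_joint A (c := fun q : ℝ × ℝ => nn q.2 * aa (-q.1))
    ((continuous_nn.comp continuous_snd).mul (continuous_aa.comp continuous_fst.neg))

private theorem wc_uj {u : Y → ℝ≥0∞} (hu : Measurable u) :
    Measurable fun p : (Y × ℝ) × ℝ => u (A.act p.1.1 (nn p.2 * aa (-p.1.2))) := by
  have h : Measurable fun p : (Y × ℝ) × ℝ => (p.1.1, (p.1.2, p.2)) := by fun_prop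
  exact hu.comp ((wc_joint A).comp h)

private theorem wc_num_meas {u : Y → ℝ≥0∞} (hu : Measurable u) (a b c d : ℝ) :
    Measurable fun y => ∫⁻ r in Ioc c d, ∫⁻ ξ in Icc a b, u (A.act y (nn ξ * aa (-r))) :=
  ((wc_uj A hu).lintegral_prod_right' (ν := volume.restrict (Icc a b))).lintegral_prod_right'
    (ν := volume.restrict (Ioc c d))

theorem VV_meas {u : Y → ℝ≥0∞} (hu : Measurable u) : Measurable (VV A u) := by
  have h1 : ∀ n : ℕ, Measurable fun y => (∫⁻ r in Ioc (0 : ℝ) ((n : ℝ) + 1),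
      ∫⁻ ξ in Icc (-1 : ℝ) 1, u (A.act y (nn ξ * aa (-r)))) / ((n : ℝ≥0∞) + 1) := fun n =>
    (wc_num_meas A hu (-1) 1 0 ((n : ℝ) + 1)).div_const _
  exact Measurable.iSup h1

/-- The numerator with `[3/5, 1]` instead of `[-1, 1]`. -/
private noncomputable def wc_N (u : Y → ℝ≥0∞) (n : ℕ) (y : Y) : ℝ≥0∞ :=
  ∫⁻ r in Ioc (0 : ℝ) ((n : ℝ) + 1), ∫⁻ ξ in Icc (3 / 5 : ℝ) 1, u (A.act y (nn ξ * aa (-r)))

private noncomputable def wc_f (u : Y → ℝ≥0∞) (y : Y) : ℝ≥0∞ :=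
  ∫⁻ r in Ioc (0 : ℝ) 1, u (A.act y (aa (-r)))

private noncomputable def wc_V (f : Y → ℝ≥0∞) (y : Y) : ℝ≥0∞ :=
  ∫⁻ ξ in Icc (3 / 5 : ℝ) 1, f (A.act y (nn ξ))

private theorem wc_ja : Measurable fun p : Y × ℝ => A.act p.1 (aa (-p.2)) :=
  meas_joint A (c := fun r : ℝ => aa (-r)) (continuous_aa.comp continuous_neg)

private theorem wc_jn : Measurable fun p : Y × ℝ => A.act p.1 (nn p.2) :=
  meas_joint A continuous_nn

private theorem wc_f_meas {u : Y → ℝ≥0∞} (hu : Measurable u) : Measurable (wc_f A u) :=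
  (hu.comp (wc_ja A)).lintegral_prod_right' (ν := volume.restrict (Ioc (0 : ℝ) 1))

private theorem wc_V_meas {f : Y → ℝ≥0∞} (hf : Measurable f) : Measurable (wc_V A f) :=
  (hf.comp (wc_jn A)).lintegral_prod_right' (ν := volume.restrict (Icc (3 / 5 : ℝ) 1))

private theorem wc_f_int {m : Measure Y} [IsProbabilityMeasure m] (h : IsPInv A m)
    {u : Y → ℝ≥0∞} (hu : Measurable u) : ∫⁻ y, wc_f A u y ∂m = ∫⁻ y, u y ∂m := by
  unfold wc_f
  rw [lintegral_lintegral_swap (f := fun (y : Y) (r : ℝ) => u (A.act y (aa (-r))))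
    (hu.comp (wc_ja A)).aemeasurable]
  have h1 : ∀ r : ℝ, ∫⁻ y, u (A.act y (aa (-r))) ∂m = ∫⁻ y, u y ∂m := fun r => by
    rw [← lintegral_tr A m (aa (-r)) u, h.2]
  simp only [h1]
  rw [setLIntegral_const, Real.volume_Ioc]
  simp

private theorem wc_V_int {m : Measure Y} [IsProbabilityMeasure m] (h : IsPInv A m)
    {f : Y → ℝ≥0∞} (hf : Measurable f) :
    ∫⁻ y, wc_V A f y ∂m = ENNReal.ofReal (2 / 5) * ∫⁻ y, f y ∂m := by
  unfold wc_V
  rw [lintegral_lintegral_swap (f := fun (y : Y) (ξ : ℝ) => f (A.act y (nn ξ)))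
    (hf.comp (wc_jn A)).aemeasurable]
  have h1 : ∀ r : ℝ, ∫⁻ y, f (A.act y (nn r)) ∂m = ∫⁻ y, f y ∂m := fun r => by
    rw [← lintegral_tr A m (nn r) f, h.1]
  simp only [h1]
  rw [setLIntegral_const, Real.volume_Icc, mul_comm]
  norm_num

private theorem wc_shift_Icc (g : ℝ → ℝ≥0∞) (c : ℝ) :
    ∫⁻ ξ in Icc (3 / 5 + c) (1 + c), g ξ = ∫⁻ ξ in Icc (3 / 5 : ℝ) 1, g (ξ + c) := by
  have h1 := (measurePreserving_add_right volume c).setLIntegral_comp_preimage_emb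
    (measurableEmbedding_addRight c) g (Icc (3 / 5 + c) (1 + c))
  rw [Set.preimage_add_const_Icc, add_sub_cancel_right, add_sub_cancel_right] at h1
  exact h1.symm

private theorem wc_shift_Ioc (g : ℝ → ℝ≥0∞) (c : ℝ) :
    ∫⁻ ξ in Ioc c (c + 1), g ξ = ∫⁻ ξ in Ioc (0 : ℝ) 1, g (ξ + c) := by
  have h1 := (measurePreserving_add_right volume c).setLIntegral_comp_preimage_emb
    (measurableEmbedding_addRight c) g (Ioc c (c + 1))
  rw [Set.preimage_add_const_Ioc, sub_self, add_sub_cancel_left] at h1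
  exact h1.symm

private theorem wc_split (g : ℝ → ℝ≥0∞) (n : ℕ) :
    ∫⁻ r in Ioc (0 : ℝ) (n : ℝ), g r =
      ∑ k ∈ Finset.range n, ∫⁻ r in Ioc (0 : ℝ) 1, g (r + k) := by
  induction n with
  | zero => simp
  | succ n ih =>
    rw [Finset.sum_range_succ, ← ih, ← wc_shift_Ioc, Nat.cast_succ,
      ← lintegral_union measurableSet_Ioc,
      Set.Ioc_union_Ioc_eq_Ioc (Nat.cast_nonneg n) (by linarith)]
    rw [Set.disjoint_left]
    intro x hx hx'
    exact absurd hx.2 (not_le.2 hx'.1)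

private theorem wc_coverI (g : ℝ → ℝ≥0∞) : ∫⁻ ξ in Icc (-1 : ℝ) 1, g ξ ≤
    ∑ j : Fin 5, ∫⁻ ξ in Icc (3 / 5 : ℝ) 1, g (ξ + (-8 / 5 + 2 / 5 * (j : ℝ))) := by
  have hsub : Icc (-1 : ℝ) 1 ⊆ ⋃ j : Fin 5, Icc (3 / 5 + (-8 / 5 + 2 / 5 * (j : ℝ)))
      (1 + (-8 / 5 + 2 / 5 * (j : ℝ))) := by
    intro x hx
    rw [mem_iUnion]
    obtain ⟨h1, h2⟩ := hx
    by_cases a1 : x ≤ -3 / 5
    · exact ⟨0, by constructor <;> norm_num <;> linarith⟩
    by_cases a2 : x ≤ -1 / 5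
    · exact ⟨1, by constructor <;> norm_num <;> linarith⟩
    by_cases a3 : x ≤ 1 / 5
    · exact ⟨2, by constructor <;> norm_num <;> linarith⟩
    by_cases a4 : x ≤ 3 / 5
    · exact ⟨3, by constructor <;> norm_num <;> linarith⟩
    · exact ⟨4, by constructor <;> norm_num <;> linarith⟩
  refine (lintegral_mono_set hsub).trans ((lintegral_iUnion_le _ _).trans (le_of_eq ?_))
  rw [tsum_fintype]
  exact Finset.sum_congr rfl fun j _ => wc_shift_Icc g _

private theorem wc_cover {u : Y → ℝ≥0∞} (hu : Measurable u) (y : Y) (n : ℕ) :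
    ∫⁻ r in Ioc (0 : ℝ) ((n : ℝ) + 1), ∫⁻ ξ in Icc (-1 : ℝ) 1, u (A.act y (nn ξ * aa (-r))) ≤
      ∑ j : Fin 5, wc_N A u n (A.act y (nn (-8 / 5 + 2 / 5 * (j : ℝ)))) := by
  have h1 : ∀ r : ℝ, ∫⁻ ξ in Icc (-1 : ℝ) 1, u (A.act y (nn ξ * aa (-r))) ≤
      ∑ j : Fin 5, ∫⁻ ξ in Icc (3 / 5 : ℝ) 1,
        u (A.act (A.act y (nn (-8 / 5 + 2 / 5 * (j : ℝ)))) (nn ξ * aa (-r))) := by
    intro r
    refine (wc_coverI _).trans (le_of_eq ?_)
    refine Finset.sum_congr rfl fun j _ => lintegral_congr fun ξ => ?_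
    rw [← A.act_mul, ← mul_assoc, ← nn_add, add_comm ξ]
  refine (lintegral_mono h1).trans (le_of_eq ?_)
  rw [lintegral_finsetSum]
  · rfl
  · intro j _
    have h2 := (wc_uj A hu).lintegral_prod_right' (ν := volume.restrict (Icc (3 / 5 : ℝ) 1))
    exact h2.comp (measurable_const.prodMk measurable_id)

private theorem wc_bound {u : Y → ℝ≥0∞} (hu : Measurable u) (y : Y) (n : ℕ) :
    wc_N A u n y ≤ wc_V A (wc_f A u) y +
      ∑ k ∈ Finset.range (n + 1), Qit (kerQ A) k (wc_f A u) y := by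
  have hfm := wc_f_meas A hu
  have e1 : wc_N A u n y = ∑ k ∈ Finset.range (n + 1), ∫⁻ ξ in Icc (3 / 5 : ℝ) 1,
      wc_f A u (A.act y (nn ξ * aa (-(k : ℝ)))) := by
    unfold wc_N
    have h0 := wc_split (fun r => ∫⁻ ξ in Icc (3 / 5 : ℝ) 1, u (A.act y (nn ξ * aa (-r))))
      (n + 1)
    rw [Nat.cast_succ] at h0
    rw [h0]
    refine Finset.sum_congr rfl fun k _ => ?_
    rw [lintegral_lintegral_swap]
    · refine lintegral_congr fun ξ => ?_
      unfold wc_f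
      refine lintegral_congr fun r => ?_
      rw [← A.act_mul, mul_assoc, ← aa_add, neg_add_rev]
    · have h2 : Measurable fun p : ℝ × ℝ => ((y, p.1 + (k : ℝ)), p.2) := by fun_prop
      exact ((wc_uj A hu).comp h2).aemeasurable
  rw [e1, Finset.sum_range_succ', Finset.sum_range_succ', add_comm]
  have h3 : ∫⁻ ξ in Icc (3 / 5 : ℝ) 1, wc_f A u (A.act y (nn ξ * aa (-((0 : ℕ) : ℝ)))) =
      wc_V A (wc_f A u) y := by
    unfold wc_V
    refine lintegral_congr fun ξ => ?_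
    rw [Nat.cast_zero, neg_zero, aa_zero, mul_one]
  rw [h3]
  refine add_le_add le_rfl (le_trans (Finset.sum_le_sum fun k _ => ?_) le_self_add)
  exact Qit_ge A (k + 1) k.succ_pos hfm y

/-- Weak type inequality for the maximal function.

Proof. Let `V' y` be the same maximal function with `[3/5, 1]` instead of `[-1, 1]`. The five
translates `[3/5, 1] - 8/5 + 2/5 j`, `j = 0, ..., 4`, cover `[-1, 1]`, so
`VV u y ≤ ∑ j, V' (y · nn (-8/5 + 2/5 j))`, and by the invariance of `m` it is enough to bound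
`m {V' > c / 5}`. With `f y = ∫⁻ r in Ioc 0 1, u (y · aa (-r))` the numerator of `V'` is
`∑ k < n + 1, ∫⁻ ξ in Icc (3/5) 1, f (y · (nn ξ * aa (-k)))`, at most `V₀ y + ∑ k < n + 1, Qit k f
y` with
`V₀ y = ∫⁻ ξ in Icc (3/5) 1, f (y · nn ξ)` (`Qit_ge` for `k ≥ 1`). `∫⁻ V₀ ≤ ∫⁻ u`, `∫⁻ f = ∫⁻ u`.
Use
Chebyshev (`mul_meas_ge_le_lintegral`) and `hopf`. -/
theorem VV_weak {m : Measure Y} [IsProbabilityMeasure m] (h : IsPInv A m) {u : Y → ℝ≥0∞}
    (hu : Measurable u) {c : ℝ≥0∞} (hc : 0 < c) (hc' : c ≠ ⊤) :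
    m {y | c < VV A u y} ≤ 100 * (∫⁻ y, u y ∂m) / c := by
  have hp : IsProbabilityMeasure m := inferInstance
  set I : ℝ≥0∞ := ∫⁻ y, u y ∂m with hI
  set d : ℝ≥0∞ := c / 10 with hd
  have h10 : (10 : ℝ≥0∞) ≠ 0 := by norm_num
  have h10' : (10 : ℝ≥0∞) ≠ ⊤ := by finiteness
  have hcd : c = 10 * d := (ENNReal.mul_div_cancel h10 h10').symm
  have hd0 : 0 < d := ENNReal.div_pos hc.ne' h10'
  have hdt : d ≠ ⊤ := ENNReal.div_ne_top hc' h10
  set f : Y → ℝ≥0∞ := wc_f A u with hf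
  have hfm : Measurable f := wc_f_meas A hu
  set V₀ : Y → ℝ≥0∞ := wc_V A f with hV
  have hVm : Measurable V₀ := wc_V_meas A hfm
  have hfI : ∫⁻ y, f y ∂m = I := wc_f_int A h hu
  have hVI : ∫⁻ y, V₀ y ∂m ≤ I := by
    rw [hV, wc_V_int A h hfm, hfI]
    calc ENNReal.ofReal (2 / 5) * I ≤ 1 * I := by
          gcongr
          exact ENNReal.ofReal_le_one.2 (by norm_num)
      _ = I := one_mul I
  set B : Set Y := {y | d ≤ V₀ y} ∪
    {y | ∃ n : ℕ, 0 < n ∧ d * n < ∑ k ∈ Finset.range n, Qit (kerQ A) k f y} with hB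
  have hmB : m B ≤ I / d + I / d := by
    refine (measure_union_le _ _).trans (add_le_add ?_ ?_)
    · refine (meas_ge_le_lintegral_div hVm.aemeasurable hd0.ne' hdt).trans ?_
      exact ENNReal.div_le_div_right hVI d
    · refine (hopf (kerQ A) m (kerQ_inv A h) hfm hd0 hdt).trans (le_of_eq ?_)
      rw [hfI]
  have hsub : {y | c < VV A u y} ⊆
      ⋃ j : Fin 5, (fun y => A.act y (nn (-8 / 5 + 2 / 5 * (j : ℝ)))) ⁻¹' B := by
    intro y hy
    rw [mem_ofPred_eq, VV, lt_iSup_iff] at hy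
    obtain ⟨n, hn⟩ := hy
    have hn0 : ((n : ℝ≥0∞) + 1) ≠ 0 := by simp
    have hnt : ((n : ℝ≥0∞) + 1) ≠ ⊤ := by finiteness
    rw [ENNReal.lt_div_iff_mul_lt (Or.inl hn0) (Or.inl hnt)] at hn
    have hn2 := hn.trans_le (wc_cover A hu y n)
    obtain ⟨j, hj⟩ : ∃ j : Fin 5, 2 * d * ((n : ℝ≥0∞) + 1) <
        wc_N A u n (A.act y (nn (-8 / 5 + 2 / 5 * (j : ℝ)))) := by
      by_contra hcon
      push Not at hcon
      refine absurd hn2 (not_lt.2 ?_)
      refine (Finset.sum_le_sum fun j _ => hcon j).trans (le_of_eq ?_)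
      rw [Finset.sum_const, Finset.card_univ, Fintype.card_fin, nsmul_eq_mul, hcd]
      push_cast
      ring
    refine mem_iUnion.2 ⟨j, ?_⟩
    set y' := A.act y (nn (-8 / 5 + 2 / 5 * (j : ℝ))) with hy'
    have h3 := hj.trans_le (wc_bound A hu y' n)
    by_cases hV0 : d ≤ V₀ y'
    · exact Or.inl hV0
    · refine Or.inr ⟨n + 1, n.succ_pos, ?_⟩
      by_contra hcon
      rw [not_lt] at hcon
      rw [not_le] at hV0
      refine absurd h3 (not_lt.2 ?_)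
      have h4 : V₀ y' ≤ d * ((n : ℝ≥0∞) + 1) := by
        refine hV0.le.trans ?_
        calc d = d * 1 := (mul_one d).symm
          _ ≤ d * ((n : ℝ≥0∞) + 1) := by
            gcongr
            exact le_add_self
      calc V₀ y' + ∑ k ∈ Finset.range (n + 1), Qit (kerQ A) k f y'
          ≤ d * ((n : ℝ≥0∞) + 1) + d * ((n + 1 : ℕ) : ℝ≥0∞) := add_le_add h4 hcon
        _ = 2 * d * ((n : ℝ≥0∞) + 1) := by
          push_cast
          ring
  have hinv : ∀ j : Fin 5,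
      m ((fun y => A.act y (nn (-8 / 5 + 2 / 5 * (j : ℝ)))) ⁻¹' B) = m B := by
    intro j
    have h1 := (homeo A (nn (-8 / 5 + 2 / 5 * (j : ℝ)))).measurableEmbedding.map_apply m B
    have h2 : m.map (homeo A (nn (-8 / 5 + 2 / 5 * (j : ℝ)))) = m := h.1 _
    rw [h2] at h1
    exact h1.symm
  calc m {y | c < VV A u y}
      ≤ ∑ j : Fin 5, m ((fun y => A.act y (nn (-8 / 5 + 2 / 5 * (j : ℝ)))) ⁻¹' B) := by
        refine (measure_mono hsub).trans ((measure_iUnion_le _).trans (le_of_eq ?_))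
        rw [tsum_fintype]
    _ = 5 * m B := by
        rw [Finset.sum_congr rfl fun j _ => hinv j, Finset.sum_const, Finset.card_univ,
          Fintype.card_fin, nsmul_eq_mul]
        norm_num
    _ ≤ 5 * (I / d + I / d) := by gcongr
    _ = 100 * I / c := by
        rw [hd, ENNReal.div_eq_inv_mul, ENNReal.inv_div (Or.inl h10') (Or.inl h10),
          ENNReal.div_eq_inv_mul, ENNReal.div_eq_inv_mul]
        ring

end Pool.Agent.MP27775c.DO
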