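import Pool.Agent.Lib.MP_27775c_an_DO.WC

/-!
# MP_27775c_an, project DO, module WD: dyadic decomposition
-/

set_option autoImplicit false

open MeasureTheory Set Filter Topology
open scoped ENNReal

namespace Pool.Agent.MP27775c.DO

variable {Y : Type*} [TopologicalSpace Y] [PolishSpace Y] [MeasurableSpace Y] [BorelSpace Y]
  (A : RAct Y)

/-- The points of `dyadic` translations. -/
noncomputable def bb (i : ℕ) : ℝ := ((i : ℝ) + 1) / 2 * Real.log 2

/-- The error term at negative times. -/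
noncomputable def WW (u : Y → ℝ≥0∞) (y : Y) : ℝ≥0∞ :=
  ∑' i : ℕ, ENNReal.ofReal (6 * (2 : ℝ) ^ (-(i : ℝ) / 2)) *
    ∫⁻ r in Ioc (-(i : ℝ)) 0, ∫⁻ ξ in Icc (-1 : ℝ) 1, u (A.act y (aa (bb i) * nn ξ * aa (-r)))

private theorem wd_c2 (b : ℝ) :
    Continuous fun q : ℝ × ℝ => aa b * nn q.2 * aa (-q.1) :=
  (continuous_const.mul (continuous_nn.comp continuous_snd)).mul
    (continuous_aa.comp continuous_fst.neg)

private theorem wd_c1 : Continuous fun q : ℝ × ℝ => nn q.1 * aa q.2 :=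
  (continuous_nn.comp continuous_fst).mul (continuous_aa.comp continuous_snd)

/-- Proof. Tonelli and the invariance of `m`: `∫⁻ WW = ∑' 6 * 2 ^ (-i/2) * i * 2 * ∫⁻ u`, finite.
-/
theorem WW_fin {m : Measure Y} [IsProbabilityMeasure m] (h : IsPInv A m) {u : Y → ℝ≥0∞}
    (hu : Measurable u) (hi : ∫⁻ y, u y ∂m ≠ ⊤) : ∀ᵐ y ∂m, WW A u y ≠ ⊤ := by
  have hmeas : ∀ i : ℕ, Measurable fun q : Y × (ℝ × ℝ) =>
      u (A.act q.1 (aa (bb i) * nn q.2.2 * aa (-q.2.1))) := fun i =>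
    hu.comp (meas_joint A (wd_c2 (bb i)))
  have h1 : ∀ i : ℕ, ∫⁻ y, (∫⁻ r in Ioc (-(i : ℝ)) 0, ∫⁻ ξ in Icc (-1 : ℝ) 1,
      u (A.act y (aa (bb i) * nn ξ * aa (-r)))) ∂m =
      (∫⁻ y, u y ∂m) * ENNReal.ofReal 2 * ENNReal.ofReal i := by
    intro i
    have h2 : ∀ r ξ : ℝ, ∫⁻ y, u (A.act y (aa (bb i) * nn ξ * aa (-r))) ∂m = ∫⁻ y, u y ∂m := by
      intro r ξ
      rw [← lintegral_tr, tr_mul, tr_mul, h.2, h.1, h.2]
    rw [lintegral_lintegral_swap]
    · have h3 : ∀ r : ℝ, ∫⁻ y, (∫⁻ ξ in Icc (-1 : ℝ) 1,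
          u (A.act y (aa (bb i) * nn ξ * aa (-r)))) ∂m =
          (∫⁻ y, u y ∂m) * ENNReal.ofReal 2 := by
        intro r
        rw [lintegral_lintegral_swap]
        · rw [lintegral_congr (fun ξ => h2 r ξ), setLIntegral_const, Real.volume_Icc]
          norm_num
        · exact ((hmeas i).comp (measurable_fst.prodMk
            (measurable_const.prodMk measurable_snd))).aemeasurable
      rw [lintegral_congr h3, setLIntegral_const, Real.volume_Ioc]
      norm_num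
    · exact (Measurable.lintegral_prod_right' (f := fun q : (Y × ℝ) × ℝ =>
        u (A.act q.1.1 (aa (bb i) * nn q.2 * aa (-q.1.2)))) ((hmeas i).comp
        ((measurable_fst.comp measurable_fst).prodMk
          ((measurable_snd.comp measurable_fst).prodMk measurable_snd)))).aemeasurable
  have hint : ∀ i : ℕ, Measurable fun y => ENNReal.ofReal (6 * (2 : ℝ) ^ (-(i : ℝ) / 2)) *
      ∫⁻ r in Ioc (-(i : ℝ)) 0, ∫⁻ ξ in Icc (-1 : ℝ) 1,
        u (A.act y (aa (bb i) * nn ξ * aa (-r))) := by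
    intro i
    refine Measurable.const_mul ?_ _
    refine Measurable.lintegral_prod_right' (f := fun q : Y × ℝ => ∫⁻ ξ in Icc (-1 : ℝ) 1,
        u (A.act q.1 (aa (bb i) * nn ξ * aa (-q.2)))) ?_
    exact Measurable.lintegral_prod_right' (f := fun q : (Y × ℝ) × ℝ =>
        u (A.act q.1.1 (aa (bb i) * nn q.2 * aa (-q.1.2)))) ((hmeas i).comp
        ((measurable_fst.comp measurable_fst).prodMk
          ((measurable_snd.comp measurable_fst).prodMk measurable_snd)))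
  have hW : Measurable (WW A u) := Measurable.tsum hint
  have h4 : ∫⁻ y, WW A u y ∂m ≠ ⊤ := by
    unfold WW
    rw [lintegral_tsum fun i => (hint i).aemeasurable]
    have h5 : ∀ i : ℕ, ∫⁻ y, ENNReal.ofReal (6 * (2 : ℝ) ^ (-(i : ℝ) / 2)) *
        (∫⁻ r in Ioc (-(i : ℝ)) 0, ∫⁻ ξ in Icc (-1 : ℝ) 1,
          u (A.act y (aa (bb i) * nn ξ * aa (-r)))) ∂m =
        ((∫⁻ y, u y ∂m) * ENNReal.ofReal 2) *
          ENNReal.ofReal (6 * ((i : ℝ) ^ 1 * ((2 : ℝ) ^ (-(1 / 2) : ℝ)) ^ i)) := by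
      intro i
      rw [lintegral_const_mul', h1 i]
      · have h6 : (2 : ℝ) ^ (-(i : ℝ) / 2) = ((2 : ℝ) ^ (-(1 / 2) : ℝ)) ^ i := by
          rw [← Real.rpow_natCast, ← Real.rpow_mul (by norm_num)]
          congr 1
          ring
        rw [h6]
        have h7 : ENNReal.ofReal (6 * ((i : ℝ) ^ 1 * ((2 : ℝ) ^ (-(1 / 2) : ℝ)) ^ i)) =
            ENNReal.ofReal (6 * ((2 : ℝ) ^ (-(1 / 2) : ℝ)) ^ i) * ENNReal.ofReal i := by
          rw [← ENNReal.ofReal_mul (by positivity)]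
          congr 1
          ring
        rw [h7]
        ring
      · exact ENNReal.ofReal_ne_top
    rw [tsum_congr h5, ENNReal.tsum_mul_left]
    refine ENNReal.mul_ne_top (ENNReal.mul_ne_top hi ENNReal.ofReal_ne_top) ?_
    refine Summable.tsum_ofReal_ne_top ?_
    refine Summable.mul_left _ ?_
    refine summable_pow_mul_geometric_of_norm_lt_one 1 ?_
    rw [Real.norm_of_nonneg (by positivity)]
    exact Real.rpow_lt_one_of_one_lt_of_neg (by norm_num) (by norm_num)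
  filter_upwards [ae_lt_top hW h4] with y hy
  exact hy.ne

/-- scaling -/
private theorem wd_scale {X : ℝ} (hX : 0 < X) {f : ℝ → ℝ≥0∞} (hf : Measurable f) :
    ∫⁻ x in Icc (-X) X, f x = ENNReal.ofReal X * ∫⁻ ξ in Icc (-1 : ℝ) 1, f (X * ξ) := by
  rw [← lintegral_indicator measurableSet_Icc, ← lintegral_indicator measurableSet_Icc]
  have h1 := Real.smul_map_volume_mul_left hX.ne'
  rw [abs_of_pos hX] at h1
  conv_lhs => rw [← h1]
  rw [lintegral_smul_measure, smul_eq_mul, lintegral_map (hf.indicator measurableSet_Icc)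
    (measurable_const_mul X)]
  congr 1
  refine lintegral_congr fun ξ => ?_
  by_cases h : ξ ∈ Icc (-1 : ℝ) 1
  · rw [indicator_of_mem h, indicator_of_mem]
    constructor
    · nlinarith [h.1]
    · nlinarith [h.2]
  · rw [indicator_of_notMem h, indicator_of_notMem]
    rintro ⟨h2, h3⟩
    refine h ⟨?_, ?_⟩
    · by_contra h4
      push Not at h4
      nlinarith
    · by_contra h4
      push Not at h4
      nlinarith

/-- translation -/
private theorem wd_shift {a b a' b' c : ℝ} (h1 : a' ≤ a - c) (h2 : b - c ≤ b')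
    (f : ℝ → ℝ≥0∞) : ∫⁻ R in Ioc a b, f (R - c) ≤ ∫⁻ r in Ioc a' b', f r := by
  rw [← lintegral_indicator measurableSet_Ioc, ← lintegral_indicator measurableSet_Ioc,
    ← lintegral_sub_right_eq_self ((Ioc a' b').indicator f) c]
  refine lintegral_mono fun R => ?_
  by_cases h : R ∈ Ioc a b
  · rw [indicator_of_mem h, indicator_of_mem]
    exact ⟨by linarith [h.1], by linarith [h.2]⟩
  · rw [indicator_of_notMem h]
    exact zero_le

/-- the block -/
private noncomputable def wdBox (i : ℕ) : Set (ℝ × ℝ) :=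
  Icc (-Real.exp (bb i)) (Real.exp (bb i)) ×ˢ Ioc ((2 : ℝ) ^ i / 2) (2 ^ i)

private theorem wd_box (i : ℕ) : MeasurableSet (wdBox i) := by
  unfold wdBox
  exact measurableSet_Icc.prod measurableSet_Ioc

private theorem wd_boxr (i : ℕ) : (volume : Measure (ℝ × ℝ)).restrict (wdBox i) =
    (volume.restrict (Icc (-Real.exp (bb i)) (Real.exp (bb i)))).prod
      (volume.restrict (Ioc ((2 : ℝ) ^ i / 2) (2 ^ i))) := by
  unfold wdBox
  rw [Measure.prod_restrict]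
  rfl

/-- the integrand -/
private noncomputable def wdPhi (A : RAct Y) (u : Y → ℝ≥0∞) (y : Y) (R : ℝ) (p : ℝ × ℝ) :
    ℝ≥0∞ := u (A.act y (nn p.1 * aa (Real.log p.2 - R)))

/-- the inner integral -/
private noncomputable def wdH (A : RAct Y) (u : Y → ℝ≥0∞) (y : Y) (i : ℕ) (r : ℝ) : ℝ≥0∞ :=
  ∫⁻ ξ in Icc (-1 : ℝ) 1, u (A.act y (aa (bb i) * nn ξ * aa (-r)))

private theorem wd_phimeas {u : Y → ℝ≥0∞} (hu : Measurable u) (y : Y) :
    Measurable fun q : ℝ × (ℝ × ℝ) => wdPhi A u y q.1 q.2 := by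
  unfold wdPhi
  exact (hu.comp ((A.cont.comp (continuous_const.prodMk wd_c1)).measurable)).comp
      ((measurable_fst.comp measurable_snd).prodMk
        ((Real.measurable_log.comp (measurable_snd.comp measurable_snd)).sub measurable_fst))

private theorem wd_phimeas1 {u : Y → ℝ≥0∞} (hu : Measurable u) (y : Y) (R : ℝ) :
    Measurable (wdPhi A u y R) := by
  have h := (wd_phimeas A hu y).comp (measurable_prodMk_left (x := R))
  exact h

private theorem wd_phimeas2 {u : Y → ℝ≥0∞} (hu : Measurable u) (y : Y) :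
    Measurable fun q : (ℝ × ℝ) × ℝ => wdPhi A u y q.2 q.1 := by
  have h := (wd_phimeas A hu y).comp measurable_swap
  exact h

private theorem wd_phimeas3 {u : Y → ℝ≥0∞} (hu : Measurable u) (y : Y) (η : ℝ) :
    Measurable fun q : ℝ × ℝ => wdPhi A u y q.2 (q.1, η) := by
  have h0 : Measurable fun q : ℝ × ℝ => (q.2, (q.1, η)) :=
    measurable_snd.prodMk (measurable_fst.prodMk measurable_const)
  have h := (wd_phimeas A hu y).comp h0
  exact h

private theorem wd_Psimeas {u : Y → ℝ≥0∞} (hu : Measurable u) (y : Y) (i : ℕ) :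
    Measurable fun q : ℝ × ℝ => u (A.act y (aa (bb i) * nn q.2 * aa (-q.1))) :=
  hu.comp ((A.cont.comp (continuous_const.prodMk (wd_c2 (bb i)))).measurable)

private theorem wd_Psimeas2 {u : Y → ℝ≥0∞} (hu : Measurable u) (y : Y) (i : ℕ) :
    Measurable fun q : ℝ × ℝ => u (A.act y (aa (bb i) * nn q.1 * aa (-q.2))) := by
  have h := (wd_Psimeas A hu y i).comp measurable_swap
  exact h

private theorem wd_Hmeas {u : Y → ℝ≥0∞} (hu : Measurable u) (y : Y) (i : ℕ) :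
    Measurable (wdH A u y i) := by
  unfold wdH
  exact Measurable.lintegral_prod_right' (wd_Psimeas A hu y i)

private theorem wd_X2 (i : ℕ) : Real.exp (bb i) ^ 2 = 2 * 2 ^ i := by
  have h1 : Real.exp (bb i) ^ 2 = Real.exp (((i + 1 : ℕ) : ℝ) * Real.log 2) := by
    rw [← Real.exp_nat_mul]
    congr 1
    unfold bb
    push_cast
    ring
  rw [h1, Real.exp_nat_mul, Real.exp_log (by norm_num), pow_succ]
  ring

private theorem wd_const (i : ℕ) :
    4 / 4 ^ i * Real.exp (bb i) * 2 ^ i ≤ 6 * (2 : ℝ) ^ (-(i : ℝ) / 2) := by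
  have h2 : (2 : ℝ) ^ (-(i : ℝ) / 2) * (2 : ℝ) ^ (-(i : ℝ) / 2) = 1 / 2 ^ i := by
    rw [← Real.rpow_add (by norm_num), ← add_div, ← two_mul, mul_comm, mul_div_assoc,
      div_self (by norm_num), mul_one, Real.rpow_neg (by norm_num), Real.rpow_natCast,
      one_div]
  have h3 : (0 : ℝ) < (2 : ℝ) ^ (-(i : ℝ) / 2) := by positivity
  refine abs_le_of_sq_le_sq' ?_ (by positivity) |>.2
  have h4 : (4 / 4 ^ i * Real.exp (bb i) * 2 ^ i) ^ 2 = 32 / 2 ^ i := by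
    rw [mul_pow, mul_pow, wd_X2]
    have h6 : (4 : ℝ) ^ i = (2 ^ i) ^ 2 := by
      rw [← pow_mul, mul_comm, pow_mul]
      norm_num
    rw [h6]
    have h7 : (2 : ℝ) ^ i ≠ 0 := by positivity
    field_simp
    ring
  have h5 : (6 * (2 : ℝ) ^ (-(i : ℝ) / 2)) ^ 2 = 36 / 2 ^ i := by
    rw [mul_pow, sq ((2 : ℝ) ^ (-(i : ℝ) / 2)), h2]
    ring
  rw [h4, h5]
  have h8 : (0 : ℝ) < 2 ^ i := by positivity
  exact div_le_div_of_nonneg_right (by norm_num) h8.le

private theorem wd_pt {u : Y → ℝ≥0∞} (y : Y) (R : ℝ) (p : ℝ × ℝ) :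
    ENNReal.ofReal (dom p) * wdPhi A u y R p ≤
      ∑' i : ℕ, (wdBox i).indicator
        (fun p => ENNReal.ofReal (4 / 4 ^ i) * wdPhi A u y R p) p := by
  by_cases hp : 1 / 2 < p.2 ∧ p.1 ^ 2 < 2 * p.2
  · obtain ⟨i, hi1, hi2⟩ : ∃ i : ℕ, (2 : ℝ) ^ i / 2 < p.2 ∧ p.2 ≤ 2 ^ i := by
      classical
      have hex : ∃ i : ℕ, p.2 ≤ (2 : ℝ) ^ i := by
        obtain ⟨n, hn⟩ := pow_unbounded_of_one_lt p.2 (by norm_num : (1 : ℝ) < 2)
        exact ⟨n, hn.le⟩
      refine ⟨Nat.find hex, ?_, Nat.find_spec hex⟩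
      rcases Nat.eq_zero_or_pos (Nat.find hex) with h0 | h0
      · rw [h0]
        simpa using hp.1
      · have h1 := Nat.find_min hex (m := Nat.find hex - 1) (by omega)
        push Not at h1
        have h2 : (2 : ℝ) ^ Nat.find hex / 2 = 2 ^ (Nat.find hex - 1) := by
          obtain ⟨k, hk⟩ : ∃ k, Nat.find hex = k + 1 := ⟨Nat.find hex - 1, by omega⟩
          rw [hk, pow_succ, Nat.add_sub_cancel]
          ring
        rw [h2]
        exact h1
    refine le_trans ?_ (ENNReal.le_tsum i)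
    have hmem : p ∈ wdBox i := by
      refine mem_prod.2 ⟨?_, hi1, hi2⟩
      rw [mem_Icc, ← abs_le]
      refine abs_le_of_sq_le_sq ?_ (Real.exp_pos _).le
      rw [wd_X2]
      linarith [hp.2]
    rw [indicator_of_mem hmem]
    refine mul_le_mul_left ?_ _
    refine ENNReal.ofReal_le_ofReal ?_
    unfold dom
    rw [if_pos hp]
    have h3 : (0 : ℝ) < 2 ^ i / 2 := by positivity
    have h4 : ((2 : ℝ) ^ i / 2) ^ 2 ≤ p.2 ^ 2 := pow_le_pow_left₀ h3.le hi1.le 2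
    have h5 : (4 : ℝ) / 4 ^ i = 1 / ((2 : ℝ) ^ i / 2) ^ 2 := by
      have h6 : (4 : ℝ) ^ i = (2 ^ i) ^ 2 := by
        rw [← pow_mul, mul_comm, pow_mul]
        norm_num
      rw [h6]
      have h7 : (2 : ℝ) ^ i ≠ 0 := by positivity
      field_simp
      ring
    rw [h5]
    exact one_div_le_one_div_of_le (by positivity) h4
  · unfold dom
    rw [if_neg hp, ENNReal.ofReal_zero, zero_mul]
    exact zero_le

private theorem wd_sum {u : Y → ℝ≥0∞} (hu : Measurable u) (y : Y) (R : ℝ) :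
    ∫⁻ p, ENNReal.ofReal (dom p) * wdPhi A u y R p ≤
      ∑' i : ℕ, ENNReal.ofReal (4 / 4 ^ i) * ∫⁻ p in wdBox i, wdPhi A u y R p := by
  have hms : ∀ i : ℕ, MeasurableSet (wdBox i) := wd_box
  have hmp : Measurable (wdPhi A u y R) := wd_phimeas1 A hu y R
  have e1 : ∫⁻ p, ENNReal.ofReal (dom p) * wdPhi A u y R p ≤
      ∫⁻ p, ∑' i : ℕ, (wdBox i).indicator
        (fun p => ENNReal.ofReal (4 / 4 ^ i) * wdPhi A u y R p) p :=
    lintegral_mono (wd_pt A y R)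
  have e2 : ∫⁻ p, ∑' i : ℕ, (wdBox i).indicator
        (fun p => ENNReal.ofReal (4 / 4 ^ i) * wdPhi A u y R p) p =
      ∑' i : ℕ, ∫⁻ p, (wdBox i).indicator
        (fun p => ENNReal.ofReal (4 / 4 ^ i) * wdPhi A u y R p) p :=
    lintegral_tsum fun i => ((hmp.const_mul _).indicator (hms i)).aemeasurable
  have e3 : ∀ i : ℕ, ∫⁻ p, (wdBox i).indicator
        (fun p => ENNReal.ofReal (4 / 4 ^ i) * wdPhi A u y R p) p =
      ENNReal.ofReal (4 / 4 ^ i) * ∫⁻ p in wdBox i, wdPhi A u y R p := fun i =>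
    (lintegral_indicator (hms i) _).trans (lintegral_const_mul _ hmp)
  exact e1.trans (le_of_eq (e2.trans (tsum_congr e3)))

private theorem wd_VV (u : Y → ℝ≥0∞) (y : Y) {S : ℝ} (hS : 3 ≤ S) (i : ℕ) :
    ∫⁻ r in Ioc (0 : ℝ) (S + 2), wdH A u y i r ≤
      ENNReal.ofReal (2 * S) * VV A u (A.act y (aa (bb i))) := by
  have h0 : (0 : ℝ) ≤ S + 2 := by linarith
  have h1 : S + 2 ≤ (⌊S + 2⌋₊ : ℝ) + 1 := (Nat.lt_floor_add_one _).le
  have h2 : (⌊S + 2⌋₊ : ℝ) + 1 ≤ 2 * S := by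
    have := Nat.floor_le h0
    linarith
  have h3 : (∫⁻ r in Ioc (0 : ℝ) ((⌊S + 2⌋₊ : ℝ) + 1), wdH A u y i r) /
      ((⌊S + 2⌋₊ : ℝ≥0∞) + 1) ≤ VV A u (A.act y (aa (bb i))) := by
    refine le_trans (le_of_eq ?_) (le_iSup (fun n : ℕ =>
      (∫⁻ r in Ioc (0 : ℝ) ((n : ℝ) + 1), ∫⁻ ξ in Icc (-1 : ℝ) 1,
        u (A.act (A.act y (aa (bb i))) (nn ξ * aa (-r)))) / ((n : ℝ≥0∞) + 1)) ⌊S + 2⌋₊)
    unfold wdH
    simp only [← A.act_mul, mul_assoc]
  have h4 : ((⌊S + 2⌋₊ : ℝ≥0∞) + 1) ≠ ⊤ := by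
    exact ENNReal.add_ne_top.2 ⟨ENNReal.natCast_ne_top _, ENNReal.one_ne_top⟩
  rw [ENNReal.div_le_iff (by simp) h4] at h3
  refine (lintegral_mono_set (Ioc_subset_Ioc_right h1)).trans (h3.trans ?_)
  rw [mul_comm]
  refine mul_le_mul_left ?_ _
  have h5 : ((⌊S + 2⌋₊ : ℝ≥0∞) + 1) = ENNReal.ofReal ((⌊S + 2⌋₊ : ℝ) + 1) := by
    rw [ENNReal.ofReal_add (by positivity) (by norm_num), ENNReal.ofReal_natCast,
      ENNReal.ofReal_one]
  rw [h5]
  exact ENNReal.ofReal_le_ofReal h2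

/-- one block -/
private theorem wd_block {u : Y → ℝ≥0∞} (hu : Measurable u) (y : Y) {S : ℝ} (i : ℕ) :
    ∫⁻ R in Ioc (0 : ℝ) S, ∫⁻ p in wdBox i, wdPhi A u y R p ≤
    ENNReal.ofReal (Real.exp (bb i)) * (ENNReal.ofReal (2 ^ i) *
      ∫⁻ r in Ioc (-(i : ℝ)) (S + 2), wdH A u y i r) := by
  have hX : 0 < Real.exp (bb i) := Real.exp_pos _
  have hphi := wd_phimeas A hu y
  -- order of integration
  have h1 : ∫⁻ R in Ioc (0 : ℝ) S, ∫⁻ p in wdBox i, wdPhi A u y R p =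
      ∫⁻ η in Ioc ((2 : ℝ) ^ i / 2) (2 ^ i), ∫⁻ x in Icc (-Real.exp (bb i)) (Real.exp (bb i)),
        ∫⁻ R in Ioc (0 : ℝ) S, wdPhi A u y R (x, η) := by
    have h2 := wd_boxr i
    have h5 : Measurable fun p : ℝ × ℝ => ∫⁻ R in Ioc (0 : ℝ) S, wdPhi A u y R p :=
      Measurable.lintegral_prod_right' (wd_phimeas2 A hu y)
    calc ∫⁻ R in Ioc (0 : ℝ) S, ∫⁻ p in wdBox i, wdPhi A u y R p
        = ∫⁻ p in wdBox i, ∫⁻ R in Ioc (0 : ℝ) S, wdPhi A u y R p :=
          lintegral_lintegral_swap hphi.aemeasurable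
      _ = ∫⁻ p, (∫⁻ R in Ioc (0 : ℝ) S, wdPhi A u y R p)
          ∂((volume.restrict (Icc (-Real.exp (bb i)) (Real.exp (bb i)))).prod
          (volume.restrict (Ioc ((2 : ℝ) ^ i / 2) (2 ^ i)))) :=
          congrArg (fun μ : Measure (ℝ × ℝ) =>
            ∫⁻ p, (∫⁻ R in Ioc (0 : ℝ) S, wdPhi A u y R p) ∂μ) h2
      _ = _ := lintegral_prod_symm _ h5.aemeasurable
  rw [h1]
  -- fixed height
  have h3 : ∀ η ∈ Ioc ((2 : ℝ) ^ i / 2) (2 ^ i),
      ∫⁻ x in Icc (-Real.exp (bb i)) (Real.exp (bb i)),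
        ∫⁻ R in Ioc (0 : ℝ) S, wdPhi A u y R (x, η) ≤
      ENNReal.ofReal (Real.exp (bb i)) * ∫⁻ r in Ioc (-(i : ℝ)) (S + 2), wdH A u y i r := by
    intro η hη
    have hη0 : 0 < η := lt_trans (by positivity) hη.1
    have hl2 : 0 < Real.log 2 := Real.log_pos (by norm_num)
    have hl1 : Real.log 2 ≤ 1 := by
      have := Real.log_two_lt_d9
      linarith
    have hc1 : Real.log η - bb i ≤ i := by
      have h4 : Real.log η ≤ i * Real.log 2 := by
        rw [← Real.log_pow]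
        exact Real.log_le_log hη0 hη.2
      unfold bb
      have h5 : (0 : ℝ) ≤ i := Nat.cast_nonneg _
      nlinarith
    have hc2 : -2 ≤ Real.log η - bb i := by
      have h4 : (i : ℝ) * Real.log 2 - Real.log 2 ≤ Real.log η := by
        rw [← Real.log_pow, ← Real.log_div (by positivity) (by norm_num)]
        exact Real.log_le_log (by positivity) hη.1.le
      unfold bb
      have h5 : (0 : ℝ) ≤ i := Nat.cast_nonneg _
      nlinarith
    rw [wd_scale hX]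
    · refine mul_le_mul_right ?_ _
      have h6 : ∀ ξ : ℝ, ∫⁻ R in Ioc (0 : ℝ) S, wdPhi A u y R (Real.exp (bb i) * ξ, η) ≤
          ∫⁻ r in Ioc (-(i : ℝ)) (S + 2), u (A.act y (aa (bb i) * nn ξ * aa (-r))) := by
        intro ξ
        refine le_trans (le_of_eq ?_) (wd_shift (a := 0) (b := S) (a' := -(i : ℝ))
          (b' := S + 2) (c := Real.log η - bb i) (by linarith) (by linarith)
          (fun r => u (A.act y (aa (bb i) * nn ξ * aa (-r)))))
        refine lintegral_congr fun R => ?_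
        unfold wdPhi
        have h7 : nn (Real.exp (bb i) * ξ) * aa (Real.log η - R) =
            aa (bb i) * nn ξ * aa (-(R - (Real.log η - bb i))) := by
          rw [aa_nn, mul_assoc, ← aa_add]
          congr 2
          ring
        simp only [h7]
      refine (lintegral_mono h6).trans (le_of_eq ?_)
      rw [lintegral_lintegral_swap]
      · rfl
      · exact (wd_Psimeas2 A hu y i).aemeasurable
    · exact Measurable.lintegral_prod_right' (wd_phimeas3 A hu y η)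
  refine (setLIntegral_mono' measurableSet_Ioc h3).trans ?_
  rw [setLIntegral_const, Real.volume_Ioc]
  have h8 : ENNReal.ofReal ((2 : ℝ) ^ i - 2 ^ i / 2) ≤ ENNReal.ofReal (2 ^ i) := by
    refine ENNReal.ofReal_le_ofReal ?_
    have : (0 : ℝ) < 2 ^ i := by positivity
    linarith
  refine (mul_le_mul_right h8 _).trans (le_of_eq ?_)
  ring

/-- Dyadic decomposition.

Proof. Split the region `{η > 1/2, x ^ 2 < 2 η}` of `dom` into the blocks `2 ^ (i-1) < η ≤ 2 ^ i`,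
`i ≥ 0`
(`i = 0` is `1/2 < η ≤ 1`). On the block `i`, `1 / η ^ 2 ≤ 4 * 4 ^ (-i)` and `|x| < X i = 2 ^
((i+1)/2)`. Substitute
`x = X i * ξ`, `|ξ| < 1`: `nn (X i * ξ) = aa (bb i) * nn ξ * aa (-(bb i))` (`exp (bb i) = X i`).
So the
block contributes to the integral over `R ∈ (0, S]` at most
`4 * 4 ^ (-i) * X i * ∫ η, ∫ ξ, ∫ R, u (y · (aa (bb i) * nn ξ * aa (log η - bb i - R)))`. With
`r = R - (log η - bb i)`, `log η - bb i ≤ (i - 1)/2 * log 2 ≤ i`, `≥ (i - 3)/2 * log 2 ≥ -2`, so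
`r ∈ (-i, S + 2]`; the length of the block is `≤ 2 ^ i`. The constant is `4 * 2 ^ (-i) * X i =
4 √2 * 2 ^ (-i/2) ≤ 6 * 2 ^ (-i/2)`. Times in `(-i, 0]` give `WW`, times in `(0, S + 2]` give,
with
`n = ⌈S + 2⌉ ≤ 2 S` for `S ≥ 3`, at most `2 S * VV u (y · aa (bb i))`. -/
theorem dyad {u : Y → ℝ≥0∞} (hu : Measurable u) (y : Y) {S : ℝ} (hS : 3 ≤ S) :
    ∫⁻ R in Ioc (0 : ℝ) S, ∫⁻ p, ENNReal.ofReal (dom p) *
        u (A.act y (nn p.1 * aa (Real.log p.2 - R))) ≤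
      WW A u y + ENNReal.ofReal (2 * S) *
        ∑' i : ℕ, ENNReal.ofReal (6 * (2 : ℝ) ^ (-(i : ℝ) / 2)) *
          VV A u (A.act y (aa (bb i))) := by
  have hblock := fun i : ℕ => wd_block A hu y (S := S) i
  have hH : ∀ i : ℕ, Measurable (wdH A u y i) := fun i => wd_Hmeas A hu y i
  -- split every block
  have hsplit : ∀ i : ℕ, ENNReal.ofReal (4 / 4 ^ i) *
      (∫⁻ R in Ioc (0 : ℝ) S, ∫⁻ p in wdBox i, wdPhi A u y R p) ≤
      ENNReal.ofReal (6 * (2 : ℝ) ^ (-(i : ℝ) / 2)) * (∫⁻ r in Ioc (-(i : ℝ)) 0, wdH A u y i r) +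
      ENNReal.ofReal (2 * S) * (ENNReal.ofReal (6 * (2 : ℝ) ^ (-(i : ℝ) / 2)) *
        VV A u (A.act y (aa (bb i)))) := by
    intro i
    refine (mul_le_mul_right (hblock i) _).trans ?_
    rw [← mul_assoc, ← mul_assoc, ← ENNReal.ofReal_mul (by positivity),
      ← ENNReal.ofReal_mul (by positivity)]
    have h1 : 4 / 4 ^ i * Real.exp (bb i) * 2 ^ i ≤ 6 * (2 : ℝ) ^ (-(i : ℝ) / 2) := wd_const i
    have h2 : ∫⁻ r in Ioc (-(i : ℝ)) (S + 2), wdH A u y i r ≤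
        (∫⁻ r in Ioc (-(i : ℝ)) 0, wdH A u y i r) +
          ENNReal.ofReal (2 * S) * VV A u (A.act y (aa (bb i))) := by
      have h3 : Ioc (-(i : ℝ)) (S + 2) ⊆ Ioc (-(i : ℝ)) 0 ∪ Ioc 0 (S + 2) := by
        rintro r ⟨hr1, hr2⟩
        rcases le_or_gt r 0 with h | h
        · exact Or.inl ⟨hr1, h⟩
        · exact Or.inr ⟨h, hr2⟩
      refine (lintegral_mono_set h3).trans ((lintegral_union_le _ _ _).trans ?_)
      exact add_le_add le_rfl (wd_VV A u y hS i)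
    calc ENNReal.ofReal (4 / 4 ^ i * Real.exp (bb i) * 2 ^ i) *
        (∫⁻ r in Ioc (-(i : ℝ)) (S + 2), wdH A u y i r)
        ≤ ENNReal.ofReal (6 * (2 : ℝ) ^ (-(i : ℝ) / 2)) *
          ((∫⁻ r in Ioc (-(i : ℝ)) 0, wdH A u y i r) +
          ENNReal.ofReal (2 * S) * VV A u (A.act y (aa (bb i)))) :=
          mul_le_mul' (ENNReal.ofReal_le_ofReal h1) h2
      _ = _ := by ring
  have hK : ∀ i : ℕ, Measurable fun R : ℝ => ∫⁻ p in wdBox i, wdPhi A u y R p := fun i =>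
    Measurable.lintegral_prod_right' (f := fun q : ℝ × (ℝ × ℝ) => wdPhi A u y q.1 q.2)
      (wd_phimeas A hu y)
  calc ∫⁻ R in Ioc (0 : ℝ) S, ∫⁻ p, ENNReal.ofReal (dom p) *
        u (A.act y (nn p.1 * aa (Real.log p.2 - R)))
      ≤ ∫⁻ R in Ioc (0 : ℝ) S, ∑' i : ℕ, ENNReal.ofReal (4 / 4 ^ i) *
        ∫⁻ p in wdBox i, wdPhi A u y R p := lintegral_mono fun R => wd_sum A hu y R
    _ = ∑' i : ℕ, ∫⁻ R in Ioc (0 : ℝ) S, ENNReal.ofReal (4 / 4 ^ i) *
        ∫⁻ p in wdBox i, wdPhi A u y R p :=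
        lintegral_tsum fun i => ((hK i).const_mul _).aemeasurable
    _ = ∑' i : ℕ, ENNReal.ofReal (4 / 4 ^ i) *
        (∫⁻ R in Ioc (0 : ℝ) S, ∫⁻ p in wdBox i, wdPhi A u y R p) :=
        tsum_congr fun i => lintegral_const_mul _ (hK i)
    _ ≤ ∑' i : ℕ, (ENNReal.ofReal (6 * (2 : ℝ) ^ (-(i : ℝ) / 2)) *
        (∫⁻ r in Ioc (-(i : ℝ)) 0, wdH A u y i r) +
      ENNReal.ofReal (2 * S) * (ENNReal.ofReal (6 * (2 : ℝ) ^ (-(i : ℝ) / 2)) *
        VV A u (A.act y (aa (bb i))))) := ENNReal.tsum_le_tsum hsplit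
    _ = WW A u y + ENNReal.ofReal (2 * S) *
        ∑' i : ℕ, ENNReal.ofReal (6 * (2 : ℝ) ^ (-(i : ℝ) / 2)) *
          VV A u (A.act y (aa (bb i))) := by
        rw [ENNReal.tsum_add, ENNReal.tsum_mul_left]
        rfl

end Pool.Agent.MP27775c.DO
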