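import Pool.Agent.Lib.MP_27775c_an_DO.WD

/-!
# MP_27775c_an, project DO, module WE: sums of maximal functions
-/

set_option autoImplicit false

open MeasureTheory Set Filter Topology
open scoped ENNReal

namespace Pool.Agent.MP27775c.DO

variable {Y : Type*} [TopologicalSpace Y] [PolishSpace Y] [MeasurableSpace Y] [BorelSpace Y]
  (A : RAct Y)

/-- Weak type inequality for a sum of maximal functions.

Proof. If `VV u (y · aa (bb i)) ≤ c * 2 ^ (i/4) / 80` for all `i` then the sum is at most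
`c * 6 / 80 * ∑' 2 ^ (-i/4) ≤ c * 6 / 80 * 6.3 ≤ c`. So the set is contained in the union of the
sets
`{c * 2 ^ (i/4) / 80 < VV u (y · aa (bb i))}`, of measure at most `100 * 80 * 2 ^ (-i/4) * ∫⁻ u /
c` (`VV_weak`,
invariance). -/
theorem sum_weak : ∃ C : ℝ≥0∞, C ≠ ⊤ ∧ ∀ (m : Measure Y), IsProbabilityMeasure m → IsPInv A m →
    ∀ (u : Y → ℝ≥0∞), Measurable u → ∀ c : ℝ≥0∞, 0 < c → c ≠ ⊤ →
      m {y | c < ∑' i : ℕ, ENNReal.ofReal (6 * (2 : ℝ) ^ (-(i : ℝ) / 2)) *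
        VV A u (A.act y (aa (bb i)))} ≤ C * (∫⁻ y, u y ∂m) / c := by
  -- the ratio
  obtain ⟨ρ, hρ⟩ : ∃ ρ : ℝ, ρ = (2 : ℝ) ^ (-(1 / 4) : ℝ) := ⟨_, rfl⟩
  have hρ0 : 0 < ρ := by rw [hρ]; positivity
  have hρ4 : ρ ^ 4 = 1 / 2 := by
    rw [hρ, ← Real.rpow_natCast, ← Real.rpow_mul (by norm_num)]
    norm_num
  have hρ1 : ρ ≤ 9 / 10 := by
    by_contra hcon
    rw [not_le] at hcon
    have h1 : (9 / 10 : ℝ) ^ 4 < ρ ^ 4 := pow_lt_pow_left₀ hcon (by norm_num) (by norm_num)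
    rw [hρ4] at h1
    norm_num at h1
  have hpow : ∀ i : ℕ, (2 : ℝ) ^ (-(i : ℝ) / 2) = ρ ^ i * ρ ^ i := by
    intro i
    rw [hρ, ← pow_add, ← Real.rpow_natCast, ← Real.rpow_mul (by norm_num)]
    congr 1
    push_cast
    ring
  obtain ⟨q, hq⟩ : ∃ q : ℝ≥0∞, q = ENNReal.ofReal ρ := ⟨_, rfl⟩
  have hq0 : q ≠ 0 := by
    rw [hq]
    exact (ENNReal.ofReal_pos.2 hρ0).ne'
  have hqt : q ≠ ⊤ := by
    rw [hq]
    exact ENNReal.ofReal_ne_top
  have hcoef : ∀ i : ℕ, ENNReal.ofReal (6 * (2 : ℝ) ^ (-(i : ℝ) / 2)) = 6 * (q ^ i * q ^ i) := by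
    intro i
    rw [hpow, ENNReal.ofReal_mul (by norm_num), ENNReal.ofReal_mul (by positivity), hq,
      ENNReal.ofReal_pow hρ0.le]
    norm_num
  have hgeo : (∑' i : ℕ, q ^ i) ≤ 10 := by
    rw [ENNReal.tsum_geometric]
    have h1 : (10 : ℝ≥0∞)⁻¹ ≤ 1 - q := by
      have h2 : q ≤ ENNReal.ofReal (9 / 10) := by
        rw [hq]
        exact ENNReal.ofReal_le_ofReal hρ1
      have h3 : (1 : ℝ≥0∞) - ENNReal.ofReal (9 / 10) ≤ 1 - q := tsub_le_tsub_left h2 1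
      refine le_trans (le_of_eq ?_) h3
      rw [← ENNReal.ofReal_one, ← ENNReal.ofReal_sub _ (by norm_num)]
      have h4 : (1 : ℝ) - 9 / 10 = 10⁻¹ := by norm_num
      rw [h4, ENNReal.ofReal_inv_of_pos (by norm_num)]
      norm_num
    have h2 := ENNReal.inv_le_inv.2 h1
    rwa [inv_inv] at h2
  refine ⟨80000, by norm_num, ?_⟩
  intro m hm h u hu c hc hct
  obtain ⟨t, ht⟩ : ∃ t : ℕ → ℝ≥0∞, ∀ i, t i = c * (q ^ i)⁻¹ * (80 : ℝ≥0∞)⁻¹ :=
    ⟨_, fun _ => rfl⟩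
  have hqi0 : ∀ i : ℕ, q ^ i ≠ 0 := fun i => pow_ne_zero _ hq0
  have hqit : ∀ i : ℕ, q ^ i ≠ ⊤ := fun i => ENNReal.pow_ne_top hqt
  have ht0 : ∀ i, 0 < t i := by
    intro i
    rw [ht, pos_iff_ne_zero]
    refine mul_ne_zero (mul_ne_zero hc.ne' (ENNReal.inv_ne_zero.2 (hqit i))) ?_
    simp
  have htt : ∀ i, t i ≠ ⊤ := by
    intro i
    rw [ht]
    refine ENNReal.mul_ne_top (ENNReal.mul_ne_top hct (ENNReal.inv_ne_top.2 (hqi0 i))) ?_
    simp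
  have hinv : ∀ i, (t i)⁻¹ = c⁻¹ * q ^ i * 80 := by
    intro i
    rw [ht, ENNReal.mul_inv (Or.inr (by simp)) (Or.inr (by simp)),
      ENNReal.mul_inv (Or.inl hc.ne') (Or.inl hct), inv_inv, inv_inv]
  have hmul : ∀ i, 6 * (q ^ i * q ^ i) * t i = 6 * 80⁻¹ * c * q ^ i := by
    intro i
    rw [ht]
    calc 6 * (q ^ i * q ^ i) * (c * (q ^ i)⁻¹ * (80 : ℝ≥0∞)⁻¹) =
          6 * 80⁻¹ * c * q ^ i * (q ^ i * (q ^ i)⁻¹) := by ring
      _ = 6 * 80⁻¹ * c * q ^ i := by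
        rw [ENNReal.mul_inv_cancel (hqi0 i) (hqit i), mul_one]
  have hsub : {y | c < ∑' i : ℕ, ENNReal.ofReal (6 * (2 : ℝ) ^ (-(i : ℝ) / 2)) *
      VV A u (A.act y (aa (bb i)))} ⊆ ⋃ i : ℕ, {y | t i < VV A u (A.act y (aa (bb i)))} := by
    intro y hy
    by_contra hcon
    simp only [mem_iUnion, mem_ofPred_eq, not_exists, not_lt] at hcon
    rw [mem_ofPred_eq] at hy
    refine absurd hy (not_lt.2 ?_)
    calc ∑' i : ℕ, ENNReal.ofReal (6 * (2 : ℝ) ^ (-(i : ℝ) / 2)) *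
          VV A u (A.act y (aa (bb i))) ≤ ∑' i : ℕ, 6 * 80⁻¹ * c * q ^ i := by
          refine ENNReal.tsum_le_tsum fun i => ?_
          rw [hcoef, ← hmul]
          gcongr
          exact hcon i
      _ = 6 * 80⁻¹ * c * ∑' i : ℕ, q ^ i := ENNReal.tsum_mul_left
      _ ≤ 6 * 80⁻¹ * c * 10 := by gcongr
      _ = 60 * 80⁻¹ * c := by ring
      _ ≤ 1 * c := by
        gcongr
        rw [← div_eq_mul_inv, ENNReal.div_le_iff (by norm_num) (by norm_num)]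
        norm_num
      _ = c := one_mul c
  have hmeas : ∀ i, m {y | t i < VV A u (A.act y (aa (bb i)))} ≤
      8000 * (∫⁻ y, u y ∂m) / c * q ^ i := by
    intro i
    have hms : MeasurableSet {y | t i < VV A u y} :=
      measurableSet_lt measurable_const (VV_meas A hu)
    have h1 : m {y | t i < VV A u (A.act y (aa (bb i)))} = m {y | t i < VV A u y} :=
      (mp_of_tr A (h.2 (bb i))).measure_preimage hms.nullMeasurableSet
    rw [h1]
    refine (VV_weak A h hu (ht0 i) (htt i)).trans (le_of_eq ?_)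
    rw [div_eq_mul_inv, hinv, div_eq_mul_inv]
    ring
  calc m {y | c < ∑' i : ℕ, ENNReal.ofReal (6 * (2 : ℝ) ^ (-(i : ℝ) / 2)) *
        VV A u (A.act y (aa (bb i)))} ≤
        m (⋃ i : ℕ, {y | t i < VV A u (A.act y (aa (bb i)))}) := measure_mono hsub
    _ ≤ ∑' i : ℕ, m {y | t i < VV A u (A.act y (aa (bb i)))} := measure_iUnion_le _
    _ ≤ ∑' i : ℕ, 8000 * (∫⁻ y, u y ∂m) / c * q ^ i := ENNReal.tsum_le_tsum hmeas
    _ = 8000 * (∫⁻ y, u y ∂m) / c * ∑' i : ℕ, q ^ i := ENNReal.tsum_mul_left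
    _ ≤ 8000 * (∫⁻ y, u y ∂m) / c * 10 := by gcongr
    _ = 80000 * (∫⁻ y, u y ∂m) / c := by
      rw [div_eq_mul_inv, div_eq_mul_inv]
      ring

end Pool.Agent.MP27775c.DO
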