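import Pool.Agent.Lib.MP_27775c_an_DO.WE

/-!
# MP_27775c_an, project DO, module WF: the weak type inequality
-/

set_option autoImplicit false

open MeasureTheory Set Filter Topology
open scoped ENNReal

namespace Pool.Agent.MP27775c.DO

variable {Y : Type*} [TopologicalSpace Y] [PolishSpace Y] [MeasurableSpace Y] [BorelSpace Y]
  (A : RAct Y)

/-- The weak type inequality for the limes superior of the averages of the disc averages.

Proof. `bavE_le` for `R ≥ R₀`; the part of the integral over `R ∈ (0, R₀]` is finite for almost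
every `y`
(`lint_bavE` and Tonelli: its integral is `R₀ * ∫⁻ u`) and divided by `S` it tends to zero, as
does
`WW / S`; so the limes superior is at most `2 C * (the sum in dyad)` almost everywhere;
`sum_weak`. -/
theorem weak : ∃ C : ℝ≥0∞, C ≠ ⊤ ∧ ∀ (m : Measure Y), IsProbabilityMeasure m → IsPInv A m →
    ∀ (u : Y → ℝ≥0∞), Measurable u → ∫⁻ y, u y ∂m ≠ ⊤ → ∀ c : ℝ≥0∞, 0 < c → c ≠ ⊤ →
      m {y | c < limsup (fun S : ℝ => (∫⁻ R in Ioc (0 : ℝ) S, bavE A R u y) /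
        ENNReal.ofReal S) atTop} ≤ C * (∫⁻ y, u y ∂m) / c := by
  obtain ⟨R₀, C₁, hR₀, hC₁, hle⟩ := bavE_le A
  obtain ⟨C₂, hC₂, hsum⟩ := sum_weak A
  have hD0 : 2 * (C₁ + 1) ≠ 0 := by simp
  have hDt : 2 * (C₁ + 1) ≠ ⊤ :=
    ENNReal.mul_ne_top ENNReal.ofNat_ne_top (ENNReal.add_ne_top.2 ⟨hC₁, ENNReal.one_ne_top⟩)
  refine ⟨C₂ * (2 * (C₁ + 1)), ENNReal.mul_ne_top hC₂ hDt, fun m hm h u hu hi c hc hc' => ?_⟩
  -- the part of the integral over `(0, R₀]`
  have hB : ∀ᵐ y ∂m, ∫⁻ R in Ioc (0 : ℝ) R₀, bavE A R u y ≠ ⊤ := by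
    have hmeas : Measurable fun y => ∫⁻ R in Ioc (0 : ℝ) R₀, bavE A R u y :=
      Measurable.lintegral_prod_left' (bavE_meas A hu)
    have h1 : ∫⁻ y, (∫⁻ R in Ioc (0 : ℝ) R₀, bavE A R u y) ∂m ≠ ⊤ := by
      rw [lintegral_lintegral_swap]
      · have h2 : ∫⁻ R in Ioc (0 : ℝ) R₀, ∫⁻ y, bavE A R u y ∂m =
            ∫⁻ _ in Ioc (0 : ℝ) R₀, ∫⁻ y, u y ∂m := by
          refine setLIntegral_congr_fun measurableSet_Ioc fun R hR => ?_
          exact lint_bavE A h hR.1 hu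
        rw [h2, setLIntegral_const]
        exact ENNReal.mul_ne_top hi (by simp)
      · exact ((bavE_meas A hu).comp measurable_swap).aemeasurable
    exact (ae_lt_top hmeas h1).mono fun y hy => hy.ne
  have hW := WW_fin A h hu hi
  -- the bound for the limes superior
  have key : ∀ᵐ y ∂m, limsup (fun S : ℝ => (∫⁻ R in Ioc (0 : ℝ) S, bavE A R u y) /
      ENNReal.ofReal S) atTop ≤ 2 * (C₁ + 1) * ∑' i : ℕ,
        ENNReal.ofReal (6 * (2 : ℝ) ^ (-(i : ℝ) / 2)) * VV A u (A.act y (aa (bb i))) := by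
    filter_upwards [hB, hW] with y hy1 hy2
    set Sg := ∑' i : ℕ, ENNReal.ofReal (6 * (2 : ℝ) ^ (-(i : ℝ) / 2)) *
      VV A u (A.act y (aa (bb i))) with hSg
    set K := (∫⁻ R in Ioc (0 : ℝ) R₀, bavE A R u y) + C₁ * WW A u y with hK
    have hKt : K ≠ ⊤ := ENNReal.add_ne_top.2 ⟨hy1, ENNReal.mul_ne_top hC₁ hy2⟩
    have h1 : ∀ᶠ S : ℝ in atTop, (∫⁻ R in Ioc (0 : ℝ) S, bavE A R u y) / ENNReal.ofReal S ≤
        K / ENNReal.ofReal S + 2 * (C₁ + 1) * Sg := by
      filter_upwards [eventually_ge_atTop (max 3 R₀)] with S hS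
      have hS3 : 3 ≤ S := (le_max_left _ _).trans hS
      have hSR : R₀ ≤ S := (le_max_right _ _).trans hS
      have hS0 : (0 : ℝ) < S := by linarith
      have hSe0 : ENNReal.ofReal S ≠ 0 := (ENNReal.ofReal_pos.2 hS0).ne'
      have hSet : ENNReal.ofReal S ≠ ⊤ := ENNReal.ofReal_ne_top
      have h2 : ∫⁻ R in Ioc (0 : ℝ) S, bavE A R u y ≤
          (∫⁻ R in Ioc (0 : ℝ) R₀, bavE A R u y) + ∫⁻ R in Ioc R₀ S, bavE A R u y := by
        rw [← Ioc_union_Ioc_eq_Ioc hR₀.le hSR]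
        exact lintegral_union_le _ _ _
      have h3 : ∫⁻ R in Ioc R₀ S, bavE A R u y ≤ C₁ * (WW A u y +
          ENNReal.ofReal (2 * S) * Sg) := by
        calc ∫⁻ R in Ioc R₀ S, bavE A R u y ≤ ∫⁻ R in Ioc R₀ S, C₁ * ∫⁻ p,
              ENNReal.ofReal (dom p) * u (A.act y (nn p.1 * aa (Real.log p.2 - R))) := by
              refine setLIntegral_mono' measurableSet_Ioc fun R hR => ?_
              exact hle R hR.1.le u hu y
          _ = C₁ * ∫⁻ R in Ioc R₀ S, ∫⁻ p,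
              ENNReal.ofReal (dom p) * u (A.act y (nn p.1 * aa (Real.log p.2 - R))) :=
              lintegral_const_mul' _ _ hC₁
          _ ≤ C₁ * ∫⁻ R in Ioc (0 : ℝ) S, ∫⁻ p,
              ENNReal.ofReal (dom p) * u (A.act y (nn p.1 * aa (Real.log p.2 - R))) := by
              refine mul_le_mul_right ?_ _
              exact lintegral_mono_set (Ioc_subset_Ioc_left hR₀.le)
          _ ≤ C₁ * (WW A u y + ENNReal.ofReal (2 * S) * Sg) :=
              mul_le_mul_right (dyad A hu y hS3) _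
      have h4 : ∫⁻ R in Ioc (0 : ℝ) S, bavE A R u y ≤
          K + ENNReal.ofReal S * (2 * (C₁ + 1) * Sg) := by
        refine (h2.trans (add_le_add_right h3 _)).trans ?_
        rw [hK, mul_add, ← add_assoc]
        refine add_le_add_right ?_ _
        rw [ENNReal.ofReal_mul (by norm_num), ENNReal.ofReal_ofNat]
        calc C₁ * (2 * ENNReal.ofReal S * Sg) = ENNReal.ofReal S * (2 * C₁ * Sg) := by ring
          _ ≤ ENNReal.ofReal S * (2 * (C₁ + 1) * Sg) := by
              gcongr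
              exact le_self_add
      calc (∫⁻ R in Ioc (0 : ℝ) S, bavE A R u y) / ENNReal.ofReal S ≤
            (K + ENNReal.ofReal S * (2 * (C₁ + 1) * Sg)) / ENNReal.ofReal S :=
            ENNReal.div_le_div_right h4 _
        _ = K / ENNReal.ofReal S + 2 * (C₁ + 1) * Sg := by
            rw [ENNReal.add_div, mul_comm (ENNReal.ofReal S), ENNReal.mul_div_cancel_right hSe0 hSet]
    have h5 : Tendsto (fun S : ℝ => K / ENNReal.ofReal S + 2 * (C₁ + 1) * Sg) atTop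
        (𝓝 (0 + 2 * (C₁ + 1) * Sg)) := by
      refine Tendsto.add ?_ tendsto_const_nhds
      have h6 := ENNReal.Tendsto.const_div (a := K) ENNReal.tendsto_ofReal_atTop (Or.inr hKt)
      rwa [ENNReal.div_top] at h6
    rw [zero_add] at h5
    exact (limsup_le_limsup h1).trans h5.limsup_eq.le
  -- conclusion
  have hcD : 0 < c / (2 * (C₁ + 1)) := ENNReal.div_pos hc.ne' hDt
  have hcDt : c / (2 * (C₁ + 1)) ≠ ⊤ := ENNReal.div_ne_top hc' hD0
  have h7 := hsum m hm h u hu (c / (2 * (C₁ + 1))) hcD hcDt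
  calc m {y | c < limsup (fun S : ℝ => (∫⁻ R in Ioc (0 : ℝ) S, bavE A R u y) /
        ENNReal.ofReal S) atTop} ≤ m {y | c / (2 * (C₁ + 1)) < ∑' i : ℕ,
        ENNReal.ofReal (6 * (2 : ℝ) ^ (-(i : ℝ) / 2)) * VV A u (A.act y (aa (bb i)))} := by
        refine measure_mono_ae ?_
        filter_upwards [key] with y hy hy'
        have h8 : c < 2 * (C₁ + 1) * ∑' i : ℕ, ENNReal.ofReal (6 * (2 : ℝ) ^ (-(i : ℝ) / 2)) *
            VV A u (A.act y (aa (bb i))) := lt_of_lt_of_le hy' hy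
        exact (ENNReal.div_lt_iff (Or.inl hD0) (Or.inl hDt)).2 (by rwa [mul_comm])
    _ ≤ C₂ * (∫⁻ y, u y ∂m) / (c / (2 * (C₁ + 1))) := h7
    _ = C₂ * (2 * (C₁ + 1)) * (∫⁻ y, u y ∂m) / c := by
        rw [div_eq_mul_inv, ENNReal.inv_div (Or.inl hDt) (Or.inl hD0), div_eq_mul_inv,
          div_eq_mul_inv]
        ring

end Pool.Agent.MP27775c.DO
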