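import Pool.Agent.Lib.MP_27775c_an_DO.LA
import Pool.Agent.Lib.MP_27775c_an_DO.Bdd
import Pool.Agent.Lib.MP_27775c_an_DO.WkT

/-!
# MP_27775c_an, project DO, module LB: strong Cesaro convergence for integrable functions
-/

set_option autoImplicit false

open MeasureTheory Set Filter Topology
open scoped ENNReal

namespace Pool.Agent.MP27775c.DO

variable {Y : Type*} [TopologicalSpace Y] [PolishSpace Y] [MeasurableSpace Y] [BorelSpace Y]
  (A : RAct Y)

/-- The truncation at the level `n`. -/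
private noncomputable def trn (n : ℕ) (x : ℝ) : ℝ := max (min x n) (-n)

private theorem trn_cont (n : ℕ) : Continuous (trn n) := by
  unfold trn
  fun_prop

private theorem abs_trn_le (n : ℕ) (x : ℝ) : |trn n x| ≤ n := by
  have hn : (0 : ℝ) ≤ n := Nat.cast_nonneg n
  unfold trn
  rw [abs_le]
  refine ⟨le_max_right _ _, max_le (min_le_right _ _) (by linarith)⟩

private theorem abs_trn_le' (n : ℕ) (x : ℝ) : |trn n x| ≤ |x| := by
  have hn : (0 : ℝ) ≤ n := Nat.cast_nonneg n
  unfold trn
  rcases le_total 0 x with h | h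
  · have h1 : 0 ≤ min x n := le_min h hn
    rw [max_eq_left (by linarith), abs_of_nonneg h1, abs_of_nonneg h]
    exact min_le_left _ _
  · rw [min_eq_left (by linarith)]
    rcases le_total x (-n) with h2 | h2
    · rw [max_eq_right h2, abs_neg, abs_of_nonneg hn, abs_of_nonpos h]
      linarith
    · rw [max_eq_left h2]

private theorem abs_sub_trn_le (n : ℕ) (x : ℝ) : |x - trn n x| ≤ |x| := by
  have hn : (0 : ℝ) ≤ n := Nat.cast_nonneg n
  unfold trn
  rcases le_total 0 x with h | h
  · have h1 : 0 ≤ min x n := le_min h hn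
    have h3 : min x n ≤ x := min_le_left _ _
    rw [max_eq_left (by linarith), abs_of_nonneg (by linarith), abs_of_nonneg h]
    linarith
  · rw [min_eq_left (by linarith)]
    rcases le_total x (-n) with h2 | h2
    · rw [max_eq_right h2, abs_of_nonpos (by linarith), abs_of_nonpos h]
      linarith
    · rw [max_eq_left h2, sub_self, abs_zero]
      exact abs_nonneg _

private theorem trn_eq {n : ℕ} {x : ℝ} (h : |x| ≤ n) : trn n x = x := by
  obtain ⟨h1, h2⟩ := abs_le.1 h
  unfold trn
  rw [min_eq_left h2, max_eq_left h1]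

private theorem tendsto_trunc {m : Measure Y} {F : Y → ℝ} (hF : Measurable F)
    (hi : Integrable F m) :
    Tendsto (fun n : ℕ => ∫⁻ y, ‖F y - trn n (F y)‖ₑ ∂m) atTop (𝓝 0) := by
  have h := tendsto_lintegral_of_dominated_convergence (μ := m)
    (F := fun (n : ℕ) y => ‖F y - trn n (F y)‖ₑ) (f := fun _ => 0) (fun y => ‖F y‖ₑ)
    (fun n => ((hF.sub ((trn_cont n).measurable.comp hF)).enorm))
    (fun n => Eventually.of_forall fun y => by
      simp only [← ofReal_norm, Real.norm_eq_abs]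
      exact ENNReal.ofReal_le_ofReal (abs_sub_trn_le n (F y)))
    hi.2.ne (Eventually.of_forall fun y => by
      refine tendsto_const_nhds.congr' ?_
      obtain ⟨n₀, hn₀⟩ := exists_nat_ge |F y|
      filter_upwards [eventually_ge_atTop n₀] with n hn
      have h1 : |F y| ≤ (n : ℝ) := hn₀.trans (by exact_mod_cast hn)
      rw [trn_eq h1, sub_self, enorm_zero])
  simpa using h

/-- Comparison of the disc averages. -/
private theorem bav_sub_le {F : Y → ℝ} (n : ℕ) {R : ℝ} {y : Y}
    (h : IntegrableOn (fun z => F (A.act y (pp z))) (Metric.ball UpperHalfPlane.I R)) :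
    |bav A R F y - bav A R (fun x => trn n (F x)) y| ≤
      (bavE A R (fun x => ‖F x - trn n (F x)‖ₑ) y).toReal := by
  have h2 : IntegrableOn (fun z => trn n (F (A.act y (pp z))))
      (Metric.ball UpperHalfPlane.I R) := by
    refine Integrable.mono h ((trn_cont n).comp_aestronglyMeasurable h.1) ?_
    exact Eventually.of_forall fun z => abs_trn_le' n _
  unfold bav bavE
  rw [← sub_div, ← integral_sub h h2, abs_div, abs_of_nonneg ENNReal.toReal_nonneg,
    ENNReal.toReal_div]
  refine div_le_div_of_nonneg_right ?_ ENNReal.toReal_nonneg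
  have e := integral_norm_eq_lintegral_enorm (h.sub h2).1
  exact (norm_integral_le_integral_norm _).trans (le_of_eq e)

private theorem bav_bdd {F : Y → ℝ} {C : ℝ} (hC : ∀ y, |F y| ≤ C) (R : ℝ) (y : Y) :
    |bav A R F y| ≤ C := by
  have hC0 : 0 ≤ C := (abs_nonneg _).trans (hC y)
  unfold bav
  rcases le_or_gt R 0 with hR | hR
  · rw [Metric.ball_eq_empty.2 hR]
    simpa using hC0
  · have hv : volume (Metric.ball UpperHalfPlane.I R) < ⊤ := by
      rw [vol_ball hR]
      exact ENNReal.ofReal_lt_top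
    have h1 := norm_setIntegral_le_of_norm_le_const (μ := (volume : Measure UpperHalfPlane))
      (f := fun z => F (A.act y (pp z))) hv (fun z _ => hC _)
    rw [abs_div, abs_of_nonneg (ENNReal.toReal_nonneg (a := volume _))]
    rcases eq_or_lt_of_le (ENNReal.toReal_nonneg
      (a := (volume (Metric.ball UpperHalfPlane.I R)))) with h0 | h0
    · rw [← h0, div_zero]
      exact hC0
    · rw [div_le_iff₀ h0]
      exact h1

/-- Strong Cesaro convergence for integrable functions.

Proof. For `j ∈ ℕ` let `F j` be the truncation of `F` at a level such that `∫ |F - F j| ≤ 4 ^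
(-j)`, and
`u j = ‖F - F j‖ₑ`. For almost every `y` (`int_disc` for all functions, `bdd` for all `F j`)
`|bav R F y - c| ≤ |bav R (F j) y - c j| + (bavE R (u j) y).toReal + 4 ^ (-j)`, so the limes
superior of the
averages of `min 1 |bav R F y - c|` is at most `limsup (1/S ∫⁻ bavE R (u j) y) + 4 ^ (-j)`, and by
`weak` and
Borel-Cantelli the first term is at most `2 ^ (-j)` for all large `j`, for almost every `y`. -/
theorem main_ae {m : Measure Y} [IsProbabilityMeasure m] (h : IsPInv A m) (he : IsNErg A m)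
    {F : Y → ℝ} (hF : Measurable F) (hi : Integrable F m) :
    ∀ᵐ y ∂m, Tendsto (fun S : ℝ => 1 / S * ∫ R in (0 : ℝ)..S,
      min 1 |bav A R F y - ∫ y, F y ∂m|) atTop (𝓝 0) := by
  set c := ∫ y, F y ∂m with hc
  -- the truncations
  have hex : ∀ j : ℕ, ∃ n : ℕ, ∫⁻ y, ‖F y - trn n (F y)‖ₑ ∂m ≤
      ENNReal.ofReal ((1 / 4) ^ j) := by
    intro j
    have h1 : (0 : ℝ≥0∞) < ENNReal.ofReal ((1 / 4) ^ j) := by
      rw [ENNReal.ofReal_pos]
      positivity
    have h2 := (tendsto_trunc hF hi).eventually (gt_mem_nhds h1)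
    obtain ⟨n, hn⟩ := h2.exists
    exact ⟨n, hn.le⟩
  choose n hn using hex
  have hFj : ∀ j, Measurable fun y => trn (n j) (F y) := fun j =>
    (trn_cont (n j)).measurable.comp hF
  have hu : ∀ j, Measurable fun y => ‖F y - trn (n j) (F y)‖ₑ := fun j =>
    (hF.sub (hFj j)).enorm
  have hij : ∀ j, Integrable (fun y => trn (n j) (F y)) m := fun j =>
    hi.mono (hFj j).aestronglyMeasurable (Eventually.of_forall fun y => abs_trn_le' _ _)
  have hcj : ∀ j, |(∫ y, trn (n j) (F y) ∂m) - c| ≤ (1 / 4) ^ j := by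
    intro j
    rw [abs_sub_comm, hc, ← integral_sub hi (hij j)]
    have e := integral_norm_eq_lintegral_enorm (hi.sub (hij j)).1
    refine (norm_integral_le_integral_norm (μ := m)
      (fun y => F y - trn (n j) (F y))).trans (le_trans (le_of_eq e) ?_)
    refine ENNReal.toReal_le_of_le_ofReal (by positivity) ?_
    exact hn j
  -- the three almost sure properties
  have a1 := int_disc A h hF hi
  have a2 : ∀ᵐ y ∂m, ∀ j, Tendsto (fun S : ℝ => 1 / S * ∫ R in (0 : ℝ)..S,
      |bav A R (fun y => trn (n j) (F y)) y - ∫ y, trn (n j) (F y) ∂m|) atTop (𝓝 0) :=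
    ae_all_iff.2 fun j => bdd A h he (hFj j) ⟨n j, fun y => abs_trn_le _ _⟩
  obtain ⟨C, hC, hweak⟩ := weak A
  have a3 : ∀ᵐ y ∂m, ∀ᶠ j : ℕ in atTop, y ∉ {y | ENNReal.ofReal ((1 / 2) ^ j) <
      limsup (fun S : ℝ => (∫⁻ R in Ioc (0 : ℝ) S,
        bavE A R (fun y => ‖F y - trn (n j) (F y)‖ₑ) y) / ENNReal.ofReal S) atTop} := by
    refine ae_eventually_notMem ?_
    have hb : ∀ j : ℕ, m {y | ENNReal.ofReal ((1 / 2) ^ j) <
      limsup (fun S : ℝ => (∫⁻ R in Ioc (0 : ℝ) S,
        bavE A R (fun y => ‖F y - trn (n j) (F y)‖ₑ) y) / ENNReal.ofReal S) atTop} ≤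
        C * ENNReal.ofReal ((1 / 2) ^ j) := by
      intro j
      have h1 : (0 : ℝ) < (1 / 2) ^ j := by positivity
      refine (hweak m inferInstance h _ (hu j) ((hn j).trans_lt ENNReal.ofReal_lt_top).ne _
        (ENNReal.ofReal_pos.2 h1) ENNReal.ofReal_ne_top).trans ?_
      rw [mul_div_assoc]
      refine mul_le_mul_right ?_ C
      refine (ENNReal.div_le_div_right (hn j) _).trans ?_
      rw [← ENNReal.ofReal_div_of_pos h1]
      refine ENNReal.ofReal_le_ofReal ?_
      rw [div_le_iff₀ h1, ← mul_pow]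
      norm_num
    refine ne_top_of_le_ne_top ?_ (ENNReal.tsum_le_tsum hb)
    rw [ENNReal.tsum_mul_left]
    refine ENNReal.mul_ne_top hC ?_
    have hs : Summable fun j : ℕ => ((1 : ℝ) / 2) ^ j := summable_geometric_two
    rw [← ENNReal.ofReal_tsum_of_nonneg (fun j => by positivity) hs]
    exact ENNReal.ofReal_ne_top
  filter_upwards [a1, a2, a3] with y h1 h2 h3
  -- measurability in `R`
  have hmb : ∀ {Φ : Y → ℝ}, Measurable Φ → Measurable fun R : ℝ => bav A R Φ y := by
    intro Φ hΦ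
    exact (bav_meas A hΦ).comp measurable_prodMk_right
  have hmE : ∀ {u : Y → ℝ≥0∞}, Measurable u → Measurable fun R : ℝ => bavE A R u y := by
    intro u hu
    exact (bavE_meas A hu).comp measurable_prodMk_right
  have hnn : ∀ S : ℝ, 0 < S → 0 ≤ 1 / S * ∫ R in (0 : ℝ)..S, min 1 |bav A R F y - c| := by
    intro S hS
    refine mul_nonneg (by positivity) (intervalIntegral.integral_nonneg hS.le fun R _ => ?_)
    exact le_min zero_le_one (abs_nonneg _)
  rw [Metric.tendsto_atTop']
  intro ε hε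
  -- the index `j`
  have hp2 : Tendsto (fun j : ℕ => ((1 : ℝ) / 2) ^ j) atTop (𝓝 0) :=
    tendsto_pow_atTop_nhds_zero_of_lt_one (by norm_num) (by norm_num)
  obtain ⟨j, hj1, hj2⟩ := ((hp2.eventually (gt_mem_nhds (show (0 : ℝ) < ε / 8 by positivity))).and
    h3).exists
  have hj4 : ((1 : ℝ) / 4) ^ j ≤ (1 / 2) ^ j :=
    pow_le_pow_left₀ (by norm_num) (by norm_num) j
  have hlim : limsup (fun S : ℝ => (∫⁻ R in Ioc (0 : ℝ) S,
        bavE A R (fun y => ‖F y - trn (n j) (F y)‖ₑ) y) / ENNReal.ofReal S) atTop <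
        ENNReal.ofReal (2 * (1 / 2) ^ j) := by
    refine lt_of_le_of_lt (not_lt.1 hj2) ?_
    have h0 : (0 : ℝ) < (1 / 2) ^ j := by positivity
    exact (ENNReal.ofReal_lt_ofReal_iff (by positivity)).2 (by linarith)
  have e1 := eventually_lt_of_limsup_lt hlim
  have e2 := (h2 j).eventually (gt_mem_nhds (show (0 : ℝ) < ε / 4 by positivity))
  obtain ⟨S₀, hS₀⟩ := (e1.and (e2.and (eventually_gt_atTop (0 : ℝ)))).exists_forall_of_atTop
  refine ⟨S₀, fun S hS => ?_⟩
  obtain ⟨g1, g2, g3⟩ := hS₀ S hS.le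
  rw [Real.dist_eq, sub_zero, abs_of_nonneg (hnn S g3)]
  -- the three parts
  set φ1 : ℝ → ℝ := fun R =>
    |bav A R (fun y => trn (n j) (F y)) y - ∫ y, trn (n j) (F y) ∂m| with hφ1
  set φ2 : ℝ → ℝ := fun R =>
    min 1 (bavE A R (fun y => ‖F y - trn (n j) (F y)‖ₑ) y).toReal with hφ2
  have m1 : Measurable φ1 := ((hmb (hFj j)).sub_const _).abs
  have m2 : Measurable φ2 := measurable_const.min (hmE (hu j)).ennreal_toReal
  have m3 : Measurable fun R => min 1 |bav A R F y - c| :=
    measurable_const.min ((hmb hF).sub_const _).abs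
  have hcb : |∫ y, trn (n j) (F y) ∂m| ≤ n j := by
    have := norm_integral_le_of_norm_le_const (μ := m) (f := fun y => trn (n j) (F y))
      (C := n j) (Eventually.of_forall fun y => abs_trn_le _ _)
    simpa using this
  have b1 : ∀ R, |φ1 R| ≤ 2 * n j := by
    intro R
    rw [hφ1]
    simp only [abs_abs]
    have hb1 := bav_bdd A (F := fun y => trn (n j) (F y)) (fun y => abs_trn_le _ _) R y
    calc |bav A R (fun y => trn (n j) (F y)) y - ∫ y, trn (n j) (F y) ∂m|
        ≤ |bav A R (fun y => trn (n j) (F y)) y| + |∫ y, trn (n j) (F y) ∂m| := abs_sub _ _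
      _ ≤ 2 * n j := by linarith
  have b2 : ∀ R, |φ2 R| ≤ 1 := by
    intro R
    have h0 : 0 ≤ φ2 R := le_min zero_le_one ENNReal.toReal_nonneg
    rw [abs_of_nonneg h0]
    exact min_le_left _ _
  have b3 : ∀ R, abs (min 1 |bav A R F y - c|) ≤ 1 := by
    intro R
    have h0 : 0 ≤ min 1 |bav A R F y - c| := le_min zero_le_one (abs_nonneg _)
    rw [abs_of_nonneg h0]
    exact min_le_left _ _
  have ii : ∀ {φ : ℝ → ℝ} {B : ℝ}, Measurable φ → (∀ R, |φ R| ≤ B) →
      IntervalIntegrable φ volume 0 S := by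
    intro φ B hφ hB
    rw [intervalIntegrable_iff]
    refine Measure.integrableOn_of_bounded (M := B) ?_ hφ.aestronglyMeasurable
      (Eventually.of_forall hB)
    simp
  have ii1 := ii m1 b1
  have ii2 := ii m2 b2
  have ii3 := ii m3 b3
  have iic : IntervalIntegrable (fun _ : ℝ => ((1 : ℝ) / 4) ^ j) volume 0 S :=
    intervalIntegrable_const
  have hpt : ∀ R : ℝ, min 1 |bav A R F y - c| ≤ φ1 R + φ2 R + (1 / 4) ^ j := by
    intro R
    have t1 := bav_sub_le A (n := n j) (h1 R)
    have t2 := hcj j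
    have t3 : |bav A R F y - c| ≤ |bav A R F y - bav A R (fun y => trn (n j) (F y)) y| + φ1 R +
        |(∫ y, trn (n j) (F y) ∂m) - c| := by
      have := abs_add_three (bav A R F y - bav A R (fun y => trn (n j) (F y)) y)
        (bav A R (fun y => trn (n j) (F y)) y - ∫ y, trn (n j) (F y) ∂m)
        ((∫ y, trn (n j) (F y) ∂m) - c)
      rw [show bav A R F y - bav A R (fun y => trn (n j) (F y)) y +
        (bav A R (fun y => trn (n j) (F y)) y - ∫ y, trn (n j) (F y) ∂m) +
        ((∫ y, trn (n j) (F y) ∂m) - c) = bav A R F y - c by ring] at this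
      exact this
    have t4 : 0 ≤ φ1 R := abs_nonneg _
    have t5 : (0 : ℝ) ≤ (1 / 4) ^ j := by positivity
    rcases le_total 1 (bavE A R (fun y => ‖F y - trn (n j) (F y)‖ₑ) y).toReal with h6 | h6
    · have : φ2 R = 1 := min_eq_left h6
      rw [this]
      have := min_le_left 1 |bav A R F y - c|
      linarith
    · have : φ2 R = (bavE A R (fun y => ‖F y - trn (n j) (F y)‖ₑ) y).toReal := min_eq_right h6
      rw [this]
      have := min_le_right 1 |bav A R F y - c|
      linarith
  have I1 : ∫ R in (0 : ℝ)..S, min 1 |bav A R F y - c| ≤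
      (∫ R in (0 : ℝ)..S, φ1 R) + (∫ R in (0 : ℝ)..S, φ2 R) + (1 / 4) ^ j * S := by
    have h7 : ∫ R in (0 : ℝ)..S, min 1 |bav A R F y - c| ≤
        ∫ R in (0 : ℝ)..S, (φ1 R + φ2 R + (1 / 4) ^ j) :=
      intervalIntegral.integral_mono_on g3.le ii3 ((ii1.add ii2).add iic) fun R _ => hpt R
    rw [intervalIntegral.integral_add (ii1.add ii2) iic, intervalIntegral.integral_add ii1 ii2,
      intervalIntegral.integral_const, sub_zero, smul_eq_mul, mul_comm S] at h7
    exact h7
  have I2 : ∫ R in (0 : ℝ)..S, φ2 R ≤ 2 * (1 / 2) ^ j * S := by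
    rw [intervalIntegral.integral_of_le g3.le]
    have h0 : ∀ R, 0 ≤ φ2 R := fun R => le_min zero_le_one ENNReal.toReal_nonneg
    rw [integral_eq_lintegral_of_nonneg_ae (Eventually.of_forall h0)
      m2.aestronglyMeasurable.restrict]
    refine ENNReal.toReal_le_of_le_ofReal (by positivity) ?_
    have hle : ∫⁻ R in Ioc (0 : ℝ) S, ENNReal.ofReal (φ2 R) ≤
        ∫⁻ R in Ioc (0 : ℝ) S, bavE A R (fun y => ‖F y - trn (n j) (F y)‖ₑ) y := by
      refine lintegral_mono fun R => ?_
      exact (ENNReal.ofReal_le_ofReal (min_le_right _ _)).trans ENNReal.ofReal_toReal_le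
    refine hle.trans ?_
    rw [ENNReal.ofReal_mul (by positivity)]
    have hS1 : ENNReal.ofReal S ≠ 0 := by
      rw [Ne, ENNReal.ofReal_eq_zero, not_le]
      exact g3
    exact (ENNReal.div_le_iff hS1 ENNReal.ofReal_ne_top).1 g1.le
  have I3 : 1 / S * ∫ R in (0 : ℝ)..S, φ1 R < ε / 4 := g2
  have hS' : 0 < 1 / S := by positivity
  calc 1 / S * ∫ R in (0 : ℝ)..S, min 1 |bav A R F y - c|
      ≤ 1 / S * ((∫ R in (0 : ℝ)..S, φ1 R) + (∫ R in (0 : ℝ)..S, φ2 R) + (1 / 4) ^ j * S) :=
        mul_le_mul_of_nonneg_left I1 hS'.le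
    _ ≤ 1 / S * ((∫ R in (0 : ℝ)..S, φ1 R) + 2 * (1 / 2) ^ j * S + (1 / 4) ^ j * S) := by
        refine mul_le_mul_of_nonneg_left ?_ hS'.le
        linarith
    _ = 1 / S * (∫ R in (0 : ℝ)..S, φ1 R) + 2 * (1 / 2) ^ j + (1 / 4) ^ j := by
        field_simp
    _ < ε := by linarith

end Pool.Agent.MP27775c.DO
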