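import Pool.Agent.Lib.MP_27775c_an_DO.LA
import Pool.Agent.Lib.MP_27775c_an_DO.Bdd

/-!
# MP_27775c_an, project DO, module LC: convergence in the mean for integrable functions
-/

set_option autoImplicit false

open MeasureTheory Set Filter Topology
open scoped ENNReal

namespace Pool.Agent.MP27775c.DO

variable {Y : Type*} [TopologicalSpace Y] [PolishSpace Y] [MeasurableSpace Y] [BorelSpace Y]
  (A : RAct Y)

/-- The truncation at the level `n`. -/
private noncomputable def trn (n : ℕ) (x : ℝ) : ℝ := max (min x n) (-n)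

private theorem trn_cont (n : ℕ) : Continuous (trn n) := by
  unfold trn
  fun_prop

private theorem abs_trn_le (n : ℕ) (x : ℝ) : |trn n x| ≤ n := by
  have hn : (0 : ℝ) ≤ n := Nat.cast_nonneg n
  unfold trn
  rw [abs_le]
  refine ⟨le_max_right _ _, max_le (min_le_right _ _) (by linarith)⟩

private theorem abs_trn_le' (n : ℕ) (x : ℝ) : |trn n x| ≤ |x| := by
  have hn : (0 : ℝ) ≤ n := Nat.cast_nonneg n
  unfold trn
  rcases le_total 0 x with h | h
  · have h1 : 0 ≤ min x n := le_min h hn
    rw [max_eq_left (by linarith), abs_of_nonneg h1, abs_of_nonneg h]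
    exact min_le_left _ _
  · rw [min_eq_left (by linarith)]
    rcases le_total x (-n) with h2 | h2
    · rw [max_eq_right h2, abs_neg, abs_of_nonneg hn, abs_of_nonpos h]
      linarith
    · rw [max_eq_left h2]

private theorem abs_sub_trn_le (n : ℕ) (x : ℝ) : |x - trn n x| ≤ |x| := by
  have hn : (0 : ℝ) ≤ n := Nat.cast_nonneg n
  unfold trn
  rcases le_total 0 x with h | h
  · have h1 : 0 ≤ min x n := le_min h hn
    have h3 : min x n ≤ x := min_le_left _ _
    rw [max_eq_left (by linarith), abs_of_nonneg (by linarith), abs_of_nonneg h]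
    linarith
  · rw [min_eq_left (by linarith)]
    rcases le_total x (-n) with h2 | h2
    · rw [max_eq_right h2, abs_of_nonpos (by linarith), abs_of_nonpos h]
      linarith
    · rw [max_eq_left h2, sub_self, abs_zero]
      exact abs_nonneg _

private theorem trn_eq {n : ℕ} {x : ℝ} (h : |x| ≤ n) : trn n x = x := by
  obtain ⟨h1, h2⟩ := abs_le.1 h
  unfold trn
  rw [min_eq_left h2, max_eq_left h1]

omit [TopologicalSpace Y] [PolishSpace Y] [BorelSpace Y] in
private theorem tendsto_trunc {m : Measure Y} {F : Y → ℝ} (hF : Measurable F)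
    (hi : Integrable F m) :
    Tendsto (fun n : ℕ => ∫⁻ y, ‖F y - trn n (F y)‖ₑ ∂m) atTop (𝓝 0) := by
  have h := tendsto_lintegral_of_dominated_convergence (μ := m)
    (F := fun (n : ℕ) y => ‖F y - trn n (F y)‖ₑ) (f := fun _ => 0) (fun y => ‖F y‖ₑ)
    (fun n => ((hF.sub ((trn_cont n).measurable.comp hF)).enorm))
    (fun n => Eventually.of_forall fun y => by
      simp only [← ofReal_norm, Real.norm_eq_abs]
      exact ENNReal.ofReal_le_ofReal (abs_sub_trn_le n (F y)))
    hi.2.ne (Eventually.of_forall fun y => by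
      refine tendsto_const_nhds.congr' ?_
      obtain ⟨n₀, hn₀⟩ := exists_nat_ge |F y|
      filter_upwards [eventually_ge_atTop n₀] with n hn
      have h1 : |F y| ≤ (n : ℝ) := hn₀.trans (by exact_mod_cast hn)
      rw [trn_eq h1, sub_self, enorm_zero])
  simpa using h

omit [PolishSpace Y] [MeasurableSpace Y] [BorelSpace Y] in
/-- Comparison of the disc averages. -/
private theorem bav_sub_le {F : Y → ℝ} (n : ℕ) {R : ℝ} {y : Y}
    (h : IntegrableOn (fun z => F (A.act y (pp z))) (Metric.ball UpperHalfPlane.I R)) :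
    |bav A R F y - bav A R (fun x => trn n (F x)) y| ≤
      (bavE A R (fun x => ‖F x - trn n (F x)‖ₑ) y).toReal := by
  have h2 : IntegrableOn (fun z => trn n (F (A.act y (pp z))))
      (Metric.ball UpperHalfPlane.I R) := by
    refine Integrable.mono h ((trn_cont n).comp_aestronglyMeasurable h.1) ?_
    exact Eventually.of_forall fun z => abs_trn_le' n _
  unfold bav bavE
  rw [← sub_div, ← integral_sub h h2, abs_div, abs_of_nonneg ENNReal.toReal_nonneg,
    ENNReal.toReal_div]
  refine div_le_div_of_nonneg_right ?_ ENNReal.toReal_nonneg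
  have e := integral_norm_eq_lintegral_enorm (h.sub h2).1
  exact (norm_integral_le_integral_norm _).trans (le_of_eq e)

omit [PolishSpace Y] [MeasurableSpace Y] [BorelSpace Y] in
private theorem bav_bdd {F : Y → ℝ} {C : ℝ} (hC : ∀ y, |F y| ≤ C) (R : ℝ) (y : Y) :
    |bav A R F y| ≤ C := by
  have hC0 : 0 ≤ C := (abs_nonneg _).trans (hC y)
  unfold bav
  rcases le_or_gt R 0 with hR | hR
  · rw [Metric.ball_eq_empty.2 hR]
    simpa using hC0
  · have hv : volume (Metric.ball UpperHalfPlane.I R) < ⊤ := by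
      rw [vol_ball hR]
      exact ENNReal.ofReal_lt_top
    have h1 := norm_setIntegral_le_of_norm_le_const (μ := (volume : Measure UpperHalfPlane))
      (f := fun z => F (A.act y (pp z))) hv (fun z _ => hC _)
    rw [abs_div, abs_of_nonneg (ENNReal.toReal_nonneg (a := volume _))]
    rcases eq_or_lt_of_le (ENNReal.toReal_nonneg
      (a := (volume (Metric.ball UpperHalfPlane.I R)))) with h0 | h0
    · rw [← h0, div_zero]
      exact hC0
    · rw [div_le_iff₀ h0]
      exact h1

/-- Convergence in `L ^ 1` for integrable functions. Proof: approximation by truncations,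
`bdd_L1`, `lint_bavE`. -/
theorem main_L1 {m : Measure Y} [IsProbabilityMeasure m] (h : IsPInv A m) (he : IsNErg A m)
    {F : Y → ℝ} (hF : Measurable F) (hi : Integrable F m) :
    Tendsto (fun R : ℝ => ∫ y, |bav A R F y - ∫ y, F y ∂m| ∂m) atTop (𝓝 0) := by
  set c := ∫ y, F y ∂m with hc
  rw [Metric.tendsto_atTop']
  intro ε hε
  have hε4 : (0 : ℝ) < ε / 4 := by positivity
  obtain ⟨n, hn⟩ : ∃ n : ℕ, ∫⁻ y, ‖F y - trn n (F y)‖ₑ ∂m < ENNReal.ofReal (ε / 4) :=
    ((tendsto_trunc hF hi).eventually (gt_mem_nhds (ENNReal.ofReal_pos.2 hε4))).exists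
  have hFn : Measurable fun y => trn n (F y) := (trn_cont n).measurable.comp hF
  have hu : Measurable fun y => ‖F y - trn n (F y)‖ₑ := (hF.sub hFn).enorm
  have hin : Integrable (fun y => trn n (F y)) m :=
    hi.mono hFn.aestronglyMeasurable (Eventually.of_forall fun y => abs_trn_le' _ _)
  have hcn : |(∫ y, trn n (F y) ∂m) - c| ≤ ε / 4 := by
    rw [abs_sub_comm, hc, ← integral_sub hi hin]
    have e := integral_norm_eq_lintegral_enorm (hi.sub hin).1
    refine (norm_integral_le_integral_norm (μ := m)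
      (fun y => F y - trn n (F y))).trans (le_trans (le_of_eq e) ?_)
    exact ENNReal.toReal_le_of_le_ofReal hε4.le hn.le
  have hL := bdd_L1 A h he hFn ⟨n, fun y => abs_trn_le _ _⟩
  obtain ⟨R₀, hR₀⟩ := ((hL.eventually (gt_mem_nhds hε4)).and
    (eventually_gt_atTop (0 : ℝ))).exists_forall_of_atTop
  refine ⟨R₀, fun R hR => ?_⟩
  obtain ⟨g1, g2⟩ := hR₀ R hR.le
  rw [Real.dist_eq, sub_zero, abs_of_nonneg (integral_nonneg fun y => abs_nonneg _)]
  have hE : ∫⁻ y, bavE A R (fun y => ‖F y - trn n (F y)‖ₑ) y ∂m < ENNReal.ofReal (ε / 4) := by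
    rw [lint_bavE A h g2 hu]
    exact hn
  have hEm : Measurable fun y => bavE A R (fun y => ‖F y - trn n (F y)‖ₑ) y :=
    (bavE_meas A hu).comp measurable_prodMk_left
  have hEt : ∀ᵐ y ∂m, bavE A R (fun y => ‖F y - trn n (F y)‖ₑ) y < ⊤ :=
    ae_lt_top hEm hE.ne_top
  have hEi : Integrable (fun y => (bavE A R (fun y => ‖F y - trn n (F y)‖ₑ) y).toReal) m :=
    integrable_toReal_of_lintegral_ne_top hEm.aemeasurable hE.ne_top
  have hEI : ∫ y, (bavE A R (fun y => ‖F y - trn n (F y)‖ₑ) y).toReal ∂m ≤ ε / 4 := by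
    rw [integral_toReal hEm.aemeasurable hEt]
    exact ENNReal.toReal_le_of_le_ofReal hε4.le hE.le
  have hcb : |∫ y, trn n (F y) ∂m| ≤ n := by
    have := norm_integral_le_of_norm_le_const (μ := m) (f := fun y => trn n (F y))
      (C := n) (Eventually.of_forall fun y => abs_trn_le _ _)
    simpa using this
  have hBm : Measurable fun y =>
      |bav A R (fun y => trn n (F y)) y - ∫ y, trn n (F y) ∂m| :=
    (((bav_meas A hFn).comp measurable_prodMk_left).sub_const _).abs
  have hB : Integrable (fun y =>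
      |bav A R (fun y => trn n (F y)) y - ∫ y, trn n (F y) ∂m|) m := by
    refine Integrable.of_bound hBm.aestronglyMeasurable (2 * n)
      (Eventually.of_forall fun y => ?_)
    have hb1 := bav_bdd A (F := fun y => trn n (F y)) (fun y => abs_trn_le _ _) R y
    rw [Real.norm_eq_abs, abs_abs]
    calc |bav A R (fun y => trn n (F y)) y - ∫ y, trn n (F y) ∂m|
        ≤ |bav A R (fun y => trn n (F y)) y| + |∫ y, trn n (F y) ∂m| := abs_sub _ _
      _ ≤ 2 * n := by linarith
  have key : ∫ y, |bav A R F y - c| ∂m ≤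
      ∫ y, (|bav A R (fun y => trn n (F y)) y - ∫ y, trn n (F y) ∂m| +
        (bavE A R (fun y => ‖F y - trn n (F y)‖ₑ) y).toReal + ε / 4) ∂m := by
    refine integral_mono_of_nonneg (Eventually.of_forall fun _ => abs_nonneg _)
      ((hB.add hEi).add (integrable_const _)) ?_
    filter_upwards [int_disc A h hF hi] with y hy
    have t1 := bav_sub_le A (n := n) (hy R)
    have t3 := abs_add_three (bav A R F y - bav A R (fun y => trn n (F y)) y)
        (bav A R (fun y => trn n (F y)) y - ∫ y, trn n (F y) ∂m)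
        ((∫ y, trn n (F y) ∂m) - c)
    rw [show bav A R F y - bav A R (fun y => trn n (F y)) y +
      (bav A R (fun y => trn n (F y)) y - ∫ y, trn n (F y) ∂m) +
      ((∫ y, trn n (F y) ∂m) - c) = bav A R F y - c by ring] at t3
    linarith
  have hBE : Integrable (fun y =>
      |bav A R (fun y => trn n (F y)) y - ∫ y, trn n (F y) ∂m| +
        (bavE A R (fun y => ‖F y - trn n (F y)‖ₑ) y).toReal) m := hB.add hEi
  rw [integral_add hBE (integrable_const _), integral_add hB hEi] at key
  have h4 : ∫ _, ε / 4 ∂m = ε / 4 := by simp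
  rw [h4] at key
  linarith

end Pool.Agent.MP27775c.DO
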