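import Pool.Agent.Lib.MP_27775c_an_DO.LA

/-!
# MP_27775c_an, project DO, module LD: rotation invariant functions
-/

set_option autoImplicit false

open MeasureTheory Set Filter Topology
open scoped ENNReal

namespace Pool.Agent.MP27775c.DO

/-- rotations preserve the measure -/
private theorem LD_mp (g : G) :
    MeasurePreserving (fun z : UpperHalfPlane => g • z) volume volume :=
  measurePreserving_smul (Matrix.SpecialLinearGroup.mapGL ℝ g : GL (Fin 2) ℝ)
    (volume : Measure UpperHalfPlane)

/-- rotations are measurable embeddings -/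
private theorem LD_me (g : G) : MeasurableEmbedding (fun z : UpperHalfPlane => g • z) :=
  measurableEmbedding_const_smul (Matrix.SpecialLinearGroup.mapGL ℝ g : GL (Fin 2) ℝ)

/-- rotations preserve the ball -/
private theorem LD_ball (θ : ℝ) (R : ℝ) :
    (fun z : UpperHalfPlane => kk θ • z) ⁻¹' Metric.ball UpperHalfPlane.I R =
      Metric.ball UpperHalfPlane.I R := by
  ext z
  simp only [mem_preimage, Metric.mem_ball]
  have h := dist_smul (kk θ) z UpperHalfPlane.I
  rw [kk_smul] at h
  rw [h]

/-- the left multiplication by a rotation -/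
private theorem LD_iwa (z : UpperHalfPlane) (θ : ℝ) :
    ∃ θ' : ℝ, kk θ * pp z = pp (kk θ • z) * kk θ' := by
  obtain ⟨θ', h⟩ := iwa (kk θ * pp z)
  refine ⟨θ', ?_⟩
  rw [mul_smul, pp_smul] at h
  exact h

section

variable {Y : Type*} [TopologicalSpace Y] (A : RAct Y)

/-- values on the disc -/
private theorem LD_act {Z : Type*} {F : Y → Z} (hK : ∀ y θ, F (A.act y (kk θ)) = F y) (y : Y)
    (θ : ℝ) (z : UpperHalfPlane) :
    F (A.act (A.act y (kk θ)) (pp z)) = F (A.act y (pp (kk θ • z))) := by
  obtain ⟨θ', h⟩ := LD_iwa z θ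
  rw [← A.act_mul, h, A.act_mul, hK]

/-- the integrals over the disc -/
private theorem LD_lint {u : Y → ℝ≥0∞} (hK : ∀ y θ, u (A.act y (kk θ)) = u y) (R : ℝ) (y : Y)
    (θ : ℝ) :
    ∫⁻ z in Metric.ball UpperHalfPlane.I R, u (A.act (A.act y (kk θ)) (pp z)) =
      ∫⁻ z in Metric.ball UpperHalfPlane.I R, u (A.act y (pp z)) := by
  have h := (LD_mp (kk θ)).setLIntegral_comp_preimage_emb (LD_me (kk θ))
    (fun z => u (A.act y (pp z))) (Metric.ball UpperHalfPlane.I R)
  rw [LD_ball] at h
  rw [← h]
  simp only [LD_act A hK]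

end

variable {Y : Type*} [TopologicalSpace Y] [PolishSpace Y] [MeasurableSpace Y] [BorelSpace Y]
  (A : RAct Y)

/-- The disc averages of a rotation invariant function are rotation invariant.

Proof. `kk θ * pp z = pp (kk θ • z) * kk θ'` (`iwa` for `g = kk θ * pp z`, `pp_smul`), so
`F (y · kk θ · pp z) = F (y · pp (kk θ • z))`; the map `z ↦ kk θ • z` preserves the volume
(`SMulInvariantMeasure`, `measurePreserving_smul`) and the ball (isometry which fixes `I`). -/
theorem bav_kk {F : Y → ℝ} (hK : ∀ y θ, F (A.act y (kk θ)) = F y) (R : ℝ) (y : Y) (θ : ℝ) :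
    bav A R F (A.act y (kk θ)) = bav A R F y := by
  have h := (LD_mp (kk θ)).setIntegral_preimage_emb (LD_me (kk θ))
    (fun z => F (A.act y (pp z))) (Metric.ball UpperHalfPlane.I R)
  rw [LD_ball] at h
  unfold bav
  rw [← h]
  simp only [LD_act A hK]

/-- Measurability of the set of convergence. Proof: `S` may be restricted to natural numbers, as
the integrand is between zero and one; `measurableSet_tendsto`, `bav_meas`. -/
theorem conv_meas {F : Y → ℝ} (hF : Measurable F) (c : ℝ) :
    MeasurableSet {y | Tendsto (fun S : ℝ => 1 / S * ∫ R in (0 : ℝ)..S,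
      min 1 |bav A R F y - c|) atTop (𝓝 0)} := by
  have hm : Measurable fun q : ℝ × Y => min 1 |bav A q.1 F q.2 - c| :=
    measurable_const.min ((bav_meas A hF).sub_const c).abs
  have h0 : ∀ R y, 0 ≤ min 1 |bav A R F y - c| := fun R y => le_min zero_le_one (abs_nonneg _)
  have h1 : ∀ R y, min 1 |bav A R F y - c| ≤ 1 := fun R y => min_le_left _ _
  have hmy : ∀ y, Measurable fun R => min 1 |bav A R F y - c| := fun y =>
    hm.comp measurable_prodMk_right
  have hii : ∀ y a b, IntervalIntegrable (fun R => min 1 |bav A R F y - c|) volume a b := by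
    intro y a b
    rw [intervalIntegrable_iff]
    have : IsFiniteMeasure (volume.restrict (uIoc a b)) :=
      ⟨by rw [Measure.restrict_apply_univ, uIoc, Real.volume_Ioc]; exact ENNReal.ofReal_lt_top⟩
    refine Integrable.of_bound (hmy y).aestronglyMeasurable 1 (Eventually.of_forall fun R => ?_)
    rw [Real.norm_eq_abs, abs_of_nonneg (h0 R y)]
    exact h1 R y
  have heq : {y | Tendsto (fun S : ℝ => 1 / S * ∫ R in (0 : ℝ)..S,
      min 1 |bav A R F y - c|) atTop (𝓝 0)} = {y | Tendsto (fun n : ℕ => 1 / (n : ℝ) *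
      ∫ R in (0 : ℝ)..(n : ℝ), min 1 |bav A R F y - c|) atTop (𝓝 0)} := by
    ext y
    constructor
    · intro h
      exact Tendsto.comp (g := fun S : ℝ => 1 / S * ∫ R in (0 : ℝ)..S,
        min 1 |bav A R F y - c|) h tendsto_natCast_atTop_atTop
    · intro h
      have h2 : Tendsto (fun n : ℕ => 1 / ((n + 1 : ℕ) : ℝ) *
          ∫ R in (0 : ℝ)..((n + 1 : ℕ) : ℝ), min 1 |bav A R F y - c|) atTop (𝓝 0) :=
        (tendsto_add_atTop_iff_nat (f := fun n : ℕ => 1 / (n : ℝ) *
          ∫ R in (0 : ℝ)..(n : ℝ), min 1 |bav A R F y - c|) 1).2 h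
      have h3 : Tendsto (fun n : ℕ => 2 * (1 / ((n + 1 : ℕ) : ℝ) *
          ∫ R in (0 : ℝ)..((n + 1 : ℕ) : ℝ), min 1 |bav A R F y - c|)) atTop (𝓝 0) := by
        simpa using h2.const_mul 2
      have h4 := h3.comp (tendsto_nat_floor_atTop (α := ℝ))
      refine squeeze_zero' ?_ ?_ h4
      · filter_upwards [eventually_ge_atTop (0 : ℝ)] with S hS
        refine mul_nonneg (by positivity) ?_
        exact intervalIntegral.integral_nonneg hS fun R _ => h0 R y
      · filter_upwards [eventually_ge_atTop (1 : ℝ)] with S hS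
        have hS0 : 0 < S := lt_of_lt_of_le one_pos hS
        have hf1 : (⌊S⌋₊ : ℝ) ≤ S := Nat.floor_le hS0.le
        have hf2 : S < (⌊S⌋₊ : ℝ) + 1 := Nat.lt_floor_add_one S
        have hI : ∫ R in (0 : ℝ)..S, min 1 |bav A R F y - c| ≤
            ∫ R in (0 : ℝ)..((⌊S⌋₊ + 1 : ℕ) : ℝ), min 1 |bav A R F y - c| := by
          refine intervalIntegral.integral_mono_interval (le_refl _) hS0.le ?_
            (Eventually.of_forall fun R => h0 R y) (hii y _ _)
          push_cast
          exact hf2.le
        have hI0 : 0 ≤ ∫ R in (0 : ℝ)..((⌊S⌋₊ + 1 : ℕ) : ℝ), min 1 |bav A R F y - c| :=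
          intervalIntegral.integral_nonneg (Nat.cast_nonneg _) fun R _ => h0 R y
        have hd : 1 / S ≤ 2 * (1 / ((⌊S⌋₊ + 1 : ℕ) : ℝ)) := by
          push_cast
          rw [mul_one_div, div_le_div_iff₀ hS0 (by positivity)]
          linarith
        calc 1 / S * ∫ R in (0 : ℝ)..S, min 1 |bav A R F y - c|
            ≤ 1 / S * ∫ R in (0 : ℝ)..((⌊S⌋₊ + 1 : ℕ) : ℝ), min 1 |bav A R F y - c| :=
              mul_le_mul_of_nonneg_left hI (by positivity)
          _ ≤ 2 * (1 / ((⌊S⌋₊ + 1 : ℕ) : ℝ)) *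
              ∫ R in (0 : ℝ)..((⌊S⌋₊ + 1 : ℕ) : ℝ), min 1 |bav A R F y - c| :=
              mul_le_mul_of_nonneg_right hd hI0
          _ = _ := by
              simp only [Function.comp]
              ring
  rw [heq]
  refine measurableSet_tendsto _ fun n => ?_
  refine Measurable.const_mul ?_ _
  have h5 : (fun y => ∫ R in (0 : ℝ)..(n : ℝ), min 1 |bav A R F y - c|) = fun y =>
      ∫ R in Ioc (0 : ℝ) n, min 1 |bav A R F y - c| := by
    funext y
    exact intervalIntegral.integral_of_le (Nat.cast_nonneg n)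
  rw [h5]
  have h6 : StronglyMeasurable fun p : Y × ℝ => min 1 |bav A p.2 F p.1 - c| :=
    (hm.comp measurable_swap).stronglyMeasurable
  exact (h6.integral_prod_right' (ν := volume.restrict (Ioc (0 : ℝ) n))).measurable

/-- the averaged measure of a rotation invariant set -/
private theorem LD_kap {m : Measure Y} [IsProbabilityMeasure m] {s : Set Y}
    (hs : MeasurableSet s) (hK : ∀ y θ, A.act y (kk θ) ∈ s ↔ y ∈ s) : kap A m s = m s := by
  have h := lintegral_kap A m (F := s.indicator 1) (measurable_one.indicator hs)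
  rw [lintegral_indicator_one hs] at h
  rw [h]
  have h1 : ∀ θ y, s.indicator (1 : Y → ℝ≥0∞) (A.act y (kk θ)) = s.indicator 1 y := by
    intro θ y
    by_cases hy : y ∈ s
    · rw [indicator_of_mem hy, indicator_of_mem ((hK y θ).2 hy)]
      rfl
    · rw [indicator_of_notMem hy, indicator_of_notMem fun h2 => hy ((hK y θ).1 h2)]
  simp only [h1, lintegral_indicator_one hs, lintegral_const, measure_univ, mul_one]

/-- Transfer of an almost sure rotation invariant property. Proof: `lintegral_kap` for the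
indicator function of the complement. -/
theorem ae_kap {m : Measure Y} [IsProbabilityMeasure m] {p : Y → Prop}
    (hp : MeasurableSet {y | p y}) (hK : ∀ y θ, p (A.act y (kk θ)) ↔ p y)
    (h : ∀ᵐ y ∂m, p y) : ∀ᵐ y ∂(kap A m), p y := by
  rw [ae_iff] at h ⊢
  have hs : MeasurableSet {y | ¬ p y} := hp.compl
  rw [LD_kap A hs fun y θ => not_congr (hK y θ)]
  exact h

/-- the image measures agree -/
private theorem LD_map {m : Measure Y} [IsProbabilityMeasure m] {F : Y → ℝ} (hF : Measurable F)
    (hK : ∀ y θ, F (A.act y (kk θ)) = F y) : (kap A m).map F = m.map F := by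
  refine Measure.ext fun s hs => ?_
  rw [Measure.map_apply hF hs, Measure.map_apply hF hs]
  refine LD_kap A (hF hs) fun y θ => ?_
  rw [mem_preimage, mem_preimage, hK]

/-- Integrals of rotation invariant functions. Proof: `lintegral_kap`. -/
theorem int_kap {m : Measure Y} [IsProbabilityMeasure m] {F : Y → ℝ} (hF : Measurable F)
    (hK : ∀ y θ, F (A.act y (kk θ)) = F y) :
    (Integrable F (kap A m) ↔ Integrable F m) ∧ ∫ y, F y ∂(kap A m) = ∫ y, F y ∂m := by
  have h := LD_map A (m := m) hF hK
  have hid : ∀ μ : Measure ℝ, AEStronglyMeasurable (fun x : ℝ => x) μ := fun μ =>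
    measurable_id.aestronglyMeasurable
  constructor
  · have h1 := integrable_map_measure (f := F) (hid _) (hF.aemeasurable (μ := kap A m))
    have h2 := integrable_map_measure (f := F) (hid _) (hF.aemeasurable (μ := m))
    rw [h] at h1
    exact h1.symm.trans h2
  · rw [← integral_map (f := fun x : ℝ => x) (hF.aemeasurable (μ := kap A m)) (hid _), h,
      integral_map (hF.aemeasurable (μ := m)) (hid _)]

/-- Integrability on discs for the averaged measure. Proof: the set of the `y` for which
`bavE A n ‖F‖ₑ y ≠ ⊤` for all natural numbers `n ≥ 1` is measurable and rotation invariant (as in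
`bav_kk`); `int_disc`, `ae_kap`. -/
theorem int_disc_kap {m : Measure Y} [IsProbabilityMeasure m] (h : IsPInv A m) {F : Y → ℝ}
    (hF : Measurable F) (hK : ∀ y θ, F (A.act y (kk θ)) = F y) (hi : Integrable F m) :
    ∀ᵐ y ∂(kap A m), ∀ R : ℝ, IntegrableOn (fun z => F (A.act y (pp z)))
      (Metric.ball UpperHalfPlane.I R) := by
  have hvt : ∀ n : ℕ, volume (Metric.ball UpperHalfPlane.I ((n : ℝ) + 1)) ≠ ⊤ := fun n => by
    rw [vol_ball (by positivity)]
    exact ENNReal.ofReal_ne_top
  have hv0 : ∀ n : ℕ, volume (Metric.ball UpperHalfPlane.I ((n : ℝ) + 1)) ≠ 0 := fun n => by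
    rw [vol_ball (by positivity)]
    exact (ENNReal.ofReal_pos.2 (mul_pos (Real.exp_pos _) (sig_pos (by positivity)))).ne'
  have hKu : ∀ y θ, ‖F (A.act y (kk θ))‖ₑ = ‖F y‖ₑ := fun y θ => by rw [hK]
  have hmy : ∀ y, Measurable fun z => F (A.act y (pp z)) := fun y =>
    hF.comp ((meas_joint A continuous_pp).comp measurable_prodMk_left)
  have key : ∀ᵐ y ∂(kap A m), ∀ n : ℕ, bavE A ((n : ℝ) + 1) (fun y => ‖F y‖ₑ) y ≠ ⊤ := by
    refine ae_kap A ?_ ?_ ?_
    · have : {y | ∀ n : ℕ, bavE A ((n : ℝ) + 1) (fun y => ‖F y‖ₑ) y ≠ ⊤} =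
          ⋂ n : ℕ, {y | bavE A ((n : ℝ) + 1) (fun y => ‖F y‖ₑ) y ≠ ⊤} := by
        ext y
        simp
      rw [this]
      refine MeasurableSet.iInter fun n => ?_
      have h1 : Measurable fun y => bavE A ((n : ℝ) + 1) (fun y => ‖F y‖ₑ) y :=
        (bavE_meas A hF.enorm).comp measurable_prodMk_left
      exact (h1 (measurableSet_singleton ⊤)).compl
    · intro y θ
      refine forall_congr' fun n => ?_
      unfold bavE
      rw [LD_lint A (u := fun y => ‖F y‖ₑ) hKu]
    · filter_upwards [int_disc A h hF hi] with y hy n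
      have h1 := (hy ((n : ℝ) + 1)).2
      unfold bavE
      exact ENNReal.div_ne_top h1.ne (hv0 n)
  filter_upwards [key] with y hy R
  obtain ⟨n, hn⟩ := exists_nat_ge R
  refine IntegrableOn.mono_set ⟨(hmy y).aestronglyMeasurable, ?_⟩
    (Metric.ball_subset_ball (hn.trans (le_add_of_nonneg_right zero_le_one)))
  have h1 := hy n
  unfold bavE at h1
  rw [Ne, ENNReal.div_eq_top, not_or] at h1
  refine lt_of_le_of_ne le_top fun h2 => h1.2 ⟨h2, hvt n⟩

end Pool.Agent.MP27775c.DO
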