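import Mathlib

/-!
# MP_27775c_an, project DO, module RA: quotients, pointwise
-/

set_option autoImplicit false

open MeasureTheory Set Filter Topology

namespace Pool.Agent.MP27775c.DO

private theorem ra_pt {a b C : ℝ} (hb : 0 < b) : ∃ K : ℝ, 0 ≤ K ∧ ∀ x y : ℝ, |x| ≤ C * y →
    |x / y - a / b| ≤ K * (|x - a| + |y - b|) := by
  obtain ⟨D, hD⟩ : ∃ D : ℝ, D = |C| + |a / b| := ⟨_, rfl⟩
  have hD0 : 0 ≤ D := by rw [hD]; positivity
  refine ⟨2 * (b + |a|) / b ^ 2 + 2 * D / b, by positivity, ?_⟩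
  intro x y hxy
  have hx : |x / y| ≤ |C| := by
    rcases lt_trichotomy y 0 with hy | hy | hy
    · rw [abs_div, div_le_iff₀ (abs_pos.2 hy.ne)]
      calc |x| ≤ C * y := hxy
        _ ≤ |C * y| := le_abs_self _
        _ = |C| * |y| := abs_mul _ _
    · rw [hy, div_zero, abs_zero]
      exact abs_nonneg _
    · rw [abs_div, div_le_iff₀ (abs_pos.2 hy.ne')]
      calc |x| ≤ C * y := hxy
        _ ≤ |C * y| := le_abs_self _
        _ = |C| * |y| := abs_mul _ _
  have h0 : |x / y - a / b| ≤ D := by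
    rw [hD]
    exact (abs_sub _ _).trans (add_le_add hx le_rfl)
  have h1 : 0 ≤ |x - a| := abs_nonneg _
  have h2 : 0 ≤ |y - b| := abs_nonneg _
  have hA0 : 0 ≤ 2 * (b + |a|) / b ^ 2 := by positivity
  have hB0 : 0 ≤ 2 * D / b := by positivity
  rcases le_or_gt (b / 2) y with hy | hy
  · have hy0 : 0 < y := by linarith
    have h3 : x / y - a / b = (b * (x - a) - a * (y - b)) / (y * b) := by
      field_simp
      ring
    have h4 : |x / y - a / b| ≤ 2 * (b + |a|) / b ^ 2 * (|x - a| + |y - b|) := by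
      rw [h3, abs_div, abs_of_pos (mul_pos hy0 hb), div_le_iff₀ (mul_pos hy0 hb)]
      have h5 : |b * (x - a) - a * (y - b)| ≤ (b + |a|) * (|x - a| + |y - b|) := by
        calc |b * (x - a) - a * (y - b)| ≤ |b * (x - a)| + |a * (y - b)| := abs_sub _ _
          _ = b * |x - a| + |a| * |y - b| := by rw [abs_mul, abs_mul, abs_of_pos hb]
          _ ≤ (b + |a|) * (|x - a| + |y - b|) := by
            nlinarith [mul_nonneg hb.le h2, mul_nonneg (abs_nonneg a) h1]
      have h6 : (1 : ℝ) ≤ 2 / b ^ 2 * (y * b) := by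
        rw [div_mul_eq_mul_div, le_div_iff₀ (by positivity)]
        nlinarith
      calc |b * (x - a) - a * (y - b)| ≤ (b + |a|) * (|x - a| + |y - b|) * 1 := by
            rw [mul_one]; exact h5
        _ ≤ (b + |a|) * (|x - a| + |y - b|) * (2 / b ^ 2 * (y * b)) :=
          mul_le_mul_of_nonneg_left h6 (by positivity)
        _ = 2 * (b + |a|) / b ^ 2 * (|x - a| + |y - b|) * (y * b) := by ring
    have h7 : 0 ≤ 2 * D / b * (|x - a| + |y - b|) := by positivity
    calc |x / y - a / b| ≤ 2 * (b + |a|) / b ^ 2 * (|x - a| + |y - b|) := h4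
      _ ≤ (2 * (b + |a|) / b ^ 2 + 2 * D / b) * (|x - a| + |y - b|) := by
        rw [add_mul]; linarith
  · have h3 : b / 2 ≤ |y - b| := by
      rw [abs_sub_comm]
      exact le_trans (by linarith) (le_abs_self _)
    have h4 : D ≤ 2 * D / b * |y - b| := by
      calc D = 2 * D / b * (b / 2) := by field_simp
        _ ≤ 2 * D / b * |y - b| := mul_le_mul_of_nonneg_left h3 hB0
    have h5 : 0 ≤ 2 * (b + |a|) / b ^ 2 * (|x - a| + |y - b|) := by positivity
    have h6 : 0 ≤ 2 * D / b * |x - a| := by positivity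
    calc |x / y - a / b| ≤ D := h0
      _ ≤ 2 * D / b * |y - b| := h4
      _ ≤ (2 * (b + |a|) / b ^ 2 + 2 * D / b) * (|x - a| + |y - b|) := by
        rw [add_mul, mul_add (2 * D / b)]; linarith

private theorem ra_pt2 {a b C : ℝ} (hb : 0 < b) : ∃ K : ℝ, 0 ≤ K ∧ ∀ x y : ℝ, |x| ≤ C * y →
    |x / y - a / b| ≤ K * (min 1 |x - a| + min 1 |y - b|) ∧ |x / y - a / b| ≤ K := by
  obtain ⟨K, hK, hpt⟩ := ra_pt (a := a) (C := C) hb
  obtain ⟨D, hD⟩ : ∃ D : ℝ, D = |C| + |a / b| := ⟨_, rfl⟩
  have hD0 : 0 ≤ D := by rw [hD]; positivity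
  refine ⟨K + D, by positivity, ?_⟩
  intro x y hxy
  have hx : |x / y| ≤ |C| := by
    rcases eq_or_ne y 0 with hy | hy
    · rw [hy, div_zero, abs_zero]
      exact abs_nonneg _
    · rw [abs_div, div_le_iff₀ (abs_pos.2 hy)]
      calc |x| ≤ C * y := hxy
        _ ≤ |C * y| := le_abs_self _
        _ = |C| * |y| := abs_mul _ _
  have h0 : |x / y - a / b| ≤ D := by
    rw [hD]
    exact (abs_sub _ _).trans (add_le_add hx le_rfl)
  have h1 : 0 ≤ min 1 |x - a| := le_min zero_le_one (abs_nonneg _)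
  have h2 : 0 ≤ min 1 |y - b| := le_min zero_le_one (abs_nonneg _)
  refine ⟨?_, by linarith⟩
  rcases le_or_gt 1 |x - a| with h3 | h3
  · rw [min_eq_left h3]
    nlinarith [mul_nonneg hK h2, mul_nonneg hD0 h2]
  · rcases le_or_gt 1 |y - b| with h4 | h4
    · rw [min_eq_left h4]
      nlinarith [mul_nonneg hK h1, mul_nonneg hD0 h1]
    · rw [min_eq_right h3.le, min_eq_right h4.le]
      have h5 := hpt x y hxy
      have h6 : 0 ≤ D * (|x - a| + |y - b|) := by positivity
      rw [add_mul]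
      linarith

/-- Proof. If `min 1 |f R - a| < δ` and `min 1 |g R - b| < δ` with `δ` small (depending on `ε`,
`a`, `b > 0`) then
`|f R / g R - a / b| < ε`. Always `|f R / g R - a / b| ≤ C + |a / b| =: D`. So
`|f R / g R - a / b| ≤ ε + D / δ * (min 1 |f R - a| + min 1 |g R - b|)`; integrate over `(0, S]`,
divide by `S`. -/
theorem rat_ae {f g : ℝ → ℝ} (hf : Measurable f) (hg : Measurable g) {a b C : ℝ} (hb : 0 < b)
    (hC : ∀ R, 0 < R → |f R| ≤ C * g R)
    (h1 : Tendsto (fun S : ℝ => 1 / S * ∫ R in (0 : ℝ)..S, min 1 |f R - a|) atTop (𝓝 0))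
    (h2 : Tendsto (fun S : ℝ => 1 / S * ∫ R in (0 : ℝ)..S, min 1 |g R - b|) atTop (𝓝 0)) :
    Tendsto (fun S : ℝ => 1 / S * ∫ R in (0 : ℝ)..S, |f R / g R - a / b|) atTop (𝓝 0) := by
  obtain ⟨K, hK, hpt⟩ := ra_pt2 (a := a) (C := C) hb
  have h3 : Tendsto (fun S : ℝ => K * ((1 / S * ∫ R in (0 : ℝ)..S, min 1 |f R - a|) +
      1 / S * ∫ R in (0 : ℝ)..S, min 1 |g R - b|)) atTop (𝓝 0) := by
    have := (h1.add h2).const_mul K
    simpa using this
  have hi : ∀ (u : ℝ → ℝ) (D : ℝ) (S : ℝ), Measurable u → (∀ R, 0 < R → |u R| ≤ D) →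
      0 < S → IntervalIntegrable u volume 0 S := by
    intro u D S hu hD hS
    rw [intervalIntegrable_iff_integrableOn_Ioc_of_le hS.le]
    refine Measure.integrableOn_of_bounded (M := D) (by simp) hu.aestronglyMeasurable ?_
    rw [ae_restrict_iff' measurableSet_Ioc]
    exact Eventually.of_forall fun R hR => by
      rw [Real.norm_eq_abs]
      exact hD R hR.1
  have hmin : ∀ t : ℝ, abs (min 1 (abs t)) ≤ 1 := fun t => by
    rw [abs_of_nonneg (le_min zero_le_one (abs_nonneg _))]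
    exact min_le_left _ _
  refine squeeze_zero' ?_ ?_ h3
  · filter_upwards [eventually_gt_atTop (0 : ℝ)] with S hS
    refine mul_nonneg (by positivity) ?_
    exact intervalIntegral.integral_nonneg hS.le fun R _ => abs_nonneg _
  · filter_upwards [eventually_gt_atTop (0 : ℝ)] with S hS
    have i1 : IntervalIntegrable (fun R => min 1 |f R - a|) volume 0 S :=
      hi _ 1 S (measurable_const.min (hf.sub measurable_const).norm) (fun R _ => hmin _) hS
    have i2 : IntervalIntegrable (fun R => min 1 |g R - b|) volume 0 S :=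
      hi _ 1 S (measurable_const.min (hg.sub measurable_const).norm) (fun R _ => hmin _) hS
    have i3 : IntervalIntegrable (fun R => |f R / g R - a / b|) volume 0 S :=
      hi _ K S ((hf.div hg).sub measurable_const).norm (fun R hR => by
        rw [abs_abs]
        exact (hpt _ _ (hC R hR)).2) hS
    have h4 : ∫ R in (0 : ℝ)..S, |f R / g R - a / b| ≤
        ∫ R in (0 : ℝ)..S, K * (min 1 |f R - a| + min 1 |g R - b|) := by
      refine intervalIntegral.integral_mono_on_of_le_Ioo hS.le i3 ((i1.add i2).const_mul K) ?_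
      intro R hR
      exact (hpt _ _ (hC R hR.1)).1
    have h5 : ∫ R in (0 : ℝ)..S, K * (min 1 |f R - a| + min 1 |g R - b|) =
        K * ((∫ R in (0 : ℝ)..S, min 1 |f R - a|) + ∫ R in (0 : ℝ)..S, min 1 |g R - b|) := by
      rw [intervalIntegral.integral_const_mul, intervalIntegral.integral_add i1 i2]
    rw [h5] at h4
    calc 1 / S * ∫ R in (0 : ℝ)..S, |f R / g R - a / b| ≤
          1 / S * (K * ((∫ R in (0 : ℝ)..S, min 1 |f R - a|) +
            ∫ R in (0 : ℝ)..S, min 1 |g R - b|)) :=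
          mul_le_mul_of_nonneg_left h4 (by positivity)
      _ = _ := by ring

end Pool.Agent.MP27775c.DO
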