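import Pool.Agent.Lib.MP_27775c_an_DO.AbG
import Pool.Agent.Lib.MP_27775c_an_DO.LL
import Pool.Agent.Lib.MP_27775c_an_DO.RA

/-!
# MP_27775c_an, project DO, module AbA: the abstract theorem, almost sure version
-/

set_option autoImplicit false

open MeasureTheory Set Filter Topology
open scoped ENNReal

namespace Pool.Agent.MP27775c.DO

variable {Y : Type*} [TopologicalSpace Y] [PolishSpace Y] [MeasurableSpace Y] [BorelSpace Y]
  (A : RAct Y)

/-- The abstract theorem, almost sure version.

Proof. `exists_goodE`, `main_ae` for `F` and `W`, `conv_meas`, `bav_kk`, `ae_kap`, `int_kap`,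
`rat_ae` (with `f R = bav A R F y`,
`g R = bav A R W y`; `|bav R F y| ≤ C * bav R W y` for almost every `y` by `int_disc`, and
`bav_meas` for the measurability in `R`). -/
theorem abs_ae {μ : Measure Y} [IsProbabilityMeasure μ] (h : IsHarm A μ) (he : IsExt A μ)
    (hP : ¬ IsExc A μ) {F W : Y → ℝ} (hF : Measurable F) (hW : Measurable W)
    (hFK : ∀ y θ, F (A.act y (kk θ)) = F y) (hWK : ∀ y θ, W (A.act y (kk θ)) = W y) {C : ℝ}
    (hC : ∀ y, |F y| ≤ C * W y) (hi : Integrable W μ) (hpos : 0 < ∫ y, W y ∂μ) :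
    ∀ᵐ y ∂μ, Tendsto (fun S : ℝ => 1 / S * ∫ R in (0 : ℝ)..S,
      |bav A R F y / bav A R W y - (∫ y, F y ∂μ) / ∫ y, W y ∂μ|) atTop (𝓝 0) := by
  obtain ⟨m, hm, hp, hk, hN⟩ := exists_goodE A h he hP
  subst hk
  have hiF : Integrable F (kap A m) := (hi.const_mul C).mono' hF.aestronglyMeasurable
    (Eventually.of_forall fun y => by
      rw [Real.norm_eq_abs]
      exact hC y)
  have hF' := int_kap A (m := m) hF hFK
  have hW' := int_kap A (m := m) hW hWK
  have key : ∀ {u : Y → ℝ}, Measurable u → (∀ y θ, u (A.act y (kk θ)) = u y) →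
      Integrable u (kap A m) → ∀ᵐ y ∂(kap A m), Tendsto (fun S : ℝ => 1 / S * ∫ R in (0 : ℝ)..S,
        min 1 |bav A R u y - ∫ y, u y ∂(kap A m)|) atTop (𝓝 0) := by
    intro u hu huK hui
    have hu' := int_kap A (m := m) hu huK
    refine ae_kap A (conv_meas A hu _) (fun y θ => ?_) ?_
    · simp only [bav_kk A huK]
    · rw [hu'.2]
      exact main_ae A hp hN hu (hu'.1.1 hui)
  filter_upwards [key hF hFK hiF, key hW hWK hi, int_disc_kap A hp hW hWK (hW'.1.1 hi)]
    with y h1 h2 h3
  refine rat_ae ((bav_meas A hF).comp (measurable_id.prodMk measurable_const))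
    ((bav_meas A hW).comp (measurable_id.prodMk measurable_const)) hpos (C := C)
    (fun R _ => ?_) h1 h2
  change |(∫ z in Metric.ball UpperHalfPlane.I R, F (A.act y (pp z))) /
      (volume (Metric.ball UpperHalfPlane.I R)).toReal| ≤
    C * ((∫ z in Metric.ball UpperHalfPlane.I R, W (A.act y (pp z))) /
      (volume (Metric.ball UpperHalfPlane.I R)).toReal)
  rw [abs_div, abs_of_nonneg (ENNReal.toReal_nonneg : (0 : ℝ) ≤
    (volume (Metric.ball UpperHalfPlane.I R)).toReal), ← mul_div_assoc]
  refine div_le_div_of_nonneg_right ?_ ENNReal.toReal_nonneg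
  rw [← integral_const_mul]
  refine (abs_integral_le_integral_abs).trans ?_
  refine integral_mono_of_nonneg (Eventually.of_forall fun z => abs_nonneg _)
    ((h3 R).const_mul C) (Eventually.of_forall fun z => hC _)

end Pool.Agent.MP27775c.DO
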