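import Mathlib

/-!
# MP_27775c_an, project DO, module RB: quotients, in the mean
-/

set_option autoImplicit false

open MeasureTheory Set Filter Topology

namespace Pool.Agent.MP27775c.DO

private theorem rb_pt {a b C : ℝ} (hb : 0 < b) : ∃ K : ℝ, 0 ≤ K ∧ ∀ x y : ℝ, |x| ≤ C * y →
    |x / y - a / b| ≤ K * (|x - a| + |y - b|) := by
  obtain ⟨D, hD⟩ : ∃ D : ℝ, D = |C| + |a / b| := ⟨_, rfl⟩
  have hD0 : 0 ≤ D := by rw [hD]; positivity
  refine ⟨2 * (b + |a|) / b ^ 2 + 2 * D / b, by positivity, ?_⟩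
  intro x y hxy
  have hx : |x / y| ≤ |C| := by
    rcases lt_trichotomy y 0 with hy | hy | hy
    · rw [abs_div, div_le_iff₀ (abs_pos.2 hy.ne)]
      calc |x| ≤ C * y := hxy
        _ ≤ |C * y| := le_abs_self _
        _ = |C| * |y| := abs_mul _ _
    · rw [hy, div_zero, abs_zero]
      exact abs_nonneg _
    · rw [abs_div, div_le_iff₀ (abs_pos.2 hy.ne')]
      calc |x| ≤ C * y := hxy
        _ ≤ |C * y| := le_abs_self _
        _ = |C| * |y| := abs_mul _ _
  have h0 : |x / y - a / b| ≤ D := by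
    rw [hD]
    exact (abs_sub _ _).trans (add_le_add hx le_rfl)
  have h1 : 0 ≤ |x - a| := abs_nonneg _
  have h2 : 0 ≤ |y - b| := abs_nonneg _
  have hA0 : 0 ≤ 2 * (b + |a|) / b ^ 2 := by positivity
  have hB0 : 0 ≤ 2 * D / b := by positivity
  rcases le_or_gt (b / 2) y with hy | hy
  · have hy0 : 0 < y := by linarith
    have h3 : x / y - a / b = (b * (x - a) - a * (y - b)) / (y * b) := by
      field_simp
      ring
    have h4 : |x / y - a / b| ≤ 2 * (b + |a|) / b ^ 2 * (|x - a| + |y - b|) := by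
      rw [h3, abs_div, abs_of_pos (mul_pos hy0 hb), div_le_iff₀ (mul_pos hy0 hb)]
      have h5 : |b * (x - a) - a * (y - b)| ≤ (b + |a|) * (|x - a| + |y - b|) := by
        calc |b * (x - a) - a * (y - b)| ≤ |b * (x - a)| + |a * (y - b)| := abs_sub _ _
          _ = b * |x - a| + |a| * |y - b| := by rw [abs_mul, abs_mul, abs_of_pos hb]
          _ ≤ (b + |a|) * (|x - a| + |y - b|) := by
            nlinarith [mul_nonneg hb.le h2, mul_nonneg (abs_nonneg a) h1]
      have h6 : (1 : ℝ) ≤ 2 / b ^ 2 * (y * b) := by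
        rw [div_mul_eq_mul_div, le_div_iff₀ (by positivity)]
        nlinarith
      calc |b * (x - a) - a * (y - b)| ≤ (b + |a|) * (|x - a| + |y - b|) * 1 := by
            rw [mul_one]; exact h5
        _ ≤ (b + |a|) * (|x - a| + |y - b|) * (2 / b ^ 2 * (y * b)) :=
          mul_le_mul_of_nonneg_left h6 (by positivity)
        _ = 2 * (b + |a|) / b ^ 2 * (|x - a| + |y - b|) * (y * b) := by ring
    have h7 : 0 ≤ 2 * D / b * (|x - a| + |y - b|) := by positivity
    calc |x / y - a / b| ≤ 2 * (b + |a|) / b ^ 2 * (|x - a| + |y - b|) := h4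
      _ ≤ (2 * (b + |a|) / b ^ 2 + 2 * D / b) * (|x - a| + |y - b|) := by
        rw [add_mul]; linarith
  · have h3 : b / 2 ≤ |y - b| := by
      rw [abs_sub_comm]
      exact le_trans (by linarith) (le_abs_self _)
    have h4 : D ≤ 2 * D / b * |y - b| := by
      calc D = 2 * D / b * (b / 2) := by field_simp
        _ ≤ 2 * D / b * |y - b| := mul_le_mul_of_nonneg_left h3 hB0
    have h5 : 0 ≤ 2 * (b + |a|) / b ^ 2 * (|x - a| + |y - b|) := by positivity
    have h6 : 0 ≤ 2 * D / b * |x - a| := by positivity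
    calc |x / y - a / b| ≤ D := h0
      _ ≤ 2 * D / b * |y - b| := h4
      _ ≤ (2 * (b + |a|) / b ^ 2 + 2 * D / b) * (|x - a| + |y - b|) := by
        rw [add_mul, mul_add (2 * D / b)]; linarith

/-- Proof. As `rat_ae`: `|f / g - a / b| ≤ ε + D / δ * (|f - a| + |g - b|)` pointwise (almost
everywhere). -/
theorem rat_L1 {Y : Type*} [MeasurableSpace Y] {μ : Measure Y} [IsProbabilityMeasure μ]
    {f g : ℝ → Y → ℝ} (hf : ∀ R, Measurable (f R)) (hg : ∀ R, Measurable (g R))
    (hfi : ∀ R, 0 < R → Integrable (f R) μ) (hgi : ∀ R, 0 < R → Integrable (g R) μ)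
    {a b C : ℝ} (hb : 0 < b) (hC : ∀ R, 0 < R → ∀ᵐ y ∂μ, |f R y| ≤ C * g R y)
    (h1 : Tendsto (fun R : ℝ => ∫ y, |f R y - a| ∂μ) atTop (𝓝 0))
    (h2 : Tendsto (fun R : ℝ => ∫ y, |g R y - b| ∂μ) atTop (𝓝 0)) :
    Tendsto (fun R : ℝ => ∫ y, |f R y / g R y - a / b| ∂μ) atTop (𝓝 0) := by
  obtain ⟨K, hK, hpt⟩ := rb_pt (a := a) (C := C) hb
  have h3 : Tendsto (fun R : ℝ => K * ((∫ y, |f R y - a| ∂μ) + ∫ y, |g R y - b| ∂μ)) atTop
      (𝓝 0) := by
    have := (h1.add h2).const_mul K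
    simpa using this
  refine squeeze_zero' (Eventually.of_forall fun R => integral_nonneg fun y => abs_nonneg _) ?_ h3
  filter_upwards [eventually_gt_atTop (0 : ℝ)] with R hR
  have i1 : Integrable (fun y => |f R y - a|) μ := ((hfi R hR).sub (integrable_const a)).abs
  have i2 : Integrable (fun y => |g R y - b|) μ := ((hgi R hR).sub (integrable_const b)).abs
  have i3 : Integrable (fun y => K * (|f R y - a| + |g R y - b|)) μ := (i1.add i2).const_mul K
  have hae : ∀ᵐ y ∂μ, |f R y / g R y - a / b| ≤ K * (|f R y - a| + |g R y - b|) := by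
    filter_upwards [hC R hR] with y hy
    exact hpt _ _ hy
  have h4 : ∫ y, |f R y / g R y - a / b| ∂μ ≤ ∫ y, K * (|f R y - a| + |g R y - b|) ∂μ := by
    refine integral_mono_ae ?_ i3 hae
    refine i3.mono' ?_ ?_
    · exact ((((hf R).div (hg R)).sub measurable_const).norm).aestronglyMeasurable
    · filter_upwards [hae] with y hy
      rw [Real.norm_eq_abs, abs_abs]
      exact hy
  refine h4.trans (le_of_eq ?_)
  rw [integral_const_mul, integral_add i1 i2]

end Pool.Agent.MP27775c.DO
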