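import Pool.Agent.Lib.MP_27775c_an_DO.AbG
import Pool.Agent.Lib.MP_27775c_an_DO.LL
import Pool.Agent.Lib.MP_27775c_an_DO.RB

/-!
# MP_27775c_an, project DO, module AbB: the abstract theorem, convergence in the mean
-/

set_option autoImplicit false

open MeasureTheory Set Filter Topology
open scoped ENNReal

namespace Pool.Agent.MP27775c.DO

variable {Y : Type*} [TopologicalSpace Y] [PolishSpace Y] [MeasurableSpace Y] [BorelSpace Y]
  (A : RAct Y)

omit [PolishSpace Y] [MeasurableSpace Y] [BorelSpace Y] in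
private theorem abB_enorm_le {R : ℝ} (hR : 0 < R) (F : Y → ℝ) (y : Y) :
    ‖bav A R F y‖ₑ ≤ bavE A R (fun y => ‖F y‖ₑ) y := by
  have hv : volume (Metric.ball UpperHalfPlane.I R) ≠ ⊤ := by
    rw [vol_ball hR]
    exact ENNReal.ofReal_ne_top
  rcases eq_or_ne (volume (Metric.ball UpperHalfPlane.I R)) 0 with h0 | h0
  · have : bav A R F y = 0 := by rw [bav, h0, ENNReal.toReal_zero, div_zero]
    rw [this, enorm_zero]
    exact bot_le
  · have hpos : 0 < (volume (Metric.ball UpperHalfPlane.I R)).toReal :=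
      ENNReal.toReal_pos h0 hv
    rw [bav, bavE, Real.enorm_eq_ofReal_abs, abs_div, abs_of_pos hpos,
      ENNReal.ofReal_div_of_pos hpos, ENNReal.ofReal_toReal hv, ← Real.enorm_eq_ofReal_abs]
    exact ENNReal.div_le_div_right (enorm_integral_le_lintegral_enorm _) _

private theorem abB_meas {F : Y → ℝ} (hF : Measurable F) (R : ℝ) :
    Measurable fun y => bav A R F y := (bav_meas A hF).comp measurable_prodMk_left

private theorem abB_int {m : Measure Y} [IsProbabilityMeasure m] (h : IsPInv A m) {F : Y → ℝ}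
    (hF : Measurable F) (hi : Integrable F m) {R : ℝ} (hR : 0 < R) :
    Integrable (fun y => bav A R F y) m := by
  refine ⟨(abB_meas A hF R).aestronglyMeasurable, ?_⟩
  refine lt_of_le_of_lt (lintegral_mono fun y => abB_enorm_le A hR F y) ?_
  rw [lint_bavE A h hR hF.enorm]
  exact hi.2

/-- The abstract theorem, convergence in the mean. -/
theorem abs_L1 {μ : Measure Y} [IsProbabilityMeasure μ] (h : IsHarm A μ) (he : IsExt A μ)
    (hP : ¬ IsExc A μ) {F W : Y → ℝ} (hF : Measurable F) (hW : Measurable W)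
    (hFK : ∀ y θ, F (A.act y (kk θ)) = F y) (hWK : ∀ y θ, W (A.act y (kk θ)) = W y) {C : ℝ}
    (hC : ∀ y, |F y| ≤ C * W y) (hi : Integrable W μ) (hpos : 0 < ∫ y, W y ∂μ) :
    Tendsto (fun R : ℝ => ∫ y, |bav A R F y / bav A R W y -
      (∫ y, F y ∂μ) / ∫ y, W y ∂μ| ∂μ) atTop (𝓝 0) := by
  obtain ⟨m, hm, hp, hk, hn⟩ := exists_goodE A h he hP
  have hiF : Integrable F μ :=
    (hi.const_mul C).mono' hF.aestronglyMeasurable (Eventually.of_forall fun y => hC y)
  have hiWm : Integrable W m := by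
    rw [← hk] at hi
    exact (int_kap A hW hWK).1.1 hi
  have hiFm : Integrable F m := by
    rw [← hk] at hiF
    exact (int_kap A hF hFK).1.1 hiF
  have hbi : ∀ {H : Y → ℝ}, Measurable H → (∀ y θ, H (A.act y (kk θ)) = H y) →
      Integrable H m → ∀ R, 0 < R → Integrable (fun y => bav A R H y) μ := by
    intro H hH hHK hHi R hR
    rw [← hk]
    exact (int_kap A (abB_meas A hH R) fun y θ => bav_kk A hHK R y θ).1.2
      (abB_int A hp hH hHi hR)
  have hlim : ∀ {H : Y → ℝ}, Measurable H → (∀ y θ, H (A.act y (kk θ)) = H y) →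
      Integrable H m →
      Tendsto (fun R : ℝ => ∫ y, |bav A R H y - ∫ y, H y ∂μ| ∂μ) atTop (𝓝 0) := by
    intro H hH hHK hHi
    have h1 := main_L1 A hp hn hH hHi
    refine h1.congr fun R => ?_
    have h2 : ∫ y, H y ∂μ = ∫ y, H y ∂m := by rw [← hk, (int_kap A hH hHK).2]
    rw [h2]
    have h3 := (int_kap A (m := m) (F := fun y => |bav A R H y - ∫ y, H y ∂m|)
      ((abB_meas A hH R).sub_const _).abs
      fun y θ => by show |bav A R H (A.act y (kk θ)) - _| = _; rw [bav_kk A hHK R y θ]).2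
    rw [← h3, hk]
  refine rat_L1 (C := C) (abB_meas A hF) (abB_meas A hW) (hbi hF hFK hiFm) (hbi hW hWK hiWm)
    hpos ?_ (hlim hF hFK hiFm) (hlim hW hWK hiWm)
  intro R _
  have h1 := int_disc_kap A hp hW hWK hiWm
  rw [hk] at h1
  filter_upwards [h1] with y hy
  have h2 := hy R
  have h3 : |∫ z in Metric.ball UpperHalfPlane.I R, F (A.act y (pp z))| ≤
      ∫ z in Metric.ball UpperHalfPlane.I R, C * W (A.act y (pp z)) := by
    rw [← Real.norm_eq_abs]
    refine norm_integral_le_of_norm_le (h2.const_mul C) (Eventually.of_forall fun z => ?_)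
    rw [Real.norm_eq_abs]
    exact hC _
  rw [integral_const_mul] at h3
  rw [bav, bav, abs_div, abs_of_nonneg (ENNReal.toReal_nonneg (a := volume _)), ← mul_div_assoc]
  exact div_le_div_of_nonneg_right h3 ENNReal.toReal_nonneg

end Pool.Agent.MP27775c.DO
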