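import Pool.Agent.Lib.MP_27775c_an_DO.Kap

/-!
# MP_27775c_an, project DO, module PoC: the angle function
-/

set_option autoImplicit false

open MeasureTheory Set Filter Topology

namespace Pool.Agent.MP27775c.DO

variable {Y : Type*} [TopologicalSpace Y] [PolishSpace Y] [MeasurableSpace Y] [BorelSpace Y]
  (A : RAct Y)

/-- The angle function.

Proof. The map `X₀ × [0, π) → Y`, `(x, θ) ↦ x · kk θ`, is measurable and injective (if
`x · kk θ = x' · kk θ'` then `x · kk (θ - θ') = x'` is in `X₀`, so `-sin (θ - θ') = 0`, `θ = θ'`,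
`x = x'`), so it is a
measurable embedding (Lusin-Souslin, `Measurable.measurableEmbedding`, standard Borel spaces), and
the second coordinate of the inverse extends to a measurable function on `Y`
(`MeasurableEmbedding.exists_measurable_extend` or `Function.extend`,
`MeasurableEmbedding.measurable_extend`). -/
theorem exists_angle {X₀ : Set Y} (hX : MeasurableSet X₀)
    (h0 : ∀ x ∈ X₀, ∀ g : G, A.act x g ∈ X₀ → g 1 0 = 0) :
    ∃ α : Y → ℝ, Measurable α ∧ ∀ x ∈ X₀, ∀ θ : ℝ, 0 ≤ θ → θ < Real.pi →
      α (A.act x (kk θ)) = θ := by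
  have : StandardBorelSpace X₀ := hX.standardBorel
  have : StandardBorelSpace (Ico (0 : ℝ) Real.pi) := measurableSet_Ico.standardBorel
  set f : X₀ × Ico (0 : ℝ) Real.pi → Y := fun p => A.act p.1 (kk p.2) with hf
  have hcont : Continuous f := by
    have h1 : Continuous fun p : X₀ × Ico (0 : ℝ) Real.pi => ((p.1 : Y), kk (p.2 : ℝ)) :=
      (continuous_subtype_val.comp continuous_fst).prodMk
        (continuous_kk.comp (continuous_subtype_val.comp continuous_snd))
    exact A.cont.comp h1
  have hinj : Function.Injective f := by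
    rintro ⟨⟨x, hx⟩, ⟨θ, hθ0, hθ1⟩⟩ ⟨⟨x', hx'⟩, ⟨θ', hθ'0, hθ'1⟩⟩ h
    have h1 : A.act x (kk θ) = A.act x' (kk θ') := h
    have h2 : A.act x (kk (θ - θ')) = x' := by
      rw [sub_eq_add_neg, kk_add, A.act_mul, h1, ← A.act_mul, ← kk_add, add_neg_cancel, kk_zero,
        A.act_one]
    have h3 := h0 x hx (kk (θ - θ')) (by rw [h2]; exact hx')
    have h4 : Real.sin (θ - θ') = 0 := by
      simpa [kk] using h3
    have h5 : θ - θ' = 0 :=
      (Real.sin_eq_zero_iff_of_lt_of_lt (by linarith) (by linarith)).1 h4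
    have h6 : θ = θ' := by linarith
    subst h6
    rw [h5, kk_zero, A.act_one] at h2
    subst h2
    rfl
  have hemb : MeasurableEmbedding f := hcont.measurable.measurableEmbedding hinj
  refine ⟨Function.extend f (fun p => (p.2 : ℝ)) (fun _ => 0), ?_, ?_⟩
  · exact hemb.measurable_extend (measurable_subtype_coe.comp measurable_snd) measurable_const
  · intro x hx θ hθ0 hθ1
    exact hinj.extend_apply (fun p => (p.2 : ℝ)) (fun _ => 0) (⟨x, hx⟩, ⟨θ, hθ0, hθ1⟩)

end Pool.Agent.MP27775c.DO
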