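import Pool.Agent.Lib.MP_27775c_an_DO.PoB
import Pool.Agent.Lib.MP_27775c_an_DO.PoC

/-!
# MP_27775c_an, project DO, module PoD: one frame direction per leaf gives the Poisson type
-/

set_option autoImplicit false

open MeasureTheory Set Filter Topology

namespace Pool.Agent.MP27775c.DO

variable {Y : Type*} [TopologicalSpace Y] [PolishSpace Y] [MeasurableSpace Y] [BorelSpace Y]
  (A : RAct Y)

private theorem pod_ne (z : UpperHalfPlane) (α : ℝ) :
    (Real.cos α : ℂ) - z * (Real.sin α : ℂ) ≠ 0 := by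
  intro h
  have h1 := congrArg Complex.re h
  have h2 := congrArg Complex.im h
  simp only [Complex.sub_re, Complex.sub_im, Complex.mul_re, Complex.mul_im, Complex.ofReal_re,
    Complex.ofReal_im, mul_zero, sub_zero, zero_sub, zero_add, Complex.zero_re,
    Complex.zero_im, neg_eq_zero] at h1 h2
  have h3 : Real.sin α = 0 := (mul_eq_zero.1 h2).resolve_left z.im_ne_zero
  rw [h3, mul_zero, sub_zero] at h1
  have h4 := Real.cos_sq_add_sin_sq α
  rw [h1, h3] at h4
  norm_num at h4

private theorem pod_cont (z : UpperHalfPlane) : Continuous fun α => poi α z := by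
  unfold poi
  refine Continuous.div continuous_const ?_ fun α => ?_
  · refine Complex.continuous_normSq.comp ?_
    exact (Complex.continuous_ofReal.comp Real.continuous_cos).sub
      (continuous_const.mul (Complex.continuous_ofReal.comp Real.continuous_sin))
  · exact (Complex.normSq_pos.2 (pod_ne z α)).ne'

private theorem pod_per (z : UpperHalfPlane) : Function.Periodic (fun α => poi α z) Real.pi := by
  intro α
  show poi (α + Real.pi) z = poi α z
  unfold poi
  rw [Real.cos_add_pi, Real.sin_add_pi]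
  congr 1
  have e : (((-Real.cos α : ℝ) : ℂ) - z * ((-Real.sin α : ℝ) : ℂ)) =
      -((Real.cos α : ℂ) - z * (Real.sin α : ℂ)) := by
    push_cast
    ring
  rw [e, Complex.normSq_neg]

private theorem pod_bdd (z : UpperHalfPlane) : ∃ C, ∀ α, |poi α z| ≤ C := by
  have h := (pod_per z).compact_of_continuous Real.pi_ne_zero (pod_cont z)
  obtain ⟨C, hC⟩ := h.isBounded.exists_norm_le
  exact ⟨C, fun α => hC _ ⟨α, rfl⟩⟩

/-- Proof. `integral_kap_act`; the right side is by `integral_kap` equal to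
`∫ θ, ∫ y, F (y · kk θ) * poi (α (y · kk θ)) _ ∂m ∂circ`, where for `y ∈ X₀` (almost every `y`)
`α (y · kk θ) = θ` for `θ ∈ [0, π)` and `θ - π` for `θ ∈ [π, 2π)` (`kk_add_pi`, `act_neg`; `poi`
has period `π` in `α`). The function `poi (α y) z` is bounded for fixed `z` and measurable in
`y`. -/
theorem poisson_of_angle {m : Measure Y} [IsProbabilityMeasure m] (h : IsPInv A m) {X₀ : Set Y}
    (hX : MeasurableSet X₀) (hm : m X₀ᶜ = 0) {α : Y → ℝ} (hα : Measurable α)
    (hαX : ∀ x ∈ X₀, ∀ θ : ℝ, 0 ≤ θ → θ < Real.pi → α (A.act x (kk θ)) = θ) (g : G) {F : Y → ℝ}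
    (hF : Measurable F) (hb : ∃ C, ∀ y, |F y| ≤ C) :
    ∫ y, F (A.act y g) ∂(kap A m) =
      ∫ y, F y * poi (α y) (g⁻¹ • UpperHalfPlane.I) ∂(kap A m) := by
  set z := g⁻¹ • UpperHalfPlane.I with hz
  obtain ⟨C, hC⟩ := hb
  obtain ⟨D, hD⟩ := pod_bdd z
  have hmeas : Measurable fun y => F y * poi (α y) z :=
    hF.mul ((pod_cont z).measurable.comp hα)
  have hbd : ∃ E, ∀ y, |F y * poi (α y) z| ≤ E := by
    refine ⟨C * D, fun y => ?_⟩
    rw [abs_mul]
    exact mul_le_mul (hC y) (hD _) (abs_nonneg _) ((abs_nonneg _).trans (hC y))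
  rw [integral_kap_act A h g hF ⟨C, hC⟩, integral_kap A m hmeas hbd]
  refine integral_congr_ae (Eventually.of_forall fun θ => ?_)
  show (∫ y, F (A.act y (kk θ)) ∂m) * poi θ z =
    ∫ y, F (A.act y (kk θ)) * poi (α (A.act y (kk θ))) z ∂m
  rw [← integral_mul_const]
  refine integral_congr_ae ?_
  have hae : ∀ᵐ y ∂m, y ∈ X₀ := by
    rw [ae_iff]
    exact hm
  filter_upwards [hae] with y hy
  have hper : Function.Periodic (fun θ => poi (α (A.act y (kk θ))) z) Real.pi := by
    intro θ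
    show poi (α (A.act y (kk (θ + Real.pi)))) z = poi (α (A.act y (kk θ))) z
    rw [kk_add_pi, A.act_neg]
  have hmem := toIcoMod_mem_Ico Real.pi_pos 0 θ
  rw [zero_add] at hmem
  have e1 : poi (α (A.act y (kk (toIcoMod Real.pi_pos 0 θ)))) z =
      poi (α (A.act y (kk θ))) z := hper.sub_zsmul_eq (toIcoDiv Real.pi_pos 0 θ)
  have e2 : poi (toIcoMod Real.pi_pos 0 θ) z = poi θ z :=
    (pod_per z).sub_zsmul_eq (toIcoDiv Real.pi_pos 0 θ)
  have e3 : poi (α (A.act y (kk θ))) z = poi θ z := by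
    rw [← e1, hαX y hy _ hmem.1 hmem.2, e2]
  rw [e3]

theorem isPoisson_of_X0 {m : Measure Y} [IsProbabilityMeasure m] (h : IsPInv A m) {X₀ : Set Y}
    (hX : MeasurableSet X₀) (hm : m X₀ᶜ = 0)
    (h0 : ∀ x ∈ X₀, ∀ g : G, A.act x g ∈ X₀ → g 1 0 = 0) : IsPoisson A (kap A m) := by
  obtain ⟨α, hα, hαX⟩ := exists_angle A hX h0
  exact ⟨α, hα, fun g F hF hb => poisson_of_angle A h hX hm hα hαX g hF hb⟩

end Pool.Agent.MP27775c.DO
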