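import Pool.Agent.Lib.MP_27775c_an_DO.DefE
import Pool.Agent.Lib.MP_27775c_an_DO.PoD

/-!
# MP_27775c_an, project DO, module PoE: exceptional harmonic measures from a set of frames
-/

set_option autoImplicit false

open MeasureTheory Set Filter Topology

namespace Pool.Agent.MP27775c.DO

variable {Y : Type*} [TopologicalSpace Y] [PolishSpace Y] [MeasurableSpace Y] [BorelSpace Y]
  (A : RAct Y)

private theorem pe00 (g h : G) : (g * h) 0 0 = g 0 0 * h 0 0 + g 0 1 * h 1 0 := by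
  simp [Matrix.SpecialLinearGroup.coe_mul, Matrix.mul_apply, Fin.sum_univ_two]

private theorem pe01 (g h : G) : (g * h) 0 1 = g 0 0 * h 0 1 + g 0 1 * h 1 1 := by
  simp [Matrix.SpecialLinearGroup.coe_mul, Matrix.mul_apply, Fin.sum_univ_two]

private theorem pe10 (g h : G) : (g * h) 1 0 = g 1 0 * h 0 0 + g 1 1 * h 1 0 := by
  simp [Matrix.SpecialLinearGroup.coe_mul, Matrix.mul_apply, Fin.sum_univ_two]

private theorem pe11 (g h : G) : (g * h) 1 1 = g 1 0 * h 0 1 + g 1 1 * h 1 1 := by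
  simp [Matrix.SpecialLinearGroup.coe_mul, Matrix.mul_apply, Fin.sum_univ_two]

private theorem pe_eq (α : ℝ) (g : G) :
    poi α (g • UpperHalfPlane.I) =
      1 / ((-Real.sin α * g 0 0 + Real.cos α * g 1 0) ^ 2 +
        (-Real.sin α * g 0 1 + Real.cos α * g 1 1) ^ 2) := by
  have h := poi_eq α g⁻¹
  rwa [inv_inv] at h

private theorem pe_rho {θ θ' ρ : ℝ} {g : G}
    (h1 : -Real.sin θ * g 0 0 + Real.cos θ * g 1 0 = ρ * -Real.sin θ')
    (h2 : -Real.sin θ * g 0 1 + Real.cos θ * g 1 1 = ρ * Real.cos θ') :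
    poi θ (g • UpperHalfPlane.I) = 1 / ρ ^ 2 := by
  rw [pe_eq, h1, h2]
  have h3 := Real.sin_sq_add_cos_sq θ'
  congr 1
  linear_combination ρ ^ 2 * h3

/-- Proof. Every `z` is `h • I` with `h = pp z` (`pp_smul`). By `poi_eq` for the inverse matrices
`poi θ (g • I) = 1 / |v g| ^ 2` and `poi θ (g • h • I) = 1 / |v g h| ^ 2`, `v = (-sin θ, cos θ)`,
and `v g = ρ v'` with `v' = (-sin θ', cos θ')` of length one, so `|v g h| ^ 2 =
|v g| ^ 2 |v' h| ^ 2`. -/
theorem poi_mul {θ θ' ρ : ℝ} {g : G} (hρ : ρ ≠ 0)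
    (h1 : -Real.sin θ * g 0 0 + Real.cos θ * g 1 0 = ρ * -Real.sin θ')
    (h2 : -Real.sin θ * g 0 1 + Real.cos θ * g 1 1 = ρ * Real.cos θ') (z : UpperHalfPlane) :
    poi θ (g • UpperHalfPlane.I) * poi θ' z = poi θ (g • z) := by
  obtain ⟨h, rfl⟩ : ∃ h : G, z = h • UpperHalfPlane.I := ⟨pp z, (pp_smul z).symm⟩
  rw [pe_rho h1 h2, pe_eq θ' h, ← mul_smul, pe_eq θ (g * h)]
  have f1 : -Real.sin θ * (g * h) 0 0 + Real.cos θ * (g * h) 1 0 =
      ρ * (-Real.sin θ' * h 0 0 + Real.cos θ' * h 1 0) := by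
    rw [pe00, pe10]
    linear_combination h 0 0 * h1 + h 1 0 * h2
  have f2 : -Real.sin θ * (g * h) 0 1 + Real.cos θ * (g * h) 1 1 =
      ρ * (-Real.sin θ' * h 0 1 + Real.cos θ' * h 1 1) := by
    rw [pe01, pe11]
    linear_combination h 0 1 * h1 + h 1 1 * h2
  rw [f1, f2, one_div_mul_one_div]
  congr 1
  ring

private theorem pe_per (z : UpperHalfPlane) :
    Function.Periodic (fun α => poi α z) Real.pi := by
  intro α
  simp only [poi]
  rw [Real.cos_add_pi, Real.sin_add_pi]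
  have h : ((-Real.cos α : ℝ) : ℂ) - (z : ℂ) * ((-Real.sin α : ℝ) : ℂ) =
      -((Real.cos α : ℂ) - (z : ℂ) * (Real.sin α : ℂ)) := by
    push_cast
    ring
  rw [h, Complex.normSq_neg]

omit [PolishSpace Y] [MeasurableSpace Y] [BorelSpace Y] in
private theorem pe_act (y : Y) : Function.Periodic (fun θ => A.act y (kk θ)) Real.pi := by
  intro θ
  simp only
  rw [kk_add_pi, A.act_neg]

omit [PolishSpace Y] [MeasurableSpace Y] [BorelSpace Y] in
private theorem pe_angle {X₀ : Set Y} {α : Y → ℝ}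
    (hαX : ∀ x ∈ X₀, ∀ θ : ℝ, 0 ≤ θ → θ < Real.pi → α (A.act x (kk θ)) = θ) {x : Y}
    (hx : x ∈ X₀) (θ : ℝ) : ∃ k : ℤ, α (A.act x (kk θ)) = θ - k • Real.pi := by
  refine ⟨toIcoDiv Real.pi_pos 0 θ, ?_⟩
  have h1 := (pe_act A x).sub_zsmul_eq (x := θ) (toIcoDiv Real.pi_pos 0 θ)
  have h2 := toIcoMod_mem_Ico Real.pi_pos 0 θ
  rw [← h1, self_sub_toIcoDiv_zsmul]
  rw [zero_add] at h2
  exact hαX x hx _ h2.1 h2.2

omit [PolishSpace Y] [MeasurableSpace Y] [BorelSpace Y] in
private theorem pe_back {X₀ : Set Y} {α : Y → ℝ}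
    (hαX : ∀ x ∈ X₀, ∀ θ : ℝ, 0 ≤ θ → θ < Real.pi → α (A.act x (kk θ)) = θ) {x : Y}
    (hx : x ∈ X₀) (θ : ℝ) :
    A.act (A.act x (kk θ)) (kk (-α (A.act x (kk θ)))) = x := by
  obtain ⟨k, hk⟩ := pe_angle A hαX hx θ
  rw [hk, ← A.act_mul, ← kk_add]
  have h1 := (pe_act A x).zsmul k 0
  have h2 : θ + -(θ - k • Real.pi) = 0 + k • Real.pi := by ring
  rw [h2, h1, kk_zero, A.act_one]

private theorem pe_row (θ : ℝ) (g : G) (z : UpperHalfPlane) (θ' : ℝ)
    (h : kk θ * g = pp z * kk θ') :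
    -Real.sin θ * g 0 0 + Real.cos θ * g 1 0 =
      Real.exp (-(Real.log z.im / 2)) * -Real.sin θ' ∧
    -Real.sin θ * g 0 1 + Real.cos θ * g 1 1 =
      Real.exp (-(Real.log z.im / 2)) * Real.cos θ' := by
  have h0 : (kk θ * g) 1 0 = (nn z.re * aa (Real.log z.im) * kk θ') 1 0 := by
    rw [h, pp]
  have h1 : (kk θ * g) 1 1 = (nn z.re * aa (Real.log z.im) * kk θ') 1 1 := by
    rw [h, pp]
  rw [pe10, pe10, pe10, pe11] at h0
  rw [pe11, pe11, pe10, pe11] at h1
  simp [kk, nn, aa] at h0 h1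
  constructor
  · linarith
  · linarith

/-- Proof. Let `α` be as in `exists_angle`, `U' y = U (y · kk (-(α y)))` (measurable by
`meas_joint`). The Poisson identity is `poisson_of_angle`. For `x ∈ X₀` and all real `θ`,
`α (x · kk θ)` is `θ` modulo `π` (`kk_add_pi`, `act_neg`), so `U' (x · kk θ) = U x`; `poi` has
period `π` in the angle. Almost every `y` with respect to `kap A m` is `x · kk θ` with `x ∈ X₀`
(`lintegral_kap` for the indicator function of the measurable set of the `y` with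
`y · kk (-(α y)) ∈ X₀`). For such `y` and `g ∈ G` write `kk θ * g = pp z' * kk θ'` (`iwa`); then
`y · g = (x · pp z') · kk θ'`, `x · pp z' ∈ X₀` by the invariance of `X₀`, so `α (y · g)` is `θ'`
modulo `π`; the second rows give `(-sin θ, cos θ) g = ρ (-sin θ', cos θ')` with `ρ` the lower right
entry of `pp z'` (positive): `poi_mul`. If `poi θ (g • I) = 1` then `ρ ^ 2 = 1`, so `z'` has
imaginary part one, `pp z' = nn s`, and `U' (y · g) = U (x · nn s) = U x = U' y`. If `U'` is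
constant `c` almost everywhere for `kap A m`, then `U x = c` for `m`-almost every `x`. -/
theorem isExc_of_X0 {m : Measure Y} [IsProbabilityMeasure m] (h : IsPInv A m) {X₀ : Set Y}
    {U : Y → ℝ} (hX : MeasurableSet X₀) (hm : m X₀ᶜ = 0)
    (h0 : ∀ x ∈ X₀, ∀ g : G, A.act x g ∈ X₀ → g 1 0 = 0)
    (h1 : ∀ x s, A.act x (nn s) ∈ X₀ ↔ x ∈ X₀) (h2 : ∀ x t, A.act x (aa t) ∈ X₀ ↔ x ∈ X₀)
    (hU : Measurable U) (h01 : ∀ y, 0 ≤ U y ∧ U y ≤ 1)
    (hinv : ∀ y s, U (A.act y (nn s)) = U y) (hc : ¬ ∃ c, ∀ᵐ y ∂m, U y = c) :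
    IsExc A (kap A m) := by
  obtain ⟨α, hα, hαX⟩ := exists_angle A hX h0
  set U' : Y → ℝ := fun y => U (A.act y (kk (-α y))) with hU'
  have hkm : Measurable fun y => A.act y (kk (-α y)) := by
    have h3 := meas_joint A (c := fun r : ℝ => kk (-r)) (continuous_kk.comp continuous_neg)
    exact h3.comp (measurable_id.prodMk hα)
  have hU'm : Measurable U' := hU.comp hkm
  have hU'x : ∀ x ∈ X₀, ∀ θ, U' (A.act x (kk θ)) = U x := by
    intro x hx θ
    simp only [hU']
    rw [pe_back A hαX hx θ]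
  set E : Set Y := {y | A.act y (kk (-α y)) ∈ X₀} with hE
  have hEm : MeasurableSet E := hkm hX
  have hEa : ∀ᵐ y ∂(kap A m), y ∈ E := by
    have h4 : kap A m Eᶜ = 0 := by
      have h5 := lintegral_kap A m (F := Eᶜ.indicator 1) (measurable_one.indicator hEm.compl)
      rw [lintegral_indicator_one hEm.compl] at h5
      rw [h5]
      have h6 : ∀ θ, ∫⁻ y, Eᶜ.indicator (1 : Y → ENNReal) (A.act y (kk θ)) ∂m = 0 := by
        intro θ
        refine (lintegral_eq_zero_iff' (f := fun y => Eᶜ.indicator (1 : Y → ENNReal)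
          (A.act y (kk θ))) ((measurable_one.indicator hEm.compl).comp
          (meas_act A (kk θ))).aemeasurable).2 ?_
        filter_upwards [measure_eq_zero_iff_ae_notMem.1 hm] with x hx
        have hx' : x ∈ X₀ := by simpa using hx
        have h7 : A.act x (kk θ) ∈ E := by
          simp only [hE, mem_ofPred_eq]
          rw [pe_back A hαX hx' θ]
          exact hx'
        rw [indicator_of_notMem (by simpa using h7)]
        rfl
      simp only [h6, lintegral_zero]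
    filter_upwards [measure_eq_zero_iff_ae_notMem.1 h4] with y hy
    simpa using hy
  have hkey : ∀ y ∈ E, ∀ g : G, ∃ (x : Y) (z : UpperHalfPlane) (θ' : ℝ) (k : ℤ), x ∈ X₀ ∧
      y = A.act x (kk (α y)) ∧ A.act x (pp z) ∈ X₀ ∧
      A.act y g = A.act (A.act x (pp z)) (kk θ') ∧ α (A.act y g) = θ' - k • Real.pi ∧
      -Real.sin (α y) * g 0 0 + Real.cos (α y) * g 1 0 =
        Real.exp (-(Real.log z.im / 2)) * -Real.sin θ' ∧
      -Real.sin (α y) * g 0 1 + Real.cos (α y) * g 1 1 =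
        Real.exp (-(Real.log z.im / 2)) * Real.cos θ' := by
    intro y hy g
    obtain ⟨θ', hθ'⟩ := iwa (kk (α y) * g)
    set z := (kk (α y) * g) • UpperHalfPlane.I with hz
    have e1 : y = A.act (A.act y (kk (-α y))) (kk (α y)) := by
      rw [← A.act_mul, ← kk_add, neg_add_cancel, kk_zero, A.act_one]
    have hx' : A.act (A.act y (kk (-α y))) (pp z) ∈ X₀ := by
      rw [pp, A.act_mul, h2, h1]
      exact hy
    have e2 : A.act y g = A.act (A.act (A.act y (kk (-α y))) (pp z)) (kk θ') := by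
      rw [← A.act_mul, ← hθ', A.act_mul, ← e1]
    obtain ⟨k, hk⟩ := pe_angle A hαX hx' θ'
    have hr := pe_row (α y) g z θ' hθ'
    exact ⟨A.act y (kk (-α y)), z, θ', k, hy, e1, hx', e2, by rw [e2, hk], hr.1, hr.2⟩
  refine ⟨α, U', hα, hU'm, fun y => h01 _, fun g F hF hb =>
    poisson_of_angle A h hX hm hα hαX g hF hb, ?_, ?_, ?_⟩
  · filter_upwards [hEa] with y hy g z
    obtain ⟨x, z', θ', k, -, -, -, -, ha, hr1, hr2⟩ := hkey y hy g
    have h3 := (pe_per z).sub_zsmul_eq (x := θ') k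
    rw [ha, h3]
    exact poi_mul (Real.exp_pos _).ne' hr1 hr2 z
  · filter_upwards [hEa] with y hy g hg
    obtain ⟨x, z', θ', k, hx, hyx, hx', hyg, -, hr1, hr2⟩ := hkey y hy g
    rw [pe_rho hr1 hr2] at hg
    have hρ := Real.exp_pos (-(Real.log z'.im / 2))
    have h3 : Real.exp (-(Real.log z'.im / 2)) ^ 2 = 1 := by
      rw [div_eq_one_iff_eq (by positivity)] at hg
      exact hg.symm
    have h4 : Real.exp (-(Real.log z'.im / 2)) = 1 := by
      nlinarith
    have h5 : Real.log z'.im = 0 := by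
      rw [Real.exp_eq_one_iff] at h4
      linarith
    have h6 : pp z' = nn z'.re := by
      rw [pp, h5, aa_zero, mul_one]
    calc U' (A.act y g) = U' (A.act (A.act x (pp z')) (kk θ')) := by rw [hyg]
      _ = U (A.act x (pp z')) := hU'x _ hx' _
      _ = U x := by rw [h6, hinv]
      _ = U' (A.act x (kk (α y))) := (hU'x _ hx _).symm
      _ = U' y := by rw [← hyx]
  · rintro ⟨c, hcc⟩
    apply hc
    refine ⟨c, ?_⟩
    have hSm : MeasurableSet {y | U' y ≠ c} :=
      (hU'm (measurableSet_singleton c)).compl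
    have h4 : kap A m {y | U' y ≠ c} = 0 := by
      rwa [ae_iff] at hcc
    have h5 := lintegral_kap A m (F := {y | U' y ≠ c}.indicator 1)
      (measurable_one.indicator hSm)
    rw [lintegral_indicator_one hSm, h4] at h5
    have hmj : Measurable fun p : Y × ℝ => ({y | U' y ≠ c}.indicator (1 : Y → ENNReal))
        (A.act p.1 (kk p.2)) :=
      (measurable_one.indicator hSm).comp (meas_joint A continuous_kk)
    have hm2 : Measurable fun θ : ℝ => ∫⁻ y, ({y | U' y ≠ c}.indicator (1 : Y → ENNReal))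
        (A.act y (kk θ)) ∂m := hmj.lintegral_prod_left'
    have h6 := (lintegral_eq_zero_iff hm2).1 h5.symm
    obtain ⟨θ, hθ⟩ := h6.exists
    have hθ := (lintegral_eq_zero_iff (f := fun y => {y | U' y ≠ c}.indicator
      (1 : Y → ENNReal) (A.act y (kk θ))) ((measurable_one.indicator hSm).comp
      (meas_act A (kk θ)))).1 hθ
    filter_upwards [hθ, measure_eq_zero_iff_ae_notMem.1 hm] with x hx1 hx2
    have hx' : x ∈ X₀ := by simpa using hx2
    by_contra hne
    have h8 : A.act x (kk θ) ∈ {y | U' y ≠ c} := by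
      simp only [mem_ofPred_eq]
      rw [hU'x x hx' θ]
      exact hne
    simp only [Pi.zero_apply] at hx1
    rw [indicator_of_mem h8] at hx1
    simp at hx1

end Pool.Agent.MP27775c.DO
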