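import Pool.Agent.Lib.MP_27775c_an_DO.PoA

/-!
# MP_27775c_an, project DO, module PoB: translation of the averaged measure
-/

set_option autoImplicit false

open MeasureTheory Set Filter Topology

namespace Pool.Agent.MP27775c.DO

variable {Y : Type*} [TopologicalSpace Y] [PolishSpace Y] [MeasurableSpace Y] [BorelSpace Y]
  (A : RAct Y)

private theorem poB_e10 (z : UpperHalfPlane) (τ : ℝ) :
    (pp z * kk τ) 1 0 = Real.exp (-(Real.log z.im / 2)) * -Real.sin τ := by
  simp [pp, nn, aa, kk, Matrix.mul_apply, Fin.sum_univ_two]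

private theorem poB_e11 (z : UpperHalfPlane) (τ : ℝ) :
    (pp z * kk τ) 1 1 = Real.exp (-(Real.log z.im / 2)) * Real.cos τ := by
  simp [pp, nn, aa, kk, Matrix.mul_apply, Fin.sum_univ_two]

private theorem poB_f10 (θ : ℝ) (g : G) :
    (kk θ * g) 1 0 = -Real.sin θ * g 0 0 + Real.cos θ * g 1 0 := by
  simp [kk, Matrix.mul_apply, Fin.sum_univ_two]

private theorem poB_f11 (θ : ℝ) (g : G) :
    (kk θ * g) 1 1 = -Real.sin θ * g 0 1 + Real.cos θ * g 1 1 := by
  simp [kk, Matrix.mul_apply, Fin.sum_univ_two]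

private theorem poB_meas (m : Measure Y) [IsProbabilityMeasure m] {F : Y → ℝ}
    (hF : Measurable F) : Measurable fun θ : ℝ => ∫ y, F (A.act y (kk θ)) ∂m := by
  have hj : Measurable fun p : Y × ℝ => A.act p.1 (kk p.2) := meas_joint A continuous_kk
  have hs : StronglyMeasurable fun p : ℝ × Y => F (A.act p.2 (kk p.1)) :=
    (hF.comp (hj.comp measurable_swap)).stronglyMeasurable
  exact (hs.integral_prod_right' (ν := m)).measurable

/-- Translation of the averaged measure.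

Proof. `integral_kap`: `∫ F (y · g) ∂(kap A m) = ∫ θ, ∫ y, F (y · (kk θ * g)) ∂m ∂circ`. By `iwa`
`kk θ * g = pp z * kk (τ θ)`; the second row of `kk θ * g` is `(-sin θ, cos θ) g`, and the second
row of
`pp z * kk τ` is `ρ (-sin τ, cos τ)`, `ρ ≠ 0` the lower right entry of `pp z`. By the invariance
of `m`
(`tr_pp`) the inner integral is `Φ (τ θ)`, `Φ θ = ∫ y, F (y · kk θ) ∂m`, periodic with period `π`
by
`kk_add_pi`, `act_neg`. Use `circ_subst`. -/
theorem integral_kap_act {m : Measure Y} [IsProbabilityMeasure m] (h : IsPInv A m) (g : G)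
    {F : Y → ℝ} (hF : Measurable F) (hb : ∃ C, ∀ y, |F y| ≤ C) :
    ∫ y, F (A.act y g) ∂(kap A m) =
      ∫ θ, (∫ y, F (A.act y (kk θ)) ∂m) * poi θ (g⁻¹ • UpperHalfPlane.I) ∂circ := by
  obtain ⟨C, hC⟩ := hb
  choose τ hτ using fun θ : ℝ => iwa (kk θ * g)
  rw [integral_kap A m (F := fun y => F (A.act y g)) (hF.comp (meas_act A g))
    ⟨C, fun y => hC _⟩]
  have h1 : ∀ θ : ℝ, ∫ y, F (A.act (A.act y (kk θ)) g) ∂m =
      ∫ y, F (A.act y (kk (τ θ))) ∂m := by
    intro θ
    have h2 : ∀ y, A.act (A.act y (kk θ)) g =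
        A.act (A.act y (pp ((kk θ * g) • UpperHalfPlane.I))) (kk (τ θ)) := by
      intro y
      rw [← A.act_mul, ← A.act_mul, ← hτ θ]
    simp only [h2]
    rw [← integral_tr A m _ fun y => F (A.act y (kk (τ θ))), tr_pp A h]
  simp only [h1]
  refine circ_subst g (Φ := fun θ => ∫ y, F (A.act y (kk θ)) ∂m) (poB_meas A m hF)
    ⟨C, fun θ => ?_⟩ (fun θ => ?_) (τ := τ) fun θ => ?_
  · have h3 := norm_integral_le_of_norm_le_const (μ := m) (C := C)
      (f := fun y => F (A.act y (kk θ))) (Eventually.of_forall fun y => hC _)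
    simpa using h3
  · show ∫ y, F (A.act y (kk (θ + Real.pi))) ∂m = ∫ y, F (A.act y (kk θ)) ∂m
    simp only [kk_add_pi, A.act_neg]
  · refine ⟨Real.exp (-(Real.log ((kk θ * g) • UpperHalfPlane.I).im / 2)),
      (Real.exp_pos _).ne', ?_, ?_⟩
    · rw [← poB_f10, ← poB_e10, ← hτ θ]
    · rw [← poB_f11, ← poB_e11, ← hτ θ]

end Pool.Agent.MP27775c.DO
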