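import Pool.Agent.Lib.MP_27775c_an_DO.XA

/-!
# MP_27775c_an, project DO, module XB: constancy
-/

set_option autoImplicit false

open MeasureTheory Set Filter Topology

namespace Pool.Agent.MP27775c.DO

variable {Y : Type*} [TopologicalSpace Y] [PolishSpace Y] [MeasurableSpace Y] [BorelSpace Y]
  (A : RAct Y)

private theorem xb_meas_orb {U : Y → ℝ} (hU : Measurable U) (f : ℝ × ℝ → ℝ)
    (hf : Continuous f) (k : ℝ) :
    Measurable fun p : Y × (ℝ × ℝ) => U (A.act (A.act p.1 (aa (f p.2))) (aa (-k))) := by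
  refine hU.comp (Continuous.measurable ?_)
  have h1 : Continuous fun p : Y × (ℝ × ℝ) => A.act p.1 (aa (f p.2)) :=
    A.cont.comp (continuous_fst.prodMk (continuous_aa.comp (hf.comp continuous_snd)))
  exact A.cont.comp (h1.prodMk continuous_const)

private theorem xb_meas_md2 {U : Y → ℝ} (hU : Measurable U) (n : ℕ) :
    Measurable fun p : Y × (ℝ × ℝ) => md2 A U p.1 p.1 p.2 n := by
  unfold md2 mdif
  refine Measurable.const_mul (Finset.measurable_sum _ fun k _ => ?_) _
  have h1 := xb_meas_orb A hU Prod.fst continuous_fst (k : ℝ)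
  have h2 := xb_meas_orb A hU Prod.snd continuous_snd (k : ℝ)
  exact (h1.sub h2).norm

private theorem xb_meas_set {U : Y → ℝ} (hU : Measurable U) :
    MeasurableSet {p : Y × (ℝ × ℝ) | Tendsto (md2 A U p.1 p.1 p.2) atTop (𝓝 0)} :=
  measurableSet_tendsto (f := fun n (p : Y × (ℝ × ℝ)) => md2 A U p.1 p.1 p.2 n) (𝓝 (0 : ℝ))
    fun n => xb_meas_md2 A hU n

private theorem xb_dif_le {U : Y → ℝ} (h01 : ∀ y, 0 ≤ U y ∧ U y ≤ 1) (x y : Y) :
    |U x - U y| ≤ 1 := by
  have h1 := h01 x
  have h2 := h01 y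
  rw [abs_le]
  constructor <;> linarith

private theorem xb_mdif_nonneg (U : Y → ℝ) (x y : Y) (n : ℕ) : 0 ≤ mdif A U x y n := by
  unfold mdif
  exact mul_nonneg (by positivity) (Finset.sum_nonneg fun _ _ => abs_nonneg _)

private theorem xb_mdif_le {U : Y → ℝ} (h01 : ∀ y, 0 ≤ U y ∧ U y ≤ 1) (x y : Y) (n : ℕ) :
    mdif A U x y n ≤ 1 := by
  unfold mdif
  rcases Nat.eq_zero_or_pos n with hn | hn
  · subst hn
    simp
  · have hn' : (0 : ℝ) < n := by exact_mod_cast hn
    have h1 : ∑ k ∈ Finset.range n,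
        |U (A.act x (aa (-(k : ℝ)))) - U (A.act y (aa (-(k : ℝ))))| ≤ (n : ℝ) := by
      calc _ ≤ ∑ _k ∈ Finset.range n, (1 : ℝ) := Finset.sum_le_sum fun k _ => xb_dif_le h01 _ _
        _ = (n : ℝ) := by simp
    rw [one_div, inv_mul_le_iff₀ hn', mul_one]
    exact h1

/-- the integral of the mean difference does not depend on the length -/
private theorem xb_integral_md2 {m : Measure Y} [IsProbabilityMeasure m] (h : IsPInv A m)
    {U : Y → ℝ} (hU : Measurable U) (h01 : ∀ y, 0 ≤ U y ∧ U y ≤ 1) (q : ℝ × ℝ) (n : ℕ)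
    (hn : 0 < n) :
    ∫ x, md2 A U x x q n ∂m = ∫ x, |U (A.act x (aa q.1)) - U (A.act x (aa q.2))| ∂m := by
  have hn' : (0 : ℝ) < n := by exact_mod_cast hn
  have hmeas : ∀ k : ℕ, Measurable fun x : Y =>
      |U (A.act (A.act x (aa q.1)) (aa (-(k : ℝ)))) -
        U (A.act (A.act x (aa q.2)) (aa (-(k : ℝ))))| := fun k => by
    have h1 := (hU.comp (meas_act A (aa (-(k : ℝ))))).comp (meas_act A (aa q.1))
    have h2 := (hU.comp (meas_act A (aa (-(k : ℝ))))).comp (meas_act A (aa q.2))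
    exact (h1.sub h2).norm
  have hint : ∀ k : ℕ, Integrable (fun x : Y =>
      |U (A.act (A.act x (aa q.1)) (aa (-(k : ℝ)))) -
        U (A.act (A.act x (aa q.2)) (aa (-(k : ℝ))))|) m := fun k => by
    refine Integrable.of_bound (hmeas k).aestronglyMeasurable 1 (Eventually.of_forall fun x => ?_)
    rw [Real.norm_eq_abs, abs_abs]
    exact xb_dif_le h01 _ _
  have hone : ∀ k : ℕ, ∫ x, |U (A.act (A.act x (aa q.1)) (aa (-(k : ℝ)))) -
      U (A.act (A.act x (aa q.2)) (aa (-(k : ℝ))))| ∂m =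
      ∫ x, |U (A.act x (aa q.1)) - U (A.act x (aa q.2))| ∂m := fun k => by
    have h1 : ∀ t : ℝ, ∀ x : Y, A.act (A.act x (aa t)) (aa (-(k : ℝ))) =
        A.act (A.act x (aa (-(k : ℝ)))) (aa t) := fun t x => by
      rw [← A.act_mul, ← A.act_mul, ← aa_add, ← aa_add, add_comm]
    simp only [h1]
    have h2 := integral_tr A m (aa (-(k : ℝ)))
      (fun y => |U (A.act y (aa q.1)) - U (A.act y (aa q.2))|)
    rw [h.2] at h2
    exact h2.symm
  unfold md2 mdif
  rw [integral_const_mul, integral_finset_sum _ fun k _ => hint k]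
  simp only [hone]
  rw [Finset.sum_const, Finset.card_range, nsmul_eq_mul]
  field_simp

private theorem xb_ae_pair {m : Measure Y} [IsProbabilityMeasure m] (h : IsPInv A m)
    {U : Y → ℝ} (hU : Measurable U) (h01 : ∀ y, 0 ≤ U y ∧ U y ≤ 1) (q : ℝ × ℝ)
    (hq : ∀ᵐ x ∂m, Tendsto (md2 A U x x q) atTop (𝓝 0)) :
    ∀ᵐ x ∂m, U (A.act x (aa q.1)) = U (A.act x (aa q.2)) := by
  have h1 : Tendsto (fun n : ℕ => ∫ x, md2 A U x x q n ∂m) atTop (𝓝 (∫ _x, (0 : ℝ) ∂m)) := by
    refine tendsto_integral_of_dominated_convergence (fun _ => (1 : ℝ)) (fun n => ?_)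
      (integrable_const _) (fun n => Eventually.of_forall fun x => ?_) hq
    · have h2 := (xb_meas_md2 A hU n).comp (measurable_prodMk_right (y := q))
      exact h2.aestronglyMeasurable
    · have h2 := xb_mdif_nonneg A U (A.act x (aa q.1)) (A.act x (aa q.2)) n
      have h3 := xb_mdif_le A h01 (A.act x (aa q.1)) (A.act x (aa q.2)) n
      unfold md2
      rw [Real.norm_eq_abs, abs_of_nonneg h2]
      exact h3
  have h2 : Tendsto (fun n : ℕ => ∫ x, md2 A U x x q n ∂m) atTop
      (𝓝 (∫ x, |U (A.act x (aa q.1)) - U (A.act x (aa q.2))| ∂m)) := by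
    refine tendsto_const_nhds.congr' ?_
    filter_upwards [eventually_gt_atTop 0] with n hn
    exact (xb_integral_md2 A h hU h01 q n hn).symm
  have h3 := tendsto_nhds_unique h2 h1
  rw [integral_zero] at h3
  have hm : Measurable fun x : Y => |U (A.act x (aa q.1)) - U (A.act x (aa q.2))| :=
    ((hU.comp (meas_act A (aa q.1))).sub (hU.comp (meas_act A (aa q.2)))).norm
  have hi : Integrable (fun x : Y => |U (A.act x (aa q.1)) - U (A.act x (aa q.2))|) m := by
    refine Integrable.of_bound hm.aestronglyMeasurable 1 (Eventually.of_forall fun x => ?_)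
    rw [Real.norm_eq_abs, abs_abs]
    exact xb_dif_le h01 _ _
  have h4 := (integral_eq_zero_iff_of_nonneg (fun x => abs_nonneg _) hi).1 h3
  filter_upwards [h4] with x hx
  have h5 : |U (A.act x (aa q.1)) - U (A.act x (aa q.2))| = 0 := hx
  exact sub_eq_zero.1 (abs_eq_zero.1 h5)

/-- If almost every point is in `X3` then `U` is almost everywhere constant.

Proof. For almost every `(x, q)` (Fubini) `md2 A U x x q n → 0` as `n → ∞`, bounded by one; so for
almost
every `q` the integral over `x` tends to zero; but it is `∫ |U (x · aa q.1) - U (x · aa q.2)| ∂m`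
for
every `n ≥ 1` (invariance of `m` under `aa (-k)`). So for almost every `q`, `U (x · aa q.1) = U (x
· aa q.2)`
for almost every `x`, so `U (x · aa δ) = U x` for almost every `δ` (`δ = q.1 - q.2`), and the set
of such
`δ` is a group of full measure, hence everything. So the sets `{U > c}` are invariant under the
triangular group mod `m`: they have measure zero or one (`IsPErg`), so `U` is constant. -/
theorem const_of_X3 {m : Measure Y} [IsProbabilityMeasure m] (h : IsPInv A m) (he : IsPErg A m)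
    {Ω : Set Y} (hΩ : MeasurableSet Ω) {U : Y → ℝ} (hU : Measurable U)
    (h01 : ∀ y, 0 ≤ U y ∧ U y ≤ 1) (hinv : ∀ y s, U (A.act y (nn s)) = U y)
    (h3 : m (X3 A Ω U)ᶜ = 0) : ∃ c, ∀ᵐ y ∂m, U y = c := by
  have h4 : ∀ᵐ x ∂m, ∀ᵐ q : ℝ × ℝ, Tendsto (md2 A U x x q) atTop (𝓝 0) := by
    have h5 : ∀ᵐ x ∂m, x ∈ X3 A Ω U := by
      rw [ae_iff]
      exact h3
    filter_upwards [h5] with x hx
    exact hx.2
  have h5 : ∀ᵐ q : ℝ × ℝ, ∀ᵐ x ∂m, Tendsto (md2 A U x x q) atTop (𝓝 0) :=
    (Measure.ae_ae_comm (xb_meas_set A hU)).1 h4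
  have h6 : ∀ᵐ q : ℝ × ℝ, ∀ᵐ x ∂m, U (A.act x (aa q.1)) = U (A.act x (aa q.2)) := by
    filter_upwards [h5] with q hq
    exact xb_ae_pair A h hU h01 q hq
  have hmp : ∀ t : ℝ, MeasurePreserving (fun y => A.act y (aa t)) m m := fun t =>
    mp_of_tr A (h.2 t)
  have h7 : ∀ᵐ q : ℝ × ℝ, ∀ᵐ x ∂m, U (A.act x (aa (q.1 - q.2))) = U x := by
    filter_upwards [h6] with q hq
    have h8 := (hmp (-q.2)).quasiMeasurePreserving.ae hq
    filter_upwards [h8] with x hx
    rw [← A.act_mul, ← A.act_mul, ← aa_add, ← aa_add, neg_add_cancel, aa_zero, A.act_one] at hx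
    rw [sub_eq_neg_add]
    exact hx
  have h8 : ∀ᵐ s : ℝ, ∀ᵐ t : ℝ, ∀ᵐ x ∂m, U (A.act x (aa (s - t))) = U x :=
    Measure.ae_ae_of_ae_prod h7
  obtain ⟨s₀, hs₀⟩ := h8.exists
  have h9 : ∀ᵐ t : ℝ, ∀ᵐ x ∂m, U (A.act x (aa t)) = U x := by
    have h10 := (Measure.measurePreserving_sub_left volume s₀).quasiMeasurePreserving.ae hs₀
    filter_upwards [h10] with t ht
    rw [sub_sub_cancel] at ht
    exact ht
  have h10 : ∀ t : ℝ, ∀ᵐ x ∂m, U (A.act x (aa t)) = U x := by
    intro t
    have h11 := (Measure.measurePreserving_sub_left volume t).quasiMeasurePreserving.ae h9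
    obtain ⟨δ, h12, h13⟩ := (h9.and h11).exists
    have h14 := (hmp δ).quasiMeasurePreserving.ae h13
    filter_upwards [h12, h14] with x hx1 hx2
    rw [← A.act_mul, ← aa_add, add_sub_cancel] at hx2
    rw [hx2, hx1]
  obtain ⟨c, hc⟩ := exists_eventuallyEq_const_of_forall_separating (l := ae m) (f := U)
    MeasurableSet (fun S hS => by
      have hE : MeasurableSet (U ⁻¹' S) := hU hS
      have hn : ∀ s, AInv A m (U ⁻¹' S) (nn s) := by
        intro s
        unfold AInv
        have h11 : (fun y => A.act y (nn s)) ⁻¹' (U ⁻¹' S) = U ⁻¹' S := by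
          ext y
          simp only [mem_preimage, hinv]
        rw [h11, symmDiff_self]
        exact measure_empty
      have ha : ∀ t, AInv A m (U ⁻¹' S) (aa t) := by
        intro t
        unfold AInv
        rw [measure_symmDiff_eq_zero_iff]
        filter_upwards [h10 t] with y hy
        apply propext
        change U (A.act y (aa t)) ∈ S ↔ U y ∈ S
        rw [hy]
      rcases he _ hE hn ha with h11 | h11
      · right
        have h12 : ∀ᵐ y ∂m, y ∉ U ⁻¹' S := by
          rw [ae_iff]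
          have h13 : {a | ¬a ∉ U ⁻¹' S} = U ⁻¹' S := by
            ext a
            simp
          rw [h13]
          exact h11
        exact h12
      · left
        have h12 : ∀ᵐ y ∂m, y ∈ U ⁻¹' S := by
          rw [ae_iff]
          exact h11
        exact h12)
  exact ⟨c, hc⟩

end Pool.Agent.MP27775c.DO
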