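import Pool.Agent.Lib.MP_27775c_an_DO.XB

/-!
# MP_27775c_an, project DO, module XC: one frame direction per leaf
-/

set_option autoImplicit false

open MeasureTheory Set Filter Topology

namespace Pool.Agent.MP27775c.DO

variable {Y : Type*} [TopologicalSpace Y] [PolishSpace Y] [MeasurableSpace Y] [BorelSpace Y]
  (A : RAct Y)

/-- Proof. `exists_U` gives `U`, `exists_Om` gives `Ω`. `X3 A Ω U` is measurable and strictly
invariant under the triangular group (`X3_meas`, `X3_nn`, `X3_aa`), so `m (X3) = 0` or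
`m (X3ᶜ) = 0` (`IsPErg`); the second is impossible by `const_of_X3`. Let `X₀ = OmP A Ω \ X3 A Ω U`
(invariant by `OmP_nn`, `OmP_aa`, `X3_nn`, `X3_aa`; of full measure by `OmP_full`).
If `x, x · g ∈ X₀` and `g 1 0 ≠ 0` then `x ∈ X3` (`pair_self`), a contradiction. -/
theorem exists_X0S {m : Measure Y} [IsProbabilityMeasure m] (h : IsPInv A m) (he : IsPErg A m)
    (hn : ¬ IsNErg A m) : ∃ (X₀ : Set Y) (U : Y → ℝ), MeasurableSet X₀ ∧ m X₀ᶜ = 0 ∧
      (∀ x ∈ X₀, ∀ g : G, A.act x g ∈ X₀ → g 1 0 = 0) ∧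
      (∀ x s, A.act x (nn s) ∈ X₀ ↔ x ∈ X₀) ∧ (∀ x t, A.act x (aa t) ∈ X₀ ↔ x ∈ X₀) ∧
      Measurable U ∧ (∀ y, 0 ≤ U y ∧ U y ≤ 1) ∧ (∀ y s, U (A.act y (nn s)) = U y) ∧
      ¬ ∃ c, ∀ᵐ y ∂m, U y = c := by
  obtain ⟨U, hU, h01, hinv, hnc⟩ := exists_U A h.1 hn
  obtain ⟨Ω, hΩ, h0, hH⟩ := exists_Om A h.2 hU h01
  have hm3 : MeasurableSet (X3 A Ω U) := X3_meas A hΩ hU
  have hi1 : ∀ s, AInv A m (X3 A Ω U) (nn s) := by
    intro s
    have h1 : (fun y => A.act y (nn s)) ⁻¹' (X3 A Ω U) = X3 A Ω U := by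
      ext x
      exact X3_nn A hΩ hinv x s
    rw [AInv, h1, symmDiff_self]
    exact measure_empty
  have hi2 : ∀ t, AInv A m (X3 A Ω U) (aa t) := by
    intro t
    have h1 : (fun y => A.act y (aa t)) ⁻¹' (X3 A Ω U) = X3 A Ω U := by
      ext x
      exact X3_aa A hΩ x t
    rw [AInv, h1, symmDiff_self]
    exact measure_empty
  have h3 : m (X3 A Ω U) = 0 := by
    rcases he _ hm3 hi1 hi2 with h3 | h3
    · exact h3
    · exact (hnc (const_of_X3 A h he hΩ hU h01 hinv h3)).elim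
  refine ⟨OmP A Ω \ X3 A Ω U, U, (OmP_meas A hΩ).diff hm3, ?_, ?_, ?_, ?_, hU, h01, hinv, hnc⟩
  · rw [sdiff_eq, compl_inter, compl_compl]
    exact measure_union_null (OmP_full A h hΩ h0) h3
  · intro x hx g hg
    by_contra hc
    exact hx.2 ⟨hx.1, pair_self A hΩ hU hinv hH hx.1 hg.1 hc⟩
  · intro x s
    exact and_congr (OmP_nn A hΩ x s) (not_congr (X3_nn A hΩ hinv x s))
  · intro x t
    exact and_congr (OmP_aa A hΩ x t) (not_congr (X3_aa A hΩ x t))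

theorem exists_X0 {m : Measure Y} [IsProbabilityMeasure m] (h : IsPInv A m) (he : IsPErg A m)
    (hn : ¬ IsNErg A m) : ∃ X₀ : Set Y, MeasurableSet X₀ ∧ m X₀ᶜ = 0 ∧
      ∀ x ∈ X₀, ∀ g : G, A.act x g ∈ X₀ → g 1 0 = 0 := by
  obtain ⟨X₀, U, h1, h2, h3, -⟩ := exists_X0S A h he hn
  exact ⟨X₀, h1, h2, h3⟩

end Pool.Agent.MP27775c.DO
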