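import Pool.Agent.Lib.MP_27775c_an_DO.Lift
import Pool.Agent.Lib.MP_27775c_an_DO.XX
import Pool.Agent.Lib.MP_27775c_an_DO.Poi
import Pool.Agent.Lib.MP_27775c_an_DO.PoE

/-!
# MP_27775c_an, project DO, module AbG: the lift is ergodic for the unipotent flow
-/

set_option autoImplicit false

open MeasureTheory Set Filter Topology

namespace Pool.Agent.MP27775c.DO

variable {Y : Type*} [TopologicalSpace Y] [PolishSpace Y] [MeasurableSpace Y] [BorelSpace Y]
  (A : RAct Y)

/-- If `μ` is not exceptional then its lift is ergodic for the unipotent flow. -/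
theorem exists_goodE {μ : Measure Y} [IsProbabilityMeasure μ] (h : IsHarm A μ) (he : IsExt A μ)
    (hP : ¬ IsExc A μ) : ∃ m : Measure Y, IsProbabilityMeasure m ∧ IsPInv A m ∧
      kap A m = μ ∧ IsNErg A m := by
  obtain ⟨m, hm, hp, hk, hE⟩ := exists_lift A h he
  refine ⟨m, hm, hp, hk, ?_⟩
  by_contra hn
  obtain ⟨X₀, U, hX, h0, h1, h2, h3, h4, h5, h6, h7⟩ := exists_X0S A hp hE hn
  apply hP
  rw [← hk]
  exact isExc_of_X0 A hp hX h0 h1 h2 h3 h4 h5 h6 h7

theorem isExc_isPoisson {μ : Measure Y} (h : IsExc A μ) : IsPoisson A μ := by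
  obtain ⟨α, U, hα, -, -, hF, -⟩ := h
  exact ⟨α, hα, hF⟩

/-- If `μ` is not of Poisson type then its lift is ergodic for the unipotent flow. -/
theorem exists_good {μ : Measure Y} [IsProbabilityMeasure μ] (h : IsHarm A μ) (he : IsExt A μ)
    (hP : ¬ IsPoisson A μ) : ∃ m : Measure Y, IsProbabilityMeasure m ∧ IsPInv A m ∧
      kap A m = μ ∧ IsNErg A m :=
  exists_goodE A h he fun hE => hP (isExc_isPoisson A hE)

end Pool.Agent.MP27775c.DO
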