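import Pool.Agent.Lib.MP_27775c_an_DO.Mat

/-!
# MP_27775c_an, project DO, module Act: basic lemmas on the action
-/

set_option autoImplicit false

open MeasureTheory Set Filter Topology

namespace Pool.Agent.MP27775c.DO

variable {Y : Type*} [TopologicalSpace Y] (A : RAct Y)

theorem cont_act (g : G) : Continuous fun y => A.act y g :=
  A.cont.comp (continuous_id.prodMk continuous_const)

/-- The action of `g` as a homeomorphism. -/
def homeo (g : G) : Y ≃ₜ Y where
  toFun y := A.act y g
  invFun y := A.act y g⁻¹
  left_inv y := by
    change A.act (A.act y g) g⁻¹ = y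
    rw [← A.act_mul, mul_inv_cancel, A.act_one]
  right_inv y := by
    change A.act (A.act y g⁻¹) g = y
    rw [← A.act_mul, inv_mul_cancel, A.act_one]
  continuous_toFun := cont_act A g
  continuous_invFun := cont_act A g⁻¹

variable [MeasurableSpace Y] [BorelSpace Y]

theorem meas_act (g : G) : Measurable fun y => A.act y g :=
  (cont_act A g).measurable

theorem tr_mul (m : Measure Y) (g h : G) : tr A m (g * h) = tr A (tr A m g) h := by
  unfold tr
  rw [Measure.map_map (meas_act A h) (meas_act A g)]
  congr 1
  funext y
  exact A.act_mul y g h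

theorem tr_one (m : Measure Y) : tr A m 1 = m := by
  unfold tr
  simp only [A.act_one]
  exact Measure.map_id

theorem tr_neg (m : Measure Y) (g : G) : tr A m (-g) = tr A m g := by
  unfold tr
  simp only [A.act_neg]

theorem tr_prob (m : Measure Y) [IsProbabilityMeasure m] (g : G) :
    IsProbabilityMeasure (tr A m g) :=
  Measure.isProbabilityMeasure_map (meas_act A g).aemeasurable

/-- Change of variables (no measurability is needed, the action is a homeomorphism). -/
theorem integral_tr (m : Measure Y) (g : G) (F : Y → ℝ) :
    ∫ y, F y ∂(tr A m g) = ∫ y, F (A.act y g) ∂m :=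
  (homeo A g).measurableEmbedding.integral_map F

theorem lintegral_tr (m : Measure Y) (g : G) (F : Y → ENNReal) :
    ∫⁻ y, F y ∂(tr A m g) = ∫⁻ y, F (A.act y g) ∂m :=
  (homeo A g).measurableEmbedding.lintegral_map F

theorem mp_of_tr {m : Measure Y} {g : G} (h : tr A m g = m) :
    MeasurePreserving (fun y => A.act y g) m m :=
  ⟨meas_act A g, h⟩

/-- Products of triangular matrices preserve a measure which is invariant under the triangular
group. -/
theorem tr_nn_aa {m : Measure Y} (h : IsPInv A m) (s t : ℝ) : tr A m (nn s * aa t) = m := by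
  rw [tr_mul, h.1, h.2]

theorem tr_aa_nn {m : Measure Y} (h : IsPInv A m) (s t : ℝ) : tr A m (aa t * nn s) = m := by
  rw [tr_mul, h.2, h.1]

theorem tr_pp {m : Measure Y} (h : IsPInv A m) (z : UpperHalfPlane) : tr A m (pp z) = m :=
  tr_nn_aa A h _ _

/-- Joint measurability of the action along curves of matrices. -/
theorem meas_joint [SecondCountableTopology Y] {Z : Type*} [TopologicalSpace Z]
    [MeasurableSpace Z] [BorelSpace Z] [SecondCountableTopology Z] {c : Z → G}
    (hc : Continuous c) : Measurable fun p : Y × Z => A.act p.1 (c p.2) :=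
  (A.cont.comp (continuous_fst.prodMk (hc.comp continuous_snd))).measurable

/-- Two measures with the same integrals of bounded continuous functions are equal. Proof:
`MeasureTheory.ext_of_forall_integral_eq_of_IsFiniteMeasure` (closed sets have outer
approximations in a metrizable space). -/
theorem ext_bcf [PolishSpace Y] {m m' : Measure Y} [IsFiniteMeasure m] [IsFiniteMeasure m']
    (h : ∀ F : BoundedContinuousFunction Y ℝ, ∫ y, F y ∂m = ∫ y, F y ∂m') : m = m' :=
  ext_of_forall_integral_eq_of_IsFiniteMeasure h

end Pool.Agent.MP27775c.DO
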