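import Pool.Agent.Lib.MP_27775c_an_DO.Kap

/-!
# MP_27775c_an, project DO, module BaA: the disc in horocyclic coordinates
-/

set_option autoImplicit false

open MeasureTheory Set Filter Topology
open scoped ENNReal

namespace Pool.Agent.MP27775c.DO

open Classical in
/-- The hyperbolic disc of radius `R` about `i` and its area, in the coordinates `(x, η)`,
`z = x + i η exp (-R)`. -/
noncomputable def sig (R : ℝ) (p : ℝ × ℝ) : ℝ :=
  if 0 < p.2 ∧ p.1 ^ 2 < p.2 * (1 + Real.exp (-2 * R)) - 1 - p.2 ^ 2 * Real.exp (-2 * R) then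
    1 / p.2 ^ 2 else 0

open Classical in
/-- The limit for `R → ∞`. -/
noncomputable def sigI (p : ℝ × ℝ) : ℝ :=
  if 1 < p.2 ∧ p.1 ^ 2 < p.2 - 1 then 1 / p.2 ^ 2 else 0

open Classical in
/-- A common bound. -/
noncomputable def dom (p : ℝ × ℝ) : ℝ :=
  if 1 / 2 < p.2 ∧ p.1 ^ 2 < 2 * p.2 then 1 / p.2 ^ 2 else 0

theorem sig_meas (R : ℝ) : Measurable (sig R) := by
  have h1 : Measurable fun p : ℝ × ℝ => p.1 ^ 2 := by fun_prop
  have h2 : Measurable fun p : ℝ × ℝ =>
    p.2 * (1 + Real.exp (-2 * R)) - 1 - p.2 ^ 2 * Real.exp (-2 * R) := by fun_prop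
  have h3 : Measurable fun p : ℝ × ℝ => 1 / p.2 ^ 2 := by fun_prop
  exact Measurable.ite (MeasurableSet.inter (measurableSet_lt measurable_const measurable_snd)
    (measurableSet_lt h1 h2)) h3 measurable_const

theorem sigI_meas : Measurable sigI := by
  have h1 : Measurable fun p : ℝ × ℝ => p.1 ^ 2 := by fun_prop
  have h2 : Measurable fun p : ℝ × ℝ => p.2 - 1 := by fun_prop
  have h3 : Measurable fun p : ℝ × ℝ => 1 / p.2 ^ 2 := by fun_prop
  exact Measurable.ite (MeasurableSet.inter (measurableSet_lt measurable_const measurable_snd)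
    (measurableSet_lt h1 h2)) h3 measurable_const

theorem dom_meas : Measurable dom := by
  have h1 : Measurable fun p : ℝ × ℝ => p.1 ^ 2 := by fun_prop
  have h2 : Measurable fun p : ℝ × ℝ => 2 * p.2 := by fun_prop
  have h3 : Measurable fun p : ℝ × ℝ => 1 / p.2 ^ 2 := by fun_prop
  exact Measurable.ite (MeasurableSet.inter (measurableSet_lt measurable_const measurable_snd)
    (measurableSet_lt h1 h2)) h3 measurable_const

theorem sig_nonneg (R : ℝ) (p : ℝ × ℝ) : 0 ≤ sig R p := by
  unfold sig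
  split_ifs
  · positivity
  · exact le_refl _

private theorem sigI_nonneg (p : ℝ × ℝ) : 0 ≤ sigI p := by
  unfold sigI
  split_ifs
  · positivity
  · exact le_refl _

private theorem dom_nonneg (p : ℝ × ℝ) : 0 ≤ dom p := by
  unfold dom
  split_ifs
  · positivity
  · exact le_refl _

/-- Proof: `x ^ 2 < η (1 + exp (-2 R)) - 1 - η ^ 2 exp (-2 R)` gives `η (1 + exp (-2 R)) > 1`, so
`η > 1 / 2`, and
`x ^ 2 < 2 η`. -/
theorem sig_le {R : ℝ} (hR : 0 ≤ R) (p : ℝ × ℝ) : sig R p ≤ dom p := by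
  unfold sig
  split_ifs with h
  · obtain ⟨h1, h2⟩ := h
    have hq0 : 0 < Real.exp (-2 * R) := Real.exp_pos _
    have hq1 : Real.exp (-2 * R) ≤ 1 := Real.exp_le_one_iff.2 (by linarith)
    have h3 : 0 ≤ p.1 ^ 2 := sq_nonneg _
    have h4 : 0 ≤ p.2 ^ 2 * Real.exp (-2 * R) := by positivity
    have h5 : p.2 * Real.exp (-2 * R) ≤ p.2 := by nlinarith
    have h6 : 1 / 2 < p.2 := by nlinarith
    have h7 : p.1 ^ 2 < 2 * p.2 := by nlinarith
    unfold dom
    rw [if_pos ⟨h6, h7⟩]
  · exact dom_nonneg p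

theorem sigI_le (p : ℝ × ℝ) : sigI p ≤ dom p := by
  unfold sigI
  split_ifs with h
  · unfold dom
    rw [if_pos ⟨by linarith [h.1], by linarith [h.1, h.2]⟩]
  · exact dom_nonneg p

private theorem dom_slice (η : ℝ) (hη : 1 / 2 < η) :
    (fun x : ℝ => dom (x, η)) =
      (Ioo (-√(2 * η)) (√(2 * η))).indicator fun _ => 1 / η ^ 2 := by
  funext x
  unfold dom
  simp only [Set.indicator]
  have h : (1 / 2 < η ∧ x ^ 2 < 2 * η) ↔ x ∈ Ioo (-√(2 * η)) (√(2 * η)) := by
    rw [Set.mem_Ioo, ← Real.sq_lt]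
    exact ⟨fun h => h.2, fun h => ⟨hη, h⟩⟩
  simp only [h]

private theorem dom_slice_zero (η : ℝ) (hη : ¬ 1 / 2 < η) :
    (fun x : ℝ => dom (x, η)) = fun _ => 0 := by
  funext x
  unfold dom
  rw [if_neg fun h => hη h.1]

/-- Proof: Fubini, the integral over `x` is `2 √(2 η) / η ^ 2`, integrable on `(1 / 2, ∞)`
(`integrableOn_Ioi_rpow_of_lt`). -/
theorem dom_int : Integrable dom := by
  rw [Measure.volume_eq_prod, integrable_prod_iff' dom_meas.aestronglyMeasurable]
  constructor
  · refine Filter.Eventually.of_forall fun η => ?_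
    by_cases hη : 1 / 2 < η
    · rw [dom_slice η hη, integrable_indicator_iff measurableSet_Ioo]
      exact integrableOn_const (by rw [Real.volume_Ioo]; exact ENNReal.ofReal_ne_top)
    · rw [dom_slice_zero η hη]
      exact integrable_zero _ _ _
  · have h1 : (fun η : ℝ => ∫ x, ‖dom (x, η)‖) =
        (Ioi (1 / 2)).indicator fun η : ℝ => 2 * √2 * η ^ (-(3 / 2) : ℝ) := by
      funext η
      have h0 : ∀ x, ‖dom (x, η)‖ = dom (x, η) := fun x => by
        rw [Real.norm_eq_abs, abs_of_nonneg (dom_nonneg _)]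
      simp only [h0]
      by_cases hη : 1 / 2 < η
      · have hη0 : 0 < η := by linarith
        rw [dom_slice η hη, integral_indicator measurableSet_Ioo, setIntegral_const,
          Set.indicator_of_mem (show η ∈ Ioi (1 / 2 : ℝ) from hη), Real.volume_real_Ioo_of_le
            (by linarith [Real.sqrt_nonneg (2 * η)]), smul_eq_mul,
          Real.sqrt_mul (by norm_num : (0 : ℝ) ≤ 2)]
        have h2 : η ^ (-(3 / 2) : ℝ) = √η * (1 / η ^ 2) := by
          rw [Real.sqrt_eq_rpow, one_div (η ^ 2), ← Real.rpow_natCast, ← Real.rpow_neg hη0.le,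
            ← Real.rpow_add hη0]
          norm_num
        rw [h2]
        ring
      · rw [dom_slice_zero η hη, Set.indicator_of_notMem (show η ∉ Ioi (1 / 2 : ℝ) from hη)]
        simp
    rw [h1, integrable_indicator_iff measurableSet_Ioi]
    exact (integrableOn_Ioi_rpow_of_lt (by norm_num) (by norm_num)).const_mul _

/-- Proof: pointwise outside of the null set `{x ^ 2 = η - 1}`. -/
theorem sig_tendsto : ∀ᵐ p : ℝ × ℝ, Tendsto (fun R => sig R p) atTop (𝓝 (sigI p)) := by
  have hnull : (volume : Measure (ℝ × ℝ)) {p : ℝ × ℝ | p.1 ^ 2 = p.2 - 1} = 0 := by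
    have hm : MeasurableSet {p : ℝ × ℝ | p.1 ^ 2 = p.2 - 1} :=
      measurableSet_eq_fun (by fun_prop) (by fun_prop)
    rw [Measure.volume_eq_prod, Measure.measure_prod_null hm]
    refine Filter.Eventually.of_forall fun x => ?_
    have : Prod.mk x ⁻¹' {p : ℝ × ℝ | p.1 ^ 2 = p.2 - 1} = {x ^ 2 + 1} := by
      ext η
      change x ^ 2 = η - 1 ↔ η = x ^ 2 + 1
      constructor <;> intro h <;> linarith
    change volume (Prod.mk x ⁻¹' {p : ℝ × ℝ | p.1 ^ 2 = p.2 - 1}) = 0
    rw [this]
    simp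
  have hae : ∀ᵐ p : ℝ × ℝ, ¬ p.1 ^ 2 = p.2 - 1 := by
    rw [ae_iff]
    simpa using hnull
  filter_upwards [hae] with p hp
  have hexp : Tendsto (fun R : ℝ => Real.exp (-2 * R)) atTop (𝓝 0) := by
    refine Real.tendsto_exp_atBot.comp ?_
    exact tendsto_id.const_mul_atTop_of_neg (by norm_num)
  have hthr : Tendsto (fun R : ℝ =>
      p.2 * (1 + Real.exp (-2 * R)) - 1 - p.2 ^ 2 * Real.exp (-2 * R)) atTop (𝓝 (p.2 - 1)) := by
    have h1 := ((hexp.const_add 1).const_mul p.2).sub_const 1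
    have h2 := h1.sub (hexp.const_mul (p.2 ^ 2))
    simpa using h2
  by_cases h0 : 0 < p.2
  · rcases lt_or_gt_of_ne hp with h | h
    · have h1 : 1 < p.2 := by nlinarith [sq_nonneg p.1]
      have h2 : sigI p = 1 / p.2 ^ 2 := by
        unfold sigI
        rw [if_pos ⟨h1, h⟩]
      rw [h2]
      refine tendsto_const_nhds.congr' ?_
      filter_upwards [hthr.eventually (lt_mem_nhds h)] with R hR
      unfold sig
      rw [if_pos ⟨h0, hR⟩]
    · have h2 : sigI p = 0 := by
        unfold sigI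
        rw [if_neg fun h' => absurd h'.2 (not_lt.2 h.le)]
      rw [h2]
      refine tendsto_const_nhds.congr' ?_
      filter_upwards [hthr.eventually (gt_mem_nhds h)] with R hR
      unfold sig
      rw [if_neg fun h' => absurd h'.2 (not_lt.2 hR.le)]
  · have h1 : sigI p = 0 := by
      unfold sigI
      rw [if_neg fun h' => h0 (by linarith [h'.1])]
    rw [h1]
    refine tendsto_const_nhds.congr fun R => ?_
    unfold sig
    rw [if_neg fun h' => h0 h'.1]

/-- Proof: dominated convergence. -/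
theorem sig_L1 : Tendsto (fun R => ∫ p, |sig R p - sigI p|) atTop (𝓝 0) := by
  have h : Tendsto (fun R => ∫ p, |sig R p - sigI p|) atTop (𝓝 (∫ _ : ℝ × ℝ, (0 : ℝ))) := by
    refine tendsto_integral_filter_of_dominated_convergence dom ?_ ?_ dom_int ?_
    · exact Filter.Eventually.of_forall fun R =>
        (((sig_meas R).sub sigI_meas).abs).aestronglyMeasurable
    · filter_upwards [eventually_ge_atTop 0] with R hR
      refine Filter.Eventually.of_forall fun p => ?_
      rw [Real.norm_eq_abs, abs_abs, abs_le]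
      have h1 := sig_nonneg R p
      have h2 := sigI_nonneg p
      have h3 := sig_le hR p
      have h4 := sigI_le p
      constructor <;> linarith
    · filter_upwards [sig_tendsto] with p hp
      have := (hp.sub_const (sigI p)).abs
      simpa using this
  simpa using h

private theorem sigI_int : Integrable sigI :=
  dom_int.mono' sigI_meas.aestronglyMeasurable (Filter.Eventually.of_forall fun p => by
    rw [Real.norm_eq_abs, abs_of_nonneg (sigI_nonneg p)]; exact sigI_le p)

private theorem sig_int {R : ℝ} (hR : 0 ≤ R) : Integrable (sig R) :=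
  dom_int.mono' (sig_meas R).aestronglyMeasurable (Filter.Eventually.of_forall fun p => by
    rw [Real.norm_eq_abs, abs_of_nonneg (sig_nonneg R p)]; exact sig_le hR p)

theorem sigI_pos : 0 < ∫ p, sigI p := by
  rw [integral_pos_iff_support_of_nonneg sigI_nonneg sigI_int]
  have hc1 : Continuous fun p : ℝ × ℝ => p.1 ^ 2 := by fun_prop
  have hc2 : Continuous fun p : ℝ × ℝ => p.2 - 1 := by fun_prop
  have hopen : IsOpen {p : ℝ × ℝ | 1 < p.2 ∧ p.1 ^ 2 < p.2 - 1} :=
    (isOpen_lt continuous_const continuous_snd).inter (isOpen_lt hc1 hc2)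
  refine lt_of_lt_of_le (hopen.measure_pos volume ⟨(0, 2), by norm_num, by norm_num⟩)
    (measure_mono fun p hp => ?_)
  obtain ⟨h1, h2⟩ := hp
  have h3 : sigI p = 1 / p.2 ^ 2 := by
    unfold sigI
    rw [if_pos ⟨h1, h2⟩]
  rw [Function.mem_support, h3]
  have : 0 < p.2 := by linarith
  positivity

theorem sig_pos {R : ℝ} (hR : 0 < R) : 0 < ∫ p, sig R p := by
  rw [integral_pos_iff_support_of_nonneg (sig_nonneg R) (sig_int hR.le)]
  set q : ℝ := Real.exp (-2 * R) with hq
  have hq0 : 0 < q := Real.exp_pos _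
  have hq1 : q < 1 := by
    rw [hq]
    exact Real.exp_lt_one_iff.2 (by linarith)
  have hc1 : Continuous fun p : ℝ × ℝ => p.1 ^ 2 := by fun_prop
  have hc2 : Continuous fun p : ℝ × ℝ => p.2 * (1 + q) - 1 - p.2 ^ 2 * q := by fun_prop
  have hopen : IsOpen {p : ℝ × ℝ | 0 < p.2 ∧ p.1 ^ 2 < p.2 * (1 + q) - 1 - p.2 ^ 2 * q} :=
    (isOpen_lt continuous_const continuous_snd).inter (isOpen_lt hc1 hc2)
  have hne : ({p : ℝ × ℝ | 0 < p.2 ∧ p.1 ^ 2 < p.2 * (1 + q) - 1 - p.2 ^ 2 * q}).Nonempty := by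
    refine ⟨(0, 2 / (1 + q)), by positivity, ?_⟩
    have h1 : 2 / (1 + q) * (1 + q) - 1 - (2 / (1 + q)) ^ 2 * q = ((1 - q) / (1 + q)) ^ 2 := by
      field_simp
      ring
    simp only
    rw [h1]
    have : 0 < (1 - q) / (1 + q) := div_pos (by linarith) (by linarith)
    rw [zero_pow two_ne_zero]
    positivity
  refine lt_of_lt_of_le (hopen.measure_pos volume hne) (measure_mono fun p hp => ?_)
  obtain ⟨h1, h2⟩ := hp
  have h3 : sig R p = 1 / p.2 ^ 2 := by
    unfold sig
    rw [if_pos ⟨h1, h2⟩]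
  rw [Function.mem_support, h3]
  positivity

end Pool.Agent.MP27775c.DO
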