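import Pool.Agent.Lib.MP_27775c_an_DO.BaA

/-!
# MP_27775c_an, project DO, module BaB: integrals over hyperbolic discs
-/

set_option autoImplicit false

open MeasureTheory Set Filter Topology
open scoped ENNReal

namespace Pool.Agent.MP27775c.DO

/-- Integration over the upper half plane. Proof: definition of the measure
(`UpperHalfPlane.volume_def`), `Complex.measurableEquivRealProd`. -/
theorem lint_upper (f : UpperHalfPlane → ℝ≥0∞) (hf : Measurable f) :
    ∫⁻ z, f z = ∫⁻ p : ℝ × ℝ in {p | 0 < p.2}, if h : 0 < p.2 then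
      f ⟨⟨p.1, p.2⟩, h⟩ * ENNReal.ofReal (1 / p.2 ^ 2) else 0 := by
  set D : UpperHalfPlane → NNReal := fun z => (1 / NNReal.mk z.im z.im_pos.le : NNReal) ^ 2
    with hD
  have hDm : Measurable D := by
    refine Continuous.measurable ?_
    refine .pow (.div₀ continuous_const ?_ ?_) _
    · exact UpperHalfPlane.continuous_im.subtype_mk _
    · exact fun x ↦ NNReal.ne_iff.mp x.im_ne_zero
  have hvol : (volume : Measure UpperHalfPlane) =
      (volume.comap UpperHalfPlane.coe).withDensity fun z ↦ (D z : ℝ≥0∞) := rfl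
  have hDv : ∀ z : UpperHalfPlane, (D z : ℝ≥0∞) = ENNReal.ofReal (1 / z.im ^ 2) := by
    intro z
    rw [ENNReal.ofReal, ENNReal.coe_inj, hD]
    refine NNReal.eq ?_
    rw [Real.coe_toNNReal _ (by positivity)]
    push_cast
    rw [div_pow, one_pow]
  rw [hvol, lintegral_withDensity_eq_lintegral_mul _ hDm.coe_nnreal_ennreal hf]
  set g : ℂ → ℝ≥0∞ := fun w => if h : 0 < w.im then
    f ⟨w, h⟩ * ENNReal.ofReal (1 / w.im ^ 2) else 0 with hg
  have hmp : MeasurePreserving UpperHalfPlane.coe (volume.comap UpperHalfPlane.coe)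
      (volume.restrict (range UpperHalfPlane.coe)) :=
    ⟨UpperHalfPlane.measurable_coe, by rw [UpperHalfPlane.measurableEmbedding_coe.map_comap]⟩
  have h1 : ∀ z : UpperHalfPlane, ((fun z => (D z : ℝ≥0∞)) * f) z = g (z : ℂ) := by
    intro z
    have hz : 0 < (z : ℂ).im := z.coe_im_pos
    simp only [hg, Pi.mul_apply, hDv]
    rw [dif_pos hz, mul_comm]
    rfl
  rw [lintegral_congr h1, hmp.lintegral_comp_emb UpperHalfPlane.measurableEmbedding_coe]
  have hr : range UpperHalfPlane.coe = {w : ℂ | 0 < w.im} := by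
    ext w
    constructor
    · rintro ⟨z, rfl⟩
      exact z.coe_im_pos
    · intro h
      exact ⟨⟨w, h⟩, rfl⟩
  rw [hr]
  have h2 := Complex.volume_preserving_equiv_real_prod.symm
  have h3 := h2.setLIntegral_comp_emb (Complex.measurableEquivRealProd.symm.measurableEmbedding)
    g {p : ℝ × ℝ | 0 < p.2}
  have h4 : (Complex.measurableEquivRealProd.symm : ℝ × ℝ → ℂ) '' {p : ℝ × ℝ | 0 < p.2} =
      {w : ℂ | 0 < w.im} := by
    ext w
    constructor
    · rintro ⟨p, hp, rfl⟩
      exact hp
    · intro h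
      exact ⟨(w.re, w.im), h, rfl⟩
  rw [h4] at h3
  rw [← h3]
  rfl

/-- The point with the coordinates `p`. -/
private noncomputable def um (R : ℝ) (p : ℝ × ℝ) : UpperHalfPlane :=
  ⟨⟨p.1, Real.exp (Real.log p.2 - R)⟩, Real.exp_pos _⟩

private theorem um_meas (R : ℝ) : Measurable (um R) := by
  rw [← UpperHalfPlane.measurableEmbedding_coe.measurable_comp_iff]
  have h : (UpperHalfPlane.coe ∘ um R) = fun p : ℝ × ℝ =>
      Complex.measurableEquivRealProd.symm (p.1, Real.exp (Real.log p.2 - R)) := by
    funext p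
    rfl
  rw [h]
  refine Complex.measurableEquivRealProd.symm.measurable.comp ?_
  exact measurable_fst.prodMk
    (Real.measurable_exp.comp ((Real.measurable_log.comp measurable_snd).sub_const R))

private theorem pp_um (R : ℝ) (p : ℝ × ℝ) : pp (um R p) = nn p.1 * aa (Real.log p.2 - R) := by
  have h1 : (um R p).re = p.1 := rfl
  have h2 : (um R p).im = Real.exp (Real.log p.2 - R) := rfl
  rw [pp, h1, h2, Real.log_exp]

private theorem lint_scale1 {h : ℝ → ℝ≥0∞} (hh : Measurable h) {c : ℝ} (hc : 0 < c) :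
    ∫⁻ y, h y = ENNReal.ofReal c * ∫⁻ y, h (c * y) := by
  have h1 : ∫⁻ y, h (c * y) = ∫⁻ y, h y ∂(Measure.map (c * ·) volume) := by
    rw [lintegral_map hh (measurable_const_mul c)]
  rw [h1, Real.map_volume_mul_left hc.ne', lintegral_smul_measure, smul_eq_mul, ← mul_assoc,
    ← ENNReal.ofReal_mul hc.le, abs_of_pos (inv_pos.2 hc), mul_inv_cancel₀ hc.ne',
    ENNReal.ofReal_one, one_mul]

private theorem lint_scale {g : ℝ × ℝ → ℝ≥0∞} (hg : Measurable g) {c : ℝ} (hc : 0 < c) :
    ∫⁻ p, g p = ENNReal.ofReal c * ∫⁻ p : ℝ × ℝ, g (p.1, c * p.2) := by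
  have hm : Measurable fun p : ℝ × ℝ => g (p.1, c * p.2) :=
    hg.comp (measurable_fst.prodMk (measurable_snd.const_mul c))
  rw [Measure.volume_eq_prod, lintegral_prod _ hg.aemeasurable,
    lintegral_prod _ hm.aemeasurable, ← lintegral_const_mul _ hm.lintegral_prod_right']
  refine lintegral_congr fun x => ?_
  exact lint_scale1 (hg.comp measurable_prodMk_left) hc

private theorem ball_iff {R : ℝ} (hR : 0 < R) (z : UpperHalfPlane) :
    z ∈ Metric.ball UpperHalfPlane.I R ↔
      z.re ^ 2 < 2 * z.im * Real.cosh R - z.im ^ 2 - 1 := by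
  have hz := z.im_pos
  rw [Metric.mem_ball, ← abs_of_nonneg (dist_nonneg (x := z) (y := UpperHalfPlane.I)),
    ← abs_of_pos hR, ← Real.cosh_lt_cosh, abs_of_pos hR, UpperHalfPlane.cosh_dist']
  rw [UpperHalfPlane.I_re, UpperHalfPlane.I_im, div_lt_iff₀ (by positivity)]
  constructor <;> intro h <;> nlinarith

private theorem lint_um {R : ℝ} (hR : 0 < R) (f : UpperHalfPlane → ℝ≥0∞) (hf : Measurable f) :
    ∫⁻ z in Metric.ball UpperHalfPlane.I R, f z =
      ENNReal.ofReal (Real.exp R) * ∫⁻ p, ENNReal.ofReal (sig R p) * f (um R p) := by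
  set F : UpperHalfPlane → ℝ≥0∞ := (Metric.ball UpperHalfPlane.I R).indicator f with hF
  have hFm : Measurable F := hf.indicator Metric.isOpen_ball.measurableSet
  have hS : MeasurableSet {p : ℝ × ℝ | 0 < p.2} := measurableSet_lt measurable_const measurable_snd
  set g : ℝ × ℝ → ℝ≥0∞ := {p : ℝ × ℝ | 0 < p.2}.indicator
    (fun p => F (um 0 p) * ENNReal.ofReal (1 / p.2 ^ 2)) with hg
  have hgm : Measurable g := by
    refine Measurable.indicator ?_ hS
    refine (hFm.comp (um_meas 0)).mul ?_
    exact (measurable_const.div (measurable_snd.pow_const 2)).ennreal_ofReal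
  rw [← lintegral_indicator Metric.isOpen_ball.measurableSet, ← hF, lint_upper F hFm,
    ← lintegral_indicator hS]
  have h1 : ({p : ℝ × ℝ | 0 < p.2}.indicator (fun p : ℝ × ℝ => if h : 0 < p.2 then
      F ⟨⟨p.1, p.2⟩, h⟩ * ENNReal.ofReal (1 / p.2 ^ 2) else 0)) = g := by
    funext p
    by_cases hp : 0 < p.2
    · rw [hg, indicator_of_mem (show p ∈ {p : ℝ × ℝ | 0 < p.2} from hp),
        indicator_of_mem (show p ∈ {p : ℝ × ℝ | 0 < p.2} from hp), dif_pos hp]
      have h2 : um 0 p = ⟨⟨p.1, p.2⟩, hp⟩ := by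
        refine UpperHalfPlane.ext ?_
        refine Complex.ext rfl ?_
        change Real.exp (Real.log p.2 - 0) = p.2
        rw [sub_zero, Real.exp_log hp]
      rw [h2]
    · rw [hg, indicator_of_notMem (show p ∉ {p : ℝ × ℝ | 0 < p.2} from hp),
        indicator_of_notMem (show p ∉ {p : ℝ × ℝ | 0 < p.2} from hp)]
  rw [h1, lint_scale hgm (Real.exp_pos (-R)), ← lintegral_const_mul _ ?_,
    ← lintegral_const_mul _ ?_]
  · refine lintegral_congr fun p => ?_
    by_cases hp : 0 < p.2
    · have hp2 : 0 < Real.exp (-R) * p.2 := mul_pos (Real.exp_pos _) hp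
      have h2 : um 0 (p.1, Real.exp (-R) * p.2) = um R p := by
        refine UpperHalfPlane.ext ?_
        refine Complex.ext rfl ?_
        change Real.exp (Real.log (Real.exp (-R) * p.2) - 0) = Real.exp (Real.log p.2 - R)
        rw [Real.log_mul (Real.exp_pos _).ne' hp.ne', Real.log_exp]
        congr 1
        ring
      have h3 : (um R p).re = p.1 := rfl
      have h4 : (um R p).im = p.2 * Real.exp (-R) := by
        change Real.exp (Real.log p.2 - R) = _
        rw [Real.exp_sub, Real.exp_log hp, Real.exp_neg]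
        rfl
      have h5 : Real.exp (-2 * R) = Real.exp (-R) ^ 2 := by
        rw [← Real.exp_nat_mul]
        congr 1
        push_cast
        ring
      have h6 : Real.exp R * Real.exp (-R) = 1 := by
        rw [← Real.exp_add, add_neg_cancel, Real.exp_zero]
      have h7 : (um R p ∈ Metric.ball UpperHalfPlane.I R) ↔
          (0 < p.2 ∧ p.1 ^ 2 < p.2 * (1 + Real.exp (-2 * R)) - 1 -
            p.2 ^ 2 * Real.exp (-2 * R)) := by
        rw [ball_iff hR, h3, h4, h5, Real.cosh_eq]
        have h8 : 2 * (p.2 * Real.exp (-R)) * ((Real.exp R + Real.exp (-R)) / 2) -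
            (p.2 * Real.exp (-R)) ^ 2 - 1 = p.2 * (1 + Real.exp (-R) ^ 2) - 1 -
              p.2 ^ 2 * Real.exp (-R) ^ 2 := by
          linear_combination p.2 * h6
        rw [h8]
        exact ⟨fun h => ⟨hp, h⟩, fun h => h.2⟩
      rw [hg, indicator_of_mem (show (p.1, Real.exp (-R) * p.2) ∈ {p : ℝ × ℝ | 0 < p.2} from hp2),
        h2]
      by_cases hb : um R p ∈ Metric.ball UpperHalfPlane.I R
      · rw [hF, indicator_of_mem hb, sig, if_pos (h7.1 hb)]
        change _ * (f (um R p) * ENNReal.ofReal (1 / (Real.exp (-R) * p.2) ^ 2)) = _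
        rw [mul_comm (f (um R p)), ← mul_assoc, ← mul_assoc,
          ← ENNReal.ofReal_mul (Real.exp_nonneg _), ← ENNReal.ofReal_mul (Real.exp_nonneg _)]
        congr 2
        have h9 : Real.exp (-R) ≠ 0 := (Real.exp_pos _).ne'
        rw [Real.exp_neg] at h9 ⊢
        have h10 : Real.exp R ≠ 0 := (Real.exp_pos _).ne'
        field_simp
      · rw [hF, indicator_of_notMem hb, sig, if_neg (fun h => hb (h7.2 h))]
        simp
    · have hp2 : ¬ 0 < Real.exp (-R) * p.2 := fun h => hp (pos_of_mul_pos_right h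
        (Real.exp_nonneg _))
      rw [hg, indicator_of_notMem
        (show (p.1, Real.exp (-R) * p.2) ∉ {p : ℝ × ℝ | 0 < p.2} from hp2), sig,
        if_neg (fun h => hp h.1)]
      simp
  · exact (sig_meas R).ennreal_ofReal.mul (hf.comp (um_meas R))
  · exact hgm.comp (measurable_fst.prodMk (measurable_snd.const_mul _))

variable {Y : Type*} [TopologicalSpace Y] [PolishSpace Y] [MeasurableSpace Y] [BorelSpace Y]
  (A : RAct Y)

omit [PolishSpace Y] in
private theorem meas_pp (y : Y) : Measurable fun z : UpperHalfPlane => A.act y (pp z) := by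
  refine Continuous.measurable ?_
  refine A.cont.comp (continuous_const.prodMk ?_)
  have h1 : Continuous fun q : ℝ × ℝ => nn q.1 * aa q.2 :=
    (continuous_nn.comp continuous_fst).mul (continuous_aa.comp continuous_snd)
  refine h1.comp (UpperHalfPlane.continuous_re.prodMk ?_)
  exact UpperHalfPlane.continuous_im.log fun z => z.im_pos.ne'

/-- The integral over the disc of radius `R`.

Proof. The ball is `{x + i v | x ^ 2 + (v - cosh R) ^ 2 < sinh R ^ 2}`
(`UpperHalfPlane.image_coe_ball`,
`UpperHalfPlane.center`), that is `x ^ 2 < 2 v cosh R - 1 - v ^ 2`; `lint_upper`, and the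
substitution
`v = η exp (-R)`; `pp (x + i v) = nn x * aa (log v)`, `log v = log η - R`. -/
theorem lint_ball {R : ℝ} (hR : 0 < R) {u : Y → ℝ≥0∞} (hu : Measurable u) (y : Y) :
    ∫⁻ z in Metric.ball UpperHalfPlane.I R, u (A.act y (pp z)) =
      ENNReal.ofReal (Real.exp R) * ∫⁻ p, ENNReal.ofReal (sig R p) *
        u (A.act y (nn p.1 * aa (Real.log p.2 - R))) := by
  rw [lint_um hR (fun z => u (A.act y (pp z))) (hu.comp (meas_pp A y))]
  simp only [pp_um]

private theorem sig_int {R : ℝ} (hR : 0 < R) : Integrable (sig R) := by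
  refine dom_int.mono' (sig_meas R).aestronglyMeasurable (Eventually.of_forall fun p => ?_)
  rw [Real.norm_of_nonneg (sig_nonneg R p)]
  exact sig_le hR.le p

theorem vol_ball {R : ℝ} (hR : 0 < R) :
    volume (Metric.ball UpperHalfPlane.I R) =
      ENNReal.ofReal (Real.exp R * ∫ p, sig R p) := by
  have h := lint_um hR (fun _ => 1) measurable_const
  rw [setLIntegral_one] at h
  simp only [mul_one] at h
  rw [h, ENNReal.ofReal_mul (Real.exp_nonneg _),
    ofReal_integral_eq_lintegral_ofReal (sig_int hR)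
      (Eventually.of_forall fun p => sig_nonneg R p)]

private theorem meas_eq {R : ℝ} (hR : 0 < R) :
    (volume.restrict (Metric.ball UpperHalfPlane.I R) : Measure UpperHalfPlane) =
      Measure.map (um R) (ENNReal.ofReal (Real.exp R) •
        (volume : Measure (ℝ × ℝ)).withDensity fun p => ENNReal.ofReal (sig R p)) := by
  refine Measure.ext fun s hs => ?_
  have h := lint_um hR (s.indicator 1) (measurable_one.indicator hs)
  rw [lintegral_indicator_one hs] at h
  rw [h, Measure.map_apply (um_meas R) hs, Measure.smul_apply, smul_eq_mul,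
    withDensity_apply _ (um_meas R hs), ← lintegral_indicator (um_meas R hs)]
  congr 1
  refine lintegral_congr fun p => ?_
  by_cases hp : um R p ∈ s
  · rw [indicator_of_mem hp, indicator_of_mem (show p ∈ um R ⁻¹' s from hp)]
    simp
  · rw [indicator_of_notMem hp, indicator_of_notMem (show p ∉ um R ⁻¹' s from hp)]
    simp

/-- Proof: from `lint_ball` for the positive and negative part, if the function is integrable on
the ball; if it is not integrable then both sides are zero (`integral_undef`). It is convenient to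
prove first the identity of measures behind `lint_ball` (with `Y = UpperHalfPlane`). -/
theorem bav_eq {R : ℝ} (hR : 0 < R) {F : Y → ℝ} (hF : Measurable F) (y : Y) :
    bav A R F y = (∫ p, sig R p * F (A.act y (nn p.1 * aa (Real.log p.2 - R)))) /
      ∫ p, sig R p := by
  have h1 : ∫ z in Metric.ball UpperHalfPlane.I R, F (A.act y (pp z)) =
      Real.exp R * ∫ p, sig R p * F (A.act y (nn p.1 * aa (Real.log p.2 - R))) := by
    rw [meas_eq hR, integral_map (f := fun z => F (A.act y (pp z))) (um_meas R).aemeasurable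
      (hF.comp (meas_pp A y)).aestronglyMeasurable, integral_smul_measure,
      ENNReal.toReal_ofReal (Real.exp_nonneg _), smul_eq_mul,
      integral_withDensity_eq_integral_toReal_smul (sig_meas R).ennreal_ofReal
        (Eventually.of_forall fun p => ENNReal.ofReal_lt_top)]
    congr 1
    refine integral_congr_ae (Eventually.of_forall fun p => ?_)
    simp only [pp_um, smul_eq_mul, ENNReal.toReal_ofReal (sig_nonneg R p)]
  rw [bav, h1, vol_ball hR, ENNReal.toReal_ofReal
    (mul_nonneg (Real.exp_nonneg _) (integral_nonneg (sig_nonneg R)))]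
  exact mul_div_mul_left _ _ (Real.exp_pos R).ne'

end Pool.Agent.MP27775c.DO
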