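import Pool.Agent.Lib.MP_27775c_an_DO.BaB

/-!
# MP_27775c_an, project DO, module BaC: disc averages
-/

set_option autoImplicit false

open MeasureTheory Set Filter Topology
open scoped ENNReal

namespace Pool.Agent.MP27775c.DO

variable {Y : Type*} [TopologicalSpace Y] [PolishSpace Y] [MeasurableSpace Y] [BorelSpace Y]
  (A : RAct Y)

/-- The average over the disc, for functions with values in `[0, ∞]`. -/
noncomputable def bavE (R : ℝ) (u : Y → ℝ≥0∞) (y : Y) : ℝ≥0∞ :=
  (∫⁻ z in Metric.ball UpperHalfPlane.I R, u (A.act y (pp z))) /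
    volume (Metric.ball UpperHalfPlane.I R)

private theorem bac_sig_int {R : ℝ} (hR : 0 ≤ R) : Integrable (sig R) := by
  refine dom_int.mono' (sig_meas R).aestronglyMeasurable (Eventually.of_forall fun p => ?_)
  rw [Real.norm_eq_abs, abs_of_nonneg (sig_nonneg R p)]
  exact sig_le hR p

private theorem bac_sigI_nonneg (p : ℝ × ℝ) : 0 ≤ sigI p := by
  unfold sigI
  split_ifs
  · positivity
  · exact le_refl _

private theorem bac_sigI_int : Integrable sigI := by
  refine dom_int.mono' sigI_meas.aestronglyMeasurable (Eventually.of_forall fun p => ?_)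
  rw [Real.norm_eq_abs, abs_of_nonneg (bac_sigI_nonneg p)]
  exact sigI_le p

private theorem bac_lower : ∃ (R₀ : ℝ) (c : ℝ), 0 < R₀ ∧ 0 < c ∧
    ∀ R, R₀ ≤ R → c ≤ ∫ p, sig R p := by
  have hpos := sigI_pos
  have h1 := (tendsto_order.1 sig_L1).2 ((∫ p, sigI p) / 2) (by linarith)
  obtain ⟨R₁, hR₁⟩ := eventually_atTop.1 h1
  refine ⟨max R₁ 1, (∫ p, sigI p) / 2, lt_of_lt_of_le one_pos (le_max_right _ _), by linarith,
    fun R hR => ?_⟩
  have hR1 : R₁ ≤ R := (le_max_left _ _).trans hR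
  have hR0 : (0 : ℝ) ≤ R := zero_le_one.trans ((le_max_right _ _).trans hR)
  have h2 := hR₁ R hR1
  have h3 : |∫ p, (sig R p - sigI p)| ≤ ∫ p, |sig R p - sigI p| := abs_integral_le_integral_abs
  rw [integral_sub (bac_sig_int hR0) bac_sigI_int] at h3
  have h4 := (abs_le.1 h3).1
  linarith

private theorem bac_div_eq {R : ℝ} (hR : 0 < R) {u : Y → ℝ≥0∞} (hu : Measurable u) (y : Y) :
    bavE A R u y = (∫⁻ p, ENNReal.ofReal (sig R p) *
      u (A.act y (nn p.1 * aa (Real.log p.2 - R)))) / ENNReal.ofReal (∫ p, sig R p) := by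
  unfold bavE
  rw [lint_ball A hR hu y, vol_ball hR, ENNReal.ofReal_mul (Real.exp_pos R).le]
  exact ENNReal.mul_div_mul_left _ _ (ENNReal.ofReal_pos.2 (Real.exp_pos R)).ne'
    ENNReal.ofReal_ne_top

/-- Proof: `lint_ball`, `vol_ball`, `sig_le`, and `∫ sig R → ∫ sigI > 0`. -/
theorem bavE_le : ∃ (R₀ : ℝ) (C : ℝ≥0∞), 0 < R₀ ∧ C ≠ ⊤ ∧ ∀ R, R₀ ≤ R → ∀ (u : Y → ℝ≥0∞),
    Measurable u → ∀ y, bavE A R u y ≤
      C * ∫⁻ p, ENNReal.ofReal (dom p) * u (A.act y (nn p.1 * aa (Real.log p.2 - R))) := by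
  obtain ⟨R₀, c, hR₀, hc, h⟩ := bac_lower
  refine ⟨R₀, (ENNReal.ofReal c)⁻¹, hR₀, ENNReal.inv_ne_top.2 (ENNReal.ofReal_pos.2 hc).ne',
    fun R hR u hu y => ?_⟩
  have hRp : 0 < R := lt_of_lt_of_le hR₀ hR
  rw [bac_div_eq A hRp hu y, mul_comm, ← div_eq_mul_inv]
  refine ENNReal.div_le_div (lintegral_mono fun p => ?_) (ENNReal.ofReal_le_ofReal (h R hR))
  exact mul_le_mul_left (ENNReal.ofReal_le_ofReal (sig_le hRp.le p)) _

private theorem bac_meas_pp {Z : Type*} [MeasurableSpace Z] {u : Y → Z} (hu : Measurable u) :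
    Measurable fun p : (ℝ × Y) × UpperHalfPlane => u (A.act p.1.2 (pp p.2)) := by
  have h1 : Measurable fun p : Y × UpperHalfPlane => A.act p.1 (pp p.2) :=
    meas_joint A continuous_pp
  have h2 : Measurable fun p : (ℝ × Y) × UpperHalfPlane => (p.1.2, p.2) :=
    (measurable_snd.comp measurable_fst).prodMk measurable_snd
  exact hu.comp (h1.comp h2)

omit [TopologicalSpace Y] [PolishSpace Y] [BorelSpace Y] in
private theorem bac_meas_set :
    MeasurableSet {p : (ℝ × Y) × UpperHalfPlane | p.2 ∈ Metric.ball UpperHalfPlane.I p.1.1} := by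
  have h1 : Measurable fun p : (ℝ × Y) × UpperHalfPlane => dist p.2 UpperHalfPlane.I :=
    (continuous_id.dist continuous_const).measurable.comp measurable_snd
  exact measurableSet_lt h1 (measurable_fst.comp measurable_fst)

private theorem bac_meas_lint {u : Y → ℝ≥0∞} (hu : Measurable u) :
    Measurable fun q : ℝ × Y =>
      ∫⁻ z in Metric.ball UpperHalfPlane.I q.1, u (A.act q.2 (pp z)) := by
  have h1 : Measurable fun p : (ℝ × Y) × UpperHalfPlane =>
      {p : (ℝ × Y) × UpperHalfPlane | p.2 ∈ Metric.ball UpperHalfPlane.I p.1.1}.indicator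
        (fun p => u (A.act p.1.2 (pp p.2))) p :=
    (bac_meas_pp A hu).indicator bac_meas_set
  have h2 := h1.lintegral_prod_right' (ν := (volume : Measure UpperHalfPlane))
  have h3 : (fun q : ℝ × Y =>
      ∫⁻ z in Metric.ball UpperHalfPlane.I q.1, u (A.act q.2 (pp z))) = fun q : ℝ × Y =>
      ∫⁻ z, {p : (ℝ × Y) × UpperHalfPlane |
        p.2 ∈ Metric.ball UpperHalfPlane.I p.1.1}.indicator
        (fun p => u (A.act p.1.2 (pp p.2))) (q, z) := by
    funext q
    rw [← lintegral_indicator measurableSet_ball]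
    rfl
  rw [h3]
  exact h2

include A in
private theorem bac_meas_vol :
    Measurable fun q : ℝ × Y => volume (Metric.ball UpperHalfPlane.I q.1) := by
  have h2 := bac_meas_lint A (u := fun _ => 1) measurable_const
  simpa using h2

/-- Joint measurability. -/
theorem bavE_meas {u : Y → ℝ≥0∞} (hu : Measurable u) :
    Measurable fun q : ℝ × Y => bavE A q.1 u q.2 :=
  (bac_meas_lint A hu).div (bac_meas_vol A)

/-- Joint measurability. -/
theorem bav_meas {F : Y → ℝ} (hF : Measurable F) :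
    Measurable fun q : ℝ × Y => bav A q.1 F q.2 := by
  have h1 : StronglyMeasurable fun p : (ℝ × Y) × UpperHalfPlane =>
      {p : (ℝ × Y) × UpperHalfPlane | p.2 ∈ Metric.ball UpperHalfPlane.I p.1.1}.indicator
        (fun p => F (A.act p.1.2 (pp p.2))) p :=
    ((bac_meas_pp A hF).indicator bac_meas_set).stronglyMeasurable
  have h2 := (h1.integral_prod_right' (ν := (volume : Measure UpperHalfPlane))).measurable
  have h3 : (fun q : ℝ × Y =>
      ∫ z in Metric.ball UpperHalfPlane.I q.1, F (A.act q.2 (pp z))) = fun q : ℝ × Y =>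
      ∫ z, {p : (ℝ × Y) × UpperHalfPlane |
        p.2 ∈ Metric.ball UpperHalfPlane.I p.1.1}.indicator
        (fun p => F (A.act p.1.2 (pp p.2))) (q, z) := by
    funext q
    rw [← integral_indicator measurableSet_ball]
    rfl
  have h4 : Measurable fun q : ℝ × Y =>
      ∫ z in Metric.ball UpperHalfPlane.I q.1, F (A.act q.2 (pp z)) := by
    rw [h3]
    exact h2
  exact h4.div (bac_meas_vol A).ennreal_toReal

/-- The averages preserve integrals. Proof: Fubini (Tonelli) and `tr_pp`. -/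
theorem lint_bavE {m : Measure Y} [IsProbabilityMeasure m] (h : IsPInv A m) {R : ℝ}
    (hR : 0 < R) {u : Y → ℝ≥0∞} (hu : Measurable u) :
    ∫⁻ y, bavE A R u y ∂m = ∫⁻ y, u y ∂m := by
  have hm : Measurable fun p : Y × UpperHalfPlane => u (A.act p.1 (pp p.2)) :=
    hu.comp (meas_joint A continuous_pp)
  have hv0 : volume (Metric.ball UpperHalfPlane.I R) ≠ 0 := by
    rw [vol_ball hR]
    exact (ENNReal.ofReal_pos.2 (mul_pos (Real.exp_pos R) (sig_pos hR))).ne'
  have hvt : volume (Metric.ball UpperHalfPlane.I R) ≠ ⊤ := by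
    rw [vol_ball hR]
    exact ENNReal.ofReal_ne_top
  have h1 : ∀ y, bavE A R u y = (volume (Metric.ball UpperHalfPlane.I R))⁻¹ *
      ∫⁻ z in Metric.ball UpperHalfPlane.I R, u (A.act y (pp z)) := fun y => by
    unfold bavE
    rw [div_eq_mul_inv, mul_comm]
  simp_rw [h1]
  rw [lintegral_const_mul' _ _ (ENNReal.inv_ne_top.2 hv0), lintegral_lintegral_swap hm.aemeasurable]
  have h2 : ∀ z, ∫⁻ y, u (A.act y (pp z)) ∂m = ∫⁻ y, u y ∂m := fun z => by
    rw [← lintegral_tr, tr_pp A h z]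
  simp_rw [h2]
  rw [setLIntegral_const, mul_comm, mul_assoc, ENNReal.mul_inv_cancel hv0 hvt, mul_one]

end Pool.Agent.MP27775c.DO
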