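import Pool.Agent.Lib.MP_27775c_an_DO.Ball
import Pool.Agent.Lib.MP_27775c_an_DO.Birk

/-!
# MP_27775c_an, project DO, module BdA: the limit average
-/

set_option autoImplicit false

open MeasureTheory Set Filter Topology
open scoped ENNReal

namespace Pool.Agent.MP27775c.DO

variable {Y : Type*} [TopologicalSpace Y] [PolishSpace Y] [MeasurableSpace Y] [BorelSpace Y]
  (A : RAct Y)

/-- The limit average. -/
noncomputable def binf (R : ℝ) (F : Y → ℝ) (y : Y) : ℝ :=
  (∫ p, sigI p * F (A.act y (nn p.1 * aa (Real.log p.2 - R)))) / ∫ p, sigI p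

private theorem BdA_sigI_nonneg (p : ℝ × ℝ) : 0 ≤ sigI p := by
  rw [sigI]
  split_ifs
  · positivity
  · exact le_rfl

private theorem BdA_int {R : ℝ} (hR : 0 < R) : Integrable (sig R) :=
  dom_int.mono' (sig_meas R).aestronglyMeasurable (ae_of_all _ fun p => by
    rw [Real.norm_eq_abs, abs_of_nonneg (sig_nonneg R p)]
    exact sig_le hR.le p)

private theorem BdA_intI : Integrable sigI :=
  dom_int.mono' sigI_meas.aestronglyMeasurable (ae_of_all _ fun p => by
    rw [Real.norm_eq_abs, abs_of_nonneg (BdA_sigI_nonneg p)]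
    exact sigI_le p)

private theorem BdA_meas {F : Y → ℝ} (hF : Measurable F) (R : ℝ) (y : Y) :
    Measurable fun p : ℝ × ℝ => F (A.act y (nn p.1 * aa (Real.log p.2 - R))) := by
  have h1 : Continuous fun q : ℝ × ℝ => nn q.1 * aa q.2 :=
    (continuous_nn.comp continuous_fst).mul (continuous_aa.comp continuous_snd)
  have h2 := meas_joint A h1
  have h3 : Measurable fun p : ℝ × ℝ => (y, (p.1, Real.log p.2 - R)) := by
    refine measurable_const.prodMk (measurable_fst.prodMk ?_)
    exact (Real.measurable_log.comp measurable_snd).sub_const R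
  exact hF.comp (h2.comp h3)

/-- Proof: `bav_eq`, `sig_L1`, `sigI_pos`. -/
theorem bav_binf : ∃ e : ℝ → ℝ, Tendsto e atTop (𝓝 0) ∧ ∀ (F : Y → ℝ), Measurable F → ∀ C : ℝ,
    (∀ y, |F y| ≤ C) → ∀ R, 0 < R → ∀ y, |bav A R F y - binf A R F y| ≤ C * e R := by
  have hd : ∀ R, 0 < R → |(∫ p, sig R p) - ∫ p, sigI p| ≤ ∫ p, |sig R p - sigI p| := by
    intro R hR
    rw [← integral_sub (BdA_int hR) BdA_intI]
    exact abs_integral_le_integral_abs
  have hS : Tendsto (fun R => ∫ p, sig R p) atTop (𝓝 (∫ p, sigI p)) := by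
    rw [tendsto_iff_dist_tendsto_zero]
    refine squeeze_zero' (Eventually.of_forall fun _ => dist_nonneg) ?_ sig_L1
    filter_upwards [eventually_gt_atTop 0] with R hR
    rw [Real.dist_eq]
    exact hd R hR
  refine ⟨fun R => 2 * (∫ p, |sig R p - sigI p|) / ∫ p, sig R p, ?_, ?_⟩
  · have h1 := (sig_L1.const_mul 2).div hS sigI_pos.ne'
    rw [mul_zero, zero_div] at h1
    exact h1
  intro F hF C hC R hR y
  obtain ⟨f, hf⟩ : ∃ f : ℝ × ℝ → ℝ,
      f = fun p => F (A.act y (nn p.1 * aa (Real.log p.2 - R))) := ⟨_, rfl⟩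
  have hfm : Measurable f := by
    rw [hf]
    exact BdA_meas A hF R y
  have hfC : ∀ p, |f p| ≤ C := fun p => by
    rw [hf]
    exact hC _
  have e1 : bav A R F y = (∫ p, sig R p * f p) / ∫ p, sig R p := by
    rw [bav_eq A hR hF y, hf]
  have e2 : binf A R F y = (∫ p, sigI p * f p) / ∫ p, sigI p := by
    rw [binf, hf]
  have i1 : Integrable fun p => sig R p * f p :=
    (BdA_int hR).mul_bdd (c := C) hfm.aestronglyMeasurable
      (ae_of_all _ fun p => by rw [Real.norm_eq_abs]; exact hfC p)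
  have i2 : Integrable fun p => sigI p * f p :=
    BdA_intI.mul_bdd (c := C) hfm.aestronglyMeasurable
      (ae_of_all _ fun p => by rw [Real.norm_eq_abs]; exact hfC p)
  have hC0 : 0 ≤ C := le_trans (abs_nonneg _) (hC y)
  have i3 : Integrable fun p => |sig R p - sigI p| := ((BdA_int hR).sub BdA_intI).abs
  obtain ⟨a, ha⟩ : ∃ a, a = ∫ p, sig R p * f p := ⟨_, rfl⟩
  obtain ⟨a', ha'⟩ : ∃ a', a' = ∫ p, sigI p * f p := ⟨_, rfl⟩
  obtain ⟨s, hs⟩ : ∃ s, s = ∫ p, sig R p := ⟨_, rfl⟩
  obtain ⟨s', hs'⟩ : ∃ s', s' = ∫ p, sigI p := ⟨_, rfl⟩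
  obtain ⟨d, hd'⟩ : ∃ d, d = ∫ p, |sig R p - sigI p| := ⟨_, rfl⟩
  have b1 : |a - a'| ≤ C * d := by
    rw [ha, ha', hd', ← integral_sub i1 i2, ← integral_const_mul]
    refine le_trans abs_integral_le_integral_abs ?_
    refine integral_mono (i1.sub i2).abs (i3.const_mul C) fun p => ?_
    show |sig R p * f p - sigI p * f p| ≤ C * |sig R p - sigI p|
    rw [← sub_mul, abs_mul, mul_comm]
    exact mul_le_mul_of_nonneg_right (hfC p) (abs_nonneg _)
  have b2 : |a'| ≤ C * s' := by
    rw [ha', hs', ← integral_const_mul]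
    refine le_trans abs_integral_le_integral_abs ?_
    refine integral_mono i2.abs (BdA_intI.const_mul C) fun p => ?_
    show |sigI p * f p| ≤ C * sigI p
    rw [abs_mul, mul_comm, abs_of_nonneg (BdA_sigI_nonneg p)]
    exact mul_le_mul_of_nonneg_right (hfC p) (BdA_sigI_nonneg p)
  have b3 : |s - s'| ≤ d := by
    rw [hs, hs', hd']
    exact hd R hR
  have p1 : 0 < s := by
    rw [hs]
    exact sig_pos hR
  have p2 : 0 < s' := by
    rw [hs']
    exact sigI_pos
  show |bav A R F y - binf A R F y| ≤ C * (2 * (∫ p, |sig R p - sigI p|) / ∫ p, sig R p)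
  rw [e1, e2, ← ha, ← ha', ← hs, ← hs', ← hd']
  have e3 : a / s - a' / s' = (a - a') / s + a' / s' * ((s' - s) / s) := by
    field_simp
    ring
  rw [e3]
  have c1 : |(a - a') / s| ≤ C * d / s := by
    rw [abs_div, abs_of_pos p1]
    exact div_le_div_of_nonneg_right b1 p1.le
  have c2 : |a' / s' * ((s' - s) / s)| ≤ C * (d / s) := by
    rw [abs_mul, abs_div, abs_div, abs_of_pos p1, abs_of_pos p2]
    refine mul_le_mul ?_ ?_ (by positivity) hC0
    · rw [div_le_iff₀ p2]
      exact b2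
    · rw [abs_sub_comm]
      exact div_le_div_of_nonneg_right b3 p1.le
  calc |(a - a') / s + a' / s' * ((s' - s) / s)|
      ≤ |(a - a') / s| + |a' / s' * ((s' - s) / s)| := abs_add_le _ _
    _ ≤ C * d / s + C * (d / s) := add_le_add c1 c2
    _ = C * (2 * d / s) := by ring

end Pool.Agent.MP27775c.DO
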