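import Pool.Agent.Lib.MP_27775c_an_DO.Kap
import Pool.Agent.Lib.MP_27775c_an_DO.Mx

/-!
# MP_27775c_an, project DO, module BiA: averages over the unipotent flow
-/

set_option autoImplicit false

open MeasureTheory Set Filter Topology

namespace Pool.Agent.MP27775c.DO

variable {Y : Type*} [TopologicalSpace Y] [PolishSpace Y] [MeasurableSpace Y] [BorelSpace Y]
  (A : RAct Y)

/-- The symmetric average over the unipotent flow. -/
noncomputable def nav (L : ℝ) (F : Y → ℝ) (y : Y) : ℝ :=
  1 / (2 * L) * ∫ s in (-L)..L, F (A.act y (nn s))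

private theorem meas_int {F : Y → ℝ} (hF : Measurable F) (a b : ℝ) :
    Measurable fun y => ∫ s in a..b, F (A.act y (nn s)) := by
  have h1 : Measurable fun p : Y × ℝ => F (A.act p.1 (nn p.2)) :=
    hF.comp (meas_joint A continuous_nn)
  have h2 : StronglyMeasurable fun p : Y × ℝ => F (A.act p.1 (nn p.2)) := h1.stronglyMeasurable
  simp only [intervalIntegral]
  exact (h2.integral_prod_right (ν := volume.restrict (Ioc a b))).measurable.sub
    (h2.integral_prod_right (ν := volume.restrict (Ioc b a))).measurable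

theorem nav_meas (L : ℝ) {F : Y → ℝ} (hF : Measurable F) : Measurable (nav A L F) := by
  exact (meas_int A hF (-L) L).const_mul _

/-- The limes superior of the one-sided averages over integer times. -/
noncomputable def nsup (F : Y → ℝ) (y : Y) : ℝ :=
  limsup (fun n : ℕ => 1 / (n : ℝ) * ∫ s in (0 : ℝ)..n, F (A.act y (nn s))) atTop

theorem nsup_meas {F : Y → ℝ} (hF : Measurable F) (hb : ∃ C, ∀ y, |F y| ≤ C) :
    Measurable (nsup A F) := by
  exact Measurable.limsup fun n => (meas_int A hF 0 n).const_mul _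

private theorem int_le {f : ℝ → ℝ} {C : ℝ} (h : ∀ x, |f x| ≤ C) (a b : ℝ) :
    |∫ s in a..b, f s| ≤ C * |b - a| := by
  have h1 := intervalIntegral.norm_integral_le_of_norm_le_const (a := a) (b := b) (f := f)
    (C := C) fun x _ => by
      rw [Real.norm_eq_abs]
      exact h x
  rwa [Real.norm_eq_abs] at h1

private theorem avg_bdd {F : Y → ℝ} {C : ℝ} (hb : ∀ y, |F y| ≤ C) (y : Y) (n : ℕ) :
    |1 / (n : ℝ) * ∫ s in (0 : ℝ)..n, F (A.act y (nn s))| ≤ C := by
  have hC : 0 ≤ C := (abs_nonneg _).trans (hb y)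
  have h1 : |∫ s in (0 : ℝ)..n, F (A.act y (nn s))| ≤ C * |(n : ℝ) - 0| :=
    int_le (fun s => hb _) _ _
  have hn : (0 : ℝ) ≤ n := Nat.cast_nonneg n
  rw [sub_zero, abs_of_nonneg hn] at h1
  rw [abs_mul, abs_of_nonneg (by positivity : (0 : ℝ) ≤ 1 / n)]
  rcases hn.eq_or_lt with h | h
  · rw [← h]
    simpa using hC
  · calc 1 / (n : ℝ) * |∫ s in (0 : ℝ)..n, F (A.act y (nn s))| ≤ 1 / (n : ℝ) * (C * n) := by
          gcongr
      _ = C := by
          field_simp

theorem nsup_bdd {F : Y → ℝ} {C : ℝ} (hb : ∀ y, |F y| ≤ C) (y : Y) : |nsup A F y| ≤ C := by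
  have h := fun n => abs_le.1 (avg_bdd A hb y n)
  have hu : IsBoundedUnder (· ≤ ·) atTop
      fun n : ℕ => 1 / (n : ℝ) * ∫ s in (0 : ℝ)..n, F (A.act y (nn s)) :=
    isBoundedUnder_of ⟨C, fun n => (h n).2⟩
  have hl : IsBoundedUnder (· ≥ ·) atTop
      fun n : ℕ => 1 / (n : ℝ) * ∫ s in (0 : ℝ)..n, F (A.act y (nn s)) :=
    isBoundedUnder_of ⟨-C, fun n => (h n).1⟩
  refine abs_le.2 ⟨?_, ?_⟩
  · exact le_limsup_of_frequently_le (Frequently.of_forall fun n => (h n).1) hu
  · exact limsup_le_of_le hl.isCoboundedUnder_le (Eventually.of_forall fun n => (h n).2)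

private theorem limsup_le_of_sub {u v : ℕ → ℝ} {C : ℝ} (hu : ∀ n, |u n| ≤ C)
    (hv : ∀ n, |v n| ≤ C) (h : Tendsto (fun n => u n - v n) atTop (𝓝 0)) :
    limsup u atTop ≤ limsup v atTop := by
  refine le_of_forall_pos_le_add fun ε hε => ?_
  have hub : IsBoundedUnder (· ≥ ·) atTop u :=
    isBoundedUnder_of ⟨-C, fun n => (abs_le.1 (hu n)).1⟩
  have hva : IsBoundedUnder (· ≤ ·) atTop v := isBoundedUnder_of ⟨C, fun n => (abs_le.1 (hv n)).2⟩
  have hvb : IsBoundedUnder (· ≥ ·) atTop v :=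
    isBoundedUnder_of ⟨-C, fun n => (abs_le.1 (hv n)).1⟩
  have hva' : IsBoundedUnder (· ≤ ·) atTop fun n => v n + ε :=
    isBoundedUnder_of ⟨C + ε, fun n => by
      have := (abs_le.1 (hv n)).2
      show v n + ε ≤ C + ε
      linarith⟩
  rw [← limsup_add_const atTop v ε hva hvb.isCoboundedUnder_le]
  refine limsup_le_limsup ?_ hub.isCoboundedUnder_le hva'
  filter_upwards [h.eventually (gt_mem_nhds hε)] with n hn
  linarith

/-- Strict invariance. Proof: the integrals over `(0, n)` at `y · nn s` and at `y` differ by at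
most
`2 |s| C`, divided by `n`. -/
theorem nsup_inv {F : Y → ℝ} (hF : Measurable F) (hb : ∃ C, ∀ y, |F y| ≤ C) (y : Y) (s : ℝ) :
    nsup A F (A.act y (nn s)) = nsup A F y := by
  obtain ⟨C, hC⟩ := hb
  have hC0 : 0 ≤ C := (abs_nonneg _).trans (hC y)
  have hm : Measurable fun t : ℝ => F (A.act y (nn t)) :=
    hF.comp ((meas_joint A continuous_nn).comp (measurable_const.prodMk measurable_id))
  have hi : ∀ a b : ℝ, IntervalIntegrable (fun t : ℝ => F (A.act y (nn t))) volume a b := by
    intro a b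
    rw [intervalIntegrable_iff]
    exact Measure.integrableOn_of_bounded (M := C) (by simp)
      hm.aestronglyMeasurable (Eventually.of_forall fun t => hC _)
  have key : ∀ n : ℕ, |1 / (n : ℝ) * (∫ t in (0 : ℝ)..n, F (A.act (A.act y (nn s)) (nn t))) -
      1 / (n : ℝ) * ∫ t in (0 : ℝ)..n, F (A.act y (nn t))| ≤ 1 / (n : ℝ) * (2 * C * |s|) := by
    intro n
    have h1 : ∫ t in (0 : ℝ)..n, F (A.act (A.act y (nn s)) (nn t)) =
        ∫ t in (0 + s)..(n + s), F (A.act y (nn t)) := by
      rw [← intervalIntegral.integral_comp_add_right (fun t => F (A.act y (nn t))) s]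
      congr 1
      funext t
      rw [← A.act_mul, ← nn_add, add_comm]
    have h2 : (∫ t in (0 + s)..(n + s), F (A.act y (nn t))) -
        ∫ t in (0 : ℝ)..n, F (A.act y (nn t)) =
        (∫ t in (n : ℝ)..(n + s), F (A.act y (nn t))) -
          ∫ t in (0 : ℝ)..(0 + s), F (A.act y (nn t)) := by
      have e1 := intervalIntegral.integral_add_adjacent_intervals (hi 0 (0 + s))
        (hi (0 + s) (n + s))
      have e2 := intervalIntegral.integral_add_adjacent_intervals (hi 0 n) (hi n (n + s))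
      linarith
    have h3 : |∫ t in (n : ℝ)..(n + s), F (A.act y (nn t))| ≤ C * |(n : ℝ) + s - n| :=
      int_le (fun t => hC _) _ _
    have h4 : |∫ t in (0 : ℝ)..(0 + s), F (A.act y (nn t))| ≤ C * |(0 : ℝ) + s - 0| :=
      int_le (fun t => hC _) _ _
    rw [← mul_sub, h1, h2, abs_mul, abs_of_nonneg (by positivity : (0 : ℝ) ≤ 1 / n)]
    refine mul_le_mul_of_nonneg_left ?_ (by positivity)
    refine (abs_sub _ _).trans ?_
    rw [add_sub_cancel_left] at h3
    rw [zero_add, sub_zero] at h4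
    rw [zero_add]
    linarith
  have hlim : Tendsto (fun n : ℕ => 1 / (n : ℝ) *
      (∫ t in (0 : ℝ)..n, F (A.act (A.act y (nn s)) (nn t))) -
      1 / (n : ℝ) * ∫ t in (0 : ℝ)..n, F (A.act y (nn t))) atTop (𝓝 0) := by
    refine squeeze_zero_norm key ?_
    have := (tendsto_one_div_atTop_nhds_zero_nat (𝕜 := ℝ)).mul_const (2 * C * |s|)
    rwa [zero_mul] at this
  refine le_antisymm ?_ ?_
  · exact limsup_le_of_sub (avg_bdd A hC _) (avg_bdd A hC y) hlim
  · refine limsup_le_of_sub (avg_bdd A hC y) (avg_bdd A hC _) ?_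
    have := hlim.neg
    rw [neg_zero] at this
    refine this.congr fun n => ?_
    ring

end Pool.Agent.MP27775c.DO
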