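import Pool.Agent.Lib.MP_27775c_an_DO.Defs

/-!
# MP_27775c_an, project DO: exceptional harmonic measures
-/

set_option autoImplicit false

open MeasureTheory Set Filter Topology

namespace Pool.Agent.MP27775c.DO

variable {Y : Type*} [TopologicalSpace Y] [MeasurableSpace Y] (A : RAct Y)

/-- Exceptional harmonic measures: they are of Poisson type, for one boundary point of every leaf
(the function `poi (α y)` on the leaf of `y` depends only on the leaf, up to a factor), and there
is a non constant measurable function `U` which is constant on the horocycles centred at this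
boundary point. -/
def IsExc (μ : Measure Y) : Prop :=
  ∃ α U : Y → ℝ, Measurable α ∧ Measurable U ∧ (∀ y, 0 ≤ U y ∧ U y ≤ 1) ∧
    (∀ (g : G) (F : Y → ℝ), Measurable F → (∃ C, ∀ y, |F y| ≤ C) →
      ∫ y, F (A.act y g) ∂μ = ∫ y, F y * poi (α y) (g⁻¹ • UpperHalfPlane.I) ∂μ) ∧
    (∀ᵐ y ∂μ, ∀ (g : G) (z : UpperHalfPlane),
      poi (α y) (g • UpperHalfPlane.I) * poi (α (A.act y g)) z = poi (α y) (g • z)) ∧
    (∀ᵐ y ∂μ, ∀ g : G, poi (α y) (g • UpperHalfPlane.I) = 1 → U (A.act y g) = U y) ∧
    ¬ ∃ c, ∀ᵐ y ∂μ, U y = c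

end Pool.Agent.MP27775c.DO
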