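import Mathlib

/-!
# MP_27775c_an, project DO: Ahlfors currents converge along radii of density one; definitions

Text: /team-store/MP_27775c_h35.md. `G = SL(2, ℝ)` acts from the right on a Polish space `Y`
(in the application the space of continuous maps from the upper half plane to a compact complex
manifold, with the action by precomposition).
-/

set_option autoImplicit false

open MeasureTheory Set Filter Topology
open scoped ENNReal

namespace Pool.Agent.MP27775c.DO

/-- The group `SL(2, ℝ)`. -/
abbrev G : Type := Matrix.SpecialLinearGroup (Fin 2) ℝ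

/-- The upper triangular unipotent matrices. -/
noncomputable def nn (s : ℝ) : G := ⟨!![1, s; 0, 1], by simp [Matrix.det_fin_two]⟩

/-- The lower triangular unipotent matrices. -/
noncomputable def oo (u : ℝ) : G := ⟨!![1, 0; u, 1], by simp [Matrix.det_fin_two]⟩

/-- The diagonal matrices. -/
noncomputable def aa (t : ℝ) : G :=
  ⟨!![Real.exp (t / 2), 0; 0, Real.exp (-(t / 2))], by
    simp [Matrix.det_fin_two, ← Real.exp_add]⟩

/-- The rotations. -/
noncomputable def kk (θ : ℝ) : G :=
  ⟨!![Real.cos θ, Real.sin θ; -Real.sin θ, Real.cos θ], by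
    have h := Real.cos_sq_add_sin_sq θ
    rw [Matrix.det_fin_two]
    simp
    nlinarith⟩

/-- The triangular matrix which maps `i` to `z`. -/
noncomputable def pp (z : UpperHalfPlane) : G := nn z.re * aa (Real.log z.im)

/-- Continuous right actions of `SL(2, ℝ)` for which `-1` acts trivially. -/
structure RAct (Y : Type*) [TopologicalSpace Y] where
  /-- the action -/
  act : Y → G → Y
  act_one : ∀ y, act y 1 = y
  act_mul : ∀ y g h, act y (g * h) = act (act y g) h
  act_neg : ∀ y g, act y (-g) = act y g
  cont : Continuous fun p : Y × G => act p.1 p.2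

/-- The uniform probability measure on `(0, 2π]`. -/
noncomputable def circ : Measure ℝ :=
  ENNReal.ofReal (1 / (2 * Real.pi)) • volume.restrict (Ioc 0 (2 * Real.pi))

section

variable {Y : Type*} [TopologicalSpace Y] [MeasurableSpace Y] (A : RAct Y)

/-- The measure translated by `g`. -/
noncomputable def tr (m : Measure Y) (g : G) : Measure Y := m.map fun y => A.act y g

/-- Invariance under the triangular group. -/
def IsPInv (m : Measure Y) : Prop := (∀ s, tr A m (nn s) = m) ∧ ∀ t, tr A m (aa t) = m

/-- The average over the rotations. -/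
noncomputable def kap (m : Measure Y) : Measure Y :=
  (m.prod circ).map fun p => A.act p.1 (kk p.2)

/-- Harmonic measures: invariant under rotations and under all spherical means. -/
def IsHarm (μ : Measure Y) : Prop :=
  (∀ θ, tr A μ (kk θ) = μ) ∧ ∀ t, kap A (tr A μ (aa t)) = μ

/-- Extremal harmonic probability measures. -/
def IsExt (μ : Measure Y) : Prop :=
  ∀ (μ₁ μ₂ : Measure Y) (c : ℝ≥0∞), IsProbabilityMeasure μ₁ → IsProbabilityMeasure μ₂ →
    IsHarm A μ₁ → IsHarm A μ₂ → 0 < c → c < 1 → μ = c • μ₁ + (1 - c) • μ₂ → μ₁ = μ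

/-- The set `E` is invariant under `g`, up to null sets. -/
def AInv (m : Measure Y) (E : Set Y) (g : G) : Prop :=
  m (symmDiff ((fun y => A.act y g) ⁻¹' E) E) = 0

/-- Ergodicity of the triangular group. -/
def IsPErg (m : Measure Y) : Prop :=
  ∀ E, MeasurableSet E → (∀ s, AInv A m E (nn s)) → (∀ t, AInv A m E (aa t)) →
    m E = 0 ∨ m Eᶜ = 0

/-- Ergodicity of the unipotent group. -/
def IsNErg (m : Measure Y) : Prop :=
  ∀ E, MeasurableSet E → (∀ s, AInv A m E (nn s)) → m E = 0 ∨ m Eᶜ = 0

/-- The Poisson kernel at the boundary point `[cos α : sin α]`, equal to one at `i`. -/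
noncomputable def poi (α : ℝ) (z : UpperHalfPlane) : ℝ :=
  z.im / Complex.normSq ((Real.cos α : ℂ) - z * (Real.sin α : ℂ))

/-- The measure is of Poisson type: its leafwise densities are Poisson kernels. -/
def IsPoisson (μ : Measure Y) : Prop :=
  ∃ α : Y → ℝ, Measurable α ∧ ∀ (g : G) (F : Y → ℝ), Measurable F → (∃ C, ∀ y, |F y| ≤ C) →
    ∫ y, F (A.act y g) ∂μ = ∫ y, F y * poi (α y) (g⁻¹ • UpperHalfPlane.I) ∂μ

/-- The average over the hyperbolic disc of radius `R`. -/
noncomputable def bav (R : ℝ) (F : Y → ℝ) (y : Y) : ℝ :=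
  (∫ z in Metric.ball UpperHalfPlane.I R, F (A.act y (pp z))) /
    (volume (Metric.ball UpperHalfPlane.I R)).toReal

end

end Pool.Agent.MP27775c.DO
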