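import Mathlib

/-!
# MP_27775c_an, project DO, module Gl: images of sets of full measure
-/

set_option autoImplicit false

open MeasureTheory Set Filter Topology

namespace Pool.Agent.MP27775c.DO

/-- Proof. There is a Borel set `B` of full measure on which `P` holds
(`exists_measurable_superset_of_null` for the complement). By inner regularity (finite measure on a
Polish space) there are compact sets `K j ⊆ B` with `μ (K j)ᶜ ≤ 1 / (j + 1)`. The set
`⋃ j, f '' K j` is a countable union of compact sets, so it is Borel, its points `a` have the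
property, and its complement is a null set for `μ.map f`. -/
theorem ae_image {Y M : Type*} [TopologicalSpace Y] [PolishSpace Y] [MeasurableSpace Y]
    [BorelSpace Y] [TopologicalSpace M] [T2Space M] [MeasurableSpace M] [BorelSpace M]
    {μ : Measure Y} [IsFiniteMeasure μ] {f : Y → M} (hf : Continuous f) {P : Y → Prop}
    (hP : ∀ᵐ y ∂μ, P y) : ∀ᵐ a ∂(μ.map f), ∃ y, f y = a ∧ P y := by
  obtain ⟨N, hN1, hN2, hN3⟩ := exists_measurable_superset_of_null (ae_iff.1 hP)
  have hB : MeasurableSet Nᶜ := hN2.compl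
  have hK : ∀ j : ℕ, ∃ K ⊆ Nᶜ, IsCompact K ∧ μ (Nᶜ \ K) < (j + 1 : ENNReal)⁻¹ := fun j =>
    hB.exists_isCompact_sdiff_lt (measure_ne_top μ _)
      (ENNReal.inv_ne_zero.2 (by
        rw [← Nat.cast_one, ← Nat.cast_add]
        exact ENNReal.natCast_ne_top _))
  choose K hK1 hK2 hK3 using hK
  have hM : MeasurableSet (⋃ j, f '' K j) :=
    MeasurableSet.iUnion (fun j => ((hK2 j).image hf).measurableSet)
  have h0 : (μ.map f) (⋃ j, f '' K j)ᶜ = 0 := by
    rw [Measure.map_apply hf.measurable hM.compl]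
    have h1 : ∀ j : ℕ, μ (f ⁻¹' (⋃ j, f '' K j)ᶜ) ≤ (j + 1 : ENNReal)⁻¹ := by
      intro j
      have h2 : f ⁻¹' (⋃ j, f '' K j)ᶜ ⊆ N ∪ (Nᶜ \ K j) := by
        intro y hy
        by_cases hyN : y ∈ N
        · exact Or.inl hyN
        · refine Or.inr ⟨hyN, fun hyK => hy ?_⟩
          exact mem_iUnion.2 ⟨j, y, hyK, rfl⟩
      calc μ (f ⁻¹' (⋃ j, f '' K j)ᶜ) ≤ μ (N ∪ (Nᶜ \ K j)) := measure_mono h2
        _ ≤ μ N + μ (Nᶜ \ K j) := measure_union_le _ _
        _ ≤ (j + 1 : ENNReal)⁻¹ := by rw [hN3, zero_add]; exact (hK3 j).le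
    by_contra hne
    obtain ⟨n, hn⟩ := ENNReal.exists_inv_nat_lt hne
    have h3 := h1 n
    have h4 : ((n : ENNReal) + 1)⁻¹ ≤ (n : ENNReal)⁻¹ := ENNReal.inv_le_inv.2 le_self_add
    exact absurd (h3.trans h4) (not_le.2 hn)
  rw [ae_iff]
  refine measure_mono_null (fun a ha => ?_) h0
  intro ha'
  obtain ⟨j, y, hy, hya⟩ := mem_iUnion.1 ha'
  refine ha ⟨y, hya, ?_⟩
  by_contra hPy
  exact hK1 j hy (hN1 hPy)

end Pool.Agent.MP27775c.DO
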