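import Pool.Agent.Lib.MP_27775c_an_DO.Gg

/-!
# MP_27775c_an, project DO, module Gh: a countable dense set of forms
-/

set_option autoImplicit false

open MeasureTheory Set Filter Topology
open scoped Manifold ContDiff UpperHalfPlane

namespace Pool.Agent.MP27775c.DO

variable {E : Type*} [NormedAddCommGroup E] [NormedSpace ℂ E] [FiniteDimensional ℂ E]
  {M : Type*} [TopologicalSpace M] [ChartedSpace E M]
  [IsManifold 𝓘(ℂ, E) 1 M] [CompactSpace M] [T2Space M]

/-- Homogeneity. Proof: for `v ≠ 0` let `c = (om.val v) ^ (-1/2)`, then `om.val (c v) = 1`;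
for `v = 0` both sides are zero (`val_zero`). -/
theorem le_of_sph {om θ θ' : Form E M} (hom : om.Pos) {C : ℝ}
    (h : ∀ v : TB E M, om.val v = 1 → |θ.val v - θ'.val v| ≤ C) (v : TB E M) :
    |θ.val v - θ'.val v| ≤ C * om.val v := by
  obtain ⟨p, w⟩ := v
  by_cases hw : w = 0
  · subst hw
    rw [val_zero, val_zero, val_zero, sub_zero, abs_zero, mul_zero]
  · have hm : 0 < om.val ⟨p, w⟩ := hom p w hw
    set m := om.val ⟨p, w⟩ with hmdef
    have hc : ‖(((√m)⁻¹ : ℝ) : ℂ)‖ ^ 2 = m⁻¹ := by
      rw [Complex.norm_real, Real.norm_eq_abs, sq_abs, inv_pow, Real.sq_sqrt hm.le]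
    have h1 := om.smul_val p (((√m)⁻¹ : ℝ) : ℂ) w
    have h2 := θ.smul_val p (((√m)⁻¹ : ℝ) : ℂ) w
    have h3 := θ'.smul_val p (((√m)⁻¹ : ℝ) : ℂ) w
    rw [hc] at h1 h2 h3
    rw [← hmdef, inv_mul_cancel₀ hm.ne'] at h1
    have h4 := h _ h1
    rw [h2, h3, ← mul_sub, abs_mul, abs_of_pos (inv_pos.2 hm), inv_mul_le_iff₀ hm] at h4
    rw [mul_comm C m]
    exact h4

/-- Proof: a continuous function is bounded on the compact set `{om.val v = 1}` (`sph_compact`);
homogeneity as in `le_of_sph`. -/
theorem exists_C {om : Form E M} (hom : om.Pos) (θ : Form E M) :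
    ∃ C, 0 ≤ C ∧ ∀ v, |θ.val v| ≤ C * om.val v := by
  obtain ⟨C, hC⟩ := (sph_compact hom).exists_bound_of_continuousOn
    (f := θ.val) θ.continuous_val.continuousOn
  let Z : Form E M :=
    { val := fun _ => 0
      continuous_val := continuous_const
      smul_val := fun p c v => by simp
      par_val := fun p v w => by simp }
  refine ⟨max C 0, le_max_right _ _, fun v => ?_⟩
  have h1 := le_of_sph (θ := θ) (θ' := Z) hom (C := max C 0) (fun w hw => by
    show |θ.val w - 0| ≤ max C 0
    rw [sub_zero, ← Real.norm_eq_abs]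
    exact (hC w hw).trans (le_max_left _ _)) v
  have h2 : θ.val v - Z.val v = θ.val v := sub_zero _
  rw [h2] at h1
  exact h1

/-- Proof. Let `S = {v | om.val v = 1}`, a compact (`sph_compact`) second countable (`sc_TB`)
space. The space `C(S, ℝ)` is second countable (instance of Mathlib), so the set of the
restrictions to `S` of the forms is separable; let `D` be a sequence of forms whose restrictions
are dense in it (there is at least one form, `om`). Then `|θ - D j| ≤ ε` on `S` for some `j`, and
`le_of_sph`. -/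
theorem exists_dense {om : Form E M} (hom : om.Pos) :
    ∃ D : ℕ → Form E M, ∀ (θ : Form E M) (ε : ℝ), 0 < ε →
      ∃ j, ∀ v, |θ.val v - (D j).val v| ≤ ε * om.val v := by
  have i1 : SecondCountableTopology (TB E M) := sc_TB
  have i2 : T2Space (TB E M) := t2_TB
  have i3 : CompactSpace {v : TB E M | om.val v = 1} :=
    isCompact_iff_compactSpace.1 (sph_compact hom)
  let r : Form E M → C({v : TB E M | om.val v = 1}, ℝ) := fun θ =>
    ⟨fun v => θ.val v, θ.continuous_val.comp continuous_subtype_val⟩
  have i4 : SecondCountableTopology C({v : TB E M | om.val v = 1}, ℝ) := inferInstance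
  have i5 : Nonempty (range r) := ⟨⟨r om, om, rfl⟩⟩
  have i6 : SecondCountableTopology (range r) := inferInstance
  let q : ℕ → range r := TopologicalSpace.denseSeq (range r)
  have hq : DenseRange q := TopologicalSpace.denseRange_denseSeq (range r)
  choose D hD using fun j => (q j).2
  refine ⟨D, fun θ ε hε => ?_⟩
  obtain ⟨j, hj⟩ := hq.exists_dist_lt ⟨r θ, θ, rfl⟩ hε
  refine ⟨j, fun v => le_of_sph hom (fun w hw => ?_) v⟩
  have h1 : dist (r θ) (r (D j)) < ε := by
    rw [hD j]
    exact hj
  have h2 := ContinuousMap.dist_apply_le_dist (f := r θ) (g := r (D j)) ⟨w, hw⟩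
  rw [Real.dist_eq] at h2
  exact h2.trans h1.le

end Pool.Agent.MP27775c.DO
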