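import Pool.Agent.Lib.MP_27775c_an_DO.Gf

/-!
# MP_27775c_an, project DO, module Gi: comparison of Ahlfors currents
-/

set_option autoImplicit false

open MeasureTheory Set Filter Topology
open scoped Manifold ContDiff UpperHalfPlane

namespace Pool.Agent.MP27775c.DO

variable {E : Type*} [NormedAddCommGroup E] [NormedSpace ℂ E] [FiniteDimensional ℂ E]
  {M : Type*} [TopologicalSpace M] [ChartedSpace E M]
  [IsManifold 𝓘(ℂ, E) 1 M]

private theorem gi_div {a b c d ε : ℝ} (hε : 0 ≤ ε) (h : |a - b| ≤ ε * c) (hd : c = d) :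
    |a / d - b / d| ≤ ε := by
  subst hd
  rw [← sub_div, abs_div]
  refine div_le_of_le_mul₀ (abs_nonneg _) hε (h.trans ?_)
  exact mul_le_mul_of_nonneg_left (le_abs_self c) hε

/-- Proof: `cont_val`, compactness of the closed ball. -/
theorem ahl_int (θ : Form E M) {φ : C(ℍ, M)} (h : Hol E φ) (R : ℝ) :
    IntegrableOn (fun z : ℍ => z.im ^ 2 * θ.val (vel φ z)) (Metric.ball UpperHalfPlane.I R) := by
  have hc : Continuous fun z : ℍ => z.im ^ 2 * θ.val (vel φ z) :=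
    (UpperHalfPlane.continuous_im.pow 2).mul (cont_val θ h)
  exact (hc.continuousOn.integrableOn_compact (isCompact_closedBall UpperHalfPlane.I R)).mono_set
    Metric.ball_subset_closedBall

/-- Proof: `|ahl θ - ahl θ'| ≤ ε * ahl om`; if `ahl om = 0` then the quotients are zero. -/
theorem sigma_sub {om θ θ' : Form E M} {ε : ℝ} (hε : 0 ≤ ε)
    (hθ : ∀ v, |θ.val v - θ'.val v| ≤ ε * om.val v) {φ : C(ℍ, M)} (h : Hol E φ) (R : ℝ) :
    |sigma om θ φ R - sigma om θ' φ R| ≤ ε := by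
  refine gi_div hε ?_ rfl
  unfold ahl
  rw [← integral_sub (ahl_int θ h R) (ahl_int θ' h R), ← integral_const_mul, ← Real.norm_eq_abs]
  refine norm_integral_le_of_norm_le ((ahl_int om h R).const_mul ε) (ae_of_all _ fun z => ?_)
  rw [Real.norm_eq_abs, ← mul_sub, abs_mul, abs_of_nonneg (sq_nonneg z.im)]
  calc z.im ^ 2 * |θ.val (vel φ z) - θ'.val (vel φ z)| ≤
      z.im ^ 2 * (ε * om.val (vel φ z)) := mul_le_mul_of_nonneg_left (hθ _) (sq_nonneg _)
    _ = ε * (z.im ^ 2 * om.val (vel φ z)) := by ring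

/-- Proof: as `sigma_sub`. -/
theorem sigma_le {om θ : Form E M} {C : ℝ} (hC0 : 0 ≤ C) (hC : ∀ v, |θ.val v| ≤ C * om.val v)
    {φ : C(ℍ, M)} (h : Hol E φ) (R : ℝ) : |sigma om θ φ R| ≤ C := by
  have key : |ahl θ φ R - 0| ≤ C * ahl om φ R := by
    rw [sub_zero]
    unfold ahl
    rw [← integral_const_mul, ← Real.norm_eq_abs]
    refine norm_integral_le_of_norm_le ((ahl_int om h R).const_mul C) (ae_of_all _ fun z => ?_)
    rw [Real.norm_eq_abs, abs_mul, abs_of_nonneg (sq_nonneg z.im)]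
    calc z.im ^ 2 * |θ.val (vel φ z)| ≤
        z.im ^ 2 * (C * om.val (vel φ z)) := mul_le_mul_of_nonneg_left (hC _) (sq_nonneg _)
      _ = C * (z.im ^ 2 * om.val (vel φ z)) := by ring
  have h2 := gi_div hC0 key rfl
  rwa [zero_div, sub_zero] at h2

variable [MeasurableSpace C(ℍ, M)] [BorelSpace C(ℍ, M)]

omit [BorelSpace C(ℍ, M)] in
private theorem gi_ae {μ : Measure C(ℍ, M)} (hμ : ∀ᵐ φ : C(ℍ, M) ∂μ, Hol E φ)
    (θ : Form E M) :
    (fun φ : C(ℍ, M) => θ.val (vel φ UpperHalfPlane.I)) =ᵐ[μ] FF θ := by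
  filter_upwards [hμ] with φ hφ
  unfold FF
  rw [if_pos hφ]

theorem cur_FF {μ : Measure C(ℍ, M)} (hμ : ∀ᵐ φ : C(ℍ, M) ∂μ, Hol E φ) (θ : Form E M) :
    cur μ θ = ∫ φ, FF θ φ ∂μ := by
  unfold cur
  exact integral_congr_ae (gi_ae hμ θ)

theorem FF_int {μ : Measure C(ℍ, M)} (hμ : ∀ᵐ φ : C(ℍ, M) ∂μ, Hol E φ) {om : Form E M}
    (hi : Integrable (fun φ : C(ℍ, M) => om.val (vel φ UpperHalfPlane.I)) μ) :
    Integrable (FF om) μ := by
  exact hi.congr (gi_ae hμ om)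

/-- Proof: the function `om.val (vel φ i)` is positive almost everywhere. -/
theorem cur_pos {μ : Measure C(ℍ, M)} [IsProbabilityMeasure μ]
    (hμ : ∀ᵐ φ : C(ℍ, M) ∂μ, Hol E φ ∧
      mfderiv 𝓘(ℂ) 𝓘(ℂ, E) φ UpperHalfPlane.I (1 : ℂ) ≠ 0) {om : Form E M} (hom : om.Pos)
    (hi : Integrable (fun φ : C(ℍ, M) => om.val (vel φ UpperHalfPlane.I)) μ) :
    0 < cur μ om := by
  have hp : ∀ᵐ φ : C(ℍ, M) ∂μ, 0 < om.val (vel φ UpperHalfPlane.I) := by
    filter_upwards [hμ] with φ hφ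
    exact hom _ _ hφ.2
  unfold cur
  rw [integral_pos_iff_support_of_nonneg_ae (hp.mono fun φ hφ => hφ.le) hi]
  have h1 : μ (Function.support fun φ : C(ℍ, M) => om.val (vel φ UpperHalfPlane.I)) = 1 := by
    rw [← measure_univ (μ := μ)]
    refine measure_congr (eventuallyEq_univ.mpr ?_)
    filter_upwards [hp] with φ hφ
    exact hφ.ne'
  rw [h1]
  exact one_pos

theorem cur_sub {μ : Measure C(ℍ, M)} (hμ : ∀ᵐ φ : C(ℍ, M) ∂μ, Hol E φ) {om θ θ' : Form E M}
    (hi : Integrable (fun φ : C(ℍ, M) => om.val (vel φ UpperHalfPlane.I)) μ) {C ε : ℝ}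
    (hε : 0 ≤ ε) (hθ : ∀ v, |θ.val v - θ'.val v| ≤ ε * om.val v)
    (hC : ∀ v, |θ.val v| ≤ C * om.val v) :
    |cur μ θ / cur μ om - cur μ θ' / cur μ om| ≤ ε := by
  have i0 := FF_int hμ hi
  have i1 : Integrable (FF θ) μ :=
    (i0.const_mul C).mono' (FF_meas θ).aestronglyMeasurable
      (ae_of_all _ fun φ => FF_le hC φ)
  have hC' : ∀ v, |θ'.val v| ≤ (C + ε) * om.val v := by
    intro v
    have h1 := hθ v
    have h2 := hC v
    have h3 : |θ'.val v| ≤ |θ.val v| + |θ.val v - θ'.val v| := by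
      have := abs_sub (θ.val v) (θ.val v - θ'.val v)
      rwa [sub_sub_cancel] at this
    linarith
  have i2 : Integrable (FF θ') μ :=
    (i0.const_mul (C + ε)).mono' (FF_meas θ').aestronglyMeasurable
      (ae_of_all _ fun φ => FF_le hC' φ)
  refine gi_div hε ?_ rfl
  rw [cur_FF hμ θ, cur_FF hμ θ', cur_FF hμ om, ← integral_sub i1 i2, ← integral_const_mul,
    ← Real.norm_eq_abs]
  refine norm_integral_le_of_norm_le (i0.const_mul ε) ?_
  filter_upwards [hμ] with φ hφ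
  unfold FF
  rw [if_pos hφ, if_pos hφ, if_pos hφ, Real.norm_eq_abs]
  exact hθ _

end Pool.Agent.MP27775c.DO
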