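import Mathlib

/-!
# MP_27775c_an, project DO, module Gm: the lemma of Koopman and von Neumann
-/

set_option autoImplicit false

open MeasureTheory Set Filter Topology

namespace Pool.Agent.MP27775c.DO

/-- The set `D` of real numbers has density one. -/
def DensOne (D : Set ℝ) : Prop :=
  MeasurableSet D ∧ Tendsto (fun S : ℝ => (volume (D ∩ Ioc 0 S)).toReal / S) atTop (𝓝 1)

private theorem kvn_int {f : ℝ → ℝ} (hf : Measurable f) (h0 : ∀ R, 0 ≤ f R)
    (hb : ∃ C, ∀ R, f R ≤ C) (S : ℝ) : Integrable f (volume.restrict (Ioc 0 S)) := by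
  obtain ⟨C, hC⟩ := hb
  refine Integrable.of_bound (C := C) hf.aestronglyMeasurable (Eventually.of_forall fun R => ?_)
  rw [Real.norm_eq_abs, abs_of_nonneg (h0 R)]
  exact hC R

private theorem kvn_cheb {f : ℝ → ℝ} (hf : Measurable f) (h0 : ∀ R, 0 ≤ f R)
    (hb : ∃ C, ∀ R, f R ≤ C) {S ε : ℝ} (hS : 0 ≤ S) :
    ε * volume.real ({R | ε < f R} ∩ Ioc 0 S) ≤ ∫ R in (0 : ℝ)..S, f R := by
  have h1 := mul_meas_ge_le_integral_of_nonneg (μ := volume.restrict (Ioc 0 S))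
    (Eventually.of_forall h0) (kvn_int hf h0 hb S) ε
  rw [intervalIntegral.integral_of_le hS]
  by_cases hε : 0 ≤ ε
  · refine le_trans (mul_le_mul_of_nonneg_left ?_ hε) h1
    have hm : MeasurableSet {R | ε < f R} := measurableSet_lt measurable_const hf
    have h2 : volume.real ({R | ε < f R} ∩ Ioc 0 S) =
        (volume.restrict (Ioc 0 S)).real {R | ε < f R} := by
      rw [measureReal_restrict_apply hm]
    rw [h2]
    refine measureReal_mono fun R hR => ?_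
    have h3 : ε < f R := hR
    exact h3.le
  · refine le_trans (mul_nonpos_of_nonpos_of_nonneg (not_le.1 hε).le measureReal_nonneg)
      (integral_nonneg h0)

private theorem kvn_sets {f : ℕ → ℝ → ℝ} (hf : ∀ j, Measurable (f j)) (h0 : ∀ j R, 0 ≤ f j R)
    (hb : ∀ j, ∃ C, ∀ R, f j R ≤ C)
    (h : ∀ j, Tendsto (fun S : ℝ => 1 / S * ∫ R in (0 : ℝ)..S, f j R) atTop (𝓝 0)) :
    ∃ B : ℕ → Set ℝ, (∀ k, MeasurableSet (B k)) ∧ Monotone B ∧
      (∀ k j, j ≤ k → ∀ R, R ∉ B k → f j R ≤ 1 / ((k : ℝ) + 1)) ∧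
      ∀ k, ∃ T : ℝ, ∀ S, T ≤ S → volume.real (B k ∩ Ioc 0 S) ≤ S / ((k : ℝ) + 1) := by
  refine ⟨fun k => ⋃ j ∈ Finset.range (k + 1), {R | 1 / ((k : ℝ) + 1) < f j R}, ?_, ?_, ?_, ?_⟩
  · intro k
    exact Finset.measurableSet_biUnion _ fun j _ => measurableSet_lt measurable_const (hf j)
  · intro k k' hk R hR
    simp only [mem_iUnion, Finset.mem_range, exists_prop] at hR ⊢
    obtain ⟨j, hj, hjR⟩ := hR
    have h4 : (k : ℝ) ≤ k' := Nat.cast_le.2 hk
    have h5 : 1 / ((k' : ℝ) + 1) ≤ 1 / ((k : ℝ) + 1) := by gcongr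
    have h6 : 1 / ((k : ℝ) + 1) < f j R := hjR
    exact ⟨j, by omega, lt_of_le_of_lt h5 h6⟩
  · intro k j hj R hR
    by_contra h1
    refine hR ?_
    simp only [mem_iUnion, Finset.mem_range, exists_prop]
    exact ⟨j, by omega, not_le.1 h1⟩
  · intro k
    have hk0 : (0 : ℝ) < (k : ℝ) + 1 := by positivity
    have h1 : Tendsto (fun S : ℝ => ∑ j ∈ Finset.range (k + 1),
        (1 / S * ∫ R in (0 : ℝ)..S, f j R)) atTop (𝓝 (∑ _j ∈ Finset.range (k + 1), (0 : ℝ))) :=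
      tendsto_finsetSum _ fun j _ => h j
    rw [Finset.sum_const_zero] at h1
    have h2 : ∀ᶠ S : ℝ in atTop, ∑ j ∈ Finset.range (k + 1),
        (1 / S * ∫ R in (0 : ℝ)..S, f j R) < 1 / ((k : ℝ) + 1) ^ 2 :=
      h1.eventually (gt_mem_nhds (by positivity))
    obtain ⟨T, hT⟩ := (h2.and (eventually_gt_atTop 0)).exists_forall_of_atTop
    refine ⟨T, fun S hS => ?_⟩
    obtain ⟨h3, hS0⟩ := hT S hS
    have h4 : volume.real ((⋃ j ∈ Finset.range (k + 1), {R | 1 / ((k : ℝ) + 1) < f j R}) ∩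
        Ioc 0 S) ≤ ∑ j ∈ Finset.range (k + 1),
          volume.real ({R | 1 / ((k : ℝ) + 1) < f j R} ∩ Ioc 0 S) := by
      rw [iUnion₂_inter]
      exact measureReal_biUnion_finset_le _ _
    have h5 : ∑ j ∈ Finset.range (k + 1),
        volume.real ({R | 1 / ((k : ℝ) + 1) < f j R} ∩ Ioc 0 S) ≤
        ∑ j ∈ Finset.range (k + 1), ((k : ℝ) + 1) * ∫ R in (0 : ℝ)..S, f j R := by
      refine Finset.sum_le_sum fun j _ => ?_
      have h6 := kvn_cheb (ε := 1 / ((k : ℝ) + 1)) (hf j) (h0 j) (hb j) hS0.le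
      rw [one_div, inv_mul_le_iff₀ hk0] at h6
      simpa only [one_div] using h6
    have h7 : ∑ j ∈ Finset.range (k + 1), ((k : ℝ) + 1) * ∫ R in (0 : ℝ)..S, f j R =
        ((k : ℝ) + 1) * S * ∑ j ∈ Finset.range (k + 1), (1 / S * ∫ R in (0 : ℝ)..S, f j R) := by
      rw [Finset.mul_sum]
      refine Finset.sum_congr rfl fun j _ => ?_
      field_simp
    refine (h4.trans h5).trans ?_
    rw [h7]
    calc ((k : ℝ) + 1) * S * ∑ j ∈ Finset.range (k + 1), (1 / S * ∫ R in (0 : ℝ)..S, f j R)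
        ≤ ((k : ℝ) + 1) * S * (1 / ((k : ℝ) + 1) ^ 2) := by gcongr
      _ = S / ((k : ℝ) + 1) := by
        field_simp

/-- Proof. Let `B k = {R | ∃ j ≤ k, f j R > 1 / (k + 1)}`, measurable and increasing in `k`. By the
inequality of Chebyshev `|B k ∩ (0, S]| ≤ (k + 1) * ∑_{j ≤ k} ∫ R in 0..S, f j R = o (S)`. Choose
`S₀ < S₁ < ...`, `S k ≥ k + 1`, with `|B k ∩ (0, S]| ≤ S / (k + 1)` for all `S ≥ S k`. Let `Dᶜ` be
the union over `k` of `B k ∩ (S k, S (k + 1)]`. For `S ∈ (S k, S (k + 1)]` the set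
`Dᶜ ∩ (0, S]` is contained in `B k ∩ (0, S]` as `B` is increasing, so its measure is at most
`S / (k + 1)`. For `R ∈ D`, `R ∈ (S k, S (k + 1)]`, `k ≥ j` we have `f j R ≤ 1 / (k + 1)`. -/
theorem kvn {f : ℕ → ℝ → ℝ} (hf : ∀ j, Measurable (f j)) (h0 : ∀ j R, 0 ≤ f j R)
    (hb : ∀ j, ∃ C, ∀ R, f j R ≤ C)
    (h : ∀ j, Tendsto (fun S : ℝ => 1 / S * ∫ R in (0 : ℝ)..S, f j R) atTop (𝓝 0)) :
    ∃ D : Set ℝ, DensOne D ∧ ∀ j, Tendsto (f j) (atTop ⊓ 𝓟 D) (𝓝 0) := by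
  obtain ⟨B, hBm, hBmono, hBout, hBvol⟩ := kvn_sets hf h0 hb h
  -- the times
  choose T hT using hBvol
  set s : ℕ → ℝ := fun k => (k : ℝ) + 1 + ∑ i ∈ Finset.range (k + 1), max (T i) 0 with hs
  have hsT : ∀ k, T k ≤ s k := by
    intro k
    have h1 : max (T k) 0 ≤ ∑ i ∈ Finset.range (k + 1), max (T i) 0 :=
      Finset.single_le_sum (f := fun i => max (T i) 0) (fun i _ => le_max_right _ _)
        (Finset.mem_range.2 (Nat.lt_succ_self k))
    have h2 := le_max_left (T k) 0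
    have h3 : (0 : ℝ) ≤ k := Nat.cast_nonneg k
    simp only [hs]
    linarith
  have hsk : ∀ k : ℕ, (k : ℝ) + 1 ≤ s k := by
    intro k
    have h1 : 0 ≤ ∑ i ∈ Finset.range (k + 1), max (T i) 0 :=
      Finset.sum_nonneg fun i _ => le_max_right _ _
    simp only [hs]
    linarith
  have hsm : StrictMono s := by
    refine strictMono_nat_of_lt_succ fun k => ?_
    have h1 : 0 ≤ max (T (k + 1)) 0 := le_max_right _ _
    simp only [hs]
    rw [Finset.sum_range_succ _ (k + 1)]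
    push_cast
    linarith
  -- the position of a number
  have hpos : ∀ (K : ℕ) (S : ℝ), s K < S → ∃ k, K ≤ k ∧ s k < S ∧ S ≤ s (k + 1) := by
    intro K S hS
    have hex : ∃ m, S ≤ s m := by
      obtain ⟨m, hm⟩ := exists_nat_ge S
      exact ⟨m, hm.trans ((by linarith : (m : ℝ) ≤ (m : ℝ) + 1).trans (hsk m))⟩
    classical
    have h1 := Nat.find_spec hex
    have h2 : K < Nat.find hex := by
      by_contra h3
      have h4 := hsm.monotone (not_lt.1 h3)
      linarith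
    obtain ⟨k, hk⟩ : ∃ k, Nat.find hex = k + 1 := ⟨Nat.find hex - 1, by omega⟩
    refine ⟨k, by omega, ?_, hk ▸ h1⟩
    by_contra h5
    have h6 := Nat.find_min' hex (not_lt.1 h5)
    omega
  set E : Set ℝ := ⋃ k, B k ∩ Ioc (s k) (s (k + 1)) with hE
  have hEm : MeasurableSet E := MeasurableSet.iUnion fun k => (hBm k).inter measurableSet_Ioc
  have hEB : ∀ k S, S ≤ s (k + 1) → E ∩ Ioc 0 S ⊆ B k ∩ Ioc 0 S := by
    rintro k S hS x ⟨hx, hx2⟩
    refine ⟨?_, hx2⟩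
    obtain ⟨i, hi⟩ := mem_iUnion.1 hx
    have h1 : s i < s (k + 1) := lt_of_lt_of_le hi.2.1 (hx2.2.trans hS)
    have h2 : i < k + 1 := hsm.lt_iff_lt.1 h1
    exact hBmono (Nat.lt_succ_iff.1 h2) hi.1
  have hEv : ∀ (K : ℕ) (S : ℝ), s K < S → volume.real (E ∩ Ioc 0 S) ≤ S / ((K : ℝ) + 1) := by
    intro K S hS
    obtain ⟨k, hKk, hk1, hk2⟩ := hpos K S hS
    have h1 := hT k S ((hsT k).trans hk1.le)
    have h2 : volume.real (E ∩ Ioc 0 S) ≤ volume.real (B k ∩ Ioc 0 S) :=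
      measureReal_mono (hEB k S hk2) (ne_top_of_le_ne_top (by simp) (measure_mono
        (inter_subset_right : B k ∩ Ioc 0 S ⊆ Ioc 0 S)))
    have hS0 : 0 ≤ S := by
      have h3 := hsk K
      have h4 : (0 : ℝ) ≤ K := Nat.cast_nonneg K
      linarith
    have h5 : S / ((k : ℝ) + 1) ≤ S / ((K : ℝ) + 1) := by
      have h6 : (K : ℝ) ≤ k := Nat.cast_le.2 hKk
      gcongr
    exact (h2.trans h1).trans h5
  refine ⟨Eᶜ, ⟨hEm.compl, ?_⟩, ?_⟩
  · -- density one
    rw [Metric.tendsto_nhds]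
    intro ε hε
    obtain ⟨K, hK⟩ := exists_nat_one_div_lt hε
    filter_upwards [eventually_gt_atTop (s K)] with S hS
    have hS0 : 0 < S := by
      have h3 := hsk K
      have h4 : (0 : ℝ) ≤ K := Nat.cast_nonneg K
      linarith
    have h1 := hEv K S hS
    have h2 : volume.real (Eᶜ ∩ Ioc 0 S) + volume.real (E ∩ Ioc 0 S) = S := by
      have h3 := measureReal_inter_add_sdiff (μ := volume) (s := Ioc 0 S) hEm (by simp)
      have h4 : Ioc 0 S \ E = Eᶜ ∩ Ioc 0 S := by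
        rw [sdiff_eq, inter_comm]
      rw [h4, inter_comm (Ioc 0 S) E] at h3
      have h5 : volume.real (Ioc 0 S) = S := by
        rw [Real.volume_real_Ioc_of_le hS0.le, sub_zero]
      rw [h5] at h3
      linarith
    have h6 : (volume (Eᶜ ∩ Ioc 0 S)).toReal / S - 1 = -(volume.real (E ∩ Ioc 0 S) / S) := by
      have h7 : (volume (Eᶜ ∩ Ioc 0 S)).toReal = S - volume.real (E ∩ Ioc 0 S) := by
        have h8 : (volume (Eᶜ ∩ Ioc 0 S)).toReal = volume.real (Eᶜ ∩ Ioc 0 S) := rfl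
        rw [h8]
        linarith
      rw [h7]
      field_simp
      ring
    rw [Real.dist_eq, h6, abs_neg, abs_of_nonneg (div_nonneg measureReal_nonneg hS0.le)]
    refine lt_of_le_of_lt ?_ hK
    rw [div_le_iff₀ hS0]
    calc volume.real (E ∩ Ioc 0 S) ≤ S / ((K : ℝ) + 1) := h1
      _ = 1 / ((K : ℝ) + 1) * S := by ring
  · intro j
    rw [Metric.tendsto_nhds]
    intro ε hε
    obtain ⟨K₀, hK₀⟩ := exists_nat_one_div_lt hε
    rw [eventually_inf_principal]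
    filter_upwards [eventually_gt_atTop (s (max K₀ j))] with R hR hRD
    obtain ⟨k, hk, hk1, hk2⟩ := hpos _ R hR
    have h1 : R ∉ B k := fun h2 => hRD (mem_iUnion.2 ⟨k, h2, hk1, hk2⟩)
    have h3 := hBout k j ((le_max_right _ _).trans hk) R h1
    rw [Real.dist_eq, sub_zero, abs_of_nonneg (h0 j R)]
    refine lt_of_le_of_lt (h3.trans ?_) hK₀
    have h4 : (K₀ : ℝ) ≤ k := Nat.cast_le.2 ((le_max_left _ _).trans hk)
    gcongr

end Pool.Agent.MP27775c.DO
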