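import Pool.Agent.Lib.MP_27775c_an_DO.Ga
import Pool.Agent.Lib.MP_27775c_an_DO.Gh
import Pool.Agent.Lib.MP_27775c_an_DO.Gi
import Pool.Agent.Lib.MP_27775c_an_DO.Gm
import Pool.Agent.Lib.MP_27775c_an_DO.AbA

/-!
# MP_27775c_an, project DO, module Gn: convergence for almost every map
-/

set_option autoImplicit false

open MeasureTheory Set Filter Topology
open scoped Manifold ContDiff UpperHalfPlane

namespace Pool.Agent.MP27775c.DO

variable {E : Type*} [NormedAddCommGroup E] [NormedSpace ℂ E] [FiniteDimensional ℂ E]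
  {M : Type*} [TopologicalSpace M] [ChartedSpace E M]
  [IsManifold 𝓘(ℂ, E) 1 M] [CompactSpace M] [T2Space M] [MeasurableSpace C(ℍ, M)]
  [BorelSpace C(ℍ, M)]

private theorem gn_meas (θ : Form E M) (φ : C(ℍ, M)) :
    Measurable fun R : ℝ => bav (pre M) R (FF θ) φ := by
  haveI := polC E M
  exact (bav_meas (pre M) (FF_meas θ)).comp (measurable_id.prodMk measurable_const)

private theorem gn_le {om θ : Form E M} {C : ℝ} (hC0 : 0 ≤ C)
    (hC : ∀ v, |θ.val v| ≤ C * om.val v) {φ : C(ℍ, M)} (h : Hol E φ) (R : ℝ) :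
    |bav (pre M) R (FF θ) φ / bav (pre M) R (FF om) φ| ≤ C := by
  by_cases hR : 0 < R
  · rw [← sigma_FF om θ h hR]
    exact sigma_le hC0 hC h R
  · have h1 : bav (pre M) R (FF om) φ = 0 := by
      unfold bav
      rw [Metric.ball_eq_empty.2 (not_lt.1 hR)]
      simp
    rw [h1, div_zero, abs_zero]
    exact hC0

/-- Proof. Let `D j` be as in `exists_dense`. `abs_ae` for `pre M` (Polish space: `polC`),
`F = FF (D j)`, `W = FF om` (`FF_meas`, `FF_kk`, `FF_le` with `exists_C`, `FF_int`, `cur_FF`,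
`cur_pos`) gives for almost every `φ`, for all `j`, the convergence to zero of the averages of
`f j R = |bav R (FF (D j)) φ / bav R (FF om) φ - cur μ (D j) / cur μ om|`; `f j` is measurable
(`bav_meas`) and bounded (`sigma_FF`, `sigma_le` for `R > 0`; for `R ≤ 0` the ball is empty).
`kvn` gives the set. For general `θ` and `ε` choose `j`; `sigma_sub` and `cur_sub`. -/
theorem ae_main {om : Form E M} (hom : om.Pos) {μ : Measure C(ℍ, M)} [IsProbabilityMeasure μ]
    (hμ : ∀ᵐ φ : C(ℍ, M) ∂μ, Hol E φ ∧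
      mfderiv 𝓘(ℂ) 𝓘(ℂ, E) φ UpperHalfPlane.I (1 : ℂ) ≠ 0)
    (hH : IsHarm (pre M) μ) (hE : IsExt (pre M) μ)
    (hi : Integrable (fun φ : C(ℍ, M) => om.val (vel φ UpperHalfPlane.I)) μ)
    (hP : ¬ IsExc (pre M) μ) :
    ∀ᵐ φ : C(ℍ, M) ∂μ, ∃ D, DensOne D ∧ ∀ θ : Form E M,
      Tendsto (sigma om θ φ) (atTop ⊓ 𝓟 D) (𝓝 (cur μ θ / cur μ om)) := by
  haveI := polC E M
  obtain ⟨D, hD⟩ := exists_dense hom
  have hHol : ∀ᵐ φ : C(ℍ, M) ∂μ, Hol E φ := hμ.mono fun φ h => h.1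
  have hC : ∀ j, ∃ C, 0 ≤ C ∧ ∀ v, |(D j).val v| ≤ C * om.val v := fun j => exists_C hom (D j)
  choose C hC0 hC using hC
  have hpos := cur_pos hμ hom hi
  have hiF := FF_int hHol hi
  have key : ∀ᵐ φ : C(ℍ, M) ∂μ, ∀ j, Tendsto (fun S : ℝ => 1 / S * ∫ R in (0 : ℝ)..S,
      |bav (pre M) R (FF (D j)) φ / bav (pre M) R (FF om) φ - cur μ (D j) / cur μ om|) atTop
      (𝓝 0) := by
    rw [ae_all_iff]
    intro j
    have h1 := abs_ae (pre M) hH hE hP (FF_meas (D j)) (FF_meas om) (FF_kk (D j)) (FF_kk om)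
      (C := C j) (FF_le (hC j)) hiF (by rw [← cur_FF hHol om]; exact hpos)
    rw [← cur_FF hHol (D j), ← cur_FF hHol om] at h1
    exact h1
  filter_upwards [hHol, key] with φ hφ hk
  obtain ⟨E, hE1, hE2⟩ := kvn (f := fun j R =>
    |bav (pre M) R (FF (D j)) φ / bav (pre M) R (FF om) φ - cur μ (D j) / cur μ om|)
    (fun j => (((gn_meas (D j) φ).div (gn_meas om φ)).sub_const _).abs)
    (fun j R => abs_nonneg _)
    (fun j => ⟨C j + |cur μ (D j) / cur μ om|, fun R => (abs_sub _ _).trans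
      (add_le_add (gn_le (hC0 j) (hC j) hφ R) le_rfl)⟩) hk
  refine ⟨E, hE1, fun θ => ?_⟩
  rw [Metric.tendsto_nhds]
  intro ε hε
  have hε3 : 0 < ε / 3 := by positivity
  obtain ⟨j, hj⟩ := hD θ (ε / 3) hε3
  obtain ⟨Cθ, -, hCθ⟩ := exists_C hom θ
  have h1 := (hE2 j).eventually (gt_mem_nhds hε3)
  have h2 : ∀ᶠ R : ℝ in atTop ⊓ 𝓟 E, 0 < R := (eventually_gt_atTop 0).filter_mono inf_le_left
  filter_upwards [h1, h2] with R hR1 hR2
  have h3 := sigma_sub hε3.le hj hφ R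
  have h4 := cur_sub hHol hi hε3.le hj hCθ
  rw [← sigma_FF om (D j) hφ hR2] at hR1
  rw [Real.dist_eq]
  have h5 : sigma om θ φ R - cur μ θ / cur μ om =
      (sigma om θ φ R - sigma om (D j) φ R) + (sigma om (D j) φ R - cur μ (D j) / cur μ om) -
        (cur μ θ / cur μ om - cur μ (D j) / cur μ om) := by ring
  rw [h5]
  refine (abs_sub _ _).trans_lt ?_
  have h6 := abs_add_le (sigma om θ φ R - sigma om (D j) φ R)
    (sigma om (D j) φ R - cur μ (D j) / cur μ om)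
  linarith

end Pool.Agent.MP27775c.DO
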