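import Pool.Agent.Lib.MP_27775c_an_DO.Ga
import Pool.Agent.Lib.MP_27775c_an_DO.Gh
import Pool.Agent.Lib.MP_27775c_an_DO.Gi
import Pool.Agent.Lib.MP_27775c_an_DO.AbB

/-!
# MP_27775c_an, project DO, module Go: convergence in the mean
-/

set_option autoImplicit false

open MeasureTheory Set Filter Topology
open scoped Manifold ContDiff UpperHalfPlane

namespace Pool.Agent.MP27775c.DO

variable {E : Type*} [NormedAddCommGroup E] [NormedSpace ℂ E] [FiniteDimensional ℂ E]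
  {M : Type*} [TopologicalSpace M] [ChartedSpace E M]
  [IsManifold 𝓘(ℂ, E) 1 M] [CompactSpace M] [T2Space M] [MeasurableSpace C(ℍ, M)]
  [BorelSpace C(ℍ, M)]

/-- Proof. `abs_L1` for `pre M` (Polish space: `polC`), `F = FF θ`, `W = FF om` (`FF_meas`,
`FF_kk`, `FF_le` with `exists_C`, `FF_int`, `cur_FF`, `cur_pos`), and `sigma_FF` for `R > 0`,
almost every `φ`. -/
theorem L1_main {om : Form E M} (hom : om.Pos) {μ : Measure C(ℍ, M)} [IsProbabilityMeasure μ]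
    (hμ : ∀ᵐ φ : C(ℍ, M) ∂μ, Hol E φ ∧
      mfderiv 𝓘(ℂ) 𝓘(ℂ, E) φ UpperHalfPlane.I (1 : ℂ) ≠ 0)
    (hH : IsHarm (pre M) μ) (hE : IsExt (pre M) μ)
    (hi : Integrable (fun φ : C(ℍ, M) => om.val (vel φ UpperHalfPlane.I)) μ)
    (hP : ¬ IsExc (pre M) μ) (θ : Form E M) :
    Tendsto (fun R : ℝ => ∫ φ : C(ℍ, M), |sigma om θ φ R - cur μ θ / cur μ om| ∂μ) atTop
      (𝓝 0) := by
  have hpol : PolishSpace C(ℍ, M) := polC E M
  have hμ1 : ∀ᵐ φ : C(ℍ, M) ∂μ, Hol E φ := hμ.mono fun _ h => h.1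
  obtain ⟨C, -, hC⟩ := exists_C hom θ
  have hpos : 0 < ∫ φ, FF om φ ∂μ := by
    rw [← cur_FF hμ1 om]
    exact cur_pos hμ hom hi
  have h1 := abs_L1 (pre M) hH hE hP (FF_meas θ) (FF_meas om) (FF_kk θ) (FF_kk om)
    (C := C) (fun φ => FF_le hC φ) (FF_int hμ1 hi) hpos
  refine h1.congr' ?_
  filter_upwards [eventually_gt_atTop 0] with R hR
  refine integral_congr_ae ?_
  filter_upwards [hμ1] with φ hφ
  rw [sigma_FF om θ hφ hR, cur_FF hμ1 θ, cur_FF hμ1 om]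

end Pool.Agent.MP27775c.DO
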