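import Pool.Agent.Lib.MP_27775c_an_DO.Gk
import Pool.Agent.Lib.MP_27775c_an_DO.Gl
import Pool.Agent.Lib.MP_27775c_an_DO.Gn
import Pool.Agent.Lib.MP_27775c_an_DO.Go

/-!
# MP_27775c_an, project DO: the main theorem
-/

set_option autoImplicit false

open MeasureTheory Set Filter Topology
open scoped Manifold ContDiff UpperHalfPlane

namespace Pool.Agent.MP27775c.DO

variable {E : Type*} [NormedAddCommGroup E] [NormedSpace ℂ E] [FiniteDimensional ℂ E]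
  {M : Type*} [TopologicalSpace M] [ChartedSpace E M]
  [IsManifold 𝓘(ℂ, E) 1 M] [CompactSpace M] [T2Space M] [MeasurableSpace M] [BorelSpace M]
  [MeasurableSpace C(ℍ, M)] [BorelSpace C(ℍ, M)]

theorem main (F : Foliation E M) {om : Form E M} (hom : om.Pos) {μ : Measure C(ℍ, M)}
    [IsProbabilityMeasure μ] (hX : ∀ᵐ φ : C(ℍ, M) ∂μ, IsUniv F φ)
    (hH : IsHarm (pre M) μ) (hE : IsExt (pre M) μ)
    (hi : Integrable (fun φ : C(ℍ, M) => om.val (vel φ UpperHalfPlane.I)) μ)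
    (hP : ¬ IsExc (pre M) μ) :
    (∀ᵐ a ∂(μ.map fun φ : C(ℍ, M) => φ UpperHalfPlane.I), ∃ D, DensOne D ∧
      ∀ φ : ℍ → M, IsUniv F φ → φ UpperHalfPlane.I = a → ∀ θ : Form E M,
        Tendsto (sigma om θ φ) (atTop ⊓ 𝓟 D) (𝓝 (cur μ θ / cur μ om))) ∧
    ∀ θ : Form E M, Tendsto (fun R : ℝ =>
      ∫ φ : C(ℍ, M), |sigma om θ φ R - cur μ θ / cur μ om| ∂μ) atTop (𝓝 0) := by
  have hμ : ∀ᵐ φ : C(ℍ, M) ∂μ, Hol E φ ∧
      mfderiv 𝓘(ℂ) 𝓘(ℂ, E) φ UpperHalfPlane.I (1 : ℂ) ≠ 0 := by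
    filter_upwards [hX] with φ hφ using ⟨hφ.1.1, hφ.2.1 _⟩
  refine ⟨?_, fun θ => L1_main hom hμ hH hE hi hP θ⟩
  have hpol : PolishSpace C(ℍ, M) := polC E M
  have h1 : ∀ᵐ φ : C(ℍ, M) ∂μ, IsUniv F φ ∧ ∃ D, DensOne D ∧ ∀ θ : Form E M,
      Tendsto (sigma om θ φ) (atTop ⊓ 𝓟 D) (𝓝 (cur μ θ / cur μ om)) := by
    filter_upwards [hX, ae_main hom hμ hH hE hi hP] with φ h h' using ⟨h, h'⟩
  have hev : Continuous fun φ : C(ℍ, M) => φ UpperHalfPlane.I :=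
    continuous_eval_const _
  filter_upwards [ae_image hev h1] with a ha
  obtain ⟨φ, rfl, hφ, D, hD, hθ⟩ := ha
  refine ⟨D, hD, fun φ' hφ' he θ => ?_⟩
  obtain ⟨t, ht⟩ := univ_unique hφ hφ' he
  have h2 : φ' = fun z => φ (kk t • z) := funext ht
  rw [h2]
  have h3 : sigma om θ (fun z => φ (kk t • z)) = sigma om θ φ := by
    funext R
    exact sigma_rot om θ hφ.1.1 t R
  rw [h3]
  exact hθ θ

end Pool.Agent.MP27775c.DO
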