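import Pool.Agent.Lib.MP_27775c_an_DO.DefE

/-!
# MP_27775c_an, project DO: foliations, forms, Ahlfors currents; definitions
-/

set_option autoImplicit false

open MeasureTheory Set Filter Topology
open scoped Manifold ContDiff UpperHalfPlane

namespace Pool.Agent.MP27775c.DO

/-- The tangent bundle of a complex manifold. -/
abbrev TB (E : Type*) [NormedAddCommGroup E] [NormedSpace ℂ E]
    (M : Type*) [TopologicalSpace M] [ChartedSpace E M] : Type _ :=
  TangentBundle 𝓘(ℂ, E) M

section

variable {E : Type*} [NormedAddCommGroup E] [NormedSpace ℂ E] {M : Type*}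
  [TopologicalSpace M] [ChartedSpace E M]

/-- The derivative `φ'(z)` of a map from the upper half plane to `M`, as a point of the tangent
bundle. -/
noncomputable def vel (φ : ℍ → M) (z : ℍ) : TB E M :=
  ⟨φ z, mfderiv 𝓘(ℂ) 𝓘(ℂ, E) φ z (1 : ℂ)⟩

variable (E) in
/-- Holomorphic maps from the upper half plane to `M`. -/
def Hol (φ : ℍ → M) : Prop := MDifferentiable 𝓘(ℂ) 𝓘(ℂ, E) φ

/-- Holomorphic vector fields on the subset `U` of `M`. -/
def HolField [IsManifold 𝓘(ℂ, E) 1 M] (X : (q : M) → TangentSpace 𝓘(ℂ, E) q) (U : Set M) :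
    Prop :=
  MDifferentiableOn 𝓘(ℂ, E) 𝓘(ℂ, E).tangent (fun q => (⟨q, X q⟩ : TB E M)) U

variable (E M) in
/-- A holomorphic foliation by curves, singular along the closed set `sing`: a holomorphic field of
complex lines outside of `sing`. -/
structure Foliation [IsManifold 𝓘(ℂ, E) 1 M] where
  /-- the singular set -/
  sing : Set M
  isClosed_sing : IsClosed sing
  /-- the tangent lines -/
  dir : (p : M) → Submodule ℂ (TangentSpace 𝓘(ℂ, E) p)
  /-- near every regular point the lines are spanned by a holomorphic vector field without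
  zeros -/
  spanned : ∀ p ∉ sing, ∃ (U : Set M) (X : (q : M) → TangentSpace 𝓘(ℂ, E) q),
    IsOpen U ∧ p ∈ U ∧ HolField X U ∧ ∀ q ∈ U, X q ≠ 0 ∧ dir q = Submodule.span ℂ {X q}

variable [IsManifold 𝓘(ℂ, E) 1 M]

/-- The tangent vector `v` is tangent to the foliation, at a regular point. -/
def Foliation.Tan (F : Foliation E M) (v : TB E M) : Prop := v.proj ∉ F.sing ∧ v.snd ∈ F.dir v.proj

/-- Holomorphic maps from the upper half plane to a leaf of the foliation. -/
def IsTan (F : Foliation E M) (φ : ℍ → M) : Prop := Hol E φ ∧ ∀ z, F.Tan (vel φ z)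

/-- Universal covering maps of hyperbolic leaves, characterised by their universal property: `φ` is
an immersion into a leaf, and every holomorphic map `ψ` of the upper half plane into the leaves,
with `ψ z = φ w`, factors as `ψ = φ ∘ g` with `g` holomorphic and `g z = w`. -/
def IsUniv (F : Foliation E M) (φ : ℍ → M) : Prop :=
  IsTan F φ ∧ (∀ z, (vel (E := E) φ z).snd ≠ 0) ∧
    ∀ ψ, IsTan F ψ → ∀ z w, ψ z = φ w →
      ∃ g : ℍ → ℍ, MDifferentiable 𝓘(ℂ) 𝓘(ℂ) g ∧ g z = w ∧ ∀ x, ψ x = φ (g x)

/-- `θ(c v, i c v) = |c| ^ 2 θ(v, i v)` for complex numbers `c`. -/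
abbrev Homog (val : TB E M → ℝ) : Prop :=
  ∀ (p : M) (c : ℂ) (v : TangentSpace 𝓘(ℂ, E) p), val ⟨p, c • v⟩ = ‖c‖ ^ 2 * val ⟨p, v⟩

/-- The parallelogram law for `v ↦ θ(v, i v)`. -/
abbrev Paral (val : TB E M → ℝ) : Prop :=
  ∀ (p : M) (v w : TangentSpace 𝓘(ℂ, E) p),
    val ⟨p, v + w⟩ + val ⟨p, v - w⟩ = 2 * val ⟨p, v⟩ + 2 * val ⟨p, w⟩

variable (E M) in
/-- Continuous real `(1, 1)`-forms `θ`, given by their values `θ(v, i v)` on the tangent vectors:
the real functions which are homogeneous for complex scalars and satisfy the parallelogram law on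
every tangent space are exactly the functions `v ↦ θ(v, i v)`. -/
structure Form where
  /-- the value `θ(v, i v)` -/
  val : TB E M → ℝ
  continuous_val : Continuous val
  smul_val : Homog val
  par_val : Paral val

/-- Positive forms, for example Kähler forms. -/
def Form.Pos (om : Form E M) : Prop :=
  ∀ (p : M) (v : TangentSpace 𝓘(ℂ, E) p), v ≠ 0 → 0 < om.val ⟨p, v⟩

/-- The integral of `φ^* θ` over the hyperbolic disc of radius `R` about `i`; `volume` is
`dx dy / y ^ 2`. The disc is the image of the disc of radius `r = tanh (R / 2)` about `0` in the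
unit disc. -/
noncomputable def ahl (θ : Form E M) (φ : ℍ → M) (R : ℝ) : ℝ :=
  ∫ z in Metric.ball UpperHalfPlane.I R, z.im ^ 2 * θ.val (vel φ z)

/-- The Ahlfors current of radius `R`, normalised by the form `om`. -/
noncomputable def sigma (om θ : Form E M) (φ : ℍ → M) (R : ℝ) : ℝ := ahl θ φ R / ahl om φ R

end

/-- The action of `SL(2, ℝ)` on the maps from the upper half plane, by precomposition. -/
noncomputable def pre (M : Type*) [TopologicalSpace M] : RAct C(ℍ, M) where
  act φ g := ⟨fun z => φ (g • z), φ.continuous.comp (continuous_const_smul g)⟩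
  act_one φ := by ext z; simp
  act_mul φ g h := by ext z; simp [mul_smul]
  act_neg φ g := by
    ext z
    have h : (-g) • z = g • z := by
      apply UpperHalfPlane.ext
      rw [UpperHalfPlane.coe_specialLinearGroup_apply, UpperHalfPlane.coe_specialLinearGroup_apply,
        ← neg_div_neg_eq]
      simp
      ring_nf
    exact congrArg φ h
  cont := by
    have h1 : Continuous fun g : G => (⟨fun z : ℍ => g • z, continuous_const_smul g⟩ : C(ℍ, ℍ)) :=
      ContinuousMap.continuous_of_continuous_uncurry _ (continuous_fst.smul continuous_snd)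
    exact Continuous.compCM continuous_fst (h1.comp continuous_snd)

section

variable {E : Type*} [NormedAddCommGroup E] [NormedSpace ℂ E] {M : Type*}
  [TopologicalSpace M] [ChartedSpace E M]
  [IsManifold 𝓘(ℂ, E) 1 M] [MeasurableSpace C(ℍ, M)]

/-- The value of the current `T` of the measure `μ` on the form `θ`. -/
noncomputable def cur (μ : Measure C(ℍ, M)) (θ : Form E M) : ℝ :=
  ∫ φ : C(ℍ, M), θ.val (vel φ UpperHalfPlane.I) ∂μ

end

end Pool.Agent.MP27775c.DO
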