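import Pool.Agent.Lib.MP_27775c_an_DO.Fol

/-!
# MP_27775c_an, project DO, module Ga: the space of continuous maps is Polish
-/

set_option autoImplicit false

open MeasureTheory Set Filter Topology
open scoped Manifold ContDiff UpperHalfPlane

namespace Pool.Agent.MP27775c.DO

/-- Proof: `ChartedSpace.secondCountable_of_sigmaCompact`. -/
theorem scM (E : Type*) [NormedAddCommGroup E] [NormedSpace ℂ E] [FiniteDimensional ℂ E]
    (M : Type*) [TopologicalSpace M] [ChartedSpace E M] [CompactSpace M]
    [T2Space M] : SecondCountableTopology M :=
  ChartedSpace.secondCountable_of_sigmaCompact E M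

/-- Proof: a compact Hausdorff second countable space is metrizable. -/
theorem polM (E : Type*) [NormedAddCommGroup E] [NormedSpace ℂ E] [FiniteDimensional ℂ E]
    (M : Type*) [TopologicalSpace M] [ChartedSpace E M] [CompactSpace M]
    [T2Space M] : PolishSpace M := by
  have := scM E M
  let _ : MetricSpace M := TopologicalSpace.metrizableSpaceMetric M
  infer_instance

/-- Proof. Choose a metric on `M` (`TopologicalSpace.metrizableSpaceMetric`); the uniform structure
`ContinuousMap.compactConvergenceUniformSpace` of `C(ℍ, M)` induces the compact-open topology, it
is complete, countably generated (both are instances of Mathlib) and the topology is second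
countable (instance of Mathlib). -/
theorem polC (E : Type*) [NormedAddCommGroup E] [NormedSpace ℂ E] [FiniteDimensional ℂ E]
    (M : Type*) [TopologicalSpace M] [ChartedSpace E M] [CompactSpace M]
    [T2Space M] : PolishSpace C(ℍ, M) := by
  have := scM E M
  let _ : MetricSpace M := TopologicalSpace.metrizableSpaceMetric M
  have h1 : CompleteSpace C(ℍ, M) := inferInstance
  have h2 : (uniformity C(ℍ, M)).IsCountablyGenerated := inferInstance
  have h3 : SecondCountableTopology C(ℍ, M) := inferInstance
  infer_instance

end Pool.Agent.MP27775c.DO
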