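import Pool.Agent.Lib.MP_27775c_an_DO.Fol

/-!
# MP_27775c_an, project DO, module Gb: precomposition with homographies
-/

set_option autoImplicit false

open MeasureTheory Set Filter Topology
open scoped Manifold ContDiff UpperHalfPlane

namespace Pool.Agent.MP27775c.DO

variable {E : Type*} [NormedAddCommGroup E] [NormedSpace ℂ E] [FiniteDimensional ℂ E]
  {M : Type*} [TopologicalSpace M] [ChartedSpace E M]

private theorem gb_det (g : G) : 0 < (Matrix.SpecialLinearGroup.mapGL ℝ g).det.val := by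
  simp

private theorem gb_smul (g : G) (z : ℍ) : g • z = Matrix.SpecialLinearGroup.mapGL ℝ g • z := rfl

private theorem gb_md (g : G) : MDifferentiable 𝓘(ℂ) 𝓘(ℂ) fun z : ℍ => g • z :=
  UpperHalfPlane.mdifferentiable_smul (gb_det g)

/-- the derivative of a map of the upper half plane to itself -/
private theorem gb_mf {f : ℍ → ℍ} {z : ℍ} {d : ℂ} (hf : MDifferentiableAt 𝓘(ℂ) 𝓘(ℂ) f z)
    (hd : HasDerivAt (fun w : ℂ => ((f (UpperHalfPlane.ofComplex w) : ℍ) : ℂ)) d z) :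
    mfderiv 𝓘(ℂ) 𝓘(ℂ) f z (1 : ℂ) = d := by
  rw [hf.mfderiv]
  have h1 : writtenInExtChartAt 𝓘(ℂ) 𝓘(ℂ) z f =
      fun w : ℂ => ((f (UpperHalfPlane.ofComplex w) : ℍ) : ℂ) := rfl
  have h2 : extChartAt 𝓘(ℂ) z z = (z : ℂ) := rfl
  rw [h1, h2, modelWithCornersSelf_coe, range_id, fderivWithin_univ, hd.hasFDerivAt.fderiv]
  show ContinuousLinearMap.toSpanSingleton ℂ d (1 : ℂ) = d
  rw [ContinuousLinearMap.toSpanSingleton_apply, one_smul]

private theorem gb_c (g : G) (z : ℍ) :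
    ∃ d : ℂ, ‖d‖ = (g • z).im / z.im ∧
      mfderiv 𝓘(ℂ) 𝓘(ℂ) (fun z : ℍ => g • z) z (1 : ℂ) = d := by
  have h1 := (UpperHalfPlane.hasStrictDerivAt_smul (gb_det g) z).hasDerivAt
  have h2 := gb_mf (f := fun z : ℍ => g • z) (gb_md g z) h1
  refine ⟨_, ?_, h2⟩
  have h3 := z.im_smul_eq_div_normSq (Matrix.SpecialLinearGroup.mapGL ℝ g)
  have h4 := z.im_pos.ne'
  rw [gb_smul, h3, norm_div, norm_pow, Complex.normSq_eq_norm_sq]
  simp
  field_simp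

/-- Proof: the map `z ↦ g • z` is holomorphic (Mathlib: `UpperHalfPlane.mdifferentiable_smul` for
matrices of positive determinant, or `UpperHalfPlane.mdifferentiable_iff` and
`coe_specialLinearGroup_apply`). -/
theorem hol_act {φ : ℍ → M} (h : Hol E φ) (g : G) : Hol E fun z => φ (g • z) := by
  intro z
  exact MDifferentiableAt.comp z (h (g • z)) (gb_md g z)

/-- Proof: by `act_neg`-free computation: `φ z = φ (g⁻¹ • g • z)` and `hol_act`. -/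
theorem hol_act_iff {φ : ℍ → M} (g : G) : (Hol E fun z => φ (g • z)) ↔ Hol E φ := by
  refine ⟨fun h => ?_, fun h => hol_act h g⟩
  have h1 := hol_act h g⁻¹
  simpa only [smul_inv_smul] using h1

/-- Chain rule. Proof: `mfderiv_comp`, the derivative of `w ↦ (a w + b) / (c w + d)` at `z` is
`1 / (c z + d) ^ 2`, of absolute value `1 / |c z + d| ^ 2 = (g • z).im / z.im`. -/
theorem vel_act {φ : ℍ → M} (h : Hol E φ) (g : G) (z : ℍ) :
    ∃ c : ℂ, ‖c‖ = (g • z).im / z.im ∧ vel (E := E) (fun z => φ (g • z)) z =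
      ⟨φ (g • z), c • mfderiv 𝓘(ℂ) 𝓘(ℂ, E) φ (g • z) (1 : ℂ)⟩ := by
  obtain ⟨c, hc, hd⟩ := gb_c g z
  refine ⟨c, hc, ?_⟩
  unfold vel
  have h1 : mfderiv 𝓘(ℂ) 𝓘(ℂ, E) (fun z => φ (g • z)) z =
      (mfderiv 𝓘(ℂ) 𝓘(ℂ, E) φ (g • z)).comp (mfderiv 𝓘(ℂ) 𝓘(ℂ) (fun z : ℍ => g • z) z) :=
    mfderiv_comp z (h (g • z)) (gb_md g z)
  rw [h1]
  have h2 : mfderiv 𝓘(ℂ) 𝓘(ℂ, E) φ (g • z)
      (mfderiv 𝓘(ℂ) 𝓘(ℂ) (fun z : ℍ => g • z) z (1 : ℂ)) =
      c • mfderiv 𝓘(ℂ) 𝓘(ℂ, E) φ (g • z) (1 : ℂ) := by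
    rw [hd]
    have h3 : c = c • (1 : ℂ) := (mul_one c).symm
    conv_lhs => rw [h3]
    exact map_smul (mfderiv 𝓘(ℂ) 𝓘(ℂ, E) φ (g • z)) c (1 : ℂ)
  exact congrArg (fun v => (⟨φ (g • z), v⟩ : TB E M)) h2

theorem val_act [IsManifold 𝓘(ℂ, E) 1 M] (θ : Form E M) {φ : ℍ → M} (h : Hol E φ) (g : G)
    (z : ℍ) : z.im ^ 2 * θ.val (vel (fun z => φ (g • z)) z) =
      (g • z).im ^ 2 * θ.val (vel φ (g • z)) := by
  obtain ⟨c, hc, hv⟩ := vel_act h g z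
  have h1 := z.im_pos.ne'
  rw [hv, θ.smul_val, hc]
  unfold vel
  field_simp

end Pool.Agent.MP27775c.DO
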