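import Pool.Agent.Lib.MP_27775c_an_DO.Fol

/-!
# MP_27775c_an, project DO, module Gc: holomorphic maps in a chart
-/

set_option autoImplicit false

open MeasureTheory Set Filter Topology
open scoped Manifold ContDiff UpperHalfPlane

namespace Pool.Agent.MP27775c.DO

variable {E : Type*} [NormedAddCommGroup E] [NormedSpace ℂ E] [FiniteDimensional ℂ E]
  {M : Type*} [TopologicalSpace M] [ChartedSpace E M]

variable (E) in
/-- The map `φ` in the chart of `M` at the point `p`, as a function of a complex number. -/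
noncomputable def rep (p : M) (φ : ℍ → M) (w : ℂ) : E :=
  chartAt E p (φ (UpperHalfPlane.ofComplex w))

variable [IsManifold 𝓘(ℂ, E) 1 M]

/-- Proof: composition of the holomorphic maps `UpperHalfPlane.ofComplex` (on the upper half plane,
`UpperHalfPlane.contMDiffAt_ofComplex` or `mdifferentiableAt_ofComplex`), `φ` and the chart
(`mdifferentiableAt_atlas`, `mdifferentiableOn_chart`). -/
theorem rep_diff {φ : ℍ → M} (h : Hol E φ) (p : M) {z : ℍ}
    (hz : φ z ∈ (chartAt E p).source) : DifferentiableAt ℂ (rep E p φ) (z : ℂ) := by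
  rw [← mdifferentiableAt_iff_differentiableAt]
  have h1 : MDifferentiableAt 𝓘(ℂ) 𝓘(ℂ) UpperHalfPlane.ofComplex (z : ℂ) :=
    UpperHalfPlane.mdifferentiableAt_ofComplex z.im_pos
  have h2 : MDifferentiableAt 𝓘(ℂ) 𝓘(ℂ, E) φ (UpperHalfPlane.ofComplex (z : ℂ)) := h _
  have h3 : MDifferentiableAt 𝓘(ℂ, E) 𝓘(ℂ, E) (chartAt E p)
      (φ (UpperHalfPlane.ofComplex (z : ℂ))) := by
    rw [UpperHalfPlane.ofComplex_apply]
    exact mdifferentiableAt_atlas (chart_mem_atlas _ _) hz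
  exact h3.comp (z : ℂ) (h2.comp (z : ℂ) h1)

/-- Proof: near `z` the map `φ` is the composition of `rep E p φ` with the coercion `ℍ → ℂ`
(`UpperHalfPlane.mdifferentiable_coe`) and the inverse of the chart. -/
theorem of_rep_diff {φ : ℍ → M} (hc : Continuous φ) (p : M) {z : ℍ}
    (hz : φ z ∈ (chartAt E p).source) (h : DifferentiableAt ℂ (rep E p φ) (z : ℂ)) :
    MDifferentiableAt 𝓘(ℂ) 𝓘(ℂ, E) φ z := by
  have h1 : MDifferentiableAt 𝓘(ℂ) 𝓘(ℂ, E) (rep E p φ) (z : ℂ) := by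
    rw [mdifferentiableAt_iff_differentiableAt]
    exact h
  have h2 : MDifferentiableAt 𝓘(ℂ) 𝓘(ℂ) ((↑) : ℍ → ℂ) z := UpperHalfPlane.mdifferentiable_coe z
  have h0 : rep E p φ (z : ℂ) = chartAt E p (φ z) := by
    unfold rep
    rw [UpperHalfPlane.ofComplex_apply]
  have h3 : MDifferentiableAt 𝓘(ℂ, E) 𝓘(ℂ, E) (chartAt E p).symm
      (rep E p φ (z : ℂ)) := by
    rw [h0]
    exact mdifferentiableAt_atlas_symm (chart_mem_atlas _ _) ((chartAt E p).map_source hz)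
  have h4 := h3.comp z (h1.comp z h2)
  refine h4.congr_of_eventuallyEq ?_
  filter_upwards [hc.continuousAt.preimage_mem_nhds ((chartAt E p).open_source.mem_nhds hz)]
    with w hw
  have h5 : rep E p φ (w : ℂ) = chartAt E p (φ w) := by
    unfold rep
    rw [UpperHalfPlane.ofComplex_apply]
  simp only [Function.comp_apply]
  rw [h5, (chartAt E p).left_inv hw]

private theorem gc_ofComplex (z : ℍ) : HasMFDerivAt 𝓘(ℂ) 𝓘(ℂ) UpperHalfPlane.ofComplex (z : ℂ)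
    (ContinuousLinearMap.id ℂ ℂ) := by
  refine ⟨(UpperHalfPlane.mdifferentiableAt_ofComplex z.im_pos).continuousAt, ?_⟩
  simp only [writtenInExtChartAt, extChartAt, mfld_simps]
  have h : HasFDerivWithinAt (UpperHalfPlane.coe ∘ UpperHalfPlane.ofComplex)
      (ContinuousLinearMap.id ℂ ℂ) univ (z : ℂ) :=
    ((hasFDerivAt_id (𝕜 := ℂ) (z : ℂ)).congr_of_eventuallyEq
      (UpperHalfPlane.eventuallyEq_coe_comp_ofComplex z.im_pos)).hasFDerivWithinAt
  exact h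

/-- The velocity in the trivialization of the tangent bundle at `p`. Proof: the trivialization is
given by the derivative of the chart at `p` (`TangentBundle.trivializationAt_apply`,
`tangentBundleCore_coordChange`, `mfderiv_chartAt_eq_tangentCoordChange`), chain rule. -/
theorem triv_vel {φ : ℍ → M} (h : Hol E φ) (p : M) {z : ℍ}
    (hz : φ z ∈ (chartAt E p).source) :
    (trivializationAt E (TangentSpace 𝓘(ℂ, E)) p (vel φ z)).2 =
      deriv (rep E p φ) (z : ℂ) := by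
  have h0 : UpperHalfPlane.ofComplex (z : ℂ) = z := UpperHalfPlane.ofComplex_apply z
  have h1 : HasMFDerivAt 𝓘(ℂ) 𝓘(ℂ) UpperHalfPlane.ofComplex (z : ℂ)
    (ContinuousLinearMap.id ℂ ℂ) := gc_ofComplex z
  have h3 : MDifferentiableAt 𝓘(ℂ, E) 𝓘(ℂ, E) (chartAt E p) (φ z) :=
    mdifferentiableAt_atlas (chart_mem_atlas _ _) hz
  have h4 := mfderiv_comp_of_eq (h z) h1.mdifferentiableAt h0
  have h6 : MDifferentiableAt 𝓘(ℂ) 𝓘(ℂ, E) (φ ∘ UpperHalfPlane.ofComplex) (z : ℂ) :=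
    MDifferentiableAt.comp_of_eq (z : ℂ) (h z) h1.mdifferentiableAt h0
  have h5 := mfderiv_comp_of_eq h3 h6 (by rw [Function.comp_apply, h0])
  have h7 : mfderiv 𝓘(ℂ) 𝓘(ℂ, E) (rep E p φ) (z : ℂ) = fderiv ℂ (rep E p φ) (z : ℂ) :=
    mfderiv_eq_fderiv
  have h9 : ∀ w : ℍ, w = z → (mfderiv 𝓘(ℂ, E) 𝓘(ℂ, E) (chartAt E p) (φ w))
      (mfderiv 𝓘(ℂ) 𝓘(ℂ, E) φ w (1 : ℂ)) =
      (mfderiv 𝓘(ℂ, E) 𝓘(ℂ, E) (chartAt E p) (φ z))
        (mfderiv 𝓘(ℂ) 𝓘(ℂ, E) φ z (1 : ℂ)) := by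
    rintro w rfl
    rfl
  have h8 : (mfderiv 𝓘(ℂ, E) 𝓘(ℂ, E) (chartAt E p) (φ z))
      (mfderiv 𝓘(ℂ) 𝓘(ℂ, E) φ z (1 : ℂ)) = deriv (rep E p φ) (z : ℂ) := by
    change _ = fderiv ℂ (rep E p φ) (z : ℂ) 1
    rw [← h7, ← h9 _ h0]
    change _ = mfderiv 𝓘(ℂ) 𝓘(ℂ, E) (chartAt E p ∘ φ ∘ UpperHalfPlane.ofComplex) (z : ℂ)
      (1 : ℂ)
    rw [h5, h4, h1.mfderiv]
    rfl
  rw [← h8, ← (hasMFDerivAt_extChartAt (I := 𝓘(ℂ, E)) hz).mfderiv,
    ← TangentBundle.continuousLinearMapAt_trivializationAt hz]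
  exact (Bundle.Trivialization.continuousLinearMapAt_apply_of_mem ℂ
    (trivializationAt E (TangentSpace 𝓘(ℂ, E)) p) hz
    (mfderiv 𝓘(ℂ) 𝓘(ℂ, E) φ z (1 : ℂ))).symm

end Pool.Agent.MP27775c.DO
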