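import Pool.Agent.Lib.MP_27775c_an_DO.Gc

/-!
# MP_27775c_an, project DO, module Gd: convergence in a chart
-/

set_option autoImplicit false

open MeasureTheory Set Filter Topology
open scoped Manifold ContDiff UpperHalfPlane

namespace Pool.Agent.MP27775c.DO

variable {E : Type*} [NormedAddCommGroup E] [NormedSpace ℂ E] [FiniteDimensional ℂ E]
  {M : Type*} [TopologicalSpace M] [ChartedSpace E M]

private theorem gd_cont {w : ℂ} (hw : 0 < w.im) : ContinuousAt UpperHalfPlane.ofComplex w :=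
  (UpperHalfPlane.contMDiffAt_ofComplex (n := 0) hw).continuousAt

private theorem gd_ev {M : Type*} [TopologicalSpace M] (φ₀ : C(ℍ, M)) {K : Set ℂ}
    (hK : IsCompact K) (hK' : ∀ w ∈ K, 0 < w.im) {V : Set M} (hV : IsOpen V)
    (h : ∀ w ∈ K, φ₀ (UpperHalfPlane.ofComplex w) ∈ V) :
    ∀ᶠ φ : C(ℍ, M) in 𝓝 φ₀, ∀ w ∈ K, φ (UpperHalfPlane.ofComplex w) ∈ V := by
  have h1 : IsCompact (UpperHalfPlane.ofComplex '' K) :=
    hK.image_of_continuousOn fun w hw => (gd_cont (hK' w hw)).continuousWithinAt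
  have h2 : MapsTo φ₀ (UpperHalfPlane.ofComplex '' K) V := by
    rintro _ ⟨w, hw, rfl⟩
    exact h w hw
  filter_upwards [ContinuousMap.eventually_mapsTo h1 hV h2] with φ hφ w hw
  exact hφ (mem_image_of_mem _ hw)

/-- Proof: `{φ | φ '' K' ⊆ U}` is open in the compact-open topology for `K'` compact and `U` open
(`ContinuousMap.isOpen_setOf_mapsTo`), `K'` the image of `K` in the upper half plane. -/
theorem ev_source (p : M) (φ₀ : C(ℍ, M)) {K : Set ℂ} (hK : IsCompact K)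
    (hK' : ∀ w ∈ K, 0 < w.im)
    (hs : ∀ w ∈ K, φ₀ (UpperHalfPlane.ofComplex w) ∈ (chartAt E p).source) :
    ∀ᶠ φ : C(ℍ, M) in 𝓝 φ₀, ∀ w ∈ K,
      φ (UpperHalfPlane.ofComplex w) ∈ (chartAt E p).source :=
  gd_ev φ₀ hK hK' (chartAt E p).open_source hs

/-- Uniform convergence on `K` in the chart. Proof. Let `ε > 0`, `w₀ ∈ K` and let `V` be the open
set of the `q` in the source of the chart with image at distance less than `ε / 2` from
`rep E p φ₀ w₀`. There is a compact neighbourhood `K₀` of `w₀` in `K` which `φ₀` maps to `V`; for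
`φ` in the open set of the maps which map (the image in the upper half plane of) `K₀` to `V` the
distance of `rep E p φ` and `rep E p φ₀` is less than `ε` on `K₀`. Finitely many `K₀` cover
`K`. -/
theorem unif_rep (p : M) (φ₀ : C(ℍ, M)) {K : Set ℂ} (hK : IsCompact K)
    (hK' : ∀ w ∈ K, 0 < w.im)
    (hs : ∀ w ∈ K, φ₀ (UpperHalfPlane.ofComplex w) ∈ (chartAt E p).source) :
    TendstoUniformlyOn (fun (φ : C(ℍ, M)) (w : ℂ) => rep E p φ w) (rep E p φ₀) (𝓝 φ₀) K := by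
  rw [← tendstoLocallyUniformlyOn_iff_tendstoUniformlyOn_of_compact hK,
    Metric.tendstoLocallyUniformlyOn_iff]
  intro ε hε w₀ hw₀
  have hV : IsOpen ((chartAt E p).source ∩
      (chartAt E p) ⁻¹' Metric.ball (rep E p φ₀ w₀) (ε / 2)) :=
    (chartAt E p).isOpen_inter_preimage Metric.isOpen_ball
  have hc : ContinuousAt (fun w : ℂ => φ₀ (UpperHalfPlane.ofComplex w)) w₀ :=
    φ₀.continuous.continuousAt.comp (gd_cont (hK' w₀ hw₀))
  have h1 : {w : ℂ | φ₀ (UpperHalfPlane.ofComplex w) ∈ (chartAt E p).source ∩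
      (chartAt E p) ⁻¹' Metric.ball (rep E p φ₀ w₀) (ε / 2)} ∈ 𝓝 w₀ :=
    hc (hV.mem_nhds ⟨hs w₀ hw₀, Metric.mem_ball_self (half_pos hε)⟩)
  have h2 : {w : ℂ | 0 < w.im} ∈ 𝓝 w₀ :=
    (isOpen_lt continuous_const Complex.continuous_im).mem_nhds (hK' w₀ hw₀)
  obtain ⟨K₀, hK₀, hsub, hcomp⟩ := local_compact_nhds (inter_mem h1 h2)
  refine ⟨K₀, mem_nhdsWithin_of_mem_nhds hK₀, ?_⟩
  filter_upwards [gd_ev φ₀ hcomp (fun w hw => (hsub hw).2) hV fun w hw => (hsub hw).1] with φ hφ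
    w hw
  have h3 : dist (rep E p φ₀ w) (rep E p φ₀ w₀) < ε / 2 := (hsub hw).1.2
  have h4 : dist (rep E p φ w) (rep E p φ₀ w₀) < ε / 2 := (hφ w hw).2
  have h5 := dist_triangle_right (rep E p φ₀ w) (rep E p φ w) (rep E p φ₀ w₀)
  linarith

end Pool.Agent.MP27775c.DO
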