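import Pool.Agent.Lib.MP_27775c_an_DO.Gd

/-!
# MP_27775c_an, project DO, module Ge: limits of holomorphic maps
-/

set_option autoImplicit false

open MeasureTheory Set Filter Topology
open scoped Manifold ContDiff UpperHalfPlane

namespace Pool.Agent.MP27775c.DO

variable {E : Type*} [NormedAddCommGroup E] [NormedSpace ℂ E] [FiniteDimensional ℂ E]
  {M : Type*} [TopologicalSpace M] [ChartedSpace E M]
  [IsManifold 𝓘(ℂ, E) 1 M]

/-- Uniform convergence in the chart, on a small disc. -/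
private theorem ge_disc (φ₀ : C(ℍ, M)) (z : ℍ) :
    ∃ r > 0, (∀ᶠ φ : C(ℍ, M) in 𝓝[{φ | Hol E φ}] φ₀,
        DifferentiableOn ℂ (rep E (φ₀ z) φ) (Metric.ball (z : ℂ) r)) ∧
      (∀ᶠ φ : C(ℍ, M) in 𝓝[{φ | Hol E φ}] φ₀, φ z ∈ (chartAt E (φ₀ z)).source) ∧
      TendstoLocallyUniformlyOn (fun (φ : C(ℍ, M)) (w : ℂ) => rep E (φ₀ z) φ w)
        (rep E (φ₀ z) φ₀) (𝓝[{φ | Hol E φ}] φ₀) (Metric.ball (z : ℂ) r) := by
  set p := φ₀ z with hp
  have hz : UpperHalfPlane.ofComplex (z : ℂ) = z := UpperHalfPlane.ofComplex_apply z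
  have hc : ContinuousAt (fun w : ℂ => φ₀ (UpperHalfPlane.ofComplex w)) (z : ℂ) :=
    φ₀.continuous.continuousAt.comp
      (UpperHalfPlane.contMDiffAt_ofComplex (n := 0) z.im_pos).continuousAt
  have h1 : {w : ℂ | φ₀ (UpperHalfPlane.ofComplex w) ∈ (chartAt E p).source} ∈
      𝓝 (z : ℂ) := by
    refine hc ((chartAt E p).open_source.mem_nhds ?_)
    show φ₀ (UpperHalfPlane.ofComplex (z : ℂ)) ∈ _
    rw [hz]
    exact mem_chart_source E p
  have h2 : {w : ℂ | 0 < w.im} ∈ 𝓝 (z : ℂ) :=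
    (isOpen_lt continuous_const Complex.continuous_im).mem_nhds z.im_pos
  obtain ⟨r, hr, hsub⟩ := Metric.nhds_basis_closedBall.mem_iff.1 (inter_mem h1 h2)
  have hK : IsCompact (Metric.closedBall (z : ℂ) r) := isCompact_closedBall _ _
  have hev := ev_source p φ₀ hK (fun w hw => (hsub hw).2) fun w hw => (hsub hw).1
  have hun := unif_rep p φ₀ hK (fun w hw => (hsub hw).2) fun w hw => (hsub hw).1
  refine ⟨r, hr, ?_, ?_, ?_⟩
  · filter_upwards [mem_nhdsWithin_of_mem_nhds hev, self_mem_nhdsWithin] with φ hφ hH w hw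
    have hw' := Metric.ball_subset_closedBall hw
    have him : 0 < w.im := (hsub hw').2
    have h3 := hφ w hw'
    rw [UpperHalfPlane.ofComplex_apply_of_im_pos him] at h3
    exact (rep_diff (E := E) hH p h3).differentiableWithinAt
  · filter_upwards [mem_nhdsWithin_of_mem_nhds hev] with φ hφ
    have h3 := hφ z (Metric.mem_closedBall_self hr.le)
    rwa [hz] at h3
  · refine (TendstoUniformlyOn.tendstoLocallyUniformlyOn ?_)
    intro u hu
    exact mem_nhdsWithin_of_mem_nhds
      ((hun.mono Metric.ball_subset_closedBall) u hu)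

/-- The set of the holomorphic maps is closed. Proof. Let `φ₀` be in the closure, `z ∈ ℍ`,
`p = φ₀ z`. Choose a closed disc `K` about `z` in the upper half plane with `φ₀ (K)` in the source
of the chart at `p`. For holomorphic `φ` near `φ₀` the function `rep E p φ` is holomorphic on the
interior of `K` (`ev_source`, `rep_diff`), and they converge uniformly (`unif_rep`) along
`𝓝[{φ | Hol E φ}] φ₀`, which is a non-trivial filter, so the limit is holomorphic
(`TendstoLocallyUniformlyOn.differentiableOn`); `of_rep_diff`. -/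
theorem closed_hol : IsClosed {φ : C(ℍ, M) | Hol E φ} := by
  rw [← closure_subset_iff_isClosed]
  intro φ₀ h₀ z
  have hne : (𝓝[{φ : C(ℍ, M) | Hol E φ}] φ₀).NeBot := mem_closure_iff_nhdsWithin_neBot.1 h₀
  obtain ⟨r, hr, h1, -, h3⟩ := ge_disc (E := E) φ₀ z
  have h4 := h3.differentiableOn h1 Metric.isOpen_ball
  exact of_rep_diff φ₀.continuous (φ₀ z) (mem_chart_source E (φ₀ z))
    ((h4 z (Metric.mem_ball_self hr)).differentiableAt
      (Metric.isOpen_ball.mem_nhds (Metric.mem_ball_self hr)))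

/-- The velocity at a point is continuous on the set of holomorphic maps. Proof. As before, with
`TendstoLocallyUniformlyOn.deriv`: `deriv (rep E p φ) z → deriv (rep E p φ₀) z` as `φ → φ₀` within
the holomorphic maps, `p = φ₀ z`. By `triv_vel` this is the second coordinate of `vel φ z` in the
trivialization at `p`; the base point `φ z` converges to `φ₀ z`. Conclude with
`FiberBundle.continuousWithinAt_totalSpace`. -/
theorem cont_vel (z : ℍ) :
    ContinuousOn (fun φ : C(ℍ, M) => vel (E := E) φ z) {φ : C(ℍ, M) | Hol E φ} := by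
  intro φ₀ h₀
  rw [FiberBundle.continuousWithinAt_totalSpace]
  refine ⟨(continuous_eval_const z).continuousWithinAt, ?_⟩
  obtain ⟨r, hr, h1, h2, h3⟩ := ge_disc (E := E) φ₀ z
  have h4 := (h3.deriv h1 Metric.isOpen_ball).tendsto_at (Metric.mem_ball_self hr)
  have h5 : (trivializationAt E (TangentSpace 𝓘(ℂ, E)) (φ₀ z) (vel φ₀ z)).2 =
      deriv (rep E (φ₀ z) φ₀) (z : ℂ) :=
    triv_vel h₀ (φ₀ z) (mem_chart_source E (φ₀ z))
  have h6 : ∀ᶠ φ : C(ℍ, M) in 𝓝[{φ | Hol E φ}] φ₀,
      deriv (rep E (φ₀ z) φ) (z : ℂ) =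
        (trivializationAt E (TangentSpace 𝓘(ℂ, E)) (φ₀ z) (vel φ z)).2 := by
    filter_upwards [h2, self_mem_nhdsWithin] with φ hφ hH
    exact (triv_vel hH (φ₀ z) hφ).symm
  show Tendsto _ _ (𝓝 (trivializationAt E (TangentSpace 𝓘(ℂ, E)) (φ₀ z) (vel φ₀ z)).2)
  rw [h5]
  exact h4.congr' h6

end Pool.Agent.MP27775c.DO
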