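import Pool.Agent.Lib.MP_27775c_an_DO.KapA

/-!
# MP_27775c_an, project DO, module KapB: the averaged measure is harmonic
-/

set_option autoImplicit false

open MeasureTheory Set Filter Topology

namespace Pool.Agent.MP27775c.DO

variable {Y : Type*} [TopologicalSpace Y] [PolishSpace Y] [MeasurableSpace Y] [BorelSpace Y]
  (A : RAct Y)

private theorem kb_inner {m : Measure Y} [IsProbabilityMeasure m] (h : IsPInv A m)
    (F : BoundedContinuousFunction Y ℝ) (g : G) :
    ∫ θ', ∫ y, F (A.act y (g * kk θ')) ∂m ∂circ = ∫ y, F y ∂(kap A m) := by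
  obtain ⟨φ, hφ⟩ := iwa g
  set z := g • UpperHalfPlane.I with hz
  have hb : ∃ C, ∀ y, |F y| ≤ C := ⟨‖F‖, fun y => by
    have := F.norm_coe_le_norm y
    rwa [Real.norm_eq_abs] at this⟩
  have hp : Function.Periodic (fun θ => ∫ y, F (A.act y (kk θ)) ∂m) (2 * Real.pi) := by
    intro θ
    simp only
    rw [kk_periodic θ]
  rw [integral_kap A m F.continuous.measurable hb, ← circ_shift hp φ]
  refine integral_congr_ae (Eventually.of_forall fun θ' => ?_)
  simp only
  have h1 : ∀ y, A.act y (g * kk θ') = A.act (A.act y (pp z)) (kk (θ' + φ)) := by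
    intro y
    rw [← A.act_mul, add_comm θ' φ, kk_add, ← mul_assoc, ← hφ]
  simp only [h1]
  have h2 := integral_tr A m (pp z) (fun y => F (A.act y (kk (θ' + φ))))
  rw [tr_pp A h z] at h2
  exact h2.symm

/-- The average over the rotations of a measure which is invariant under the triangular group is
harmonic.

Proof. Invariance under rotations: `kap_tr`. Let `F` be bounded continuous (`ext_bcf`). By
`integral_kap` twice the integral of `F` with respect to `kap A (tr A (kap A m) (aa t))` is
`∫ θ', ∫ θ, ∫ y, F (y · kk θ · aa t · kk θ') ∂m`; exchange the integrals (Fubini); for fixed `θ`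
write
`kk θ * aa t = pp z * kk φ` (`iwa`), then by the invariance of `m` under `pp z` (`tr_pp`,
`integral_tr`), `kk_add` and `circ_shift` the inner double integral over `θ'`, `y` is
`∫ θ', ∫ y, F (y · kk θ') ∂m = ∫ F ∂(kap A m)`. -/
theorem kap_harm {m : Measure Y} [IsProbabilityMeasure m] (h : IsPInv A m) :
    IsHarm A (kap A m) := by
  refine ⟨fun θ => kap_tr A m θ, fun t => ?_⟩
  have i1 : IsProbabilityMeasure (kap A m) := kap_prob A m
  have i2 : IsProbabilityMeasure (tr A (kap A m) (aa t)) := tr_prob A _ _
  have i3 : IsProbabilityMeasure (kap A (tr A (kap A m) (aa t))) := kap_prob A _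
  refine ext_bcf fun F => ?_
  have hb : ∃ C, ∀ y, |F y| ≤ C := ⟨‖F‖, fun y => by
    have := F.norm_coe_le_norm y
    rwa [Real.norm_eq_abs] at this⟩
  rw [integral_kap A _ F.continuous.measurable hb]
  have h1 : ∀ θ', ∫ y, F (A.act y (kk θ')) ∂(tr A (kap A m) (aa t)) =
      ∫ θ, ∫ y, F (A.act y (kk θ * aa t * kk θ')) ∂m ∂circ := by
    intro θ'
    rw [integral_tr A (kap A m) (aa t) (fun y => F (A.act y (kk θ')))]
    have hm : Measurable fun y => F (A.act (A.act y (aa t)) (kk θ')) :=
      F.continuous.measurable.comp ((meas_act A (kk θ')).comp (meas_act A (aa t)))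
    have h2 := integral_kap A m hm (by
      obtain ⟨C, hC⟩ := hb
      exact ⟨C, fun y => hC _⟩)
    rw [h2]
    simp only [A.act_mul]
  simp only [h1]
  rw [integral_integral_swap]
  · simp only [kb_inner A h F]
    rw [integral_const]
    simp
  · have hc : Continuous fun q : (ℝ × ℝ) × Y =>
        F (A.act q.2 (kk q.1.2 * aa t * kk q.1.1)) := by
      refine F.continuous.comp (A.cont.comp (continuous_snd.prodMk ?_))
      exact ((continuous_kk.comp (continuous_snd.comp continuous_fst)).mul
        continuous_const).mul (continuous_kk.comp (continuous_fst.comp continuous_fst))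
    have hs := hc.stronglyMeasurable.integral_prod_right' (ν := m)
    obtain ⟨C, hC⟩ := hb
    refine Integrable.of_bound hs.aestronglyMeasurable C (Eventually.of_forall fun q => ?_)
    have h3 := norm_integral_le_of_norm_le_const (μ := m)
      (f := fun y => F (A.act y (kk q.2 * aa t * kk q.1))) (C := C)
      (Eventually.of_forall fun y => hC _)
    simpa [Function.uncurry] using h3

end Pool.Agent.MP27775c.DO
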