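import Pool.Agent.Lib.MP_27775c_an_DO.KapA

/-!
# MP_27775c_an, project DO, module KapC: uniqueness of the lift
-/

set_option autoImplicit false

open MeasureTheory Set Filter Topology

namespace Pool.Agent.MP27775c.DO

variable {Y : Type*} [TopologicalSpace Y] [PolishSpace Y] [MeasurableSpace Y] [BorelSpace Y]
  (A : RAct Y)

private theorem kapc_ae : ∀ᵐ θ ∂circ, Real.cos θ ≠ 0 := by
  have hc : {θ : ℝ | Real.cos θ = 0}.Countable := by
    refine (countable_range fun k : ℤ => (2 * (k : ℝ) + 1) * Real.pi / 2).mono ?_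
    intro θ hθ
    obtain ⟨k, hk⟩ := Real.cos_eq_zero_iff.1 hθ
    exact ⟨k, hk.symm⟩
  have h0 : ∀ᵐ θ ∂(volume : Measure ℝ), Real.cos θ ≠ 0 := by
    rw [ae_iff]
    simpa using hc.measure_zero volume
  unfold circ
  exact Measure.ae_smul_measure (ae_restrict_of_ae h0) _

omit [PolishSpace Y] in
/-- The inner integral. -/
private theorem kapc_inner {m : Measure Y} [IsProbabilityMeasure m] (h : IsPInv A m)
    (F : Y → ℝ) {θ : ℝ} (hθ : Real.cos θ ≠ 0) (r : ℝ) :
    ∫ y, F (A.act y (kk θ * aa (-r))) ∂m =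
      ∫ y, F (A.act y (oo (-(Real.exp (-r) * Real.tan θ)))) ∂m := by
  set g : G := aa (-Real.log (Real.cos θ ^ 2) - r) * nn (1 / 2 * Real.exp r *
    Real.sin (2 * θ)) with hg
  have h1 : ∀ y, A.act y (kk θ * aa (-r)) =
      A.act (A.act y g) (oo (-(Real.exp (-r) * Real.tan θ))) := by
    intro y
    rcases kk_aa hθ r with h2 | h2
    · rw [h2, ← A.act_mul]
    · rw [h2, A.act_neg, ← A.act_mul]
  simp only [h1]
  rw [← integral_tr A m g fun y => F (A.act y (oo (-(Real.exp (-r) * Real.tan θ)))), hg,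
    tr_aa_nn A h]

private theorem kapc_lim {m : Measure Y} [IsProbabilityMeasure m] (h : IsPInv A m)
    (F : BoundedContinuousFunction Y ℝ) :
    Tendsto (fun n : ℕ => ∫ y, F (A.act y (aa (-(n : ℝ)))) ∂(kap A m)) atTop
      (𝓝 (∫ y, F y ∂m)) := by
  have hFb : ∀ y, |F y| ≤ ‖F‖ := fun y => by
    rw [← Real.norm_eq_abs]
    exact F.norm_coe_le_norm y
  have e1 : ∀ n : ℕ, ∫ y, F (A.act y (aa (-(n : ℝ)))) ∂(kap A m) =
      ∫ θ, ∫ y, F (A.act y (kk θ * aa (-(n : ℝ)))) ∂m ∂circ := by
    intro n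
    rw [integral_kap A m (F := fun y => F (A.act y (aa (-(n : ℝ)))))
      (F.continuous.measurable.comp (meas_act A _)) ⟨‖F‖, fun y => hFb _⟩]
    simp only [A.act_mul]
  simp only [e1]
  have e2 : ∫ y, F y ∂m = ∫ _θ : ℝ, (∫ y, F y ∂m) ∂circ := by
    rw [integral_const]
    simp
  rw [e2]
  refine tendsto_integral_of_dominated_convergence (fun _ => ‖F‖) (fun n => ?_)
    (integrable_const _) (fun n => Eventually.of_forall fun θ => ?_) ?_
  · have hj : Measurable fun p : Y × ℝ => A.act p.1 (kk p.2 * aa (-(n : ℝ))) :=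
      meas_joint A (c := fun θ : ℝ => kk θ * aa (-(n : ℝ))) (continuous_kk.mul continuous_const)
    have hs : StronglyMeasurable fun p : ℝ × Y => F (A.act p.2 (kk p.1 * aa (-(n : ℝ)))) :=
      (F.continuous.measurable.comp (hj.comp measurable_swap)).stronglyMeasurable
    exact (hs.integral_prod_right' (ν := m)).aestronglyMeasurable
  · have h3 := norm_integral_le_of_norm_le_const (μ := m) (C := ‖F‖)
      (f := fun y => F (A.act y (kk θ * aa (-(n : ℝ)))))
      (Eventually.of_forall fun y => F.norm_coe_le_norm _)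
    simpa using h3
  · filter_upwards [kapc_ae] with θ hθ
    have e3 : ∀ n : ℕ, ∫ y, F (A.act y (kk θ * aa (-(n : ℝ)))) ∂m =
        ∫ y, F (A.act y (oo (-(Real.exp (-(n : ℝ)) * Real.tan θ)))) ∂m := fun n =>
      kapc_inner A h F hθ n
    simp only [e3]
    refine tendsto_integral_of_dominated_convergence (fun _ => ‖F‖) (fun n => ?_)
      (integrable_const _) (fun n => Eventually.of_forall fun y => F.norm_coe_le_norm _)
      (Eventually.of_forall fun y => ?_)
    · exact (F.continuous.measurable.comp (meas_act A _)).aestronglyMeasurable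
    · have h4 : Tendsto (fun n : ℕ => -(Real.exp (-(n : ℝ)) * Real.tan θ)) atTop (𝓝 0) := by
        have h5 : Tendsto (fun n : ℕ => Real.exp (-(n : ℝ))) atTop (𝓝 0) :=
          Real.tendsto_exp_neg_atTop_nhds_zero.comp tendsto_natCast_atTop_atTop
        have h6 := (h5.mul_const (Real.tan θ)).neg
        simpa using h6
      have h7 : Continuous fun v : ℝ => F (A.act y (oo v)) :=
        F.continuous.comp (A.cont.comp (continuous_const.prodMk continuous_oo))
      have h8 := (h7.tendsto 0).comp h4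
      rw [oo_zero, A.act_one] at h8
      exact h8

/-- Uniqueness of the invariant lift.

Proof. For bounded continuous `F`, `∫ F (y · aa (-r)) ∂(kap A m)` tends to `∫ F ∂m` as `r → ∞`: it
is
`∫ θ, ∫ y, F (y · (kk θ * aa (-r))) ∂m ∂circ`; for `cos θ ≠ 0` (almost all `θ`) by `kk_aa` (and
`act_neg`)
and by the invariance of `m` under `aa _ * nn _` (`tr_aa_nn`) the inner integral is
`∫ y, F (y · oo (-(exp (-r) * tan θ))) ∂m`, which tends to `∫ F ∂m` by dominated convergence
(`oo _ → oo 0 = 1`); then dominated convergence in `θ`. So `kap A m` determines `m` (`ext_bcf`).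
-/
theorem kap_inj {m m' : Measure Y} [IsProbabilityMeasure m] [IsProbabilityMeasure m']
    (h : IsPInv A m) (h' : IsPInv A m') (he : kap A m = kap A m') : m = m' := by
  refine ext_bcf fun F => ?_
  have h1 := kapc_lim A h F
  have h2 := kapc_lim A h' F
  rw [← he] at h2
  exact tendsto_nhds_unique h1 h2

end Pool.Agent.MP27775c.DO
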