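import Pool.Agent.Lib.MP_27775c_an_DO.Gb
import Pool.Agent.Lib.MP_27775c_an_DO.Ge
import Pool.Agent.Lib.MP_27775c_an_DO.Kap
import Pool.Agent.Lib.MP_27775c_an_DO.Ball

/-!
# MP_27775c_an, project DO, module Gf: the function of a form on the space of maps
-/

set_option autoImplicit false

open MeasureTheory Set Filter Topology
open scoped Manifold ContDiff UpperHalfPlane

namespace Pool.Agent.MP27775c.DO

variable {E : Type*} [NormedAddCommGroup E] [NormedSpace ℂ E] [FiniteDimensional ℂ E]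
  {M : Type*} [TopologicalSpace M] [ChartedSpace E M]
  [IsManifold 𝓘(ℂ, E) 1 M]

open Classical in
/-- The value of the form on the velocity at `i` of a holomorphic map, zero for the other maps. -/
noncomputable def FF (θ : Form E M) (φ : C(ℍ, M)) : ℝ :=
  if Hol E φ then θ.val (vel φ UpperHalfPlane.I) else 0

private theorem ff_of (θ : Form E M) {φ : C(ℍ, M)} (h : Hol E φ) :
    FF θ φ = θ.val (vel φ UpperHalfPlane.I) := by
  unfold FF
  rw [if_pos h]

private theorem ff_not (θ : Form E M) {φ : C(ℍ, M)} (h : ¬ Hol E φ) : FF θ φ = 0 := by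
  unfold FF
  rw [if_neg h]

private theorem ff_contOn (θ : Form E M) :
    ContinuousOn (fun φ : C(ℍ, M) => θ.val (vel φ UpperHalfPlane.I))
      {φ : C(ℍ, M) | Hol E φ} :=
  θ.continuous_val.comp_continuousOn (cont_vel UpperHalfPlane.I)

/-- Proof: `closed_hol`, `cont_vel`, `θ.continuous_val`, `ContinuousOn.measurable_piecewise`. -/
theorem FF_meas [MeasurableSpace C(ℍ, M)] [BorelSpace C(ℍ, M)] (θ : Form E M) :
    Measurable (FF θ) := by
  classical
  have h1 : FF θ = ({φ : C(ℍ, M) | Hol E φ}).piecewise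
      (fun φ : C(ℍ, M) => θ.val (vel φ UpperHalfPlane.I)) (fun _ => 0) := by
    funext φ
    by_cases h : Hol E φ
    · rw [ff_of θ h, piecewise_eq_of_mem _ _ _ (show φ ∈ {φ : C(ℍ, M) | Hol E φ} from h)]
    · rw [ff_not θ h, piecewise_eq_of_notMem _ _ _ (show φ ∉ {φ : C(ℍ, M) | Hol E φ} from h)]
  rw [h1]
  exact (ff_contOn θ).measurable_piecewise continuousOn_const closed_hol.measurableSet

/-- Proof: `hol_act_iff`, `val_act` for `z = i`, `kk_smul`. -/
theorem FF_kk (θ : Form E M) (φ : C(ℍ, M)) (t : ℝ) : FF θ ((pre M).act φ (kk t)) = FF θ φ := by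
  by_cases h : Hol E φ
  · have h1 : Hol E ((pre M).act φ (kk t)) := hol_act h (kk t)
    have h2 := val_act θ h (kk t) UpperHalfPlane.I
    rw [kk_smul, UpperHalfPlane.I_im, one_pow, one_mul, one_mul] at h2
    rw [ff_of θ h, ff_of θ h1]
    exact h2
  · have h1 : ¬ Hol E ((pre M).act φ (kk t)) := fun h2 => h ((hol_act_iff (kk t)).1 h2)
    rw [ff_not θ h, ff_not θ h1]

/-- Proof: `hol_act`, `val_act` for `z = i`, `pp_smul`. -/
theorem FF_pp (θ : Form E M) {φ : C(ℍ, M)} (h : Hol E φ) (z : ℍ) :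
    FF θ ((pre M).act φ (pp z)) = z.im ^ 2 * θ.val (vel φ z) := by
  have h1 : Hol E ((pre M).act φ (pp z)) := hol_act h (pp z)
  have h2 := val_act θ h (pp z) UpperHalfPlane.I
  rw [pp_smul, UpperHalfPlane.I_im, one_pow, one_mul] at h2
  rw [ff_of θ h1]
  exact h2

/-- Proof: `FF_pp`; the map `z ↦ (pre M).act φ (pp z)` is continuous and has values in the set of
holomorphic maps, on which `FF θ` is continuous; divide by `z.im ^ 2`. -/
theorem cont_val (θ : Form E M) {φ : C(ℍ, M)} (h : Hol E φ) :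
    Continuous fun z : ℍ => θ.val (vel φ z) := by
  have h1 : Continuous fun z : ℍ => (pre M).act φ (pp z) :=
    (pre M).cont.comp (continuous_const.prodMk continuous_pp)
  have h2 : Continuous fun z : ℍ => θ.val (vel ((pre M).act φ (pp z)) UpperHalfPlane.I) :=
    (ff_contOn θ).comp_continuous h1 fun z => hol_act h (pp z)
  have h3 : (fun z : ℍ => θ.val (vel φ z)) = fun z : ℍ =>
      θ.val (vel ((pre M).act φ (pp z)) UpperHalfPlane.I) / z.im ^ 2 := by
    funext z
    have h4 : Hol E ((pre M).act φ (pp z)) := hol_act h (pp z)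
    rw [← ff_of θ h4, FF_pp θ h z, mul_div_cancel_left₀]
    exact pow_ne_zero 2 z.im_ne_zero
  rw [h3]
  exact h2.div (UpperHalfPlane.continuous_im.pow 2) fun z => pow_ne_zero 2 z.im_ne_zero

/-- Proof: `FF_pp`. -/
theorem bav_FF (θ : Form E M) {φ : C(ℍ, M)} (h : Hol E φ) (R : ℝ) :
    bav (pre M) R (FF θ) φ = ahl θ φ R / (volume (Metric.ball UpperHalfPlane.I R)).toReal := by
  unfold bav ahl
  simp only [FF_pp θ h]

/-- Proof: `bav_FF`; the volume of the ball is positive and finite (`isCompact_closedBall`). -/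
theorem sigma_FF (om θ : Form E M) {φ : C(ℍ, M)} (h : Hol E φ) {R : ℝ} (hR : 0 < R) :
    sigma om θ φ R = bav (pre M) R (FF θ) φ / bav (pre M) R (FF om) φ := by
  have hv : (volume (Metric.ball UpperHalfPlane.I R)).toReal ≠ 0 := by
    have h1 : 0 < Real.exp R * ∫ p, sig R p := mul_pos (Real.exp_pos R) (sig_pos hR)
    rw [vol_ball hR, ENNReal.toReal_ofReal h1.le]
    exact h1.ne'
  rw [bav_FF θ h, bav_FF om h, div_div_div_cancel_right₀ hv]
  rfl

/-- Proof: case distinction; `θ.val (vel ..)`. -/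
theorem FF_le {om θ : Form E M} {C : ℝ} (hC : ∀ v, |θ.val v| ≤ C * om.val v) (φ : C(ℍ, M)) :
    |FF θ φ| ≤ C * FF om φ := by
  by_cases h : Hol E φ
  · rw [ff_of θ h, ff_of om h]
    exact hC _
  · rw [ff_not θ h, ff_not om h]
    simp

end Pool.Agent.MP27775c.DO
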