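import Pool.Agent.Lib.MP_27775c_an_DO.Fol

/-!
# MP_27775c_an, project DO, module Gg: the unit sphere bundle is compact
-/

set_option autoImplicit false

open MeasureTheory Set Filter Topology
open scoped Manifold ContDiff UpperHalfPlane

namespace Pool.Agent.MP27775c.DO

variable {E : Type*} [NormedAddCommGroup E] [NormedSpace ℂ E] [FiniteDimensional ℂ E]
  {M : Type*} [TopologicalSpace M] [ChartedSpace E M]
  [IsManifold 𝓘(ℂ, E) 1 M]

/-- Proof: `smul_val` for `c = 0`. -/
theorem val_zero (θ : Form E M) (p : M) : θ.val ⟨p, 0⟩ = 0 := by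
  have h := θ.smul_val p 0 0
  rw [smul_zero, norm_zero] at h
  rw [h]
  ring

/-- the trivialization of the tangent bundle at `p` -/
private noncomputable abbrev gg_e (E : Type*) [NormedAddCommGroup E] [NormedSpace ℂ E]
    {M : Type*} [TopologicalSpace M] [ChartedSpace E M] [IsManifold 𝓘(ℂ, E) 1 M] (p : M) :
    Bundle.Trivialization E (Bundle.TotalSpace.proj : TB E M → M) :=
  trivializationAt E (TangentSpace 𝓘(ℂ, E)) p

/-- the form in the trivialization -/
private noncomputable def gg_w (om : Form E M) (p : M) (x : M × E) : ℝ :=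
  om.val ((gg_e E p).toOpenPartialHomeomorph.symm x)

private theorem gg_w_cont (om : Form E M) (p : M) :
    ContinuousOn (gg_w om p) (gg_e E p).target :=
  om.continuous_val.comp_continuousOn (gg_e E p).toOpenPartialHomeomorph.continuousOn_symm

private theorem gg_mk (p : M) {q : M} (hq : q ∈ (gg_e E p).baseSet) (v : E) :
    (gg_e E p).toOpenPartialHomeomorph.symm (q, v) =
      (⟨q, (gg_e E p).symmₗ ℂ q v⟩ : TB E M) := by
  rw [(gg_e E p).symmₗ_apply (R := ℂ) hq]
  exact ((gg_e E p).mk_symm hq v).symm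

private theorem gg_w_smul (om : Form E M) (p : M) {q : M} (hq : q ∈ (gg_e E p).baseSet) (c : ℂ)
    (v : E) : gg_w om p (q, c • v) = ‖c‖ ^ 2 * gg_w om p (q, v) := by
  unfold gg_w
  rw [gg_mk p hq, gg_mk p hq, map_smul, om.smul_val]

private theorem gg_w_pos {om : Form E M} (hom : om.Pos) (p : M) {q : M}
    (hq : q ∈ (gg_e E p).baseSet) {v : E} (hv : v ≠ 0) : 0 < gg_w om p (q, v) := by
  unfold gg_w
  rw [gg_mk p hq]
  refine hom q _ ?_
  intro h0
  apply hv
  have h1 := (gg_e E p).linearMapAt_symmₗ (R := ℂ) hq v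
  rw [h0, map_zero] at h1
  exact h1.symm

private theorem gg_w_lower {om : Form E M} (hom : om.Pos) (p : M) {K : Set M} (hK : IsCompact K)
    (hKU : K ⊆ (gg_e E p).baseSet) : ∃ c : ℝ, 0 < c ∧ ∀ q ∈ K, ∀ v : E,
      c * ‖v‖ ^ 2 ≤ gg_w om p (q, v) := by
  have hC : IsCompact (K ×ˢ Metric.sphere (0 : E) 1) := hK.prod (isCompact_sphere 0 1)
  have hsub : K ×ˢ Metric.sphere (0 : E) 1 ⊆ (gg_e E p).target := fun x hx =>
    (gg_e E p).mem_target.2 (hKU hx.1)
  obtain ⟨c, hc, hc2⟩ := hC.exists_forall_le' ((gg_w_cont om p).mono hsub) (a := 0) (by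
    intro x hx
    refine gg_w_pos hom p (hKU hx.1) ?_
    intro h0
    have h1 : ‖x.2‖ = 1 := by simpa using hx.2
    rw [h0, norm_zero] at h1
    exact zero_ne_one h1)
  refine ⟨c, hc, ?_⟩
  intro q hq v
  rcases eq_or_ne v 0 with hv | hv
  · subst hv
    have h1 : gg_w om p (q, (0 : E)) = 0 := by
      have h2 := gg_w_smul om p (hKU hq) 0 (0 : E)
      rw [smul_zero, norm_zero] at h2
      rw [h2]
      ring
    rw [h1, norm_zero]
    simp
  · have hn : ‖v‖ ≠ 0 := norm_ne_zero_iff.2 hv
    have h1 : v = ((‖v‖ : ℝ) : ℂ) • ((((‖v‖ : ℝ) : ℂ)⁻¹) • v) := by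
      rw [smul_smul, mul_inv_cancel₀ (by exact_mod_cast hn), one_smul]
    have h2 : ‖((((‖v‖ : ℝ) : ℂ)⁻¹) • v)‖ = 1 := by
      rw [norm_smul, norm_inv, Complex.norm_real, Real.norm_eq_abs, abs_norm,
        inv_mul_cancel₀ hn]
    have h3 := hc2 (q, (((‖v‖ : ℝ) : ℂ)⁻¹) • v) ⟨hq, by simpa using h2⟩
    have h4 := gg_w_smul om p (hKU hq) ((‖v‖ : ℝ) : ℂ) ((((‖v‖ : ℝ) : ℂ)⁻¹) • v)
    rw [← h1, Complex.norm_real, Real.norm_eq_abs, abs_norm] at h4
    rw [h4, mul_comm]
    exact mul_le_mul_of_nonneg_left h3 (by positivity)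

variable [CompactSpace M] [T2Space M]

/-- Local compactness of the unit sphere bundle. Proof. Let `e` be the trivialization of the tangent
bundle at `p` (`trivializationAt`), a homeomorphism of `π⁻¹ U` onto `U × E`, `U` the source of
the chart, linear on the fibres. The function `w (q, v) = om.val (e.symm (q, v))` is continuous on
`U × E`, positive for `v ≠ 0`, homogeneous. By compactness of the unit sphere `S` of `E` (tube
lemma or `IsCompact.exists_isMinOn`) there are a compact neighbourhood `K ⊆ U` of `p` and `c > 0`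
with `w ≥ c` on `K × S`, so `w (q, v) = 1`, `q ∈ K` gives `‖v‖ ^ 2 ≤ 1 / c`. So
`{v | π v ∈ K, om.val v = 1}` is the image under `e.symm` of a closed subset of the compact set
`K × closedBall 0 (1 / √c)`. -/
theorem sph_local {om : Form E M} (hom : om.Pos) (p : M) :
    ∃ K ∈ 𝓝 p, IsCompact K ∧ IsCompact {v : TB E M | v.proj ∈ K ∧ om.val v = 1} := by
  have hU : (gg_e E p).baseSet ∈ 𝓝 p :=
    (gg_e E p).open_baseSet.mem_nhds (FiberBundle.mem_baseSet_trivializationAt' p)
  obtain ⟨K, hKn, hKU, hK⟩ := local_compact_nhds hU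
  refine ⟨K, hKn, hK, ?_⟩
  obtain ⟨c, hc, hcl⟩ := gg_w_lower hom p hK hKU
  have hR : IsCompact (K ×ˢ Metric.closedBall (0 : E) (√(1 / c))) :=
    hK.prod (isCompact_closedBall _ _)
  have hsub : K ×ˢ Metric.closedBall (0 : E) (√(1 / c)) ⊆ (gg_e E p).target := fun x hx =>
    (gg_e E p).mem_target.2 (hKU hx.1)
  have hcl2 : IsClosed ((K ×ˢ Metric.closedBall (0 : E) (√(1 / c))) ∩ gg_w om p ⁻¹' {1}) :=
    ((gg_w_cont om p).mono hsub).preimage_isClosed_of_isClosed hR.isClosed isClosed_singleton
  have hcp := hR.of_isClosed_subset hcl2 inter_subset_left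
  have himg := hcp.image_of_continuousOn
    ((gg_e E p).toOpenPartialHomeomorph.continuousOn_symm.mono (inter_subset_left.trans hsub))
  convert himg using 1
  ext v
  constructor
  · rintro ⟨h1, h2⟩
    have hv : v ∈ (gg_e E p).source := (gg_e E p).mem_source.2 (hKU h1)
    have h3 : (gg_e E p).toOpenPartialHomeomorph.symm ((gg_e E p) v) = v :=
      (gg_e E p).toOpenPartialHomeomorph.left_inv hv
    have h4 : ((gg_e E p) v).1 = v.proj := (gg_e E p).coe_fst hv
    refine ⟨(gg_e E p) v, ⟨⟨?_, ?_⟩, ?_⟩, h3⟩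
    · rw [h4]
      exact h1
    · have h5 := hcl v.proj h1 ((gg_e E p) v).2
      have h6 : gg_w om p (v.proj, ((gg_e E p) v).2) = 1 := by
        rw [(gg_e E p).mk_proj_snd hv]
        unfold gg_w
        rw [h3, h2]
      rw [h6] at h5
      rw [mem_closedBall_zero_iff]
      refine Real.le_sqrt_of_sq_le ?_
      rw [le_div_iff₀ hc, mul_comm]
      exact h5
    · show gg_w om p ((gg_e E p) v) = 1
      unfold gg_w
      rw [h3, h2]
  · rintro ⟨x, ⟨⟨h1, h2⟩, h3⟩, rfl⟩
    refine ⟨?_, h3⟩
    rw [(gg_e E p).proj_symm_apply ((gg_e E p).mem_target.2 (hKU h1))]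
    exact h1

/-- Proof: finite cover (`CompactSpace M`) and `sph_local`; finite unions of compact sets. -/
theorem sph_compact {om : Form E M} (hom : om.Pos) :
    IsCompact {v : TB E M | om.val v = 1} := by
  choose K hKn _ hKs using fun p : M => sph_local hom p
  obtain ⟨t, ht⟩ := CompactSpace.elim_nhds_subcover K hKn
  have h1 : {v : TB E M | om.val v = 1} =
      ⋃ p ∈ t, {v : TB E M | v.proj ∈ K p ∧ om.val v = 1} := by
    ext v
    simp only [mem_ofPred_eq, mem_iUnion, exists_prop]
    constructor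
    · intro hv
      have h2 : v.proj ∈ ⋃ p ∈ t, K p := by
        rw [ht]
        trivial
      simp only [mem_iUnion, exists_prop] at h2
      obtain ⟨p, hp, hvp⟩ := h2
      exact ⟨p, hp, hvp, hv⟩
    · rintro ⟨p, _, _, hv⟩
      exact hv
  rw [h1]
  exact t.isCompact_biUnion fun p _ => hKs p

/-- The tangent bundle is second countable. Proof: it is covered by finitely many open sets
`π⁻¹ U`, homeomorphic to `U × E` with `U` open in `M`; `M` is second countable
(`ChartedSpace.secondCountable_of_sigmaCompact`);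
`TopologicalSpace.secondCountableTopology_of_countable_cover`. -/
theorem sc_TB : SecondCountableTopology (TB E M) := by
  have : SecondCountableTopology M := ChartedSpace.secondCountable_of_sigmaCompact E M
  obtain ⟨t, ht⟩ := CompactSpace.elim_nhds_subcover (fun p : M => (gg_e E p).baseSet)
    fun p => (gg_e E p).open_baseSet.mem_nhds (FiberBundle.mem_baseSet_trivializationAt' p)
  have : ∀ p : t, SecondCountableTopology ((gg_e E (p : M)).source : Set (TB E M)) := fun p =>
    (gg_e E (p : M)).toOpenPartialHomeomorph.secondCountableTopology_source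
  refine TopologicalSpace.secondCountableTopology_of_countable_cover
    (U := fun p : t => (gg_e E (p : M)).source) (fun p => (gg_e E (p : M)).open_source) ?_
  rw [eq_univ_iff_forall]
  intro v
  have h2 : v.proj ∈ ⋃ p ∈ t, (gg_e E p).baseSet := by
    rw [ht]
    trivial
  simp only [mem_iUnion, exists_prop] at h2
  obtain ⟨p, hp, hvp⟩ := h2
  exact mem_iUnion.2 ⟨⟨p, hp⟩, (gg_e E p).mem_source.2 hvp⟩

/-- Proof: the base is Hausdorff and the fibres are Hausdorff: `FiberBundle.t2Space` if available,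
or separate two points of the same fibre in a trivialization and two points of different fibres by
the projection. -/
theorem t2_TB : T2Space (TB E M) := by
  constructor
  intro v w hvw
  rcases eq_or_ne v.proj w.proj with h1 | h1
  · have hpb := FiberBundle.mem_baseSet_trivializationAt' (F := E)
      (E := TangentSpace 𝓘(ℂ, E)) v.proj
    have hv : v ∈ (gg_e E v.proj).source := (gg_e E v.proj).mem_source.2 hpb
    have hw : w ∈ (gg_e E v.proj).source := (gg_e E v.proj).mem_source.2 (by rw [← h1]; exact hpb)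
    have hne : (gg_e E v.proj) v ≠ (gg_e E v.proj) w := fun h =>
      hvw ((gg_e E v.proj).toOpenPartialHomeomorph.injOn hv hw h)
    obtain ⟨A, B, hA, hB, hvA, hwB, hAB⟩ := t2_separation hne
    refine ⟨_, _, (gg_e E v.proj).toOpenPartialHomeomorph.isOpen_inter_preimage hA,
      (gg_e E v.proj).toOpenPartialHomeomorph.isOpen_inter_preimage hB, ⟨hv, hvA⟩, ⟨hw, hwB⟩, ?_⟩
    exact (hAB.preimage _).mono inter_subset_right inter_subset_right
  · obtain ⟨A, B, hA, hB, hvA, hwB, hAB⟩ := t2_separation h1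
    have hc : Continuous (Bundle.TotalSpace.proj : TB E M → M) :=
      FiberBundle.continuous_proj E (TangentSpace 𝓘(ℂ, E))
    exact ⟨_, _, hA.preimage hc, hB.preimage hc, hvA, hwB, hAB.preimage _⟩

end Pool.Agent.MP27775c.DO
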