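import Pool.Agent.Lib.MP_27775c_an_DO.Mat

/-!
# MP_27775c_an, project DO, module Gj: the lemma of Schwarz in the upper half plane
-/

set_option autoImplicit false

open MeasureTheory Set Filter Topology
open scoped Manifold ContDiff UpperHalfPlane

namespace Pool.Agent.MP27775c.DO

/-- The Cayley transform. -/
private noncomputable def cC (z : ℂ) : ℂ := (z - Complex.I) / (z + Complex.I)

/-- The inverse of the Cayley transform. -/
private noncomputable def cD (w : ℂ) : ℂ := Complex.I * (1 + w) / (1 - w)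

private theorem cD_ne {w : ℂ} (hw : ‖w‖ < 1) : (1 : ℂ) - w ≠ 0 := by
  intro h
  rw [sub_eq_zero] at h
  rw [← h, norm_one] at hw
  exact lt_irrefl _ hw

private theorem cD_im {w : ℂ} (hw : ‖w‖ < 1) : 0 < (cD w).im := by
  have h1 := cD_ne hw
  have h2 : (cD w).im = (1 - Complex.normSq w) / Complex.normSq (1 - w) := by
    rw [cD, Complex.div_im, Complex.normSq_apply w]
    simp
    field_simp
    ring
  rw [h2]
  refine div_pos ?_ (Complex.normSq_pos.2 h1)
  rw [Complex.normSq_eq_norm_sq]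
  nlinarith [norm_nonneg w]

private theorem cC_ne {z : ℂ} (hz : 0 < z.im) : z + Complex.I ≠ 0 := by
  intro h
  have := congrArg Complex.im h
  simp at this
  linarith

private theorem cC_norm {z : ℂ} (hz : 0 < z.im) : ‖cC z‖ < 1 := by
  have h1 : 0 < ‖z + Complex.I‖ := norm_pos_iff.2 (cC_ne hz)
  rw [cC, norm_div, div_lt_one h1]
  rw [← abs_of_nonneg (norm_nonneg (z - Complex.I)), ← abs_of_nonneg (norm_nonneg (z + Complex.I)),
    ← sq_lt_sq, ← Complex.normSq_eq_norm_sq, ← Complex.normSq_eq_norm_sq, Complex.normSq_apply,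
    Complex.normSq_apply]
  simp
  nlinarith

private theorem cC_cD {w : ℂ} (hw : ‖w‖ < 1) : cC (cD w) = w := by
  have h1 := cD_ne hw
  have h2 := cC_ne (cD_im hw)
  rw [cC, div_eq_iff h2, cD]
  field_simp
  ring

private theorem cD_cC {z : ℂ} (hz : 0 < z.im) : cD (cC z) = z := by
  have h1 := cC_ne hz
  have h2 := cD_ne (cC_norm hz)
  rw [cD, div_eq_iff h2, cC]
  field_simp
  ring

private theorem cC_I : cC Complex.I = 0 := by simp [cC]

private theorem cD_zero : cD 0 = Complex.I := by simp [cD]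

private theorem cC_inj {z w : ℂ} (hz : 0 < z.im) (hw : 0 < w.im) (h : cC z = cC w) : z = w := by
  rw [← cD_cC hz, h, cD_cC hw]

private theorem cC_deriv {z : ℂ} (hz : 0 < z.im) :
    HasDerivAt cC (2 * Complex.I / (z + Complex.I) ^ 2) z := by
  have h := ((hasDerivAt_id z).sub_const Complex.I).div ((hasDerivAt_id z).add_const Complex.I)
    (cC_ne hz)
  refine h.congr_deriv ?_
  simp only [id]
  congr 1
  ring

private theorem cD_deriv {w : ℂ} (hw : ‖w‖ < 1) :
    HasDerivAt cD (2 * Complex.I / (1 - w) ^ 2) w := by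
  have h := (((hasDerivAt_id w).const_add 1).const_mul Complex.I).div
    ((hasDerivAt_id w).const_sub 1) (cD_ne hw)
  refine h.congr_deriv ?_
  simp only [id]
  congr 1
  ring

/-- A map of the upper half plane, read in the disc. -/
private noncomputable def cay (g : ℍ → ℍ) (w : ℂ) : ℂ :=
  cC ((g (UpperHalfPlane.ofComplex (cD w)) : ℍ) : ℂ)

private theorem cay_apply (g : ℍ → ℍ) (z : ℍ) : cay g (cC (z : ℂ)) = cC ((g z : ℍ) : ℂ) := by
  rw [cay, cD_cC z.im_pos, UpperHalfPlane.ofComplex_apply]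

private theorem cay_norm (g : ℍ → ℍ) (w : ℂ) : ‖cay g w‖ < 1 := cC_norm (UpperHalfPlane.im_pos _)

private theorem cay_zero {g : ℍ → ℍ} (hg : g UpperHalfPlane.I = UpperHalfPlane.I) :
    cay g 0 = 0 := by
  have := cay_apply g UpperHalfPlane.I
  rwa [hg, UpperHalfPlane.coe_I, cC_I] at this

private theorem cay_comp (g h : ℍ → ℍ) (w : ℂ) :
    cay (fun z => g (h z)) w = cay g (cay h w) := by
  have h1 : cay g (cay h w) = cC ((g (h (UpperHalfPlane.ofComplex (cD w))) : ℍ) : ℂ) :=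
    cay_apply g (h (UpperHalfPlane.ofComplex (cD w)))
  rw [h1, cay]

private theorem cay_diff {g : ℍ → ℍ} (hg : MDifferentiable 𝓘(ℂ) 𝓘(ℂ) g) :
    DifferentiableOn ℂ (cay g) (Metric.ball 0 1) := by
  intro w hw
  have hw' : ‖w‖ < 1 := by simpa using hw
  have h1 : DifferentiableAt ℂ (fun z : ℂ => ((g (UpperHalfPlane.ofComplex z) : ℍ) : ℂ))
      (cD w) := by
    have h2 := UpperHalfPlane.mdifferentiable_iff.1 (UpperHalfPlane.mdifferentiable_coe.comp hg)
    exact (h2 (cD w) (cD_im hw')).differentiableAt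
      (UpperHalfPlane.isOpen_upperHalfPlaneSet.mem_nhds (cD_im hw'))
  have h2 : DifferentiableAt ℂ (fun w : ℂ => ((g (UpperHalfPlane.ofComplex (cD w)) : ℍ) : ℂ)) w :=
    h1.comp w (cD_deriv hw').differentiableAt
  exact (DifferentiableAt.comp w (cC_deriv (UpperHalfPlane.im_pos _)).differentiableAt
    h2).differentiableWithinAt

private theorem cay_fd {F : ℂ → ℂ} {L : ℂ →L[ℂ] ℂ} {x : ℂ}
    (h : HasFDerivWithinAt F L (range (𝓘(ℂ) : ModelWithCorners ℂ ℂ ℂ)) x)
    (hL : L 1 = 1) : HasDerivAt F 1 x := by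
  have h3 : range (𝓘(ℂ) : ModelWithCorners ℂ ℂ ℂ) = univ := by simp
  rw [h3, hasFDerivWithinAt_univ] at h
  have h1 := h.hasDerivAt
  rwa [hL] at h1

private theorem cay_deriv {g : ℍ → ℍ} (hg : MDifferentiable 𝓘(ℂ) 𝓘(ℂ) g)
    (hgI : g UpperHalfPlane.I = UpperHalfPlane.I)
    (hd : (mfderiv 𝓘(ℂ) 𝓘(ℂ) g UpperHalfPlane.I (1 : ℂ) : ℂ) = (1 : ℂ)) :
    HasDerivAt (cay g) 1 0 := by
  have h1 := (hg UpperHalfPlane.I).hasMFDerivAt.2
  have h3 : HasDerivAt (fun z : ℂ => ((g (UpperHalfPlane.ofComplex z) : ℍ) : ℂ)) 1 (cD 0) := by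
    rw [cD_zero]
    exact cay_fd h1 hd
  have h0 : ‖(0 : ℂ)‖ < 1 := by simp
  have h4 := HasDerivAt.comp (0 : ℂ) h3 (cD_deriv h0)
  have h5 : HasDerivAt cC (2 * Complex.I / (Complex.I + Complex.I) ^ 2)
      ((g (UpperHalfPlane.ofComplex (cD 0)) : ℍ) : ℂ) := by
    have h6 : ((g (UpperHalfPlane.ofComplex (cD 0)) : ℍ) : ℂ) = Complex.I := by
      have h7 := UpperHalfPlane.ofComplex_apply UpperHalfPlane.I
      rw [UpperHalfPlane.coe_I] at h7
      rw [cD_zero, h7, hgI, UpperHalfPlane.coe_I]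
    rw [h6]
    exact cC_deriv (by simp)
  have h6 := HasDerivAt.comp (0 : ℂ) h5 h4
  refine h6.congr_deriv ?_
  have hI : Complex.I ≠ 0 := Complex.I_ne_zero
  have hI2 : Complex.I ^ 2 = -1 := Complex.I_sq
  field_simp
  ring_nf

private theorem kk_cC (t : ℝ) (z : ℍ) :
    cC ((kk t • z : ℍ) : ℂ) = Complex.exp ((2 * t : ℝ) * Complex.I) * cC (z : ℂ) := by
  have h0 : ((kk t • z : ℍ) : ℂ) = ((Real.cos t : ℂ) * z + (Real.sin t : ℂ)) /
      (((-Real.sin t : ℝ) : ℂ) * z + (Real.cos t : ℂ)) := by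
    have h1 := UpperHalfPlane.coe_specialLinearGroup_apply (kk t) z
    rw [h1]
    simp [kk]
  have hz := cC_ne z.im_pos
  have hk := cC_ne (kk t • z).im_pos
  have hD : ((-Real.sin t : ℝ) : ℂ) * z + (Real.cos t : ℂ) ≠ 0 := by
    intro h
    rw [h, div_zero] at h0
    have h1 := (kk t • z).im_pos
    rw [← UpperHalfPlane.coe_im, h0] at h1
    simp at h1
  have hcs : ((Real.cos t : ℂ) + (Real.sin t : ℂ) * Complex.I) *
      ((Real.cos t : ℂ) - (Real.sin t : ℂ) * Complex.I) = 1 := by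
    have h1 : (Real.cos t : ℂ) ^ 2 + (Real.sin t : ℂ) ^ 2 = 1 := by
      exact_mod_cast Real.cos_sq_add_sin_sq t
    have hI := Complex.I_sq
    linear_combination h1 - (Real.sin t : ℂ) ^ 2 * hI
  have hexp : Complex.exp ((2 * t : ℝ) * Complex.I) =
      ((Real.cos t : ℂ) + (Real.sin t : ℂ) * Complex.I) ^ 2 := by
    rw [Complex.ofReal_cos, Complex.ofReal_sin, ← Complex.exp_mul_I, ← Complex.exp_nat_mul]
    congr 1
    push_cast
    ring
  rw [hexp]
  have hI := Complex.I_sq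
  have hk' : (Real.cos t : ℂ) * z + (Real.sin t : ℂ) + Complex.I *
      (((-Real.sin t : ℝ) : ℂ) * z + (Real.cos t : ℂ)) ≠ 0 := by
    intro h
    apply hk
    rw [h0, div_add' _ _ _ hD, h, zero_div]
  have h2 : cC ((kk t • z : ℍ) : ℂ) = ((Real.cos t : ℂ) * z + (Real.sin t : ℂ) - Complex.I *
      (((-Real.sin t : ℝ) : ℂ) * z + (Real.cos t : ℂ))) /
      ((Real.cos t : ℂ) * z + (Real.sin t : ℂ) + Complex.I *
      (((-Real.sin t : ℝ) : ℂ) * z + (Real.cos t : ℂ))) := by
    rw [cC, h0, div_add' _ _ _ hD, div_sub' hD, div_div_div_cancel_right₀ hD]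
    congr 1
    ring
  rw [h2, cC, mul_div_assoc', div_eq_div_iff hk' hz]
  push_cast
  have hcs' : ((Real.cos t : ℂ) + (Real.sin t : ℂ) * Complex.I) ^ 2 *
      ((Real.cos t : ℂ) - (Real.sin t : ℂ) * Complex.I) =
      (Real.cos t : ℂ) + (Real.sin t : ℂ) * Complex.I := by
    rw [pow_two, mul_assoc, hcs, mul_one]
  push_cast at hcs'
  have e1 : Complex.cos t * (z : ℂ) + Complex.sin t - Complex.I *
      (-Complex.sin t * z + Complex.cos t) =
      (Complex.cos t + Complex.sin t * Complex.I) * ((z : ℂ) - Complex.I) := by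
    linear_combination (Complex.sin t) * hI
  have e2 : Complex.cos t * (z : ℂ) + Complex.sin t + Complex.I *
      (-Complex.sin t * z + Complex.cos t) =
      (Complex.cos t - Complex.sin t * Complex.I) * ((z : ℂ) + Complex.I) := by
    linear_combination (Complex.sin t) * hI
  rw [e1, e2]
  linear_combination (-((z : ℂ) - Complex.I) * ((z : ℂ) + Complex.I)) * hcs'

/-- Proof. Let `C z = (z - i) / (z + i)`, a holomorphic bijection of the upper half plane onto the
unit disc, with the inverse `w ↦ i (1 + w) / (1 - w)`, `C i = 0`. The maps `G = C g C⁻¹`,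
`H = C h C⁻¹` of the unit disc fix `0`, so `|G' 0| ≤ 1`, `|H' 0| ≤ 1`
(`Complex.norm_deriv_le_one_of_mapsTo_ball`), and `G' 0 * H' 0 = (G ∘ H)' 0 = (g ∘ h)' i = 1`, so
`|G' 0| = 1` and `G w = a w`, `|a| = 1` (`Complex.affine_of_mapsTo_ball_of_norm_dslope_eq_div`).
And `C (kk t • z) = exp (2 i t) * C z` or `exp (-2 i t) * C z` (compute), so `g z = kk t • z` for
a suitable `t`. -/
theorem schwarz {g h : ℍ → ℍ} (hg : MDifferentiable 𝓘(ℂ) 𝓘(ℂ) g)
    (hh : MDifferentiable 𝓘(ℂ) 𝓘(ℂ) h) (hgI : g UpperHalfPlane.I = UpperHalfPlane.I)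
    (hhI : h UpperHalfPlane.I = UpperHalfPlane.I)
    (hd : (mfderiv 𝓘(ℂ) 𝓘(ℂ) (fun z => g (h z)) UpperHalfPlane.I (1 : ℂ) : ℂ) = (1 : ℂ)) :
    ∃ t : ℝ, ∀ z, g z = kk t • z := by
  have hG := cay_diff hg
  have hH := cay_diff hh
  have hG0 := cay_zero hgI
  have hH0 := cay_zero hhI
  have hgh : MDifferentiable 𝓘(ℂ) 𝓘(ℂ) (fun z => g (h z)) := hg.comp hh
  have hD := cay_deriv hgh (by rw [hhI, hgI]) hd
  have h01 : (0 : ℝ) < 1 := one_pos
  have hGm : MapsTo (cay g) (Metric.ball 0 1) (Metric.closedBall (cay g 0) 1) := by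
    intro w _
    rw [hG0, mem_closedBall_zero_iff]
    exact (cay_norm g w).le
  have hHm : MapsTo (cay h) (Metric.ball 0 1) (Metric.closedBall (cay h 0) 1) := by
    intro w _
    rw [hH0, mem_closedBall_zero_iff]
    exact (cay_norm h w).le
  have hg1 := Complex.norm_deriv_le_one_of_mapsTo_ball hG hGm h01
  have hh1 := Complex.norm_deriv_le_one_of_mapsTo_ball hH hHm h01
  have hGd : DifferentiableAt ℂ (cay g) (cay h 0) := by
    rw [hH0]
    exact (hG 0 (by simp)).differentiableAt (Metric.ball_mem_nhds _ h01)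
  have hHd : DifferentiableAt ℂ (cay h) 0 :=
    (hH 0 (by simp)).differentiableAt (Metric.ball_mem_nhds _ h01)
  have hprod : deriv (cay g) 0 * deriv (cay h) 0 = 1 := by
    have h1 := HasDerivAt.comp (0 : ℂ) hGd.hasDerivAt hHd.hasDerivAt
    rw [hH0] at h1
    have h2 : (cay g ∘ cay h) = cay (fun z => g (h z)) := by
      funext w
      exact (cay_comp g h w).symm
    rw [h2] at h1
    exact h1.unique hD
  have hn : ‖deriv (cay g) 0‖ = 1 := by
    have h1 : ‖deriv (cay g) 0‖ * ‖deriv (cay h) 0‖ = 1 := by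
      rw [← norm_mul, hprod, norm_one]
    nlinarith [norm_nonneg (deriv (cay g) 0), norm_nonneg (deriv (cay h) 0)]
  have haff := Complex.affine_of_mapsTo_ball_of_norm_dslope_eq_div (z₀ := 0) hG hGm (by simp)
    (by rw [dslope_same, hn, div_one])
  obtain ⟨s, hs⟩ := (Complex.norm_eq_one_iff _).1 hn
  refine ⟨s / 2, fun z => ?_⟩
  apply UpperHalfPlane.ext
  refine cC_inj (UpperHalfPlane.im_pos _) (UpperHalfPlane.im_pos _) ?_
  have h1 := haff (show cC (z : ℂ) ∈ Metric.ball (0 : ℂ) 1 by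
    rw [mem_ball_zero_iff]
    exact cC_norm z.im_pos)
  simp only [hG0, dslope_same, sub_zero, zero_add, smul_eq_mul] at h1
  rw [← cay_apply, h1, kk_cC, ← hs, mul_comm]
  congr 3
  push_cast
  ring

end Pool.Agent.MP27775c.DO
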