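import Pool.Agent.Lib.MP_27775c_an_DO.Gf
import Pool.Agent.Lib.MP_27775c_an_DO.Gj

/-!
# MP_27775c_an, project DO, module Gk: uniqueness of the universal covering map
-/

set_option autoImplicit false

open MeasureTheory Set Filter Topology
open scoped Manifold ContDiff UpperHalfPlane

namespace Pool.Agent.MP27775c.DO

variable {E : Type*} [NormedAddCommGroup E] [NormedSpace ℂ E] [FiniteDimensional ℂ E]
  {M : Type*} [TopologicalSpace M] [ChartedSpace E M]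
  [IsManifold 𝓘(ℂ, E) 1 M]

private theorem gk_lin {E : Type*} [NormedAddCommGroup E] [NormedSpace ℂ E] {L : ℂ →L[ℂ] E}
    {c : ℂ} (hne : L (1 : ℂ) ≠ 0)
    (h5 : L (1 : ℂ) = L c) : c = 1 := by
  have h6 : L c = c • L (1 : ℂ) := by
    rw [← L.map_smul, smul_eq_mul, mul_one]
  rw [h6] at h5
  have h7 : (c - 1) • L (1 : ℂ) = 0 := by
    rw [sub_smul, one_smul, ← h5, sub_self]
  exact sub_eq_zero.1 ((smul_eq_zero.1 h7).resolve_right hne)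

omit [IsManifold 𝓘(ℂ, E) 1 M] in
private theorem gk_deriv {φ : ℍ → M} {g : ℍ → ℍ} (hφ : Hol E φ)
    (hg : MDifferentiable 𝓘(ℂ) 𝓘(ℂ) g) (hgI : g UpperHalfPlane.I = UpperHalfPlane.I)
    (hne : (mfderiv 𝓘(ℂ) 𝓘(ℂ, E) φ UpperHalfPlane.I : ℂ →L[ℂ] E) (1 : ℂ) ≠ 0)
    (he : ∀ z, φ z = φ (g z)) :
    (mfderiv 𝓘(ℂ) 𝓘(ℂ) g UpperHalfPlane.I (1 : ℂ) : ℂ) = (1 : ℂ) := by
  have h1 : φ = φ ∘ g := funext he
  have h2 : (mfderiv 𝓘(ℂ) 𝓘(ℂ, E) φ UpperHalfPlane.I : ℂ →L[ℂ] E) =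
      (mfderiv 𝓘(ℂ) 𝓘(ℂ, E) (φ ∘ g) UpperHalfPlane.I : ℂ →L[ℂ] E) := by
    rw [← h1]
  have h3 : (mfderiv 𝓘(ℂ) 𝓘(ℂ, E) (φ ∘ g) UpperHalfPlane.I : ℂ →L[ℂ] E) =
      (mfderiv 𝓘(ℂ) 𝓘(ℂ, E) φ (g UpperHalfPlane.I) : ℂ →L[ℂ] E).comp
        (mfderiv 𝓘(ℂ) 𝓘(ℂ) g UpperHalfPlane.I : ℂ →L[ℂ] ℂ) :=
    mfderiv_comp UpperHalfPlane.I (hφ _) (hg _)
  have h4 : ∀ w, w = UpperHalfPlane.I →
      (mfderiv 𝓘(ℂ) 𝓘(ℂ, E) φ w : ℂ →L[ℂ] E) =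
        (mfderiv 𝓘(ℂ) 𝓘(ℂ, E) φ UpperHalfPlane.I : ℂ →L[ℂ] E) := by
    rintro _ rfl
    rfl
  rw [h4 _ hgI] at h3
  have h5 : (mfderiv 𝓘(ℂ) 𝓘(ℂ, E) φ UpperHalfPlane.I : ℂ →L[ℂ] E) (1 : ℂ) =
      (mfderiv 𝓘(ℂ) 𝓘(ℂ, E) φ UpperHalfPlane.I : ℂ →L[ℂ] E)
        ((mfderiv 𝓘(ℂ) 𝓘(ℂ) g UpperHalfPlane.I : ℂ →L[ℂ] ℂ) (1 : ℂ)) :=
    congrArg (fun l : ℂ →L[ℂ] E => l (1 : ℂ)) (h2.trans h3)
  exact gk_lin (E := E) hne h5

/-- Proof. By the universal properties `φ' = φ ∘ g`, `φ = φ' ∘ h` with `g i = i`, `h i = i`. So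
`φ = φ ∘ (g ∘ h)`; the derivatives at `i` (chain rule, `φ'(i) ≠ 0`) give `(g ∘ h)'(i) = 1`;
`schwarz`. -/
theorem univ_unique {F : Foliation E M} {φ φ' : ℍ → M} (h : IsUniv F φ) (h' : IsUniv F φ')
    (he : φ' UpperHalfPlane.I = φ UpperHalfPlane.I) :
    ∃ t : ℝ, ∀ z, φ' z = φ (kk t • z) := by
  obtain ⟨g, hg, hgI, hg'⟩ := h.2.2 φ' h'.1 UpperHalfPlane.I UpperHalfPlane.I he
  obtain ⟨k, hk, hkI, hk'⟩ := h'.2.2 φ h.1 UpperHalfPlane.I UpperHalfPlane.I he.symm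
  have hgk : MDifferentiable 𝓘(ℂ) 𝓘(ℂ) fun z => g (k z) := hg.comp hk
  have h1 := gk_deriv (g := fun z => g (k z)) h.1.1 hgk (by rw [hkI, hgI])
    (h.2.1 UpperHalfPlane.I) fun z => by rw [hk' z, hg' (k z)]
  obtain ⟨t, ht⟩ := schwarz hg hk hgI hkI h1
  exact ⟨t, fun z => by rw [hg' z, ht z]⟩

private theorem gk_mp (g : G) : MeasurePreserving (fun z : ℍ => g • z) volume volume :=
  measurePreserving_smul (Matrix.SpecialLinearGroup.mapGL ℝ g : GL (Fin 2) ℝ)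
    (volume : Measure ℍ)

private theorem gk_me (g : G) : MeasurableEmbedding (fun z : ℍ => g • z) :=
  measurableEmbedding_const_smul (Matrix.SpecialLinearGroup.mapGL ℝ g : GL (Fin 2) ℝ)

private theorem gk_ball (t : ℝ) (R : ℝ) :
    (fun z : ℍ => kk t • z) ⁻¹' Metric.ball UpperHalfPlane.I R =
      Metric.ball UpperHalfPlane.I R := by
  ext z
  simp only [mem_preimage, Metric.mem_ball]
  have h := dist_smul (kk t) z UpperHalfPlane.I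
  rw [kk_smul] at h
  rw [h]

/-- Proof: `val_act`, the map `z ↦ kk t • z` preserves the volume (`measurePreserving_smul`) and
the ball (it is an isometry which fixes `i`). -/
theorem ahl_rot (θ : Form E M) {φ : ℍ → M} (h : Hol E φ) (t R : ℝ) :
    ahl θ (fun z => φ (kk t • z)) R = ahl θ φ R := by
  have h1 := (gk_mp (kk t)).setIntegral_preimage_emb (gk_me (kk t))
    (fun z : ℍ => z.im ^ 2 * θ.val (vel φ z)) (Metric.ball UpperHalfPlane.I R)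
  rw [gk_ball] at h1
  unfold ahl
  rw [← h1]
  simp only [val_act θ h]

theorem sigma_rot (om θ : Form E M) {φ : ℍ → M} (h : Hol E φ) (t R : ℝ) :
    sigma om θ (fun z => φ (kk t • z)) R = sigma om θ φ R := by
  rw [sigma, sigma, ahl_rot θ h, ahl_rot om h]

end Pool.Agent.MP27775c.DO
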