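import Pool.Agent.Lib.MP_27775c_an_DO.PoA

/-!
# MP_27775c_an, project DO, module Ha: the derivative of the Poisson kernel at `i`
-/

set_option autoImplicit false

open MeasureTheory Set Filter Topology

namespace Pool.Agent.MP27775c.DO

/-- Proof. `poi_eq` for the inverse of `h = kk (-β) * aa r`: the value is `1 / |v h| ^ 2` with
`v = (-sin t, cos t)`, `v * kk (-β) = (-sin (t - β), cos (t - β))`, so
`|v h| ^ 2 = exp r * sin (t - β) ^ 2 + exp (-r) * cos (t - β) ^ 2`. -/
theorem poi_kk_aa (t β r : ℝ) :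
    poi t ((kk (-β) * aa r) • UpperHalfPlane.I) =
      1 / (Real.cosh r - Real.sinh r * Real.cos (2 * (t - β))) := by
  have h := poi_eq t ((kk (-β) * aa r)⁻¹)
  rw [inv_inv] at h
  rw [h]
  have e00 : (kk (-β) * aa r) 0 0 = Real.cos β * Real.exp (r / 2) := by
    rw [Matrix.SpecialLinearGroup.coe_mul, Matrix.mul_apply, Fin.sum_univ_two]
    simp [kk, aa]
  have e10 : (kk (-β) * aa r) 1 0 = Real.sin β * Real.exp (r / 2) := by
    rw [Matrix.SpecialLinearGroup.coe_mul, Matrix.mul_apply, Fin.sum_univ_two]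
    simp [kk, aa]
  have e01 : (kk (-β) * aa r) 0 1 = -Real.sin β * Real.exp (-(r / 2)) := by
    rw [Matrix.SpecialLinearGroup.coe_mul, Matrix.mul_apply, Fin.sum_univ_two]
    simp [kk, aa]
  have e11 : (kk (-β) * aa r) 1 1 = Real.cos β * Real.exp (-(r / 2)) := by
    rw [Matrix.SpecialLinearGroup.coe_mul, Matrix.mul_apply, Fin.sum_univ_two]
    simp [kk, aa]
  rw [e00, e10, e01, e11]
  congr 1
  have x1 : Real.exp (r / 2) ^ 2 = Real.exp r := by
    rw [← Real.exp_nat_mul]
    congr 1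
    push_cast
    ring
  have x2 : Real.exp (-(r / 2)) ^ 2 = Real.exp (-r) := by
    rw [← Real.exp_nat_mul]
    congr 1
    push_cast
    ring
  have a1 : (-Real.sin t * (Real.cos β * Real.exp (r / 2)) +
      Real.cos t * (Real.sin β * Real.exp (r / 2))) ^ 2 = Real.sin (t - β) ^ 2 * Real.exp r := by
    rw [← x1, Real.sin_sub]
    ring
  have a2 : (-Real.sin t * (-Real.sin β * Real.exp (-(r / 2))) +
      Real.cos t * (Real.cos β * Real.exp (-(r / 2)))) ^ 2 =
      Real.cos (t - β) ^ 2 * Real.exp (-r) := by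
    rw [← x2, Real.cos_sub]
    ring
  rw [a1, a2, Real.cosh_eq, Real.sinh_eq, Real.cos_two_mul]
  have a3 := Real.sin_sq_add_cos_sq (t - β)
  linear_combination Real.exp r * a3

theorem poi_deriv (t β : ℝ) :
    Tendsto (fun r : ℝ => (poi t ((kk (-β) * aa r) • UpperHalfPlane.I) - 1) / r) (𝓝[>] 0)
      (𝓝 (Real.cos (2 * (t - β)))) := by
  simp only [poi_kk_aa]
  set c := Real.cos (2 * (t - β)) with hc
  have h1 : HasDerivAt (fun r : ℝ => Real.cosh r - Real.sinh r * c) (0 - 1 * c) 0 := by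
    have e1 := Real.hasDerivAt_cosh 0
    have e2 := (Real.hasDerivAt_sinh 0).mul_const c
    rw [Real.sinh_zero] at e1
    rw [Real.cosh_zero] at e2
    exact e1.sub e2
  have h0 : Real.cosh 0 - Real.sinh 0 * c = 1 := by
    rw [Real.cosh_zero, Real.sinh_zero]
    ring
  have h2 : HasDerivAt (fun r : ℝ => 1 / (Real.cosh r - Real.sinh r * c)) c 0 := by
    have e1 := h1.fun_inv (by rw [h0]; exact one_ne_zero)
    rw [h0] at e1
    simp only [one_div]
    exact e1.congr_deriv (by norm_num)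
  have h3 := h2.tendsto_slope_zero_right
  refine h3.congr fun r => ?_
  simp only [zero_add, smul_eq_mul]
  rw [h0]
  ring

/-- Proof: the denominator is at least `exp (-r) ≥ exp (-1)`; `|1 - cosh r| + |sinh r| ≤ C r` for
`0 < r ≤ 1`. -/
theorem poi_deriv_bdd : ∃ C : ℝ, ∀ t β r : ℝ, 0 < r → r ≤ 1 →
    |(poi t ((kk (-β) * aa r) • UpperHalfPlane.I) - 1) / r| ≤ C := by
  refine ⟨8, fun t β r hr hr1 => ?_⟩
  rw [poi_kk_aa]
  set c := Real.cos (2 * (t - β)) with hc
  have hc1 : |c| ≤ 1 := Real.abs_cos_le_one _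
  obtain ⟨hc2, hc3⟩ := abs_le.1 hc1
  have e1 := abs_le.1 (Real.abs_exp_sub_one_sub_id_le (x := r) (by rw [abs_of_pos hr]; exact hr1))
  have e2 := abs_le.1 (Real.abs_exp_sub_one_sub_id_le (x := -r)
    (by rw [abs_neg, abs_of_pos hr]; exact hr1))
  have hch := Real.cosh_eq r
  have hsh := Real.sinh_eq r
  have hrr : r ^ 2 ≤ r := by nlinarith
  have hs0 : 0 ≤ Real.sinh r := Real.sinh_nonneg_iff.2 hr.le
  have hs1 : Real.sinh r ≤ 3 / 2 * r := by
    rw [hsh]
    linarith [e1.2, Real.add_one_le_exp (-r)]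
  have hc4 : 1 ≤ Real.cosh r := Real.one_le_cosh r
  have hc5 : Real.cosh r ≤ 1 + r := by
    rw [hch]
    nlinarith [e1.2, e2.2]
  have hD : 1 / 3 ≤ Real.cosh r - Real.sinh r * c := by
    have h1 : Real.cosh r - Real.sinh r = Real.exp (-r) := Real.cosh_sub_sinh r
    have h2 : Real.exp (-1) ≤ Real.exp (-r) := Real.exp_le_exp.2 (by linarith)
    have h3 : 1 / 3 ≤ Real.exp (-1) := by
      rw [Real.exp_neg, ← one_div]
      refine one_div_le_one_div_of_le (Real.exp_pos 1) ?_
      linarith [Real.exp_one_lt_d9]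
    have h4 : Real.sinh r * c ≤ Real.sinh r := mul_le_of_le_one_right hs0 hc3
    linarith
  have hD0 : 0 < Real.cosh r - Real.sinh r * c := by linarith
  have h5 : |1 - (Real.cosh r - Real.sinh r * c)| ≤ 5 / 2 * r := by
    have h6 : Real.sinh r * c ≤ Real.sinh r := mul_le_of_le_one_right hs0 hc3
    have h7 : -Real.sinh r ≤ Real.sinh r * c := by nlinarith
    rw [abs_le]
    constructor <;> linarith
  have h8 : (1 / (Real.cosh r - Real.sinh r * c) - 1) / r =
      (1 - (Real.cosh r - Real.sinh r * c)) / ((Real.cosh r - Real.sinh r * c) * r) := by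
    field_simp
  rw [h8, abs_div, abs_of_pos (mul_pos hD0 hr), div_le_iff₀ (mul_pos hD0 hr)]
  refine h5.trans ?_
  nlinarith [mul_le_mul_of_nonneg_right hD hr.le]

end Pool.Agent.MP27775c.DO
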