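import Pool.Agent.Lib.MP_27775c_an_DO.Ha
import Pool.Agent.Lib.MP_27775c_an_DO.PoB

/-!
# MP_27775c_an, project DO, module Hb: the angle of a measure of Poisson type
-/

set_option autoImplicit false

open MeasureTheory Set Filter Topology

namespace Pool.Agent.MP27775c.DO

variable {Y : Type*} [TopologicalSpace Y] [PolishSpace Y] [MeasurableSpace Y] [BorelSpace Y]
  (A : RAct Y)

private theorem hb_meas (m : Measure Y) [IsProbabilityMeasure m] {F : Y → ℝ}
    (hF : Measurable F) : Measurable fun θ : ℝ => ∫ y, F (A.act y (kk θ)) ∂m := by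
  have hj : Measurable fun p : Y × ℝ => A.act p.1 (kk p.2) := meas_joint A continuous_kk
  have hs : StronglyMeasurable fun p : ℝ × Y => F (A.act p.2 (kk p.1)) :=
    (hF.comp (hj.comp measurable_swap)).stronglyMeasurable
  exact (hs.integral_prod_right' (ν := m)).measurable

private theorem hb_poi_meas (β r : ℝ) :
    Measurable fun t : ℝ => (poi t ((kk (-β) * aa r) • UpperHalfPlane.I) - 1) / r := by
  simp only [poi_kk_aa]
  fun_prop

/-- The integral of `f * (P r)` splits, `P r` the difference quotient of the Poisson kernel. -/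
private theorem hb_split {Z : Type*} [MeasurableSpace Z] (μ : Measure Z)
    [IsProbabilityMeasure μ] {f : Z → ℝ} (hf : Measurable f) {C : ℝ} (hC : ∀ z, |f z| ≤ C)
    {α : Z → ℝ} (hα : Measurable α) (β : ℝ) {D : ℝ}
    (hD : ∀ t β r : ℝ, 0 < r → r ≤ 1 →
      |(poi t ((kk (-β) * aa r) • UpperHalfPlane.I) - 1) / r| ≤ D) {r : ℝ} (hr : 0 < r)
    (hr1 : r ≤ 1) :
    ∫ z, f z * ((poi (α z) ((kk (-β) * aa r) • UpperHalfPlane.I) - 1) / r) ∂μ =
      ((∫ z, f z * poi (α z) ((kk (-β) * aa r) • UpperHalfPlane.I) ∂μ) - ∫ z, f z ∂μ) / r := by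
  have i1 : Integrable f μ :=
    Integrable.of_bound hf.aestronglyMeasurable C (Eventually.of_forall fun z => hC z)
  have i2 : Integrable (fun z => f z *
      ((poi (α z) ((kk (-β) * aa r) • UpperHalfPlane.I) - 1) / r)) μ := by
    refine Integrable.of_bound
      (hf.mul ((hb_poi_meas β r).comp hα)).aestronglyMeasurable (C * D)
      (Eventually.of_forall fun z => ?_)
    rw [Real.norm_eq_abs, abs_mul]
    exact mul_le_mul (hC z) (hD _ _ _ hr hr1) (abs_nonneg _) ((abs_nonneg _).trans (hC z))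
  have h1 : ∀ z, f z * poi (α z) ((kk (-β) * aa r) • UpperHalfPlane.I) =
      f z + r * (f z * ((poi (α z) ((kk (-β) * aa r) • UpperHalfPlane.I) - 1) / r)) := by
    intro z
    field_simp
    ring
  simp only [h1]
  rw [integral_add i1 (i2.const_mul r), integral_const_mul]
  field_simp
  ring

/-- Dominated convergence for the difference quotients of the Poisson kernel. -/
private theorem hb_tend {Z : Type*} [MeasurableSpace Z] (μ : Measure Z)
    [IsProbabilityMeasure μ] {f : Z → ℝ} (hf : Measurable f) {C : ℝ} (hC : ∀ z, |f z| ≤ C)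
    {α : Z → ℝ} (hα : Measurable α) (β : ℝ) {D : ℝ}
    (hD : ∀ t β r : ℝ, 0 < r → r ≤ 1 →
      |(poi t ((kk (-β) * aa r) • UpperHalfPlane.I) - 1) / r| ≤ D) :
    Tendsto (fun r : ℝ => ∫ z, f z *
      ((poi (α z) ((kk (-β) * aa r) • UpperHalfPlane.I) - 1) / r) ∂μ) (𝓝[>] 0)
      (𝓝 (∫ z, f z * Real.cos (2 * (α z - β)) ∂μ)) := by
  refine tendsto_integral_filter_of_dominated_convergence (fun _ => C * D) ?_ ?_ ?_ ?_
  · exact Eventually.of_forall fun r =>
      (hf.mul ((hb_poi_meas β r).comp hα)).aestronglyMeasurable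
  · have h1 : ∀ᶠ r : ℝ in 𝓝[>] 0, r ∈ Ioc (0 : ℝ) 1 := Ioc_mem_nhdsGT one_pos
    filter_upwards [h1] with r hr
    refine Eventually.of_forall fun z => ?_
    rw [Real.norm_eq_abs, abs_mul]
    exact mul_le_mul (hC z) (hD _ _ _ hr.1 hr.2) (abs_nonneg _) ((abs_nonneg _).trans (hC z))
  · exact integrable_const _
  · exact Eventually.of_forall fun z => (poi_deriv (α z) β).const_mul (f z)

/-- Proof. For `g = (kk (-β) * aa r)⁻¹` the hypothesis and `integral_kap_act` give
`∫ θ, (∫ y, F (y · kk θ) ∂m) * poi θ z ∂circ = ∫ y, F y * poi (α y) z ∂(kap A m)`,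
`z = (kk (-β) * aa r) • I`. Subtract the integral of `F` (`integral_kap`), divide by `r`, let
`r → 0` (`poi_deriv`, `poi_deriv_bdd`, dominated convergence on both sides). -/
theorem star {m : Measure Y} [IsProbabilityMeasure m] (h : IsPInv A m) {α : Y → ℝ}
    (hα : Measurable α)
    (hP : ∀ (g : G) (F : Y → ℝ), Measurable F → (∃ C, ∀ y, |F y| ≤ C) →
      ∫ y, F (A.act y g) ∂(kap A m) =
        ∫ y, F y * poi (α y) (g⁻¹ • UpperHalfPlane.I) ∂(kap A m))
    {F : Y → ℝ} (hF : Measurable F) (hb : ∃ C, ∀ y, |F y| ≤ C) (β : ℝ) :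
    ∫ θ, (∫ y, F (A.act y (kk θ)) ∂m) * Real.cos (2 * (θ - β)) ∂circ =
      ∫ y, F y * Real.cos (2 * (α y - β)) ∂(kap A m) := by
  obtain ⟨C, hC⟩ := hb
  obtain ⟨D, hD⟩ := poi_deriv_bdd
  have := kap_prob A m
  have hΦ : ∀ θ : ℝ, |∫ y, F (A.act y (kk θ)) ∂m| ≤ C := by
    intro θ
    have h3 := norm_integral_le_of_norm_le_const (μ := m) (C := C)
      (f := fun y => F (A.act y (kk θ))) (Eventually.of_forall fun y => hC _)
    simpa using h3
  have t1 := hb_tend circ (hb_meas A m hF) hΦ measurable_id β hD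
  have t2 := hb_tend (kap A m) hF hC hα β hD
  refine tendsto_nhds_unique t1 (t2.congr' ?_)
  have h1 : ∀ᶠ r : ℝ in 𝓝[>] 0, r ∈ Ioc (0 : ℝ) 1 := Ioc_mem_nhdsGT one_pos
  filter_upwards [h1] with r hr
  rw [hb_split (kap A m) hF hC hα β hD hr.1 hr.2,
    hb_split circ (hb_meas A m hF) hΦ measurable_id β hD hr.1 hr.2,
    integral_kap A m hF ⟨C, hC⟩]
  congr 2
  have h2 := hP (kk (-β) * aa r)⁻¹ F hF ⟨C, hC⟩
  rw [integral_kap_act A h _ hF ⟨C, hC⟩, inv_inv] at h2
  exact h2.symm

/-- Proof. Add `star` for `F y = cos (2 α y)`, `β = 0` and for `F y = sin (2 α y)`, `β = π / 4`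
(`cos (2 θ - π / 2) = sin (2 θ)`): the integral of `cos (2 (θ - α (y · kk θ)))` with respect to
`m × circ` is one, so the function, which is at most one, is one almost everywhere. -/
theorem angle_ae {m : Measure Y} [IsProbabilityMeasure m] (h : IsPInv A m) {α : Y → ℝ}
    (hα : Measurable α)
    (hP : ∀ (g : G) (F : Y → ℝ), Measurable F → (∃ C, ∀ y, |F y| ≤ C) →
      ∫ y, F (A.act y g) ∂(kap A m) =
        ∫ y, F y * poi (α y) (g⁻¹ • UpperHalfPlane.I) ∂(kap A m)) :
    ∀ᵐ p ∂(m.prod circ), Real.cos (2 * (p.2 - α (A.act p.1 (kk p.2)))) = 1 := by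
  have := kap_prob A m
  have hj : Measurable fun p : Y × ℝ => A.act p.1 (kk p.2) := meas_joint A continuous_kk
  have hc : Measurable fun y => Real.cos (2 * α y) := by fun_prop
  have hs : Measurable fun y => Real.sin (2 * α y) := by fun_prop
  have h1 := star A h hα hP hc ⟨1, fun y => Real.abs_cos_le_one _⟩ 0
  have h2 := star A h hα hP hs ⟨1, fun y => Real.abs_sin_le_one _⟩ (Real.pi / 4)
  have e1 : ∀ t : ℝ, Real.cos (2 * (t - Real.pi / 4)) = Real.sin (2 * t) := by
    intro t
    rw [show 2 * (t - Real.pi / 4) = 2 * t - Real.pi / 2 by ring, Real.cos_sub_pi_div_two]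
  simp only [e1, sub_zero] at h1 h2
  have hm1 : Measurable fun p : Y × ℝ => Real.cos (2 * (p.2 - α (A.act p.1 (kk p.2)))) := by
    have := hα.comp hj
    simp only [Function.comp_def] at this
    fun_prop
  have i1 : Integrable (fun p : Y × ℝ => Real.cos (2 * (p.2 - α (A.act p.1 (kk p.2)))))
      (m.prod circ) :=
    Integrable.of_bound hm1.aestronglyMeasurable 1
      (Eventually.of_forall fun p => Real.abs_cos_le_one _)
  have hI : ∫ p : Y × ℝ, Real.cos (2 * (p.2 - α (A.act p.1 (kk p.2)))) ∂(m.prod circ) = 1 := by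
    rw [integral_prod_symm _ i1]
    have e2 : ∀ θ : ℝ, ∫ y, Real.cos (2 * (θ - α (A.act y (kk θ)))) ∂m =
        (∫ y, Real.cos (2 * α (A.act y (kk θ))) ∂m) * Real.cos (2 * θ) +
          (∫ y, Real.sin (2 * α (A.act y (kk θ))) ∂m) * Real.sin (2 * θ) := by
      intro θ
      rw [← integral_mul_const, ← integral_mul_const, ← integral_add]
      · refine integral_congr_ae (Eventually.of_forall fun y => ?_)
        show Real.cos (2 * (θ - α (A.act y (kk θ)))) =
          Real.cos (2 * α (A.act y (kk θ))) * Real.cos (2 * θ) +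
            Real.sin (2 * α (A.act y (kk θ))) * Real.sin (2 * θ)
        rw [mul_sub, Real.cos_sub]
        ring
      · refine Integrable.mul_const (Integrable.of_bound
          (hc.comp (meas_act A _)).aestronglyMeasurable 1
          (Eventually.of_forall fun p => Real.abs_cos_le_one _)) _
      · refine Integrable.mul_const (Integrable.of_bound
          (hs.comp (meas_act A _)).aestronglyMeasurable 1
          (Eventually.of_forall fun p => Real.abs_sin_le_one _)) _
    simp only [e2]
    have hbd : ∀ (f : ℝ → ℝ) (F : Y → ℝ), Measurable F → (∀ y, |F y| ≤ 1) → Measurable f →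
        (∀ x, |f x| ≤ 1) →
        Integrable (fun θ : ℝ => (∫ y, F (A.act y (kk θ)) ∂m) * f θ) circ := by
      intro f F hF hF1 hf hf1
      refine Integrable.of_bound ((hb_meas A m hF).mul hf).aestronglyMeasurable 1
        (Eventually.of_forall fun θ => ?_)
      rw [Real.norm_eq_abs, abs_mul]
      have h3 := norm_integral_le_of_norm_le_const (μ := m) (C := 1)
        (f := fun y => F (A.act y (kk θ))) (Eventually.of_forall fun y => hF1 _)
      have h4 : |∫ y, F (A.act y (kk θ)) ∂m| ≤ 1 := by simpa using h3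
      calc |∫ y, F (A.act y (kk θ)) ∂m| * |f θ| ≤ 1 * 1 :=
            mul_le_mul h4 (hf1 θ) (abs_nonneg _) zero_le_one
        _ = 1 := one_mul 1
    rw [integral_add (hbd _ _ hc (fun y => Real.abs_cos_le_one _) (by fun_prop)
        fun x => Real.abs_cos_le_one _)
      (hbd _ _ hs (fun y => Real.abs_sin_le_one _) (by fun_prop)
        fun x => Real.abs_sin_le_one _), h1, h2, ← integral_add]
    · have e3 : ∀ y, Real.cos (2 * α y) * Real.cos (2 * α y) +
          Real.sin (2 * α y) * Real.sin (2 * α y) = 1 := by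
        intro y
        nlinarith [Real.cos_sq_add_sin_sq (2 * α y)]
      simp only [e3]
      simp
    · refine Integrable.of_bound (hc.mul hc).aestronglyMeasurable 1
        (Eventually.of_forall fun y => ?_)
      rw [Real.norm_eq_abs, abs_mul]
      calc _ ≤ (1 : ℝ) * 1 := mul_le_mul (Real.abs_cos_le_one _) (Real.abs_cos_le_one _)
            (abs_nonneg _) zero_le_one
        _ = 1 := one_mul 1
    · refine Integrable.of_bound (hs.mul hs).aestronglyMeasurable 1
        (Eventually.of_forall fun y => ?_)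
      rw [Real.norm_eq_abs, abs_mul]
      calc _ ≤ (1 : ℝ) * 1 := mul_le_mul (Real.abs_sin_le_one _) (Real.abs_sin_le_one _)
            (abs_nonneg _) zero_le_one
        _ = 1 := one_mul 1
  have hz : ∫ p : Y × ℝ, (1 - Real.cos (2 * (p.2 - α (A.act p.1 (kk p.2)))))
      ∂(m.prod circ) = 0 := by
    rw [integral_sub (integrable_const _) i1, hI]
    simp
  have hae := (integral_eq_zero_iff_of_nonneg (fun p => sub_nonneg.2 (Real.cos_le_one _))
    ((integrable_const _).sub i1)).1 hz
  filter_upwards [hae] with p hp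
  have hp' : 1 - Real.cos (2 * (p.2 - α (A.act p.1 (kk p.2)))) = 0 := hp
  linarith

end Pool.Agent.MP27775c.DO
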