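import Pool.Agent.Lib.MP_27775c_an_DO.DefE
import Pool.Agent.Lib.MP_27775c_an_DO.Hb

/-!
# MP_27775c_an, project DO, module Hc: the lift of an exceptional measure is not ergodic
-/

set_option autoImplicit false

open MeasureTheory Set Filter Topology

namespace Pool.Agent.MP27775c.DO

variable {Y : Type*} [TopologicalSpace Y] [PolishSpace Y] [MeasurableSpace Y] [BorelSpace Y]
  (A : RAct Y)

private theorem hc_poi {a θ : ℝ} (h : Real.cos (2 * (θ - a)) = 1) (s : ℝ) :
    poi a ((kk (-θ) * nn s) • UpperHalfPlane.I) = 1 := by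
  have h1 := poi_eq a (kk (-θ) * nn s)⁻¹
  rw [inv_inv] at h1
  have e00 : (kk (-θ) * nn s) 0 0 = Real.cos θ := by
    simp [nn, kk, Matrix.mul_apply, Fin.sum_univ_two]
  have e01 : (kk (-θ) * nn s) 0 1 = Real.cos θ * s - Real.sin θ := by
    simp [nn, kk, Matrix.mul_apply, Fin.sum_univ_two]
    ring
  have e10 : (kk (-θ) * nn s) 1 0 = Real.sin θ := by
    simp [nn, kk, Matrix.mul_apply, Fin.sum_univ_two]
  have e11 : (kk (-θ) * nn s) 1 1 = Real.sin θ * s + Real.cos θ := by
    simp [nn, kk, Matrix.mul_apply, Fin.sum_univ_two]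
  rw [h1, e00, e01, e10, e11]
  have hs : -Real.sin a * Real.cos θ + Real.cos a * Real.sin θ = Real.sin (θ - a) := by
    rw [Real.sin_sub]
    ring
  have hc : -Real.sin a * (Real.cos θ * s - Real.sin θ) +
      Real.cos a * (Real.sin θ * s + Real.cos θ) = s * Real.sin (θ - a) + Real.cos (θ - a) := by
    rw [Real.sin_sub, Real.cos_sub]
    ring
  have h2 : Real.sin (θ - a) = 0 := by
    have h3 := Real.cos_two_mul (θ - a)
    have h4 := Real.sin_sq_add_cos_sq (θ - a)
    rw [h] at h3
    have h5 : Real.sin (θ - a) ^ 2 = 0 := by linarith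
    exact pow_eq_zero_iff two_ne_zero |>.1 h5
  have h3 : Real.cos (θ - a) ^ 2 = 1 := by
    have h4 := Real.sin_sq_add_cos_sq (θ - a)
    rw [h2] at h4
    linarith
  rw [hs, hc, h2, mul_zero, zero_add, h3]
  norm_num

/-- Proof. Let `α`, `U` be as in `IsExc`. By `angle_ae` for almost every `(x, θ)` the number
`α (x · kk θ) - θ` is an integer multiple of `π`, and `y = x · kk θ` satisfies the last property of
`IsExc` (it holds almost everywhere for `kap A m = (m × circ).map ..`). For `g = kk (-θ) * nn s` we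
have `poi (α y) (g • I) = 1` (`poi` has period `π` in the angle; `poi_eq` for `g⁻¹`:
`(-sin θ, cos θ) * g = (0, 1) * nn s = (0, 1)`), so `U (x · nn s) = U (x · kk θ)` for all `s`. For
`s = 0`: `U x = U (x · kk θ)`. So for almost every `x`, `U (x · nn s) = U x` for all `s`, the sets
`{U > c}` are invariant mod `m` under all `nn s`; if `m` were ergodic for `nn` then `U = c₀` almost
everywhere for `m`, so `U (x · kk θ) = U x = c₀` for almost all `(x, θ)`, `U = c₀` almost
everywhere for `kap A m`, a contradiction. -/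
theorem exc_not_nerg {m : Measure Y} [IsProbabilityMeasure m] (h : IsPInv A m)
    (he : IsExc A (kap A m)) : ¬ IsNErg A m := by
  intro hN
  obtain ⟨α, U, hα, hU, h01, hP, -, hUc, hnc⟩ := he
  have hjm : Measurable fun p : Y × ℝ => A.act p.1 (kk p.2) := meas_joint A continuous_kk
  have h1 := angle_ae A h hα hP
  have h2 : ∀ᵐ p ∂(m.prod circ), ∀ g : G,
      poi (α (A.act p.1 (kk p.2))) (g • UpperHalfPlane.I) = 1 →
        U (A.act (A.act p.1 (kk p.2)) g) = U (A.act p.1 (kk p.2)) :=
    ae_of_ae_map hjm.aemeasurable hUc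
  have h3 : ∀ᵐ p ∂(m.prod circ), ∀ s : ℝ, U (A.act p.1 (nn s)) = U (A.act p.1 (kk p.2)) := by
    filter_upwards [h1, h2] with p e1 e2 s
    have e3 := e2 (kk (-p.2) * nn s) (hc_poi e1 s)
    rwa [← A.act_mul, ← mul_assoc, ← kk_add, add_neg_cancel, kk_zero, one_mul] at e3
  have h4 : ∀ᵐ p ∂(m.prod circ), U (A.act p.1 (kk p.2)) = U p.1 := by
    filter_upwards [h3] with p e1
    have e2 := e1 0
    rw [nn_zero, A.act_one] at e2
    exact e2.symm
  have h5 : ∀ᵐ x ∂m, ∀ s : ℝ, U (A.act x (nn s)) = U x := by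
    have h6 : ∀ᵐ p ∂(m.prod circ), ∀ s : ℝ, U (A.act p.1 (nn s)) = U p.1 := by
      filter_upwards [h3, h4] with p e1 e2 s
      rw [e1 s, e2]
    filter_upwards [Measure.ae_ae_of_ae_prod h6] with x hx
    obtain ⟨θ, hθ⟩ := hx.exists
    exact hθ
  have h6 : ∃ c, U =ᵐ[m] Function.const Y c := by
    refine Filter.exists_eventuallyEq_const_of_forall_separating MeasurableSet fun V hV => ?_
    have hE : MeasurableSet (U ⁻¹' V) := hU hV
    have hA : ∀ s, AInv A m (U ⁻¹' V) (nn s) := by
      intro s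
      rw [AInv, measure_eq_zero_iff_ae_notMem]
      filter_upwards [h5] with x hx
      rw [mem_symmDiff, mem_preimage, mem_preimage, mem_preimage, hx s]
      exact fun h' => h'.elim (fun h'' => h''.2 h''.1) fun h'' => h''.2 h''.1
    rcases hN (U ⁻¹' V) hE hA with h7 | h7
    · right
      have h8 : ∀ᵐ x ∂m, x ∉ U ⁻¹' V := measure_eq_zero_iff_ae_notMem.1 h7
      exact h8
    · left
      have h8 : ∀ᵐ x ∂m, x ∉ (U ⁻¹' V)ᶜ := measure_eq_zero_iff_ae_notMem.1 h7
      filter_upwards [h8] with x hx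
      exact not_not.1 hx
  obtain ⟨c, hc⟩ := h6
  refine hnc ⟨c, ?_⟩
  have h7 : ∀ᵐ p ∂(m.prod circ), U p.1 = c := Measure.quasiMeasurePreserving_fst.ae hc
  have h8 : MeasurableSet {y | U y = c} := hU (measurableSet_singleton c)
  rw [kap, ae_map_iff hjm.aemeasurable h8]
  filter_upwards [h4, h7] with p e1 e2
  rw [e1, e2]

end Pool.Agent.MP27775c.DO
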