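import Pool.Agent.Lib.MP_27775c_an_DO.Ball

/-!
# MP_27775c_an, project DO, module Hd: pairing of disc averages with invariant functions
-/

set_option autoImplicit false

open MeasureTheory Set Filter Topology

namespace Pool.Agent.MP27775c.DO

private theorem hd_sigI_nonneg (p : ℝ × ℝ) : 0 ≤ sigI p := by
  unfold sigI
  split_ifs
  · positivity
  · exact le_refl _

private theorem hd_sigI_int : Integrable sigI :=
  dom_int.mono' sigI_meas.aestronglyMeasurable (Filter.Eventually.of_forall fun p => by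
    rw [Real.norm_eq_abs, abs_of_nonneg (hd_sigI_nonneg p)]; exact sigI_le p)

private theorem hd_sig_int {R : ℝ} (hR : 0 ≤ R) : Integrable (sig R) :=
  dom_int.mono' (sig_meas R).aestronglyMeasurable (Filter.Eventually.of_forall fun p => by
    rw [Real.norm_eq_abs, abs_of_nonneg (sig_nonneg R p)]; exact sig_le hR p)

private theorem hd_lim {Φ : ℝ × ℝ → ℝ} (hΦ : Measurable Φ) {K : ℝ} (hK : ∀ p, |Φ p| ≤ K) :
    Tendsto (fun R => ∫ p, sig R p * Φ p) atTop (𝓝 (∫ p, sigI p * Φ p)) := by
  refine tendsto_integral_filter_of_dominated_convergence (fun p => dom p * K) ?_ ?_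
    (dom_int.mul_const K) ?_
  · exact Eventually.of_forall fun R => ((sig_meas R).mul hΦ).aestronglyMeasurable
  · filter_upwards [eventually_ge_atTop 0] with R hR
    refine Eventually.of_forall fun p => ?_
    rw [norm_mul, Real.norm_of_nonneg (sig_nonneg R p), Real.norm_eq_abs]
    exact mul_le_mul (sig_le hR p) (hK p) (abs_nonneg _)
      ((sig_nonneg R p).trans (sig_le hR p))
  · filter_upwards [sig_tendsto] with p hp
    exact hp.mul_const _

variable {Y : Type*} [TopologicalSpace Y] [PolishSpace Y] [MeasurableSpace Y] [BorelSpace Y]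
  (A : RAct Y)

/-- The average of `V` over the times `-log η`, with the weight `sigI`. -/
noncomputable def wav (V : Y → ℝ) (x : Y) : ℝ :=
  (∫ p, sigI p * V (A.act x (aa (-(Real.log p.2))))) / ∫ p, sigI p

private theorem hd_meas_log :
    Measurable fun q : Y × (ℝ × ℝ) => A.act q.1 (aa (-(Real.log q.2.2))) :=
  (meas_joint A continuous_aa).comp (measurable_fst.prodMk
    (Real.measurable_log.comp (measurable_snd.comp measurable_snd)).neg)

private theorem hd_meas_g (R : ℝ) :
    Measurable fun q : (ℝ × ℝ) × Y => A.act q.2 (nn q.1.1 * aa (Real.log q.1.2 - R)) := by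
  have hc : Continuous fun z : ℝ × ℝ => nn z.1 * aa z.2 :=
    (continuous_nn.comp continuous_fst).mul (continuous_aa.comp continuous_snd)
  exact (meas_joint A hc).comp (measurable_snd.prodMk
    ((measurable_fst.comp measurable_fst).prodMk
      ((Real.measurable_log.comp (measurable_snd.comp measurable_fst)).sub_const R)))

theorem wav_meas {V : Y → ℝ} (hV : Measurable V) : Measurable (wav A V) := by
  have h2 : Measurable fun q : Y × (ℝ × ℝ) =>
      sigI q.2 * V (A.act q.1 (aa (-(Real.log q.2.2)))) :=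
    (sigI_meas.comp measurable_snd).mul (hV.comp (hd_meas_log A))
  have h3 := (h2.stronglyMeasurable.integral_prod_right' (ν := (volume : Measure (ℝ × ℝ))))
  exact h3.measurable.div_const _

theorem wav_bdd {V : Y → ℝ} {C : ℝ} (hb : ∀ y, |V y| ≤ C) (x : Y) : |wav A V x| ≤ C := by
  have hs := sigI_pos
  unfold wav
  rw [abs_div, abs_of_pos hs, div_le_iff₀ hs]
  have h1 : ‖∫ p, sigI p * V (A.act x (aa (-(Real.log p.2))))‖ ≤ ∫ p, C * sigI p := by
    refine norm_integral_le_of_norm_le (hd_sigI_int.const_mul C)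
      (Eventually.of_forall fun p => ?_)
    rw [norm_mul, Real.norm_of_nonneg (hd_sigI_nonneg p), Real.norm_eq_abs, mul_comm]
    exact mul_le_mul_of_nonneg_right (hb _) (hd_sigI_nonneg p)
  rwa [integral_const_mul] at h1

/-- Proof. `bav_eq` and Fubini (`F` is integrable, `V` bounded, `sig R` integrable). For fixed `p`
with `p.2 > 0` let `g = nn p.1 * aa (log p.2 - R)`; the substitution `x' = x · g` (`tr_nn_aa`)
gives `x · aa (-R) = x' · g⁻¹ · aa (-R)` and
`g⁻¹ * aa (-R) = aa (R - log p.2) * nn (-p.1) * aa (-R) = aa (-(log p.2)) * nn (-(exp R * p.1))`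
(`nn_aa`), so `V (x · aa (-R)) = V (x' · aa (-(log p.2)))` by the invariance of `V`. -/
theorem pair_id {m : Measure Y} [IsProbabilityMeasure m] (h : IsPInv A m) {V : Y → ℝ}
    (hV : Measurable V) (hb : ∃ C, ∀ y, |V y| ≤ C) (hinv : ∀ y s, V (A.act y (nn s)) = V y)
    {F : Y → ℝ} (hF : Measurable F) (hi : Integrable F m) {R : ℝ} (hR : 0 < R) :
    ∫ x, V (A.act x (aa (-R))) * bav A R F x ∂m =
      (∫ p, sig R p * ∫ x, V (A.act x (aa (-(Real.log p.2)))) * F x ∂m) / ∫ p, sig R p := by
  obtain ⟨C, hC⟩ := hb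
  have hsk : MeasurePreserving (fun q : (ℝ × ℝ) × Y =>
      (q.1, A.act q.2 (nn q.1.1 * aa (Real.log q.1.2 - R))))
      ((volume : Measure (ℝ × ℝ)).prod m) ((volume : Measure (ℝ × ℝ)).prod m) :=
    (MeasurePreserving.id (volume : Measure (ℝ × ℝ))).skew_product
      (g := fun (p : ℝ × ℝ) (x : Y) => A.act x (nn p.1 * aa (Real.log p.2 - R)))
      (hd_meas_g A R) (Eventually.of_forall fun p => tr_nn_aa A h _ _)
  have I1 : Integrable (fun q : (ℝ × ℝ) × Y => sig R q.1 * F q.2)
      ((volume : Measure (ℝ × ℝ)).prod m) := (hd_sig_int hR.le).mul_prod hi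
  have I2 : Integrable (fun q : (ℝ × ℝ) × Y =>
      sig R q.1 * F (A.act q.2 (nn q.1.1 * aa (Real.log q.1.2 - R))))
      ((volume : Measure (ℝ × ℝ)).prod m) :=
    (hsk.integrable_comp I1.aestronglyMeasurable).2 I1
  have I3 : Integrable (fun q : (ℝ × ℝ) × Y => V (A.act q.2 (aa (-R))) *
      (sig R q.1 * F (A.act q.2 (nn q.1.1 * aa (Real.log q.1.2 - R)))))
      ((volume : Measure (ℝ × ℝ)).prod m) := by
    refine I2.bdd_mul (c := C) ?_ ?_
    · exact (hV.comp ((meas_act A (aa (-R))).comp measurable_snd)).aestronglyMeasurable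
    · exact Eventually.of_forall fun q => hC _
  have hswap : ∫ x, (∫ p, V (A.act x (aa (-R))) *
        (sig R p * F (A.act x (nn p.1 * aa (Real.log p.2 - R))))) ∂m =
      ∫ p, ∫ x, V (A.act x (aa (-R))) *
        (sig R p * F (A.act x (nn p.1 * aa (Real.log p.2 - R)))) ∂m := by
    exact (integral_integral_swap (f := fun (p : ℝ × ℝ) (x : Y) => V (A.act x (aa (-R))) *
      (sig R p * F (A.act x (nn p.1 * aa (Real.log p.2 - R))))) I3).symm
  have hL : ∀ x, V (A.act x (aa (-R))) * bav A R F x = (∫ p, V (A.act x (aa (-R))) *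
      (sig R p * F (A.act x (nn p.1 * aa (Real.log p.2 - R))))) / ∫ p, sig R p := by
    intro x
    rw [bav_eq A hR hF x, integral_const_mul, mul_div_assoc]
  simp only [hL]
  rw [integral_div, hswap]
  congr 1
  refine integral_congr_ae (Eventually.of_forall fun p => ?_)
  have h1 : ∫ x, V (A.act x (aa (-(Real.log p.2)))) * F x ∂m =
      ∫ x, V (A.act x (aa (-R))) * F (A.act x (nn p.1 * aa (Real.log p.2 - R))) ∂m := by
    have h2 := integral_tr A m (nn p.1 * aa (Real.log p.2 - R))
      (fun x => V (A.act x (aa (-(Real.log p.2)))) * F x)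
    rw [tr_nn_aa A h] at h2
    rw [h2]
    refine integral_congr_ae (Eventually.of_forall fun x => ?_)
    have h3 : A.act (A.act x (nn p.1 * aa (Real.log p.2 - R))) (aa (-(Real.log p.2))) =
        A.act (A.act x (aa (-R))) (nn (Real.exp R * p.1)) := by
      rw [← A.act_mul, ← A.act_mul, mul_assoc, ← aa_add]
      have h4 : Real.log p.2 - R + -(Real.log p.2) = -R := by ring
      rw [h4, nn_aa, neg_neg]
    simp only [h3, hinv]
  simp only [h1]
  rw [← integral_const_mul]
  refine integral_congr_ae (Eventually.of_forall fun x => ?_)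
  simp only
  ring

/-- Proof. `pair_id`, `sig_L1`, `sigI_pos`; Fubini for the limit. -/
theorem pair_lim {m : Measure Y} [IsProbabilityMeasure m] (h : IsPInv A m) {V : Y → ℝ}
    (hV : Measurable V) (hb : ∃ C, ∀ y, |V y| ≤ C) (hinv : ∀ y s, V (A.act y (nn s)) = V y)
    {F : Y → ℝ} (hF : Measurable F) (hi : Integrable F m) :
    Tendsto (fun R : ℝ => ∫ x, V (A.act x (aa (-R))) * bav A R F x ∂m) atTop
      (𝓝 (∫ x, wav A V x * F x ∂m)) := by
  obtain ⟨C, hC⟩ := hb
  set Φ : ℝ × ℝ → ℝ := fun p => ∫ x, V (A.act x (aa (-(Real.log p.2)))) * F x ∂m with hΦ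
  have hVm : Measurable fun q : (ℝ × ℝ) × Y => V (A.act q.2 (aa (-(Real.log q.1.2)))) :=
    hV.comp ((hd_meas_log A).comp measurable_swap)
  have hm : Measurable fun q : (ℝ × ℝ) × Y => V (A.act q.2 (aa (-(Real.log q.1.2)))) * F q.2 :=
    hVm.mul (hF.comp measurable_snd)
  have hΦm : Measurable Φ :=
    (hm.stronglyMeasurable.integral_prod_right' (ν := m)).measurable
  have hΦb : ∀ p, |Φ p| ≤ ∫ x, C * |F x| ∂m := by
    intro p
    rw [← Real.norm_eq_abs]
    refine norm_integral_le_of_norm_le (hi.abs.const_mul C) (Eventually.of_forall fun x => ?_)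
    rw [norm_mul, Real.norm_eq_abs, Real.norm_eq_abs]
    exact mul_le_mul_of_nonneg_right (hC _) (abs_nonneg _)
  have hlim : Tendsto (fun R => (∫ p, sig R p * Φ p) / ∫ p, sig R p) atTop
      (𝓝 ((∫ p, sigI p * Φ p) / ∫ p, sigI p)) := by
    refine (hd_lim hΦm hΦb).div ?_ sigI_pos.ne'
    have h1 := hd_lim (Φ := fun _ => 1) measurable_const (K := 1) (fun p => by simp)
    simpa using h1
  have heq : (∫ p, sigI p * Φ p) / ∫ p, sigI p = ∫ x, wav A V x * F x ∂m := by
    have I1 : Integrable (fun q : (ℝ × ℝ) × Y => sigI q.1 * F q.2)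
        ((volume : Measure (ℝ × ℝ)).prod m) := hd_sigI_int.mul_prod hi
    have I2 : Integrable (fun q : (ℝ × ℝ) × Y => V (A.act q.2 (aa (-(Real.log q.1.2)))) *
        (sigI q.1 * F q.2)) ((volume : Measure (ℝ × ℝ)).prod m) :=
      I1.bdd_mul (c := C) hVm.aestronglyMeasurable (Eventually.of_forall fun q => hC _)
    have hswap := integral_integral_swap (f := fun (p : ℝ × ℝ) (x : Y) =>
      V (A.act x (aa (-(Real.log p.2)))) * (sigI p * F x)) I2
    have h1 : ∀ p, sigI p * Φ p = ∫ x, V (A.act x (aa (-(Real.log p.2)))) *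
        (sigI p * F x) ∂m := by
      intro p
      rw [hΦ]
      simp only
      rw [← integral_const_mul]
      refine integral_congr_ae (Eventually.of_forall fun x => ?_)
      simp only
      ring
    simp only [h1]
    rw [hswap, ← integral_div]
    refine integral_congr_ae (Eventually.of_forall fun x => ?_)
    simp only [wav]
    rw [div_mul_eq_mul_div, ← integral_mul_const]
    congr 1
    refine integral_congr_ae (Eventually.of_forall fun p => ?_)
    simp only
    ring
  rw [← heq]
  refine hlim.congr' ?_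
  filter_upwards [eventually_gt_atTop 0] with R hR
  exact (pair_id A h hV ⟨C, hC⟩ hinv hF hi hR).symm

end Pool.Agent.MP27775c.DO
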