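import Pool.Agent.Lib.MP_27775c_an_DO.Hd
import Pool.Agent.Lib.MP_27775c_an_DO.LD

/-!
# MP_27775c_an, project DO, module He: orthogonality
-/

set_option autoImplicit false

open MeasureTheory Set Filter Topology

namespace Pool.Agent.MP27775c.DO

variable {Y : Type*} [TopologicalSpace Y] [PolishSpace Y] [MeasurableSpace Y] [BorelSpace Y]
  (A : RAct Y)

private theorem he_ball {R : ℝ} (hR : 0 < R) :
    0 < (volume (Metric.ball UpperHalfPlane.I R)).toReal ∧
      volume (Metric.ball UpperHalfPlane.I R) ≠ ⊤ := by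
  rw [vol_ball hR]
  have h1 : 0 < Real.exp R * ∫ p, sig R p := mul_pos (Real.exp_pos _) (sig_pos hR)
  exact ⟨by rw [ENNReal.toReal_ofReal h1.le]; exact h1, ENNReal.ofReal_ne_top⟩

omit [TopologicalSpace Y] [PolishSpace Y] [BorelSpace Y] in
private theorem he_F {m : Measure Y} [IsProbabilityMeasure m] {F W : Y → ℝ}
    (hF : Measurable F) {C : ℝ} (hC : ∀ y, |F y| ≤ C * W y)
    (hW0 : ∀ y, 0 ≤ W y) (hi : Integrable W m) : Integrable F m := by
  refine (hi.const_mul |C|).mono' hF.aestronglyMeasurable (Eventually.of_forall fun y => ?_)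
  rw [Real.norm_eq_abs]
  exact (hC y).trans (mul_le_mul_of_nonneg_right (le_abs_self C) (hW0 y))

/-- the average of a nonnegative function -/
private theorem he_bav {m : Measure Y} [IsProbabilityMeasure m] (h : IsPInv A m) {R : ℝ}
    (hR : 0 < R) {u : Y → ℝ} (hu : Measurable u) (h0 : ∀ y, 0 ≤ u y) (hi : Integrable u m) :
    Integrable (fun y => bav A R u y) m ∧ ∫ y, bav A R u y ∂m = ∫ y, u y ∂m := by
  obtain ⟨hv0, hv1⟩ := he_ball hR
  have hM : Measurable fun y => bav A R u y := (bav_meas A hu).comp measurable_prodMk_left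
  have hb0 : ∀ y, 0 ≤ bav A R u y := fun y =>
    div_nonneg (integral_nonneg fun z => h0 _) ENNReal.toReal_nonneg
  have hE : ∀ᵐ y ∂m, ENNReal.ofReal (bav A R u y) =
      bavE A R (fun y => ENNReal.ofReal (u y)) y := by
    filter_upwards [int_disc A h hu hi] with y hy
    unfold bav bavE
    rw [ENNReal.ofReal_div_of_pos hv0, ENNReal.ofReal_toReal hv1,
      ofReal_integral_eq_lintegral_ofReal (hy R) (Eventually.of_forall fun z => h0 _)]
  have hL : ∫⁻ y, ENNReal.ofReal (bav A R u y) ∂m = ∫⁻ y, ENNReal.ofReal (u y) ∂m := by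
    rw [lintegral_congr_ae hE]
    exact lint_bavE A h hR hu.ennreal_ofReal
  constructor
  · refine ⟨hM.aestronglyMeasurable, ?_⟩
    rw [hasFiniteIntegral_iff_ofReal (Eventually.of_forall hb0), hL,
      ← hasFiniteIntegral_iff_ofReal (Eventually.of_forall h0)]
    exact hi.2
  · rw [integral_eq_lintegral_of_nonneg_ae (Eventually.of_forall hb0) hM.aestronglyMeasurable,
      integral_eq_lintegral_of_nonneg_ae (Eventually.of_forall h0) hu.aestronglyMeasurable, hL]

/-- the pointwise bounds -/
private theorem he_pt {m : Measure Y} [IsProbabilityMeasure m] (h : IsPInv A m) {F W : Y → ℝ}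
    (hF : Measurable F) (hW : Measurable W) {C : ℝ} (hC : ∀ y, |F y| ≤ C * W y)
    (hW0 : ∀ y, 0 ≤ W y) (hi : Integrable W m) (N : ℝ) {R : ℝ}
    (hR : 0 < R) (κ : ℝ) : ∀ᵐ y ∂m, |bav A R F y / bav A R W y - κ| ≤ |C| + |κ| ∧
      |bav A R F y - κ * bav A R W y| ≤ N * |bav A R F y / bav A R W y - κ| +
        (|C| + |κ|) * bav A R (fun y => max (W y - N) 0) y := by
  obtain ⟨hv0, hv1⟩ := he_ball hR
  filter_upwards [int_disc A h hW hi, int_disc A h hF (he_F hF hC hW0 hi)] with y hy hy'
  have iW := hy R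
  have iF := hy' R
  have hfin : IsFiniteMeasure (volume.restrict (Metric.ball UpperHalfPlane.I R)) :=
    ⟨by rw [Measure.restrict_apply_univ]; exact lt_of_le_of_ne le_top hv1⟩
  have iN : IntegrableOn (fun _ : UpperHalfPlane => N) (Metric.ball UpperHalfPlane.I R) :=
    integrable_const N
  have ip : IntegrableOn (fun z => max (W (A.act y (pp z)) - N) 0)
      (Metric.ball UpperHalfPlane.I R) := (iW.sub iN).pos_part
  have hw : 0 ≤ bav A R W y := div_nonneg (integral_nonneg fun z => hW0 _) hv0.le
  have hp : 0 ≤ bav A R (fun y => max (W y - N) 0) y :=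
    div_nonneg (integral_nonneg fun z => le_max_right _ _) hv0.le
  have h1 : |bav A R F y| ≤ |C| * bav A R W y := by
    unfold bav
    rw [abs_div, abs_of_pos hv0, ← mul_div_assoc]
    refine div_le_div_of_nonneg_right ?_ hv0.le
    rw [← integral_const_mul]
    refine (abs_integral_le_integral_abs).trans (integral_mono iF.abs (iW.const_mul _)
      fun z => ?_)
    exact (hC _).trans (mul_le_mul_of_nonneg_right (le_abs_self C) (hW0 _))
  have h2 : bav A R W y ≤ N + bav A R (fun y => max (W y - N) 0) y := by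
    unfold bav
    rw [div_le_iff₀ hv0, add_mul, div_mul_cancel₀ _ hv0.ne']
    have h3 : ∫ _ in Metric.ball UpperHalfPlane.I R, N =
        N * (volume (Metric.ball UpperHalfPlane.I R)).toReal := by
      rw [setIntegral_const, smul_eq_mul, mul_comm]
      rfl
    rw [← h3, ← integral_add iN ip]
    refine integral_mono iW (iN.add ip) fun z => ?_
    show W (A.act y (pp z)) ≤ N + max (W (A.act y (pp z)) - N) 0
    have := le_max_left (W (A.act y (pp z)) - N) 0
    linarith
  set a := bav A R F y
  set w := bav A R W y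
  set p := bav A R (fun y => max (W y - N) 0) y
  have h4 : |a / w| ≤ |C| := by
    rcases hw.eq_or_lt with h5 | h5
    · rw [← h5, div_zero, abs_zero]
      exact abs_nonneg _
    · rw [abs_div, abs_of_pos h5, div_le_iff₀ h5]
      exact h1
  have h6 : |a / w - κ| ≤ |C| + |κ| := by
    have h7 := abs_add_le (a / w) (-κ)
    rw [← sub_eq_add_neg, abs_neg] at h7
    linarith
  refine ⟨h6, ?_⟩
  have h8 : |a - κ * w| = w * |a / w - κ| := by
    rcases hw.eq_or_lt with h5 | h5
    · have h9 : a = 0 := abs_nonpos_iff.1 (by rw [← h5, mul_zero] at h1; exact h1)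
      rw [h9, ← h5]
      simp
    · have h9 : a - κ * w = w * (a / w - κ) := by
        field_simp
      rw [h9, abs_mul, abs_of_pos h5]
  rw [h8]
  have h10 : 0 ≤ |a / w - κ| := abs_nonneg _
  calc w * |a / w - κ| ≤ (N + p) * |a / w - κ| := mul_le_mul_of_nonneg_right h2 h10
    _ = N * |a / w - κ| + |a / w - κ| * p := by ring
    _ ≤ N * |a / w - κ| + (|C| + |κ|) * p := by
        have := mul_le_mul_of_nonneg_right h6 hp
        linarith

/-- The difference of the averages is controlled by the difference of the quotients. Proof. For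
`m`-almost every `y` (`int_disc`) `|bav F| ≤ C * bav W`, so with `q = bav F / bav W`, `|q| ≤ C`,
`|bav F - κ * bav W| = bav W * |q - κ|` (also if `bav W = 0`) and
`bav W ≤ N + bav (W - N)⁺`, so it is at most `N * |q - κ| + (C + |κ|) * bav (W - N)⁺`. Integrate:
`∫ bav (W - N)⁺ ∂m = ∫ (W - N)⁺ ∂m` (`lint_bavE`, or Fubini and `tr_pp`), and
`∫ |q - κ| ∂m = ∫ |q - κ| ∂(kap A m)` (`bav_kk`, `int_kap`). -/
theorem diff_le {m : Measure Y} [IsProbabilityMeasure m] (h : IsPInv A m) {F W : Y → ℝ}
    (hF : Measurable F) (hW : Measurable W) (hFK : ∀ y θ, F (A.act y (kk θ)) = F y)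
    (hWK : ∀ y θ, W (A.act y (kk θ)) = W y) {C : ℝ} (hC : ∀ y, |F y| ≤ C * W y)
    (hW0 : ∀ y, 0 ≤ W y) (hi : Integrable W m) (κ : ℝ) {N : ℝ} (hN : 0 ≤ N) {R : ℝ}
    (hR : 0 < R) :
    ∫ y, |bav A R F y - κ * bav A R W y| ∂m ≤
      N * ∫ y, |bav A R F y / bav A R W y - κ| ∂(kap A m) +
        (|C| + |κ|) * ∫ y, max (W y - N) 0 ∂m := by
  have hc0 : 0 ≤ |C| + |κ| := by positivity
  have hMF : Measurable fun y => bav A R F y := (bav_meas A hF).comp measurable_prodMk_left
  have hMW : Measurable fun y => bav A R W y := (bav_meas A hW).comp measurable_prodMk_left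
  have hFi : Integrable F m := he_F hF hC hW0 hi
  have hp : Measurable fun y => max (W y - N) 0 := (hW.sub_const N).max measurable_const
  have hpi : Integrable (fun y => max (W y - N) 0) m :=
    (hi.sub (integrable_const N)).pos_part
  obtain ⟨hb1, hb2⟩ := he_bav A h hR hp (fun y => le_max_right _ _) hpi
  have hQ : Measurable fun y => |bav A R F y / bav A R W y - κ| :=
    ((hMF.div hMW).sub_const κ).abs
  have hk : ∫ y, |bav A R F y / bav A R W y - κ| ∂(kap A m) =
      ∫ y, |bav A R F y / bav A R W y - κ| ∂m := by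
    refine (int_kap A (m := m) hQ fun y θ => ?_).2
    rw [bav_kk A hFK, bav_kk A hWK]
  have hpt := he_pt A h hF hW hC hW0 hi N hR κ
  have hQi : Integrable (fun y => |bav A R F y / bav A R W y - κ|) m := by
    refine Integrable.mono' (integrable_const (|C| + |κ|)) hQ.aestronglyMeasurable ?_
    filter_upwards [hpt] with y hy
    rw [Real.norm_eq_abs, abs_abs]
    exact hy.1
  rw [hk, ← hb2, ← integral_const_mul, ← integral_const_mul,
    ← integral_add (hQi.const_mul N) (hb1.const_mul _)]
  refine integral_mono_of_nonneg (Eventually.of_forall fun y => abs_nonneg _)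
    ((hQi.const_mul N).add (hb1.const_mul _)) ?_
  filter_upwards [hpt] with y hy
  exact hy.2

omit [TopologicalSpace Y] [PolishSpace Y] [BorelSpace Y] in
private theorem he_bdd {m : Measure Y} {v g : Y → ℝ} {C₁ : ℝ} (hv : Measurable v)
    (hb : ∀ y, |v y| ≤ C₁) (hi : Integrable g m) : Integrable (fun y => v y * g y) m := by
  refine (hi.norm.const_mul C₁).mono'
    (hv.aestronglyMeasurable.mul hi.aestronglyMeasurable) (Eventually.of_forall fun y => ?_)
  rw [norm_mul, Real.norm_eq_abs]
  exact mul_le_mul_of_nonneg_right (hb y) (norm_nonneg _)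

private theorem he_abs {m : Measure Y} [IsProbabilityMeasure m] (h : IsPInv A m) {F W : Y → ℝ}
    (hF : Measurable F) (hW : Measurable W) {C : ℝ} (hC : ∀ y, |F y| ≤ C * W y)
    (hW0 : ∀ y, 0 ≤ W y) (hi : Integrable W m) {R : ℝ} (hR : 0 < R) :
    ∀ᵐ y ∂m, ‖bav A R F y‖ ≤ |C| * bav A R W y := by
  obtain ⟨hv0, hv1⟩ := he_ball hR
  filter_upwards [int_disc A h hW hi, int_disc A h hF (he_F hF hC hW0 hi)] with y hy hy'
  rw [Real.norm_eq_abs]
  unfold bav
  rw [abs_div, abs_of_pos hv0, ← mul_div_assoc]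
  refine div_le_div_of_nonneg_right ?_ hv0.le
  rw [← integral_const_mul]
  refine (abs_integral_le_integral_abs).trans (integral_mono (hy' R).abs ((hy R).const_mul _)
    fun z => ?_)
  exact (hC _).trans (mul_le_mul_of_nonneg_right (le_abs_self C) (hW0 _))

/-- Proof. By `pair_lim` for `F` and for `W` the function
`R ↦ ∫ V (x · aa (-R)) * (bav F x - κ * bav W x) ∂m` tends to the left side, so its averages over
`(0, S]` too. By `diff_le` the averages have absolute value at most
`C₁ * (N * (average of the hypothesis) + (|C| + |κ|) * ∫ (W - N)⁺ ∂m)` (the part of the integral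
over a bounded interval of radii is negligible), so their limit is at most
`C₁ * (|C| + |κ|) * ∫ (W - N)⁺ ∂m`; let `N → ∞` (dominated convergence). -/
theorem orth {m : Measure Y} [IsProbabilityMeasure m] (h : IsPInv A m) {V : Y → ℝ}
    (hV : Measurable V) (hb : ∃ C, ∀ y, |V y| ≤ C) (hinv : ∀ y s, V (A.act y (nn s)) = V y)
    {F W : Y → ℝ} (hF : Measurable F) (hW : Measurable W)
    (hFK : ∀ y θ, F (A.act y (kk θ)) = F y) (hWK : ∀ y θ, W (A.act y (kk θ)) = W y) {C : ℝ}
    (hC : ∀ y, |F y| ≤ C * W y) (hW0 : ∀ y, 0 ≤ W y) (hi : Integrable W m) {κ : ℝ}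
    (hc : Tendsto (fun S : ℝ => 1 / S * ∫ R in (0 : ℝ)..S,
      ∫ y, |bav A R F y / bav A R W y - κ| ∂(kap A m)) atTop (𝓝 0)) :
    ∫ x, wav A V x * (F x - κ * W x) ∂m = 0 := by
  obtain ⟨C₁, hb⟩ := hb
  have hC₁ : 0 ≤ C₁ := by
    obtain ⟨y⟩ : Nonempty Y := by
      by_contra hY
      rw [not_nonempty_iff] at hY
      have h1 : m univ = 0 := by
        rw [univ_eq_empty_iff.2 hY, measure_empty]
      rw [measure_univ] at h1
      exact one_ne_zero h1
    exact (abs_nonneg _).trans (hb y)
  have hFi : Integrable F m := he_F hF hC hW0 hi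
  have hwm := wav_meas A hV
  have hwb : ∀ x, |wav A V x| ≤ C₁ := wav_bdd A hb
  -- the limit
  have hL : ∫ x, wav A V x * (F x - κ * W x) ∂m =
      ∫ x, wav A V x * F x ∂m - κ * ∫ x, wav A V x * W x ∂m := by
    rw [← integral_const_mul, ← integral_sub (he_bdd hwm hwb hFi)
      ((he_bdd hwm hwb hi).const_mul κ)]
    refine integral_congr_ae (Eventually.of_forall fun x => ?_)
    ring
  set L := ∫ x, wav A V x * (F x - κ * W x) ∂m with hLdef
  have hlim : Tendsto (fun R : ℝ => ∫ x, V (A.act x (aa (-R))) * bav A R F x ∂m -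
      κ * ∫ x, V (A.act x (aa (-R))) * bav A R W x ∂m) atTop (𝓝 L) := by
    rw [hL]
    exact (pair_lim A h hV ⟨C₁, hb⟩ hinv hF hFi).sub
      ((pair_lim A h hV ⟨C₁, hb⟩ hinv hW hi).const_mul κ)
  set a : ℝ → ℝ := fun R => ∫ y, |bav A R F y / bav A R W y - κ| ∂(kap A m) with ha
  have ha0 : ∀ R, 0 ≤ a R := fun R => integral_nonneg fun y => abs_nonneg _
  -- the bound of the pairing
  have hbound : ∀ N : ℝ, 0 ≤ N → ∀ R : ℝ, 0 < R →
      |∫ x, V (A.act x (aa (-R))) * bav A R F x ∂m -
        κ * ∫ x, V (A.act x (aa (-R))) * bav A R W x ∂m| ≤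
        C₁ * (N * a R + (|C| + |κ|) * ∫ y, max (W y - N) 0 ∂m) := by
    intro N hN R hR
    have hMF : Measurable fun y => bav A R F y := (bav_meas A hF).comp measurable_prodMk_left
    have hMW : Measurable fun y => bav A R W y := (bav_meas A hW).comp measurable_prodMk_left
    have hVm : Measurable fun x => V (A.act x (aa (-R))) := hV.comp (meas_act A _)
    have hVb : ∀ x, |V (A.act x (aa (-R)))| ≤ C₁ := fun x => hb _
    have iW := (he_bav A h hR hW hW0 hi).1
    have iF : Integrable (fun y => bav A R F y) m := by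
      refine (iW.const_mul |C|).mono' hMF.aestronglyMeasurable ?_
      filter_upwards [he_abs A h hF hW hC hW0 hi hR] with y hy
      exact hy
    have e1 : ∫ x, V (A.act x (aa (-R))) * bav A R F x ∂m -
        κ * ∫ x, V (A.act x (aa (-R))) * bav A R W x ∂m =
        ∫ x, V (A.act x (aa (-R))) * (bav A R F x - κ * bav A R W x) ∂m := by
      rw [← integral_const_mul, ← integral_sub (he_bdd hVm hVb iF)
        ((he_bdd hVm hVb iW).const_mul κ)]
      refine integral_congr_ae (Eventually.of_forall fun x => ?_)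
      ring
    have iD : Integrable (fun x => bav A R F x - κ * bav A R W x) m :=
      iF.sub (iW.const_mul κ)
    rw [e1]
    have e2 : |∫ x, V (A.act x (aa (-R))) * (bav A R F x - κ * bav A R W x) ∂m| ≤
        C₁ * ∫ x, |bav A R F x - κ * bav A R W x| ∂m := by
      rw [← integral_const_mul]
      refine (abs_integral_le_integral_abs).trans (integral_mono (he_bdd hVm hVb iD).abs
        (iD.abs.const_mul C₁) fun x => ?_)
      show |V (A.act x (aa (-R))) * (bav A R F x - κ * bav A R W x)| ≤
        C₁ * |bav A R F x - κ * bav A R W x|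
      rw [abs_mul]
      exact mul_le_mul_of_nonneg_right (hVb x) (abs_nonneg _)
    exact e2.trans (mul_le_mul_of_nonneg_left
      (diff_le A h hF hW hFK hWK hC hW0 hi κ hN hR) hC₁)
  -- integrability of `a` on bounded intervals
  have haM : StronglyMeasurable a := by
    have h1 : Measurable fun q : ℝ × Y => |bav A q.1 F q.2 / bav A q.1 W q.2 - κ| :=
      (((bav_meas A hF).div (bav_meas A hW)).sub_const κ).abs
    have hkp := kap_prob A m
    exact h1.stronglyMeasurable.integral_prod_right (ν := kap A m)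
  have haB : ∀ R, 0 < R → a R ≤ |C| + |κ| := by
    intro R hR
    have hMF : Measurable fun y => bav A R F y := (bav_meas A hF).comp measurable_prodMk_left
    have hMW : Measurable fun y => bav A R W y := (bav_meas A hW).comp measurable_prodMk_left
    have hQ : Measurable fun y => |bav A R F y / bav A R W y - κ| :=
      ((hMF.div hMW).sub_const κ).abs
    have hk : a R = ∫ y, |bav A R F y / bav A R W y - κ| ∂m := by
      refine (int_kap A (m := m) hQ fun y θ => ?_).2
      rw [bav_kk A hFK, bav_kk A hWK]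
    rw [hk]
    have h1 : ∫ _, (|C| + |κ|) ∂m = |C| + |κ| := by simp
    rw [← h1]
    refine integral_mono_of_nonneg (Eventually.of_forall fun y => abs_nonneg _)
      (integrable_const _) ?_
    filter_upwards [he_pt A h hF hW hC hW0 hi 0 hR κ] with y hy
    exact hy.1
  have haI : ∀ s t : ℝ, 0 ≤ s → 0 ≤ t → IntervalIntegrable a volume s t := by
    intro s t hs ht
    rw [intervalIntegrable_iff]
    have hf : IsFiniteMeasure (volume.restrict (uIoc s t)) :=
      ⟨by rw [Measure.restrict_apply_univ, uIoc, Real.volume_Ioc]; exact ENNReal.ofReal_lt_top⟩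
    refine Integrable.mono' (integrable_const (|C| + |κ|)) haM.aestronglyMeasurable ?_
    rw [ae_restrict_iff' measurableSet_uIoc]
    refine Eventually.of_forall fun R hR => ?_
    rw [Real.norm_eq_abs, abs_of_nonneg (ha0 R)]
    exact haB R (lt_of_le_of_lt (le_min hs ht) hR.1)
  -- the main estimate
  have key : ∀ N : ℝ, 0 ≤ N → |L| ≤ C₁ * ((|C| + |κ|) * ∫ y, max (W y - N) 0 ∂m) := by
    intro N hN
    by_contra hcon
    rw [not_le] at hcon
    set B := C₁ * ((|C| + |κ|) * ∫ y, max (W y - N) 0 ∂m) with hB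
    set η := (|L| - B) / 2 with hη
    have hη0 : 0 < η := by
      rw [hη]
      linarith
    have h1 : ∀ᶠ R : ℝ in atTop, |L| - η < |∫ x, V (A.act x (aa (-R))) * bav A R F x ∂m -
        κ * ∫ x, V (A.act x (aa (-R))) * bav A R W x ∂m| :=
      (hlim.abs).eventually (lt_mem_nhds (by linarith))
    obtain ⟨R₀, hR₀⟩ := ((h1.and (eventually_gt_atTop (0 : ℝ)))).exists_forall_of_atTop
    have hR00 : 0 < R₀ := (hR₀ R₀ le_rfl).2
    have h2 : ∀ R, R₀ ≤ R → η ≤ C₁ * N * a R := by
      intro R hR
      obtain ⟨h3, h4⟩ := hR₀ R hR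
      have h5 := hbound N hN R h4
      have h6 : C₁ * (N * a R + (|C| + |κ|) * ∫ y, max (W y - N) 0 ∂m) =
          C₁ * N * a R + B := by
        rw [hB]
        ring
      rw [h6] at h5
      have h7 : |L| = B + 2 * η := by
        rw [hη]
        ring
      linarith
    have hCN : 0 ≤ C₁ * N := mul_nonneg hC₁ hN
    have h3 : Tendsto (fun S : ℝ => C₁ * N * (1 / S * ∫ R in (0 : ℝ)..S, a R)) atTop (𝓝 0) := by
      have := hc.const_mul (C₁ * N)
      rwa [mul_zero] at this
    have h4 : ∀ᶠ S : ℝ in atTop, C₁ * N * (1 / S * ∫ R in (0 : ℝ)..S, a R) < η / 2 :=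
      h3.eventually (gt_mem_nhds (by linarith))
    obtain ⟨S, h5, h6⟩ := (h4.and (eventually_ge_atTop (2 * R₀))).exists
    have hS0 : 0 < S := by linarith
    have h7 : η * (S - R₀) ≤ C₁ * N * ∫ R in (0 : ℝ)..S, a R := by
      rw [← intervalIntegral.integral_add_adjacent_intervals (haI 0 R₀ le_rfl hR00.le)
        (haI R₀ S hR00.le hS0.le), mul_add]
      have h8 : 0 ≤ C₁ * N * ∫ R in (0 : ℝ)..R₀, a R :=
        mul_nonneg hCN (intervalIntegral.integral_nonneg hR00.le fun R _ => ha0 R)
      have h9 : η * (S - R₀) ≤ C₁ * N * ∫ R in R₀..S, a R := by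
        rw [← intervalIntegral.integral_const_mul]
        have h10 : ∫ _ in R₀..S, η = η * (S - R₀) := by
          rw [intervalIntegral.integral_const, smul_eq_mul]
          ring
        rw [← h10]
        exact intervalIntegral.integral_mono_on (by linarith) intervalIntegrable_const
          ((haI R₀ S hR00.le hS0.le).const_mul _) fun R hR => h2 R hR.1
      linarith
    have h8 : η / 2 ≤ C₁ * N * (1 / S * ∫ R in (0 : ℝ)..S, a R) := by
      have h9 : C₁ * N * (1 / S * ∫ R in (0 : ℝ)..S, a R) =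
          (C₁ * N * ∫ R in (0 : ℝ)..S, a R) / S := by ring
      rw [h9, le_div_iff₀ hS0]
      nlinarith
    linarith
  -- let `N` tend to infinity
  have hT : Tendsto (fun n : ℕ => ∫ y, max (W y - n) 0 ∂m) atTop (𝓝 0) := by
    have h1 : Tendsto (fun n : ℕ => ∫ y, max (W y - n) 0 ∂m) atTop
        (𝓝 (∫ _ : Y, (0 : ℝ) ∂m)) := by
      refine tendsto_integral_of_dominated_convergence W (fun n => ?_) hi (fun n => ?_) ?_
      · exact ((hW.sub_const _).max measurable_const).aestronglyMeasurable
      · refine Eventually.of_forall fun y => ?_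
        rw [Real.norm_eq_abs, abs_of_nonneg (le_max_right _ _)]
        refine max_le ?_ (hW0 y)
        have : (0 : ℝ) ≤ n := Nat.cast_nonneg n
        linarith
      · refine Eventually.of_forall fun y => ?_
        refine tendsto_const_nhds.congr' ?_
        obtain ⟨k, hk⟩ := exists_nat_ge (W y)
        filter_upwards [eventually_ge_atTop k] with n hn
        have h2 : (k : ℝ) ≤ n := by exact_mod_cast hn
        exact (max_eq_right (by linarith)).symm
    rwa [integral_zero] at h1
  have hT' : Tendsto (fun n : ℕ => C₁ * ((|C| + |κ|) * ∫ y, max (W y - n) 0 ∂m)) atTop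
      (𝓝 0) := by
    have := (hT.const_mul (|C| + |κ|)).const_mul C₁
    rwa [mul_zero, mul_zero] at this
  have h0 : |L| ≤ 0 := ge_of_tendsto' hT' fun n => key n (Nat.cast_nonneg n)
  exact abs_nonpos_iff.1 h0

end Pool.Agent.MP27775c.DO
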