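import Mathlib

/-!
# MP_27775c_an, project DO, module Hf: functions orthogonal to the continuous functions of the base
point
-/

set_option autoImplicit false

open MeasureTheory Set Filter Topology

namespace Pool.Agent.MP27775c.DO

/-- Proof. Let `K ⊆ X₁` be compact. `e '' K` is closed in the metrizable space `M`, its indicator
function is the pointwise limit of continuous functions `f j` with values in `[0, 1]`
(`thickenedIndicator` or `HasOuterApproxClosed`), so by dominated convergence
`∫ y in e ⁻¹' (e '' K), g y ∂m = 0`, and `e ⁻¹' (e '' K)` is equal to `K` up to the null set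
`X₁ᶜ` (injectivity). For a measurable set `B` approximate `B ∩ X₁` from inside by compact sets
(finite measure on a Polish space): `∫ y in B, g y ∂m = 0`. So `g = 0` almost everywhere
(`Integrable.ae_eq_zero_of_forall_setIntegral_eq_zero`). -/
theorem zero_of_ev {Y M : Type*} [TopologicalSpace Y] [PolishSpace Y] [MeasurableSpace Y]
    [BorelSpace Y] [TopologicalSpace M] [PolishSpace M] [CompactSpace M] {m : Measure Y}
    [IsFiniteMeasure m] {e : Y → M} (he : Continuous e) {X₁ : Set Y} (hX : MeasurableSet X₁)
    (h1 : m X₁ᶜ = 0) (hinj : InjOn e X₁) {g : Y → ℝ} (hg : Integrable g m)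
    (h : ∀ f : C(M, ℝ), ∫ y, f (e y) * g y ∂m = 0) : ∀ᵐ y ∂m, g y = 0 := by
  borelize M
  have hem : Measurable e := he.measurable
  have hpm : AEMeasurable (fun y => ENNReal.ofReal (g y)) m := hg.aemeasurable.ennreal_ofReal
  have hqm : AEMeasurable (fun y => ENNReal.ofReal (-g y)) m := hg.aemeasurable.neg.ennreal_ofReal
  have hpf : IsFiniteMeasure (m.withDensity fun y => ENNReal.ofReal (g y)) :=
    isFiniteMeasure_withDensity_ofReal hg.2
  have hqf : IsFiniteMeasure (m.withDensity fun y => ENNReal.ofReal (-g y)) :=
    isFiniteMeasure_withDensity_ofReal hg.neg.2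
  have hmap : Measure.map e (m.withDensity fun y => ENNReal.ofReal (g y)) =
      Measure.map e (m.withDensity fun y => ENNReal.ofReal (-g y)) := by
    refine ext_of_forall_integral_eq_of_IsFiniteMeasure fun f => ?_
    have hfm : ∀ ν : Measure M, AEStronglyMeasurable f ν := fun ν =>
      f.continuous.aestronglyMeasurable
    rw [integral_map hem.aemeasurable (hfm _), integral_map hem.aemeasurable (hfm _),
      integral_withDensity_eq_integral_toReal_smul₀ hpm
        (Eventually.of_forall fun y => ENNReal.ofReal_lt_top),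
      integral_withDensity_eq_integral_toReal_smul₀ hqm
        (Eventually.of_forall fun y => ENNReal.ofReal_lt_top)]
    simp only [ENNReal.toReal_ofReal', smul_eq_mul]
    have hb : ∀ᵐ y ∂m, ‖f (e y)‖ ≤ ‖f‖ := Eventually.of_forall fun y => f.norm_coe_le_norm _
    have hfe : AEStronglyMeasurable (fun y => f (e y)) m :=
      (f.continuous.comp he).aestronglyMeasurable
    have i1 : Integrable (fun y => max (g y) 0 * f (e y)) m := hg.pos_part.mul_bdd hfe hb
    have i2 : Integrable (fun y => max (-g y) 0 * f (e y)) m := hg.neg_part.mul_bdd hfe hb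
    rw [← sub_eq_zero, ← integral_sub i1 i2]
    refine Eq.trans (integral_congr_ae (Eventually.of_forall fun y => ?_)) (h ⟨f, f.continuous⟩)
    have h3 := max_zero_sub_max_neg_zero_eq_self (g y)
    show max (g y) 0 * f (e y) - max (-g y) 0 * f (e y) = f (e y) * g y
    rw [← sub_mul, h3, mul_comm]
  have hwd : (m.withDensity fun y => ENNReal.ofReal (g y)) =
      m.withDensity fun y => ENNReal.ofReal (-g y) := by
    refine Measure.ext fun B hB => ?_
    have hF : MeasurableSet (e '' (B ∩ X₁)) :=
      (hB.inter hX).image_of_continuousOn_injOn he.continuousOn (hinj.mono inter_subset_right)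
    have hae : (e ⁻¹' (e '' (B ∩ X₁)) : Set Y) =ᵐ[m] B := by
      have h4 : ∀ᵐ y ∂m, y ∈ X₁ := by
        rw [ae_iff]
        exact h1
      filter_upwards [h4] with y hy
      refine propext ⟨?_, fun hyB => ⟨y, ⟨hyB, hy⟩, rfl⟩⟩
      rintro ⟨y', ⟨hy'B, hy'X⟩, he'⟩
      rw [← hinj hy'X hy he']
      exact hy'B
    have h5 := congrArg (fun ν : Measure M => ν (e '' (B ∩ X₁))) hmap
    simp only [Measure.map_apply hem hF] at h5
    rwa [measure_congr ((withDensity_absolutelyContinuous m _).ae_eq hae),
      measure_congr ((withDensity_absolutelyContinuous m _).ae_eq hae)] at h5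
  have hfi : ∫⁻ y, ENNReal.ofReal (g y) ∂m ≠ ⊤ := by
    have h6 := measure_ne_top (m.withDensity fun y => ENNReal.ofReal (g y)) univ
    rwa [withDensity_apply _ MeasurableSet.univ, Measure.restrict_univ] at h6
  have h7 := (withDensity_eq_iff hpm hqm hfi).1 hwd
  filter_upwards [h7] with y hy
  rcases lt_trichotomy (g y) 0 with h8 | h8 | h8
  · rw [ENNReal.ofReal_of_nonpos h8.le] at hy
    have h9 := ENNReal.ofReal_eq_zero.1 hy.symm
    linarith
  · exact h8
  · rw [ENNReal.ofReal_of_nonpos (by linarith : -g y ≤ 0)] at hy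
    have h9 := ENNReal.ofReal_eq_zero.1 hy
    linarith

end Pool.Agent.MP27775c.DO
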