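import Mathlib

/-!
# MP_27775c_an, project DO, module Hg: uniqueness for the integral equation of Abel
-/

set_option autoImplicit false

open MeasureTheory Set Filter Topology

namespace Pool.Agent.MP27775c.DO

private theorem hasDerivAt_prim {v : ℝ} (h0 : 0 < v) (h1 : v < 1) :
    HasDerivAt (fun v => Real.arcsin (√v) - √v * √(1 - v)) (√v / √(1 - v)) v := by
  have ha : 0 < √v := Real.sqrt_pos.mpr h0
  have hb : 0 < √(1 - v) := Real.sqrt_pos.mpr (by linarith)
  have ha2 : √v ^ 2 = v := Real.sq_sqrt h0.le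
  have hb2 : √(1 - v) ^ 2 = 1 - v := Real.sq_sqrt (by linarith)
  have ha1 : √v < 1 := by
    rw [Real.sqrt_lt' one_pos]
    linarith
  have h3 : HasDerivAt (fun v : ℝ => √v) (1 / (2 * √v)) v := Real.hasDerivAt_sqrt h0.ne'
  have h4 : HasDerivAt (fun v : ℝ => √(1 - v)) (-1 / (2 * √(1 - v))) v := by
    have h5 : HasDerivAt (fun v : ℝ => 1 - v) (-1) v := (hasDerivAt_id v).const_sub 1
    exact h5.sqrt (by linarith)
  have h6 : HasDerivAt (fun v : ℝ => Real.arcsin (√v))
      (1 / √(1 - √v ^ 2) * (1 / (2 * √v))) v :=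
    (Real.hasDerivAt_arcsin (by linarith) ha1.ne).comp v h3
  refine (h6.sub (h3.mul h4)).congr_deriv ?_
  rw [ha2]
  have h7 : (1 : ℝ) = √(1 - v) ^ 2 + √v ^ 2 := by rw [ha2, hb2]; ring
  field_simp
  linarith

private theorem beta01 : ∫ v in (0 : ℝ)..1, √v / √(1 - v) = Real.pi / 2 := by
  have hc : ContinuousOn (fun v : ℝ => Real.arcsin (√v) - √v * √(1 - v)) (Icc 0 1) := by
    fun_prop
  have hd : ∀ x ∈ Ioo (0 : ℝ) 1, HasDerivAt (fun v => Real.arcsin (√v) - √v * √(1 - v))
      (√x / √(1 - x)) x := fun x hx => hasDerivAt_prim hx.1 hx.2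
  rw [intervalIntegral.integral_eq_sub_of_hasDerivAt_of_le zero_le_one hc hd]
  · simp
  · refine intervalIntegral.intervalIntegrable_deriv_of_nonneg
      (g := fun v => Real.arcsin (√v) - √v * √(1 - v)) ?_ ?_ ?_
    · rwa [uIcc_of_le zero_le_one]
    · simpa using hd
    · intro x _
      positivity

/-- Proof. Substitute `ζ = ρ + (z - ρ) v`: the value is `(z - ρ) * B (3/2, 1/2)` and
`B (3/2, 1/2) = Γ (3/2) Γ (1/2) / Γ 2 = π / 2` (`Complex.betaIntegral`,
`Complex.Gamma_mul_Gamma_eq_betaIntegral`; or `v = sin ^ 2`, `∫ 2 sin ^ 2 = π / 2` over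
`[0, π/2]`; or a primitive). -/
theorem beta_int {ρ z : ℝ} (h : ρ < z) :
    ∫ ζ in ρ..z, Real.sqrt (ζ - ρ) / Real.sqrt (z - ζ) = Real.pi / 2 * (z - ρ) := by
  have hc : 0 < z - ρ := by linarith
  have h1 := intervalIntegral.smul_integral_comp_add_mul (a := 0) (b := 1)
    (fun ζ => Real.sqrt (ζ - ρ) / Real.sqrt (z - ζ)) (z - ρ) ρ
  rw [mul_zero, add_zero, mul_one, add_sub_cancel] at h1
  rw [← h1, ← beta01, smul_eq_mul, mul_comm]
  congr 1
  refine intervalIntegral.integral_congr fun v _ => ?_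
  have h2 : ρ + (z - ρ) * v - ρ = (z - ρ) * v := by ring
  have h3 : z - (ρ + (z - ρ) * v) = (z - ρ) * (1 - v) := by ring
  simp only [h2, h3]
  rw [Real.sqrt_mul hc.le, Real.sqrt_mul hc.le,
    mul_div_mul_left _ _ (Real.sqrt_pos.mpr hc).ne']

private theorem int_inv_sqrt (z : ℝ) : IntegrableOn (fun ρ : ℝ => 1 / √ρ) (Ioo 0 z) := by
  rcases le_or_gt z 0 with hz | hz
  · rw [Ioo_eq_empty (by linarith)]
    exact integrableOn_empty
  refine IntegrableOn.mono_set ?_ Ioo_subset_Ioc_self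
  have h1 : IntegrableOn (fun ρ : ℝ => 1 / (2 * √ρ)) (Ioc 0 z) := by
    refine intervalIntegral.integrableOn_deriv_of_nonneg (g := fun x : ℝ => √x)
      (by fun_prop) (fun x hx => Real.hasDerivAt_sqrt hx.1.ne') (fun x _ => by positivity)
  have h2 : IntegrableOn (fun ρ : ℝ => 2 * (1 / (2 * √ρ))) (Ioc 0 z) := h1.const_mul 2
  refine h2.congr_fun (fun x hx => ?_) measurableSet_Ioc
  have : 0 < √x := Real.sqrt_pos.mpr hx.1
  field_simp

private theorem int_inv_sqrt' (z : ℝ) : IntegrableOn (fun ζ : ℝ => 1 / √(z - ζ)) (Ioo 0 z) := by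
  have h1 := (int_inv_sqrt z).integrable_indicator measurableSet_Ioo
  have h2 := h1.comp_sub_left z
  have h3 : (fun t => (Ioo 0 z).indicator (fun ρ : ℝ => 1 / √ρ) (z - t)) =
      (Ioo 0 z).indicator (fun ζ : ℝ => 1 / √(z - ζ)) := by
    funext t
    by_cases ht : t ∈ Ioo 0 z
    · rw [indicator_of_mem ht, indicator_of_mem]
      exact ⟨by linarith [ht.2], by linarith [ht.1]⟩
    · rw [indicator_of_notMem ht, indicator_of_notMem]
      intro h4
      exact ht ⟨by linarith [h4.2], by linarith [h4.1]⟩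
  rw [h3] at h2
  exact (integrable_indicator_iff measurableSet_Ioo).mp h2

private theorem u_int {u : ℝ → ℝ} (hu : Measurable u) {C : ℝ}
    (hb : ∀ ρ, 0 < ρ → |u ρ| ≤ C / √ρ) (z : ℝ) : IntegrableOn u (Ioo 0 z) := by
  refine ((int_inv_sqrt z).const_mul C).mono' hu.aestronglyMeasurable ?_
  refine (ae_restrict_iff' measurableSet_Ioo).mpr (Eventually.of_forall fun x hx => ?_)
  rw [Real.norm_eq_abs, mul_one_div]
  exact hb x hx.1

private theorem step1 {u : ℝ → ℝ} (hu : Measurable u) {C : ℝ}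
    (hb : ∀ ρ, 0 < ρ → |u ρ| ≤ C / √ρ)
    (h : ∀ᵐ ζ : ℝ, 0 < ζ → ∫ ρ in (0 : ℝ)..ζ, √(ζ - ρ) * u ρ = 0) {z : ℝ} (hz : 0 < z) :
    ∫ ρ in (0 : ℝ)..z, (z - ρ) * u ρ = 0 := by
  set S : Set (ℝ × ℝ) := {p | 0 < p.2 ∧ p.2 < p.1 ∧ p.1 < z} with hS
  have hSm : MeasurableSet S := by
    have h1 : S = {p : ℝ × ℝ | 0 < p.2} ∩ ({p : ℝ × ℝ | p.2 < p.1} ∩ {p : ℝ × ℝ | p.1 < z}) := rfl
    rw [h1]
    exact (measurableSet_lt measurable_const measurable_snd).inter
      ((measurableSet_lt measurable_snd measurable_fst).inter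
        (measurableSet_lt measurable_fst measurable_const))
  set f : ℝ × ℝ → ℝ := S.indicator (fun p => √(p.1 - p.2) / √(z - p.1) * u p.2) with hf
  have hfm : Measurable f := by
    refine Measurable.indicator ?_ hSm
    fun_prop
  have hC : 0 ≤ C := by
    have h1 := (abs_nonneg _).trans (hb 1 one_pos)
    rwa [Real.sqrt_one, div_one] at h1
  have hfi : Integrable f (volume.prod volume) := by
    have h0 : IntegrableOn (fun ρ : ℝ => √z * C * (1 / √ρ)) (Ioo 0 z) :=
      (int_inv_sqrt z).const_mul (√z * C)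
    have h1 := ((int_inv_sqrt' z).integrable_indicator measurableSet_Ioo).mul_prod
      (h0.integrable_indicator measurableSet_Ioo)
    refine h1.mono' hfm.aestronglyMeasurable (Eventually.of_forall fun p => ?_)
    by_cases hp : p ∈ S
    · obtain ⟨h2, h3, h4⟩ := hp
      rw [hf, indicator_of_mem (show p ∈ S from ⟨h2, h3, h4⟩),
        indicator_of_mem (show p.1 ∈ Ioo 0 z from ⟨h2.trans h3, h4⟩),
        indicator_of_mem (show p.2 ∈ Ioo 0 z from ⟨h2, h3.trans h4⟩), norm_mul, norm_div,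
        Real.norm_of_nonneg (Real.sqrt_nonneg _), Real.norm_of_nonneg (Real.sqrt_nonneg _),
        Real.norm_eq_abs]
      have h5 : √(p.1 - p.2) ≤ √z := Real.sqrt_le_sqrt (by linarith)
      have h6 : 0 < √(z - p.1) := Real.sqrt_pos.mpr (by linarith)
      have h7 : |u p.2| ≤ C / √p.2 := hb _ h2
      calc √(p.1 - p.2) / √(z - p.1) * |u p.2| ≤ √z / √(z - p.1) * (C / √p.2) := by
            refine mul_le_mul ?_ h7 (abs_nonneg _) (by positivity)
            exact div_le_div_of_nonneg_right h5 h6.le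
        _ = _ := by ring
    · rw [hf, indicator_of_notMem hp, norm_zero]
      refine mul_nonneg (indicator_nonneg (fun x _ => by positivity) _)
        (indicator_nonneg (fun x _ => by positivity) _)
  have hsw := integral_integral_swap (f := fun ζ ρ => f (ζ, ρ)) hfi
  have hL : ∫ ζ, ∫ ρ, f (ζ, ρ) = 0 := by
    refine integral_eq_zero_of_ae ?_
    filter_upwards [h] with ζ hζ
    change ∫ ρ, f (ζ, ρ) = 0
    by_cases h1 : 0 < ζ ∧ ζ < z
    · have h2 : (fun ρ => f (ζ, ρ)) =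
          (Ioo 0 ζ).indicator (fun ρ => 1 / √(z - ζ) * (√(ζ - ρ) * u ρ)) := by
        funext ρ
        by_cases h3 : ρ ∈ Ioo 0 ζ
        · rw [hf, indicator_of_mem (show (ζ, ρ) ∈ S from ⟨h3.1, h3.2, h1.2⟩),
            indicator_of_mem h3]
          ring
        · rw [hf, indicator_of_notMem (fun h4 : (ζ, ρ) ∈ S => h3 ⟨h4.1, h4.2.1⟩),
            indicator_of_notMem h3]
      rw [h2, integral_indicator measurableSet_Ioo, integral_const_mul,
        ← integral_Ioc_eq_integral_Ioo, ← intervalIntegral.integral_of_le h1.1.le, hζ h1.1,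
        mul_zero]
    · have h2 : (fun ρ => f (ζ, ρ)) = fun _ => 0 := by
        funext ρ
        exact indicator_of_notMem
          (fun h4 : (ζ, ρ) ∈ S => h1 ⟨h4.1.trans h4.2.1, h4.2.2⟩) _
      rw [h2, integral_zero]
  have hR : ∫ ρ, ∫ ζ, f (ζ, ρ) = Real.pi / 2 * ∫ ρ in (0 : ℝ)..z, (z - ρ) * u ρ := by
    rw [intervalIntegral.integral_of_le hz.le, integral_Ioc_eq_integral_Ioo,
      ← integral_const_mul, ← integral_indicator measurableSet_Ioo]
    congr 1
    funext ρ
    by_cases h1 : ρ ∈ Ioo 0 z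
    · have h2 : (fun ζ => f (ζ, ρ)) =
          (Ioo ρ z).indicator (fun ζ => u ρ * (√(ζ - ρ) / √(z - ζ))) := by
        funext ζ
        by_cases h3 : ζ ∈ Ioo ρ z
        · rw [hf, indicator_of_mem (show (ζ, ρ) ∈ S from ⟨h1.1, h3.1, h3.2⟩),
            indicator_of_mem h3]
          ring
        · rw [hf, indicator_of_notMem (fun h4 : (ζ, ρ) ∈ S => h3 ⟨h4.2.1, h4.2.2⟩),
            indicator_of_notMem h3]
      rw [h2, integral_indicator measurableSet_Ioo, integral_const_mul,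
        ← integral_Ioc_eq_integral_Ioo, ← intervalIntegral.integral_of_le h1.2.le,
        beta_int h1.2, indicator_of_mem h1]
      ring
    · have h2 : (fun ζ => f (ζ, ρ)) = fun _ => 0 := by
        funext ζ
        exact indicator_of_notMem
          (fun h4 : (ζ, ρ) ∈ S => h1 ⟨h4.1, h4.2.1.trans h4.2.2⟩) _
      rw [h2, integral_zero, indicator_of_notMem h1]
  rw [hL, hR] at hsw
  have h1 : (Real.pi / 2) ≠ 0 := by positivity
  exact (mul_eq_zero.mp hsw.symm).resolve_left h1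

/-- Proof. Multiply by `1 / √(z - ζ)`, integrate over `ζ ∈ (0, z)`, exchange the integrals (the
double integral converges absolutely: the same computation with the bound of `|u|`), `beta_int`:
`∫ ρ in 0..z, (z - ρ) * u ρ = 0` for all `z > 0`. This is `∫ s in 0..z, U₁ s` with
`U₁ s = ∫ ρ in 0..s, u ρ` continuous, so `U₁ = 0` on `(0, ∞)` (derivative), so `u = 0` almost
everywhere (Lebesgue differentiation, or all integrals over intervals vanish). -/
theorem abel {u : ℝ → ℝ} (hu : Measurable u) {C : ℝ}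
    (hb : ∀ ρ, 0 < ρ → |u ρ| ≤ C / Real.sqrt ρ)
    (h : ∀ᵐ ζ : ℝ, 0 < ζ → ∫ ρ in (0 : ℝ)..ζ, Real.sqrt (ζ - ρ) * u ρ = 0) :
    ∀ᵐ ρ : ℝ, 0 < ρ → u ρ = 0 := by
  have hC : 0 ≤ C := by
    have h1 := (abs_nonneg _).trans (hb 1 one_pos)
    rwa [Real.sqrt_one, div_one] at h1
  have hV : ∀ z : ℝ, 0 < z → ∫ ρ in (0 : ℝ)..z, (z - ρ) * u ρ = 0 := fun z hz =>
    step1 hu hb h hz
  have hui : ∀ z : ℝ, 0 ≤ z → IntervalIntegrable u volume 0 z := fun z hz => by
    rw [intervalIntegrable_iff_integrableOn_Ioo_of_le hz]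
    exact u_int hu hb z
  have hui2 : ∀ a b : ℝ, 0 ≤ a → 0 ≤ b → IntervalIntegrable u volume a b := fun a b ha hb =>
    (hui a ha).symm.trans (hui b hb)
  have hU : ∀ z : ℝ, 0 < z → ∫ ρ in (0 : ℝ)..z, u ρ = 0 := by
    intro z hz
    have h1 : ∀ t : ℝ, 0 < t → |∫ ρ in (0 : ℝ)..z, u ρ| ≤ t * (C / √z) := by
      intro t ht
      have hm : ∀ c a b : ℝ, 0 ≤ a → 0 ≤ b →
          IntervalIntegrable (fun ρ => (c - ρ) * u ρ) volume a b := fun c a b ha hb =>
        (hui2 a b ha hb).continuousOn_mul (by fun_prop)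
      have h2 : ∫ ρ in (0 : ℝ)..z, (z + t - ρ) * u ρ = t * ∫ ρ in (0 : ℝ)..z, u ρ := by
        have h3 : ∀ ρ, (z + t - ρ) * u ρ = (z - ρ) * u ρ + t * u ρ := fun ρ => by ring
        simp_rw [h3]
        rw [intervalIntegral.integral_add (hm z 0 z le_rfl hz.le)
          ((hui2 0 z le_rfl hz.le).const_mul t), hV z hz, zero_add,
          intervalIntegral.integral_const_mul]
      have h4 := intervalIntegral.integral_add_adjacent_intervals
        (hm (z + t) 0 z le_rfl hz.le) (hm (z + t) z (z + t) hz.le (by linarith))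
      rw [hV (z + t) (by linarith), h2] at h4
      have h5 : ‖∫ ρ in z..z + t, (z + t - ρ) * u ρ‖ ≤ t * (C / √z) * |z + t - z| := by
        refine intervalIntegral.norm_integral_le_of_norm_le_const fun ρ hρ => ?_
        rw [uIoc_of_le (by linarith)] at hρ
        rw [norm_mul, Real.norm_eq_abs, Real.norm_eq_abs]
        have h6 : |z + t - ρ| ≤ t := by
          rw [abs_of_nonneg (by linarith [hρ.2])]
          linarith [hρ.1]
        have h7 : |u ρ| ≤ C / √z := (hb ρ (hz.trans hρ.1)).trans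
          (div_le_div_of_nonneg_left hC (Real.sqrt_pos.mpr hz) (Real.sqrt_le_sqrt hρ.1.le))
        exact mul_le_mul h6 h7 (abs_nonneg _) ht.le
      rw [add_sub_cancel_left, abs_of_pos ht, Real.norm_eq_abs] at h5
      have h8 : t * |∫ ρ in (0 : ℝ)..z, u ρ| ≤ t * (C / √z) * t := by
        rw [← abs_of_pos ht, ← abs_mul, abs_of_pos ht]
        have h9 : t * ∫ ρ in (0 : ℝ)..z, u ρ = -∫ ρ in z..z + t, (z + t - ρ) * u ρ := by
          linarith
        rw [h9, abs_neg]
        exact h5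
      have h10 : t * |∫ ρ in (0 : ℝ)..z, u ρ| ≤ t * (t * (C / √z)) := by
        calc _ ≤ _ := h8
          _ = _ := by ring
      exact le_of_mul_le_mul_left h10 ht
    have h2 : |∫ ρ in (0 : ℝ)..z, u ρ| ≤ 0 := by
      refine le_of_forall_pos_le_add fun ε hε => ?_
      have h3 : 0 < C / √z + 1 := by positivity
      refine (h1 (ε / (C / √z + 1)) (by positivity)).trans ?_
      rw [zero_add, div_mul_eq_mul_div, div_le_iff₀ h3]
      nlinarith
    exact abs_nonpos_iff.mp h2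
  have hn : ∀ n : ℕ, ∀ᵐ x : ℝ, x ∈ uIcc (0 : ℝ) n → 0 < x → u x = 0 := by
    intro n
    filter_upwards [(hui n (Nat.cast_nonneg n)).ae_hasDerivAt_integral] with x hx hxn hx0
    have h1 := hx hxn 0 left_mem_uIcc
    have h2 : HasDerivAt (fun y => ∫ t in (0 : ℝ)..y, u t) 0 x := by
      refine (hasDerivAt_const x (0 : ℝ)).congr_of_eventuallyEq ?_
      filter_upwards [lt_mem_nhds hx0] with y hy using hU y hy
    exact h1.unique h2
  rw [← ae_all_iff] at hn
  filter_upwards [hn] with x hx hx0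
  obtain ⟨n, hn⟩ := exists_nat_ge x
  exact hx n (by rw [uIcc_of_le (Nat.cast_nonneg n)]; exact ⟨hx0.le, hn⟩) hx0

end Pool.Agent.MP27775c.DO
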