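import Pool.Agent.Lib.MP_27775c_an_DO.Hd
import Pool.Agent.Lib.MP_27775c_an_DO.Hg
import Pool.Agent.Lib.MP_27775c_an_DO.BdB

/-!
# MP_27775c_an, project DO, module Hh: the weighted average determines the function
-/

set_option autoImplicit false

open MeasureTheory Set Filter Topology

namespace Pool.Agent.MP27775c.DO

variable {Y : Type*} [TopologicalSpace Y] [PolishSpace Y] [MeasurableSpace Y] [BorelSpace Y]
  (A : RAct Y)

/-- Integration against `sigI`. -/
private theorem hh_int_sigI {h : ℝ × ℝ → ℝ} (hm : Measurable h) {C : ℝ} (hC : ∀ p, |h p| ≤ C) :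
    ∫ p, sigI p * h p = ∫ η in Ioi (1 : ℝ), 1 / η ^ 2 *
      ∫ x in (-Real.sqrt (η - 1))..(Real.sqrt (η - 1)), h (x, η) := by
  have hs0 : ∀ p, 0 ≤ sigI p := fun p => by
    unfold sigI
    split_ifs
    · positivity
    · exact le_rfl
  have hint : Integrable fun p => sigI p * h p := by
    refine (dom_int.mul_const C).mono' (sigI_meas.mul hm).aestronglyMeasurable
      (Filter.Eventually.of_forall fun p => ?_)
    rw [Real.norm_eq_abs, abs_mul, abs_of_nonneg (hs0 p)]
    exact mul_le_mul (sigI_le p) (hC p) (abs_nonneg _) ((hs0 p).trans (sigI_le p))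
  rw [Measure.volume_eq_prod] at hint ⊢
  rw [integral_prod_symm _ hint, ← integral_indicator measurableSet_Ioi]
  congr 1
  funext η
  by_cases hη : 1 < η
  · rw [Set.indicator_of_mem (show η ∈ Ioi (1 : ℝ) from hη)]
    have h1 : ∀ x : ℝ, sigI (x, η) * h (x, η) =
        (Ioo (-Real.sqrt (η - 1)) (Real.sqrt (η - 1))).indicator
          (fun x => 1 / η ^ 2 * h (x, η)) x := by
      intro x
      unfold sigI
      by_cases hx : x ^ 2 < η - 1
      · have hx' : x ∈ Ioo (-Real.sqrt (η - 1)) (Real.sqrt (η - 1)) := Real.sq_lt.1 hx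
        rw [Set.indicator_of_mem hx', if_pos ⟨hη, hx⟩]
      · have hx' : x ∉ Ioo (-Real.sqrt (η - 1)) (Real.sqrt (η - 1)) := fun h =>
          hx (Real.sq_lt.2 h)
        rw [Set.indicator_of_notMem hx', if_neg fun h => hx h.2, zero_mul]
    simp only [h1]
    rw [integral_indicator measurableSet_Ioo, ← integral_Ioc_eq_integral_Ioo,
      integral_const_mul, intervalIntegral.integral_of_le]
    have := Real.sqrt_nonneg (η - 1)
    linarith
  · rw [Set.indicator_of_notMem (show η ∉ Ioi (1 : ℝ) from hη)]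
    have h1 : ∀ x : ℝ, sigI (x, η) * h (x, η) = 0 := by
      intro x
      unfold sigI
      rw [if_neg fun h => hη h.1, zero_mul]
    simp only [h1, integral_zero]

private theorem hh_nonneg (p : ℝ × ℝ) : 0 ≤ sigI p := by
  unfold sigI
  split_ifs
  · positivity
  · exact le_rfl

private theorem hh_intI : Integrable sigI :=
  dom_int.mono' sigI_meas.aestronglyMeasurable (ae_of_all _ fun p => by
    rw [Real.norm_eq_abs, abs_of_nonneg (hh_nonneg p)]
    exact sigI_le p)

/-- the substitution `ρ = ζ / η` -/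
private theorem hh_sub (W : ℝ → ℝ) {ζ : ℝ} (hζ : 0 < ζ) :
    ∫ η in Ioi (1 : ℝ), 2 * Real.sqrt (η - 1) / η ^ 2 * W (ζ / η) =
      2 / ζ * ∫ ρ in (0 : ℝ)..ζ, Real.sqrt (ζ - ρ) * (W ρ / Real.sqrt ρ) := by
  have himg : (fun ρ : ℝ => ζ / ρ) '' Ioo 0 ζ = Ioi 1 := by
    ext η
    constructor
    · rintro ⟨ρ, hρ, rfl⟩
      exact (one_lt_div hρ.1).2 hρ.2
    · intro hη
      have hη1 : 1 < η := hη
      have hη0 : 0 < η := by linarith
      refine ⟨ζ / η, ⟨div_pos hζ hη0, (div_lt_iff₀ hη0).2 (by nlinarith)⟩, ?_⟩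
      change ζ / (ζ / η) = η
      field_simp
  have hder : ∀ ρ ∈ Ioo 0 ζ, HasDerivWithinAt (fun ρ : ℝ => ζ / ρ) (-(ζ / ρ ^ 2)) (Ioo 0 ζ) ρ := by
    intro ρ hρ
    have h1 := ((hasDerivAt_inv hρ.1.ne').const_mul ζ).hasDerivWithinAt (s := Ioo 0 ζ)
    have h2 : ζ * -(ρ ^ 2)⁻¹ = -(ζ / ρ ^ 2) := by
      rw [div_eq_mul_inv]
      ring
    rw [h2] at h1
    exact h1
  have hinj : InjOn (fun ρ : ℝ => ζ / ρ) (Ioo 0 ζ) := by
    intro ρ hρ ρ' hρ' h
    have h1 : ζ / ρ = ζ / ρ' := h
    rw [div_eq_div_iff hρ.1.ne' hρ'.1.ne'] at h1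
    exact (mul_left_cancel₀ hζ.ne' h1).symm
  have h1 := integral_image_eq_integral_abs_deriv_smul measurableSet_Ioo hder hinj
    (fun η => 2 * Real.sqrt (η - 1) / η ^ 2 * W (ζ / η))
  rw [himg] at h1
  rw [h1, intervalIntegral.integral_of_le hζ.le, integral_Ioc_eq_integral_Ioo,
    ← integral_const_mul]
  refine setIntegral_congr_fun measurableSet_Ioo fun ρ hρ => ?_
  have hρ0 : 0 < ρ := hρ.1
  have hρ1 : ρ < ζ := hρ.2
  have hs : 0 < Real.sqrt ρ := Real.sqrt_pos.2 hρ0
  change |-(ζ / ρ ^ 2)| • (2 * Real.sqrt (ζ / ρ - 1) / (ζ / ρ) ^ 2 * W (ζ / (ζ / ρ))) =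
    2 / ζ * (Real.sqrt (ζ - ρ) * (W ρ / Real.sqrt ρ))
  have e1 : ζ / (ζ / ρ) = ρ := by field_simp
  have e2 : ζ / ρ - 1 = (ζ - ρ) / ρ := by field_simp
  rw [e1, e2, Real.sqrt_div (by linarith : (0 : ℝ) ≤ ζ - ρ), abs_neg,
    abs_of_pos (by positivity), smul_eq_mul]
  field_simp

/-- Proof. Fubini in `p = (x, η)`: the integral over `x` of `sigI` is `2 √(η - 1) / η ^ 2` for
`η > 1` (as in `binf_eq`, `sigI_eq`), so the integral in `wav` at `x · aa (log ζ)` is
`∫ η in Ioi 1, 2 √(η - 1) / η ^ 2 * V (x · aa (log (ζ / η)))`; substitute `ρ = ζ / η`: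
`√(η - 1) / η ^ 2 dη = √(ζ - ρ) / (ζ √ρ) dρ`. -/
theorem wav_eq {V : Y → ℝ} (hV : Measurable V) (hb : ∃ C, ∀ y, |V y| ≤ C) (x : Y) {ζ : ℝ}
    (hζ : 0 < ζ) :
    wav A V (A.act x (aa (Real.log ζ))) = 2 / (ζ * ∫ p, sigI p) *
      ∫ ρ in (0 : ℝ)..ζ, Real.sqrt (ζ - ρ) *
        (V (A.act x (aa (Real.log ρ))) / Real.sqrt ρ) := by
  obtain ⟨C, hC⟩ := hb
  have hm : Measurable fun p : ℝ × ℝ =>
      V (A.act (A.act x (aa (Real.log ζ))) (aa (-(Real.log p.2)))) := by
    have h1 : Continuous fun t : ℝ => A.act (A.act x (aa (Real.log ζ))) (aa t) :=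
      A.cont.comp (continuous_const.prodMk continuous_aa)
    exact hV.comp (h1.measurable.comp (Real.measurable_log.comp measurable_snd).neg)
  unfold wav
  rw [hh_int_sigI hm fun p => hC _]
  have h1 : ∫ η in Ioi (1 : ℝ), 1 / η ^ 2 *
      ∫ x' in (-Real.sqrt (η - 1))..(Real.sqrt (η - 1)),
        V (A.act (A.act x (aa (Real.log ζ))) (aa (-(Real.log (x', η).2)))) =
      ∫ η in Ioi (1 : ℝ), 2 * Real.sqrt (η - 1) / η ^ 2 *
        (fun ρ => V (A.act x (aa (Real.log ρ)))) (ζ / η) := by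
    refine setIntegral_congr_fun measurableSet_Ioi fun η hη => ?_
    have hη0 : (0 : ℝ) < η := lt_trans one_pos hη
    change 1 / η ^ 2 * ∫ _ in (-Real.sqrt (η - 1))..(Real.sqrt (η - 1)),
        V (A.act (A.act x (aa (Real.log ζ))) (aa (-(Real.log η)))) =
      2 * Real.sqrt (η - 1) / η ^ 2 * V (A.act x (aa (Real.log (ζ / η))))
    rw [intervalIntegral.integral_const, smul_eq_mul, ← A.act_mul, ← aa_add,
      Real.log_div hζ.ne' hη0.ne', ← sub_eq_add_neg]
    ring
  rw [h1, hh_sub (fun ρ => V (A.act x (aa (Real.log ρ)))) hζ]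
  have hS := sigI_pos
  field_simp

/-- Proof. By the invariance of `m` under `aa` and Fubini, for almost every `x`,
`wav V (x · aa (log ζ)) = c` for almost every `ζ > 0`. `wav` of the constant `c` is `c`, so by
`wav_eq` for `V` and for the constant the function `u ρ = (V (x · aa (log ρ)) - c) / √ρ` satisfies
the hypothesis of `abel`, and `V (x · aa (log ρ)) = c` for almost every `ρ > 0`. So
`V (x · aa t) = c` for almost every `(x, t)` and by the invariance of `m`, `V = c` almost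
everywhere. -/
theorem const_of_wav {m : Measure Y} [IsProbabilityMeasure m] (h : IsPInv A m) {V : Y → ℝ}
    (hV : Measurable V) (hb : ∃ C, ∀ y, |V y| ≤ C) {c : ℝ} (hw : ∀ᵐ x ∂m, wav A V x = c) :
    ∀ᵐ x ∂m, V x = c := by
  obtain ⟨C, hC⟩ := hb
  have hS := sigI_pos
  have hjm : Measurable fun p : Y × ℝ => A.act p.1 (aa (Real.log p.2)) := by
    have h1 : Measurable fun p : Y × ℝ => A.act p.1 (aa p.2) := meas_joint A continuous_aa
    exact h1.comp (measurable_fst.prodMk (Real.measurable_log.comp measurable_snd))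
  have hwm : ∀ y, wav A (fun y => V y - c) y = wav A V y - c := by
    intro y
    have hmy : Measurable fun p : ℝ × ℝ => V (A.act y (aa (-(Real.log p.2)))) := by
      have h1 : Continuous fun t : ℝ => A.act y (aa t) :=
        A.cont.comp (continuous_const.prodMk continuous_aa)
      exact hV.comp (h1.measurable.comp (Real.measurable_log.comp measurable_snd).neg)
    have i1 : Integrable fun p : ℝ × ℝ => sigI p * V (A.act y (aa (-(Real.log p.2)))) :=
      hh_intI.mul_bdd (c := C) hmy.aestronglyMeasurable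
        (ae_of_all _ fun p => by rw [Real.norm_eq_abs]; exact hC _)
    unfold wav
    have h1 : ∫ p, sigI p * (V (A.act y (aa (-(Real.log p.2)))) - c) =
        (∫ p, sigI p * V (A.act y (aa (-(Real.log p.2))))) - (∫ p, sigI p) * c := by
      rw [← integral_mul_const, ← integral_sub i1 (hh_intI.mul_const c)]
      refine integral_congr_ae (ae_of_all _ fun p => ?_)
      change sigI p * (V (A.act y (aa (-(Real.log p.2)))) - c) =
        sigI p * V (A.act y (aa (-(Real.log p.2)))) - sigI p * c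
      ring
    rw [h1, sub_div, mul_div_cancel_left₀ _ hS.ne']
  -- almost every orbit
  have h1 : ∀ᵐ x ∂m, ∀ᵐ ζ : ℝ, wav A V (A.act x (aa (Real.log ζ))) = c := by
    have hms : MeasurableSet {p : Y × ℝ | wav A V (A.act p.1 (aa (Real.log p.2))) = c} :=
      ((wav_meas A hV).comp hjm) (measurableSet_singleton c)
    refine (Measure.ae_ae_comm hms).2 (ae_of_all _ fun ζ => ?_)
    exact (mp_of_tr A (h.2 (Real.log ζ))).quasiMeasurePreserving.ae hw
  have h2 : ∀ᵐ x ∂m, ∀ᵐ ρ : ℝ, 0 < ρ → V (A.act x (aa (Real.log ρ))) = c := by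
    filter_upwards [h1] with x hx
    have hux : Measurable fun ρ : ℝ => V (A.act x (aa (Real.log ρ))) := by
      have h3 : Continuous fun t : ℝ => A.act x (aa t) :=
        A.cont.comp (continuous_const.prodMk continuous_aa)
      exact hV.comp (h3.measurable.comp Real.measurable_log)
    have hu : Measurable fun ρ : ℝ => (V (A.act x (aa (Real.log ρ))) - c) / Real.sqrt ρ :=
      (hux.sub_const c).div Real.continuous_sqrt.measurable
    have hab : ∀ y, |V y - c| ≤ C + |c| := fun y =>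
      (abs_sub _ _).trans (add_le_add_left (hC y) _)
    have h3 := abel hu (C := C + |c|) (fun ρ hρ => by
      rw [abs_div, abs_of_pos (Real.sqrt_pos.2 hρ)]
      exact div_le_div_of_nonneg_right (hab _) (Real.sqrt_nonneg _)) (by
      filter_upwards [hx] with ζ hζ hζ0
      have h4 := wav_eq A (hV.sub_const c) ⟨C + |c|, hab⟩ x hζ0
      rw [hwm, hζ, sub_self] at h4
      have h5 : 2 / (ζ * ∫ p, sigI p) ≠ 0 := by positivity
      exact (mul_eq_zero.1 h4.symm).resolve_left h5)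
    filter_upwards [h3] with ρ hρ hρ0
    have h4 := hρ hρ0
    rw [div_eq_zero_iff] at h4
    exact sub_eq_zero.1 (h4.resolve_right (Real.sqrt_pos.2 hρ0).ne')
  have h3 : ∀ᵐ ρ : ℝ, ∀ᵐ x ∂m, 0 < ρ → V (A.act x (aa (Real.log ρ))) = c := by
    have hms : MeasurableSet {p : Y × ℝ | 0 < p.2 → V (A.act p.1 (aa (Real.log p.2))) = c} := by
      have h4 : {p : Y × ℝ | 0 < p.2 → V (A.act p.1 (aa (Real.log p.2))) = c} =
          {p : Y × ℝ | 0 < p.2}ᶜ ∪ {p : Y × ℝ | V (A.act p.1 (aa (Real.log p.2))) = c} := by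
        ext p
        exact imp_iff_not_or
      rw [h4]
      exact (measurableSet_lt measurable_const measurable_snd).compl.union
        ((hV.comp hjm) (measurableSet_singleton c))
    exact (Measure.ae_ae_comm hms).1 h2
  have h4 : ∀ᵐ ρ ∂(volume.restrict (Ioi (0 : ℝ))), ∀ᵐ x ∂m,
      V (A.act x (aa (Real.log ρ))) = c := by
    rw [ae_restrict_iff' measurableSet_Ioi]
    filter_upwards [h3] with ρ hρ hρ0
    filter_upwards [hρ] with x hx
    exact hx hρ0
  have hne : (ae (volume.restrict (Ioi (0 : ℝ)))).NeBot := by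
    rw [ae_neBot, Ne, Measure.restrict_eq_zero, Real.volume_Ioi]
    exact ENNReal.top_ne_zero
  obtain ⟨ρ, hρ⟩ := h4.exists
  have h5 := (mp_of_tr A (h.2 (-(Real.log ρ)))).quasiMeasurePreserving.ae hρ
  filter_upwards [h5] with x hx
  rwa [← A.act_mul, ← aa_add, neg_add_cancel, aa_zero, A.act_one] at hx

end Pool.Agent.MP27775c.DO
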