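import Pool.Agent.Lib.MP_27775c_an_DO.He
import Pool.Agent.Lib.MP_27775c_an_DO.Hf
import Pool.Agent.Lib.MP_27775c_an_DO.Hh
import Pool.Agent.Lib.MP_27775c_an_DO.XC

/-!
# MP_27775c_an, project DO, module Hi: no convergence without ergodicity
-/

set_option autoImplicit false

open MeasureTheory Set Filter Topology

namespace Pool.Agent.MP27775c.DO

private theorem hi_kk {t : ℝ} (h : (kk t) 1 0 = 0) : kk t = 1 ∨ kk t = -1 := by
  have h0 : Real.sin t = 0 := by
    have h1 : (kk t) 1 0 = -Real.sin t := by simp [kk]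
    rw [h1] at h
    linarith
  have h1 := Real.cos_sq_add_sin_sq t
  rw [h0] at h1
  have h2 : (Real.cos t - 1) * (Real.cos t + 1) = 0 := by linarith
  rcases mul_eq_zero.1 h2 with h3 | h3
  · left
    have h4 : Real.cos t = 1 := by linarith
    refine Matrix.SpecialLinearGroup.ext _ _ fun i j => ?_
    fin_cases i <;> fin_cases j <;> simp [kk, h0, h4]
  · right
    have h4 : Real.cos t = -1 := by linarith
    refine Matrix.SpecialLinearGroup.ext _ _ fun i j => ?_
    fin_cases i <;> fin_cases j <;> simp [kk, h0, h4]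

variable {Y : Type*} [TopologicalSpace Y] [PolishSpace Y] [MeasurableSpace Y] [BorelSpace Y]
  (A : RAct Y)

/-- Proof. `exists_X0S` gives `X₀` and `V` (strictly invariant under `nn`, with values in `[0, 1]`,
not constant). Let `X₁ ⊆ X₀ ∩ {P}` be measurable of full measure. The map `e` is injective on `X₁`:
if `e x = e x'` then `x' = x · kk t`, so `(kk t) 1 0 = -sin t = 0`, so `kk t = ± 1` and `x' = x`
(`act_one`, `act_neg`). For `f : C(M, ℝ)` let `F y = f (e y) * W y`, `κ = ∫ F / ∫ W` (the integrals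
with respect to `m` and `kap A m` agree, `int_kap`). By `orth` `∫ wav V * (F - κ W) ∂m = 0`. Let
`c = ∫ wav V * W ∂m / ∫ W ∂m`; then `∫ f (e y) * ((wav V y - c) * W y) ∂m = 0` for all `f`, so by
`zero_of_ev` `(wav V - c) * W = 0`, `wav V = c` almost everywhere and by `const_of_wav` `V = c`
almost everywhere, a contradiction. -/
theorem no_conv {M : Type*} [TopologicalSpace M] [PolishSpace M] [CompactSpace M]
    {m : Measure Y} [IsProbabilityMeasure m] (h : IsPInv A m) (hE : IsPErg A m)
    (hn : ¬ IsNErg A m) {e : Y → M} (he : Continuous e) (heK : ∀ y t, e (A.act y (kk t)) = e y)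
    {P : Y → Prop} (hP : ∀ᵐ y ∂m, P y)
    (hPe : ∀ y y', P y → P y' → e y = e y' → ∃ t, y' = A.act y (kk t)) {W : Y → ℝ}
    (hW : Measurable W) (hWK : ∀ y θ, W (A.act y (kk θ)) = W y) (hW0 : ∀ y, 0 ≤ W y)
    (hW1 : ∀ᵐ y ∂m, 0 < W y) (hi : Integrable W m)
    (hc : ∀ f : C(M, ℝ), Tendsto (fun S : ℝ => 1 / S * ∫ R in (0 : ℝ)..S,
      ∫ y, |bav A R (fun y => f (e y) * W y) y / bav A R W y -
        (∫ y, f (e y) * W y ∂(kap A m)) / ∫ y, W y ∂(kap A m)| ∂(kap A m)) atTop (𝓝 0)) :
    False := by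
  obtain ⟨X₀, V, hX₀, hX₀', hg, -, -, hV, hV01, hinv, hnc⟩ := exists_X0S A h hE hn
  have hb1 : ∀ y, |V y| ≤ 1 := fun y => abs_le.2 ⟨by linarith [(hV01 y).1], (hV01 y).2⟩
  have hb : ∃ C, ∀ y, |V y| ≤ C := ⟨1, hb1⟩
  -- the set on which `e` is injective
  have hX₁m : MeasurableSet (X₀ \ toMeasurable m {y | ¬ P y}) :=
    hX₀.diff (measurableSet_toMeasurable _ _)
  have hX₁0 : m (X₀ \ toMeasurable m {y | ¬ P y})ᶜ = 0 := by
    rw [sdiff_eq, compl_inter, compl_compl]
    refine measure_union_null hX₀' ?_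
    rw [measure_toMeasurable]
    exact hP
  have hinj : InjOn e (X₀ \ toMeasurable m {y | ¬ P y}) := by
    have hPx : ∀ x, x ∉ toMeasurable m {y | ¬ P y} → P x := by
      intro x hx
      by_contra hc'
      exact hx (subset_toMeasurable _ _ hc')
    rintro x ⟨hx0, hx1⟩ x' ⟨hx0', hx1'⟩ hxx
    obtain ⟨t, ht⟩ := hPe x x' (hPx x hx1) (hPx x' hx1') hxx
    have h1 : (kk t) 1 0 = 0 := hg x hx0 (kk t) (by rw [← ht]; exact hx0')
    rcases hi_kk h1 with h2 | h2
    · rw [ht, h2, A.act_one]
    · rw [ht, h2, A.act_neg, A.act_one]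
  -- the integral of `W`
  have hw : 0 < ∫ y, W y ∂m := by
    rw [integral_pos_iff_support_of_nonneg hW0 hi]
    have h1 : ∀ᵐ y ∂m, y ∈ Function.support W := by
      filter_upwards [hW1] with y hy
      exact hy.ne'
    have h2 : m (Function.support W) = 1 := by
      rw [← prob_compl_eq_zero_iff (measurableSet_support hW)]
      exact h1
    rw [h2]
    exact one_pos
  have hwm := wav_meas A hV
  have hwb := wav_bdd A hb1
  have hwi : ∀ {F : Y → ℝ}, Integrable F m → Integrable (fun y => wav A V y * F y) m :=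
    fun hF => hF.bdd_mul hwm.aestronglyMeasurable (c := 1) (Eventually.of_forall fun y => by
      rw [Real.norm_eq_abs]
      exact hwb y)
  have hkW := (int_kap A (m := m) hW hWK).2
  set c : ℝ := (∫ y, wav A V y * W y ∂m) / ∫ y, W y ∂m with hcdef
  have hcw : ∫ y, wav A V y * W y ∂m = c * ∫ y, W y ∂m := by
    rw [hcdef, div_mul_cancel₀ _ hw.ne']
  have key : ∀ f : C(M, ℝ), ∫ y, f (e y) * ((wav A V y - c) * W y) ∂m = 0 := by
    intro f
    have hFm : Measurable fun y => f (e y) * W y := (f.continuous.comp he).measurable.mul hW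
    have hFK : ∀ y θ, f (e (A.act y (kk θ))) * W (A.act y (kk θ)) = f (e y) * W y := by
      intro y θ
      rw [heK, hWK]
    have hFC : ∀ y, |f (e y) * W y| ≤ ‖f‖ * W y := by
      intro y
      rw [abs_mul, abs_of_nonneg (hW0 y)]
      exact mul_le_mul_of_nonneg_right (f.norm_coe_le_norm (e y)) (hW0 y)
    have hFi : Integrable (fun y => f (e y) * W y) m :=
      (hi.const_mul ‖f‖).mono' hFm.aestronglyMeasurable (Eventually.of_forall hFC)
    have hkF := (int_kap A (m := m) (F := fun y => f (e y) * W y) hFm hFK).2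
    have h1 := orth A h hV hb hinv hFm hW hFK hWK hFC hW0 hi (hc f)
    rw [hkF, hkW] at h1
    set κ : ℝ := (∫ y, f (e y) * W y ∂m) / ∫ y, W y ∂m with hκ
    have hκw : ∫ y, f (e y) * W y ∂m = κ * ∫ y, W y ∂m := by
      rw [hκ, div_mul_cancel₀ _ hw.ne']
    have h2 : ∫ y, wav A V y * (f (e y) * W y - κ * W y) ∂m =
        (∫ y, wav A V y * (f (e y) * W y) ∂m) - κ * ∫ y, wav A V y * W y ∂m := by
      rw [← integral_const_mul, ← integral_sub (hwi hFi) ((hwi hi).const_mul κ)]
      congr 1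
      funext y
      ring
    have h3 : ∫ y, f (e y) * ((wav A V y - c) * W y) ∂m =
        (∫ y, wav A V y * (f (e y) * W y) ∂m) - c * ∫ y, f (e y) * W y ∂m := by
      rw [← integral_const_mul, ← integral_sub (hwi hFi) (hFi.const_mul c)]
      congr 1
      funext y
      ring
    rw [h2, hcw] at h1
    rw [h3, hκw]
    linarith
  have hgi : Integrable (fun y => (wav A V y - c) * W y) m := by
    have h1 := (hwi hi).sub (hi.const_mul c)
    refine h1.congr (Eventually.of_forall fun y => ?_)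
    simp only [Pi.sub_apply]
    ring
  have hz := zero_of_ev he hX₁m hX₁0 hinj hgi key
  have hwc : ∀ᵐ x ∂m, wav A V x = c := by
    filter_upwards [hz, hW1] with y h1 h2
    rcases mul_eq_zero.1 h1 with h3 | h3
    · linarith
    · exact absurd h3 h2.ne'
  exact hnc ⟨c, const_of_wav A h hV hb hwc⟩

end Pool.Agent.MP27775c.DO
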