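import Pool.Agent.Lib.MP_27775c_an_DO.Gb

/-!
# MP_27775c_an, project DO, module Hj: products of forms with functions, invariance
-/

set_option autoImplicit false

open MeasureTheory Set Filter Topology
open scoped Manifold ContDiff UpperHalfPlane

namespace Pool.Agent.MP27775c.DO

variable {E : Type*} [NormedAddCommGroup E] [NormedSpace ℂ E] [FiniteDimensional ℂ E]
  {M : Type*} [TopologicalSpace M] [ChartedSpace E M]
  [IsManifold 𝓘(ℂ, E) 1 M]

/-- The product of a form with a continuous function. -/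
def Form.mulF (f : C(M, ℝ)) (om : Form E M) : Form E M where
  val v := f v.proj * om.val v
  continuous_val := (f.continuous.comp
    (FiberBundle.continuous_proj E (TangentSpace 𝓘(ℂ, E)))).mul om.continuous_val
  smul_val p c v := by
    change f p * om.val ⟨p, c • v⟩ = ‖c‖ ^ 2 * (f p * om.val ⟨p, v⟩)
    rw [om.smul_val]
    ring
  par_val p v w := by
    change f p * om.val ⟨p, v + w⟩ + f p * om.val ⟨p, v - w⟩ =
      2 * (f p * om.val ⟨p, v⟩) + 2 * (f p * om.val ⟨p, w⟩)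
    rw [← mul_add, om.par_val]
    ring

private theorem hj_md (g : G) : MDifferentiable 𝓘(ℂ) 𝓘(ℂ) fun z : ℍ => g • z :=
  UpperHalfPlane.mdifferentiable_smul (g := Matrix.SpecialLinearGroup.mapGL ℝ g) (by simp)

private theorem hj_der {φ : ℍ → M} (h : Hol E φ) (g : G) (z : ℍ) :
    ∃ c : ℂ, c ≠ 0 ∧ mfderiv 𝓘(ℂ) 𝓘(ℂ, E) (fun z => φ (g • z)) z (1 : ℂ) =
      c • mfderiv 𝓘(ℂ) 𝓘(ℂ, E) φ (g • z) (1 : ℂ) := by
  obtain ⟨c, hc, hv⟩ := vel_act h g z
  refine ⟨c, ?_, ?_⟩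
  · intro h0
    rw [h0, norm_zero] at hc
    have h1 : 0 < (g • z).im / z.im := div_pos (g • z).im_pos z.im_pos
    rw [← hc] at h1
    exact lt_irrefl _ h1
  · unfold vel at hv
    exact Bundle.TotalSpace.mk_injective _ hv

/-- Precomposition with homographies preserves the universal covering maps. Proof. `hol_act`,
`vel_act` (the derivative of `φ (g • z)` is a non-zero multiple of the derivative of `φ` at
`g • z`). If `ψ z = φ (g • w)` then `ψ = φ ∘ h`, `h z = g • w`, and `h' x = g⁻¹ • h x` is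
holomorphic, `h' z = w`, `ψ x = φ (g • h' x)`. -/
theorem univ_act {F : Foliation E M} {φ : ℍ → M} (h : IsUniv F φ) (g : G) :
    IsUniv F fun z => φ (g • z) := by
  obtain ⟨⟨h1, h2⟩, h3, h4⟩ := h
  refine ⟨⟨hol_act h1 g, fun z => ⟨(h2 (g • z)).1, ?_⟩⟩, fun z => ?_, ?_⟩
  · obtain ⟨c, _, hc⟩ := hj_der h1 g z
    change mfderiv 𝓘(ℂ) 𝓘(ℂ, E) (fun z => φ (g • z)) z (1 : ℂ) ∈ F.dir (φ (g • z))
    rw [hc]
    exact Submodule.smul_mem _ c (h2 (g • z)).2
  · obtain ⟨c, h0, hc⟩ := hj_der h1 g z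
    change mfderiv 𝓘(ℂ) 𝓘(ℂ, E) (fun z => φ (g • z)) z (1 : ℂ) ≠ 0
    rw [hc]
    exact smul_ne_zero h0 (h3 (g • z))
  · intro ψ hψ z w hzw
    obtain ⟨k, hk, hkz, hkx⟩ := h4 ψ hψ z (g • w) hzw
    refine ⟨fun x => g⁻¹ • k x, (hj_md g⁻¹).comp hk, ?_, ?_⟩
    · show g⁻¹ • k z = w
      rw [hkz, inv_smul_smul]
    · intro x
      show ψ x = φ (g • g⁻¹ • k x)
      rw [smul_inv_smul, hkx x]

end Pool.Agent.MP27775c.DO
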