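import Pool.Agent.Lib.MP_27775c_an_DO.Ga
import Pool.Agent.Lib.MP_27775c_an_DO.Gh
import Pool.Agent.Lib.MP_27775c_an_DO.Gi
import Pool.Agent.Lib.MP_27775c_an_DO.Gm
import Pool.Agent.Lib.MP_27775c_an_DO.Ball

/-!
# MP_27775c_an, project DO, module Hk: averages in the radius and in the point
-/

set_option autoImplicit false

open MeasureTheory Set Filter Topology
open scoped Manifold ContDiff UpperHalfPlane

namespace Pool.Agent.MP27775c.DO

private theorem hk_int {f : ℝ → ℝ} (hf : Measurable f) {C : ℝ}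
    (hb : ∀ R, 0 < R → 0 ≤ f R ∧ f R ≤ C) {D : Set ℝ} (hD : MeasurableSet D) {ε : ℝ}
    (hε : 0 ≤ ε) {T S : ℝ} (hT : 0 ≤ T) (hTS : T ≤ S) (hC : 0 ≤ C)
    (h : ∀ R, T < R → R ∈ D → f R ≤ ε) :
    ∫ R in (0 : ℝ)..S, f R ≤ ε * S + C * T + C * (S - (volume (D ∩ Ioc 0 S)).toReal) := by
  have hS : 0 ≤ S := hT.trans hTS
  rw [intervalIntegral.integral_of_le hS]
  have hfi : Integrable f (volume.restrict (Ioc 0 S)) := by
    refine Integrable.of_bound (C := C) hf.aestronglyMeasurable ?_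
    filter_upwards [ae_restrict_mem measurableSet_Ioc] with R hR
    rw [Real.norm_eq_abs, abs_of_nonneg (hb R hR.1).1]
    exact (hb R hR.1).2
  have i1 : Integrable (fun _ : ℝ => ε) (volume.restrict (Ioc 0 S)) := integrable_const _
  have i2 : Integrable ((Ioc 0 T).indicator (1 : ℝ → ℝ)) (volume.restrict (Ioc 0 S)) :=
    (integrable_const (1 : ℝ)).indicator measurableSet_Ioc
  have i3 : Integrable (Dᶜ.indicator (1 : ℝ → ℝ)) (volume.restrict (Ioc 0 S)) :=
    (integrable_const (1 : ℝ)).indicator hD.compl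
  have h1 : ∫ R in Ioc 0 S, f R ≤ ∫ R in Ioc 0 S, (ε + C * (Ioc 0 T).indicator (1 : ℝ → ℝ) R +
      C * Dᶜ.indicator (1 : ℝ → ℝ) R) := by
    refine integral_mono_ae hfi ((i1.add (i2.const_mul C)).add (i3.const_mul C)) ?_
    filter_upwards [ae_restrict_mem measurableSet_Ioc] with R hR
    have hi2 : 0 ≤ (Ioc 0 T).indicator (1 : ℝ → ℝ) R := indicator_nonneg (fun _ _ => zero_le_one) R
    have hi3 : 0 ≤ Dᶜ.indicator (1 : ℝ → ℝ) R := indicator_nonneg (fun _ _ => zero_le_one) R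
    have hj2 := mul_nonneg hC hi2
    have hj3 := mul_nonneg hC hi3
    by_cases hRT : R ≤ T
    · have h2 : (Ioc 0 T).indicator (1 : ℝ → ℝ) R = 1 := by
        rw [indicator_of_mem (show R ∈ Ioc 0 T from ⟨hR.1, hRT⟩), Pi.one_apply]
      rw [h2]
      have h3 := (hb R hR.1).2
      show f R ≤ _
      linarith
    · by_cases hRD : R ∈ D
      · have h3 := h R (not_le.1 hRT) hRD
        show f R ≤ _
        linarith
      · have h2 : Dᶜ.indicator (1 : ℝ → ℝ) R = 1 := by
          rw [indicator_of_mem (show R ∈ Dᶜ from hRD), Pi.one_apply]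
        rw [h2]
        have h3 := (hb R hR.1).2
        show f R ≤ _
        linarith
  refine h1.trans (le_of_eq ?_)
  have e1 : ∫ R in Ioc 0 S, (ε + C * (Ioc 0 T).indicator (1 : ℝ → ℝ) R +
      C * Dᶜ.indicator (1 : ℝ → ℝ) R) = (∫ _R in Ioc 0 S, ε) +
      C * (∫ R in Ioc 0 S, (Ioc 0 T).indicator (1 : ℝ → ℝ) R) +
      C * (∫ R in Ioc 0 S, Dᶜ.indicator (1 : ℝ → ℝ) R) := by
    have i12 : Integrable (fun R : ℝ => ε + C * (Ioc 0 T).indicator (1 : ℝ → ℝ) R)
        (volume.restrict (Ioc 0 S)) := i1.add (i2.const_mul C)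
    rw [integral_add i12 (i3.const_mul C),
      integral_add i1 (i2.const_mul C), integral_const_mul, integral_const_mul]
  have e2 : ∫ _R in Ioc 0 S, ε = ε * S := by
    rw [setIntegral_const, Real.volume_real_Ioc_of_le hS, smul_eq_mul, sub_zero, mul_comm]
  have e3 : ∫ R in Ioc 0 S, (Ioc 0 T).indicator (1 : ℝ → ℝ) R = T := by
    rw [integral_indicator_one measurableSet_Ioc, measureReal_restrict_apply measurableSet_Ioc,
      inter_eq_left.2 (Ioc_subset_Ioc_right hTS), Real.volume_real_Ioc_of_le hT, sub_zero]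
  have e4 : ∫ R in Ioc 0 S, Dᶜ.indicator (1 : ℝ → ℝ) R =
      S - (volume (D ∩ Ioc 0 S)).toReal := by
    rw [integral_indicator_one hD.compl, measureReal_restrict_apply hD.compl]
    have h2 : Dᶜ ∩ Ioc 0 S = Ioc 0 S \ (D ∩ Ioc 0 S) := by
      ext R
      simp only [mem_inter_iff, mem_compl_iff, Set.mem_sdiff]
      tauto
    rw [h2, measureReal_sdiff inter_subset_right (hD.inter measurableSet_Ioc)
      (by rw [Real.volume_Ioc]; exact ENNReal.ofReal_ne_top),
      Real.volume_real_Ioc_of_le hS, sub_zero]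
    rfl
  rw [e1, e2, e3, e4]

/-- Proof. The part of the integral over `Dᶜ ∩ (0, S]` is at most `C * |Dᶜ ∩ (0, S]| = o (S)`, and
on `D` the function is less than `ε` for large `R`. -/
theorem cesaro_of_dens {f : ℝ → ℝ} (hf : Measurable f) {C : ℝ}
    (hb : ∀ R, 0 < R → 0 ≤ f R ∧ f R ≤ C) {D : Set ℝ} (hD : DensOne D)
    (h : Tendsto f (atTop ⊓ 𝓟 D) (𝓝 0)) :
    Tendsto (fun S : ℝ => 1 / S * ∫ R in (0 : ℝ)..S, f R) atTop (𝓝 0) := by
  have hC : 0 ≤ C := (hb 1 one_pos).1.trans (hb 1 one_pos).2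
  have key : ∀ ε : ℝ, 0 < ε → ∃ T : ℝ, 0 ≤ T ∧ ∀ S, T < S →
      1 / S * ∫ R in (0 : ℝ)..S, f R ≤
        ε + C * (T / S) + C * (1 - (volume (D ∩ Ioc 0 S)).toReal / S) := by
    intro ε hε
    have h1 := h.eventually (gt_mem_nhds hε)
    rw [Filter.eventually_inf_principal] at h1
    obtain ⟨T, hT⟩ := eventually_atTop.1 h1
    refine ⟨max T 0, le_max_right _ _, fun S hS => ?_⟩
    have hS0 : 0 < S := (le_max_right T 0).trans_lt hS
    have h2 := hk_int hf hb (D := D) hD.1 hε.le (T := max T 0) (S := S) (le_max_right _ _)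
      hS.le hC fun R hR hRD => (hT R ((le_max_left _ _).trans hR.le) hRD).le
    have h3 : 1 / S * ∫ R in (0 : ℝ)..S, f R ≤ 1 / S *
        (ε * S + C * max T 0 + C * (S - (volume (D ∩ Ioc 0 S)).toReal)) :=
      mul_le_mul_of_nonneg_left h2 (by positivity)
    refine h3.trans (le_of_eq ?_)
    field_simp
  have hnn : ∀ S : ℝ, 0 < S → 0 ≤ 1 / S * ∫ R in (0 : ℝ)..S, f R := by
    intro S hS
    refine mul_nonneg (by positivity) ?_
    rw [intervalIntegral.integral_of_le hS.le]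
    exact setIntegral_nonneg measurableSet_Ioc fun R hR => (hb R hR.1).1
  rw [Metric.tendsto_nhds]
  intro ε hε
  obtain ⟨T, hT0, hT⟩ := key (ε / 2) (by positivity)
  have h4 : Tendsto (fun S : ℝ => ε / 2 + C * (T / S) +
      C * (1 - (volume (D ∩ Ioc 0 S)).toReal / S)) atTop (𝓝 (ε / 2 + C * 0 + C * (1 - 1))) :=
    (tendsto_const_nhds.add ((tendsto_const_nhds.div_atTop tendsto_id).const_mul C)).add
      ((hD.2.const_sub 1).const_mul C)
  have h5 : ε / 2 + C * 0 + C * (1 - 1) < ε := by linarith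
  filter_upwards [h4.eventually (gt_mem_nhds h5), eventually_gt_atTop T] with S hS1 hS2
  have hS0 : 0 < S := hT0.trans_lt hS2
  rw [Real.dist_eq, sub_zero, abs_of_nonneg (hnn S hS0)]
  exact (hT S hS2).trans_lt hS1

variable {E : Type*} [NormedAddCommGroup E] [NormedSpace ℂ E] [FiniteDimensional ℂ E]
  {M : Type*} [TopologicalSpace M] [ChartedSpace E M]
  [IsManifold 𝓘(ℂ, E) 1 M] [CompactSpace M] [T2Space M] [MeasurableSpace C(ℍ, M)]
  [BorelSpace C(ℍ, M)]

omit [CompactSpace M] [T2Space M] [BorelSpace C(ℍ, M)] [MeasurableSpace C(ℍ, M)] in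
private theorem hk_le {om θ : Form E M} {C κ : ℝ} (hC0 : 0 ≤ C)
    (hC : ∀ v, |θ.val v| ≤ C * om.val v) {φ : C(ℍ, M)} (h : Hol E φ) (R : ℝ) :
    |bav (pre M) R (FF θ) φ / bav (pre M) R (FF om) φ - κ| ≤ C + |κ| := by
  refine (abs_sub _ _).trans (add_le_add ?_ le_rfl)
  by_cases hR : 0 < R
  · rw [← sigma_FF om θ h hR]
    exact sigma_le hC0 hC h R
  · have h1 : bav (pre M) R (FF om) φ = 0 := by
      unfold bav
      rw [Metric.ball_eq_empty.2 (not_lt.1 hR)]
      simp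
    rw [h1, div_zero, abs_zero]
    exact hC0

private theorem hk_meas (om θ : Form E M) (κ : ℝ) :
    Measurable fun p : ℝ × C(ℍ, M) =>
      |bav (pre M) p.1 (FF θ) p.2 / bav (pre M) p.1 (FF om) p.2 - κ| := by
  have := polC E M
  exact (((bav_meas (pre M) (FF_meas θ)).div (bav_meas (pre M) (FF_meas om))).sub_const κ).abs

/-- Proof. For almost every `φ` the function
`f R = |bav R (FF θ) φ / bav R (FF om) φ - κ|` is measurable in `(R, φ)` (`bav_meas`), equal to
`|sigma om θ φ R - κ|` for `R > 0` (`sigma_FF`), bounded by `C + |κ|` (`exists_C`, `sigma_le`), so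
by `cesaro_of_dens` its averages over `(0, S]` tend to zero; integrate over `φ` (dominated
convergence) and exchange the integrals (Fubini). -/
theorem cesaro_of_ae {om : Form E M} (hom : om.Pos) {μ : Measure C(ℍ, M)}
    [IsProbabilityMeasure μ] (hμ : ∀ᵐ φ : C(ℍ, M) ∂μ, Hol E φ) (θ : Form E M) {κ : ℝ}
    (h : ∀ᵐ φ : C(ℍ, M) ∂μ, ∃ D, DensOne D ∧ Tendsto (sigma om θ φ) (atTop ⊓ 𝓟 D) (𝓝 κ)) :
    Tendsto (fun S : ℝ => 1 / S * ∫ R in (0 : ℝ)..S, ∫ φ : C(ℍ, M),
      |bav (pre M) R (FF θ) φ / bav (pre M) R (FF om) φ - κ| ∂μ) atTop (𝓝 0) := by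
  have := polC E M
  obtain ⟨C, hC0, hC⟩ := exists_C hom θ
  have hCK : 0 ≤ C + |κ| := add_nonneg hC0 (abs_nonneg _)
  have hm := hk_meas (M := M) om θ κ
  have hb : ∀ᵐ φ : C(ℍ, M) ∂μ, ∀ R : ℝ,
      |bav (pre M) R (FF θ) φ / bav (pre M) R (FF om) φ - κ| ≤ C + |κ| := by
    filter_upwards [hμ] with φ hφ R
    exact hk_le hC0 hC hφ R
  have h1 : ∀ᵐ φ : C(ℍ, M) ∂μ, Tendsto (fun S : ℝ => 1 / S * ∫ R in (0 : ℝ)..S,
      |bav (pre M) R (FF θ) φ / bav (pre M) R (FF om) φ - κ|) atTop (𝓝 0) := by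
    filter_upwards [hμ, hb, h] with φ hφ hbφ hD
    obtain ⟨D, hD1, hD2⟩ := hD
    refine cesaro_of_dens (C := C + |κ|)
      (f := fun R => |bav (pre M) R (FF θ) φ / bav (pre M) R (FF om) φ - κ|)
      (hm.comp (measurable_id.prodMk measurable_const))
      (fun R _ => ⟨abs_nonneg _, hbφ R⟩) hD1 ?_
    have h2 : Tendsto (fun R => |sigma om θ φ R - κ|) (atTop ⊓ 𝓟 D) (𝓝 0) := by
      have h3 := (hD2.sub_const κ).abs
      rwa [sub_self, abs_zero] at h3
    refine h2.congr' ?_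
    filter_upwards [(eventually_gt_atTop (0 : ℝ)).filter_mono
      (inf_le_left : atTop ⊓ 𝓟 D ≤ atTop)] with R hR
    rw [sigma_FF om θ hφ hR]
  have hbd : ∀ S : ℝ, ∀ᵐ φ : C(ℍ, M) ∂μ, ‖1 / S * ∫ R in (0 : ℝ)..S,
      |bav (pre M) R (FF θ) φ / bav (pre M) R (FF om) φ - κ|‖ ≤ C + |κ| := by
    intro S
    filter_upwards [hb] with φ hφ
    have h2 := intervalIntegral.norm_integral_le_of_norm_le_const (a := 0) (b := S)
      (f := fun R => |bav (pre M) R (FF θ) φ / bav (pre M) R (FF om) φ - κ|)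
      (C := C + |κ|) (fun R _ => by
        rw [Real.norm_eq_abs, abs_abs]
        exact hφ R)
    rw [norm_mul]
    rcases eq_or_ne S 0 with hS | hS
    · rw [hS, div_zero, norm_zero, zero_mul]
      exact hCK
    · have hS' : 0 < |S| := abs_pos.2 hS
      rw [sub_zero] at h2
      calc ‖1 / S‖ * _ ≤ ‖1 / S‖ * ((C + |κ|) * |S|) :=
            mul_le_mul_of_nonneg_left h2 (norm_nonneg _)
        _ = C + |κ| := by
            rw [norm_div, norm_one, Real.norm_eq_abs]
            field_simp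
  have hms : ∀ᶠ S : ℝ in atTop, AEStronglyMeasurable (fun φ : C(ℍ, M) =>
      1 / S * ∫ R in (0 : ℝ)..S,
        |bav (pre M) R (FF θ) φ / bav (pre M) R (FF om) φ - κ|) μ := by
    filter_upwards [eventually_ge_atTop (0 : ℝ)] with S hS
    simp only [intervalIntegral.integral_of_le hS]
    have h2 : StronglyMeasurable fun p : C(ℍ, M) × ℝ =>
        |bav (pre M) p.2 (FF θ) p.1 / bav (pre M) p.2 (FF om) p.1 - κ| :=
      (hm.comp measurable_swap).stronglyMeasurable
    exact ((h2.integral_prod_right' (ν := volume.restrict (Ioc 0 S))).const_mul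
      (1 / S)).aestronglyMeasurable
  have h4 := tendsto_integral_filter_of_dominated_convergence (μ := μ)
    (bound := fun _ => C + |κ|) (l := atTop) (F := fun (S : ℝ) (φ : C(ℍ, M)) =>
      1 / S * ∫ R in (0 : ℝ)..S, |bav (pre M) R (FF θ) φ / bav (pre M) R (FF om) φ - κ|)
    (f := fun _ => (0 : ℝ)) hms (Eventually.of_forall hbd) (integrable_const _) h1
  rw [integral_zero] at h4
  refine h4.congr' ?_
  filter_upwards [eventually_ge_atTop (0 : ℝ)] with S hS
  rw [integral_const_mul]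
  congr 1
  simp only [intervalIntegral.integral_of_le hS]
  refine (integral_integral_swap ?_).symm
  refine Integrable.of_bound (C := C + |κ|) hm.aestronglyMeasurable ?_
  have h5 := (Measure.quasiMeasurePreserving_snd (μ := volume.restrict (Ioc 0 S))
    (ν := μ)).ae hb
  filter_upwards [h5] with p hp
  show ‖|bav (pre M) p.1 (FF θ) p.2 / bav (pre M) p.1 (FF om) p.2 - κ|‖ ≤ _
  rw [Real.norm_eq_abs, abs_abs]
  exact hp p.1

/-- Proof. As before: the inner integral is `∫ |sigma om θ φ R - κ| ∂μ` for `R > 0`, bounded and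
measurable in `R`, and it tends to zero, so its averages tend to zero. -/
theorem cesaro_of_L1 {om : Form E M} (hom : om.Pos) {μ : Measure C(ℍ, M)}
    [IsProbabilityMeasure μ] (hμ : ∀ᵐ φ : C(ℍ, M) ∂μ, Hol E φ) (θ : Form E M) {κ : ℝ}
    (h : Tendsto (fun R : ℝ => ∫ φ : C(ℍ, M), |sigma om θ φ R - κ| ∂μ) atTop (𝓝 0)) :
    Tendsto (fun S : ℝ => 1 / S * ∫ R in (0 : ℝ)..S, ∫ φ : C(ℍ, M),
      |bav (pre M) R (FF θ) φ / bav (pre M) R (FF om) φ - κ| ∂μ) atTop (𝓝 0) := by
  have := polC E M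
  obtain ⟨C, hC0, hC⟩ := exists_C hom θ
  have hm := hk_meas (M := M) om θ κ
  have hmk : Measurable fun R : ℝ => ∫ φ : C(ℍ, M),
      |bav (pre M) R (FF θ) φ / bav (pre M) R (FF om) φ - κ| ∂μ :=
    (hm.stronglyMeasurable.integral_prod_right' (ν := μ)).measurable
  have hD : DensOne (univ : Set ℝ) := by
    refine ⟨MeasurableSet.univ, ?_⟩
    refine tendsto_const_nhds.congr' ?_
    filter_upwards [eventually_gt_atTop (0 : ℝ)] with S hS
    rw [univ_inter, Real.volume_Ioc, sub_zero, ENNReal.toReal_ofReal hS.le, div_self hS.ne']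
  refine cesaro_of_dens (C := C + |κ|) hmk (fun R _ => ⟨integral_nonneg fun φ => abs_nonneg _, ?_⟩)
    hD ?_
  · have h2 : ∫ φ : C(ℍ, M), |bav (pre M) R (FF θ) φ / bav (pre M) R (FF om) φ - κ| ∂μ ≤
        ∫ _φ : C(ℍ, M), (C + |κ|) ∂μ := by
      refine integral_mono_of_nonneg (Eventually.of_forall fun φ => abs_nonneg _)
        (integrable_const _) ?_
      filter_upwards [hμ] with φ hφ
      exact hk_le hC0 hC hφ R
    refine h2.trans (le_of_eq ?_)
    rw [integral_const, probReal_univ, one_smul]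
  · rw [principal_univ, inf_top_eq]
    refine h.congr' ?_
    filter_upwards [eventually_gt_atTop (0 : ℝ)] with R hR
    refine integral_congr_ae ?_
    filter_upwards [hμ] with φ hφ
    show |sigma om θ φ R - κ| = _
    rw [sigma_FF om θ hφ hR]

end Pool.Agent.MP27775c.DO
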