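import Pool.Agent.Lib.MP_27775c_an_DO.Hc
import Pool.Agent.Lib.MP_27775c_an_DO.Hi
import Pool.Agent.Lib.MP_27775c_an_DO.Hj
import Pool.Agent.Lib.MP_27775c_an_DO.Hk
import Pool.Agent.Lib.MP_27775c_an_DO.Gk
import Pool.Agent.Lib.MP_27775c_an_DO.AbG

/-!
# MP_27775c_an, project DO, module Hl: exceptional currents, no convergence
-/

set_option autoImplicit false

open MeasureTheory Set Filter Topology
open scoped Manifold ContDiff UpperHalfPlane

namespace Pool.Agent.MP27775c.DO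

/-- Proof: `kap A m` is the image of `m × circ`; for almost every `(y, θ)` the property holds for
`y · kk θ`, so for `y · kk θ · kk (-θ) = y`. -/
theorem ae_of_kap {Y : Type*} [TopologicalSpace Y] [PolishSpace Y] [MeasurableSpace Y]
    [BorelSpace Y] (A : RAct Y) {m : Measure Y} [IsProbabilityMeasure m] {p : Y → Prop}
    (h : ∀ᵐ y ∂(kap A m), p y) (hp : ∀ y g, p y → p (A.act y g)) : ∀ᵐ y ∂m, p y := by
  have hjm : Measurable fun q : Y × ℝ => A.act q.1 (kk q.2) := meas_joint A continuous_kk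
  have h1 : ∀ᵐ q ∂(m.prod circ), p (A.act q.1 (kk q.2)) := ae_of_ae_map hjm.aemeasurable h
  have h2 : ∀ᵐ q ∂(m.prod circ), p q.1 := by
    filter_upwards [h1] with q hq
    have h3 := hp _ (kk (-q.2)) hq
    rwa [← A.act_mul, ← kk_add, add_neg_cancel, kk_zero, A.act_one] at h3
  filter_upwards [Measure.ae_ae_of_ae_prod h2] with x hx
  obtain ⟨θ, hθ⟩ := hx.exists
  exact hθ

variable {E : Type*} [NormedAddCommGroup E] [NormedSpace ℂ E] [FiniteDimensional ℂ E]
  {M : Type*} [TopologicalSpace M] [ChartedSpace E M]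
  [IsManifold 𝓘(ℂ, E) 1 M] [CompactSpace M] [T2Space M] [MeasurableSpace C(ℍ, M)]
  [BorelSpace C(ℍ, M)]

/-- Proof. Suppose that `μ` is exceptional. `exists_lift` gives `m` with `kap m = μ`, ergodic for
the triangular group, and it is not ergodic for `nn` by `exc_not_nerg`. Apply `no_conv` (Polish
spaces: `polC`, `polM`) with `e φ = φ i` (invariant under rotations: `kk_smul`), `P = IsUniv F`
(`ae_of_kap`, `univ_act`; `univ_unique`), `W = FF om` (`FF_meas`, `FF_kk`, positive because `φ'(i)`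
is not zero; integrable: `int_kap`). For `f : C(M, ℝ)` the function `f (φ i) * FF om φ` is
`FF (om.mulF f)`, and its integral is `cur μ (om.mulF f)` (`cur_FF`). -/
theorem not_exc {F : Foliation E M} {om : Form E M} (hom : om.Pos) {μ : Measure C(ℍ, M)}
    [IsProbabilityMeasure μ] (hX : ∀ᵐ φ : C(ℍ, M) ∂μ, IsUniv F φ)
    (hH : IsHarm (pre M) μ) (hE : IsExt (pre M) μ)
    (hi : Integrable (fun φ : C(ℍ, M) => om.val (vel φ UpperHalfPlane.I)) μ)
    (hc : ∀ θ : Form E M, Tendsto (fun S : ℝ => 1 / S * ∫ R in (0 : ℝ)..S, ∫ φ : C(ℍ, M),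
      |bav (pre M) R (FF θ) φ / bav (pre M) R (FF om) φ - cur μ θ / cur μ om| ∂μ) atTop (𝓝 0)) :
    ¬ IsExc (pre M) μ := by
  intro hExc
  have hpc := polC E M
  have hpm := polM E M
  obtain ⟨m, hm, hp, hk, hEr⟩ := exists_lift (pre M) hH hE
  subst hk
  have hnE : ¬ IsNErg (pre M) m := exc_not_nerg (pre M) hp hExc
  have hHol : ∀ᵐ φ : C(ℍ, M) ∂(kap (pre M) m), Hol E φ := hX.mono fun φ h => h.1.1
  have hU : ∀ᵐ φ : C(ℍ, M) ∂m, IsUniv F φ :=
    ae_of_kap (pre M) (p := fun φ : C(ℍ, M) => IsUniv F φ) hX fun φ g h => univ_act h g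
  have hmul : ∀ f : C(M, ℝ), FF (om.mulF f) =
      fun φ : C(ℍ, M) => f (φ UpperHalfPlane.I) * FF om φ := by
    intro f
    funext φ
    unfold FF
    by_cases h : Hol E φ
    · rw [if_pos h, if_pos h]
      rfl
    · rw [if_neg h, if_neg h, mul_zero]
  refine no_conv (pre M) hp hEr hnE (e := fun φ : C(ℍ, M) => φ UpperHalfPlane.I)
    (continuous_eval_const _) (fun φ t => ?_) hU (fun φ φ' h h' he => ?_) (FF_meas om) (FF_kk om)
    (fun φ => ?_) ?_ ((int_kap (pre M) (FF_meas om) (FF_kk om)).1.1 (FF_int hHol hi))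
    fun f => ?_
  · show φ (kk t • UpperHalfPlane.I) = φ UpperHalfPlane.I
    rw [kk_smul]
  · obtain ⟨t, ht⟩ := univ_unique h h' he.symm
    exact ⟨t, ContinuousMap.ext ht⟩
  · unfold FF
    split_ifs with h
    · by_cases h0 : (vel (E := E) φ UpperHalfPlane.I).2 = 0
      · have h1 : vel (E := E) φ UpperHalfPlane.I = ⟨φ UpperHalfPlane.I, 0⟩ :=
          congrArg (fun v => (⟨φ UpperHalfPlane.I, v⟩ : TB E M)) h0
        rw [h1, val_zero]
      · exact (hom _ _ h0).le
    · exact le_rfl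
  · filter_upwards [hU] with φ h
    unfold FF
    rw [if_pos h.1.1]
    exact hom _ _ (h.2.1 UpperHalfPlane.I)
  · have h1 := hc (om.mulF f)
    rw [cur_FF hHol, cur_FF hHol, hmul f] at h1
    exact h1

end Pool.Agent.MP27775c.DO
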