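import Pool.Agent.Lib.MP_27775c_an_DO.Fin
import Pool.Agent.Lib.MP_27775c_an_DO.Hl

/-!
# MP_27775c_an, project DO: the equivalence
-/

set_option autoImplicit false

open MeasureTheory Set Filter Topology
open scoped Manifold ContDiff UpperHalfPlane

namespace Pool.Agent.MP27775c.DO

variable {E : Type*} [NormedAddCommGroup E] [NormedSpace ℂ E] [FiniteDimensional ℂ E]
  {M : Type*} [TopologicalSpace M] [ChartedSpace E M]
  [IsManifold 𝓘(ℂ, E) 1 M] [CompactSpace M] [T2Space M] [MeasurableSpace M] [BorelSpace M]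
  [MeasurableSpace C(ℍ, M)] [BorelSpace C(ℍ, M)]

theorem main_iff (F : Foliation E M) {om : Form E M} (hom : om.Pos) {μ : Measure C(ℍ, M)}
    [IsProbabilityMeasure μ] (hX : ∀ᵐ φ : C(ℍ, M) ∂μ, IsUniv F φ)
    (hH : IsHarm (pre M) μ) (hE : IsExt (pre M) μ)
    (hi : Integrable (fun φ : C(ℍ, M) => om.val (vel φ UpperHalfPlane.I)) μ) :
    (¬ IsExc (pre M) μ ↔
      ∀ᵐ a ∂(μ.map fun φ : C(ℍ, M) => φ UpperHalfPlane.I), ∃ D, DensOne D ∧
        ∀ φ : ℍ → M, IsUniv F φ → φ UpperHalfPlane.I = a → ∀ θ : Form E M,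
          Tendsto (sigma om θ φ) (atTop ⊓ 𝓟 D) (𝓝 (cur μ θ / cur μ om))) ∧
    (¬ IsExc (pre M) μ ↔ ∀ θ : Form E M, Tendsto (fun R : ℝ =>
      ∫ φ : C(ℍ, M), |sigma om θ φ R - cur μ θ / cur μ om| ∂μ) atTop (𝓝 0)) := by
  have hμ : ∀ᵐ φ : C(ℍ, M) ∂μ, Hol E φ := by
    filter_upwards [hX] with φ hφ using hφ.1.1
  refine ⟨⟨fun hP => (main F hom hX hH hE hi hP).1, fun h => ?_⟩,
    ⟨fun hP => (main F hom hX hH hE hi hP).2, fun h => ?_⟩⟩
  · refine not_exc hom hX hH hE hi fun θ => cesaro_of_ae hom hμ θ ?_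
    have hev : Continuous fun φ : C(ℍ, M) => φ UpperHalfPlane.I := continuous_eval_const _
    have h1 := ae_of_ae_map hev.measurable.aemeasurable h
    filter_upwards [h1, hX] with φ h2 h3
    obtain ⟨D, hD, h4⟩ := h2
    exact ⟨D, hD, h4 φ h3 rfl θ⟩
  · exact not_exc hom hX hH hE hi fun θ => cesaro_of_L1 hom hμ θ (h θ)

end Pool.Agent.MP27775c.DO
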