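import Pool.Agent.Lib.MP_27775c_an_DO.Act

/-!
# MP_27775c_an, project DO, module KapA: averages over the rotations
-/

set_option autoImplicit false

open MeasureTheory Set Filter Topology

namespace Pool.Agent.MP27775c.DO

instance circ_prob : IsProbabilityMeasure circ := by
  refine ⟨?_⟩
  have h : 1 / (2 * Real.pi) * (2 * Real.pi) = 1 := by
    have := Real.pi_ne_zero
    field_simp
  rw [circ, Measure.smul_apply, Measure.restrict_apply_univ, Real.volume_Ioc, sub_zero,
    smul_eq_mul, ← ENNReal.ofReal_mul (by positivity), h, ENNReal.ofReal_one]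

theorem integral_circ (f : ℝ → ℝ) :
    ∫ θ, f θ ∂circ = 1 / (2 * Real.pi) * ∫ θ in (0 : ℝ)..(2 * Real.pi), f θ := by
  rw [circ, integral_smul_measure, ENNReal.toReal_ofReal (by positivity), smul_eq_mul,
    intervalIntegral.integral_of_le (by positivity)]

/-- Proof: `Function.Periodic.intervalIntegral_add_eq`. -/
theorem circ_shift {f : ℝ → ℝ} (hf : Function.Periodic f (2 * Real.pi)) (a : ℝ) :
    ∫ θ, f (θ + a) ∂circ = ∫ θ, f θ ∂circ := by
  rw [integral_circ, integral_circ, intervalIntegral.integral_comp_add_right]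
  congr 1
  have h := hf.intervalIntegral_add_eq a 0
  rw [zero_add] at h ⊢
  rw [← h, add_comm a]

variable {Y : Type*} [TopologicalSpace Y] [PolishSpace Y] [MeasurableSpace Y] [BorelSpace Y]
  (A : RAct Y)

private theorem meas_kk : Measurable fun p : Y × ℝ => A.act p.1 (kk p.2) :=
  meas_joint A continuous_kk

theorem kap_prob (m : Measure Y) [IsProbabilityMeasure m] :
    IsProbabilityMeasure (kap A m) := by
  exact Measure.isProbabilityMeasure_map (meas_kk A).aemeasurable

/-- Proof: `integral_map` and Fubini (`meas_joint` for the joint measurability). -/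
theorem integral_kap (m : Measure Y) [IsProbabilityMeasure m] {F : Y → ℝ} (hF : Measurable F)
    (hb : ∃ C, ∀ y, |F y| ≤ C) :
    ∫ y, F y ∂(kap A m) = ∫ θ, ∫ y, F (A.act y (kk θ)) ∂m ∂circ := by
  obtain ⟨C, hC⟩ := hb
  rw [kap, integral_map (meas_kk A).aemeasurable hF.aestronglyMeasurable]
  exact integral_prod_symm _ (Integrable.of_bound (hF.comp (meas_kk A)).aestronglyMeasurable C
    (Eventually.of_forall fun p => hC _))

theorem lintegral_kap (m : Measure Y) [IsProbabilityMeasure m] {F : Y → ENNReal}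
    (hF : Measurable F) :
    ∫⁻ y, F y ∂(kap A m) = ∫⁻ θ, ∫⁻ y, F (A.act y (kk θ)) ∂m ∂circ := by
  rw [kap, lintegral_map hF (meas_kk A)]
  exact lintegral_prod_symm' _ (hF.comp (meas_kk A))

omit [PolishSpace Y] [MeasurableSpace Y] [BorelSpace Y] in
private theorem bcf_bdd (F : BoundedContinuousFunction Y ℝ) : ∃ C, ∀ y, |F y| ≤ C :=
  ⟨‖F‖, fun y => F.norm_coe_le_norm y⟩

omit [PolishSpace Y] [BorelSpace Y] in
private theorem per (m : Measure Y) (F : Y → ℝ) :
    Function.Periodic (fun θ => ∫ y, F (A.act y (kk θ)) ∂m) (2 * Real.pi) := by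
  intro θ
  simp only [kk_periodic θ]

/-- The average over the rotations is invariant under the rotations. Proof: `ext_bcf`,
`integral_kap`, `kk_add`, `circ_shift`. -/
theorem kap_tr (m : Measure Y) [IsProbabilityMeasure m] (θ : ℝ) :
    tr A (kap A m) (kk θ) = kap A m := by
  have := kap_prob A m
  have := tr_prob A (kap A m) (kk θ)
  refine ext_bcf fun F => ?_
  obtain ⟨C, hC⟩ := bcf_bdd F
  rw [integral_tr, integral_kap A m (F := fun y => F (A.act y (kk θ)))
    (F.continuous.measurable.comp (meas_act A _)) ⟨C, fun y => hC _⟩,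
    integral_kap A m F.continuous.measurable ⟨C, hC⟩, ← circ_shift (per A m F) θ]
  simp only [kk_add, A.act_mul]

theorem kap_of_inv (m : Measure Y) [IsProbabilityMeasure m] (h : ∀ θ, tr A m (kk θ) = m) :
    kap A m = m := by
  have := kap_prob A m
  refine ext_bcf fun F => ?_
  rw [integral_kap A m F.continuous.measurable (bcf_bdd F)]
  have h1 : ∀ θ : ℝ, ∫ y, F (A.act y (kk θ)) ∂m = ∫ y, F y ∂m := by
    intro θ
    rw [← integral_tr, h θ]
  simp only [h1, integral_const, probReal_univ, one_smul]

theorem kap_tr_kk (m : Measure Y) [IsProbabilityMeasure m] (θ : ℝ) :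
    kap A (tr A m (kk θ)) = kap A m := by
  have := tr_prob A m (kk θ)
  have := kap_prob A m
  have := kap_prob A (tr A m (kk θ))
  refine ext_bcf fun F => ?_
  rw [integral_kap A m F.continuous.measurable (bcf_bdd F),
    integral_kap A _ F.continuous.measurable (bcf_bdd F), ← circ_shift (per A m F) θ]
  congr 1
  funext θ'
  rw [integral_tr]
  simp only [← A.act_mul, ← kk_add, add_comm θ]

theorem kap_comb (m₁ m₂ : Measure Y) [IsProbabilityMeasure m₁] [IsProbabilityMeasure m₂]
    {c d : ENNReal} (hc : c ≠ ⊤) (hd : d ≠ ⊤) :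
    kap A (c • m₁ + d • m₂) = c • kap A m₁ + d • kap A m₂ := by
  have := Measure.smul_finite m₁ hc
  have := Measure.smul_finite m₂ hd
  unfold kap
  rw [Measure.add_prod, Measure.prod_smul_left, Measure.prod_smul_left,
    Measure.map_add _ _ (meas_kk A), Measure.map_smul, Measure.map_smul]

end Pool.Agent.MP27775c.DO
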