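import Pool.Agent.Lib.MP_27775c_an_DO.Ball

/-!
# MP_27775c_an, project DO, module LA: integrability on discs
-/

set_option autoImplicit false

open MeasureTheory Set Filter Topology
open scoped ENNReal

namespace Pool.Agent.MP27775c.DO

variable {Y : Type*} [TopologicalSpace Y] [PolishSpace Y] [MeasurableSpace Y] [BorelSpace Y]
  (A : RAct Y)

/-- For almost every point the function is integrable on all discs. Proof: `lint_bavE` for
`u = ‖F‖ₑ` and integer radii. -/
theorem int_disc {m : Measure Y} [IsProbabilityMeasure m] (h : IsPInv A m) {F : Y → ℝ}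
    (hF : Measurable F) (hi : Integrable F m) :
    ∀ᵐ y ∂m, ∀ R : ℝ, IntegrableOn (fun z => F (A.act y (pp z)))
      (Metric.ball UpperHalfPlane.I R) := by
  have hu : Measurable fun y => ‖F y‖ₑ := hF.enorm
  have h1 : ∀ n : ℕ, ∀ᵐ y ∂m, bavE A ((n : ℝ) + 1) (fun y => ‖F y‖ₑ) y < ⊤ := by
    intro n
    have hn : (0 : ℝ) < (n : ℝ) + 1 := by positivity
    have h2 := lint_bavE A h hn hu
    have h3 : Measurable fun y => bavE A ((n : ℝ) + 1) (fun y => ‖F y‖ₑ) y :=
      (bavE_meas A hu).comp measurable_prodMk_left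
    refine ae_lt_top h3 ?_
    rw [h2]
    exact hi.2.ne
  filter_upwards [ae_all_iff.2 h1] with y hy R
  obtain ⟨n, hn⟩ := exists_nat_ge R
  have hn0 : (0 : ℝ) < (n : ℝ) + 1 := by positivity
  refine IntegrableOn.mono_set (t := Metric.ball UpperHalfPlane.I ((n : ℝ) + 1)) ?_
    (Metric.ball_subset_ball (by linarith))
  have h4 : Measurable fun z : UpperHalfPlane => F (A.act y (pp z)) :=
    hF.comp ((meas_joint A continuous_pp).comp measurable_prodMk_left)
  refine ⟨h4.aestronglyMeasurable, ?_⟩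
  have h5 : ∫⁻ z in Metric.ball UpperHalfPlane.I ((n : ℝ) + 1), ‖F (A.act y (pp z))‖ₑ ≠ ⊤ := by
    intro h6
    have h7 := hy n
    unfold bavE at h7
    rw [h6, ENNReal.top_div_of_ne_top] at h7
    · exact lt_irrefl _ h7
    · rw [vol_ball hn0]
      exact ENNReal.ofReal_ne_top
  exact lt_top_iff_ne_top.2 h5

end Pool.Agent.MP27775c.DO
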