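import Mathlib

/-!
# MP_27775c_an, project DO, module Sub: shifts are negligible in logarithmic averages
-/

set_option autoImplicit false

open MeasureTheory Set Filter Topology

namespace Pool.Agent.MP27775c.DO

private theorem ls_pos {c r0 r : ℝ} (h0 : 2 * |c| ≤ Real.exp r0) (hr : r0 ≤ r) :
    Real.exp r / 2 ≤ Real.exp r + c ∧ Real.exp r + c ≤ 2 * Real.exp r := by
  have h1 : Real.exp r0 ≤ Real.exp r := Real.exp_le_exp.2 hr
  have h2 := neg_abs_le c
  have h3 := le_abs_self c
  have h4 := Real.exp_pos r
  constructor <;> linarith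

private theorem ls_dist {c r0 r : ℝ} (h0 : 2 * |c| ≤ Real.exp r0) (hr : r0 ≤ r) :
    |Real.log (Real.exp r + c) - r| ≤ 1 := by
  obtain ⟨h1, h2⟩ := ls_pos h0 hr
  have h4 := Real.exp_pos r
  have h5 : 0 < Real.exp r + c := by linarith
  have h6 : Real.log (Real.exp r + c) ≤ Real.log 2 + r := by
    rw [← Real.log_exp r, ← Real.log_mul (by norm_num) (Real.exp_pos _).ne', Real.log_exp]
    exact Real.log_le_log h5 h2
  have h7 : r - Real.log 2 ≤ Real.log (Real.exp r + c) := by
    have := Real.log_le_log (by positivity) h1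
    rwa [Real.log_div (Real.exp_pos _).ne' (by norm_num), Real.log_exp] at this
  have h8 : Real.log 2 ≤ 1 := by
    have := Real.log_two_lt_d9
    linarith
  rw [abs_le]
  constructor <;> linarith

private theorem ls_int {h : ℝ → ℝ} (hm : Measurable h) {C : ℝ} (hC : ∀ r, |h r| ≤ C) (a b : ℝ) :
    IntervalIntegrable h volume a b := by
  rw [intervalIntegrable_iff]
  refine Measure.integrableOn_of_bounded (M := C) ?_ hm.aestronglyMeasurable ?_
  · rw [Set.uIoc, Real.volume_Ioc]; exact ENNReal.ofReal_ne_top
  · exact Filter.Eventually.of_forall fun x => hC x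

private theorem ls_bd {h : ℝ → ℝ} {C : ℝ} (hC : ∀ r, |h r| ≤ C) (a b : ℝ) :
    |∫ r in a..b, h r| ≤ C * |b - a| := by
  have := intervalIntegral.norm_integral_le_of_norm_le_const (a := a) (b := b) (C := C)
    (f := h) fun x _ => hC x
  simpa using this

private theorem ls_subst {h : ℝ → ℝ} {c r0 n : ℝ} (h0 : 2 * |c| ≤ Real.exp r0) (hn : r0 ≤ n) :
    ∫ r in r0..n, Real.exp r / (Real.exp r + c) * h (Real.log (Real.exp r + c)) =
      ∫ u in (Real.log (Real.exp r0 + c))..(Real.log (Real.exp n + c)), h u := by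
  set f : ℝ → ℝ := fun r => Real.log (Real.exp r + c) with hf
  have hpos : ∀ r ∈ Icc r0 n, 0 < Real.exp r + c := fun r hr => by
    have := (ls_pos h0 hr.1).1
    have := Real.exp_pos r
    linarith
  have hder : ∀ r ∈ Icc r0 n,
      HasDerivWithinAt f (Real.exp r / (Real.exp r + c)) (Icc r0 n) r := fun r hr =>
    (((Real.hasDerivAt_exp r).add_const c).log (hpos r hr).ne').hasDerivWithinAt
  have hinj : InjOn f (Icc r0 n) := by
    intro r hr r' hr' he
    have := Real.log_injOn_pos (hpos r hr) (hpos r' hr') he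
    exact Real.exp_injective (by linarith)
  have himg : f '' Icc r0 n = Icc (f r0) (f n) := by
    ext u
    constructor
    · rintro ⟨r, hr, rfl⟩
      have h1 := hpos r0 ⟨le_rfl, hn⟩
      refine ⟨Real.log_le_log h1 ?_, Real.log_le_log (hpos r hr) ?_⟩
      · have := Real.exp_le_exp.2 hr.1
        linarith
      · have := Real.exp_le_exp.2 hr.2
        linarith
    · rintro ⟨h1, h2⟩
      have h3 : Real.exp r0 + c ≤ Real.exp u := by
        have := Real.exp_le_exp.2 h1
        rwa [hf, Real.exp_log (hpos r0 ⟨le_rfl, hn⟩)] at this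
      have h4 : Real.exp u ≤ Real.exp n + c := by
        have := Real.exp_le_exp.2 h2
        rwa [hf, Real.exp_log (hpos n ⟨hn, le_rfl⟩)] at this
      have h5 := Real.exp_pos r0
      have h6 : 0 < Real.exp u - c := by linarith
      refine ⟨Real.log (Real.exp u - c), ⟨?_, ?_⟩, ?_⟩
      · rw [Real.le_log_iff_exp_le h6]; linarith
      · rw [Real.log_le_iff_le_exp h6]; linarith
      · show Real.log (Real.exp (Real.log (Real.exp u - c)) + c) = u
        rw [Real.exp_log h6, sub_add_cancel, Real.log_exp]
  have hle : f r0 ≤ f n := by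
    have : f r0 ∈ Icc (f r0) (f n) := by
      rw [← himg]
      exact ⟨r0, ⟨le_rfl, hn⟩, rfl⟩
    exact this.2
  have key := integral_image_eq_integral_abs_deriv_smul measurableSet_Icc hder hinj h
  rw [himg, integral_Icc_eq_integral_Ioc, ← intervalIntegral.integral_of_le hle,
    integral_Icc_eq_integral_Ioc, ← intervalIntegral.integral_of_le hn] at key
  rw [key]
  refine intervalIntegral.integral_congr fun r hr => ?_
  rw [uIcc_of_le hn] at hr
  show Real.exp r / (Real.exp r + c) * h (f r) = |Real.exp r / (Real.exp r + c)| • h (f r)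
  rw [abs_of_nonneg (div_nonneg (Real.exp_pos r).le (hpos r hr).le), smul_eq_mul]

private theorem ls_key {h : ℝ → ℝ} (hm : Measurable h) {C : ℝ} (hC : ∀ r, |h r| ≤ C)
    {c r0 n : ℝ} (h0 : 2 * |c| ≤ Real.exp r0) (hn : r0 ≤ n) :
    |(∫ r in r0..n, h (Real.log (Real.exp r + c))) - ∫ r in r0..n, h r| ≤ 3 * C := by
  have hC0 : 0 ≤ C := (abs_nonneg _).trans (hC 0)
  have hmc : Measurable fun r => h (Real.log (Real.exp r + c)) :=
    hm.comp (Real.measurable_log.comp (Real.measurable_exp.add_const c))
  have hpos : ∀ r, r0 ≤ r → 0 < Real.exp r + c := fun r hr => by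
    have := (ls_pos h0 hr).1
    have := Real.exp_pos r
    linarith
  set w : ℝ → ℝ := fun r => c / (Real.exp r + c) * h (Real.log (Real.exp r + c)) with hw
  have hmw : Measurable w :=
    (measurable_const.div (Real.measurable_exp.add_const c)).mul hmc
  have hwb : ∀ r, r0 ≤ r → |w r| ≤ C * (2 * |c| * Real.exp (-r)) := by
    intro r hr
    have h1 := (ls_pos h0 hr).1
    have h2 := hpos r hr
    have h3 := Real.exp_pos r
    rw [hw]
    show |c / (Real.exp r + c) * h (Real.log (Real.exp r + c))| ≤ _
    rw [abs_mul, abs_div, abs_of_pos h2, mul_comm]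
    refine mul_le_mul (hC _) ?_ (by positivity) hC0
    rw [div_le_iff₀ h2, Real.exp_neg]
    have h4 : (Real.exp r)⁻¹ * (Real.exp r / 2) ≤ (Real.exp r)⁻¹ * (Real.exp r + c) :=
      mul_le_mul_of_nonneg_left h1 (by positivity)
    have h5 : (Real.exp r)⁻¹ * (Real.exp r / 2) = 1 / 2 := by field_simp
    nlinarith [abs_nonneg c]
  have hint1 : ∫ r in r0..n, h (Real.log (Real.exp r + c)) =
      (∫ r in r0..n, Real.exp r / (Real.exp r + c) * h (Real.log (Real.exp r + c))) +
        ∫ r in r0..n, w r := by
    have hwi : IntervalIntegrable w volume r0 n := by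
      rw [intervalIntegrable_iff, uIoc_of_le hn]
      refine Measure.integrableOn_of_bounded (M := C * (2 * |c| * Real.exp (-r0)))
        (by rw [Real.volume_Ioc]; exact ENNReal.ofReal_ne_top) hmw.aestronglyMeasurable ?_
      filter_upwards [ae_restrict_mem measurableSet_Ioc] with r hr
      refine (hwb r hr.1.le).trans ?_
      have : Real.exp (-r) ≤ Real.exp (-r0) := Real.exp_le_exp.2 (by linarith [hr.1])
      exact mul_le_mul_of_nonneg_left (mul_le_mul_of_nonneg_left this (by positivity)) hC0
    have hhi := ls_int hmc (fun r => hC _) r0 n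
    have h1 : ∫ r in r0..n, Real.exp r / (Real.exp r + c) * h (Real.log (Real.exp r + c)) =
        ∫ r in r0..n, (h (Real.log (Real.exp r + c)) - w r) := by
      refine intervalIntegral.integral_congr fun r hr => ?_
      rw [uIcc_of_le hn] at hr
      have h2 := (hpos r hr.1).ne'
      show Real.exp r / (Real.exp r + c) * h (Real.log (Real.exp r + c)) =
        h (Real.log (Real.exp r + c)) - c / (Real.exp r + c) * h (Real.log (Real.exp r + c))
      field_simp
      ring
    rw [h1, intervalIntegral.integral_sub hhi hwi, sub_add_cancel]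
  rw [hint1, ls_subst h0 hn]
  have hA : |∫ r in r0..n, w r| ≤ C := by
    have h1 : ‖∫ r in r0..n, w r‖ ≤ ∫ r in r0..n, C * (2 * |c| * Real.exp (-r)) := by
      refine intervalIntegral.norm_integral_le_of_norm_le hn ?_ ?_
      · filter_upwards with r hr using hwb r hr.1.le
      · exact (continuous_const.mul (continuous_const.mul
          (Real.continuous_exp.comp continuous_neg))).intervalIntegrable _ _
    have h2 : ∫ r in r0..n, C * (2 * |c| * Real.exp (-r)) =
        C * (2 * |c| * (Real.exp (-r0) - Real.exp (-n))) := by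
      rw [intervalIntegral.integral_const_mul, intervalIntegral.integral_const_mul,
        intervalIntegral.integral_comp_neg (fun x => Real.exp x), integral_exp]
    rw [h2] at h1
    refine h1.trans ?_
    have h3 : 2 * |c| * (Real.exp (-r0) - Real.exp (-n)) ≤ 1 := by
      have h4 := Real.exp_pos (-n)
      have h5 : 2 * |c| * Real.exp (-r0) ≤ Real.exp r0 * Real.exp (-r0) :=
        mul_le_mul_of_nonneg_right h0 (Real.exp_pos _).le
      rw [← Real.exp_add, add_neg_cancel, Real.exp_zero] at h5
      nlinarith [abs_nonneg c]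
    calc C * (2 * |c| * (Real.exp (-r0) - Real.exp (-n))) ≤ C * 1 :=
          mul_le_mul_of_nonneg_left h3 hC0
      _ = C := mul_one C
  have hB : (∫ u in (Real.log (Real.exp r0 + c))..(Real.log (Real.exp n + c)), h u) -
      ∫ r in r0..n, h r = (∫ u in (Real.log (Real.exp r0 + c))..r0, h u) +
        ∫ u in n..(Real.log (Real.exp n + c)), h u := by
    have i1 := ls_int hm hC (Real.log (Real.exp r0 + c)) r0
    have i2 := ls_int hm hC r0 n
    have i3 := ls_int hm hC n (Real.log (Real.exp n + c))
    rw [← intervalIntegral.integral_add_adjacent_intervals (i1.trans i2) i3,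
      ← intervalIntegral.integral_add_adjacent_intervals i1 i2]
    ring
  have hB1 : |∫ u in (Real.log (Real.exp r0 + c))..r0, h u| ≤ C := by
    refine (ls_bd hC _ _).trans ?_
    have := ls_dist h0 (le_refl r0)
    rw [abs_sub_comm]
    calc C * |Real.log (Real.exp r0 + c) - r0| ≤ C * 1 := mul_le_mul_of_nonneg_left this hC0
      _ = C := mul_one C
  have hB2 : |∫ u in n..(Real.log (Real.exp n + c)), h u| ≤ C := by
    refine (ls_bd hC _ _).trans ?_
    have := ls_dist h0 hn
    calc C * |Real.log (Real.exp n + c) - n| ≤ C * 1 := mul_le_mul_of_nonneg_left this hC0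
      _ = C := mul_one C
  have hfin : (∫ u in (Real.log (Real.exp r0 + c))..(Real.log (Real.exp n + c)), h u) +
      (∫ r in r0..n, w r) - ∫ r in r0..n, h r =
      (∫ u in (Real.log (Real.exp r0 + c))..r0, h u) +
        (∫ u in n..(Real.log (Real.exp n + c)), h u) + ∫ r in r0..n, w r := by
    rw [← hB]; ring
  rw [hfin]
  calc _ ≤ |(∫ u in (Real.log (Real.exp r0 + c))..r0, h u) +
        (∫ u in n..(Real.log (Real.exp n + c)), h u)| + |∫ r in r0..n, w r| := abs_add_le _ _
    _ ≤ |∫ u in (Real.log (Real.exp r0 + c))..r0, h u| +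
        |∫ u in n..(Real.log (Real.exp n + c)), h u| + |∫ r in r0..n, w r| := by
        have := abs_add_le (∫ u in (Real.log (Real.exp r0 + c))..r0, h u)
          (∫ u in n..(Real.log (Real.exp n + c)), h u)
        linarith
    _ ≤ 3 * C := by linarith

/-- Proof. Let `C` bound `|q|`, let `τ > 0` (for `τ < 0` replace `q` by `q (-·)`, `s` by `-s`),
`r₀ ≥ 0`
with `τ exp r₀ ≥ 2 |s| + 1`. The part of the integral over `[0, r₀]` is bounded. Substitute
`v = τ exp r` (`intervalIntegral.integral_comp_mul_deriv'''` or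
`MeasureTheory.integral_image_eq_integral_abs_deriv_smul`): with `a = τ exp r₀`, `b = τ exp n`
`∫ r in r₀..n, q (τ exp r) = ∫ v in a..b, q v / v` and
`∫ r in r₀..n, q (τ exp r + s) = ∫ v in a..b, q (v + s) / v = ∫ v in (a+s)..(b+s), q v / (v - s)`.
The difference is bounded by `C` times `∫_a^∞ |1 / v - 1 / (v - s)| dv ≤ ∫_a^∞ 2 |s| / v ^ 2 dv`
plus the
integrals over the two end intervals of length `|s|`, where the integrands are at most `2 C`.
So the integral is bounded in `n`, and it is divided by `n`. -/
theorem log_shift {q : ℝ → ℝ} (hq : Measurable q) (hb : ∃ C, ∀ x, |q x| ≤ C) {τ : ℝ}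
    (hτ : τ ≠ 0) (s : ℝ) :
    Tendsto (fun n : ℕ => 1 / (n : ℝ) *
      ∫ r in (0 : ℝ)..n, (q (τ * Real.exp r + s) - q (τ * Real.exp r))) atTop (𝓝 0) := by
  obtain ⟨C, hC⟩ := hb
  have hC0 : 0 ≤ C := (abs_nonneg _).trans (hC 0)
  have hm1 : Measurable fun r => q (τ * Real.exp r + s) :=
    hq.comp ((Real.measurable_exp.const_mul τ).add_const s)
  have hm2 : Measurable fun r => q (τ * Real.exp r) := hq.comp (Real.measurable_exp.const_mul τ)
  obtain ⟨N, hN⟩ := exists_nat_ge (2 * |s / τ|)
  have h0 : 2 * |s / τ| ≤ Real.exp (N : ℝ) := by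
    have := Real.add_one_le_exp (N : ℝ)
    linarith
  have hbound : ∀ n : ℕ, N ≤ n →
      |∫ r in (0 : ℝ)..n, (q (τ * Real.exp r + s) - q (τ * Real.exp r))| ≤ 2 * C * N + 3 * C := by
    intro n hn
    have hn' : (N : ℝ) ≤ n := by exact_mod_cast hn
    have i1 : ∀ a b, IntervalIntegrable (fun r => q (τ * Real.exp r + s)) volume a b :=
      ls_int hm1 fun r => hC _
    have i2 : ∀ a b, IntervalIntegrable (fun r => q (τ * Real.exp r)) volume a b :=
      ls_int hm2 fun r => hC _
    rw [← intervalIntegral.integral_add_adjacent_intervals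
      ((i1 0 (N : ℝ)).sub (i2 0 (N : ℝ))) ((i1 (N : ℝ) n).sub (i2 (N : ℝ) n))]
    refine (abs_add_le _ _).trans (add_le_add ?_ ?_)
    · have := ls_bd (h := fun r => q (τ * Real.exp r + s) - q (τ * Real.exp r)) (C := 2 * C)
        (fun r => by
          refine (abs_sub _ _).trans ?_
          have h1 := hC (τ * Real.exp r + s)
          have h2 := hC (τ * Real.exp r)
          linarith) 0 (N : ℝ)
      rw [sub_zero, abs_of_nonneg (show (0 : ℝ) ≤ N from Nat.cast_nonneg N)] at this
      exact this
    · rw [intervalIntegral.integral_sub (i1 _ _) (i2 _ _)]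
      have h3 := ls_key hm2 (fun r => hC _) h0 hn'
      have h4 : ∫ r in (N : ℝ)..n, q (τ * Real.exp r + s) =
          ∫ r in (N : ℝ)..n, q (τ * Real.exp (Real.log (Real.exp r + s / τ))) := by
        refine intervalIntegral.integral_congr fun r hr => ?_
        rw [uIcc_of_le hn'] at hr
        have h5 := (ls_pos h0 hr.1).1
        have h6 := Real.exp_pos r
        show q (τ * Real.exp r + s) = q (τ * Real.exp (Real.log (Real.exp r + s / τ)))
        rw [Real.exp_log (by linarith)]
        congr 1
        field_simp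
      rw [h4]
      exact h3
  have hlim : Tendsto (fun n : ℕ => (2 * C * N + 3 * C) / (n : ℝ)) atTop (𝓝 0) :=
    tendsto_const_div_atTop_nhds_zero_nat _
  refine squeeze_zero_norm' ?_ hlim
  filter_upwards [eventually_ge_atTop N] with n hn
  rw [Real.norm_eq_abs, abs_mul, abs_div, abs_one, Nat.abs_cast, one_div, mul_comm,
    ← div_eq_mul_inv]
  exact div_le_div_of_nonneg_right (hbound n hn) (Nat.cast_nonneg n)

end Pool.Agent.MP27775c.DO
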