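import Pool.Agent.Lib.MP_27775c_an_DO.Lim
import Pool.Agent.Lib.MP_27775c_an_DO.Sub

/-!
# MP_27775c_an, project DO, module LiA: invariance of the limit under the diagonal matrices
-/

set_option autoImplicit false

open MeasureTheory Set Filter Topology

namespace Pool.Agent.MP27775c.DO

variable {Y : Type*} [TopologicalSpace Y] [PolishSpace Y] [MeasurableSpace Y] [BorelSpace Y]
  (A : RAct Y)

private theorem liA_cont (μ : Measure Y) [IsProbabilityMeasure μ]
    (F : BoundedContinuousFunction Y ℝ) :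
    Continuous fun r : ℝ => ∫ y, F (A.act y (aa (-r))) ∂μ := by
  refine continuous_of_dominated (bound := fun _ => ‖F‖) ?_ ?_ (integrable_const _) ?_
  · exact fun r => (F.continuous.comp (cont_act A _)).measurable.aestronglyMeasurable
  · exact fun r => Filter.Eventually.of_forall fun y => F.norm_coe_le_norm _
  · refine Filter.Eventually.of_forall fun y => ?_
    have h1 : Continuous fun r : ℝ => (y, aa (-r)) :=
      continuous_const.prodMk (continuous_aa.comp continuous_neg)
    exact F.continuous.comp (A.cont.comp h1)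

private theorem liA_bd (μ : Measure Y) [IsProbabilityMeasure μ]
    (F : BoundedContinuousFunction Y ℝ) (r : ℝ) :
    ‖∫ y, F (A.act y (aa (-r))) ∂μ‖ ≤ ‖F‖ := by
  have h := norm_integral_le_of_norm_le_const (μ := μ) (f := fun y => F (A.act y (aa (-r))))
    (C := ‖F‖) (Filter.Eventually.of_forall fun y => F.norm_coe_le_norm _)
  simpa using h

/-- The limit is invariant under the diagonal matrices.

Proof. `ext_bcf`, `integral_tr`: for bounded continuous `F`, `F' y = F (y · aa t)` is bounded
continuous, and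
`cesa A μ n F' - cesa A μ n F` is `1 / n` times the difference of the integrals over `(0, n]` and
its
shift by `-t` (`y · aa (-r) · aa t = y · aa (-(r - t))`), so it is at most `2 |t| ‖F‖ / n`. -/
theorem lim_aa {μ m : Measure Y} [IsProbabilityMeasure μ] [IsProbabilityMeasure m] {n : ℕ → ℕ}
    (hn : StrictMono n) (hF : ∀ F : BoundedContinuousFunction Y ℝ,
      Tendsto (fun j => cesa A μ (n j) F) atTop (𝓝 (∫ y, F y ∂m))) (t : ℝ) :
    tr A m (aa t) = m := by
  have hp : IsProbabilityMeasure (tr A m (aa t)) := tr_prob A m (aa t)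
  refine ext_bcf fun F => ?_
  rw [integral_tr]
  set F' : BoundedContinuousFunction Y ℝ :=
    F.compContinuous ⟨fun y => A.act y (aa t), cont_act A (aa t)⟩ with hF'
  have hval : ∀ y, F' y = F (A.act y (aa t)) := fun y => rfl
  set g : ℝ → ℝ := fun r => ∫ y, F (A.act y (aa (-r))) ∂μ with hg
  have hgc : Continuous g := liA_cont A μ F
  have hgb : ∀ r, ‖g r‖ ≤ ‖F‖ := liA_bd A μ F
  have hshift : ∀ r, ∫ y, F' (A.act y (aa (-r))) ∂μ = g (r - t) := by
    intro r
    rw [hg]
    refine integral_congr_ae (Filter.Eventually.of_forall fun y => ?_)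
    show F' (A.act y (aa (-r))) = F (A.act y (aa (-(r - t))))
    rw [hval, ← A.act_mul, ← aa_add]
    congr 3
    ring
  have hdiff : ∀ k : ℕ, ‖cesa A μ k F' - cesa A μ k F‖ ≤ 2 * |t| * ‖F‖ * (1 / (k : ℝ)) := by
    intro k
    have h1 : cesa A μ k F' = 1 / (k : ℝ) * ∫ r in (0 - t)..((k : ℝ) - t), g r := by
      unfold cesa
      rw [← intervalIntegral.integral_comp_sub_right]
      congr 1
      exact intervalIntegral.integral_congr fun r _ => hshift r
    have h2 : cesa A μ k F = 1 / (k : ℝ) * ∫ r in (0 : ℝ)..k, g r := rfl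
    rw [h1, h2, ← mul_sub, intervalIntegral.integral_interval_sub_interval_comm
      (hgc.intervalIntegrable _ _) (hgc.intervalIntegrable _ _) (hgc.intervalIntegrable _ _)]
    have h3 : ‖∫ r in (0 - t)..0, g r‖ ≤ ‖F‖ * |0 - (0 - t)| :=
      intervalIntegral.norm_integral_le_of_norm_le_const fun x _ => hgb x
    have h4 : ‖∫ r in ((k : ℝ) - t)..k, g r‖ ≤ ‖F‖ * |(k : ℝ) - (k - t)| :=
      intervalIntegral.norm_integral_le_of_norm_le_const fun x _ => hgb x
    have h5 : (0 : ℝ) - (0 - t) = t := by ring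
    have h6 : (k : ℝ) - (k - t) = t := by ring
    rw [h5] at h3
    rw [h6] at h4
    rw [norm_mul, Real.norm_of_nonneg (by positivity : (0 : ℝ) ≤ 1 / (k : ℝ))]
    have h7 := norm_sub_le (∫ r in (0 - t)..0, g r) (∫ r in ((k : ℝ) - t)..k, g r)
    calc 1 / (k : ℝ) * ‖(∫ r in (0 - t)..0, g r) - ∫ r in ((k : ℝ) - t)..k, g r‖
        ≤ 1 / (k : ℝ) * (2 * |t| * ‖F‖) :=
          mul_le_mul_of_nonneg_left (by linarith) (by positivity)
      _ = 2 * |t| * ‖F‖ * (1 / (k : ℝ)) := by ring
  have hzero : Tendsto (fun j => cesa A μ (n j) F' - cesa A μ (n j) F) atTop (𝓝 0) := by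
    refine squeeze_zero_norm (fun j => hdiff (n j)) ?_
    have h1 : Tendsto (fun j => (1 : ℝ) / ((n j : ℕ) : ℝ)) atTop (𝓝 0) :=
      tendsto_one_div_atTop_nhds_zero_nat.comp hn.tendsto_atTop
    simpa using h1.const_mul (2 * |t| * ‖F‖)
  have h1 := (hF F').sub (hF F)
  have h2 := tendsto_nhds_unique h1 hzero
  have h3 : ∫ y, F' y ∂m = ∫ y, F y ∂m := by linarith
  exact h3

end Pool.Agent.MP27775c.DO
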