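import Pool.Agent.Lib.MP_27775c_an_DO.Lim
import Pool.Agent.Lib.MP_27775c_an_DO.Sub

/-!
# MP_27775c_an, project DO, module LiB: the main part
-/

set_option autoImplicit false

open MeasureTheory Set Filter Topology

namespace Pool.Agent.MP27775c.DO

variable {Y : Type*} [TopologicalSpace Y] [PolishSpace Y] [MeasurableSpace Y] [BorelSpace Y]
  (A : RAct Y)

private theorem ae_sin : ∀ᵐ θ ∂circ, Real.sin (2 * θ) ≠ 0 := by
  have h : ∀ᵐ θ ∂(volume : Measure ℝ), θ ∉ Set.range fun k : ℤ => (k : ℝ) * Real.pi / 2 :=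
    (Set.countable_range _).ae_notMem _
  have h2 : ∀ᵐ θ ∂((volume : Measure ℝ).restrict (Ioc 0 (2 * Real.pi))),
      Real.sin (2 * θ) ≠ 0 := by
    refine ae_restrict_of_ae (h.mono fun θ hθ h0 => hθ ?_)
    obtain ⟨k, hk⟩ := Real.sin_eq_zero_iff.1 h0
    exact ⟨k, by simp only [hk]; ring⟩
  exact Measure.ae_smul_measure h2 _

private theorem limit_aux {q : ℝ → ℝ} (hq : Measurable q) {C : ℝ} (hb : ∀ x, |q x| ≤ C) (s : ℝ) :
    Tendsto (fun n : ℕ => 1 / (n : ℝ) * ∫ r in (0 : ℝ)..n, ∫ θ,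
      (q (1 / 2 * Real.exp r * Real.sin (2 * θ) + s) -
        q (1 / 2 * Real.exp r * Real.sin (2 * θ))) ∂circ) atTop (𝓝 0) := by
  set f : ℝ → ℝ → ℝ := fun r θ => q (1 / 2 * Real.exp r * Real.sin (2 * θ) + s) -
    q (1 / 2 * Real.exp r * Real.sin (2 * θ)) with hf
  have hC : 0 ≤ C := (abs_nonneg _).trans (hb 0)
  have hfm : Measurable (Function.uncurry f) := by
    have h1 : Measurable fun p : ℝ × ℝ => 1 / 2 * Real.exp p.1 * Real.sin (2 * p.2) := by
      fun_prop
    exact (hq.comp (h1.add_const s)).sub (hq.comp h1)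
  have hfb : ∀ r θ, ‖f r θ‖ ≤ 2 * C := by
    intro r θ
    rw [Real.norm_eq_abs]
    refine (abs_sub _ _).trans ?_
    linarith [hb (1 / 2 * Real.exp r * Real.sin (2 * θ) + s),
      hb (1 / 2 * Real.exp r * Real.sin (2 * θ))]
  have hswap : ∀ n : ℕ, 1 / (n : ℝ) * ∫ r in (0 : ℝ)..n, ∫ θ, f r θ ∂circ =
      ∫ θ, (1 / (n : ℝ) * ∫ r in (0 : ℝ)..n, f r θ) ∂circ := by
    intro n
    have hn : (0 : ℝ) ≤ n := Nat.cast_nonneg n
    rw [integral_const_mul]
    congr 1
    simp only [intervalIntegral.integral_of_le hn]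
    have : IsFiniteMeasure (volume.restrict (Ioc (0 : ℝ) n)) := ⟨by simp⟩
    have hi : Integrable (Function.uncurry f) ((volume.restrict (Ioc (0 : ℝ) n)).prod circ) :=
      Integrable.of_bound hfm.aestronglyMeasurable (2 * C)
        (Eventually.of_forall fun p => hfb p.1 p.2)
    exact integral_integral_swap hi
  refine Tendsto.congr (fun n => (hswap n).symm) ?_
  have h0 : ∫ _, (0 : ℝ) ∂circ = 0 := integral_zero _ _
  nth_rewrite 2 [← h0]
  refine tendsto_integral_of_dominated_convergence (fun _ => 2 * C) (fun n => ?_)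
    (integrable_const _) (fun n => Eventually.of_forall fun θ => ?_) ?_
  · have hn : (0 : ℝ) ≤ n := Nat.cast_nonneg n
    simp only [intervalIntegral.integral_of_le hn]
    exact ((hfm.stronglyMeasurable.integral_prod_left').const_mul _).aestronglyMeasurable
  · have hn : (0 : ℝ) ≤ n := Nat.cast_nonneg n
    rw [norm_mul, Real.norm_of_nonneg (by positivity : (0 : ℝ) ≤ 1 / (n : ℝ))]
    have h1 : ‖∫ r in (0 : ℝ)..n, f r θ‖ ≤ 2 * C * |(n : ℝ) - 0| :=
      intervalIntegral.norm_integral_le_of_norm_le_const fun r _ => hfb r θ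
    rw [sub_zero, abs_of_nonneg hn] at h1
    rcases hn.eq_or_lt with h2 | h2
    · rw [← h2]
      simp only [div_zero, zero_mul]
      positivity
    · calc 1 / (n : ℝ) * ‖∫ r in (0 : ℝ)..n, f r θ‖ ≤ 1 / (n : ℝ) * (2 * C * n) :=
            mul_le_mul_of_nonneg_left h1 (by positivity)
        _ = 2 * C := by field_simp
  · filter_upwards [ae_sin] with θ hθ
    have h1 := log_shift hq ⟨C, hb⟩ (τ := 1 / 2 * Real.sin (2 * θ))
      (mul_ne_zero (by norm_num) hθ) s
    refine h1.congr fun n => ?_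
    congr 1
    refine intervalIntegral.integral_congr fun r _ => ?_
    have e : 1 / 2 * Real.sin (2 * θ) * Real.exp r = 1 / 2 * Real.exp r * Real.sin (2 * θ) := by
      ring
    simp only [hf, e]

/-- The main part of the invariance under `nn s`.

Proof. Let `q S = ∫ y, F (y · nn S) ∂m`, bounded measurable (Fubini). The left side is the
integral over
`θ` of `1 / n * ∫ r in 0..n, (q (τ * exp r + s) - q (τ * exp r))`, `τ = 1 / 2 * sin (2 θ)`, which
tends to zero for `τ ≠ 0` (`log_shift`), that is for almost all `θ`, and is bounded: dominated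
convergence. -/
theorem main_part (m : Measure Y) [IsProbabilityMeasure m] (F : BoundedContinuousFunction Y ℝ)
    (s : ℝ) :
    Tendsto (fun n : ℕ => 1 / (n : ℝ) * ∫ r in (0 : ℝ)..n, ∫ θ, ∫ y,
      (F (A.act y (nn (1 / 2 * Real.exp r * Real.sin (2 * θ)) * nn s)) -
        F (A.act y (nn (1 / 2 * Real.exp r * Real.sin (2 * θ))))) ∂m ∂circ) atTop (𝓝 0) := by
  have hq0 : StronglyMeasurable fun S : ℝ => ∫ y, F (A.act y (nn S)) ∂m :=
    (F.continuous.measurable.comp
      (meas_joint A continuous_nn)).stronglyMeasurable.integral_prod_left'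
  have hb : ∀ S : ℝ, |∫ y, F (A.act y (nn S)) ∂m| ≤ ‖F‖ := by
    intro S
    have h1 : ‖∫ y, F (A.act y (nn S)) ∂m‖ ≤ ‖F‖ * m.real univ :=
      norm_integral_le_of_norm_le_const (Eventually.of_forall fun y => F.norm_coe_le_norm _)
    rwa [probReal_univ, mul_one] at h1
  have hi : ∀ S : ℝ, Integrable (fun y => F (A.act y (nn S))) m := fun S =>
    Integrable.of_bound (F.continuous.measurable.comp (meas_act A _)).aestronglyMeasurable ‖F‖
      (Eventually.of_forall fun y => F.norm_coe_le_norm _)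
  have h := limit_aux hq0.measurable hb s
  refine h.congr fun n => ?_
  congr 1
  refine intervalIntegral.integral_congr fun r _ => ?_
  refine integral_congr_ae (Eventually.of_forall fun θ => ?_)
  simp only [← nn_add]
  rw [integral_sub (hi _) (hi _)]

end Pool.Agent.MP27775c.DO
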