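import Pool.Agent.Lib.MP_27775c_an_DO.Lim
import Pool.Agent.Lib.MP_27775c_an_DO.Sub

/-!
# MP_27775c_an, project DO, module LiC: removal of the lower triangular matrix
-/

set_option autoImplicit false

open MeasureTheory Set Filter Topology

namespace Pool.Agent.MP27775c.DO

variable {Y : Type*} [TopologicalSpace Y] [PolishSpace Y] [MeasurableSpace Y] [BorelSpace Y]
  (A : RAct Y)

private theorem rem_tan_meas : Measurable Real.tan := by
  have h1 : Real.tan = fun x => Real.sin x / Real.cos x := funext Real.tan_eq_sin_div_cos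
  rw [h1]
  exact Real.measurable_sin.div Real.measurable_cos

/-- iterated integrals of bounded functions -/
private theorem rem_int {m : Measure Y} [IsProbabilityMeasure m] {g : ℝ → Y → ℝ}
    (hg : Measurable fun p : Y × ℝ => g p.2 p.1) {B : ℝ} (hB : ∀ θ y, |g θ y| ≤ B) :
    (∀ θ, Integrable (g θ) m) ∧ Integrable (fun θ => ∫ y, g θ y ∂m) circ := by
  have h1 : ∀ θ, Measurable (g θ) := fun θ =>
    hg.comp (measurable_id.prodMk measurable_const)
  constructor
  · intro θ
    exact Integrable.of_bound (h1 θ).aestronglyMeasurable B (Eventually.of_forall fun y => by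
      rw [Real.norm_eq_abs]
      exact hB θ y)
  · refine Integrable.of_bound ?_ B (Eventually.of_forall fun θ => ?_)
    · have h2 : StronglyMeasurable (fun p : ℝ × Y => g p.1 p.2) :=
        (hg.comp measurable_swap).stronglyMeasurable
      exact h2.integral_prod_right'.aestronglyMeasurable
    · have h3 := norm_integral_le_of_norm_le_const (μ := m) (f := g θ) (C := B)
        (Eventually.of_forall fun y => by
          rw [Real.norm_eq_abs]
          exact hB θ y)
      simpa using h3

/-- linear combinations -/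
private theorem rem_lin {X : Type*} [MeasurableSpace X] {ν : Measure X} [IsProbabilityMeasure ν]
    {p q : X → ℝ} (hp : Integrable p ν) (hq : Integrable q ν) (a b : ℝ) :
    Integrable (fun x => a + b * p x + b * q x) ν ∧
      ∫ x, (a + b * p x + b * q x) ∂ν = a + b * ∫ x, p x ∂ν + b * ∫ x, q x ∂ν := by
  have h1 : Integrable (fun x => a + b * p x) ν := (integrable_const a).add (hp.const_mul b)
  have h2 : Integrable (fun x => b * q x) ν := hq.const_mul b
  refine ⟨h1.add h2, ?_⟩
  rw [integral_add h1 h2, integral_add (integrable_const a) (hp.const_mul b),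
    integral_const_mul, integral_const_mul]
  simp

/-- uniform continuity on a compact set -/
private theorem rem_cpt (H : BoundedContinuousFunction Y ℝ) {C : Set Y} (hC : IsCompact C)
    {η : ℝ} (hη : 0 < η) :
    ∃ δ > 0, ∀ u : ℝ, |u| < δ → ∀ z ∈ C, |H z - H (A.act z (oo u))| < η := by
  have hc : Continuous fun p : ℝ × Y => |H p.2 - H (A.act p.2 (oo p.1))| := by
    have h1 : Continuous fun p : ℝ × Y => A.act p.2 (oo p.1) :=
      A.cont.comp (continuous_snd.prodMk (continuous_oo.comp continuous_fst))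
    exact ((H.continuous.comp continuous_snd).sub (H.continuous.comp h1)).abs
  have h2 : ∀ᶠ u in 𝓝 (0 : ℝ), ∀ z ∈ C, |H z - H (A.act z (oo u))| < η := by
    refine hC.eventually_forall_of_forall_eventually fun z hz => ?_
    have h3 := hc.tendsto (0, z)
    simp only [oo_zero, A.act_one, sub_self, abs_zero] at h3
    exact h3.eventually_lt_const hη
  obtain ⟨δ, hδ, h3⟩ := Metric.eventually_nhds_iff.1 h2
  exact ⟨δ, hδ, fun u hu => h3 (by rw [Real.dist_eq, sub_zero]; exact hu)⟩

/-- the matrices `oo` disappear -/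
private theorem rem_id {m : Measure Y} (ha : ∀ t, tr A m (aa t) = m) (H : Y → ℝ) {θ : ℝ}
    (hθ : Real.cos θ ≠ 0) (r : ℝ) :
    ∫ y, H (A.act y (nn (1 / 2 * Real.exp r * Real.sin (2 * θ)))) ∂m =
      ∫ y, H (A.act y (kk θ * aa (-r) * oo (Real.exp (-r) * Real.tan θ))) ∂m := by
  have h1 : ∀ g : G, g * oo (-(Real.exp (-r) * Real.tan θ)) *
      oo (Real.exp (-r) * Real.tan θ) = g := by
    intro g
    rw [mul_assoc, ← oo_add, neg_add_cancel, oo_zero, mul_one]
  have h2 : ∀ y, A.act y (kk θ * aa (-r) * oo (Real.exp (-r) * Real.tan θ)) =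
      A.act (A.act y (aa (-Real.log (Real.cos θ ^ 2) - r)))
        (nn (1 / 2 * Real.exp r * Real.sin (2 * θ))) := by
    intro y
    rw [← A.act_mul]
    rcases kk_aa hθ r with h3 | h3
    · rw [h3, h1]
    · rw [h3, neg_mul, h1, A.act_neg]
  simp only [h2]
  conv_lhs => rw [← ha (-Real.log (Real.cos θ ^ 2) - r)]
  rw [integral_tr]

/-- the set where the remaining matrix is not close to one -/
private theorem rem_q {δ : ℝ} (hδ : 0 < δ) :
    Tendsto (fun r : ℝ => ∫ θ, (if δ ≤ |Real.exp (-r) * Real.tan θ| then (1 : ℝ) else 0) ∂circ)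
      atTop (𝓝 0) := by
  have h0 : (∫ _θ : ℝ, (0 : ℝ) ∂circ) = 0 := integral_zero _ _
  suffices hs : Tendsto (fun r : ℝ =>
      ∫ θ, (if δ ≤ |Real.exp (-r) * Real.tan θ| then (1 : ℝ) else 0) ∂circ)
      atTop (𝓝 (∫ _θ : ℝ, (0 : ℝ) ∂circ)) by rwa [h0] at hs
  refine tendsto_integral_filter_of_dominated_convergence (fun _ => (1 : ℝ)) ?_ ?_ ?_ ?_
  · refine Eventually.of_forall fun r => Measurable.aestronglyMeasurable ?_
    exact Measurable.ite (measurableSet_le measurable_const
      (measurable_const.mul rem_tan_meas).abs) measurable_const measurable_const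
  · refine Eventually.of_forall fun r => Eventually.of_forall fun θ => ?_
    split_ifs <;> simp
  · exact integrable_const _
  · refine Eventually.of_forall fun θ => ?_
    have h1 : Tendsto (fun r : ℝ => |Real.exp (-r) * Real.tan θ|) atTop (𝓝 0) := by
      have h2 : Tendsto (fun r : ℝ => Real.exp (-r)) atTop (𝓝 0) :=
        Real.tendsto_exp_neg_atTop_nhds_zero
      have h3 := (h2.mul_const (Real.tan θ)).abs
      rwa [zero_mul, abs_zero] at h3
    refine tendsto_const_nhds.congr' ?_
    filter_upwards [h1.eventually_lt_const hδ] with r hr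
    rw [if_neg (not_le.2 hr)]

/-- Removal of the lower triangular matrix. Here `m` is invariant under the diagonal matrices and
`kap A m = μ` is harmonic, `H` is a bounded continuous function (`H z = F (z · nn s) - F z`).

Proof. For `cos θ ≠ 0`, by `kk_aa`, `act_neg` and the invariance of `m` under `aa (c - r)` the
integral
`∫ y, H (y · nn S · oo e) ∂m` (`S = 1 / 2 * exp r * sin (2 θ)`, `e = -(exp (-r) * tan θ)`) is
`∫ y, H (y · (kk θ * aa (-r))) ∂m` and in the same way `∫ y, H (y · nn S) ∂m =
∫ y, H (y · (kk θ * aa (-r)) · oo (-e)) ∂m` (as `nn S = nn S * oo e * oo (-e)`). So the left side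
is at most
`∫ θ, ∫ y, |H (z) - H (z · oo (-e))| ∂m ∂circ`, `z = y · (kk θ * aa (-r))`. Given `ε`, let `C` be
the
compact set of `tight` : the law of `z` is `tr A μ (aa (-r))` (`integral_kap`), so `z ∈ C` up to
probability `ε`. On `C` the function `z ↦ H z - H (z · oo e')` tends to zero uniformly as `e' → 0`
(joint
continuity and compactness), say it is bounded by `w e'`, `w` bounded with `w → 0` at `0`. So the
left side is at most `2 ‖H‖ ε + ∫ θ, w (exp (-r) * tan θ) ∂circ`, and the last integral tends to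
zero
(dominated convergence). -/
theorem rem_oo {μ m : Measure Y} [IsProbabilityMeasure μ] [IsProbabilityMeasure m]
    (h : IsHarm A μ) (hk : kap A m = μ) (ha : ∀ t, tr A m (aa t) = m)
    (H : BoundedContinuousFunction Y ℝ) :
    Tendsto (fun r : ℝ => ∫ y, H (A.act y (aa (-r))) ∂μ -
      ∫ θ, ∫ y, H (A.act y (nn (1 / 2 * Real.exp r * Real.sin (2 * θ)))) ∂m ∂circ)
      atTop (𝓝 0) := by
  classical
  set M : ℝ := ‖H‖ + 1 with hM
  have hM0 : 0 < M := by
    have := norm_nonneg H
    linarith
  have hHM : ∀ y, |H y| ≤ M := fun y => by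
    have h1 := H.norm_coe_le_norm y
    rw [Real.norm_eq_abs] at h1
    linarith
  have hcos : ∀ᵐ θ ∂circ, Real.cos θ ≠ 0 := by
    have h1 : ∀ᵐ θ : ℝ, Real.cos θ ≠ 0 := by
      have h2 : {θ : ℝ | ¬ Real.cos θ ≠ 0} ⊆ Set.range fun k : ℤ =>
          (2 * (k : ℝ) + 1) * Real.pi / 2 := by
        intro θ hθ
        obtain ⟨k, hk⟩ := Real.cos_eq_zero_iff.1 (not_not.1 hθ)
        exact ⟨k, hk.symm⟩
      exact (Set.countable_range _).mono h2 |>.measure_zero _
    unfold circ
    exact Measure.ae_smul_measure (ae_restrict_of_ae h1) _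
  -- the two functions
  have hm1 : ∀ r : ℝ, Measurable fun p : Y × ℝ => H (A.act p.1 (kk p.2 * aa (-r))) := by
    intro r
    have h1 : Continuous fun θ : ℝ => kk θ * aa (-r) := continuous_kk.mul continuous_const
    exact H.continuous.measurable.comp (meas_joint A h1)
  have hj : ∀ r : ℝ, Measurable fun p : Y × ℝ =>
      A.act p.1 (kk p.2 * aa (-r) * oo (Real.exp (-r) * Real.tan p.2)) := by
    intro r
    have h1 : Continuous fun z : ℝ × ℝ => kk z.1 * aa (-r) * oo z.2 :=
      ((continuous_kk.comp continuous_fst).mul continuous_const).mul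
        (continuous_oo.comp continuous_snd)
    have h2 := meas_joint A h1
    have h3 : Measurable fun p : Y × ℝ => (p.1, (p.2, Real.exp (-r) * Real.tan p.2)) :=
      measurable_fst.prodMk (measurable_snd.prodMk
        (measurable_const.mul (rem_tan_meas.comp measurable_snd)))
    exact h2.comp h3
  have hm2 : ∀ r : ℝ, Measurable fun p : Y × ℝ =>
      H (A.act p.1 (kk p.2 * aa (-r) * oo (Real.exp (-r) * Real.tan p.2))) := fun r =>
    H.continuous.measurable.comp (hj r)
  have hbd : ∀ g : ℝ → Y → Y, ∀ θ y, |H (g θ y)| ≤ M := fun g θ y => hHM _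
  have hD : ∀ r : ℝ, ∫ y, H (A.act y (aa (-r))) ∂μ -
      ∫ θ, ∫ y, H (A.act y (nn (1 / 2 * Real.exp r * Real.sin (2 * θ)))) ∂m ∂circ =
      ∫ θ, (∫ y, (H (A.act y (kk θ * aa (-r))) -
        H (A.act y (kk θ * aa (-r) * oo (Real.exp (-r) * Real.tan θ)))) ∂m) ∂circ := by
    intro r
    have h1 : ∫ y, H (A.act y (aa (-r))) ∂μ =
        ∫ θ, ∫ y, H (A.act y (kk θ * aa (-r))) ∂m ∂circ := by
      rw [← hk, integral_kap A m (F := fun y => H (A.act y (aa (-r))))
        (H.continuous.measurable.comp (meas_act A _)) ⟨M, fun y => hHM _⟩]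
      simp only [A.act_mul]
    have h2 : ∫ θ, ∫ y, H (A.act y (nn (1 / 2 * Real.exp r * Real.sin (2 * θ)))) ∂m ∂circ =
        ∫ θ, ∫ y, H (A.act y (kk θ * aa (-r) * oo (Real.exp (-r) * Real.tan θ))) ∂m ∂circ := by
      refine integral_congr_ae ?_
      filter_upwards [hcos] with θ hθ
      exact rem_id A ha H hθ r
    obtain ⟨i1, i2⟩ := rem_int (m := m) (g := fun θ y => H (A.act y (kk θ * aa (-r))))
      (hm1 r) (B := M) (fun θ y => hHM _)
    obtain ⟨j1, j2⟩ := rem_int (m := m)
      (g := fun θ y => H (A.act y (kk θ * aa (-r) * oo (Real.exp (-r) * Real.tan θ))))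
      (hm2 r) (B := M) (fun θ y => hHM _)
    rw [h1, h2, ← integral_sub i2 j2]
    refine integral_congr_ae (Eventually.of_forall fun θ => ?_)
    exact (integral_sub (i1 θ) (j1 θ)).symm
  rw [Metric.tendsto_atTop']
  intro ε hε
  obtain ⟨C, hC, -, hCr⟩ := tight A h (ε := ENNReal.ofReal (ε / (8 * M)))
    (ENNReal.ofReal_pos.2 (by positivity))
  obtain ⟨δ, hδ, hδC⟩ := rem_cpt A H hC (η := ε / 4) (by positivity)
  have hCm : MeasurableSet C := hC.isClosed.measurableSet
  have hq := (rem_q hδ).eventually_lt_const (show (0 : ℝ) < ε / (8 * M) by positivity)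
  obtain ⟨r₀, hr₀⟩ := Filter.eventually_atTop.1 hq
  refine ⟨r₀, fun r hr => ?_⟩
  rw [Real.dist_eq, sub_zero, hD r]
  have hqr := hr₀ r hr.le
  -- the indicator of the complement
  have hpm : Measurable fun p : Y × ℝ =>
      (Cᶜ).indicator (fun _ => (1 : ℝ)) (A.act p.1 (kk p.2 * aa (-r))) := by
    have h1 : Continuous fun θ : ℝ => kk θ * aa (-r) := continuous_kk.mul continuous_const
    exact (measurable_const.indicator hCm.compl).comp (meas_joint A h1)
  have hp1 : ∀ y : Y, |(Cᶜ).indicator (fun _ => (1 : ℝ)) y| ≤ 1 := by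
    intro y
    by_cases hy : y ∈ Cᶜ
    · rw [Set.indicator_of_mem hy]
      simp
    · rw [Set.indicator_of_notMem hy]
      simp
  obtain ⟨p1, p2⟩ := rem_int (m := m)
    (g := fun θ y => (Cᶜ).indicator (fun _ => (1 : ℝ)) (A.act y (kk θ * aa (-r)))) hpm (B := 1)
    (fun θ y => hp1 _)
  have hp : ∫ θ, ∫ y, (Cᶜ).indicator (fun _ => (1 : ℝ)) (A.act y (kk θ * aa (-r))) ∂m ∂circ ≤
      ε / (8 * M) := by
    have h1 : ∫ y, (Cᶜ).indicator (fun _ => (1 : ℝ)) (A.act y (aa (-r))) ∂μ =
        ∫ θ, ∫ y, (Cᶜ).indicator (fun _ => (1 : ℝ)) (A.act y (kk θ * aa (-r))) ∂m ∂circ := by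
      rw [← hk, integral_kap A m
        (F := fun y => (Cᶜ).indicator (fun _ => (1 : ℝ)) (A.act y (aa (-r))))
        ((measurable_const.indicator hCm.compl).comp (meas_act A _)) ⟨1, fun y => hp1 _⟩]
      simp only [A.act_mul]
    rw [← h1, ← integral_tr A μ (aa (-r)), integral_indicator_const _ hCm.compl, smul_eq_mul,
      mul_one]
    exact ENNReal.toReal_le_of_le_ofReal (by positivity) (hCr r)
  have hqi : Integrable (fun θ : ℝ =>
      if δ ≤ |Real.exp (-r) * Real.tan θ| then (1 : ℝ) else 0) circ := by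
    refine Integrable.of_bound (Measurable.aestronglyMeasurable ?_) 1
      (Eventually.of_forall fun θ => ?_)
    · exact Measurable.ite (measurableSet_le measurable_const
        (measurable_const.mul rem_tan_meas).abs) measurable_const measurable_const
    · split_ifs <;> simp
  have hkey : ∀ θ : ℝ, ‖∫ y, (H (A.act y (kk θ * aa (-r))) -
      H (A.act y (kk θ * aa (-r) * oo (Real.exp (-r) * Real.tan θ)))) ∂m‖ ≤
      ε / 4 + 2 * M * (∫ y, (Cᶜ).indicator (fun _ => (1 : ℝ)) (A.act y (kk θ * aa (-r))) ∂m) +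
        2 * M * (if δ ≤ |Real.exp (-r) * Real.tan θ| then (1 : ℝ) else 0) := by
    intro θ
    obtain ⟨hi, hi'⟩ := rem_lin (p1 θ) (integrable_const (μ := m)
      (if δ ≤ |Real.exp (-r) * Real.tan θ| then (1 : ℝ) else 0)) (ε / 4) (2 * M)
    refine le_trans (norm_integral_le_of_norm_le hi (Eventually.of_forall fun y => ?_)) ?_
    · rw [Real.norm_eq_abs]
      have h2M : |H (A.act y (kk θ * aa (-r))) -
          H (A.act y (kk θ * aa (-r) * oo (Real.exp (-r) * Real.tan θ)))| ≤ 2 * M := by
        have h1 := abs_sub (H (A.act y (kk θ * aa (-r))))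
          (H (A.act y (kk θ * aa (-r) * oo (Real.exp (-r) * Real.tan θ))))
        have h2 := hHM (A.act y (kk θ * aa (-r)))
        have h3 := hHM (A.act y (kk θ * aa (-r) * oo (Real.exp (-r) * Real.tan θ)))
        linarith
      by_cases h1 : δ ≤ |Real.exp (-r) * Real.tan θ|
      · rw [if_pos h1]
        have h3 : 0 ≤ (Cᶜ).indicator (fun _ => (1 : ℝ)) (A.act y (kk θ * aa (-r))) :=
          Set.indicator_nonneg (fun _ _ => zero_le_one) _
        have h4 : 0 ≤ 2 * M * (Cᶜ).indicator (fun _ => (1 : ℝ)) (A.act y (kk θ * aa (-r))) :=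
          mul_nonneg (by positivity) h3
        linarith
      · rw [if_neg h1]
        by_cases h5 : A.act y (kk θ * aa (-r)) ∈ C
        · rw [Set.indicator_of_notMem (Set.notMem_compl_iff.2 h5)]
          have h6 := hδC _ (not_le.1 h1) _ h5
          rw [A.act_mul y (kk θ * aa (-r))]
          linarith
        · rw [Set.indicator_of_mem h5]
          linarith
    · refine le_of_eq ?_
      rw [hi', integral_const]
      simp
  obtain ⟨hgi, hgi'⟩ := rem_lin p2 hqi (ε / 4) (2 * M)
  have hfin := norm_integral_le_of_norm_le hgi (Eventually.of_forall hkey)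
  rw [hgi', Real.norm_eq_abs] at hfin
  have e1 : 2 * M * (∫ θ, ∫ y, (Cᶜ).indicator (fun _ => (1 : ℝ))
      (A.act y (kk θ * aa (-r))) ∂m ∂circ) ≤ ε / 4 := by
    calc _ ≤ 2 * M * (ε / (8 * M)) := mul_le_mul_of_nonneg_left hp (by positivity)
      _ = ε / 4 := by
        field_simp
        ring
  have e2 : 2 * M * (∫ θ, (if δ ≤ |Real.exp (-r) * Real.tan θ| then (1 : ℝ) else 0) ∂circ) <
      ε / 2 := by
    have h1 : 2 * M * (∫ θ, (if δ ≤ |Real.exp (-r) * Real.tan θ| then (1 : ℝ) else 0) ∂circ) ≤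
        2 * M * (ε / (8 * M)) := mul_le_mul_of_nonneg_left hqr.le (by positivity)
    have h2 : 2 * M * (ε / (8 * M)) = ε / 4 := by
      field_simp
      ring
    rw [h2] at h1
    linarith
  linarith

end Pool.Agent.MP27775c.DO
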