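import Pool.Agent.Lib.MP_27775c_an_DO.LiA
import Pool.Agent.Lib.MP_27775c_an_DO.LiB
import Pool.Agent.Lib.MP_27775c_an_DO.LiC

/-!
# MP_27775c_an, project DO, module LiD: invariance of the limit under the unipotent matrices
-/

set_option autoImplicit false

open MeasureTheory Set Filter Topology

namespace Pool.Agent.MP27775c.DO

variable {Y : Type*} [TopologicalSpace Y] [PolishSpace Y] [MeasurableSpace Y] [BorelSpace Y]
  (A : RAct Y)

/-- Cesaro averages of a bounded function which tends to zero -/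
private theorem lid_ces {f : ℝ → ℝ} (hm : Measurable f) {B : ℝ} (hB : ∀ r, |f r| ≤ B)
    (h0 : Tendsto f atTop (𝓝 0)) :
    Tendsto (fun N : ℕ => 1 / (N : ℝ) * ∫ r in (0 : ℝ)..N, f r) atTop (𝓝 0) := by
  have h1 : ∀ᶠ N : ℕ in atTop, (∫ t in (0 : ℝ)..1, f ((N : ℝ) * t)) =
      1 / (N : ℝ) * ∫ r in (0 : ℝ)..N, f r := by
    filter_upwards [eventually_gt_atTop 0] with N hN
    have hN' : (N : ℝ) ≠ 0 := by exact_mod_cast hN.ne'
    rw [intervalIntegral.integral_comp_mul_left (fun x => f x) hN', mul_zero, mul_one,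
      smul_eq_mul, one_div]
  refine Tendsto.congr' h1 ?_
  have h2 : (∫ _t in (0 : ℝ)..1, (0 : ℝ)) = 0 := by simp
  suffices hs : Tendsto (fun N : ℕ => ∫ t in (0 : ℝ)..1, f ((N : ℝ) * t)) atTop
      (𝓝 (∫ _t in (0 : ℝ)..1, (0 : ℝ))) by rwa [h2] at hs
  refine intervalIntegral.tendsto_integral_filter_of_dominated_convergence (fun _ => B) ?_ ?_
    ?_ ?_
  · exact Eventually.of_forall fun N =>
      (hm.comp (measurable_const.mul measurable_id)).aestronglyMeasurable
  · refine Eventually.of_forall fun N => Eventually.of_forall fun t _ => ?_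
    rw [Real.norm_eq_abs]
    exact hB _
  · exact intervalIntegrable_const
  · refine Eventually.of_forall fun t ht => ?_
    rw [Set.uIoc_of_le zero_le_one] at ht
    exact h0.comp (tendsto_natCast_atTop_atTop.atTop_mul_const ht.1)

private theorem lid_int {f : ℝ → ℝ} (hm : Measurable f) {B : ℝ} (hB : ∀ r, |f r| ≤ B)
    (a b : ℝ) : IntervalIntegrable f volume a b := by
  rw [intervalIntegrable_iff]
  refine Measure.integrableOn_of_bounded (M := B) ?_ hm.aestronglyMeasurable ?_
  · rw [Set.uIoc, Real.volume_Ioc]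
    exact ENNReal.ofReal_ne_top
  · exact Filter.Eventually.of_forall fun x => hB x

/-- The limit is invariant under `nn s`.

Proof. `ext_bcf`, `integral_tr`: let `F` be bounded continuous, `H z = F (z · nn s) - F z`. Then
`cesa A μ (n j) H → ∫ H ∂m`, and by `rem_oo` (Cesaro averages of a function which tends to zero
tend to
zero) and `main_part` it tends to zero. -/
theorem lim_nn {μ m : Measure Y} [IsProbabilityMeasure μ] [IsProbabilityMeasure m]
    (h : IsHarm A μ) (hk : kap A m = μ) {n : ℕ → ℕ} (hn : StrictMono n)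
    (hF : ∀ F : BoundedContinuousFunction Y ℝ,
      Tendsto (fun j => cesa A μ (n j) F) atTop (𝓝 (∫ y, F y ∂m)))
    (ha : ∀ t, tr A m (aa t) = m) (s : ℝ) : tr A m (nn s) = m := by
  have := tr_prob A m (nn s)
  refine ext_bcf fun F => ?_
  rw [integral_tr]
  have hFs : Continuous fun z => F (A.act z (nn s)) := F.continuous.comp (cont_act A _)
  let H : BoundedContinuousFunction Y ℝ :=
    BoundedContinuousFunction.ofNormedAddCommGroup (fun z => F (A.act z (nn s)) - F z)
      (hFs.sub F.continuous) (‖F‖ + ‖F‖)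
      (fun z => (norm_sub_le _ _).trans (add_le_add (F.norm_coe_le_norm _)
        (F.norm_coe_le_norm _)))
  have hHd : ∀ z, H z = F (A.act z (nn s)) - F z := fun z => rfl
  have hHb : ∀ z, |H z| ≤ ‖H‖ := fun z => by
    have h1 := H.norm_coe_le_norm z
    rwa [Real.norm_eq_abs] at h1
  have hi1 : Integrable (fun z => F (A.act z (nn s))) m :=
    Integrable.of_bound hFs.measurable.aestronglyMeasurable ‖F‖
      (Eventually.of_forall fun y => F.norm_coe_le_norm _)
  have hi2 : Integrable (fun z => F z) m :=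
    Integrable.of_bound F.continuous.measurable.aestronglyMeasurable ‖F‖
      (Eventually.of_forall fun y => F.norm_coe_le_norm _)
  -- the two parts
  have g1m : Measurable fun r : ℝ => ∫ y, H (A.act y (aa (-r))) ∂μ := by
    have h1 : Measurable fun p : Y × ℝ => H (A.act p.1 (aa (-p.2))) :=
      H.continuous.measurable.comp (meas_joint A (continuous_aa.comp continuous_neg))
    have h2 : StronglyMeasurable (fun p : ℝ × Y => H (A.act p.2 (aa (-p.1)))) :=
      (h1.comp measurable_swap).stronglyMeasurable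
    exact h2.integral_prod_right'.measurable
  have g2m : Measurable fun r : ℝ =>
      ∫ θ, ∫ y, H (A.act y (nn (1 / 2 * Real.exp r * Real.sin (2 * θ)))) ∂m ∂circ := by
    have hc : Continuous fun z : ℝ × ℝ => nn (1 / 2 * Real.exp z.1 * Real.sin (2 * z.2)) :=
      continuous_nn.comp (by fun_prop)
    have h1 : Measurable fun p : Y × (ℝ × ℝ) =>
        H (A.act p.1 (nn (1 / 2 * Real.exp p.2.1 * Real.sin (2 * p.2.2)))) :=
      H.continuous.measurable.comp (meas_joint A hc)
    have h2 : StronglyMeasurable (fun p : (ℝ × ℝ) × Y =>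
        H (A.act p.2 (nn (1 / 2 * Real.exp p.1.1 * Real.sin (2 * p.1.2))))) :=
      (h1.comp measurable_swap).stronglyMeasurable
    have h3 : StronglyMeasurable (fun q : ℝ × ℝ =>
        ∫ y, H (A.act y (nn (1 / 2 * Real.exp q.1 * Real.sin (2 * q.2)))) ∂m) :=
      h2.integral_prod_right' (ν := m)
    exact (h3.integral_prod_right' (ν := circ)).measurable
  have g1b : ∀ r : ℝ, |∫ y, H (A.act y (aa (-r))) ∂μ| ≤ ‖H‖ := by
    intro r
    have h3 := norm_integral_le_of_norm_le_const (μ := μ)
      (f := fun y => H (A.act y (aa (-r)))) (C := ‖H‖)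
      (Eventually.of_forall fun y => H.norm_coe_le_norm _)
    simpa using h3
  have g2b : ∀ r : ℝ,
      |∫ θ, ∫ y, H (A.act y (nn (1 / 2 * Real.exp r * Real.sin (2 * θ)))) ∂m ∂circ| ≤ ‖H‖ := by
    intro r
    have h3 : ∀ θ : ℝ,
        ‖∫ y, H (A.act y (nn (1 / 2 * Real.exp r * Real.sin (2 * θ)))) ∂m‖ ≤ ‖H‖ := by
      intro θ
      have h4 := norm_integral_le_of_norm_le_const (μ := m)
        (f := fun y => H (A.act y (nn (1 / 2 * Real.exp r * Real.sin (2 * θ))))) (C := ‖H‖)
        (Eventually.of_forall fun y => H.norm_coe_le_norm _)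
      simpa using h4
    have h5 := norm_integral_le_of_norm_le_const (μ := circ)
      (f := fun θ => ∫ y, H (A.act y (nn (1 / 2 * Real.exp r * Real.sin (2 * θ)))) ∂m)
      (C := ‖H‖) (Eventually.of_forall h3)
    simpa using h5
  have hces := lid_ces (g1m.sub g2m) (B := ‖H‖ + ‖H‖)
    (fun r => (abs_sub _ _).trans (add_le_add (g1b r) (g2b r))) (rem_oo A h hk ha H)
  have hmain := main_part A m F s
  have h3 : Tendsto (fun N : ℕ => cesa A μ N H) atTop (𝓝 0) := by
    have h4 := hces.add hmain
    rw [add_zero] at h4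
    refine h4.congr fun N => ?_
    have e1 : ∀ (r θ : ℝ), ∫ y,
        (F (A.act y (nn (1 / 2 * Real.exp r * Real.sin (2 * θ)) * nn s)) -
        F (A.act y (nn (1 / 2 * Real.exp r * Real.sin (2 * θ))))) ∂m =
        ∫ y, H (A.act y (nn (1 / 2 * Real.exp r * Real.sin (2 * θ)))) ∂m := by
      intro r θ
      refine integral_congr_ae (Eventually.of_forall fun y => ?_)
      change F (A.act y (nn (1 / 2 * Real.exp r * Real.sin (2 * θ)) * nn s)) -
        F (A.act y (nn (1 / 2 * Real.exp r * Real.sin (2 * θ)))) =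
        H (A.act y (nn (1 / 2 * Real.exp r * Real.sin (2 * θ))))
      rw [hHd, A.act_mul]
    simp only [e1]
    rw [← mul_add, ← intervalIntegral.integral_add
      (lid_int (g1m.sub g2m) (B := ‖H‖ + ‖H‖)
        (fun r => (abs_sub _ _).trans (add_le_add (g1b r) (g2b r))) _ _)
      (lid_int g2m g2b _ _)]
    unfold cesa
    congr 1
    refine intervalIntegral.integral_congr fun r _ => ?_
    change (∫ y, H (A.act y (aa (-r))) ∂μ) -
      (∫ θ, ∫ y, H (A.act y (nn (1 / 2 * Real.exp r * Real.sin (2 * θ)))) ∂m ∂circ) +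
      (∫ θ, ∫ y, H (A.act y (nn (1 / 2 * Real.exp r * Real.sin (2 * θ)))) ∂m ∂circ) =
      ∫ y, H (A.act y (aa (-r))) ∂μ
    ring
  have h5 := tendsto_nhds_unique (hF H) (h3.comp hn.tendsto_atTop)
  simp only [hHd] at h5
  rw [integral_sub hi1 hi2] at h5
  linarith

end Pool.Agent.MP27775c.DO
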