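import Pool.Agent.Lib.MP_27775c_an_DO.Kap

/-!
# MP_27775c_an, project DO, module LiE: ergodicity of the lift
-/

set_option autoImplicit false

open MeasureTheory Set Filter Topology

namespace Pool.Agent.MP27775c.DO

variable {Y : Type*} [TopologicalSpace Y] [PolishSpace Y] [MeasurableSpace Y] [BorelSpace Y]
  (A : RAct Y)

private theorem LiE_tr {m : Measure Y} {E : Set Y} (hE : MeasurableSet E) {g : G}
    (hm : tr A m g = m) (hg : AInv A m E g) (c : ENNReal) :
    tr A (c • m.restrict E) g = c • m.restrict E := by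
  have h1 : (fun y => A.act y g) ⁻¹' E =ᵐ[m] E := measure_symmDiff_eq_zero_iff.1 hg
  have h2 : m.restrict ((fun y => A.act y g) ⁻¹' E) = m.restrict E := Measure.restrict_congr_set h1
  have h3 := Measure.restrict_map (μ := m) (meas_act A g) hE
  have h4 : m.map (fun y => A.act y g) = m := hm
  unfold tr
  rw [Measure.map_smul, ← h2, ← h3, h4, h2]

private theorem LiE_inv {m : Measure Y} {E : Set Y} (hE : MeasurableSet E) (h : IsPInv A m)
    (h1 : ∀ s, AInv A m E (nn s)) (h2 : ∀ t, AInv A m E (aa t)) (c : ENNReal) :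
    IsPInv A (c • m.restrict E) :=
  ⟨fun s => LiE_tr A hE (h.1 s) (h1 s) c, fun t => LiE_tr A hE (h.2 t) (h2 t) c⟩

private theorem LiE_compl {m : Measure Y} {E : Set Y} {g : G} (hg : AInv A m E g) :
    AInv A m Eᶜ g := by
  unfold AInv at *
  rw [preimage_compl, compl_symmDiff_compl]
  exact hg

private theorem LiE_prob {m : Measure Y} [IsProbabilityMeasure m] {E : Set Y} (hE : m E ≠ 0) :
    IsProbabilityMeasure ((m E)⁻¹ • m.restrict E) := by
  constructor
  rw [Measure.smul_apply, Measure.restrict_apply MeasurableSet.univ, univ_inter, smul_eq_mul]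
  exact ENNReal.inv_mul_cancel hE (measure_ne_top m E)

/-- If `kap A m` is extremal then `m` is ergodic for the triangular group.

Proof. Let `E` be invariant mod `m`, `0 < m E < 1`. The conditional measures `m₁ = (m E)⁻¹ •
m.restrict E`,
`m₂` (for `Eᶜ`) are probability measures invariant under the triangular group,
`kap A m = m E • kap A m₁ + (1 - m E) • kap A m₂` (`kap_comb`), harmonic by `kap_harm`, so
`kap A m₁ = kap A m`, `m₁ = m` (`kap_inj`), so `m E = 1`, a contradiction. -/
theorem erg_of_ext {m : Measure Y} [IsProbabilityMeasure m] (h : IsPInv A m)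
    (he : IsExt A (kap A m)) : IsPErg A m := by
  intro E hE h1 h2
  by_contra hcon
  rw [not_or] at hcon
  obtain ⟨hc0, hd0⟩ := hcon
  have hd : m Eᶜ = 1 - m E := prob_compl_eq_one_sub hE
  haveI p1 := LiE_prob (m := m) hc0
  haveI p2 := LiE_prob (m := m) hd0
  have i1 := LiE_inv A hE h h1 h2 (m E)⁻¹
  have i2 := LiE_inv A hE.compl h (fun s => LiE_compl A (h1 s)) (fun t => LiE_compl A (h2 t))
    (m Eᶜ)⁻¹
  have hc1 : m E < 1 := by
    rcases lt_or_eq_of_le (prob_le_one (μ := m) (s := E)) with h3 | h3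
    · exact h3
    · exfalso
      apply hd0
      rw [hd, h3, tsub_self]
  have hsum : m = m E • ((m E)⁻¹ • m.restrict E) + (1 - m E) • ((m Eᶜ)⁻¹ • m.restrict Eᶜ) := by
    rw [← hd, smul_smul, smul_smul, ENNReal.mul_inv_cancel hc0 (measure_ne_top m E),
      ENNReal.mul_inv_cancel hd0 (measure_ne_top m Eᶜ), one_smul, one_smul,
      Measure.restrict_add_restrict_compl hE]
  have hk : kap A m = m E • kap A ((m E)⁻¹ • m.restrict E) +
      (1 - m E) • kap A ((m Eᶜ)⁻¹ • m.restrict Eᶜ) := by
    conv_lhs => rw [hsum]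
    exact kap_comb A _ _ (measure_ne_top m E) (by
      rw [← hd]
      exact measure_ne_top m Eᶜ)
  have h5 := he _ _ (m E) (kap_prob A _) (kap_prob A _) (kap_harm A i1) (kap_harm A i2)
    (pos_iff_ne_zero.2 hc0) hc1 hk
  have h6 := kap_inj A i1 h h5
  apply hd0
  rw [← h6, Measure.smul_apply, Measure.restrict_apply hE.compl, compl_inter_self, measure_empty,
    smul_zero]

end Pool.Agent.MP27775c.DO
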