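import Pool.Agent.Lib.MP_27775c_an_DO.LiD
import Pool.Agent.Lib.MP_27775c_an_DO.LiE

/-!
# MP_27775c_an, project DO, module Lift: the lift of a harmonic measure which is invariant under
the triangular group
-/

set_option autoImplicit false

open MeasureTheory Set Filter Topology

namespace Pool.Agent.MP27775c.DO

variable {Y : Type*} [TopologicalSpace Y] [PolishSpace Y] [MeasurableSpace Y] [BorelSpace Y]
  (A : RAct Y)

/-- Proof: `exists_lim`, `lim_aa`, `lim_nn`, `erg_of_ext`. -/
theorem exists_lift {μ : Measure Y} [IsProbabilityMeasure μ] (h : IsHarm A μ) (he : IsExt A μ) :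
    ∃ m : Measure Y, IsProbabilityMeasure m ∧ IsPInv A m ∧ kap A m = μ ∧ IsPErg A m := by
  obtain ⟨m, hm, hk, n, hn, hF⟩ := exists_lim A h
  have ha := fun t => lim_aa A hn hF t
  have hP : IsPInv A m := ⟨fun s => lim_nn A h hk hn hF ha s, ha⟩
  refine ⟨m, hm, hP, hk, erg_of_ext A hP ?_⟩
  rwa [hk]

end Pool.Agent.MP27775c.DO
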