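import Pool.Agent.Lib.MP_27775c_an_DO.Kap

/-!
# MP_27775c_an, project DO, module LimB: tightness
-/

set_option autoImplicit false

open MeasureTheory Set Filter Topology

namespace Pool.Agent.MP27775c.DO

variable {Y : Type*} [TopologicalSpace Y] [PolishSpace Y] [MeasurableSpace Y] [BorelSpace Y]
  (A : RAct Y)

omit [PolishSpace Y] [MeasurableSpace Y] [BorelSpace Y] in
private theorem sat {K : Set Y} (hK : IsCompact K) :
    ∃ C : Set Y, IsCompact C ∧ K ⊆ C ∧ ∀ y ∈ C, ∀ θ, A.act y (kk θ) ∈ C := by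
  have hcont : Continuous fun p : Y × ℝ => A.act p.1 (kk p.2) :=
    A.cont.comp (continuous_fst.prodMk (continuous_kk.comp continuous_snd))
  refine ⟨(fun p : Y × ℝ => A.act p.1 (kk p.2)) '' (K ×ˢ Icc 0 (2 * Real.pi)),
    (hK.prod isCompact_Icc).image hcont, ?_, ?_⟩
  · intro y hy
    refine ⟨(y, 0), ⟨hy, ?_⟩, ?_⟩
    · exact ⟨le_refl _, by positivity⟩
    · simp only [kk_zero, A.act_one]
  · rintro _ ⟨⟨y, s⟩, ⟨hy, -⟩, rfl⟩ θ
    have hp : 0 < 2 * Real.pi := by positivity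
    obtain ⟨t, ht, hst⟩ := kk_periodic.exists_mem_Ico₀ hp (s + θ)
    refine ⟨(y, t), ⟨hy, Ico_subset_Icc_self ht⟩, ?_⟩
    simp only
    rw [← A.act_mul, ← kk_add, hst]

/-- Tightness: for every `ε > 0` there is a compact set `C'` such that all translates
`tr A μ (aa (-r))` give mass at most `ε` to its complement.

Proof. Let `C` be compact with `μ Cᶜ ≤ ε` (inner regularity on a Polish space, for example
`MeasureTheory.Measure.exists_isCompact_...` or `innerRegular`), `C' = {y · kk θ : y ∈ C,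
θ ∈ [0, 2π]}`: compact as a continuous image, and invariant under the rotations (`kk_periodic`,
`kk_add`). For a set `C'` invariant under rotations
`kap A m (C'ᶜ) = m (C'ᶜ)` (`lintegral_kap` for the indicator function); apply it to `m = tr A μ
(aa (-r))` with
`kap A m = μ`: `m (C'ᶜ) = μ (C'ᶜ) ≤ μ Cᶜ ≤ ε`. -/
theorem tight {μ : Measure Y} [IsProbabilityMeasure μ] (h : IsHarm A μ) {ε : ENNReal}
    (hε : 0 < ε) : ∃ C : Set Y, IsCompact C ∧ (∀ y ∈ C, ∀ θ, A.act y (kk θ) ∈ C) ∧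
      ∀ r, tr A μ (aa (-r)) Cᶜ ≤ ε := by
  have hT : IsTightMeasureSet {μ} := isTightMeasureSet_singleton
  obtain ⟨K, hK, hKε⟩ := isTightMeasureSet_iff_exists_isCompact_measure_compl_le.1 hT ε hε
  obtain ⟨C, hC, hKC, hinv⟩ := sat A hK
  refine ⟨C, hC, hinv, fun r => ?_⟩
  have := tr_prob A μ (aa (-r))
  have hm : MeasurableSet Cᶜ := hC.measurableSet.compl
  have hiff : ∀ (y : Y) (θ : ℝ), A.act y (kk θ) ∈ Cᶜ ↔ y ∈ Cᶜ := by
    intro y θ
    refine not_congr ⟨fun hy => ?_, fun hy => hinv y hy θ⟩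
    have h1 := hinv _ hy (-θ)
    rwa [← A.act_mul, ← kk_add, add_neg_cancel, kk_zero, A.act_one] at h1
  have h2 : kap A (tr A μ (aa (-r))) Cᶜ = tr A μ (aa (-r)) Cᶜ := by
    rw [← lintegral_indicator_one hm, lintegral_kap A _ (measurable_one.indicator hm)]
    have h3 : ∀ θ : ℝ, ∫⁻ y, (Cᶜ).indicator (1 : Y → ENNReal) (A.act y (kk θ))
        ∂(tr A μ (aa (-r))) = tr A μ (aa (-r)) Cᶜ := by
      intro θ
      rw [← lintegral_indicator_one hm]
      refine lintegral_congr fun y => ?_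
      by_cases hy : y ∈ Cᶜ
      · rw [indicator_of_mem hy, indicator_of_mem ((hiff y θ).2 hy)]
        rfl
      · rw [indicator_of_notMem hy, indicator_of_notMem (fun h4 => hy ((hiff y θ).1 h4))]
    simp only [h3, lintegral_const, measure_univ, mul_one]
  rw [h.2 (-r)] at h2
  rw [← h2]
  exact (measure_mono (compl_subset_compl.2 hKC)).trans (hKε μ rfl)

end Pool.Agent.MP27775c.DO
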