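import Pool.Agent.Lib.MP_27775c_an_DO.LimA
import Pool.Agent.Lib.MP_27775c_an_DO.LimB

/-!
# MP_27775c_an, project DO, module LimC: existence of a limit
-/

set_option autoImplicit false

open MeasureTheory Set Filter Topology

namespace Pool.Agent.MP27775c.DO

variable {Y : Type*} [TopologicalSpace Y] [PolishSpace Y] [MeasurableSpace Y] [BorelSpace Y]
  (A : RAct Y)

/-- the mass of the complement of a compact set for the averages -/
private theorem limc_mass {μ : Measure Y} [IsProbabilityMeasure μ] {n : ℕ} (hn : 0 < n)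
    {C : Set Y} (hC : MeasurableSet C) {ε : ENNReal}
    (h : ∀ r, tr A μ (aa (-r)) Cᶜ ≤ ε) : cesaM A μ n Cᶜ ≤ ε := by
  have hm : Measurable fun p : Y × ℝ => A.act p.1 (aa (-p.2)) :=
    meas_joint A (continuous_aa.comp continuous_neg)
  unfold cesaM
  rw [Measure.smul_apply, Measure.map_apply hm hC.compl,
    Measure.prod_apply_symm (hm hC.compl), smul_eq_mul]
  have h1 : ∀ r : ℝ, μ ((fun y => (y, r)) ⁻¹' ((fun p : Y × ℝ => A.act p.1 (aa (-p.2))) ⁻¹' Cᶜ))
      ≤ ε := by
    intro r
    have h2 := h r
    unfold tr at h2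
    rw [Measure.map_apply (meas_act A _) hC.compl] at h2
    exact h2
  calc ENNReal.ofReal (1 / (n : ℝ)) * ∫⁻ r in Ioc (0 : ℝ) n,
        μ ((fun y => (y, r)) ⁻¹' ((fun p : Y × ℝ => A.act p.1 (aa (-p.2))) ⁻¹' Cᶜ))
      ≤ ENNReal.ofReal (1 / (n : ℝ)) * ∫⁻ _r in Ioc (0 : ℝ) n, ε := by
        gcongr with r
        exact h1 r
    _ = ε := by
        rw [setLIntegral_const, Real.volume_Ioc, sub_zero, mul_comm ε, ← mul_assoc,
          ← ENNReal.ofReal_mul (by positivity)]
        have h3 : 1 / (n : ℝ) * n = 1 := by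
          have : (n : ℝ) ≠ 0 := by exact_mod_cast hn.ne'
          field_simp
        rw [h3, ENNReal.ofReal_one, one_mul]

/-- Existence of a weak limit of a subsequence of the averages.

Proof. The measures `cesaM A μ n`, `n ≥ 1`, are tight (`tight`, the mass of `C'ᶜ` is the mean of
the
masses for `tr A μ (aa (-r))`), so by Prokhorov
(`isCompact_closure_of_isTightMeasureSet`; the space of probability measures on a Polish space is
metrizable, so there is a convergent subsequence, `IsCompact.tendsto_subseq`) a
subsequence converges to a probability measure `m`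
(`ProbabilityMeasure.tendsto_iff_forall_integral_tendsto`). `kap A m = μ`: for bounded continuous
`F`
the function `y ↦ ∫ θ, F (y · kk θ) ∂circ` is bounded and continuous, so its integrals converge,
and
they are equal to `∫ F ∂(kap A (cesaM A μ n)) = ∫ F ∂μ`. -/
theorem exists_lim {μ : Measure Y} [IsProbabilityMeasure μ] (h : IsHarm A μ) :
    ∃ m : Measure Y, IsProbabilityMeasure m ∧ kap A m = μ ∧ ∃ n : ℕ → ℕ, StrictMono n ∧
      ∀ F : BoundedContinuousFunction Y ℝ,
        Tendsto (fun j => cesa A μ (n j) F) atTop (𝓝 (∫ y, F y ∂m)) := by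
  have hpr : ∀ k : ℕ, IsProbabilityMeasure (cesaM A μ (k + 1)) := fun k =>
    cesaM_prob A μ (Nat.succ_pos k)
  let P : ℕ → ProbabilityMeasure Y := fun k => ⟨cesaM A μ (k + 1), hpr k⟩
  have htight : IsTightMeasureSet
      {((ν : ProbabilityMeasure Y) : Measure Y) | ν ∈ Set.range P} := by
    rw [isTightMeasureSet_iff_exists_isCompact_measure_compl_le]
    intro ε hε
    obtain ⟨C, hC, -, hCr⟩ := tight A h hε
    refine ⟨C, hC, ?_⟩
    rintro ν' ⟨ν, ⟨k, rfl⟩, rfl⟩
    exact limc_mass A (Nat.succ_pos k) hC.isClosed.measurableSet hCr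
  have hcomp := isCompact_closure_of_isTightMeasureSet htight
  obtain ⟨m, -, φ, hφ, hlim⟩ := hcomp.tendsto_subseq (x := P)
    (fun k => subset_closure (Set.mem_range_self k))
  rw [ProbabilityMeasure.tendsto_iff_forall_integral_tendsto] at hlim
  have hlim' : ∀ F : BoundedContinuousFunction Y ℝ,
      Tendsto (fun j => ∫ y, F y ∂(cesaM A μ (φ j + 1))) atTop (𝓝 (∫ y, F y ∂(m : Measure Y))) :=
    fun F => hlim F
  have hb : ∀ F : BoundedContinuousFunction Y ℝ, ∃ C, ∀ y, |F y| ≤ C := fun F =>
    ⟨‖F‖, fun y => by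
      have h1 := F.norm_coe_le_norm y
      rwa [Real.norm_eq_abs] at h1⟩
  refine ⟨(m : Measure Y), inferInstance, ?_, fun j => φ j + 1,
    fun i j hij => Nat.succ_lt_succ (hφ hij), fun F => ?_⟩
  · have : IsProbabilityMeasure (kap A (m : Measure Y)) := kap_prob A _
    refine ext_bcf fun F => ?_
    have hFθ : ∀ θ, Continuous fun y => F (A.act y (kk θ)) := fun θ =>
      F.continuous.comp (cont_act A _)
    have hjm : Measurable fun p : Y × ℝ => F (A.act p.1 (kk p.2)) :=
      F.continuous.measurable.comp (meas_joint A continuous_kk)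
    have hconv : Tendsto (fun j => ∫ θ, ∫ y, F (A.act y (kk θ)) ∂(cesaM A μ (φ j + 1)) ∂circ)
        atTop (𝓝 (∫ θ, ∫ y, F (A.act y (kk θ)) ∂(m : Measure Y) ∂circ)) := by
      refine tendsto_integral_of_dominated_convergence (fun _ => ‖F‖) ?_ (integrable_const _)
        ?_ ?_
      · intro j
        have := hpr (φ j)
        have h2 : StronglyMeasurable (fun p : ℝ × Y => F (A.act p.2 (kk p.1))) :=
          (hjm.comp measurable_swap).stronglyMeasurable
        exact h2.integral_prod_right'.aestronglyMeasurable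
      · intro j
        have := hpr (φ j)
        refine Eventually.of_forall fun θ => ?_
        have h3 := norm_integral_le_of_norm_le_const (μ := cesaM A μ (φ j + 1))
          (f := fun y => F (A.act y (kk θ))) (C := ‖F‖)
          (Eventually.of_forall fun y => F.norm_coe_le_norm _)
        simpa using h3
      · refine Eventually.of_forall fun θ => ?_
        let Fθ : BoundedContinuousFunction Y ℝ :=
          BoundedContinuousFunction.ofNormedAddCommGroup (fun y => F (A.act y (kk θ)))
            (hFθ θ) ‖F‖ (fun y => F.norm_coe_le_norm _)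
        exact hlim' Fθ
    have hconst : ∀ j, ∫ θ, ∫ y, F (A.act y (kk θ)) ∂(cesaM A μ (φ j + 1)) ∂circ =
        ∫ y, F y ∂μ := by
      intro j
      have := hpr (φ j)
      rw [← integral_kap A (cesaM A μ (φ j + 1)) F.continuous.measurable (hb F),
        kap_cesaM A h (Nat.succ_pos _)]
    simp only [hconst] at hconv
    rw [integral_kap A (m : Measure Y) F.continuous.measurable (hb F)]
    exact tendsto_nhds_unique hconv tendsto_const_nhds
  · have h1 := hlim' F
    refine h1.congr fun j => ?_
    exact integral_cesaM A μ (Nat.succ_pos _) F.continuous.measurable (hb F)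

end Pool.Agent.MP27775c.DO
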