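import Pool.Agent.Lib.MP_27775c_an_DO.Kap

/-!
# MP_27775c_an, project DO, module LimA: averaged translates
-/

set_option autoImplicit false

open MeasureTheory Set Filter Topology

namespace Pool.Agent.MP27775c.DO

variable {Y : Type*} [TopologicalSpace Y] [PolishSpace Y] [MeasurableSpace Y] [BorelSpace Y]
  (A : RAct Y)

/-- The mean over the times `r ∈ (0, n]` of the integrals of `F` with respect to the translates of
`μ` by `aa (-r)`. -/
noncomputable def cesa (μ : Measure Y) (n : ℕ) (F : Y → ℝ) : ℝ :=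
  1 / (n : ℝ) * ∫ r in (0 : ℝ)..n, ∫ y, F (A.act y (aa (-r))) ∂μ

/-- The measure which belongs to `cesa`, `n ≥ 1`. -/
noncomputable def cesaM (μ : Measure Y) (n : ℕ) : Measure Y :=
  ENNReal.ofReal (1 / (n : ℝ)) •
    (μ.prod (volume.restrict (Ioc (0 : ℝ) n))).map fun p => A.act p.1 (aa (-p.2))

private theorem meas_aan : Measurable fun p : Y × ℝ => A.act p.1 (aa (-p.2)) :=
  meas_joint A (continuous_aa.comp continuous_neg)

private theorem meas_kk' : Measurable fun p : Y × ℝ => A.act p.1 (kk p.2) :=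
  meas_joint A continuous_kk

private theorem integral_kap' (m : Measure Y) [IsProbabilityMeasure m] {F : Y → ℝ}
    (hF : Measurable F) (hb : ∃ C, ∀ y, |F y| ≤ C) :
    ∫ y, F y ∂(kap A m) = ∫ y, ∫ θ, F (A.act y (kk θ)) ∂circ ∂m := by
  obtain ⟨C, hC⟩ := hb
  rw [kap, integral_map (meas_kk' A).aemeasurable hF.aestronglyMeasurable]
  exact integral_prod _ (Integrable.of_bound (hF.comp (meas_kk' A)).aestronglyMeasurable C
    (Eventually.of_forall fun p => hC _))

theorem cesaM_prob (μ : Measure Y) [IsProbabilityMeasure μ] {n : ℕ} (hn : 0 < n) :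
    IsProbabilityMeasure (cesaM A μ n) := by
  have hn' : (0 : ℝ) < n := Nat.cast_pos.2 hn
  refine ⟨?_⟩
  rw [cesaM, Measure.smul_apply, Measure.map_apply (meas_aan A) MeasurableSet.univ, preimage_univ,
    ← univ_prod_univ, Measure.prod_prod, measure_univ, one_mul, Measure.restrict_apply_univ,
    Real.volume_Ioc, sub_zero, smul_eq_mul, ← ENNReal.ofReal_mul (by positivity)]
  have h : 1 / (n : ℝ) * n = 1 := by
    field_simp
  rw [h, ENNReal.ofReal_one]

theorem integral_cesaM (μ : Measure Y) [IsProbabilityMeasure μ] {n : ℕ} (hn : 0 < n) {F : Y → ℝ}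
    (hF : Measurable F) (hb : ∃ C, ∀ y, |F y| ≤ C) :
    ∫ y, F y ∂(cesaM A μ n) = cesa A μ n F := by
  obtain ⟨C, hC⟩ := hb
  have hn' : (0 : ℝ) < n := Nat.cast_pos.2 hn
  rw [cesaM, integral_smul_measure, ENNReal.toReal_ofReal (by positivity), smul_eq_mul,
    integral_map (meas_aan A).aemeasurable hF.aestronglyMeasurable, cesa,
    intervalIntegral.integral_of_le hn'.le]
  congr 1
  exact integral_prod_symm _ (Integrable.of_bound (hF.comp (meas_aan A)).aestronglyMeasurable C
    (Eventually.of_forall fun p => hC _))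

/-- Proof: integrate a bounded continuous `F` (`ext_bcf`), `integral_kap`, `integral_cesaM`,
Fubini;
for every `r` the inner integral is `∫ F ∂(kap A (tr A μ (aa (-r)))) = ∫ F ∂μ` by `IsHarm`. -/
theorem kap_cesaM {μ : Measure Y} [IsProbabilityMeasure μ] (h : IsHarm A μ) {n : ℕ}
    (hn : 0 < n) : kap A (cesaM A μ n) = μ := by
  have hn' : (0 : ℝ) < n := Nat.cast_pos.2 hn
  have := cesaM_prob A μ hn
  have := kap_prob A (cesaM A μ n)
  refine ext_bcf fun F => ?_
  have hFb : ∀ y, |F y| ≤ ‖F‖ := fun y => F.norm_coe_le_norm y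
  have hFm : Measurable F := F.continuous.measurable
  rw [integral_kap' A (cesaM A μ n) hFm ⟨‖F‖, hFb⟩]
  have hHm : Measurable fun y => ∫ θ, F (A.act y (kk θ)) ∂circ :=
    ((hFm.comp (meas_kk' A)).stronglyMeasurable.integral_prod_right').measurable
  have hHb : ∀ y, |∫ θ, F (A.act y (kk θ)) ∂circ| ≤ ‖F‖ := by
    intro y
    have h1 := norm_integral_le_of_norm_le_const (μ := circ)
      (f := fun θ => F (A.act y (kk θ))) (C := ‖F‖) (Eventually.of_forall fun θ => hFb _)
    rw [probReal_univ, mul_one] at h1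
    exact h1
  rw [integral_cesaM A μ hn hHm ⟨‖F‖, hHb⟩, cesa]
  have h1 : ∀ r : ℝ, ∫ y, (fun y => ∫ θ, F (A.act y (kk θ)) ∂circ) (A.act y (aa (-r))) ∂μ =
      ∫ y, F y ∂μ := by
    intro r
    have := tr_prob A μ (aa (-r))
    rw [← integral_tr A μ (aa (-r)) (fun y => ∫ θ, F (A.act y (kk θ)) ∂circ),
      ← integral_kap' A _ hFm ⟨‖F‖, hFb⟩, h.2]
  simp only [h1, intervalIntegral.integral_const, smul_eq_mul, sub_zero]
  field_simp

end Pool.Agent.MP27775c.DO
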