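import Pool.Agent.Lib.MP_27775c_an_DO.MatA

/-!
# MP_27775c_an, project DO, module MatB: Iwasawa decomposition
-/

set_option autoImplicit false

open MeasureTheory Set Filter Topology

namespace Pool.Agent.MP27775c.DO

private theorem coe_smul_G (g : G) (z : UpperHalfPlane) :
    ((g • z : UpperHalfPlane) : ℂ) =
      (((g 0 0 : ℝ) : ℂ) * z + ((g 0 1 : ℝ) : ℂ)) / (((g 1 0 : ℝ) : ℂ) * z + ((g 1 1 : ℝ) : ℂ)) :=
  UpperHalfPlane.coe_specialLinearGroup_apply g z

theorem pp_smul (z : UpperHalfPlane) : pp z • UpperHalfPlane.I = z := by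
  have hz : 0 < z.im := z.im_pos
  apply UpperHalfPlane.ext
  rw [coe_smul_G]
  have e00 : (pp z) 0 0 = Real.exp (Real.log z.im / 2) := by
    simp [pp, nn, aa, Matrix.mul_apply, Fin.sum_univ_two]
  have e01 : (pp z) 0 1 = z.re * Real.exp (-(Real.log z.im / 2)) := by
    simp [pp, nn, aa, Matrix.mul_apply, Fin.sum_univ_two]
  have e10 : (pp z) 1 0 = 0 := by
    simp [pp, nn, aa, Matrix.mul_apply, Fin.sum_univ_two]
  have e11 : (pp z) 1 1 = Real.exp (-(Real.log z.im / 2)) := by
    simp [pp, nn, aa, Matrix.mul_apply, Fin.sum_univ_two]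
  rw [e00, e01, e10, e11, Real.exp_neg]
  set E : ℝ := Real.exp (Real.log z.im / 2) with hE
  have hE0 : (E : ℂ) ≠ 0 := by exact_mod_cast (Real.exp_pos _).ne'
  have hE2 : E * E = z.im := by
    rw [hE, ← Real.exp_add, add_halves, Real.exp_log hz]
  have hz' : (z : ℂ) = (z.re : ℂ) + ((E * E : ℝ) : ℂ) * Complex.I := by
    rw [hE2]
    exact (Complex.re_add_im (z : ℂ)).symm
  rw [hz', UpperHalfPlane.coe_I]
  push_cast
  field_simp
  ring

theorem kk_smul (θ : ℝ) : kk θ • UpperHalfPlane.I = UpperHalfPlane.I := by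
  apply UpperHalfPlane.ext
  rw [coe_smul_G]
  have e00 : (kk θ) 0 0 = Real.cos θ := by simp [kk]
  have e01 : (kk θ) 0 1 = Real.sin θ := by simp [kk]
  have e10 : (kk θ) 1 0 = -Real.sin θ := by simp [kk]
  have e11 : (kk θ) 1 1 = Real.cos θ := by simp [kk]
  rw [e00, e01, e10, e11, UpperHalfPlane.coe_I]
  have hI : Complex.I * Complex.I = -1 := Complex.I_mul_I
  have hcs := Real.cos_sq_add_sin_sq θ
  have hden : ((-Real.sin θ : ℝ) : ℂ) * Complex.I + ((Real.cos θ : ℝ) : ℂ) ≠ 0 := by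
    intro h
    have h1 := congrArg Complex.re h
    have h2 := congrArg Complex.im h
    simp [-Complex.ofReal_cos, -Complex.ofReal_sin] at h1 h2
    rw [h1, h2] at hcs
    norm_num at hcs
  rw [div_eq_iff hden]
  push_cast
  linear_combination (-(Complex.sin (θ : ℂ))) * (-hI)

/-- Iwasawa decomposition. Proof: `h = (pp (g • I))⁻¹ * g` fixes `I`, so its entries satisfy
`(a i + b) / (c i + d) = i`, `a d - b c = 1`, that is `a = d`, `b = -c`, `a ^ 2 + b ^ 2 = 1`. -/
theorem iwa (g : G) : ∃ θ : ℝ, g = pp (g • UpperHalfPlane.I) * kk θ := by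
  set h : G := (pp (g • UpperHalfPlane.I))⁻¹ * g with hh
  have hfix : h • UpperHalfPlane.I = UpperHalfPlane.I := by
    rw [hh, mul_smul, inv_smul_eq_iff, pp_smul]
  have h1 := congrArg (fun z : UpperHalfPlane => (z : ℂ)) hfix
  simp only [coe_smul_G, UpperHalfPlane.coe_I] at h1
  have hdet : h 0 0 * h 1 1 - h 0 1 * h 1 0 = 1 := by
    have := h.det_coe
    rwa [Matrix.det_fin_two] at this
  have hden : ((h 1 0 : ℝ) : ℂ) * Complex.I + ((h 1 1 : ℝ) : ℂ) ≠ 0 := by
    intro h0
    rw [h0, div_zero] at h1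
    exact Complex.I_ne_zero h1.symm
  rw [div_eq_iff hden] at h1
  have hre := congrArg Complex.re h1
  have him := congrArg Complex.im h1
  simp at hre him
  have hsq : h 0 0 ^ 2 + h 0 1 ^ 2 = 1 := by
    have h3 : h 1 0 = -h 0 1 := by linarith
    rw [← him, h3] at hdet
    nlinarith [hdet]
  have hn : ‖(⟨h 0 0, h 0 1⟩ : ℂ)‖ = 1 := by
    rw [Complex.norm_def, Complex.normSq_mk, Real.sqrt_eq_one]
    nlinarith [hsq]
  obtain ⟨θ, hθ⟩ := (Complex.norm_eq_one_iff _).1 hn
  have hc : Real.cos θ = h 0 0 := by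
    have := congrArg Complex.re hθ
    rwa [Complex.exp_ofReal_mul_I_re] at this
  have hs : Real.sin θ = h 0 1 := by
    have := congrArg Complex.im hθ
    rwa [Complex.exp_ofReal_mul_I_im] at this
  refine ⟨θ, ?_⟩
  have hk : h = kk θ := by
    apply Matrix.SpecialLinearGroup.ext
    intro i j
    fin_cases i <;> fin_cases j
    · simpa [kk] using hc.symm
    · simpa [kk] using hs.symm
    · have : h 1 0 = -Real.sin θ := by rw [hs]; linarith
      simpa [kk] using this
    · have : h 1 1 = Real.cos θ := by rw [hc]; linarith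
      simpa [kk] using this
  rw [← hk, hh, mul_inv_cancel_left]

private theorem exp_aux {c : ℝ} (hc : 0 < c) (r : ℝ) :
    Real.exp ((-Real.log (c ^ 2) - r) / 2) = c⁻¹ * (Real.exp (r / 2))⁻¹ := by
  have h1 : (-Real.log (c ^ 2) - r) / 2 = -Real.log c + -(r / 2) := by
    rw [Real.log_pow]
    push_cast
    ring
  rw [h1, Real.exp_add, Real.exp_neg, Real.exp_neg, Real.exp_log hc]

private theorem kk_aa_pos (x y c r : ℝ) (hc : 0 < c) (hxy : x ^ 2 + y ^ 2 = 1)
    (hx : x = c) :
    (!![x, y; -y, x] : Matrix (Fin 2) (Fin 2) ℝ) *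
      !![Real.exp (-r / 2), 0; 0, Real.exp (-(-r / 2))] =
    !![Real.exp ((-Real.log (x ^ 2) - r) / 2), 0; 0,
        Real.exp (-((-Real.log (x ^ 2) - r) / 2))] *
      !![1, 1 / 2 * Real.exp r * (2 * y * x); 0, 1] *
      !![1, 0; -(Real.exp (-r) * (y / x)), 1] := by
  subst hx
  have e1 : Real.exp (-r / 2) = (Real.exp (r / 2))⁻¹ := by
    rw [← Real.exp_neg]
    congr 1
    ring
  have e2 : Real.exp r = Real.exp (r / 2) * Real.exp (r / 2) := by
    rw [← Real.exp_add, add_halves]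
  have e3 : Real.exp (-r) = (Real.exp (r / 2) * Real.exp (r / 2))⁻¹ := by
    rw [Real.exp_neg, ← e2]
  rw [Real.exp_neg ((-Real.log (x ^ 2) - r) / 2), Real.exp_neg (-r / 2), exp_aux hc, e1, e3]
  rw [e2]
  have hE : Real.exp (r / 2) ≠ 0 := (Real.exp_pos _).ne'
  set E := Real.exp (r / 2)
  have hx0 : x ≠ 0 := hc.ne'
  have hy : y ^ 2 = 1 - x ^ 2 := by linarith
  ext i j
  fin_cases i <;> fin_cases j
  · simp [Matrix.mul_apply, Fin.sum_univ_two]
    field_simp
    rw [hy]
    ring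
  · simp [Matrix.mul_apply, Fin.sum_univ_two]
    field_simp
  · simp [Matrix.mul_apply, Fin.sum_univ_two]
    field_simp
  · simp [Matrix.mul_apply, Fin.sum_univ_two]
    ring

/-- Decomposition of `kk θ * aa (-r)`: for `cos θ > 0` we have
`kk θ = nn (tan θ) * aa c * oo (-tan θ)` with `exp (-c) = cos θ ^ 2`; then use `oo_aa`, `nn_aa`.
For
`cos θ < 0` the same with `-kk θ` (all entries of the identity are the same up to the sign). -/
theorem kk_aa {θ : ℝ} (hθ : Real.cos θ ≠ 0) (r : ℝ) :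
    kk θ * aa (-r) = aa (-Real.log (Real.cos θ ^ 2) - r) * nn (1 / 2 * Real.exp r *
      Real.sin (2 * θ)) * oo (-(Real.exp (-r) * Real.tan θ)) ∨
    kk θ * aa (-r) = -(aa (-Real.log (Real.cos θ ^ 2) - r) * nn (1 / 2 * Real.exp r *
      Real.sin (2 * θ)) * oo (-(Real.exp (-r) * Real.tan θ))) := by
  have hcs := Real.cos_sq_add_sin_sq θ
  rcases lt_or_gt_of_ne hθ with hneg | hpos
  · right
    have key := kk_aa_pos (-Real.cos θ) (-Real.sin θ) (-Real.cos θ) r (by linarith)
      (by linarith) rfl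
    rw [neg_sq, neg_div_neg_eq, show 2 * -Real.sin θ * -Real.cos θ = Real.sin (2 * θ) by
      rw [Real.sin_two_mul]; ring, ← Real.tan_eq_sin_div_cos] at key
    apply Subtype.ext
    rw [Matrix.SpecialLinearGroup.coe_neg]
    simp only [Matrix.SpecialLinearGroup.coe_mul]
    simp only [kk, aa, nn, oo]
    rw [← key]
    ext i j
    fin_cases i <;> fin_cases j <;> simp [Matrix.mul_apply, Fin.sum_univ_two]
  · left
    have key := kk_aa_pos (Real.cos θ) (Real.sin θ) (Real.cos θ) r hpos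
      (by linarith) rfl
    rw [← Real.sin_two_mul, ← Real.tan_eq_sin_div_cos] at key
    apply Subtype.ext
    simp only [Matrix.SpecialLinearGroup.coe_mul]
    simp only [kk, aa, nn, oo]
    exact key

end Pool.Agent.MP27775c.DO
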