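import Pool.Agent.Lib.MP_27775c_an_DO.MatA

/-!
# MP_27775c_an, project DO, module MatC: pairing of orbits
-/

set_option autoImplicit false

open MeasureTheory Set Filter Topology

namespace Pool.Agent.MP27775c.DO

private theorem MatC_exp {t r : ℝ} (hr : 0 < r) :
    Real.exp ((t - Real.log (r ^ 2)) / 2) = Real.exp (t / 2) / r ∧
      Real.exp (-((t - Real.log (r ^ 2)) / 2)) = Real.exp (-(t / 2)) * r := by
  have h1 : Real.log (r ^ 2) = 2 * Real.log r := by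
    rw [Real.log_pow]
    push_cast
    ring
  rw [h1]
  constructor
  · rw [show (t - 2 * Real.log r) / 2 = t / 2 - Real.log r by ring, Real.exp_sub,
      Real.exp_log hr]
  · rw [show -((t - 2 * Real.log r) / 2) = -(t / 2) + Real.log r by ring, Real.exp_add,
      Real.exp_log hr]

private theorem MatC_ext {x1 x2 x3 x4 y1 y2 y3 y4 e : ℝ} (h1 : x1 = e * y1) (h2 : x2 = e * y2)
    (h3 : x3 = e * y3) (h4 : x4 = e * y4) : !![x1, x2; x3, x4] = e • !![y1, y2; y3, y4] := by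
  subst h1 h2 h3 h4
  ext i j
  fin_cases i <;> fin_cases j <;> simp

/-- the two sides of the identity -/
private theorem MatC_main (g : G) (s t r : ℝ) (hr : 0 < r) (e : ℝ) (he : e * e = 1)
    (h : g 0 0 - g 1 0 * s = e * r) :
    (nn s * aa t * oo (Real.exp t * g 1 0 / (g 0 0 - g 1 0 * s)) : G).1 =
      e • (g * nn ((g 1 1 * s - g 0 1) / (g 0 0 - g 1 0 * s)) *
        aa (t - Real.log ((g 0 0 - g 1 0 * s) ^ 2)) : G).1 := by
  have hdet : g 0 0 * g 1 1 - g 0 1 * g 1 0 = 1 := by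
    have h1 := g.2
    rw [Matrix.det_fin_two] at h1
    exact h1
  have he0 : e ≠ 0 := fun h0 => by
    rw [h0, mul_zero] at he
    exact zero_ne_one he
  have hw : (g 0 0 - g 1 0 * s) ^ 2 = r ^ 2 := by
    rw [h, mul_pow, sq e, he, one_mul]
  have hE : Real.exp t = Real.exp (t / 2) * Real.exp (t / 2) := by
    rw [← Real.exp_add]
    congr 1
    ring
  have hE' : Real.exp (t / 2) * Real.exp (-(t / 2)) = 1 := by
    rw [← Real.exp_add, add_neg_cancel, Real.exp_zero]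
  obtain ⟨x1, x2⟩ := MatC_exp (t := t) hr
  rw [hw]
  obtain ⟨a, ha⟩ : ∃ a, a = g 0 0 := ⟨_, rfl⟩
  obtain ⟨b, hb⟩ : ∃ b, b = g 0 1 := ⟨_, rfl⟩
  obtain ⟨c, hc⟩ : ∃ c, c = g 1 0 := ⟨_, rfl⟩
  obtain ⟨d, hd⟩ : ∃ d, d = g 1 1 := ⟨_, rfl⟩
  have hg : g.1 = !![a, b; c, d] := by
    rw [ha, hb, hc, hd]
    exact Matrix.eta_fin_two g.1
  rw [← ha, ← hc] at h
  rw [← ha, ← hb, ← hc, ← hd] at hdet ⊢
  obtain ⟨E, hEE⟩ : ∃ E, E = Real.exp (t / 2) := ⟨_, rfl⟩
  obtain ⟨E', hEE'⟩ : ∃ E', E' = Real.exp (-(t / 2)) := ⟨_, rfl⟩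
  rw [← hEE, ← hEE'] at hE'
  have k1 : (nn s * aa t * oo (Real.exp t * c / (a - c * s)) : G).1 =
      !![1, s; 0, 1] * !![E, 0; 0, E'] * !![1, 0; E * E * c / (a - c * s), 1] := by
    rw [hEE, hEE', ← hE]
    rfl
  have k2 : (g * nn ((d * s - b) / (a - c * s)) * aa (t - Real.log (r ^ 2)) : G).1 =
      !![a, b; c, d] * !![1, (d * s - b) / (a - c * s); 0, 1] * !![E / r, 0; 0, E' * r] := by
    rw [hEE, hEE', ← x1, ← x2, ← hg]
    rfl
  rw [k1, k2, h]
  have hr0 : r ≠ 0 := hr.ne'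
  obtain ⟨k, hk⟩ : ∃ k, k = (e * r)⁻¹ := ⟨_, rfl⟩
  have hk1 : k * (e * r) = 1 := by
    rw [hk]
    exact inv_mul_cancel₀ (mul_ne_zero he0 hr0)
  have hk2 : r⁻¹ = e * k := by
    rw [hk, mul_inv, ← mul_assoc, mul_inv_cancel₀ he0, one_mul]
  rw [Matrix.mul_fin_two, Matrix.mul_fin_two, Matrix.mul_fin_two, Matrix.mul_fin_two]
  simp only [div_eq_mul_inv, hk2, ← hk]
  refine MatC_ext ?_ ?_ ?_ ?_
  · linear_combination (-E) * hk1 + s * E * c * k * hE' - a * E * k * he - E * k * h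
  · linear_combination (-s * E') * hdet - E' * a * (d * s - b) * hk1 + E' * b * h
  · linear_combination E * c * k * hE' - c * E * k * he
  · linear_combination (-E') * hdet - E' * c * (d * s - b) * hk1 + E' * d * h

/-- The pairing of two orbits of the triangular group along the lower horocycles
(`a = g 0 0`, `b = g 0 1`, `c = g 1 0`, `d = g 1 1`): with `s' = (d s - b) / (a - c s)`,
`t' = t - log ((a - c s) ^ 2)`, `u = exp t * c / (a - c s)`. The sign is the sign of `a - c s`. -/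
theorem pair_eq (g : G) (s t : ℝ) (h : g 0 0 - g 1 0 * s ≠ 0) :
    nn s * aa t * oo (Real.exp t * g 1 0 / (g 0 0 - g 1 0 * s)) =
      g * nn ((g 1 1 * s - g 0 1) / (g 0 0 - g 1 0 * s)) *
        aa (t - Real.log ((g 0 0 - g 1 0 * s) ^ 2)) ∨
    nn s * aa t * oo (Real.exp t * g 1 0 / (g 0 0 - g 1 0 * s)) =
      -(g * nn ((g 1 1 * s - g 0 1) / (g 0 0 - g 1 0 * s)) *
        aa (t - Real.log ((g 0 0 - g 1 0 * s) ^ 2))) := by
  rcases lt_or_gt_of_ne h with h1 | h1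
  · right
    refine Subtype.ext ?_
    rw [MatC_main g s t (-(g 0 0 - g 1 0 * s)) (neg_pos.2 h1) (-1) (by norm_num) (by ring),
      neg_one_smul]
    rfl
  · left
    refine Subtype.ext ?_
    rw [MatC_main g s t (g 0 0 - g 1 0 * s) h1 1 (by norm_num) (by ring), one_smul]

end Pool.Agent.MP27775c.DO
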