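import Pool.Agent.Lib.MP_27775c_an_DO.Defs

/-!
# MP_27775c_an, project DO, module MatA: matrix identities
-/

set_option autoImplicit false

open MeasureTheory Set Filter Topology

namespace Pool.Agent.MP27775c.DO

private theorem matA_ext {g h : G}
    (h00 : (g : Matrix (Fin 2) (Fin 2) ℝ) 0 0 = (h : Matrix (Fin 2) (Fin 2) ℝ) 0 0)
    (h01 : (g : Matrix (Fin 2) (Fin 2) ℝ) 0 1 = (h : Matrix (Fin 2) (Fin 2) ℝ) 0 1)
    (h10 : (g : Matrix (Fin 2) (Fin 2) ℝ) 1 0 = (h : Matrix (Fin 2) (Fin 2) ℝ) 1 0)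
    (h11 : (g : Matrix (Fin 2) (Fin 2) ℝ) 1 1 = (h : Matrix (Fin 2) (Fin 2) ℝ) 1 1) : g = h := by
  refine Matrix.SpecialLinearGroup.ext _ _ fun i j => ?_
  fin_cases i <;> fin_cases j <;> assumption

theorem nn_add (s t : ℝ) : nn (s + t) = nn s * nn t := by
  refine matA_ext ?_ ?_ ?_ ?_ <;> simp [nn, Matrix.mul_apply, Fin.sum_univ_two, add_comm]

theorem nn_zero : nn 0 = 1 := by
  refine matA_ext ?_ ?_ ?_ ?_ <;> simp [nn]

theorem oo_add (s t : ℝ) : oo (s + t) = oo s * oo t := by
  refine matA_ext ?_ ?_ ?_ ?_ <;> simp [oo, Matrix.mul_apply, Fin.sum_univ_two]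

theorem oo_zero : oo 0 = 1 := by
  refine matA_ext ?_ ?_ ?_ ?_ <;> simp [oo]

theorem aa_add (s t : ℝ) : aa (s + t) = aa s * aa t := by
  refine matA_ext ?_ ?_ ?_ ?_
  · simp only [aa, Matrix.SpecialLinearGroup.coe_mul, Matrix.mul_apply, Fin.sum_univ_two]
    simp [← Real.exp_add, add_div]
  · simp [aa, Matrix.mul_apply, Fin.sum_univ_two]
  · simp [aa, Matrix.mul_apply, Fin.sum_univ_two]
  · simp only [aa, Matrix.SpecialLinearGroup.coe_mul, Matrix.mul_apply, Fin.sum_univ_two]
    simp only [Matrix.of_apply, Matrix.cons_val', Matrix.cons_val_one, Matrix.cons_val_zero,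
      Matrix.cons_val_fin_one, mul_zero, zero_mul, zero_add, ← Real.exp_add]
    congr 1
    ring

theorem aa_zero : aa 0 = 1 := by
  refine matA_ext ?_ ?_ ?_ ?_ <;> simp [aa]

theorem kk_add (s t : ℝ) : kk (s + t) = kk s * kk t := by
  refine matA_ext ?_ ?_ ?_ ?_ <;>
    simp [kk, Matrix.mul_apply, Fin.sum_univ_two, Real.cos_add, Real.sin_add] <;> ring

theorem kk_zero : kk 0 = 1 := by
  refine matA_ext ?_ ?_ ?_ ?_ <;> simp [kk]

theorem kk_add_pi (θ : ℝ) : kk (θ + Real.pi) = -kk θ := by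
  refine matA_ext ?_ ?_ ?_ ?_ <;> simp [kk]

theorem kk_periodic : Function.Periodic kk (2 * Real.pi) := by
  intro θ
  refine matA_ext ?_ ?_ ?_ ?_ <;> simp [kk]

theorem aa_nn (t s : ℝ) : aa t * nn s = nn (Real.exp t * s) * aa t := by
  have h1 : Real.exp t * Real.exp (-(t / 2)) = Real.exp (t / 2) := by
    rw [← Real.exp_add]
    congr 1
    ring
  refine matA_ext ?_ ?_ ?_ ?_
  · simp [aa, nn, Matrix.mul_apply, Fin.sum_univ_two]
  · simp only [aa, nn, Matrix.SpecialLinearGroup.coe_mul, Matrix.mul_apply, Fin.sum_univ_two]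
    simp only [Matrix.of_apply, Matrix.cons_val', Matrix.cons_val_one, Matrix.cons_val_zero,
      Matrix.cons_val_fin_one]
    linear_combination (-s) * h1
  · simp [aa, nn, Matrix.mul_apply, Fin.sum_univ_two]
  · simp [aa, nn, Matrix.mul_apply, Fin.sum_univ_two]

theorem nn_aa (s t : ℝ) : nn s * aa t = aa t * nn (Real.exp (-t) * s) := by
  rw [aa_nn, ← mul_assoc, ← Real.exp_add, add_neg_cancel, Real.exp_zero, one_mul]

theorem oo_aa (u t : ℝ) : oo u * aa t = aa t * oo (Real.exp t * u) := by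
  have h1 : Real.exp (-(t / 2)) * Real.exp t = Real.exp (t / 2) := by
    rw [← Real.exp_add]
    congr 1
    ring
  refine matA_ext ?_ ?_ ?_ ?_
  · simp [aa, oo, Matrix.mul_apply, Fin.sum_univ_two]
  · simp [aa, oo, Matrix.mul_apply, Fin.sum_univ_two]
  · simp only [aa, oo, Matrix.SpecialLinearGroup.coe_mul, Matrix.mul_apply, Fin.sum_univ_two]
    simp only [Matrix.of_apply, Matrix.cons_val', Matrix.cons_val_one, Matrix.cons_val_zero,
      Matrix.cons_val_fin_one]
    linear_combination (-u) * h1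
  · simp [aa, oo, Matrix.mul_apply, Fin.sum_univ_two]

theorem continuous_nn : Continuous nn := by
  refine Continuous.subtype_mk (continuous_matrix fun i j => ?_) _
  fin_cases i <;> fin_cases j <;> simp <;> fun_prop

theorem continuous_oo : Continuous oo := by
  refine Continuous.subtype_mk (continuous_matrix fun i j => ?_) _
  fin_cases i <;> fin_cases j <;> simp <;> fun_prop

theorem continuous_aa : Continuous aa := by
  refine Continuous.subtype_mk (continuous_matrix fun i j => ?_) _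
  fin_cases i <;> fin_cases j <;> simp <;> fun_prop

theorem continuous_kk : Continuous kk := by
  refine Continuous.subtype_mk (continuous_matrix fun i j => ?_) _
  fin_cases i <;> fin_cases j <;> simp <;> fun_prop

theorem continuous_pp : Continuous pp := by
  refine (continuous_nn.comp UpperHalfPlane.continuous_re).mul (continuous_aa.comp ?_)
  exact UpperHalfPlane.continuous_im.log fun z => z.im_ne_zero

end Pool.Agent.MP27775c.DO
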