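import Mathlib

/-!
# MP_27775c_an, project DO, module MxA: the maximal inequality of Hopf for Markov kernels
-/

set_option autoImplicit false

open MeasureTheory Set Filter Topology
open scoped ENNReal

namespace Pool.Agent.MP27775c.DO

variable {Y : Type*} [MeasurableSpace Y]

/-- The iterates of a Markov operator. -/
noncomputable def Qit (κ : ProbabilityTheory.Kernel Y Y) : ℕ → (Y → ℝ≥0∞) → Y → ℝ≥0∞
  | 0, f => f
  | k + 1, f => fun y => ∫⁻ z, Qit κ k f z ∂(κ y)

theorem Qit_meas (κ : ProbabilityTheory.Kernel Y Y) [ProbabilityTheory.IsMarkovKernel κ] (k : ℕ)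
    {f : Y → ℝ≥0∞} (hf : Measurable f) : Measurable (Qit κ k f) := by
  induction k with
  | zero => exact hf
  | succ k ih => exact ih.lintegral_kernel

/-- The iterates of a deterministic kernel. -/
theorem Qit_det {τ : Y → Y} (hτ : Measurable τ) (k : ℕ) {f : Y → ℝ≥0∞} (hf : Measurable f)
    (y : Y) : Qit (ProbabilityTheory.Kernel.deterministic τ hτ) k f y = f (τ^[k] y) := by
  induction k generalizing y with
  | zero => rfl
  | succ k ih =>
    change ∫⁻ z, Qit (ProbabilityTheory.Kernel.deterministic τ hτ) k f z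
      ∂(ProbabilityTheory.Kernel.deterministic τ hτ y) = _
    rw [ProbabilityTheory.Kernel.lintegral_deterministic' hτ (Qit_meas _ k hf), ih,
      Function.iterate_succ_apply]

/-- The maxima of the partial sums, minus `c` times the number of summands. -/
private noncomputable def Mx (κ : ProbabilityTheory.Kernel Y Y) (c : ℝ≥0∞) (f : Y → ℝ≥0∞) :
    ℕ → Y → ℝ≥0∞
  | 0 => fun _ => 0
  | n + 1 => fun y => (f y + ∫⁻ z, Mx κ c f n z ∂(κ y)) - c

private theorem Mx_meas (κ : ProbabilityTheory.Kernel Y Y) [ProbabilityTheory.IsMarkovKernel κ]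
    (c : ℝ≥0∞) {f : Y → ℝ≥0∞} (hf : Measurable f) (n : ℕ) : Measurable (Mx κ c f n) := by
  induction n with
  | zero => exact measurable_const
  | succ n ih => exact (hf.add ih.lintegral_kernel).sub measurable_const

private theorem Mx_mono (κ : ProbabilityTheory.Kernel Y Y) (c : ℝ≥0∞) (f : Y → ℝ≥0∞) (n : ℕ)
    (y : Y) : Mx κ c f n y ≤ Mx κ c f (n + 1) y := by
  induction n generalizing y with
  | zero => exact bot_le
  | succ n ih =>
    change (f y + ∫⁻ z, Mx κ c f n z ∂(κ y)) - c ≤ (f y + ∫⁻ z, Mx κ c f (n + 1) z ∂(κ y)) - c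
    exact tsub_le_tsub_right (add_le_add_right (lintegral_mono fun z => ih z) _) _

private theorem Mx_sum (κ : ProbabilityTheory.Kernel Y Y) [ProbabilityTheory.IsMarkovKernel κ]
    (c : ℝ≥0∞) {f : Y → ℝ≥0∞} (hf : Measurable f) (n : ℕ) (y : Y) :
    ∑ k ∈ Finset.range n, Qit κ k f y ≤ Mx κ c f n y + c * n := by
  induction n generalizing y with
  | zero => simp
  | succ n ih =>
    rw [Finset.sum_range_succ']
    have h1 : ∑ k ∈ Finset.range n, Qit κ (k + 1) f y =
        ∫⁻ z, ∑ k ∈ Finset.range n, Qit κ k f z ∂(κ y) := by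
      rw [lintegral_finsetSum _ fun k _ => Qit_meas κ k hf]
      rfl
    have h2 : ∫⁻ z, ∑ k ∈ Finset.range n, Qit κ k f z ∂(κ y) ≤
        (∫⁻ z, Mx κ c f n z ∂(κ y)) + c * n := by
      refine (lintegral_mono fun z => ih z).trans ?_
      rw [lintegral_add_left (Mx_meas κ c hf n), lintegral_const, measure_univ, mul_one]
    have h3 : f y + ∫⁻ z, Mx κ c f n z ∂(κ y) ≤ Mx κ c f (n + 1) y + c := le_tsub_add
    calc ∑ k ∈ Finset.range n, Qit κ (k + 1) f y + Qit κ 0 f y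
        ≤ (∫⁻ z, Mx κ c f n z ∂(κ y)) + c * n + f y := by
          rw [h1]
          exact add_le_add h2 le_rfl
      _ = f y + (∫⁻ z, Mx κ c f n z ∂(κ y)) + c * n := by ring
      _ ≤ Mx κ c f (n + 1) y + c + c * n := add_le_add h3 le_rfl
      _ = Mx κ c f (n + 1) y + c * ((n + 1 : ℕ) : ℝ≥0∞) := by
          push_cast
          ring

private theorem Mx_inv (κ : ProbabilityTheory.Kernel Y Y) [ProbabilityTheory.IsMarkovKernel κ]
    (m : Measure Y) (hm : m.bind κ = m) {g : Y → ℝ≥0∞} (hg : Measurable g) :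
    ∫⁻ y, ∫⁻ z, g z ∂(κ y) ∂m = ∫⁻ y, g y ∂m := by
  conv_rhs => rw [← hm]
  exact (Measure.lintegral_bind κ.measurable.aemeasurable hg.aemeasurable).symm

/-- Hopf's maximal inequality (real form; Garsia's proof). `m` is invariant: `m.bind κ = m`.

Proof. `T f y = ∫ f ∂(κ y)`, `S 0 = 0`, `S (k + 1) = f + T (S k)` (so `S k` is the sum of the
first `k`
iterates), `M = max_{0 ≤ k ≤ n} S k ≥ 0` (`Finset.sup'`). On `{M > 0}` we have `M ≤ f + T M` (for
`1 ≤ k ≤ n`,
`S k = f + T (S (k - 1)) ≤ f + T M`), so `∫_{M > 0} f ≥ ∫_{M > 0} M - ∫_{M > 0} T M ≥ ∫ M - ∫ T M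
= 0`.
State and prove it for integrable `f` with the sets `{M > 0}`; then apply it to `f - c`. For the
version in `ℝ≥0∞` below, `f` has finite integral, so it is finite almost everywhere, and the
iterates too. -/
theorem hopf (κ : ProbabilityTheory.Kernel Y Y) [ProbabilityTheory.IsMarkovKernel κ]
    (m : Measure Y) [IsProbabilityMeasure m] (hm : m.bind κ = m) {f : Y → ℝ≥0∞}
    (hf : Measurable f) {c : ℝ≥0∞} (hc : 0 < c) (hc' : c ≠ ⊤) :
    m {y | ∃ n : ℕ, 0 < n ∧ c * n < ∑ k ∈ Finset.range n, Qit κ k f y} ≤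
      (∫⁻ y, f y ∂m) / c := by
  by_cases hfin : ∫⁻ y, f y ∂m = ⊤
  · rw [hfin, ENNReal.top_div_of_ne_top hc']
    exact le_top
  have hint : ∀ n, ∫⁻ y, Mx κ c f n y ∂m ≠ ⊤ := by
    intro n
    induction n with
    | zero => simp [Mx]
    | succ n ih =>
      refine ne_top_of_le_ne_top (ENNReal.add_ne_top.2 ⟨hfin, ih⟩) ?_
      calc ∫⁻ y, Mx κ c f (n + 1) y ∂m ≤ ∫⁻ y, (f y + ∫⁻ z, Mx κ c f n z ∂(κ y)) ∂m :=
            lintegral_mono fun y => tsub_le_self
        _ = ∫⁻ y, f y ∂m + ∫⁻ y, Mx κ c f n y ∂m := by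
            rw [lintegral_add_left hf, Mx_inv κ m hm (Mx_meas κ c hf n)]
  have hA : ∀ n, m {y | 0 < Mx κ c f n y} ≤ (∫⁻ y, f y ∂m) / c := by
    intro n
    have hms : MeasurableSet {y | 0 < Mx κ c f n y} :=
      measurableSet_lt measurable_const (Mx_meas κ c hf n)
    rw [ENNReal.le_div_iff_mul_le (Or.inl hc.ne') (Or.inl hc')]
    have h1 : ∀ y ∈ {y | 0 < Mx κ c f n y}, Mx κ c f n y + c ≤
        f y + ∫⁻ z, Mx κ c f n z ∂(κ y) := by
      intro y hy
      cases n with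
      | zero => exact absurd (show (0 : ℝ≥0∞) < 0 from hy) (lt_irrefl 0)
      | succ n =>
        have hy' : c < f y + ∫⁻ z, Mx κ c f n z ∂(κ y) := tsub_pos_iff_lt.1 hy
        have h2 : Mx κ c f (n + 1) y + c = f y + ∫⁻ z, Mx κ c f n z ∂(κ y) :=
          tsub_add_cancel_of_le hy'.le
        rw [h2]
        exact add_le_add_right (lintegral_mono fun z => Mx_mono κ c f n z) _
    have h2 : ∫⁻ y, Mx κ c f n y ∂m = ∫⁻ y in {y | 0 < Mx κ c f n y}, Mx κ c f n y ∂m := by
      refine (setLIntegral_eq_of_support_subset ?_).symm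
      intro y hy
      exact pos_iff_ne_zero.2 hy
    have h3 : ∫⁻ y, Mx κ c f n y ∂m + m {y | 0 < Mx κ c f n y} * c ≤
        ∫⁻ y, Mx κ c f n y ∂m + ∫⁻ y, f y ∂m := by
      calc ∫⁻ y, Mx κ c f n y ∂m + m {y | 0 < Mx κ c f n y} * c
          = ∫⁻ y in {y | 0 < Mx κ c f n y}, (Mx κ c f n y + c) ∂m := by
            rw [lintegral_add_left (Mx_meas κ c hf n), ← h2, setLIntegral_const, mul_comm]
        _ ≤ ∫⁻ y in {y | 0 < Mx κ c f n y}, (f y + ∫⁻ z, Mx κ c f n z ∂(κ y)) ∂m :=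
            setLIntegral_mono' hms h1
        _ ≤ ∫⁻ y, (f y + ∫⁻ z, Mx κ c f n z ∂(κ y)) ∂m := setLIntegral_le_lintegral _ _
        _ = ∫⁻ y, f y ∂m + ∫⁻ y, Mx κ c f n y ∂m := by
            rw [lintegral_add_left hf, Mx_inv κ m hm (Mx_meas κ c hf n)]
        _ = ∫⁻ y, Mx κ c f n y ∂m + ∫⁻ y, f y ∂m := add_comm _ _
    exact (ENNReal.add_le_add_iff_left (hint n)).1 h3
  have hmono : Monotone fun n => {y | 0 < Mx κ c f n y} :=
    monotone_nat_of_le_succ fun n y hy => lt_of_lt_of_le hy (Mx_mono κ c f n y)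
  calc m {y | ∃ n : ℕ, 0 < n ∧ c * n < ∑ k ∈ Finset.range n, Qit κ k f y}
      ≤ m (⋃ n, {y | 0 < Mx κ c f n y}) := by
        refine measure_mono ?_
        rintro y ⟨n, -, hn⟩
        refine mem_iUnion.2 ⟨n, ?_⟩
        show 0 < Mx κ c f n y
        rw [pos_iff_ne_zero]
        intro h0
        have h4 := Mx_sum κ c hf n y
        rw [h0, zero_add] at h4
        exact absurd hn (not_lt.2 h4)
    _ = ⨆ n, m {y | 0 < Mx κ c f n y} := hmono.measure_iUnion
    _ ≤ (∫⁻ y, f y ∂m) / c := iSup_le hA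

end Pool.Agent.MP27775c.DO
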