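import Pool.Agent.Lib.MP_27775c_an_DO.OmA

/-!
# MP_27775c_an, project DO, module OmB: typical orbits
-/

set_option autoImplicit false

open MeasureTheory Set Filter Topology

namespace Pool.Agent.MP27775c.DO

variable {Y : Type*} [TopologicalSpace Y] [PolishSpace Y] [MeasurableSpace Y] [BorelSpace Y]
  (A : RAct Y)

/-- The points whose orbit under the triangular group is typical. -/
def OmP (Ω : Set Y) : Set Y := {x | ∀ᵐ p : ℝ × ℝ, A.act x (nn p.1 * aa p.2) ∈ Ω}

private theorem omB_joint {Ω : Set Y} (hΩ : MeasurableSet Ω) :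
    MeasurableSet {q : Y × (ℝ × ℝ) | A.act q.1 (nn q.2.1 * aa q.2.2) ∈ Ω} := by
  have hc : Continuous fun p : ℝ × ℝ => nn p.1 * aa p.2 :=
    (continuous_nn.comp continuous_fst).mul (continuous_aa.comp continuous_snd)
  exact meas_joint A hc hΩ

theorem OmP_meas {Ω : Set Y} (hΩ : MeasurableSet Ω) : MeasurableSet (OmP A Ω) := by
  have h1 := measurable_measure_prodMk_left (ν := (volume : Measure (ℝ × ℝ)))
    (omB_joint A hΩ).compl
  exact h1 (measurableSet_singleton 0)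

/-- Proof: Fubini and `tr_nn_aa`. -/
theorem OmP_full {m : Measure Y} [IsProbabilityMeasure m] (h : IsPInv A m) {Ω : Set Y}
    (hΩ : MeasurableSet Ω) (h0 : m Ωᶜ = 0) : m (OmP A Ω)ᶜ = 0 := by
  have h1 : ∀ᵐ p : ℝ × ℝ, ∀ᵐ x ∂m, A.act x (nn p.1 * aa p.2) ∈ Ω := by
    refine Eventually.of_forall fun p => ?_
    have h2 : (tr A m (nn p.1 * aa p.2)) Ωᶜ = 0 := by
      rw [tr_nn_aa A h, h0]
    rw [tr, Measure.map_apply (meas_act A _) hΩ.compl] at h2
    exact h2
  exact (Measure.ae_ae_comm (omB_joint A hΩ)).2 h1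

private theorem omB_nn {Ω : Set Y} {x : Y} (h : x ∈ OmP A Ω) (s : ℝ) :
    A.act x (nn s) ∈ OmP A Ω := by
  have h1 := (measurePreserving_add_left (volume : Measure (ℝ × ℝ))
    ((s, 0) : ℝ × ℝ)).quasiMeasurePreserving.ae h
  refine h1.mono fun p hp => ?_
  change A.act x (nn (s + p.1) * aa (0 + p.2)) ∈ Ω at hp
  change A.act (A.act x (nn s)) (nn p.1 * aa p.2) ∈ Ω
  rw [zero_add, nn_add, mul_assoc, A.act_mul] at hp
  exact hp

/-- Proof: translation `(s, t) ↦ (s₀ + s, t)`. -/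
theorem OmP_nn {Ω : Set Y} (hΩ : MeasurableSet Ω) (x : Y) (s : ℝ) :
    A.act x (nn s) ∈ OmP A Ω ↔ x ∈ OmP A Ω := by
  refine ⟨fun h => ?_, fun h => omB_nn A h s⟩
  have h1 := omB_nn A h (-s)
  rwa [← A.act_mul, ← nn_add, add_neg_cancel, nn_zero, A.act_one] at h1

private theorem omB_aa {Ω : Set Y} {x : Y} (h : x ∈ OmP A Ω) (t : ℝ) :
    A.act x (aa t) ∈ OmP A Ω := by
  have h1 : Measure.QuasiMeasurePreserving (fun s : ℝ => Real.exp t * s) volume volume := by
    refine ⟨measurable_const_mul _, ?_⟩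
    rw [Real.map_volume_mul_left (Real.exp_pos t).ne']
    exact Measure.smul_absolutelyContinuous
  have h2 : Measure.QuasiMeasurePreserving (fun s : ℝ => t + s) volume volume :=
    (measurePreserving_add_left volume t).quasiMeasurePreserving
  have h3 : Measure.QuasiMeasurePreserving
      (Prod.map (fun s : ℝ => Real.exp t * s) fun s : ℝ => t + s)
      (volume : Measure (ℝ × ℝ)) (volume : Measure (ℝ × ℝ)) :=
    MeasureTheory.QuasiMeasurePreserving.prodMap h1 h2
  refine (h3.ae h).mono fun p hp => ?_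
  change A.act x (nn (Real.exp t * p.1) * aa (t + p.2)) ∈ Ω at hp
  change A.act (A.act x (aa t)) (nn p.1 * aa p.2) ∈ Ω
  rw [aa_add, ← mul_assoc, ← aa_nn, mul_assoc, A.act_mul] at hp
  exact hp

/-- Proof: `aa t₀ * nn s * aa t = nn (exp t₀ * s) * aa (t₀ + t)`. -/
theorem OmP_aa {Ω : Set Y} (hΩ : MeasurableSet Ω) (x : Y) (t : ℝ) :
    A.act x (aa t) ∈ OmP A Ω ↔ x ∈ OmP A Ω := by
  refine ⟨fun h => ?_, fun h => omB_aa A h t⟩
  have h1 := omB_aa A h (-t)
  rwa [← A.act_mul, ← aa_add, add_neg_cancel, aa_zero, A.act_one] at h1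

end Pool.Agent.MP27775c.DO
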