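import Pool.Agent.Lib.MP_27775c_an_DO.Kap
import Pool.Agent.Lib.MP_27775c_an_DO.Mx

/-!
# MP_27775c_an, project DO, module OmA: the argument of Hopf
-/

set_option autoImplicit false

open MeasureTheory Set Filter Topology

namespace Pool.Agent.MP27775c.DO

variable {Y : Type*} [TopologicalSpace Y] [PolishSpace Y] [MeasurableSpace Y] [BorelSpace Y]
  (A : RAct Y)

/-- The mean difference of `U` along the backward orbits of `x` and `y`. -/
noncomputable def mdif (U : Y → ℝ) (x y : Y) (n : ℕ) : ℝ :=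
  1 / (n : ℝ) * ∑ k ∈ Finset.range n,
    |U (A.act x (aa (-(k : ℝ)))) - U (A.act y (aa (-(k : ℝ))))|

/-- Uniform continuity on compact sets. Proof: the function `(z, e) ↦ F (z · oo e) - F z` is
continuous on `C × [-1, 1]` and vanishes for `e = 0`; compactness (tube lemma / uniform
continuity). -/
theorem unif_oo (F : BoundedContinuousFunction Y ℝ) {C : Set Y} (hC : IsCompact C) {ε : ℝ}
    (hε : 0 < ε) : ∃ δ : ℝ, 0 < δ ∧ ∀ z ∈ C, ∀ e : ℝ, |e| < δ →
      |F (A.act z (oo e)) - F z| < ε := by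
  have hc : Continuous fun p : ℝ × Y => |F (A.act p.2 (oo p.1)) - F p.2| := by
    have h1 : Continuous fun p : ℝ × Y => A.act p.2 (oo p.1) :=
      A.cont.comp (continuous_snd.prodMk (continuous_oo.comp continuous_fst))
    exact ((F.continuous.comp h1).sub (F.continuous.comp continuous_snd)).abs
  have h2 : ∀ᶠ u in 𝓝 (0 : ℝ), ∀ z ∈ C, |F (A.act z (oo u)) - F z| < ε := by
    refine hC.eventually_forall_of_forall_eventually fun z hz => ?_
    have h3 := hc.tendsto (0, z)
    simp only [oo_zero, A.act_one, sub_self, abs_zero] at h3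
    exact h3.eventually_lt_const hε
  obtain ⟨δ, hδ, h3⟩ := Metric.eventually_nhds_iff.1 h2
  refine ⟨δ, hδ, fun z hz e he => h3 ?_ z hz⟩
  rw [Real.dist_eq, sub_zero]
  exact he

omit [PolishSpace Y] [MeasurableSpace Y] [BorelSpace Y] in
private theorem omA_iter (y : Y) (k : ℕ) :
    (fun z => A.act z (aa (-1)))^[k] y = A.act y (aa (-(k : ℝ))) := by
  induction k with
  | zero => simp [aa_zero, A.act_one]
  | succ k ih =>
    rw [Function.iterate_succ_apply', ih, ← A.act_mul, ← aa_add]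
    push_cast
    rw [neg_add]

/-- The error function of a bounded continuous function and a compact set. -/
private noncomputable def omA_E (U : Y → ℝ) (F : BoundedContinuousFunction Y ℝ) (C : Set Y) :
    Y → ENNReal := fun y => ‖U y - F y‖ₑ + Cᶜ.indicator 1 y

omit [PolishSpace Y] in
private theorem omA_E_meas {U : Y → ℝ} (hU : Measurable U) (F : BoundedContinuousFunction Y ℝ)
    {C : Set Y} (hC : MeasurableSet C) : Measurable (omA_E U F C) := by
  exact (hU.sub F.continuous.measurable).enorm.add (measurable_one.indicator hC.compl)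

private theorem omA_choose (m : Measure Y) [IsProbabilityMeasure m] {U : Y → ℝ}
    (hU : Measurable U) (h01 : ∀ y, 0 ≤ U y ∧ U y ≤ 1) {δ : ℝ} (hδ : 0 < δ) :
    ∃ (F : BoundedContinuousFunction Y ℝ) (C : Set Y), IsCompact C ∧ MeasurableSet C ∧
      ∫⁻ y, omA_E U F C y ∂m ≤ ENNReal.ofReal (2 * δ) := by
  have hδ0 : ENNReal.ofReal δ ≠ 0 := (ENNReal.ofReal_pos.2 hδ).ne'
  have hL : MemLp U 1 m := by
    refine MemLp.of_bound hU.aestronglyMeasurable 1 (Eventually.of_forall fun y => ?_)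
    rw [Real.norm_eq_abs, abs_of_nonneg (h01 y).1]
    exact (h01 y).2
  obtain ⟨F, hF, -⟩ := hL.exists_boundedContinuous_eLpNorm_sub_le ENNReal.one_ne_top hδ0
  obtain ⟨C, -, hC, hCm⟩ := MeasurableSet.univ.exists_isCompact_sdiff_lt (μ := m)
    (measure_ne_top m _) hδ0
  refine ⟨F, C, hC, hC.measurableSet, ?_⟩
  rw [eLpNorm_one_eq_lintegral_enorm] at hF
  have hme : Measurable fun y => ‖U y - F y‖ₑ := (hU.sub F.continuous.measurable).enorm
  unfold omA_E
  rw [lintegral_add_left hme,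
    lintegral_indicator_one hC.measurableSet.compl, two_mul, ENNReal.ofReal_add hδ.le hδ.le]
  rw [← compl_eq_univ_diff] at hCm
  exact add_le_add hF hCm.le

/-- The set where some average is too large. -/
private def omA_B (E : Y → ENNReal) (c : ℝ) : Set Y :=
  {y | ∃ n : ℕ, 0 < n ∧ ENNReal.ofReal c * n <
    ∑ k ∈ Finset.range n, E ((fun z => A.act z (aa (-1)))^[k] y)}

omit [PolishSpace Y] in
private theorem omA_B_meas {E : Y → ENNReal} (hE : Measurable E) (c : ℝ) :
    MeasurableSet (omA_B A E c) := by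
  have h1 : omA_B A E c = ⋃ n : ℕ, {y | 0 < n ∧ ENNReal.ofReal c * n <
      ∑ k ∈ Finset.range n, E ((fun z => A.act z (aa (-1)))^[k] y)} := by
    ext y
    simp [omA_B]
  rw [h1]
  refine MeasurableSet.iUnion fun n => ?_
  have h2 : Measurable fun y => ∑ k ∈ Finset.range n,
      E ((fun z => A.act z (aa (-1)))^[k] y) :=
    Finset.measurable_sum _ fun k _ => hE.comp ((meas_act A (aa (-1))).iterate k)
  have h3 : MeasurableSet {y | ENNReal.ofReal c * n <
      ∑ k ∈ Finset.range n, E ((fun z => A.act z (aa (-1)))^[k] y)} :=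
    measurableSet_lt measurable_const h2
  exact (MeasurableSet.const (0 < n)).inter h3

omit [PolishSpace Y] [MeasurableSpace Y] [BorelSpace Y] in
private theorem omA_pt {U : Y → ℝ} (h01 : ∀ y, 0 ≤ U y ∧ U y ≤ 1)
    (F : BoundedContinuousFunction Y ℝ) {C : Set Y} {η δ : ℝ} (hη : 0 ≤ η)
    (h : ∀ z ∈ C, ∀ e : ℝ, |e| < δ → |F (A.act z (oo e)) - F z| < η) (z : Y) {e : ℝ}
    (he : |e| < δ) :
    ENNReal.ofReal |U z - U (A.act z (oo e))| ≤
      omA_E U F C z + omA_E U F C (A.act z (oo e)) + ENNReal.ofReal η := by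
  by_cases hz : z ∈ C
  · have h1 := (h z hz e he).le
    have h2 : |U z - U (A.act z (oo e))| ≤ |U z - F z| + |U (A.act z (oo e)) -
        F (A.act z (oo e))| + η := by
      have e1 : U z - U (A.act z (oo e)) = (U z - F z) - (U (A.act z (oo e)) -
        F (A.act z (oo e))) - (F (A.act z (oo e)) - F z) := by ring
      rw [e1]
      refine (abs_sub _ _).trans (add_le_add ?_ h1)
      exact abs_sub _ _
    calc ENNReal.ofReal |U z - U (A.act z (oo e))| ≤ ENNReal.ofReal (|U z - F z| +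
          |U (A.act z (oo e)) - F (A.act z (oo e))| + η) := ENNReal.ofReal_le_ofReal h2
      _ = ‖U z - F z‖ₑ + ‖U (A.act z (oo e)) - F (A.act z (oo e))‖ₑ + ENNReal.ofReal η := by
          rw [ENNReal.ofReal_add (by positivity) hη, ENNReal.ofReal_add (by positivity)
            (by positivity), ← Real.norm_eq_abs, ← Real.norm_eq_abs, ofReal_norm,
            ofReal_norm]
      _ ≤ _ := by
          unfold omA_E
          gcongr
          · exact le_self_add
          · exact le_self_add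
  · have h1 : |U z - U (A.act z (oo e))| ≤ 1 := by
      rw [abs_le]
      have h2 := h01 z
      have h3 := h01 (A.act z (oo e))
      constructor <;> linarith [h2.1, h2.2, h3.1, h3.2]
    have h2 : Cᶜ.indicator (1 : Y → ENNReal) z = 1 := by
      rw [indicator_of_mem (show z ∈ Cᶜ from hz)]
      rfl
    calc ENNReal.ofReal |U z - U (A.act z (oo e))| ≤ ENNReal.ofReal 1 :=
          ENNReal.ofReal_le_ofReal h1
      _ = Cᶜ.indicator (1 : Y → ENNReal) z := by rw [h2, ENNReal.ofReal_one]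
      _ ≤ omA_E U F C z := le_add_self
      _ ≤ omA_E U F C z + omA_E U F C (A.act z (oo e)) := le_self_add
      _ ≤ _ := le_self_add

omit [PolishSpace Y] [MeasurableSpace Y] [BorelSpace Y] in
private theorem omA_sum {U : Y → ℝ} (h01 : ∀ y, 0 ≤ U y ∧ U y ≤ 1) (E : Y → ENNReal)
    {η : ℝ} (hη : 0 < η) {u : ℝ} {x : Y} {k₀ : ℕ}
    (h : ∀ k : ℕ, k₀ ≤ k → ENNReal.ofReal |U (A.act x (aa (-(k : ℝ)))) -
      U (A.act (A.act x (oo u)) (aa (-(k : ℝ))))| ≤ E (A.act x (aa (-(k : ℝ)))) +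
        E (A.act (A.act x (oo u)) (aa (-(k : ℝ)))) + ENNReal.ofReal η)
    (hx : x ∉ omA_B A E η) (hx' : A.act x (oo u) ∉ omA_B A E η) (n : ℕ) (hn : 0 < n) :
    mdif A U x (A.act x (oo u)) n ≤ k₀ / n + 3 * η := by
  set x' := A.act x (oo u) with hxu
  have e1 : ∀ y ∉ omA_B A E η, ∑ k ∈ Finset.range n, E (A.act y (aa (-(k : ℝ)))) ≤
      ENNReal.ofReal η * n := by
    intro y hy
    by_contra hc
    refine hy ⟨n, hn, ?_⟩
    simp only [omA_iter]
    exact not_le.1 hc
  have e2 : ∀ k ∈ Finset.range n, ENNReal.ofReal |U (A.act x (aa (-(k : ℝ)))) -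
      U (A.act x' (aa (-(k : ℝ))))| ≤ (if k < k₀ then 1 else 0) +
        (E (A.act x (aa (-(k : ℝ)))) + E (A.act x' (aa (-(k : ℝ)))) + ENNReal.ofReal η) := by
    intro k _
    by_cases hk : k < k₀
    · rw [if_pos hk]
      refine le_trans ?_ le_self_add
      rw [← ENNReal.ofReal_one]
      refine ENNReal.ofReal_le_ofReal ?_
      rw [abs_le]
      have h2 := h01 (A.act x (aa (-(k : ℝ))))
      have h3 := h01 (A.act x' (aa (-(k : ℝ))))
      constructor <;> linarith [h2.1, h2.2, h3.1, h3.2]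
    · rw [if_neg hk, zero_add]
      exact h k (not_lt.1 hk)
  have e3 : ∑ k ∈ Finset.range n, (if k < k₀ then (1 : ENNReal) else 0) ≤ k₀ := by
    rw [Finset.sum_ite, Finset.sum_const_zero, add_zero, Finset.sum_const, nsmul_eq_mul, mul_one]
    have h4 : ((Finset.range n).filter fun k => k < k₀).card ≤ k₀ := by
      calc _ ≤ (Finset.range k₀).card := by
            refine Finset.card_le_card fun k hk => ?_
            exact Finset.mem_range.2 (Finset.mem_filter.1 hk).2
        _ = k₀ := Finset.card_range _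
    exact_mod_cast h4
  have e4 : ENNReal.ofReal (∑ k ∈ Finset.range n, |U (A.act x (aa (-(k : ℝ)))) -
      U (A.act x' (aa (-(k : ℝ))))|) ≤ ENNReal.ofReal (k₀ + 3 * η * n) := by
    rw [ENNReal.ofReal_sum_of_nonneg fun _ _ => abs_nonneg _]
    refine (Finset.sum_le_sum e2).trans ?_
    rw [Finset.sum_add_distrib, Finset.sum_add_distrib, Finset.sum_add_distrib, Finset.sum_const,
      Finset.card_range, nsmul_eq_mul]
    have e5 : ENNReal.ofReal (k₀ + 3 * η * n) = k₀ + (ENNReal.ofReal η * n +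
        ENNReal.ofReal η * n + n * ENNReal.ofReal η) := by
      rw [ENNReal.ofReal_add (by positivity) (by positivity), ENNReal.ofReal_natCast,
        ENNReal.ofReal_mul (by positivity), ENNReal.ofReal_mul (by positivity),
        ENNReal.ofReal_natCast]
      have : ENNReal.ofReal 3 = 3 := by simp
      rw [this]
      ring
    rw [e5]
    exact add_le_add e3 (add_le_add (add_le_add (e1 x hx) (e1 x' hx')) le_rfl)
  rw [ENNReal.ofReal_le_ofReal_iff (by positivity)] at e4
  have hn' : (0 : ℝ) < n := by exact_mod_cast hn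
  unfold mdif
  rw [one_div, inv_mul_le_iff₀ hn']
  refine e4.trans (le_of_eq ?_)
  field_simp

/-- The set of typical points.

Proof. For every `j` choose a bounded continuous function `F j` with `∫ |U - F j| ∂m ≤ 8 ^ (-j)`
(`MemLp.exists_boundedContinuous_integral_rpow_sub_le`, or `..._eLpNorm_sub_le`; `m` is a finite
measure on
a metrizable space), truncated to `0 ≤ F j ≤ 1`, and a compact `C j` with `m (C j)ᶜ ≤ 8 ^ (-j)`.
Let
`E j = |U - F j| + indicator (C j)ᶜ 1`, `∫ E j ≤ 2 * 8 ^ (-j)`. By `hopf_det` for `τ y = y · aa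
(-1)` the set
where some average `1 / n * ∑ k < n, E j (y · aa (-k))` is larger than `2 ^ (-j)` has measure at
most
`2 * 4 ^ (-j)`. By Borel-Cantelli `Ω = {y | for all large j, for all n ≥ 1, the average is ≤ 2 ^
(-j)}`
has full measure; it is measurable. Let `x` and `x' = x · oo u` be in `Ω`. By `oo_aa`
`x' · aa (-k) = (x · aa (-k)) · oo (exp (-k) * u)`. For large `j`, with `z = x · aa (-k)`:
`|U z - U (z')| ≤ E j z + E j z' + |F j z - F j z'|`, and the last term is at most `2 ^ (-j)` if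
`z ∈ C j` and
`k ≥ k₀` (`unif_oo`), and at most `1 ≤ E j z` if `z ∉ C j`. So the limes superior of the averages
is at
most `5 * 2 ^ (-j)`. -/
theorem exists_Om {m : Measure Y} [IsProbabilityMeasure m] (ha : ∀ t, tr A m (aa t) = m)
    {U : Y → ℝ} (hU : Measurable U) (h01 : ∀ y, 0 ≤ U y ∧ U y ≤ 1) :
    ∃ Ω : Set Y, MeasurableSet Ω ∧ m Ωᶜ = 0 ∧ ∀ x ∈ Ω, ∀ u : ℝ, A.act x (oo u) ∈ Ω →
      Tendsto (mdif A U x (A.act x (oo u))) atTop (𝓝 0) := by
  have hch : ∀ j : ℕ, ∃ (F : BoundedContinuousFunction Y ℝ) (C : Set Y), IsCompact C ∧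
      MeasurableSet C ∧ ∫⁻ y, omA_E U F C y ∂m ≤ ENNReal.ofReal (2 * (1 / 8) ^ j) := fun j =>
    omA_choose m hU h01 (by positivity)
  choose F C hC hCm hI using hch
  have hEm : ∀ j, Measurable (omA_E U (F j) (C j)) := fun j => omA_E_meas hU (F j) (hCm j)
  have hB : ∀ j : ℕ, m (omA_B A (omA_E U (F j) (C j)) ((1 / 2) ^ j)) ≤
      ENNReal.ofReal (2 * (1 / 4) ^ j) := by
    intro j
    have hp : (0 : ℝ) < (1 / 2) ^ j := by positivity
    refine (hopf_det (mp_of_tr A (ha (-1))) (hEm j) (ENNReal.ofReal_pos.2 hp)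
      ENNReal.ofReal_ne_top).trans ?_
    refine (ENNReal.div_le_div_right (hI j) _).trans (le_of_eq ?_)
    rw [← ENNReal.ofReal_div_of_pos hp]
    congr 1
    rw [mul_div_assoc, ← div_pow]
    norm_num
  have hs : ∑' j, m (omA_B A (omA_E U (F j) (C j)) ((1 / 2) ^ j)) ≠ ⊤ := by
    refine ne_top_of_le_ne_top ?_ (ENNReal.tsum_le_tsum hB)
    have h1 : Summable fun j : ℕ => 2 * (1 / 4 : ℝ) ^ j :=
      (summable_geometric_of_lt_one (by norm_num) (by norm_num)).mul_left 2
    exact h1.tsum_ofReal_ne_top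
  have hΩ : MeasurableSet {y | ∀ᶠ j in atTop,
      y ∉ omA_B A (omA_E U (F j) (C j)) ((1 / 2) ^ j)} := by
    have h1 := MeasurableSet.measurableSet_liminf (s := fun j =>
      (omA_B A (omA_E U (F j) (C j)) ((1 / 2) ^ j))ᶜ) fun j => (omA_B_meas A (hEm j) _).compl
    have h2 : liminf (fun j => (omA_B A (omA_E U (F j) (C j)) ((1 / 2) ^ j))ᶜ) atTop =
        {y | ∀ᶠ j in atTop, y ∉ omA_B A (omA_E U (F j) (C j)) ((1 / 2) ^ j)} := by
      ext y
      rw [mem_liminf_iff_eventually_mem]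
      rfl
    rwa [h2] at h1
  refine ⟨_, hΩ, ae_eventually_notMem hs, fun x hx u hx' => ?_⟩
  rw [Metric.tendsto_atTop]
  intro ε hε
  have hj : ∀ᶠ j : ℕ in atTop, (1 / 2 : ℝ) ^ j < ε / 6 :=
    (tendsto_pow_atTop_nhds_zero_of_lt_one (by norm_num) (by norm_num)).eventually_lt_const
      (by positivity)
  obtain ⟨j, hj1, hj2, hj3⟩ := (hj.and (hx.and hx')).exists
  have hη : (0 : ℝ) < (1 / 2) ^ j := by positivity
  obtain ⟨δ, hδ, hu⟩ := unif_oo A (F j) (hC j) hη
  have hk : ∀ᶠ k : ℕ in atTop, |Real.exp (-(k : ℝ)) * u| < δ := by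
    have h5 : Tendsto (fun k : ℕ => Real.exp (-(k : ℝ)) * u) atTop (𝓝 (0 * u)) :=
      (Real.tendsto_exp_neg_atTop_nhds_zero.comp tendsto_natCast_atTop_atTop).mul_const u
    have h6 := h5.abs
    rw [zero_mul, abs_zero] at h6
    exact h6.eventually_lt_const hδ
  obtain ⟨k₀, hk₀⟩ := eventually_atTop.1 hk
  have hsum := omA_sum A h01 (omA_E U (F j) (C j)) hη (u := u) (x := x) (k₀ := k₀) (by
    intro k hk1
    rw [← A.act_mul x, oo_aa, A.act_mul]
    exact omA_pt A h01 (F j) hη.le hu _ (hk₀ k hk1)) hj2 hj3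
  have hn : ∀ᶠ n : ℕ in atTop, (k₀ : ℝ) / n < ε / 2 :=
    (tendsto_const_div_atTop_nhds_zero_nat (k₀ : ℝ)).eventually_lt_const (by positivity)
  obtain ⟨n₀, hn₀⟩ := eventually_atTop.1 hn
  refine ⟨n₀ + 1, fun n hn1 => ?_⟩
  have h7 := hsum n (by omega)
  have h8 := hn₀ n (by omega)
  have h9 : 0 ≤ mdif A U x (A.act x (oo u)) n := by
    unfold mdif
    positivity
  rw [Real.dist_eq, sub_zero, abs_of_nonneg h9]
  linarith

end Pool.Agent.MP27775c.DO
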