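import Pool.Agent.Lib.MP_27775c_an_DO.Om
import Pool.Agent.Lib.MP_27775c_an_DO.MatC

/-!
# MP_27775c_an, project DO, module PaA: null sets, first change of parameters
-/

set_option autoImplicit false

open MeasureTheory Set Filter Topology

namespace Pool.Agent.MP27775c.DO

variable {Y : Type*} [TopologicalSpace Y] [PolishSpace Y] [MeasurableSpace Y] [BorelSpace Y]
  (A : RAct Y)

private theorem paA_homog {a b c d : ℝ} (hc : c ≠ 0) (hdet : a * d - b * c = 1) {B : Set ℝ}
    (hB : volume B = 0) : volume {s : ℝ | (d * s - b) / (a - c * s) ∈ B} = 0 := by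
  have h1 : volume ((fun x : ℝ => (a * x + b) / (c * x + d)) '' (B ∩ {x | c * x + d ≠ 0})) = 0 := by
    refine addHaar_image_eq_zero_of_differentiableOn_of_addHaar_eq_zero volume ?_
      (measure_mono_null inter_subset_left hB)
    intro x hx
    have hx' : c * x + d ≠ 0 := hx.2
    have h2 : DifferentiableAt ℝ (fun x : ℝ => (a * x + b) / (c * x + d)) x :=
      ((differentiableAt_id.const_mul a).add_const b).div
        ((differentiableAt_id.const_mul c).add_const d) hx'
    exact h2.differentiableWithinAt
  have h2 : volume ({a / c} : Set ℝ) = 0 := Real.volume_singleton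
  refine measure_mono_null (t := {a / c} ∪
    (fun x : ℝ => (a * x + b) / (c * x + d)) '' (B ∩ {x | c * x + d ≠ 0})) ?_
    (measure_union_null h2 h1)
  intro s hs
  have hs' : (d * s - b) / (a - c * s) ∈ B := hs
  by_cases h0 : a - c * s = 0
  · left
    have : s = a / c := by
      field_simp
      linarith
    exact this
  · right
    have h3 : c * ((d * s - b) / (a - c * s)) + d = 1 / (a - c * s) := by
      rw [eq_div_iff h0, add_mul, mul_assoc, div_mul_cancel₀ _ h0]
      linear_combination hdet
    have h4 : a * ((d * s - b) / (a - c * s)) + b = s / (a - c * s) := by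
      rw [eq_div_iff h0, add_mul, mul_assoc, div_mul_cancel₀ _ h0]
      linear_combination s * hdet
    refine ⟨_, ⟨hs', ?_⟩, ?_⟩
    · change c * ((d * s - b) / (a - c * s)) + d ≠ 0
      rw [h3]
      exact one_div_ne_zero h0
    · change (a * ((d * s - b) / (a - c * s)) + b) / (c * ((d * s - b) / (a - c * s)) + d) = s
      rw [h3, h4, div_div_div_cancel_right₀ h0, div_one]

/-- Null sets under the change of the parameters of `pair_eq`: the map
`(s, t) ↦ ((d s - b) / (a - c s), t - log ((a - c s) ^ 2))` is non-singular.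

Proof. The map is a bijection of `{(s, t) | a - c s ≠ 0}` onto `{(s', t') | d + ... ≠ 0}` with
smooth
inverse; it maps null sets back to null sets. In practice: by Fubini for the product measure it is
enough that for fixed `s` the translation in `t` preserves null sets and that the homography
`s ↦ (d s - b) / (a - c s)` (derivative `1 / (a - c s) ^ 2`, injective on `{a - c s ≠ 0}`) has
null
preimages of null sets (`MeasureTheory.lintegral_image_eq_lintegral_abs_deriv_mul` on measurable
sets, or: the preimage of a null set under an injective differentiable map with non-zero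
derivative). -/
theorem nonsing (g : G) (hc : g 1 0 ≠ 0) {p : ℝ × ℝ → Prop} (hp : ∀ᵐ q : ℝ × ℝ, p q) :
    ∀ᵐ q : ℝ × ℝ, p ((g 1 1 * q.1 - g 0 1) / (g 0 0 - g 1 0 * q.1),
      q.2 - Real.log ((g 0 0 - g 1 0 * q.1) ^ 2)) := by
  have hdet : g 0 0 * g 1 1 - g 0 1 * g 1 0 = 1 := by
    have := g.det_coe
    rwa [Matrix.det_fin_two] at this
  obtain ⟨N, hN1, hN2, hN3⟩ := exists_measurable_superset_of_null (ae_iff.1 hp)
  have hφ : Measurable fun q : ℝ × ℝ => (((g 1 1 * q.1 - g 0 1) / (g 0 0 - g 1 0 * q.1),
      q.2 - Real.log ((g 0 0 - g 1 0 * q.1) ^ 2)) : ℝ × ℝ) := by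
    have h1 : Measurable fun q : ℝ × ℝ => g 0 0 - g 1 0 * q.1 :=
      measurable_const.sub (measurable_fst.const_mul _)
    exact (((measurable_fst.const_mul _).sub measurable_const).div h1).prodMk
      (measurable_snd.sub (Real.measurable_log.comp (h1.pow_const 2)))
  have hN4 : (fun x => volume (Prod.mk x ⁻¹' N)) =ᵐ[volume] 0 := by
    rw [Measure.volume_eq_prod] at hN3
    exact (Measure.measure_prod_null hN2).1 hN3
  have hB : volume {x : ℝ | ¬ volume (Prod.mk x ⁻¹' N) = 0} = 0 := ae_iff.1 hN4
  have h5 := paA_homog hc hdet hB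
  have h6 : volume ((fun q : ℝ × ℝ => (((g 1 1 * q.1 - g 0 1) / (g 0 0 - g 1 0 * q.1),
      q.2 - Real.log ((g 0 0 - g 1 0 * q.1) ^ 2)) : ℝ × ℝ)) ⁻¹' N) = 0 := by
    rw [Measure.volume_eq_prod]
    refine (Measure.measure_prod_null (hφ hN2)).2 ?_
    have h7 : ∀ᵐ s : ℝ, volume
        (Prod.mk ((g 1 1 * s - g 0 1) / (g 0 0 - g 1 0 * s)) ⁻¹' N) = 0 := ae_iff.2 h5
    filter_upwards [h7] with s hs
    have h8 := (measurePreserving_sub_right (volume : Measure ℝ)
      (Real.log ((g 0 0 - g 1 0 * s) ^ 2))).measure_preimage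
      (measurable_prodMk_left (x := (g 1 1 * s - g 0 1) / (g 0 0 - g 1 0 * s))
        hN2).nullMeasurableSet
    rw [hs] at h8
    exact h8
  refine measure_mono_null ?_ h6
  intro q hq
  exact hN1 hq

end Pool.Agent.MP27775c.DO
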