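import Pool.Agent.Lib.MP_27775c_an_DO.Om
import Pool.Agent.Lib.MP_27775c_an_DO.MatC

/-!
# MP_27775c_an, project DO, module PaB: null sets, second change of parameters
-/

set_option autoImplicit false

open MeasureTheory Set Filter Topology

namespace Pool.Agent.MP27775c.DO

variable {Y : Type*} [TopologicalSpace Y] [PolishSpace Y] [MeasurableSpace Y] [BorelSpace Y]
  (A : RAct Y)

/-- Null sets under `(s, t) ↦ (t, t - log ((a - c s) ^ 2))`.

Proof. Let `N` be the set of the `(t, t'')` with `¬ p`; it may be enlarged? No: `p` is assumed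
measurable.
For almost every `t`, for almost every `s > a / c` (say `c ≠ 0`), `p (t, t - log ((a - c s) ^
2))`; as
`v ↦ s = a / c + exp (v / 2) / |c|` is a diffeomorphism of `ℝ` onto `(a / c, ∞)` with
`log ((a - c s) ^ 2) = v`, for almost every `v` we have `p (t, t - v)`, so for almost every `t''`
we have
`p (t, t'')`. Fubini. -/
theorem nonsing2 (a c : ℝ) (hc : c ≠ 0) {p : ℝ × ℝ → Prop} (hm : MeasurableSet {q | p q})
    (hp : ∀ᵐ q : ℝ × ℝ, p (q.2, q.2 - Real.log ((a - c * q.1) ^ 2))) :
    ∀ᵐ q : ℝ × ℝ, p q := by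
  have h1 : ∀ᵐ q : ℝ × ℝ, p (q.1, q.1 - Real.log ((a - c * q.2) ^ 2)) :=
    (Measure.measurePreserving_swap (μ := (volume : Measure ℝ))
      (ν := (volume : Measure ℝ))).quasiMeasurePreserving.ae hp
  have h2 : ∀ᵐ t : ℝ, ∀ᵐ s : ℝ, p (t, t - Real.log ((a - c * s) ^ 2)) :=
    Measure.ae_ae_of_ae_prod h1
  have h3 : ∀ᵐ t : ℝ, ∀ᵐ t' : ℝ, p (t, t') := by
    filter_upwards [h2] with t ht
    obtain ⟨N, hN⟩ : ∃ N : Set ℝ, N = {s | ¬ p (t, t - Real.log ((a - c * s) ^ 2))} := ⟨_, rfl⟩
    have hN0 : volume N = 0 := by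
      rw [hN]
      exact ht
    have hU : volume (N ∩ {s | a - c * s ≠ 0}) = 0 := measure_mono_null inter_subset_left hN0
    have h4 : volume ((fun s => t - Real.log ((a - c * s) ^ 2)) '' (N ∩ {s | a - c * s ≠ 0})) =
        0 := by
      refine addHaar_image_eq_zero_of_differentiableOn_of_addHaar_eq_zero volume ?_ hU
      intro s hs
      have h5 : (a - c * s) ^ 2 ≠ 0 := pow_ne_zero 2 hs.2
      refine DifferentiableAt.differentiableWithinAt ?_
      exact (differentiableAt_const t).sub (DifferentiableAt.log (by fun_prop) h5)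
    refine measure_mono_null ?_ h4
    intro t' ht'
    have h6 : a - c * ((a - Real.exp ((t - t') / 2)) / c) = Real.exp ((t - t') / 2) := by
      field_simp
      ring
    have h7 : t - Real.log ((a - c * ((a - Real.exp ((t - t') / 2)) / c)) ^ 2) = t' := by
      rw [h6, Real.log_pow, Real.log_exp]
      push_cast
      ring
    refine ⟨(a - Real.exp ((t - t') / 2)) / c, ⟨?_, ?_⟩, h7⟩
    · rw [hN]
      show ¬ p (t, t - Real.log ((a - c * ((a - Real.exp ((t - t') / 2)) / c)) ^ 2))
      rw [h7]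
      exact ht'
    · show a - c * ((a - Real.exp ((t - t') / 2)) / c) ≠ 0
      rw [h6]
      exact (Real.exp_pos _).ne'
  have h8 : (volume.prod volume : Measure (ℝ × ℝ)) {q | p q}ᶜ = 0 := by
    rw [Measure.measure_prod_null hm.compl]
    filter_upwards [h3] with t ht
    exact ht
  exact h8

end Pool.Agent.MP27775c.DO
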