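import Pool.Agent.Lib.MP_27775c_an_DO.PaA
import Pool.Agent.Lib.MP_27775c_an_DO.PaB

/-!
# MP_27775c_an, project DO, module PaC: two typical frames of one leaf
-/

set_option autoImplicit false

open MeasureTheory Set Filter Topology

namespace Pool.Agent.MP27775c.DO

variable {Y : Type*} [TopologicalSpace Y] [PolishSpace Y] [MeasurableSpace Y] [BorelSpace Y]
  (A : RAct Y)

/-- The mean difference of `U` along the backward orbits of `x · aa t₁` and `y · aa t₂`. -/
noncomputable def md2 (U : Y → ℝ) (x y : Y) (q : ℝ × ℝ) (n : ℕ) : ℝ :=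
  mdif A U (A.act x (aa q.1)) (A.act y (aa q.2)) n

private theorem meas_orb {U : Y → ℝ} (hU : Measurable U) (x : Y) (f : ℝ × ℝ → ℝ)
    (hf : Continuous f) (k : ℝ) :
    Measurable fun q : ℝ × ℝ => U (A.act (A.act x (aa (f q))) (aa (-k))) := by
  refine hU.comp (Continuous.measurable ?_)
  have h1 : Continuous fun q : ℝ × ℝ => A.act x (aa (f q)) :=
    A.cont.comp (continuous_const.prodMk (continuous_aa.comp hf))
  exact A.cont.comp (h1.prodMk continuous_const)

theorem md2_meas {U : Y → ℝ} (hU : Measurable U) (x y : Y) :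
    MeasurableSet {q : ℝ × ℝ | Tendsto (md2 A U x y q) atTop (𝓝 0)} := by
  refine measurableSet_tendsto (f := fun n q => md2 A U x y q n) (𝓝 (0 : ℝ)) fun n => ?_
  unfold md2 mdif
  refine Measurable.const_mul (Finset.measurable_sum _ fun k _ => ?_) _
  have h1 := meas_orb A hU x Prod.fst continuous_fst (k : ℝ)
  have h2 := meas_orb A hU y Prod.snd continuous_snd (k : ℝ)
  exact (h1.sub h2).norm

/-- the value of an invariant function along the backward orbit -/
private theorem inv_orb {U : Y → ℝ} (hinv : ∀ y s, U (A.act y (nn s)) = U y) (x : Y)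
    (s t k : ℝ) :
    U (A.act (A.act x (nn s * aa t)) (aa (-k))) = U (A.act (A.act x (aa t)) (aa (-k))) := by
  rw [← A.act_mul, ← A.act_mul, mul_assoc, ← aa_add, nn_aa, A.act_mul, hinv]

private theorem mdif_nonneg (U : Y → ℝ) (x y : Y) (n : ℕ) : 0 ≤ mdif A U x y n := by
  unfold mdif
  exact mul_nonneg (by positivity) (Finset.sum_nonneg fun _ _ => abs_nonneg _)

private theorem mdif_tri (U : Y → ℝ) (x y z : Y) (n : ℕ) :
    mdif A U x y n ≤ mdif A U x z n + mdif A U y z n := by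
  unfold mdif
  rw [← mul_add, ← Finset.sum_add_distrib]
  refine mul_le_mul_of_nonneg_left (Finset.sum_le_sum fun k _ => ?_) (by positivity)
  have h := abs_sub_le (U (A.act x (aa (-(k : ℝ))))) (U (A.act z (aa (-(k : ℝ)))))
    (U (A.act y (aa (-(k : ℝ)))))
  rwa [abs_sub_comm (U (A.act z (aa (-(k : ℝ))))) (U (A.act y (aa (-(k : ℝ)))))] at h

/-- Two typical frames of one leaf with different end points: the orbits are asymptotic in mean
with arbitrary time shifts.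

Proof. For almost every `(s, t)`: `x₁ = x · (nn s * aa t) ∈ Ω` and (`nonsing`, definition of `OmP`
at
`x · g`) `x₂ = x · g · nn s' · aa t' ∈ Ω`, and `x₂ = x₁ · oo u` (`pair_eq`, `act_neg`). So `mdif A
U x₁ x₂ → 0`. By the
invariance of `U` under `nn` (`nn_aa` to move `nn s` to the right) `U (x₁ · aa (-k)) = U (x · aa t
· aa (-k))`
and `U (x₂ · aa (-k)) = U (x · g · aa t' · aa (-k))`. So `md2 A U x (x · g) (t, t') → 0` for
almost every
`(s, t)`, `t' = t - log ((a - c s) ^ 2)`; use `nonsing2`. -/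
theorem pair_md {Ω : Set Y} (hΩ : MeasurableSet Ω) {U : Y → ℝ} (hU : Measurable U)
    (hinv : ∀ y s, U (A.act y (nn s)) = U y)
    (hH : ∀ x ∈ Ω, ∀ u : ℝ, A.act x (oo u) ∈ Ω →
      Tendsto (mdif A U x (A.act x (oo u))) atTop (𝓝 0))
    {x : Y} {g : G} (hx : x ∈ OmP A Ω) (hg : A.act x g ∈ OmP A Ω) (hc : g 1 0 ≠ 0) :
    ∀ᵐ q : ℝ × ℝ, Tendsto (md2 A U x (A.act x g) q) atTop (𝓝 0) := by
  refine nonsing2 (g 0 0) (g 1 0) hc (md2_meas A hU x (A.act x g)) ?_
  have h1 : ∀ᵐ q : ℝ × ℝ, A.act x (nn q.1 * aa q.2) ∈ Ω := hx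
  have h2 : ∀ᵐ q : ℝ × ℝ, A.act (A.act x g) (nn q.1 * aa q.2) ∈ Ω := hg
  have h3 := nonsing g hc h2
  have h4 : ∀ᵐ q : ℝ × ℝ, g 0 0 - g 1 0 * q.1 ≠ 0 := by
    have h5 : ∀ᵐ s : ℝ, s ≠ g 0 0 / g 1 0 := by
      rw [ae_iff]
      simp
    have h6 : ∀ᵐ q : ℝ × ℝ, q.1 ≠ g 0 0 / g 1 0 := by
      rw [Measure.volume_eq_prod]
      exact Measure.quasiMeasurePreserving_fst.ae h5
    filter_upwards [h6] with q hq h7
    apply hq
    rw [eq_div_iff hc]
    linarith
  filter_upwards [h1, h3, h4] with q hq1 hq2 hq3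
  set s' := (g 1 1 * q.1 - g 0 1) / (g 0 0 - g 1 0 * q.1) with hs'
  set t' := q.2 - Real.log ((g 0 0 - g 1 0 * q.1) ^ 2) with ht'
  have h5 : A.act (A.act x (nn q.1 * aa q.2)) (oo (Real.exp q.2 * g 1 0 /
      (g 0 0 - g 1 0 * q.1))) = A.act (A.act x g) (nn s' * aa t') := by
    rw [← A.act_mul, ← A.act_mul, ← mul_assoc]
    rcases pair_eq g q.1 q.2 hq3 with h6 | h6
    · rw [h6]
    · rw [h6, A.act_neg]
  have h6 := hH _ hq1 (Real.exp q.2 * g 1 0 / (g 0 0 - g 1 0 * q.1)) (by rw [h5]; exact hq2)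
  rw [h5] at h6
  have h7 : md2 A U x (A.act x g) (q.2, t') =
      mdif A U (A.act x (nn q.1 * aa q.2)) (A.act (A.act x g) (nn s' * aa t')) := by
    funext n
    unfold md2 mdif
    congr 1
    refine Finset.sum_congr rfl fun k _ => ?_
    rw [inv_orb A hinv, inv_orb A hinv]
  rw [h7]
  exact h6

/-- Proof. By `pair_md` and Fubini there is `t''` such that for almost every `t₁` (and almost
every
`t₂`) the orbits of `x · aa t₁` and `x · g · aa t''` are asymptotic in mean; triangle inequality.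
-/
theorem pair_self {Ω : Set Y} (hΩ : MeasurableSet Ω) {U : Y → ℝ} (hU : Measurable U)
    (hinv : ∀ y s, U (A.act y (nn s)) = U y)
    (hH : ∀ x ∈ Ω, ∀ u : ℝ, A.act x (oo u) ∈ Ω →
      Tendsto (mdif A U x (A.act x (oo u))) atTop (𝓝 0))
    {x : Y} {g : G} (hx : x ∈ OmP A Ω) (hg : A.act x g ∈ OmP A Ω) (hc : g 1 0 ≠ 0) :
    ∀ᵐ q : ℝ × ℝ, Tendsto (md2 A U x x q) atTop (𝓝 0) := by
  have h1 := pair_md A hΩ hU hinv hH hx hg hc
  have h2 : ∀ᵐ q : ℝ × ℝ, Tendsto (md2 A U x (A.act x g) q.swap) atTop (𝓝 0) := by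
    rw [Measure.volume_eq_prod] at h1 ⊢
    exact (Measure.measurePreserving_swap (μ := (volume : Measure ℝ))
      (ν := (volume : Measure ℝ))).quasiMeasurePreserving.ae h1
  rw [Measure.volume_eq_prod] at h2
  obtain ⟨t₀, ht₀⟩ := (Measure.ae_ae_of_ae_prod h2).exists
  have h3 : ∀ᵐ t : ℝ, Tendsto (md2 A U x (A.act x g) (t, t₀)) atTop (𝓝 0) := ht₀
  have h4 : ∀ᵐ q : ℝ × ℝ, Tendsto (md2 A U x (A.act x g) (q.1, t₀)) atTop (𝓝 0) := by
    rw [Measure.volume_eq_prod]
    exact Measure.quasiMeasurePreserving_fst.ae h3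
  have h5 : ∀ᵐ q : ℝ × ℝ, Tendsto (md2 A U x (A.act x g) (q.2, t₀)) atTop (𝓝 0) := by
    rw [Measure.volume_eq_prod]
    exact Measure.quasiMeasurePreserving_snd.ae h3
  filter_upwards [h4, h5] with q hq1 hq2
  have h6 := hq1.add hq2
  rw [add_zero] at h6
  refine squeeze_zero (fun n => mdif_nonneg A U _ _ n) (fun n => ?_) h6
  exact mdif_tri A U (A.act x (aa q.1)) (A.act x (aa q.2)) (A.act (A.act x g) (aa t₀)) n

end Pool.Agent.MP27775c.DO
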