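import Pool.Agent.Lib.MP_27775c_an_DO.Kap

/-!
# MP_27775c_an, project DO, module PoA: change of variables on the circle of directions
-/

set_option autoImplicit false

open MeasureTheory Set Filter Topology

namespace Pool.Agent.MP27775c.DO

private theorem poa_exp {b : ℝ} (hb : 0 < b) :
    ∫ r in Ioi (0 : ℝ), r * Real.exp (-b * r ^ 2) = 1 / (2 * b) := by
  have h := integral_mul_cexp_neg_mul_sq (b := (b : ℂ)) (by simpa using hb)
  have e : ∫ r : ℝ in Ioi 0, (r : ℂ) * Complex.exp (-(b : ℂ) * (r : ℂ) ^ 2) =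
      ((∫ r in Ioi (0 : ℝ), r * Real.exp (-b * r ^ 2) : ℝ) : ℂ) := by
    rw [← integral_complex_ofReal]
    refine integral_congr_ae (Eventually.of_forall fun r => ?_)
    push_cast
    rfl
  rw [e] at h
  have h2 : ((∫ r in Ioi (0 : ℝ), r * Real.exp (-b * r ^ 2) : ℝ) : ℂ) =
      ((1 / (2 * b) : ℝ) : ℂ) := by
    rw [h]
    push_cast
    rw [one_div]
  exact_mod_cast h2

/-- polar coordinates for a homogeneous function times a Gaussian -/
private theorem poa_polar {F : ℝ × ℝ → ℝ} (hF : Measurable F) {C : ℝ} (hC : ∀ w, |F w| ≤ C)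
    (hh : ∀ r : ℝ, 0 < r → ∀ w : ℝ × ℝ, F (r * w.1, r * w.2) = F w)
    {Q : ℝ × ℝ → ℝ} (hQ : Continuous Q)
    (hQ2 : ∀ (r : ℝ) (w : ℝ × ℝ), Q (r * w.1, r * w.2) = r ^ 2 * Q w) {q : ℝ} (hq : 0 < q)
    (hQq : ∀ φ : ℝ, q ≤ Q (Real.cos φ, Real.sin φ)) :
    ∫ w, F w * Real.exp (-Q w) = ∫ φ in Ioo (-Real.pi) Real.pi,
      F (Real.cos φ, Real.sin φ) / (2 * Q (Real.cos φ, Real.sin φ)) := by
  rw [← integral_comp_polarCoord_symm]
  have e1 : ∫ p in polarCoord.target, p.1 • (F (polarCoord.symm p) *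
      Real.exp (-Q (polarCoord.symm p))) = ∫ p in (Ioi (0 : ℝ)) ×ˢ (Ioo (-Real.pi) Real.pi),
        (p.1 * Real.exp (-(Q (Real.cos p.2, Real.sin p.2)) * p.1 ^ 2)) *
          F (Real.cos p.2, Real.sin p.2) := by
    refine setIntegral_congr_fun (measurableSet_Ioi.prod measurableSet_Ioo) fun p hp => ?_
    have hp1 : 0 < p.1 := hp.1
    show p.1 • (F (p.1 * Real.cos p.2, p.1 * Real.sin p.2) *
      Real.exp (-Q (p.1 * Real.cos p.2, p.1 * Real.sin p.2))) = _
    rw [hh p.1 hp1 (Real.cos p.2, Real.sin p.2), hQ2 p.1 (Real.cos p.2, Real.sin p.2),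
      smul_eq_mul, neg_mul, mul_comm (Q _) (p.1 ^ 2)]
    ring
  rw [e1]
  have hcs : Continuous fun p : ℝ × ℝ => (Real.cos p.2, Real.sin p.2) :=
    (Real.continuous_cos.comp continuous_snd).prodMk (Real.continuous_sin.comp continuous_snd)
  have hmeas : Measurable fun p : ℝ × ℝ => (p.1 * Real.exp (-(Q (Real.cos p.2, Real.sin p.2)) *
      p.1 ^ 2)) * F (Real.cos p.2, Real.sin p.2) := by
    refine Measurable.mul ?_ (hF.comp hcs.measurable)
    refine Continuous.measurable ?_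
    exact continuous_fst.mul (Real.continuous_exp.comp
      (((hQ.comp hcs).neg).mul (continuous_fst.pow 2)))
  have hg : Integrable (fun r : ℝ => r * Real.exp (-q * r ^ 2))
      (volume.restrict (Ioi (0 : ℝ))) := (integrable_mul_exp_neg_mul_sq hq).integrableOn
  have hk : Integrable (fun _ : ℝ => C) (volume.restrict (Ioo (-Real.pi) Real.pi)) :=
    integrable_const C
  have hint : Integrable (fun p : ℝ × ℝ =>
      (p.1 * Real.exp (-(Q (Real.cos p.2, Real.sin p.2)) * p.1 ^ 2)) *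
        F (Real.cos p.2, Real.sin p.2))
      ((volume.restrict (Ioi (0 : ℝ))).prod (volume.restrict (Ioo (-Real.pi) Real.pi))) := by
    refine (hg.mul_prod hk).mono' hmeas.aestronglyMeasurable ?_
    rw [Measure.prod_restrict]
    refine (ae_restrict_mem (measurableSet_Ioi.prod measurableSet_Ioo)).mono fun p hp => ?_
    have hp1 : 0 < p.1 := hp.1
    rw [Real.norm_eq_abs, abs_mul, abs_mul, abs_of_pos hp1, abs_of_pos (Real.exp_pos _)]
    refine mul_le_mul ?_ (hC _) (abs_nonneg _) (mul_nonneg hp1.le (Real.exp_pos _).le)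
    refine mul_le_mul_of_nonneg_left (Real.exp_le_exp.2 ?_) hp1.le
    exact mul_le_mul_of_nonneg_right (neg_le_neg (hQq p.2)) (sq_nonneg _)
  rw [Measure.volume_eq_prod, ← Measure.prod_restrict, integral_prod_symm _ hint]
  refine integral_congr_ae (Eventually.of_forall fun φ => ?_)
  show ∫ x in Ioi (0 : ℝ), (x * Real.exp (-(Q (Real.cos φ, Real.sin φ)) * x ^ 2)) *
    F (Real.cos φ, Real.sin φ) = _
  rw [integral_mul_const, poa_exp (hq.trans_le (hQq φ))]
  ring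

private noncomputable def poa_f (Φ : ℝ → ℝ) (w : ℝ × ℝ) : ℝ :=
  Φ (Complex.arg ((w.1 : ℂ) + (w.2 : ℂ) * Complex.I) - Real.pi / 2)

private theorem poa_f_meas {Φ : ℝ → ℝ} (hΦ : Measurable Φ) : Measurable (poa_f Φ) := by
  refine hΦ.comp (Measurable.sub_const ?_ _)
  refine Complex.measurable_arg.comp (Continuous.measurable ?_)
  exact (Complex.continuous_ofReal.comp continuous_fst).add
    ((Complex.continuous_ofReal.comp continuous_snd).mul continuous_const)

private theorem poa_f_hom (Φ : ℝ → ℝ) {r : ℝ} (hr : 0 < r) (w : ℝ × ℝ) :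
    poa_f Φ (r * w.1, r * w.2) = poa_f Φ w := by
  unfold poa_f
  have e : (((r * w.1 : ℝ) : ℂ) + ((r * w.2 : ℝ) : ℂ) * Complex.I) =
      (r : ℂ) * ((w.1 : ℂ) + (w.2 : ℂ) * Complex.I) := by
    push_cast
    ring
  show Φ (Complex.arg (((r * w.1 : ℝ) : ℂ) + ((r * w.2 : ℝ) : ℂ) * Complex.I) - _) = _
  rw [e, Complex.arg_real_mul _ hr]

private theorem poa_f_pos {Φ : ℝ → ℝ} (hp : Function.Periodic Φ Real.pi) {r : ℝ} (hr : 0 < r)
    (θ : ℝ) : poa_f Φ (r * -Real.sin θ, r * Real.cos θ) = Φ θ := by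
  have hp2 : Function.Periodic Φ (2 * Real.pi) := by
    intro x
    rw [two_mul, ← add_assoc, hp, hp]
  unfold poa_f
  have e : (((r * -Real.sin θ : ℝ) : ℂ) + ((r * Real.cos θ : ℝ) : ℂ) * Complex.I) =
      (r : ℂ) * (Complex.cos ((θ + Real.pi / 2 : ℝ) : ℂ) +
        Complex.sin ((θ + Real.pi / 2 : ℝ) : ℂ) * Complex.I) := by
    rw [← Complex.ofReal_cos, ← Complex.ofReal_sin, Real.cos_add_pi_div_two,
      Real.sin_add_pi_div_two]
    push_cast
    ring
  show Φ (Complex.arg (((r * -Real.sin θ : ℝ) : ℂ) + ((r * Real.cos θ : ℝ) : ℂ) * Complex.I) -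
    _) = _
  rw [e, Complex.arg_mul_cos_add_sin_mul_I_eq_toIocMod hr]
  have e2 : toIocMod Real.two_pi_pos (-Real.pi) (θ + Real.pi / 2) - Real.pi / 2 =
      θ - toIocDiv Real.two_pi_pos (-Real.pi) (θ + Real.pi / 2) • (2 * Real.pi) := by
    rw [toIocMod]
    ring
  rw [e2, hp2.sub_zsmul_eq]

private theorem poa_f_apply {Φ : ℝ → ℝ} (hp : Function.Periodic Φ Real.pi) {r : ℝ} (hr : r ≠ 0)
    (θ : ℝ) : poa_f Φ (r * -Real.sin θ, r * Real.cos θ) = Φ θ := by
  rcases lt_or_gt_of_ne hr with h | h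
  · have h1 := poa_f_pos hp (neg_pos.2 h) (θ + Real.pi)
    rw [Real.sin_add_pi, Real.cos_add_pi, hp] at h1
    rw [← h1]
    congr 2 <;> ring
  · exact poa_f_pos hp h θ

private theorem poa_circ {P : ℝ → ℝ} (hP : Function.Periodic P (2 * Real.pi)) :
    ∫ θ, P θ ∂circ = 1 / (2 * Real.pi) * ∫ φ in Ioo (-Real.pi) Real.pi, P (φ - Real.pi / 2) := by
  have h0 : (0 : ℝ) ≤ 1 / (2 * Real.pi) := by positivity
  have hpi := Real.pi_pos
  unfold circ
  rw [integral_smul_measure, ENNReal.toReal_ofReal h0, smul_eq_mul,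
    ← integral_Ioc_eq_integral_Ioo, ← intervalIntegral.integral_of_le (by linarith),
    ← intervalIntegral.integral_of_le (by linarith), intervalIntegral.integral_comp_sub_right]
  have h1 := hP.intervalIntegral_add_eq 0 (-Real.pi - Real.pi / 2)
  rw [zero_add] at h1
  rw [h1]
  congr 2
  ring

/-- `poi α (g⁻¹ • i)` is the inverse of the square of the length of `(-sin α, cos α) * g⁻¹`.

Proof. With `g⁻¹ = !![a, b; c, d]`, `g⁻¹ • i = (a i + b) / (c i + d)`, `im = 1 / |c i + d| ^ 2`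
(`ModularGroup`/
`UpperHalfPlane.im_smul_eq_div_normSq`, `UpperHalfPlane.coe_smul`), so
`|cos α - (g⁻¹ • i) sin α| ^ 2 |c i + d| ^ 2 = |(c i + d) cos α - (a i + b) sin α| ^ 2`. -/
theorem poi_eq (α : ℝ) (g : G) :
    poi α (g⁻¹ • UpperHalfPlane.I) =
      1 / ((-Real.sin α * g⁻¹ 0 0 + Real.cos α * g⁻¹ 1 0) ^ 2 +
        (-Real.sin α * g⁻¹ 0 1 + Real.cos α * g⁻¹ 1 1) ^ 2) := by
  generalize g⁻¹ = m
  have hdet : m 0 0 * m 1 1 - m 0 1 * m 1 0 = 1 := by
    have h := m.det_coe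
    rwa [Matrix.det_fin_two] at h
  set z := m • UpperHalfPlane.I with hz
  have hzc : (z : ℂ) = ((m 0 0 : ℂ) * Complex.I + (m 0 1 : ℂ)) /
      ((m 1 0 : ℂ) * Complex.I + (m 1 1 : ℂ)) := by
    rw [hz, UpperHalfPlane.coe_specialLinearGroup_apply]
    rfl
  have hne : (m 1 0 : ℂ) * Complex.I + (m 1 1 : ℂ) ≠ 0 := by
    intro h
    have h1 := congrArg Complex.re h
    have h2 := congrArg Complex.im h
    simp at h1 h2
    rw [h1, h2] at hdet
    norm_num at hdet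
  have hden : Complex.normSq ((m 1 0 : ℂ) * Complex.I + (m 1 1 : ℂ)) =
      m 1 0 ^ 2 + m 1 1 ^ 2 := by
    rw [Complex.normSq_apply]
    simp
    ring
  have hden0 : m 1 0 ^ 2 + m 1 1 ^ 2 ≠ 0 := by
    rw [← hden]
    exact (Complex.normSq_pos.2 hne).ne'
  have him : z.im = 1 / (m 1 0 ^ 2 + m 1 1 ^ 2) := by
    have h : z.im = (z : ℂ).im := rfl
    rw [h, hzc, Complex.div_im, hden]
    simp
    field_simp
    linear_combination hdet
  have hmul : ((Real.cos α : ℂ) - (z : ℂ) * (Real.sin α : ℂ)) *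
      ((m 1 0 : ℂ) * Complex.I + (m 1 1 : ℂ)) =
        ((-Real.sin α * m 0 1 + Real.cos α * m 1 1 : ℝ) : ℂ) +
          ((-Real.sin α * m 0 0 + Real.cos α * m 1 0 : ℝ) : ℂ) * Complex.I := by
    rw [hzc, sub_mul, div_mul_eq_mul_div, div_mul_cancel₀ _ hne]
    push_cast
    ring
  have hn := congrArg Complex.normSq hmul
  rw [Complex.normSq_mul, hden, Complex.normSq_add_mul_I] at hn
  have hval : poi α z = (1 / (m 1 0 ^ 2 + m 1 1 ^ 2)) /
      Complex.normSq ((Real.cos α : ℂ) - (z : ℂ) * (Real.sin α : ℂ)) := by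
    rw [← him]
    rfl
  rw [hval, div_div, mul_comm, hn, add_comm]

/-- Change of variables on the circle of directions.

Proof. Define `f : ℝ × ℝ → ℝ` (or on `ℂ`) by `f w = Φ (angle of w)` with the angle `θ` such that
`w` is a
positive multiple of `(-sin θ, cos θ)` (for example `θ = Complex.arg (w.2 - w.1 I)`), so
`f (r * (-sin θ, cos θ)) = Φ θ` for every `r > 0` and every `θ` (periodicity), and by `Φ (θ + π) =
Φ θ` also for
`r < 0`. Compute `∫ w, f w * exp (-(|w g⁻¹| ^ 2))` over the plane in polar coordinates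
(`integral_comp_polarCoord_symm`): it is `∫ θ, Φ θ * ∫ r in Ioi 0, r * exp (-r ^ 2 * |v θ g⁻¹| ^
2) =
∫ θ, Φ θ / (2 |v θ g⁻¹| ^ 2)`, `v θ = (-sin θ, cos θ)`; and after the linear substitution `w = w'
g` (determinant
one, `MeasureTheory.Measure.addHaar_preimage_linearMap` or `integral_comp...`) it is
`∫ w', f (w' g) exp (-|w'| ^ 2) = ∫ θ, Φ (τ θ) / 2`. -/
theorem circ_subst (g : G) {Φ : ℝ → ℝ} (hΦ : Measurable Φ) (hb : ∃ C, ∀ x, |Φ x| ≤ C)
    (hp : Function.Periodic Φ Real.pi) {τ : ℝ → ℝ}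
    (hτ : ∀ θ, ∃ ρ : ℝ, ρ ≠ 0 ∧
      -Real.sin θ * g 0 0 + Real.cos θ * g 1 0 = ρ * -Real.sin (τ θ) ∧
      -Real.sin θ * g 0 1 + Real.cos θ * g 1 1 = ρ * Real.cos (τ θ)) :
    ∫ θ, Φ (τ θ) ∂circ = ∫ θ, Φ θ * poi θ (g⁻¹ • UpperHalfPlane.I) ∂circ := by
  obtain ⟨C, hC⟩ := hb
  have hdet : g 0 0 * g 1 1 - g 0 1 * g 1 0 = 1 := by
    have h := g.det_coe
    rwa [Matrix.det_fin_two] at h
  have i00 : g⁻¹ 0 0 = g 1 1 := by rw [Matrix.SpecialLinearGroup.SL2_inv_expl]; rfl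
  have i01 : g⁻¹ 0 1 = -g 0 1 := by rw [Matrix.SpecialLinearGroup.SL2_inv_expl]; rfl
  have i10 : g⁻¹ 1 0 = -g 1 0 := by rw [Matrix.SpecialLinearGroup.SL2_inv_expl]; rfl
  have i11 : g⁻¹ 1 1 = g 0 0 := by rw [Matrix.SpecialLinearGroup.SL2_inv_expl]; rfl
  have hpoi : ∀ θ, poi θ (g⁻¹ • UpperHalfPlane.I) =
      1 / ((-Real.sin θ * g 1 1 + Real.cos θ * -g 1 0) ^ 2 +
        (-Real.sin θ * -g 0 1 + Real.cos θ * g 0 0) ^ 2) := fun θ => by
    rw [poi_eq, i00, i01, i10, i11]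
  set a := g 0 0 with ha
  set b := g 0 1 with hb
  set c := g 1 0 with hc
  set d := g 1 1 with hd
  have hf := poa_f_meas hΦ
  have hfC : ∀ w, |poa_f Φ w| ≤ C := fun w => hC _
  -- the quadratic form and the linear map
  let Q : ℝ × ℝ → ℝ := fun w => (w.1 * d + w.2 * -c) ^ 2 + (w.1 * -b + w.2 * a) ^ 2
  let T : ℝ × ℝ → ℝ × ℝ := fun w => (a * w.1 + c * w.2, b * w.1 + d * w.2)
  have hTc : Continuous T := by
    show Continuous fun w : ℝ × ℝ => (a * w.1 + c * w.2, b * w.1 + d * w.2)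
    fun_prop
  have hQc : Continuous Q := by
    show Continuous fun w : ℝ × ℝ => (w.1 * d + w.2 * -c) ^ 2 + (w.1 * -b + w.2 * a) ^ 2
    fun_prop
  have hQ2 : ∀ (r : ℝ) (w : ℝ × ℝ), Q (r * w.1, r * w.2) = r ^ 2 * Q w := fun r w => by
    show (r * w.1 * d + r * w.2 * -c) ^ 2 + (r * w.1 * -b + r * w.2 * a) ^ 2 =
      r ^ 2 * ((w.1 * d + w.2 * -c) ^ 2 + (w.1 * -b + w.2 * a) ^ 2)
    ring
  have hQT : ∀ w : ℝ × ℝ, Q (T w) = w.1 ^ 2 + w.2 ^ 2 := fun w => by
    show ((a * w.1 + c * w.2) * d + (b * w.1 + d * w.2) * -c) ^ 2 +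
      ((a * w.1 + c * w.2) * -b + (b * w.1 + d * w.2) * a) ^ 2 = w.1 ^ 2 + w.2 ^ 2
    have e1 : (a * w.1 + c * w.2) * d + (b * w.1 + d * w.2) * -c = w.1 := by
      linear_combination w.1 * hdet
    have e2 : (a * w.1 + c * w.2) * -b + (b * w.1 + d * w.2) * a = w.2 := by
      linear_combination w.2 * hdet
    rw [e1, e2]
  set S := a ^ 2 + b ^ 2 + c ^ 2 + d ^ 2 with hS
  have hSpos : 0 < S := by
    by_contra h
    have h1 : a = 0 := by nlinarith [sq_nonneg a, sq_nonneg b, sq_nonneg c, sq_nonneg d]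
    have h2 : b = 0 := by nlinarith [sq_nonneg a, sq_nonneg b, sq_nonneg c, sq_nonneg d]
    rw [h1, h2] at hdet
    norm_num at hdet
  have hQq : ∀ φ : ℝ, 1 / S ≤ Q (Real.cos φ, Real.sin φ) := by
    intro φ
    rw [div_le_iff₀ hSpos]
    set u := Real.cos φ
    set v := Real.sin φ
    have huv : v ^ 2 + u ^ 2 = 1 := Real.sin_sq_add_cos_sq φ
    show 1 ≤ ((u * d + v * -c) ^ 2 + (u * -b + v * a) ^ 2) * S
    set x := u * d + v * -c with hx
    set y := u * -b + v * a with hy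
    have e1 : u = a * x + c * y := by
      rw [hx, hy]
      linear_combination -u * hdet
    have e2 : v = b * x + d * y := by
      rw [hx, hy]
      linear_combination -v * hdet
    have e3 : (a * x + c * y) ^ 2 + (b * x + d * y) ^ 2 = 1 := by
      rw [← e1, ← e2]
      linarith
    rw [← e3, hS]
    nlinarith [sq_nonneg (a * y - c * x), sq_nonneg (b * y - d * x), sq_nonneg (c * y),
      sq_nonneg (a * x)]
  -- the two integrals in polar coordinates
  have I1 := poa_polar hf hfC (fun r hr w => poa_f_hom Φ hr w) hQc hQ2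
    (one_div_pos.2 hSpos) hQq
  have I2 := poa_polar (F := fun w => poa_f Φ (T w)) (hf.comp hTc.measurable)
    (fun w => hfC _) (fun r hr w => by
      have e : T (r * w.1, r * w.2) = (r * (T w).1, r * (T w).2) := by
        show (a * (r * w.1) + c * (r * w.2), b * (r * w.1) + d * (r * w.2)) =
          (r * (a * w.1 + c * w.2), r * (b * w.1 + d * w.2))
        congr 1 <;> ring
      show poa_f Φ (T (r * w.1, r * w.2)) = poa_f Φ (T w)
      rw [e]
      exact poa_f_hom Φ hr (T w)) (Q := fun w => w.1 ^ 2 + w.2 ^ 2) (by fun_prop)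
    (fun r w => by
      show (r * w.1) ^ 2 + (r * w.2) ^ 2 = r ^ 2 * (w.1 ^ 2 + w.2 ^ 2)
      ring) one_pos (fun φ => by
      show (1 : ℝ) ≤ Real.cos φ ^ 2 + Real.sin φ ^ 2
      rw [Real.cos_sq_add_sin_sq])
  -- the linear substitution
  have I3 : ∫ w, poa_f Φ (T w) * Real.exp (-(w.1 ^ 2 + w.2 ^ 2)) =
      ∫ w, poa_f Φ w * Real.exp (-Q w) := by
    let L := Matrix.toLin (Module.Basis.finTwoProd ℝ) (Module.Basis.finTwoProd ℝ) !![a, c; b, d]
    have hL : ∀ w, L w = T w := fun w => Matrix.toLin_finTwoProd_apply _ _ _ _ _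
    have hLd : LinearMap.det L = 1 := by
      rw [LinearMap.det_toLin, Matrix.det_fin_two]
      show a * d - c * b = 1
      linarith
    have hm : Measure.map L (volume : Measure (ℝ × ℝ)) = volume := by
      rw [Measure.map_linearMap_addHaar_eq_smul_addHaar volume (by rw [hLd]; exact one_ne_zero),
        hLd]
      simp
    have hLe : (L : ℝ × ℝ → ℝ × ℝ) = T := funext hL
    rw [hLe] at hm
    have hmeas : Measurable fun w : ℝ × ℝ => poa_f Φ w * Real.exp (-Q w) :=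
      hf.mul (Real.continuous_exp.comp hQc.neg).measurable
    have h := integral_map (μ := (volume : Measure (ℝ × ℝ))) hTc.measurable.aemeasurable
      (f := fun w : ℝ × ℝ => poa_f Φ w * Real.exp (-Q w)) hmeas.aestronglyMeasurable
    rw [hm] at h
    rw [h]
    refine integral_congr_ae (Eventually.of_forall fun w => ?_)
    show poa_f Φ (T w) * Real.exp (-(w.1 ^ 2 + w.2 ^ 2)) = poa_f Φ (T w) * Real.exp (-Q (T w))
    rw [hQT]
  rw [I1, I2] at I3
  -- back to the circle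
  have hcs : ∀ φ : ℝ, -Real.sin (φ - Real.pi / 2) = Real.cos φ := fun φ => by
    rw [Real.sin_sub_pi_div_two, neg_neg]
  have hsn : ∀ φ : ℝ, Real.cos (φ - Real.pi / 2) = Real.sin φ := fun φ => by
    rw [Real.cos_sub_pi_div_two]
  have hτ2 : ∀ θ, Φ (τ θ) = poa_f Φ (T (-Real.sin θ, Real.cos θ)) := by
    intro θ
    obtain ⟨ρ, hρ, h1, h2⟩ := hτ θ
    have e : T (-Real.sin θ, Real.cos θ) = (ρ * -Real.sin (τ θ), ρ * Real.cos (τ θ)) := by
      show (a * -Real.sin θ + c * Real.cos θ, b * -Real.sin θ + d * Real.cos θ) = _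
      rw [← h1, ← h2]
      congr 1 <;> ring
    rw [e, poa_f_apply hp hρ]
  have hΦ1 : ∀ θ, Φ θ = poa_f Φ (-Real.sin θ, Real.cos θ) := by
    intro θ
    have h := poa_f_apply hp one_ne_zero θ
    rw [one_mul, one_mul] at h
    exact h.symm
  have P1 : Function.Periodic (fun θ => Φ (τ θ)) (2 * Real.pi) := by
    intro θ
    show Φ (τ (θ + 2 * Real.pi)) = Φ (τ θ)
    rw [hτ2, hτ2, Real.sin_add_two_pi, Real.cos_add_two_pi]
  have P2 : Function.Periodic (fun θ => Φ θ * poi θ (g⁻¹ • UpperHalfPlane.I))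
      (2 * Real.pi) := by
    intro θ
    show Φ (θ + 2 * Real.pi) * poi (θ + 2 * Real.pi) _ = Φ θ * poi θ _
    rw [hpoi, hpoi, Real.sin_add_two_pi, Real.cos_add_two_pi, two_mul, ← add_assoc, hp, hp]
  rw [poa_circ P1, poa_circ P2]
  congr 1
  have J2 : ∫ φ in Ioo (-Real.pi) Real.pi, Φ (τ (φ - Real.pi / 2)) =
      2 * ∫ φ in Ioo (-Real.pi) Real.pi, poa_f Φ (T (Real.cos φ, Real.sin φ)) /
        (2 * (Real.cos φ ^ 2 + Real.sin φ ^ 2)) := by
    rw [← integral_const_mul]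
    refine integral_congr_ae (Eventually.of_forall fun φ => ?_)
    show Φ (τ (φ - Real.pi / 2)) = 2 * (poa_f Φ (T (Real.cos φ, Real.sin φ)) /
      (2 * (Real.cos φ ^ 2 + Real.sin φ ^ 2)))
    rw [hτ2, hcs, hsn, Real.cos_sq_add_sin_sq]
    ring
  have J1 : ∫ φ in Ioo (-Real.pi) Real.pi, Φ (φ - Real.pi / 2) *
      poi (φ - Real.pi / 2) (g⁻¹ • UpperHalfPlane.I) =
      2 * ∫ φ in Ioo (-Real.pi) Real.pi, poa_f Φ (Real.cos φ, Real.sin φ) /
        (2 * Q (Real.cos φ, Real.sin φ)) := by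
    rw [← integral_const_mul]
    refine integral_congr_ae (Eventually.of_forall fun φ => ?_)
    show Φ (φ - Real.pi / 2) * poi (φ - Real.pi / 2) (g⁻¹ • UpperHalfPlane.I) =
      2 * (poa_f Φ (Real.cos φ, Real.sin φ) / (2 * ((Real.cos φ * d + Real.sin φ * -c) ^ 2 +
        (Real.cos φ * -b + Real.sin φ * a) ^ 2)))
    rw [hΦ1 (φ - Real.pi / 2), hpoi, hcs, hsn]
    rw [mul_one_div, ← mul_div_assoc, mul_div_mul_left _ _ two_ne_zero]
  rw [J1, J2]
  congr 1

end Pool.Agent.MP27775c.DO
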