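import Pool.Agent.Lib.MP_27775c_an_DO.RA
import Pool.Agent.Lib.MP_27775c_an_DO.RB

/-!
# MP_27775c_an, project DO: Rat, all parts
-/
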