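import Pool.Agent.Lib.MP_27775c_an_DO.Ball
import Pool.Agent.Lib.MP_27775c_an_DO.Mx

/-!
# MP_27775c_an, project DO, module WA: a Markov kernel
-/

set_option autoImplicit false

open MeasureTheory Set Filter Topology
open scoped ENNReal

namespace Pool.Agent.MP27775c.DO

variable {Y : Type*} [TopologicalSpace Y] [PolishSpace Y] [MeasurableSpace Y] [BorelSpace Y]
  (A : RAct Y)

/-- The Markov kernel `y ↦ law of y · (nn s * aa (-1))`, `s` uniform in `[0, 1]`. -/
noncomputable def kerQ : ProbabilityTheory.Kernel Y Y :=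
  (ProbabilityTheory.Kernel.prod (ProbabilityTheory.Kernel.id : ProbabilityTheory.Kernel Y Y)
    (ProbabilityTheory.Kernel.const Y (volume.restrict (Icc (0 : ℝ) 1)))).map
      fun p : Y × ℝ => A.act p.1 (nn p.2 * aa (-1))

private theorem wa_prob : IsProbabilityMeasure (volume.restrict (Icc (0 : ℝ) 1)) :=
  ⟨by rw [Measure.restrict_apply_univ, Real.volume_Icc]; simp⟩

private theorem wa_cont : Continuous fun s : ℝ => nn s * aa (-1) :=
  continuous_nn.mul continuous_const

private theorem wa_meas : Measurable fun p : Y × ℝ => A.act p.1 (nn p.2 * aa (-1)) :=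
  meas_joint A wa_cont

instance kerQ_markov : ProbabilityTheory.IsMarkovKernel (kerQ A) := by
  have := wa_prob
  exact ProbabilityTheory.Kernel.IsMarkovKernel.map _ (wa_meas A)

theorem lint_kerQ {f : Y → ℝ≥0∞} (hf : Measurable f) (y : Y) :
    ∫⁻ z, f z ∂(kerQ A y) = ∫⁻ s in Icc (0 : ℝ) 1, f (A.act y (nn s * aa (-1))) := by
  have := wa_prob
  unfold kerQ
  rw [ProbabilityTheory.Kernel.lintegral_map _ (wa_meas A) y hf]
  have h1 : Measurable fun p : Y × ℝ => f (A.act p.1 (nn p.2 * aa (-1))) :=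
    hf.comp (wa_meas A)
  rw [ProbabilityTheory.Kernel.lintegral_prod _ _ _ h1,
    ProbabilityTheory.Kernel.id_apply, ProbabilityTheory.Kernel.const_apply]
  rw [lintegral_dirac' _ h1.lintegral_prod_right']

theorem kerQ_inv {m : Measure Y} [IsProbabilityMeasure m] (h : IsPInv A m) :
    m.bind (kerQ A) = m := by
  have := wa_prob
  refine Measure.ext fun E hE => ?_
  rw [Measure.bind_apply hE (kerQ A).aemeasurable]
  have h1 : ∀ y, kerQ A y E = ∫⁻ s in Icc (0 : ℝ) 1,
      E.indicator (fun _ => (1 : ℝ≥0∞)) (A.act y (nn s * aa (-1))) := by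
    intro y
    rw [← lint_kerQ A (measurable_const.indicator hE), lintegral_indicator_const hE, one_mul]
  simp only [h1]
  have h2 : Measurable fun p : Y × ℝ =>
      E.indicator (fun _ => (1 : ℝ≥0∞)) (A.act p.1 (nn p.2 * aa (-1))) :=
    (measurable_const.indicator hE).comp (wa_meas A)
  rw [lintegral_lintegral_swap h2.aemeasurable]
  have h3 : ∀ s : ℝ, ∫⁻ y, E.indicator (fun _ => (1 : ℝ≥0∞)) (A.act y (nn s * aa (-1))) ∂m =
      m E := by
    intro s
    rw [← lintegral_tr A m (nn s * aa (-1)) (E.indicator fun _ => (1 : ℝ≥0∞)), tr_nn_aa A h,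
      lintegral_indicator_const hE, one_mul]
  simp only [h3]
  rw [lintegral_const, measure_univ, mul_one]

end Pool.Agent.MP27775c.DO
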