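import Pool.Agent.Lib.MP_27775c_an_DO.Pair
import Pool.Agent.Lib.MP_27775c_an_DO.Birk

/-!
# MP_27775c_an, project DO, module XA: the set X3
-/

set_option autoImplicit false

open MeasureTheory Set Filter Topology

namespace Pool.Agent.MP27775c.DO

variable {Y : Type*} [TopologicalSpace Y] [PolishSpace Y] [MeasurableSpace Y] [BorelSpace Y]
  (A : RAct Y)

/-- The typical points whose orbit is asymptotic in mean to all its time shifts. -/
def X3 (Ω : Set Y) (U : Y → ℝ) : Set Y :=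
  {x | x ∈ OmP A Ω ∧ ∀ᵐ q : ℝ × ℝ, Tendsto (md2 A U x x q) atTop (𝓝 0)}

private theorem xa_joint {U : Y → ℝ} (hU : Measurable U) :
    MeasurableSet {p : Y × (ℝ × ℝ) | Tendsto (md2 A U p.1 p.1 p.2) atTop (𝓝 0)} := by
  have h1 : Measurable fun p : Y × (ℝ × ℝ) => A.act p.1 (aa p.2.1) :=
    meas_joint A (c := fun q : ℝ × ℝ => aa q.1) (continuous_aa.comp continuous_fst)
  have h2 : Measurable fun p : Y × (ℝ × ℝ) => A.act p.1 (aa p.2.2) :=
    meas_joint A (c := fun q : ℝ × ℝ => aa q.2) (continuous_aa.comp continuous_snd)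
  have h3 : ∀ k : ℝ, Measurable fun p : Y × (ℝ × ℝ) => U (A.act (A.act p.1 (aa p.2.1)) (aa k)) :=
    fun k => hU.comp ((meas_act A (aa k)).comp h1)
  have h4 : ∀ k : ℝ, Measurable fun p : Y × (ℝ × ℝ) => U (A.act (A.act p.1 (aa p.2.2)) (aa k)) :=
    fun k => hU.comp ((meas_act A (aa k)).comp h2)
  have h5 : ∀ n : ℕ, Measurable fun p : Y × (ℝ × ℝ) => ∑ k ∈ Finset.range n,
      |U (A.act (A.act p.1 (aa p.2.1)) (aa (-(k : ℝ)))) -
        U (A.act (A.act p.1 (aa p.2.2)) (aa (-(k : ℝ))))| := by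
    intro n
    refine Finset.measurable_fun_sum (Finset.range n) fun k _ => ?_
    have h6 := (h3 (-(k : ℝ))).sub (h4 (-(k : ℝ)))
    exact continuous_abs.measurable.comp h6
  have h6 : ∀ n : ℕ, Measurable fun p : Y × (ℝ × ℝ) => md2 A U p.1 p.1 p.2 n :=
    fun n => (h5 n).const_mul (1 / (n : ℝ))
  exact measurableSet_tendsto (f := fun (n : ℕ) (p : Y × (ℝ × ℝ)) => md2 A U p.1 p.1 p.2 n)
    (𝓝 (0 : ℝ)) h6

theorem X3_meas {Ω : Set Y} (hΩ : MeasurableSet Ω) {U : Y → ℝ} (hU : Measurable U) :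
    MeasurableSet (X3 A Ω U) := by
  have h1 := measurable_measure_prodMk_left (ν := (volume : Measure (ℝ × ℝ)))
    (xa_joint A hU).compl
  have h2 : MeasurableSet {x : Y | ∀ᵐ q : ℝ × ℝ, Tendsto (md2 A U x x q) atTop (𝓝 0)} :=
    h1 (measurableSet_singleton 0)
  exact (OmP_meas A hΩ).inter h2

private theorem xa_inv {U : Y → ℝ} (hinv : ∀ y s, U (A.act y (nn s)) = U y) (x : Y)
    (s t k : ℝ) :
    U (A.act (A.act (A.act x (nn s)) (aa t)) (aa (-k))) =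
      U (A.act (A.act x (aa t)) (aa (-k))) := by
  rw [← A.act_mul, ← A.act_mul, ← A.act_mul, ← aa_add, nn_aa, A.act_mul, hinv]

theorem X3_nn {Ω : Set Y} (hΩ : MeasurableSet Ω) {U : Y → ℝ}
    (hinv : ∀ y s, U (A.act y (nn s)) = U y) (x : Y) (s : ℝ) :
    A.act x (nn s) ∈ X3 A Ω U ↔ x ∈ X3 A Ω U := by
  have h1 : ∀ q : ℝ × ℝ, md2 A U (A.act x (nn s)) (A.act x (nn s)) q = md2 A U x x q := by
    intro q
    funext n
    unfold md2 mdif
    congr 1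
    refine Finset.sum_congr rfl fun k _ => ?_
    rw [xa_inv A hinv, xa_inv A hinv]
  change (A.act x (nn s) ∈ OmP A Ω ∧ ∀ᵐ q : ℝ × ℝ,
    Tendsto (md2 A U (A.act x (nn s)) (A.act x (nn s)) q) atTop (𝓝 0)) ↔
    (x ∈ OmP A Ω ∧ ∀ᵐ q : ℝ × ℝ, Tendsto (md2 A U x x q) atTop (𝓝 0))
  rw [OmP_nn A hΩ]
  simp only [h1]

private theorem xa_aa {Ω : Set Y} (hΩ : MeasurableSet Ω) {U : Y → ℝ} {x : Y}
    (h : x ∈ X3 A Ω U) (t : ℝ) : A.act x (aa t) ∈ X3 A Ω U := by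
  refine ⟨(OmP_aa A hΩ x t).2 h.1, ?_⟩
  have h1 := (measurePreserving_add_left (volume : Measure (ℝ × ℝ))
    ((t, t) : ℝ × ℝ)).quasiMeasurePreserving.ae h.2
  refine h1.mono fun q hq => ?_
  have h2 : md2 A U (A.act x (aa t)) (A.act x (aa t)) q = md2 A U x x ((t, t) + q) := by
    funext n
    unfold md2
    rw [← A.act_mul, ← A.act_mul, ← aa_add, ← aa_add]
    rfl
  rw [h2]
  exact hq

theorem X3_aa {Ω : Set Y} (hΩ : MeasurableSet Ω) {U : Y → ℝ} (x : Y) (t : ℝ) :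
    A.act x (aa t) ∈ X3 A Ω U ↔ x ∈ X3 A Ω U := by
  refine ⟨fun h => ?_, fun h => xa_aa A hΩ h t⟩
  have h1 := xa_aa A hΩ h (-t)
  rwa [← A.act_mul, ← aa_add, add_neg_cancel, aa_zero, A.act_one] at h1

end Pool.Agent.MP27775c.DO
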